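import Pool.Agent.Star.AbsFin

/-!
# Absolute bound: high degrees and the minimal system (steps 0 and 1)
-/

set_option autoImplicit false

namespace Pool.Agent.Star

open Finset

section Start

variable {V : Type*} [Fintype V] [DecidableEq V]

/-- A largest set `F` with `|N[F]| ≥ (K + 1)|F|`. -/
lemma exists_high (N : V → Finset V) (K : ℕ) :
    ∃ F : Finset V, (K + 1) * F.card ≤ (dom N F).card ∧ ∀ v, (nbr N F v).card ≤ K := by
  classical
  let T : Finset (Finset V) := Finset.univ.powerset.filter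
    (fun F => (K + 1) * F.card ≤ (dom N F).card)
  have hT : T.Nonempty := ⟨∅, by simp [T]⟩
  obtain ⟨F, hF, hmax⟩ := Finset.exists_max_image T Finset.card hT
  simp only [T, Finset.mem_filter, Finset.mem_powerset] at hF
  refine ⟨F, hF.2, ?_⟩
  intro v
  by_contra hcon
  push Not at hcon
  have hvF : v ∉ F := by
    intro hv
    have h1 : nbr N F v = ∅ := by
      rw [Finset.eq_empty_iff_forall_notMem]
      intro x hx
      rw [mem_nbr] at hx
      exact hx.2 (Finset.mem_biUnion.2 ⟨v, hv, hx.1⟩)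
    rw [h1] at hcon
    simp at hcon
  have h2 : dom N (insert v F) = dom N F ∪ nbr N F v := by
    ext x
    simp only [dom, nbr, Finset.mem_biUnion, Finset.mem_insert, Finset.mem_union,
      Finset.mem_sdiff]
    constructor
    · rintro ⟨a, rfl | ha, hx⟩
      · by_cases hx2 : ∃ b ∈ F, x ∈ N b
        · exact Or.inl hx2
        · exact Or.inr ⟨hx, hx2⟩
      · exact Or.inl ⟨a, ha, hx⟩
    · rintro (⟨a, ha, hx⟩ | ⟨hx, -⟩)
      · exact ⟨a, Or.inr ha, hx⟩
      · exact ⟨v, Or.inl rfl, hx⟩
  have h3 : Disjoint (dom N F) (nbr N F v) := by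
    rw [Finset.disjoint_left]
    intro x hx hx2
    exact (mem_nbr.1 hx2).2 hx
  have h4 : (dom N (insert v F)).card = (dom N F).card + (nbr N F v).card := by
    rw [h2, Finset.card_union_of_disjoint h3]
  have h5 : (insert v F).card = F.card + 1 := Finset.card_insert_of_notMem hvF
  have h6 := hmax (insert v F) (by
    simp only [T, Finset.mem_filter, Finset.mem_powerset]
    refine ⟨Finset.subset_univ _, ?_⟩
    rw [h4, h5, Nat.mul_add, Nat.mul_one]
    have := hF.2
    omega)
  omega

/-- `X` is a far family of centres. -/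
def FarFam (N : V → Finset V) (K : ℕ) (F X : Finset V) : Prop :=
  (∀ x ∈ X, Ctr N K F x) ∧ ∀ x ∈ X, ∀ y ∈ X, x ≠ y → Afar N F x y

omit [Fintype V] in
lemma FarFam.card_biUnion {N : V → Finset V} {K : ℕ} {F X : Finset V} (h : FarFam N K F X) :
    (X.biUnion (nbr N F)).card = K * X.card := by
  rw [Finset.card_biUnion h.2, Finset.sum_congr rfl (fun x hx => (h.1 x hx).2)]
  simp [mul_comm]

omit [Fintype V] in
lemma FarFam.disj {N : V → Finset V} {F X : Finset V} :
    Disjoint (dom N F) (X.biUnion (nbr N F)) := by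
  rw [Finset.disjoint_left]
  intro v hv hv2
  obtain ⟨x, -, hx⟩ := Finset.mem_biUnion.1 hv2
  exact (mem_nbr.1 hx).2 hv

lemma FarFam.card_le {N : V → Finset V} {K : ℕ} {F X : Finset V} (h : FarFam N K F X) :
    (Wst N F X).card + (dom N F).card + K * X.card = Fintype.card V := by
  have h1 : (dom N F ∪ X.biUnion (nbr N F)).card = (dom N F).card + K * X.card := by
    rw [Finset.card_union_of_disjoint FarFam.disj, h.card_biUnion]
  have h2 : (Wst N F X).card + (dom N F ∪ X.biUnion (nbr N F)).card = Fintype.card V := by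
    unfold Wst
    rw [Finset.card_sdiff_add_card_eq_card (Finset.subset_univ _), Finset.card_univ]
  omega

/-- Steps 0 and 1. -/
theorem exists_system {N : V → Finset V} {K s : ℕ} (hs : ∀ x, x ∈ N x)
    (hsym : ∀ x y, x ∈ N y → y ∈ N x) (hK : 2 ≤ K)
    (iso : ∀ D : Finset V, D.card < s → ∃ S, IsStar N K S ∧ ∀ d ∈ D, Disjoint S (N d)) :
    ∃ F X Z, ASys N K s F X Z ∧
      (Wst N F X).card + 3 * F.card + 3 * (K * s) ≤ 3 * Fintype.card V ∧
      Z.card + K * s ≤ Fintype.card V := by
  classical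
  obtain ⟨F, hF, hdeg⟩ := exists_high N K
  -- any set containing `F` with fewer than `s` elements leaves a centre
  have alive : ∀ D : Finset V, F ⊆ D → D.card < s →
      ∃ c, Ctr N K F c ∧ ∀ d ∈ D, Afar N F d c := by
    intro D hFD hD
    obtain ⟨S, ⟨hS, c, hc, hcN⟩, hd⟩ := iso D hD
    have h1 : S ⊆ nbr N F c := by
      intro v hv
      rw [mem_nbr]
      refine ⟨hcN hv, fun hv2 => ?_⟩
      obtain ⟨x, hx, hvx⟩ := Finset.mem_biUnion.1 hv2
      exact Finset.disjoint_left.1 (hd x (hFD hx)) hv hvx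
    have h2 : S = nbr N F c := Finset.eq_of_subset_of_card_le h1 (by rw [hS]; exact hdeg c)
    refine ⟨c, ⟨(mem_nbr.1 (h1 hc)).2, by rw [← h2, hS]⟩, fun d hdD => ?_⟩
    unfold Afar
    rw [← h2]
    refine ((hd d hdD).mono_right ?_).symm
    intro v hv
    exact (mem_nbr.1 hv).1
  have hself : ∀ c, Ctr N K F c → ¬ Afar N F c c := by
    intro c hc
    have h1 : c ∈ nbr N F c := mem_nbr.2 ⟨hs c, hc.1⟩
    exact not_afar h1 h1
  -- a maximal far family
  let T : Finset (Finset V) := Finset.univ.powerset.filter (fun X => FarFam N K F X)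
  have hT : T.Nonempty := ⟨∅, by simp [T, FarFam]⟩
  obtain ⟨X0, hX0, hmax⟩ := Finset.exists_max_image T Finset.card hT
  simp only [T, Finset.mem_filter, Finset.mem_powerset] at hX0
  replace hX0 := hX0.2
  have hisol0 : ∀ c, Ctr N K F c → ∃ d ∈ X0 ∪ F, ¬ Afar N F d c := by
    intro c hc
    by_contra hcon
    push Not at hcon
    have hfar : ∀ d ∈ X0, Afar N F d c := fun d hd => hcon d (Finset.mem_union_left _ hd)
    have hcX : c ∉ X0 := fun hh => hself c hc (hfar c hh)
    have h1 := hmax (insert c X0) (by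
      simp only [T, Finset.mem_filter, Finset.mem_powerset]
      refine ⟨Finset.subset_univ _, ?_, ?_⟩
      · intro x hx
        rcases Finset.mem_insert.1 hx with rfl | hx
        · exact hc
        · exact hX0.1 x hx
      · intro x hx y hy hxy
        rcases Finset.mem_insert.1 hx with h1 | h1 <;> rcases Finset.mem_insert.1 hy with h2 | h2
        · exact absurd (h1.trans h2.symm) hxy
        · rw [h1]; exact (hfar y h2).symm
        · rw [h2]; exact hfar x h1
        · exact hX0.2 x h1 y h2 hxy)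
    rw [Finset.card_insert_of_notMem hcX] at h1
    omega
  -- the minimal system
  let P : ℕ → Prop := fun m => ∃ X Z : Finset V, F ⊆ Z ∧ FarFam N K F X ∧
    (∀ c, Ctr N K F c → ∃ d ∈ X ∪ Z, ¬ Afar N F d c) ∧ X.card + Z.card = m ∧
    Z.card + 2 * m ≤ F.card + 2 * (X0.card + F.card)
  have hP0 : P (X0.card + F.card) :=
    ⟨X0, F, Finset.Subset.refl _, hX0, hisol0, rfl, le_refl _⟩
  have hP : ∃ m, P m := ⟨_, hP0⟩
  obtain ⟨X, Z, hFZ, hX, hisol, hm, hZm⟩ := Nat.find_spec hP
  have hmin : ∀ m, P m → X.card + Z.card ≤ m := by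
    intro m h
    rw [hm]
    exact Nat.find_min' hP h
  rw [← hm] at hZm
  have hmu := hmin _ hP0
  have hsmu : s ≤ X.card + Z.card := by
    by_contra hcon
    push Not at hcon
    have h1 : (X ∪ Z).card < s := lt_of_le_of_lt (Finset.card_union_le _ _) hcon
    obtain ⟨c, hc, hfar⟩ := alive (X ∪ Z) (hFZ.trans Finset.subset_union_right) h1
    obtain ⟨d, hd, hd2⟩ := hisol c hc
    exact hd2 (hfar d hd)
  have hn0 := hX0.card_le
  have hn := hX.card_le
  obtain ⟨a, ha⟩ : ∃ a, K = a + 2 := ⟨K - 2, by omega⟩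
  have hKs : K * s ≤ K * (X.card + Z.card) := Nat.mul_le_mul_left _ hsmu
  have hKm : a * (X.card + Z.card) ≤ a * (X0.card + F.card) := Nat.mul_le_mul_left _ hmu
  have e1 : K * (X.card + Z.card) = K * X.card + K * Z.card := by ring
  have e2 : (K + 1) * F.card = K * F.card + F.card := by ring
  have e3 : K * (X.card + Z.card) = a * (X.card + Z.card) + 2 * (X.card + Z.card) := by
    rw [ha]; ring
  have e4 : K * X0.card + K * F.card = a * (X0.card + F.card) + 2 * (X0.card + F.card) := by
    rw [ha]; ring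
  refine ⟨F, X, Z, ⟨hs, hsym, iso, hdeg, hFZ, hX.1, hX.2, hisol, ?_, hsmu⟩, ?_, ?_⟩
  · intro Y E hY1 hY2 hE hlt
    by_contra hcon
    push Not at hcon
    have h1 := hmin (Y.card + (Z ∪ E).card) ⟨Y, Z ∪ E, hFZ.trans Finset.subset_union_left,
      ⟨hY1, hY2⟩, hcon, rfl, by
        have := Finset.card_union_le Z E
        omega⟩
    have h2 := Finset.card_union_le Z E
    omega
  · have hKZ : K * (Z.card + 2 * (X.card + Z.card)) ≤ K * (F.card + 2 * (X0.card + F.card)) :=
      Nat.mul_le_mul_left _ hZm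
    have e5 : K * (Z.card + 2 * (X.card + Z.card)) = K * Z.card + 2 * (K * (X.card + Z.card)) := by
      ring
    have e6 : K * (F.card + 2 * (X0.card + F.card)) =
        K * F.card + 2 * (K * X0.card + K * F.card) := by ring
    omega
  · omega

end Start

end Pool.Agent.Star
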