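import Pool.Agent.Star.Main

/-!
# Star isolation: an absolute constant for all graphs

Basic structure and the survivor lemma.  `H` is the part of the graph that remains after the
vertices of `N[D_h]` have been removed, `N x` is the closed neighbourhood of `x` inside `H`
(`x` may be outside `H`).
-/

set_option autoImplicit false
set_option linter.unusedSectionVars false

namespace Pool.Agent.Star.Abg

open Finset

variable {U : Type*} [Fintype U] [DecidableEq U]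

/-- Closed neighbourhoods inside `H`, all of size `≤ K`. -/
structure Gr (N : U → Finset U) (K : ℕ) (H : Finset U) : Prop where
  sub : ∀ x, N x ⊆ H
  refl : ∀ x ∈ H, x ∈ N x
  symm : ∀ x ∈ H, ∀ y ∈ H, x ∈ N y → y ∈ N x
  K1 : 1 ≤ K
  deg : ∀ x, (N x).card ≤ K

/-- A family of centres with pairwise disjoint closed neighbourhoods. -/
structure FF (N : U → Finset U) (K : ℕ) (H : Finset U) (R : Finset U) : Prop where
  sub : R ⊆ H
  cen : ∀ c ∈ R, (N c).card = K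
  far : ∀ c ∈ R, ∀ d ∈ R, c ≠ d → Disjoint (N c) (N d)

/-- Every centre is near an element of `D`. -/
def Kills (N : U → Finset U) (K : ℕ) (H : Finset U) (D : Finset U) : Prop :=
  ∀ c ∈ H, (N c).card = K → ∃ d ∈ D, ¬ Disjoint (N d) (N c)

/-- The situation after the pigeonhole argument. -/
structure Base (N : U → Finset U) (K : ℕ) (H : Finset U) (D1 R Φ : Finset U) : Prop where
  gr : Gr N K H
  ff : FF N K H R
  str : ∀ E R' : Finset U, E.card ≤ 2 → FF N K H R' → E.card + R'.card < R.card →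
      ∃ p ∈ H, (N p).card = K ∧ (∀ d ∈ D1, Disjoint (N d) (N p)) ∧
        (∀ d ∈ E, Disjoint (N d) (N p)) ∧ ∀ d ∈ R', Disjoint (N d) (N p)
  PhiR : Φ ⊆ R
  guard : ∀ p ∈ H, (N p).card = K → (∀ d ∈ D1, Disjoint (N d) (N p)) →
      (∀ φ ∈ Φ, Disjoint (N φ) (N p)) → ∃ k ∈ R, p ∈ N k

section
variable {N : U → Finset U} {K : ℕ} {H D1 R Φ : Finset U}

lemma Gr.meet (h : Gr N K H) {a b z : U} (hz : z ∈ H) (ha : a ∈ N z) (hb : b ∈ N z) :
    ¬ Disjoint (N a) (N b) := by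
  rw [Finset.not_disjoint_iff]
  exact ⟨z, h.symm _ (h.sub _ ha) _ hz ha, h.symm _ (h.sub _ hb) _ hz hb⟩

/-- Symmetry between members. -/
lemma Gr.sy (h : Gr N K H) {x y : U} (hy : y ∈ H) (hxy : x ∈ N y) : y ∈ N x :=
  h.symm _ (h.sub _ hxy) _ hy hxy

/-- The survivor lemma. -/
lemma Base.sv (h : Base N K H D1 R Φ) (x : U → U) (J E : Finset U) (hJ : J ⊆ R)
    (hJΦ : ∀ c ∈ J, c ∉ Φ) (hE : E.card < J.card) (hE2 : E.card ≤ 2)
    (hm : ∀ c ∈ R, c ∉ J → x c ∈ N c) (hc : ∀ c ∈ R, c ∉ J → (N (x c)).card = K)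
    (hf : ∀ c ∈ R, c ∉ J → ∀ d ∈ R, d ∉ J → c ≠ d → Disjoint (N (x c)) (N (x d)))
    (hΦ : ∀ φ ∈ Φ, x φ = φ) :
    ∃ p ∈ H, (N p).card = K ∧ (∀ e ∈ E, Disjoint (N e) (N p)) ∧
      (∀ c ∈ R, c ∉ J → Disjoint (N (x c)) (N p)) ∧
      ∃ k ∈ J, p ∈ N k ∧ ∀ e ∈ E, e ∉ N k := by
  have hFF : FF N K H ((R \ J).image x) := by
    refine ⟨?_, ?_, ?_⟩
    · intro c hc'
      obtain ⟨a, ha, rfl⟩ := Finset.mem_image.1 hc'
      rw [Finset.mem_sdiff] at ha
      exact h.gr.sub _ (hm a ha.1 ha.2)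
    · intro c hc'
      obtain ⟨a, ha, rfl⟩ := Finset.mem_image.1 hc'
      rw [Finset.mem_sdiff] at ha
      exact hc a ha.1 ha.2
    · intro c hc' d hd' hne
      obtain ⟨a, ha, rfl⟩ := Finset.mem_image.1 hc'
      obtain ⟨b, hb, rfl⟩ := Finset.mem_image.1 hd'
      rw [Finset.mem_sdiff] at ha hb
      exact hf a ha.1 ha.2 b hb.1 hb.2 (fun hh => hne (by rw [hh]))
  have hcard : E.card + ((R \ J).image x).card < R.card := by
    have h1 : ((R \ J).image x).card ≤ (R \ J).card := Finset.card_image_le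
    have h2 : (R \ J).card = R.card - J.card := Finset.card_sdiff_of_subset hJ
    have h3 : J.card ≤ R.card := Finset.card_le_card hJ
    omega
  obtain ⟨p, hpH, hpK, hp1, hp2, hp3⟩ := h.str E _ hE2 hFF hcard
  have hp3' : ∀ c ∈ R, c ∉ J → Disjoint (N (x c)) (N p) := by
    intro c hcR hcJ
    exact hp3 _ (Finset.mem_image_of_mem x (Finset.mem_sdiff.2 ⟨hcR, hcJ⟩))
  obtain ⟨k, hk, hpk⟩ := h.guard p hpH hpK hp1 (by
    intro φ hφ
    have hφJ : φ ∉ J := fun hh => hJΦ φ hh hφ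
    have := hp3' φ (h.PhiR hφ) hφJ
    rwa [hΦ φ hφ] at this)
  have hkH : k ∈ H := h.ff.sub hk
  refine ⟨p, hpH, hpK, hp2, hp3', k, ?_, hpk, ?_⟩
  · by_contra hkJ
    exact h.gr.meet hkH (hm k hk hkJ) hpk (hp3' k hk hkJ)
  · intro e he hek
    exact h.gr.meet hkH hek hpk (hp2 e he)

end

end Pool.Agent.Star.Abg
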