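import Pool.Agent.Star.Abg4

/-!
# Star isolation, absolute constant (all graphs): first greedy stage

`A x` is the closed neighbourhood of `x` in the whole graph.  `T0` is the union of tiles centred
at `P0`, `V b` (`b ∈ I`) are the blocks.
-/

set_option autoImplicit false
set_option linter.unusedSectionVars false

namespace Pool.Agent.Star.Abg

open Finset

variable {U : Type*} [Fintype U] [DecidableEq U]

/-- `D` is an isolating set. -/
def IsoU (A : U → Finset U) (K : ℕ) (D : Finset U) : Prop :=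
  ∀ p, p ∉ D.biUnion A → (A p \ D.biUnion A).card < K

/-- A system of tiles and clean blocks. -/
structure Sys (A : U → Finset U) (K f0 q : ℕ) (P0 T0 I : Finset U) (V B : U → Finset U) : Prop where
  refl : ∀ x, x ∈ A x
  symm : ∀ x y, x ∈ A y → y ∈ A x
  hf0 : ∀ D : Finset U, IsoU A K D → f0 ≤ D.card
  n : (univ : Finset U).card = K * f0 + q
  T0sub : T0 ⊆ P0.biUnion A
  T0card : T0.card = K * P0.card
  Vsub : ∀ b ∈ I, V b ⊆ (B b).biUnion A
  BV : ∀ b ∈ I, B b ⊆ V b
  bB : ∀ b ∈ I, b ∈ B b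
  B2 : ∀ b ∈ I, (B b).card ≤ 2
  Vcard : ∀ b ∈ I, (V b).card = K * (B b).card
  T0V : ∀ b ∈ I, Disjoint T0 (V b)
  VV : ∀ b ∈ I, ∀ b' ∈ I, b ≠ b' → Disjoint (V b) (V b')
  P0V : ∀ d ∈ P0, ∀ b ∈ I, Disjoint (A d) (V b)
  touch : ∀ x, ∀ b ∈ I, ∀ b' ∈ I, b ≠ b' → ¬ Disjoint (A x) (V b) → ¬ Disjoint (A x) (V b') → False

/-- The vertices outside the tiles of `P0` and the blocks. -/
def OO (T0 I : Finset U) (V : U → Finset U) : Finset U := univ \ (T0 ∪ I.biUnion V)

lemma mem_OO {T0 I : Finset U} {V : U → Finset U} {x : U} :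
    x ∈ OO T0 I V ↔ x ∉ T0 ∧ ∀ b ∈ I, x ∉ V b := by
  simp [OO]

/-- The states of the first stage. -/
structure St1 (A : U → Finset U) (K : ℕ) (T0 I : Finset U) (V : U → Finset U) (y : U → U)
    (I0 Fa : Finset U) (S : U → Finset U) : Prop where
  sub : I0 ⊆ I
  SA : ∀ a ∈ Fa, S a ⊆ A a
  SK : ∀ a ∈ Fa, K ≤ (S a).card
  ST0 : ∀ a ∈ Fa, Disjoint (S a) T0
  AV : ∀ a ∈ Fa, ∀ b ∈ I0, Disjoint (A a) (V b)
  Sy : ∀ a ∈ Fa, ∀ b ∈ I0, Disjoint (S a) (A (y b))
  SS : ∀ a ∈ Fa, ∀ a' ∈ Fa, a ≠ a' → Disjoint (S a) (S a')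
  out : ∀ b ∈ I, b ∉ I0 → ∃ a ∈ Fa, ¬ Disjoint (A a) (V b) ∧ (K + 1 ≤ (S a).card ∨ a ∈ OO T0 I V)

/-- The set `D` of a state of the first stage. -/
def D1 (P0 : Finset U) (B : U → Finset U) (y : U → U) (I0 Fa : Finset U) : Finset U :=
  (P0 ∪ Fa) ∪ I0.biUnion (fun b => insert (y b) ((B b).erase b))

section
variable {A : U → Finset U} {K f0 q : ℕ} {P0 T0 I : Finset U} {V B : U → Finset U} {y g : U → U}

lemma not_disj {s t : Finset U} {z : U} (h1 : z ∈ s) (h2 : z ∈ t) : ¬ Disjoint s t := by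
  rw [Finset.not_disjoint_iff]
  exact ⟨z, h1, h2⟩

/-- One step of the first stage. -/
lemma Sys.step1 (h : Sys A K f0 q P0 T0 I V B) (hy : ∀ b ∈ I, y b ∈ V b ∧ y b ∈ A b)
    {I0 Fa : Finset U} {S : U → Finset U} (hs : St1 A K T0 I V y I0 Fa S) {p : U}
    (hp : p ∉ (D1 P0 B y I0 Fa).biUnion A) (hpK : K ≤ (A p \ (D1 P0 B y I0 Fa).biUnion A).card) :
    p ∉ Fa ∧ ∃ I0' S', St1 A K T0 I V y I0' (insert p Fa) S' := by
  classical
  set D := D1 P0 B y I0 Fa with hD
  have hPD : ∀ d ∈ P0, d ∈ D := fun d hd =>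
    Finset.mem_union_left _ (Finset.mem_union_left _ hd)
  have hFD : ∀ d ∈ Fa, d ∈ D := fun d hd =>
    Finset.mem_union_left _ (Finset.mem_union_right _ hd)
  have hID : ∀ b ∈ I0, ∀ d ∈ insert (y b) ((B b).erase b), d ∈ D := fun b hb d hd =>
    Finset.mem_union_right _ (Finset.mem_biUnion.2 ⟨b, hb, hd⟩)
  have hpD : ∀ d ∈ D, p ∉ A d := fun d hd hpd => hp (Finset.mem_biUnion.2 ⟨d, hd, hpd⟩)
  have hpFa : p ∉ Fa := fun hh => hpD p (hFD p hh) (h.refl p)
  refine ⟨hpFa, ?_⟩
  by_cases htch : ∃ b ∈ I0, ¬ Disjoint (A p) (V b)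
  · obtain ⟨b, hb, hpb⟩ := htch
    have hbI := hs.sub hb
    set D' := D1 P0 B y (I0.erase b) Fa with hD'
    have hD'D : D' ⊆ D := by
      intro d hd
      rcases Finset.mem_union.1 hd with hd | hd
      · exact Finset.mem_union_left _ hd
      · obtain ⟨b', hb', hdb⟩ := Finset.mem_biUnion.1 hd
        exact hID b' (Finset.mem_of_mem_erase hb') d hdb
    have hPD' : ∀ d ∈ P0, d ∈ D' := fun d hd =>
      Finset.mem_union_left _ (Finset.mem_union_left _ hd)
    have hFD' : ∀ d ∈ Fa, d ∈ D' := fun d hd =>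
      Finset.mem_union_left _ (Finset.mem_union_right _ hd)
    have hID' : ∀ b' ∈ I0.erase b, ∀ d ∈ insert (y b') ((B b').erase b'), d ∈ D' :=
      fun b' hb' d hd => Finset.mem_union_right _ (Finset.mem_biUnion.2 ⟨b', hb', hd⟩)
    have hbig : A p \ D.biUnion A ⊆ A p \ D'.biUnion A := by
      apply Finset.sdiff_subset_sdiff (Finset.Subset.refl _)
      exact Finset.biUnion_subset_biUnion_of_subset_left _ hD'D
    have hKp : K ≤ (A p \ D'.biUnion A).card := hpK.trans (Finset.card_le_card hbig)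
    refine ⟨I0.erase b, Function.update S p (A p \ D'.biUnion A), ?_⟩
    have hup : ∀ a ∈ Fa, Function.update S p (A p \ D'.biUnion A) a = S a := by
      intro a ha
      have hne : a ≠ p := fun hh => hpFa (hh ▸ ha)
      exact Function.update_of_ne hne _ _
    have hself : Function.update S p (A p \ D'.biUnion A) p = A p \ D'.biUnion A :=
      Function.update_self _ _ _
    refine ⟨(Finset.erase_subset _ _).trans hs.sub, ?_, ?_, ?_, ?_, ?_, ?_, ?_⟩
    · intro a ha
      rcases Finset.mem_insert.1 ha with ha | ha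
      · rw [ha, hself]; exact Finset.sdiff_subset
      · rw [hup a ha]; exact hs.SA a ha
    · intro a ha
      rcases Finset.mem_insert.1 ha with ha | ha
      · rw [ha, hself]; exact hKp
      · rw [hup a ha]; exact hs.SK a ha
    · intro a ha
      rcases Finset.mem_insert.1 ha with ha | ha
      · rw [ha, hself, Finset.disjoint_left]
        intro x hx hxT
        obtain ⟨d, hd, hxd⟩ := Finset.mem_biUnion.1 (h.T0sub hxT)
        exact (Finset.mem_sdiff.1 hx).2 (Finset.mem_biUnion.2 ⟨d, hPD' d hd, hxd⟩)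
      · rw [hup a ha]; exact hs.ST0 a ha
    · intro a ha b' hb'
      have hb'' := Finset.mem_of_mem_erase hb'
      rcases Finset.mem_insert.1 ha with ha | ha
      · rw [ha]
        by_contra hnd
        exact h.touch p b hbI b' (hs.sub hb'') (Finset.ne_of_mem_erase hb').symm hpb hnd
      · exact hs.AV a ha b' hb''
    · intro a ha b' hb'
      have hb'' := Finset.mem_of_mem_erase hb'
      rcases Finset.mem_insert.1 ha with ha | ha
      · rw [ha, hself, Finset.disjoint_left]
        intro x hx hxy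
        exact (Finset.mem_sdiff.1 hx).2 (Finset.mem_biUnion.2
          ⟨y b', hID' b' hb' _ (Finset.mem_insert_self _ _), hxy⟩)
      · rw [hup a ha]; exact hs.Sy a ha b' hb''
    · have key : ∀ a ∈ Fa, Disjoint (A p \ D'.biUnion A) (S a) := by
        intro a ha
        rw [Finset.disjoint_left]
        intro x hx hxa
        exact (Finset.mem_sdiff.1 hx).2 (Finset.mem_biUnion.2 ⟨a, hFD' a ha, hs.SA a ha hxa⟩)
      intro a ha a' ha' hne
      rcases Finset.mem_insert.1 ha with ha | ha <;> rcases Finset.mem_insert.1 ha' with ha' | ha'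
      · exact absurd (ha.trans ha'.symm) hne
      · rw [ha, hself, hup a' ha']; exact key a' ha'
      · rw [ha', hself, hup a ha]; exact (key a ha).symm
      · rw [hup a ha, hup a' ha']; exact hs.SS a ha a' ha' hne
    · intro b' hb' hb'n
      by_cases hbb : b' = b
      · rw [hbb]
        refine ⟨p, Finset.mem_insert_self _ _, hpb, ?_⟩
        rw [hself]
        by_cases hpV : p ∈ V b
        · left
          obtain ⟨c, hc, hpc⟩ := Finset.mem_biUnion.1 (h.Vsub b hbI hpV)
          have hcb : c = b := by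
            by_contra hcb
            exact hpD c (hID b hb c (Finset.mem_insert_of_mem (Finset.mem_erase.2 ⟨hcb, hc⟩))) hpc
          rw [hcb] at hpc
          have hbp : b ∈ A p := h.symm _ _ hpc
          have hbV : b ∈ V b := h.BV b hbI (h.bB b hbI)
          have hbD : b ∈ D.biUnion A := Finset.mem_biUnion.2
            ⟨y b, hID b hb _ (Finset.mem_insert_self _ _), h.symm _ _ (hy b hbI).2⟩
          have hbD' : b ∉ D'.biUnion A := by
            intro hh
            obtain ⟨d, hd, hbd⟩ := Finset.mem_biUnion.1 hh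
            rcases Finset.mem_union.1 hd with hd | hd
            · rcases Finset.mem_union.1 hd with hd | hd
              · exact Finset.disjoint_left.1 (h.P0V d hd b hbI) hbd hbV
              · exact Finset.disjoint_left.1 (hs.AV d hd b hb) hbd hbV
            · obtain ⟨b2, hb2, hdb⟩ := Finset.mem_biUnion.1 hd
              have hb2' := hs.sub (Finset.mem_of_mem_erase hb2)
              have hdV : d ∈ V b2 := by
                rcases Finset.mem_insert.1 hdb with h1 | h1
                · rw [h1]; exact (hy b2 hb2').1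
                · exact h.BV b2 hb2' (Finset.mem_of_mem_erase h1)
              exact h.touch d b hbI b2 hb2' (Finset.ne_of_mem_erase hb2).symm
                (not_disj hbd hbV) (not_disj (h.refl d) hdV)
          have hlt : A p \ D.biUnion A ⊂ A p \ D'.biUnion A := by
            refine ⟨hbig, fun hh => ?_⟩
            exact (Finset.mem_sdiff.1 (hh (Finset.mem_sdiff.2 ⟨hbp, hbD'⟩))).2 hbD
          have := Finset.card_lt_card hlt
          omega
        · right
          rw [mem_OO]
          refine ⟨?_, ?_⟩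
          · intro hpT
            obtain ⟨d, hd, hpd⟩ := Finset.mem_biUnion.1 (h.T0sub hpT)
            exact hpD d (hPD d hd) hpd
          · intro b2 hb2 hpV2
            by_cases hb2b : b2 = b
            · exact hpV (hb2b ▸ hpV2)
            · exact h.touch p b hbI b2 hb2 (Ne.symm hb2b) hpb (not_disj (h.refl p) hpV2)
      · have hb'0 : b' ∉ I0 := fun hh => hb'n (Finset.mem_erase.2 ⟨hbb, hh⟩)
        obtain ⟨a, ha, h1, h2⟩ := hs.out b' hb' hb'0
        refine ⟨a, Finset.mem_insert_of_mem ha, h1, ?_⟩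
        rw [hup a ha]; exact h2
  · push Not at htch
    refine ⟨I0, Function.update S p (A p \ D.biUnion A), ?_⟩
    have hup : ∀ a ∈ Fa, Function.update S p (A p \ D.biUnion A) a = S a := by
      intro a ha
      have hne : a ≠ p := fun hh => hpFa (hh ▸ ha)
      exact Function.update_of_ne hne _ _
    have hself : Function.update S p (A p \ D.biUnion A) p = A p \ D.biUnion A :=
      Function.update_self _ _ _
    refine ⟨hs.sub, ?_, ?_, ?_, ?_, ?_, ?_, ?_⟩
    · intro a ha
      rcases Finset.mem_insert.1 ha with ha | ha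
      · rw [ha, hself]; exact Finset.sdiff_subset
      · rw [hup a ha]; exact hs.SA a ha
    · intro a ha
      rcases Finset.mem_insert.1 ha with ha | ha
      · rw [ha, hself]; exact hpK
      · rw [hup a ha]; exact hs.SK a ha
    · intro a ha
      rcases Finset.mem_insert.1 ha with ha | ha
      · rw [ha, hself, Finset.disjoint_left]
        intro x hx hxT
        obtain ⟨d, hd, hxd⟩ := Finset.mem_biUnion.1 (h.T0sub hxT)
        exact (Finset.mem_sdiff.1 hx).2 (Finset.mem_biUnion.2 ⟨d, hPD d hd, hxd⟩)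
      · rw [hup a ha]; exact hs.ST0 a ha
    · intro a ha b' hb'
      rcases Finset.mem_insert.1 ha with ha | ha
      · rw [ha]; exact htch b' hb'
      · exact hs.AV a ha b' hb'
    · intro a ha b' hb'
      rcases Finset.mem_insert.1 ha with ha | ha
      · rw [ha, hself, Finset.disjoint_left]
        intro x hx hxy
        exact (Finset.mem_sdiff.1 hx).2 (Finset.mem_biUnion.2
          ⟨y b', hID b' hb' _ (Finset.mem_insert_self _ _), hxy⟩)
      · rw [hup a ha]; exact hs.Sy a ha b' hb'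
    · have key : ∀ a ∈ Fa, Disjoint (A p \ D.biUnion A) (S a) := by
        intro a ha
        rw [Finset.disjoint_left]
        intro x hx hxa
        exact (Finset.mem_sdiff.1 hx).2 (Finset.mem_biUnion.2 ⟨a, hFD a ha, hs.SA a ha hxa⟩)
      intro a ha a' ha' hne
      rcases Finset.mem_insert.1 ha with ha | ha <;> rcases Finset.mem_insert.1 ha' with ha' | ha'
      · exact absurd (ha.trans ha'.symm) hne
      · rw [ha, hself, hup a' ha']; exact key a' ha'
      · rw [ha', hself, hup a ha]; exact (key a ha).symm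
      · rw [hup a ha, hup a' ha']; exact hs.SS a ha a' ha' hne
    · intro b' hb' hb'n
      obtain ⟨a, ha, h1, h2⟩ := hs.out b' hb' hb'n
      refine ⟨a, Finset.mem_insert_of_mem ha, h1, ?_⟩
      rw [hup a ha]; exact h2

/-- The end of the first stage. -/
lemma Sys.end1 (h : Sys A K f0 q P0 T0 I V B) (hy : ∀ b ∈ I, y b ∈ V b ∧ y b ∈ A b) :
    ∀ (m : ℕ) (I0 Fa : Finset U) (S : U → Finset U), St1 A K T0 I V y I0 Fa S →
      Fa.card + m = (univ : Finset U).card →
      ∃ I0 Fa S, St1 A K T0 I V y I0 Fa S ∧ IsoU A K (D1 P0 B y I0 Fa) := by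
  intro m
  induction m with
  | zero =>
    intro I0 Fa S hs hm
    refine ⟨I0, Fa, S, hs, ?_⟩
    intro p hp
    exfalso
    have hFa : Fa = univ := Finset.eq_univ_of_card _ (by simpa using hm)
    apply hp
    refine Finset.mem_biUnion.2 ⟨p, Finset.mem_union_left _ (Finset.mem_union_right _ ?_), h.refl p⟩
    rw [hFa]; exact Finset.mem_univ p
  | succ m ih =>
    intro I0 Fa S hs hm
    by_cases hiso : IsoU A K (D1 P0 B y I0 Fa)
    · exact ⟨I0, Fa, S, hs, hiso⟩
    · unfold IsoU at hiso
      push Not at hiso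
      obtain ⟨p, hp, hpK⟩ := hiso
      obtain ⟨hpFa, I0', S', hs'⟩ := h.step1 hy hs hp hpK
      refine ih I0' (insert p Fa) S' hs' ?_
      rw [Finset.card_insert_of_notMem hpFa]
      omega

/-- **First stage.** Up to `q` of them, the blocks are touched by vertices of `OO` with large
pairwise disjoint private sets. -/
lemma Sys.stage1 (h : Sys A K f0 q P0 T0 I V B)
    (hy : ∀ b ∈ I, y b ∈ V b ∧ y b ∈ A b) (hg : ∀ b ∈ I, g b ∈ A (y b) ∧ g b ∈ OO T0 I V) :
    ∃ (J : Finset U) (α : U → U) (S : U → Finset U), J ⊆ I ∧ I.card ≤ q + J.card ∧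
      (∀ b ∈ J, α b ∈ OO T0 I V ∧ ¬ Disjoint (A (α b)) (V b) ∧ S b ⊆ A (α b) ∧ K ≤ (S b).card ∧
        Disjoint (S b) T0) ∧ ∀ b ∈ J, ∀ b' ∈ J, b ≠ b' → Disjoint (S b) (S b') := by
  classical
  obtain ⟨I0, Fa, S, hs, hiso⟩ := h.end1 hy (univ : Finset U).card I ∅ (fun _ => ∅)
    ⟨Finset.Subset.refl _, by simp, by simp, by simp, by simp, by simp, by simp,
      fun b hb hb' => absurd hb hb'⟩ (by simp)
  have hf := h.hf0 _ hiso
  -- the size of D
  have hDc : (D1 P0 B y I0 Fa).card ≤ P0.card + Fa.card + ∑ b ∈ I0, (B b).card := by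
    have h1 : (D1 P0 B y I0 Fa).card ≤ (P0 ∪ Fa).card +
      (I0.biUnion (fun b => insert (y b) ((B b).erase b))).card := Finset.card_union_le _ _
    have h2 := Finset.card_union_le P0 Fa
    have h3 : (I0.biUnion (fun b => insert (y b) ((B b).erase b))).card ≤
        ∑ b ∈ I0, (B b).card := by
      refine Finset.card_biUnion_le.trans (Finset.sum_le_sum ?_)
      intro b hb
      have h5 := Finset.card_insert_le (y b) ((B b).erase b)
      have h6 := Finset.card_erase_add_one (h.bB b (hs.sub hb))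
      omega
    omega
  -- the disjoint union
  set X1 := Fa.filter (fun a => K + 1 ≤ (S a).card) with hX1
  have hSsum : K * Fa.card + X1.card ≤ ∑ a ∈ Fa, (S a).card := by
    have : ∑ a ∈ Fa, (K + if K + 1 ≤ (S a).card then 1 else 0) ≤ ∑ a ∈ Fa, (S a).card := by
      apply Finset.sum_le_sum
      intro a ha
      have := hs.SK a ha
      split_ifs with h1
      · exact h1
      · simpa using this
    rw [Finset.sum_add_distrib, Finset.sum_const, smul_eq_mul, Finset.sum_boole] at this
    rw [hX1, mul_comm]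
    simpa using this
  have hu : T0.card + ∑ b ∈ I0, (V b).card + ∑ a ∈ Fa, (S a).card + I0.card ≤
      (univ : Finset U).card := by
    have e1 : (I0.biUnion V).card = ∑ b ∈ I0, (V b).card :=
      Finset.card_biUnion (fun b hb b' hb' hne => h.VV b (hs.sub hb) b' (hs.sub hb') hne)
    have e2 : (Fa.biUnion S).card = ∑ a ∈ Fa, (S a).card :=
      Finset.card_biUnion (fun a ha a' ha' hne => hs.SS a ha a' ha' hne)
    have e3 : (I0.image g).card = I0.card := by
      apply Finset.card_image_of_injOn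
      intro b hb b' hb' hgg
      by_contra hne
      have hbI := hs.sub hb
      have hbI' := hs.sub hb'
      exact h.touch (g b) b hbI b' hbI' hne
        (not_disj (h.symm _ _ (hg b hbI).1) (hy b hbI).1)
        (not_disj (by rw [hgg]; exact h.symm _ _ (hg b' hbI').1) (hy b' hbI').1)
    have d1 : Disjoint T0 (I0.biUnion V) := by
      rw [Finset.disjoint_left]
      intro x hx hx'
      obtain ⟨b, hb, hxb⟩ := Finset.mem_biUnion.1 hx'
      exact Finset.disjoint_left.1 (h.T0V b (hs.sub hb)) hx hxb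
    have d2 : Disjoint (T0 ∪ I0.biUnion V) (Fa.biUnion S) := by
      rw [Finset.disjoint_left]
      intro x hx hx'
      obtain ⟨a, ha, hxa⟩ := Finset.mem_biUnion.1 hx'
      rcases Finset.mem_union.1 hx with hx | hx
      · exact Finset.disjoint_left.1 (hs.ST0 a ha) hxa hx
      · obtain ⟨b, hb, hxb⟩ := Finset.mem_biUnion.1 hx
        exact Finset.disjoint_left.1 (hs.AV a ha b hb) (hs.SA a ha hxa) hxb
    have d3 : Disjoint ((T0 ∪ I0.biUnion V) ∪ Fa.biUnion S) (I0.image g) := by
      rw [Finset.disjoint_left]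
      intro x hx hx'
      obtain ⟨b, hb, rfl⟩ := Finset.mem_image.1 hx'
      have hgO := (hg b (hs.sub hb)).2
      rw [mem_OO] at hgO
      rcases Finset.mem_union.1 hx with hx | hx
      · rcases Finset.mem_union.1 hx with hx | hx
        · exact hgO.1 hx
        · obtain ⟨b', hb', hxb⟩ := Finset.mem_biUnion.1 hx
          exact hgO.2 b' (hs.sub hb') hxb
      · obtain ⟨a, ha, hxa⟩ := Finset.mem_biUnion.1 hx
        exact Finset.disjoint_left.1 (hs.Sy a ha b hb) hxa (hg b (hs.sub hb)).1
    calc T0.card + ∑ b ∈ I0, (V b).card + ∑ a ∈ Fa, (S a).card + I0.card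
        = (((T0 ∪ I0.biUnion V) ∪ Fa.biUnion S) ∪ I0.image g).card := by
          rw [Finset.card_union_of_disjoint d3, Finset.card_union_of_disjoint d2,
            Finset.card_union_of_disjoint d1, e1, e2, e3]
      _ ≤ _ := Finset.card_le_card (Finset.subset_univ _)
  have hVs : ∑ b ∈ I0, (V b).card = K * ∑ b ∈ I0, (B b).card := by
    rw [Finset.mul_sum]
    exact Finset.sum_congr rfl (fun b hb => h.Vcard b (hs.sub hb))
  have hq : I0.card + X1.card ≤ q := by
    have hn := h.n
    rw [h.T0card, hVs] at hu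
    have h1 : K * f0 ≤ K * (P0.card + Fa.card + ∑ b ∈ I0, (B b).card) :=
      Nat.mul_le_mul_left _ (hf.trans hDc)
    rw [Nat.mul_add, Nat.mul_add] at h1
    omega
  -- the blocks that are touched from `OO`
  set J := (I \ I0).filter (fun b => ∃ a ∈ Fa, ¬ Disjoint (A a) (V b) ∧ a ∈ OO T0 I V) with hJ
  have hJI : J ⊆ I := (Finset.filter_subset _ _).trans Finset.sdiff_subset
  have hrest : ((I \ I0) \ J).card ≤ X1.card := by
    have hch : ∀ b, ∃ a, b ∈ (I \ I0) \ J → a ∈ X1 ∧ ¬ Disjoint (A a) (V b) := by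
      intro b
      by_cases hb : b ∈ (I \ I0) \ J
      · obtain ⟨hb1, hb2⟩ := Finset.mem_sdiff.1 hb
        obtain ⟨hbI, hb0⟩ := Finset.mem_sdiff.1 hb1
        obtain ⟨a, ha, h1, h2⟩ := hs.out b hbI hb0
        refine ⟨a, fun _ => ⟨Finset.mem_filter.2 ⟨ha, ?_⟩, h1⟩⟩
        rcases h2 with h2 | h2
        · exact h2
        · exact absurd (Finset.mem_filter.2 ⟨hb1, a, ha, h1, h2⟩) hb2
      · exact ⟨b, fun hh => absurd hh hb⟩
    choose φ hφ using hch
    apply Finset.card_le_card_of_injOn φ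
    · intro b hb; exact (hφ b hb).1
    · intro b hb b' hb' hbb
      by_contra hne
      have hbI := (Finset.mem_sdiff.1 (Finset.mem_sdiff.1 hb).1).1
      have hbI' := (Finset.mem_sdiff.1 (Finset.mem_sdiff.1 hb').1).1
      exact h.touch (φ b) b hbI b' hbI' hne (hφ b hb).2 (hbb ▸ (hφ b' hb').2)
  have hcardI : I.card ≤ q + J.card := by
    have e1 : (I \ I0).card + I0.card = I.card := Finset.card_sdiff_add_card_eq_card hs.sub
    have e2 : ((I \ I0) \ J).card + J.card = (I \ I0).card :=
      Finset.card_sdiff_add_card_eq_card (Finset.filter_subset _ _)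
    omega
  have hch : ∀ b, ∃ a, b ∈ J → a ∈ Fa ∧ ¬ Disjoint (A a) (V b) ∧ a ∈ OO T0 I V := by
    intro b
    by_cases hb : b ∈ J
    · obtain ⟨-, a, ha, h1, h2⟩ := Finset.mem_filter.1 hb
      exact ⟨a, fun _ => ⟨ha, h1, h2⟩⟩
    · exact ⟨b, fun hh => absurd hh hb⟩
  choose α hα using hch
  refine ⟨J, α, fun b => S (α b), hJI, hcardI, ?_, ?_⟩
  · intro b hb
    obtain ⟨h1, h2, h3⟩ := hα b hb
    exact ⟨h3, h2, hs.SA _ h1, hs.SK _ h1, hs.ST0 _ h1⟩
  · intro b hb b' hb' hne
    obtain ⟨h1, h2, -⟩ := hα b hb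
    obtain ⟨h1', h2', -⟩ := hα b' hb'
    apply hs.SS _ h1 _ h1'
    intro hh
    exact h.touch (α b) b (hJI hb) b' (hJI hb') hne h2 (hh ▸ h2')

end

end Pool.Agent.Star.Abg
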