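import Pool.Agent.Star.Abg5

/-!
# Star isolation, absolute constant (all graphs): second greedy stage
-/

set_option autoImplicit false
set_option linter.unusedSectionVars false

namespace Pool.Agent.Star.Abg

open Finset

variable {U : Type*} [Fintype U] [DecidableEq U]

/-- The states of the second stage. -/
structure St2 (A : U → Finset U) (K s : ℕ) (T0 I J : Finset U) (V : U → Finset U) (α : U → U)
    (I0 Fa : Finset U) (S : U → Finset U) : Prop where
  sub : I0 ⊆ J
  SA : ∀ a ∈ Fa, S a ⊆ A a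
  SK : ∀ a ∈ Fa, K ≤ (S a).card
  ST0 : ∀ a ∈ Fa, Disjoint (S a) T0
  AV : ∀ a ∈ Fa, ∀ b ∈ I0, Disjoint (A a) (V b)
  SV : ∀ a ∈ Fa, ∀ b ∈ I, b ∉ J → Disjoint (S a) (V b)
  Sα : ∀ a ∈ Fa, ∀ b ∈ I0, α b ∉ S a
  SS : ∀ a ∈ Fa, ∀ a' ∈ Fa, a ≠ a' → Disjoint (S a) (S a')
  out : ∀ b ∈ J, b ∉ I0 → ∃ a ∈ Fa, ¬ Disjoint (A a) (V b) ∧ K ≤ (S a ∩ OO T0 I V).card + s

/-- The set `D` of a state of the second stage. -/
def D2 (P0 : Finset U) (B R2 : U → Finset U) (I J I0 Fa : Finset U) : Finset U :=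
  (P0 ∪ Fa) ∪ (I0.biUnion R2 ∪ (I \ J).biUnion B)

section
variable {A : U → Finset U} {K f0 q : ℕ} {P0 T0 I : Finset U} {V B : U → Finset U}

/-- The choice of the representatives. -/
lemma Sys.reps (h : Sys A K f0 q P0 T0 I V B) {b a : U} (hb : b ∈ I) {t : ℕ} (ht : t ≤ K)
    (ha : (V b \ A a).card + K ≤ K * (B b).card + t) :
    ∃ R : Finset U, a ∈ R ∧ R.card ≤ (B b).card ∧
      ∀ p, ((A p ∩ V b) \ R.biUnion A).card ≤ (K + t) / 2 := by
  classical
  have h1 : 0 < (B b).card := Finset.card_pos.2 ⟨b, h.bB b hb⟩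
  have h2 := h.B2 b hb
  have h3 : (B b).card = 1 ∨ (B b).card = 2 := by omega
  rcases h3 with h3 | h3
  · refine ⟨{a}, by simp, by rw [h3]; simp, ?_⟩
    intro p
    rw [h3] at ha
    have h4 : ((A p ∩ V b) \ ({a} : Finset U).biUnion A).card ≤ (V b \ A a).card := by
      apply Finset.card_le_card
      rw [Finset.singleton_biUnion]
      exact Finset.sdiff_subset_sdiff Finset.inter_subset_right (Finset.Subset.refl _)
    omega
  · rw [h3] at ha
    obtain ⟨e, -, he⟩ := Finset.exists_max_image (Finset.univ : Finset U)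
      (fun p => (A p ∩ (V b \ A a)).card) ⟨a, Finset.mem_univ a⟩
    refine ⟨{a, e}, by simp, by rw [h3]; exact Finset.card_le_two, ?_⟩
    intro p
    have h4 := he p (Finset.mem_univ p)
    by_cases hm : (K + t) / 2 < (A e ∩ (V b \ A a)).card
    · have h5 : ((A p ∩ V b) \ ({a, e} : Finset U).biUnion A).card ≤
          ((V b \ A a) \ A e).card := by
        apply Finset.card_le_card
        intro x hx
        obtain ⟨hx1, hx2⟩ := Finset.mem_sdiff.1 hx
        obtain ⟨hx3, hx4⟩ := Finset.mem_inter.1 hx1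
        rw [Finset.mem_sdiff, Finset.mem_sdiff]
        refine ⟨⟨hx4, fun hh => hx2 ?_⟩, fun hh => hx2 ?_⟩
        · exact Finset.mem_biUnion.2 ⟨a, by simp, hh⟩
        · exact Finset.mem_biUnion.2 ⟨e, by simp, hh⟩
      have h6 : ((V b \ A a) \ A e).card + ((V b \ A a) ∩ A e).card = (V b \ A a).card :=
        Finset.card_sdiff_add_card_inter _ _
      rw [Finset.inter_comm] at h6
      omega
    · have h5 : ((A p ∩ V b) \ ({a, e} : Finset U).biUnion A).card ≤
          (A p ∩ (V b \ A a)).card := by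
        apply Finset.card_le_card
        intro x hx
        obtain ⟨hx1, hx2⟩ := Finset.mem_sdiff.1 hx
        obtain ⟨hx3, hx4⟩ := Finset.mem_inter.1 hx1
        rw [Finset.mem_inter, Finset.mem_sdiff]
        exact ⟨hx3, hx4, fun hh => hx2 (Finset.mem_biUnion.2 ⟨a, by simp, hh⟩)⟩
      omega

/-- One step of the second stage. -/
lemma Sys.step2 (h : Sys A K f0 q P0 T0 I V B) {J : Finset U} (hJ : J ⊆ I) {α : U → U}
    {R2 : U → Finset U} {s : ℕ} (hR : ∀ b ∈ J, α b ∈ R2 b ∧
      ∀ p, ((A p ∩ V b) \ (R2 b).biUnion A).card ≤ s)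
    {I0 Fa : Finset U} {S : U → Finset U} (hs : St2 A K s T0 I J V α I0 Fa S) {p : U}
    (hp : p ∉ (D2 P0 B R2 I J I0 Fa).biUnion A)
    (hpK : K ≤ (A p \ (D2 P0 B R2 I J I0 Fa).biUnion A).card) :
    p ∉ Fa ∧ ∃ I0' S', St2 A K s T0 I J V α I0' (insert p Fa) S' := by
  classical
  set D := D2 P0 B R2 I J I0 Fa with hD
  have hPD : ∀ d ∈ P0, d ∈ D := fun d hd =>
    Finset.mem_union_left _ (Finset.mem_union_left _ hd)
  have hFD : ∀ d ∈ Fa, d ∈ D := fun d hd =>
    Finset.mem_union_left _ (Finset.mem_union_right _ hd)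
  have hID : ∀ b ∈ I0, ∀ d ∈ R2 b, d ∈ D := fun b hb d hd =>
    Finset.mem_union_right _ (Finset.mem_union_left _ (Finset.mem_biUnion.2 ⟨b, hb, hd⟩))
  have hBD : ∀ b ∈ I, b ∉ J → ∀ d ∈ B b, d ∈ D := fun b hb hbJ d hd =>
    Finset.mem_union_right _ (Finset.mem_union_right _ (Finset.mem_biUnion.2
      ⟨b, Finset.mem_sdiff.2 ⟨hb, hbJ⟩, hd⟩))
  have hpD : ∀ d ∈ D, p ∉ A d := fun d hd hpd => hp (Finset.mem_biUnion.2 ⟨d, hd, hpd⟩)
  have hpFa : p ∉ Fa := fun hh => hpD p (hFD p hh) (h.refl p)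
  refine ⟨hpFa, ?_⟩
  have hup : ∀ a ∈ Fa, Function.update S p (A p \ D.biUnion A) a = S a := by
    intro a ha
    have hne : a ≠ p := fun hh => hpFa (hh ▸ ha)
    exact Function.update_of_ne hne _ _
  have hself : Function.update S p (A p \ D.biUnion A) p = A p \ D.biUnion A :=
    Function.update_self _ _ _
  -- the common part
  have gSA : ∀ a ∈ insert p Fa, Function.update S p (A p \ D.biUnion A) a ⊆ A a := by
    intro a ha
    rcases Finset.mem_insert.1 ha with ha | ha
    · rw [ha, hself]; exact Finset.sdiff_subset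
    · rw [hup a ha]; exact hs.SA a ha
  have gSK : ∀ a ∈ insert p Fa, K ≤ (Function.update S p (A p \ D.biUnion A) a).card := by
    intro a ha
    rcases Finset.mem_insert.1 ha with ha | ha
    · rw [ha, hself]; exact hpK
    · rw [hup a ha]; exact hs.SK a ha
  have gST0 : ∀ a ∈ insert p Fa, Disjoint (Function.update S p (A p \ D.biUnion A) a) T0 := by
    intro a ha
    rcases Finset.mem_insert.1 ha with ha | ha
    · rw [ha, hself, Finset.disjoint_left]
      intro x hx hxT
      obtain ⟨d, hd, hxd⟩ := Finset.mem_biUnion.1 (h.T0sub hxT)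
      exact (Finset.mem_sdiff.1 hx).2 (Finset.mem_biUnion.2 ⟨d, hPD d hd, hxd⟩)
    · rw [hup a ha]; exact hs.ST0 a ha
  have gSV : ∀ a ∈ insert p Fa, ∀ b ∈ I, b ∉ J →
      Disjoint (Function.update S p (A p \ D.biUnion A) a) (V b) := by
    intro a ha b hb hbJ
    rcases Finset.mem_insert.1 ha with ha | ha
    · rw [ha, hself, Finset.disjoint_left]
      intro x hx hxT
      obtain ⟨d, hd, hxd⟩ := Finset.mem_biUnion.1 (h.Vsub b hb hxT)
      exact (Finset.mem_sdiff.1 hx).2 (Finset.mem_biUnion.2 ⟨d, hBD b hb hbJ d hd, hxd⟩)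
    · rw [hup a ha]; exact hs.SV a ha b hb hbJ
  have gSα : ∀ a ∈ insert p Fa, ∀ b ∈ I0, α b ∉ Function.update S p (A p \ D.biUnion A) a := by
    intro a ha b hb
    rcases Finset.mem_insert.1 ha with ha | ha
    · rw [ha, hself]
      intro hx
      exact (Finset.mem_sdiff.1 hx).2 (Finset.mem_biUnion.2
        ⟨α b, hID b hb _ (hR b (hs.sub hb)).1, h.refl _⟩)
    · rw [hup a ha]; exact hs.Sα a ha b hb
  have gSS : ∀ a ∈ insert p Fa, ∀ a' ∈ insert p Fa, a ≠ a' →
      Disjoint (Function.update S p (A p \ D.biUnion A) a)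
        (Function.update S p (A p \ D.biUnion A) a') := by
    have key : ∀ a ∈ Fa, Disjoint (A p \ D.biUnion A) (S a) := by
      intro a ha
      rw [Finset.disjoint_left]
      intro x hx hxa
      exact (Finset.mem_sdiff.1 hx).2 (Finset.mem_biUnion.2 ⟨a, hFD a ha, hs.SA a ha hxa⟩)
    intro a ha a' ha' hne
    rcases Finset.mem_insert.1 ha with ha | ha <;> rcases Finset.mem_insert.1 ha' with ha' | ha'
    · exact absurd (ha.trans ha'.symm) hne
    · rw [ha, hself, hup a' ha']; exact key a' ha'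
    · rw [ha', hself, hup a ha]; exact (key a ha).symm
    · rw [hup a ha, hup a' ha']; exact hs.SS a ha a' ha' hne
  by_cases htch : ∃ b ∈ I0, ¬ Disjoint (A p) (V b)
  · obtain ⟨b, hb, hpb⟩ := htch
    have hbJ := hs.sub hb
    have hbI := hJ hbJ
    refine ⟨I0.erase b, Function.update S p (A p \ D.biUnion A),
      ⟨(Finset.erase_subset _ _).trans hs.sub, gSA, gSK, gST0, ?_, gSV, ?_, gSS, ?_⟩⟩
    · intro a ha b' hb'
      have hb'' := Finset.mem_of_mem_erase hb'
      rcases Finset.mem_insert.1 ha with ha | ha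
      · rw [ha]
        by_contra hnd
        exact h.touch p b hbI b' (hJ (hs.sub hb'')) (Finset.ne_of_mem_erase hb').symm hpb hnd
      · exact hs.AV a ha b' hb''
    · intro a ha b' hb'
      exact gSα a ha b' (Finset.mem_of_mem_erase hb')
    · intro b' hb' hb'n
      by_cases hbb : b' = b
      · rw [hbb]
        refine ⟨p, Finset.mem_insert_self _ _, hpb, ?_⟩
        rw [hself]
        have h1 : A p \ D.biUnion A ⊆ ((A p \ D.biUnion A) ∩ OO T0 I V) ∪
            ((A p ∩ V b) \ (R2 b).biUnion A) := by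
          intro x hx
          obtain ⟨hx1, hx2⟩ := Finset.mem_sdiff.1 hx
          by_cases hxV : x ∈ V b
          · apply Finset.mem_union_right
            rw [Finset.mem_sdiff, Finset.mem_inter]
            refine ⟨⟨hx1, hxV⟩, fun hh => hx2 ?_⟩
            obtain ⟨d, hd, hxd⟩ := Finset.mem_biUnion.1 hh
            exact Finset.mem_biUnion.2 ⟨d, hID b hb d hd, hxd⟩
          · apply Finset.mem_union_left
            rw [Finset.mem_inter, mem_OO]
            refine ⟨hx, ?_, ?_⟩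
            · intro hxT
              obtain ⟨d, hd, hxd⟩ := Finset.mem_biUnion.1 (h.T0sub hxT)
              exact hx2 (Finset.mem_biUnion.2 ⟨d, hPD d hd, hxd⟩)
            · intro b2 hb2 hxV2
              by_cases hb2b : b2 = b
              · exact hxV (hb2b ▸ hxV2)
              · exact h.touch p b hbI b2 hb2 (Ne.symm hb2b) hpb (not_disj hx1 hxV2)
        have h2 := (Finset.card_le_card h1).trans (Finset.card_union_le _ _)
        have h3 := (hR b hbJ).2 p
        omega
      · have hb'0 : b' ∉ I0 := fun hh => hb'n (Finset.mem_erase.2 ⟨hbb, hh⟩)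
        obtain ⟨a, ha, h1, h2⟩ := hs.out b' hb' hb'0
        refine ⟨a, Finset.mem_insert_of_mem ha, h1, ?_⟩
        rw [hup a ha]; exact h2
  · push Not at htch
    refine ⟨I0, Function.update S p (A p \ D.biUnion A),
      ⟨hs.sub, gSA, gSK, gST0, ?_, gSV, gSα, gSS, ?_⟩⟩
    · intro a ha b' hb'
      rcases Finset.mem_insert.1 ha with ha | ha
      · rw [ha]; exact htch b' hb'
      · exact hs.AV a ha b' hb'
    · intro b' hb' hb'n
      obtain ⟨a, ha, h1, h2⟩ := hs.out b' hb' hb'n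
      refine ⟨a, Finset.mem_insert_of_mem ha, h1, ?_⟩
      rw [hup a ha]; exact h2

lemma Sys.end2 (h : Sys A K f0 q P0 T0 I V B) {J : Finset U} (hJ : J ⊆ I) {α : U → U}
    {R2 : U → Finset U} {s : ℕ} (hR : ∀ b ∈ J, α b ∈ R2 b ∧
      ∀ p, ((A p ∩ V b) \ (R2 b).biUnion A).card ≤ s) :
    ∀ (m : ℕ) (I0 Fa : Finset U) (S : U → Finset U), St2 A K s T0 I J V α I0 Fa S →
      Fa.card + m = (univ : Finset U).card →
      ∃ I0 Fa S, St2 A K s T0 I J V α I0 Fa S ∧ IsoU A K (D2 P0 B R2 I J I0 Fa) := by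
  intro m
  induction m with
  | zero =>
    intro I0 Fa S hs hm
    refine ⟨I0, Fa, S, hs, ?_⟩
    intro p hp
    exfalso
    have hFa : Fa = univ := Finset.eq_univ_of_card _ (by simpa using hm)
    apply hp
    refine Finset.mem_biUnion.2 ⟨p, Finset.mem_union_left _ (Finset.mem_union_right _ ?_), h.refl p⟩
    rw [hFa]; exact Finset.mem_univ p
  | succ m ih =>
    intro I0 Fa S hs hm
    by_cases hiso : IsoU A K (D2 P0 B R2 I J I0 Fa)
    · exact ⟨I0, Fa, S, hs, hiso⟩
    · unfold IsoU at hiso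
      push Not at hiso
      obtain ⟨p, hp, hpK⟩ := hiso
      obtain ⟨hpFa, I0', S', hs'⟩ := h.step2 hJ hR hs hp hpK
      refine ih I0' (insert p Fa) S' hs' ?_
      rw [Finset.card_insert_of_notMem hpFa]
      omega

/-- **Second stage.** -/
lemma Sys.stage2 (h : Sys A K f0 q P0 T0 I V B) {J : Finset U} (hJ : J ⊆ I) {α : U → U} {t : ℕ}
    (ht : t ≤ K)
    (hα : ∀ b ∈ J, α b ∈ OO T0 I V ∧ ¬ Disjoint (A (α b)) (V b) ∧
      (V b \ A (α b)).card + K ≤ K * (B b).card + t) :
    J.card * (K - (K + t) / 2) ≤ q * (K - (K + t) / 2) + (OO T0 I V).card := by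
  classical
  set s := (K + t) / 2 with hsdef
  have hch : ∀ b, ∃ R : Finset U, b ∈ J → α b ∈ R ∧ R.card ≤ (B b).card ∧
      ∀ p, ((A p ∩ V b) \ R.biUnion A).card ≤ s := by
    intro b
    by_cases hb : b ∈ J
    · obtain ⟨R, hR⟩ := h.reps (hJ hb) ht (hα b hb).2.2
      exact ⟨R, fun _ => hR⟩
    · exact ⟨∅, fun hh => absurd hh hb⟩
  choose R2 hR2 using hch
  obtain ⟨I0, Fa, S, hs, hiso⟩ := h.end2 hJ (fun b hb => ⟨(hR2 b hb).1, (hR2 b hb).2.2⟩)
    (univ : Finset U).card J ∅ (fun _ => ∅)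
    ⟨Finset.Subset.refl _, by simp, by simp, by simp, by simp, by simp, by simp, by simp,
      fun b hb hb' => absurd hb hb'⟩ (by simp)
  have hf := h.hf0 _ hiso
  have hI0I : ∀ b ∈ I0, b ∈ I := fun b hb => hJ (hs.sub hb)
  have hDc : (D2 P0 B R2 I J I0 Fa).card ≤
      P0.card + Fa.card + (∑ b ∈ I0, (B b).card + ∑ b ∈ I \ J, (B b).card) := by
    have h1 : (D2 P0 B R2 I J I0 Fa).card ≤ (P0 ∪ Fa).card +
      (I0.biUnion R2 ∪ (I \ J).biUnion B).card := Finset.card_union_le _ _
    have h2 := Finset.card_union_le P0 Fa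
    have h3 := Finset.card_union_le (I0.biUnion R2) ((I \ J).biUnion B)
    have h4 : (I0.biUnion R2).card ≤ ∑ b ∈ I0, (B b).card :=
      Finset.card_biUnion_le.trans (Finset.sum_le_sum (fun b hb => (hR2 b (hs.sub hb)).2.1))
    have h5 : ((I \ J).biUnion B).card ≤ ∑ b ∈ I \ J, (B b).card := Finset.card_biUnion_le
    omega
  have hu : T0.card + (∑ b ∈ I0, (V b).card + ∑ b ∈ I \ J, (V b).card) + K * Fa.card + I0.card ≤
      (univ : Finset U).card := by
    have hIJ : ∀ b ∈ I \ J, b ∈ I := fun b hb => (Finset.mem_sdiff.1 hb).1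
    have e1 : (I0.biUnion V).card = ∑ b ∈ I0, (V b).card :=
      Finset.card_biUnion (fun b hb b' hb' hne => h.VV b (hI0I b hb) b' (hI0I b' hb') hne)
    have e1' : ((I \ J).biUnion V).card = ∑ b ∈ I \ J, (V b).card :=
      Finset.card_biUnion (fun b hb b' hb' hne => h.VV b (hIJ b hb) b' (hIJ b' hb') hne)
    have e2 : K * Fa.card ≤ (Fa.biUnion S).card := by
      rw [Finset.card_biUnion (fun a ha a' ha' hne => hs.SS a ha a' ha' hne), mul_comm]
      exact Finset.card_nsmul_le_sum _ _ _ hs.SK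
    have e3 : (I0.image α).card = I0.card := by
      apply Finset.card_image_of_injOn
      intro b hb b' hb' hgg
      by_contra hne
      have hbI := hI0I b hb
      have hbI' := hI0I b' hb'
      exact h.touch (α b) b hbI b' hbI' hne (hα b (hs.sub hb)).2.1
        (hgg ▸ (hα b' (hs.sub hb')).2.1)
    have d0 : Disjoint (I0.biUnion V) ((I \ J).biUnion V) := by
      rw [Finset.disjoint_left]
      intro x hx hx'
      obtain ⟨b, hb, hxb⟩ := Finset.mem_biUnion.1 hx
      obtain ⟨b', hb', hxb'⟩ := Finset.mem_biUnion.1 hx'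
      have hne : b ≠ b' := fun hh => (Finset.mem_sdiff.1 hb').2 (hh ▸ hs.sub hb)
      exact Finset.disjoint_left.1 (h.VV b (hI0I b hb) b' (hIJ b' hb') hne) hxb hxb'
    have d1 : Disjoint T0 (I0.biUnion V ∪ (I \ J).biUnion V) := by
      rw [Finset.disjoint_left]
      intro x hx hx'
      rcases Finset.mem_union.1 hx' with hx' | hx'
      · obtain ⟨b, hb, hxb⟩ := Finset.mem_biUnion.1 hx'
        exact Finset.disjoint_left.1 (h.T0V b (hI0I b hb)) hx hxb
      · obtain ⟨b, hb, hxb⟩ := Finset.mem_biUnion.1 hx'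
        exact Finset.disjoint_left.1 (h.T0V b (hIJ b hb)) hx hxb
    have d2 : Disjoint (T0 ∪ (I0.biUnion V ∪ (I \ J).biUnion V)) (Fa.biUnion S) := by
      rw [Finset.disjoint_left]
      intro x hx hx'
      obtain ⟨a, ha, hxa⟩ := Finset.mem_biUnion.1 hx'
      rcases Finset.mem_union.1 hx with hx | hx
      · exact Finset.disjoint_left.1 (hs.ST0 a ha) hxa hx
      · rcases Finset.mem_union.1 hx with hx | hx
        · obtain ⟨b, hb, hxb⟩ := Finset.mem_biUnion.1 hx
          exact Finset.disjoint_left.1 (hs.AV a ha b hb) (hs.SA a ha hxa) hxb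
        · obtain ⟨b, hb, hxb⟩ := Finset.mem_biUnion.1 hx
          exact Finset.disjoint_left.1 (hs.SV a ha b (hIJ b hb) (Finset.mem_sdiff.1 hb).2) hxa hxb
    have d3 : Disjoint ((T0 ∪ (I0.biUnion V ∪ (I \ J).biUnion V)) ∪ Fa.biUnion S) (I0.image α) := by
      rw [Finset.disjoint_left]
      intro x hx hx'
      obtain ⟨b, hb, rfl⟩ := Finset.mem_image.1 hx'
      have hgO := (hα b (hs.sub hb)).1
      rw [mem_OO] at hgO
      rcases Finset.mem_union.1 hx with hx | hx
      · rcases Finset.mem_union.1 hx with hx | hx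
        · exact hgO.1 hx
        · rcases Finset.mem_union.1 hx with hx | hx
          · obtain ⟨b', hb', hxb⟩ := Finset.mem_biUnion.1 hx
            exact hgO.2 b' (hI0I b' hb') hxb
          · obtain ⟨b', hb', hxb⟩ := Finset.mem_biUnion.1 hx
            exact hgO.2 b' (hIJ b' hb') hxb
      · obtain ⟨a, ha, hxa⟩ := Finset.mem_biUnion.1 hx
        exact hs.Sα a ha b hb hxa
    calc T0.card + (∑ b ∈ I0, (V b).card + ∑ b ∈ I \ J, (V b).card) + K * Fa.card + I0.card
        ≤ T0.card + (∑ b ∈ I0, (V b).card + ∑ b ∈ I \ J, (V b).card) + (Fa.biUnion S).card +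
          I0.card := by omega
      _ = (((T0 ∪ (I0.biUnion V ∪ (I \ J).biUnion V)) ∪ Fa.biUnion S) ∪ I0.image α).card := by
          rw [Finset.card_union_of_disjoint d3, Finset.card_union_of_disjoint d2,
            Finset.card_union_of_disjoint d1, Finset.card_union_of_disjoint d0, e1, e1', e3]
      _ ≤ _ := Finset.card_le_card (Finset.subset_univ _)
  have hVs : ∑ b ∈ I0, (V b).card = K * ∑ b ∈ I0, (B b).card := by
    rw [Finset.mul_sum]
    exact Finset.sum_congr rfl (fun b hb => h.Vcard b (hI0I b hb))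
  have hVs' : ∑ b ∈ I \ J, (V b).card = K * ∑ b ∈ I \ J, (B b).card := by
    rw [Finset.mul_sum]
    exact Finset.sum_congr rfl (fun b hb => h.Vcard b (Finset.mem_sdiff.1 hb).1)
  have hq : I0.card ≤ q := by
    have hn := h.n
    rw [h.T0card, hVs, hVs'] at hu
    have h1 : K * f0 ≤ K * (P0.card + Fa.card + (∑ b ∈ I0, (B b).card + ∑ b ∈ I \ J, (B b).card)) :=
      Nat.mul_le_mul_left _ (hf.trans hDc)
    rw [Nat.mul_add, Nat.mul_add, Nat.mul_add] at h1
    omega
  have hrest : (J \ I0).card * (K - s) ≤ (OO T0 I V).card := by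
    have hch : ∀ b, ∃ a, b ∈ J \ I0 → a ∈ Fa ∧ ¬ Disjoint (A a) (V b) ∧
        K ≤ (S a ∩ OO T0 I V).card + s := by
      intro b
      by_cases hb : b ∈ J \ I0
      · obtain ⟨hb1, hb2⟩ := Finset.mem_sdiff.1 hb
        obtain ⟨a, ha, h1, h2⟩ := hs.out b hb1 hb2
        exact ⟨a, fun _ => ⟨ha, h1, h2⟩⟩
      · exact ⟨b, fun hh => absurd hh hb⟩
    choose φ hφ using hch
    have hinj : ∀ b ∈ J \ I0, ∀ b' ∈ J \ I0, b ≠ b' → φ b ≠ φ b' := by
      intro b hb b' hb' hne hh
      exact h.touch (φ b) b (hJ (Finset.mem_sdiff.1 hb).1) b' (hJ (Finset.mem_sdiff.1 hb').1) hne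
        (hφ b hb).2.1 (hh ▸ (hφ b' hb').2.1)
    have e1 : ((J \ I0).biUnion (fun b => S (φ b) ∩ OO T0 I V)).card =
        ∑ b ∈ J \ I0, (S (φ b) ∩ OO T0 I V).card := by
      apply Finset.card_biUnion
      intro b hb b' hb' hne
      exact (hs.SS _ (hφ b hb).1 _ (hφ b' hb').1 (hinj b hb b' hb' hne)).mono
        Finset.inter_subset_left Finset.inter_subset_left
    calc (J \ I0).card * (K - s) ≤ ∑ b ∈ J \ I0, (S (φ b) ∩ OO T0 I V).card := by
          apply Finset.card_nsmul_le_sum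
          intro b hb
          have := (hφ b hb).2.2
          omega
      _ = ((J \ I0).biUnion (fun b => S (φ b) ∩ OO T0 I V)).card := e1.symm
      _ ≤ _ := by
          apply Finset.card_le_card
          intro x hx
          obtain ⟨b, -, hxb⟩ := Finset.mem_biUnion.1 hx
          exact (Finset.mem_inter.1 hxb).2
  have e1 : (J \ I0).card + I0.card = J.card := Finset.card_sdiff_add_card_eq_card hs.sub
  calc J.card * (K - s) = (J \ I0).card * (K - s) + I0.card * (K - s) := by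
        rw [← e1, Nat.add_mul]
    _ ≤ (OO T0 I V).card + q * (K - s) := Nat.add_le_add hrest (Nat.mul_le_mul_right _ hq)
    _ = _ := Nat.add_comm _ _

end

end Pool.Agent.Star.Abg
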