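import Pool.Agent.Star.Abg6

/-!
# Star isolation, absolute constant (all graphs): the number of blocks
-/

set_option autoImplicit false
set_option linter.unusedSectionVars false

namespace Pool.Agent.Star.Abg

open Finset

variable {U : Type*} [Fintype U] [DecidableEq U]

section
variable {A : U → Finset U} {K f0 q : ℕ} {P0 T0 I : Finset U} {V B : U → Finset U} {y g : U → U}

/-- The number of clean blocks. -/
lemma Sys.cardI (h : Sys A K f0 q P0 T0 I V B) (hK : 1 ≤ K)
    (hy : ∀ b ∈ I, y b ∈ V b ∧ y b ∈ A b) (hg : ∀ b ∈ I, g b ∈ A (y b) ∧ g b ∈ OO T0 I V)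
    (hO : (OO T0 I V).card ≤ 24 * (K * q)) : I.card ≤ 142 * q := by
  classical
  obtain ⟨J, α, S, hJI, hIJ, hJ, hSS⟩ := h.stage1 hy hg
  set t := (2 * K + 4) / 5 with ht
  set J1 := J.filter (fun b => t ≤ (S b ∩ OO T0 I V).card) with hJ1
  have c1 : J1.card * t ≤ (OO T0 I V).card := by
    have e1 : (J1.biUnion (fun b => S b ∩ OO T0 I V)).card =
        ∑ b ∈ J1, (S b ∩ OO T0 I V).card := by
      apply Finset.card_biUnion
      intro b hb b' hb' hne
      exact (hSS b (Finset.mem_filter.1 hb).1 b' (Finset.mem_filter.1 hb').1 hne).mono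
        Finset.inter_subset_left Finset.inter_subset_left
    calc J1.card * t ≤ ∑ b ∈ J1, (S b ∩ OO T0 I V).card := by
          apply Finset.card_nsmul_le_sum
          intro b hb
          exact (Finset.mem_filter.1 hb).2
      _ = (J1.biUnion (fun b => S b ∩ OO T0 I V)).card := e1.symm
      _ ≤ _ := by
          apply Finset.card_le_card
          intro x hx
          obtain ⟨b, -, hxb⟩ := Finset.mem_biUnion.1 hx
          exact (Finset.mem_inter.1 hxb).2
  have c2 := h.stage2 (J := J \ J1) (α := α) (t := t - 1) (Finset.sdiff_subset.trans hJI)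
    (by omega) (by
      intro b hb
      obtain ⟨hbJ, hbJ1⟩ := Finset.mem_sdiff.1 hb
      obtain ⟨h1, h2, h3, h4, h5⟩ := hJ b hbJ
      refine ⟨h1, h2, ?_⟩
      have h6 : (S b ∩ OO T0 I V).card < t := by
        by_contra hcon
        push Not at hcon
        exact hbJ1 (Finset.mem_filter.2 ⟨hbJ, hcon⟩)
      have h7 : S b ⊆ (S b ∩ OO T0 I V) ∪ (V b ∩ A (α b)) := by
        intro x hx
        by_cases hxV : x ∈ V b
        · exact Finset.mem_union_right _ (Finset.mem_inter.2 ⟨hxV, h3 hx⟩)
        · apply Finset.mem_union_left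
          rw [Finset.mem_inter, mem_OO]
          refine ⟨hx, Finset.disjoint_left.1 h5 hx, ?_⟩
          intro b2 hb2 hxV2
          by_cases hb2b : b2 = b
          · exact hxV (hb2b ▸ hxV2)
          · exact h.touch (α b) b (hJI hbJ) b2 hb2 (Ne.symm hb2b) h2 (not_disj (h3 hx) hxV2)
      have h8 := (Finset.card_le_card h7).trans (Finset.card_union_le _ _)
      have h9 : (V b \ A (α b)).card + (V b ∩ A (α b)).card = (V b).card :=
        Finset.card_sdiff_add_card_inter _ _
      rw [h.Vcard b (hJI hbJ)] at h9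
      omega)
  have c3 : (J \ J1).card + J1.card = J.card :=
    Finset.card_sdiff_add_card_eq_card (Finset.filter_subset _ _)
  set r := K - (K + (t - 1)) / 2 with hr
  have hr1 : 3 * K ≤ 10 * r := by omega
  have hr0 : 1 ≤ r := by omega
  have ht1 : 2 * K ≤ 5 * t := by omega
  have d1 : J1.card ≤ 60 * q := by
    have h1 : J1.card * (2 * K) ≤ 5 * (24 * (K * q)) := by
      calc J1.card * (2 * K) ≤ J1.card * (5 * t) := Nat.mul_le_mul_left _ ht1
        _ = 5 * (J1.card * t) := by ring
        _ ≤ 5 * (24 * (K * q)) := by omega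
    have h2 : (2 * K) * J1.card ≤ (2 * K) * (60 * q) := by
      calc (2 * K) * J1.card = J1.card * (2 * K) := by ring
        _ ≤ 5 * (24 * (K * q)) := h1
        _ = (2 * K) * (60 * q) := by ring
    exact Nat.le_of_mul_le_mul_left h2 (by omega)
  have d2 : (J \ J1).card ≤ 81 * q := by
    have h1 : 24 * (K * q) ≤ 80 * (q * r) := by
      calc 24 * (K * q) = 8 * q * (3 * K) := by ring
        _ ≤ 8 * q * (10 * r) := Nat.mul_le_mul_left _ hr1
        _ = 80 * (q * r) := by ring
    have h2 : r * (J \ J1).card ≤ r * (81 * q) := by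
      calc r * (J \ J1).card = (J \ J1).card * r := by ring
        _ ≤ q * r + (OO T0 I V).card := c2
        _ ≤ q * r + 80 * (q * r) := by omega
        _ = r * (81 * q) := by ring
    exact Nat.le_of_mul_le_mul_left h2 hr0
  omega

end

end Pool.Agent.Star.Abg
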