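import Pool.Agent.Star.Abg7

/-!
# Star isolation, absolute constant (all graphs): the number of tiles
-/

set_option autoImplicit false
set_option linter.unusedSectionVars false

namespace Pool.Agent.Star.Abg

open Finset

variable {U : Type*} [Fintype U] [DecidableEq U]

/-- `c` is adjacent to `W`. -/
def AdjW (N : U → Finset U) (H R : Finset U) (c : U) : Prop := ∃ w ∈ WW N H R, ∃ y ∈ N c, w ∈ N y

section
variable {N : U → Finset U} {K : ℕ} {H D1 R Φ : Finset U} {L : Finset U}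

/-- Every vertex touches at most one clean block. -/
lemma Base.touch (h : Base N K H D1 R Φ) {c c' v : U} (hc : c ∈ R) (hc' : c' ∈ R) (hcΦ : c ∉ Φ)
    (hcΦ' : c' ∉ Φ) (hcc : c ≠ c') (hT : ¬ Tadj N c c') (hW : ¬ AdjW N H R c)
    (hW' : ¬ AdjW N H R c')
    (h1 : ¬ Disjoint (N v) (N c)) (h2 : ¬ Disjoint (N v) (N c')) : False := by
  obtain ⟨p, -, hpK, hpE, hpx, k, hkJ, hpk, hke⟩ := h.sv id {c, c'} {v}
    (by
      intro d hd
      rcases Finset.mem_insert.1 hd with rfl | hd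
      · exact hc
      · rw [Finset.mem_singleton] at hd; rw [hd]; exact hc')
    (by
      intro d hd
      rcases Finset.mem_insert.1 hd with rfl | hd
      · exact hcΦ
      · rw [Finset.mem_singleton] at hd; rw [hd]; exact hcΦ')
    (by rw [Finset.card_pair hcc, Finset.card_singleton]; omega)
    (by rw [Finset.card_singleton]; omega)
    (fun c hc _ => h.gr.refl c (h.ff.sub hc))
    (fun c hc _ => h.ff.cen c hc)
    (fun c hc _ d hd _ hcd => h.ff.far c hc d hd hcd)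
    (fun _ _ => rfl)
  have hvp := hpE v (Finset.mem_singleton_self _)
  have hk : k ∈ R ∧ ¬ AdjW N H R k ∧ ¬ Disjoint (N v) (N k) ∧
      ∀ d ∈ ({c, c'} : Finset U), d ≠ k → ¬ Tadj N k d := by
    rcases Finset.mem_insert.1 hkJ with h3 | h3
    · rw [h3]
      refine ⟨hc, hW, h1, ?_⟩
      intro d hd hdk
      have : d = c' := by
        rcases Finset.mem_insert.1 hd with h4 | h4
        · exact absurd h4 hdk
        · exact Finset.mem_singleton.1 h4
      rw [this]; exact hT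
    · rw [Finset.mem_singleton] at h3
      rw [h3]
      refine ⟨hc', hW', h2, ?_⟩
      intro d hd hdk
      have : d = c := by
        rcases Finset.mem_insert.1 hd with h4 | h4
        · exact h4
        · exact absurd (Finset.mem_singleton.1 h4) hdk
      rw [this]; exact fun hh => hT (h.gr.tadj_symm hh)
  obtain ⟨hkR, hkW, hkv, hkT⟩ := hk
  obtain ⟨z, hzv, hzk⟩ := Finset.not_disjoint_iff.1 hkv
  have hdis : ∀ d ∈ R, d ≠ k → Disjoint (N p) (N d) := by
    intro d hd hdk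
    by_cases hdJ : d ∈ ({c, c'} : Finset U)
    · by_contra hnd
      obtain ⟨u, hu, hud⟩ := Finset.not_disjoint_iff.1 hnd
      exact hkT d hdJ hdk ⟨p, hpk, u, hud, hu⟩
    · exact (hpx d hd hdJ).symm
  obtain ⟨w, hw, hwW⟩ := h.meetsW hpK hkR hdis hzk (Finset.disjoint_left.1 hvp hzv)
  exact hkW ⟨w, hwW, p, hpk, hw⟩

end

/-- The bound on the number of tiles. -/
lemma card_R {A : U → Finset U} {K : ℕ} {H D1 R Φ : Finset U}
    (hrefl : ∀ x, x ∈ A x) (hsymm : ∀ x y, x ∈ A y → y ∈ A x)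
    (hconn : ∀ B : Finset U, B.Nonempty → B ≠ univ → ∃ x ∈ B, ∃ y, y ∉ B ∧ y ∈ A x)
    (h : Base (fun x => A x ∩ H) K H D1 R Φ)
    (hΦ : Φ.card ≤ (WW (fun x => A x ∩ H) H R).card) {f0 q : ℕ}
    (hn1 : (univ : Finset U).card ≠ K) (hn2 : (univ : Finset U).card ≠ 2 * K)
    (hf0 : ∀ D : Finset U, IsoU A K D → f0 ≤ D.card)
    (hq : (univ : Finset U).card = K * f0 + q)
    (hO : (univ : Finset U).card + K * (7 * (WW (fun x => A x ∩ H) H R).card) ≤
      K * R.card + 24 * (K * q)) :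
    R.card ≤ 11 * (WW (fun x => A x ∩ H) H R).card + 284 * q := by
  classical
  set N : U → Finset U := fun x => A x ∩ H with hN
  have hNA : ∀ x, N x ⊆ A x := fun x => Finset.inter_subset_left
  have hNH : ∀ x, N x ⊆ H := fun x => Finset.inter_subset_right
  obtain ⟨F, hΦF, hFR, hFc, hdeg⟩ := h.exF hΦ
  set L := R \ F with hLdef
  have hLR : L ⊆ R := Finset.sdiff_subset
  have hLH : L ⊆ H := hLR.trans h.ff.sub
  have hLF : ∀ c ∈ L, c ∉ F := fun c hc => (Finset.mem_sdiff.1 hc).2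
  have hLΦ : ∀ c ∈ L, c ∉ Φ := fun c hc hh => hLF c hc (hΦF hh)
  set AW := L.filter (fun c => AdjW N H R c) with hAW
  have hAWL : AW ⊆ L := Finset.filter_subset _ _
  obtain ⟨J, hJA, hJI, hJX⟩ := h.gr.exI hdeg AW hAWL
  have hJc : J.card ≤ 2 * (WW N H R).card :=
    h.cardJ (fun c hc => hLR (hAWL (hJA hc))) (fun c hc => hLΦ c (hAWL (hJA hc))) hJI
      (fun c hc => (Finset.mem_filter.1 (hJA hc)).2)
  set Ln := L.filter (fun c => ∃ a ∈ AW, a ∈ Bl N L c) with hLn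
  have hLnL : Ln ⊆ L := Finset.filter_subset _ _
  have hLnc : Ln.card ≤ 2 * J.card := card_blocks hdeg (hJA.trans hAWL)
    (fun c hc => hJX c (hLnL hc) (Finset.mem_filter.1 hc).2)
  set Lc := L \ Ln with hLc
  have hLcL : Lc ⊆ L := Finset.sdiff_subset
  -- blocks of clean tiles are clean
  have hclean : ∀ c ∈ Lc, ∀ a ∈ Bl N L c, a ∈ Lc ∧ ¬ AdjW N H R a := by
    intro c hc a ha
    have hcL := hLcL hc
    have haL : a ∈ L := Bl_sub _ ha
    have hcn : ¬ ∃ a ∈ AW, a ∈ Bl N L c := by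
      intro hh
      exact (Finset.mem_sdiff.1 hc).2 (Finset.mem_filter.2 ⟨hcL, hh⟩)
    refine ⟨Finset.mem_sdiff.2 ⟨haL, ?_⟩, ?_⟩
    · intro haLn
      obtain ⟨-, b, hb, hba⟩ := Finset.mem_filter.1 haLn
      exact hcn ⟨b, hb, h.gr.Bl_trans hdeg hcL hba ha⟩
    · intro haW
      exact hcn ⟨a, Finset.mem_filter.2 ⟨haL, haW⟩, ha⟩
  set A' := Lc.filter (fun c => ∃ y ∈ N c, ∃ g ∈ A y, g ∉ L.biUnion N) with hA'
  have hA'L : A' ⊆ L := (Finset.filter_subset _ _).trans hLcL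
  obtain ⟨I, hIA, hInd, hIX⟩ := h.gr.exI hdeg A' hA'L
  have hILc : ∀ b ∈ I, b ∈ Lc := fun b hb => (Finset.mem_filter.1 (hIA hb)).1
  have hIL : ∀ b ∈ I, b ∈ L := fun b hb => hLcL (hILc b hb)
  have hVcard : ∀ c ∈ L, ((Bl N L c).biUnion N).card = K * (Bl N L c).card := by
    intro c _
    rw [Finset.card_biUnion (fun a ha b hb hab => h.ff.far a (hLR (Bl_sub _ ha)) b
      (hLR (Bl_sub _ hb)) hab), Finset.sum_congr rfl (fun a ha => h.ff.cen a (hLR (Bl_sub _ ha)))]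
    simp [mul_comm]
  -- every clean tile is in the block of a representative
  have hLcI : ∀ c ∈ Lc, ∃ b ∈ I, c ∈ Bl N L b := by
    intro c hc
    have hcL := hLcL hc
    apply hIX c hcL
    have hVc := hVcard c hcL
    have hcB : c ∈ Bl N L c := self_Bl hcL
    have hne : ((Bl N L c).biUnion N).Nonempty :=
      ⟨c, Finset.mem_biUnion.2 ⟨c, hcB, h.gr.refl c (hLH hcL)⟩⟩
    have hne' : (Bl N L c).biUnion N ≠ univ := by
      intro hh
      rw [hh] at hVc
      have h1 := Bl_card hdeg hcL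
      have h2 : 0 < (Bl N L c).card := Finset.card_pos.2 ⟨c, hcB⟩
      have h3 : (Bl N L c).card = 1 ∨ (Bl N L c).card = 2 := by omega
      rcases h3 with h3 | h3
      · rw [h3, Nat.mul_one] at hVc; exact hn1 hVc
      · rw [h3, Nat.mul_comm] at hVc; exact hn2 hVc
    obtain ⟨x, hx, y, hy, hyx⟩ := hconn _ hne hne'
    obtain ⟨a, ha, hxa⟩ := Finset.mem_biUnion.1 hx
    obtain ⟨haLc, haW⟩ := hclean c hc a ha
    refine ⟨a, Finset.mem_filter.2 ⟨haLc, x, hxa, y, hyx, ?_⟩, ha⟩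
    intro hyL
    obtain ⟨d, hd, hyd⟩ := Finset.mem_biUnion.1 hyL
    have hyH : y ∈ H := hNH _ hyd
    have hyx' : y ∈ N x := Finset.mem_inter.2 ⟨hyx, hyH⟩
    have hda : d ∈ Bl N L a := mem_Bl.2 ⟨hd, Or.inr (h.gr.tadj_symm ⟨x, hxa, y, hyd, hyx'⟩)⟩
    exact hy (Finset.mem_biUnion.2 ⟨d, h.gr.Bl_trans hdeg hcL hda ha, hyd⟩)
  have hLcc : Lc.card ≤ 2 * I.card := card_blocks hdeg (fun b hb => hIL b hb) hLcI
  -- the exits
  have hch : ∀ b, ∃ yg : U × U, b ∈ I → yg.1 ∈ N b ∧ yg.2 ∈ A yg.1 ∧ yg.2 ∉ L.biUnion N := by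
    intro b
    by_cases hb : b ∈ I
    · obtain ⟨-, y, hy, g, hg, hgZ⟩ := Finset.mem_filter.1 (hIA hb)
      exact ⟨(y, g), fun _ => ⟨hy, hg, hgZ⟩⟩
    · exact ⟨(b, b), fun hh => absurd hh hb⟩
  choose yg hyg using hch
  -- distinct blocks
  have hBB : ∀ b ∈ I, ∀ b' ∈ I, b ≠ b' → ∀ c ∈ Bl N L b, ∀ c' ∈ Bl N L b', c ≠ c' ∧ ¬ Tadj N c c' := by
    intro b hb b' hb' hne c hc c' hc'
    have hno : b' ∉ Bl N L b := by
      intro hh
      rcases (mem_Bl.1 hh).2 with h1 | h1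
      · exact hne h1.symm
      · exact hInd b' hb' b hb hne.symm h1
    have hc'b' : b' ∈ Bl N L c' := h.gr.Bl_symm (hIL b' hb') hc'
    refine ⟨?_, ?_⟩
    · intro hcc
      apply hno
      rw [← hcc] at hc'b'
      exact h.gr.Bl_trans hdeg (hIL b hb) hc'b' hc
    · intro hT
      apply hno
      have h1 : c' ∈ Bl N L c := mem_Bl.2 ⟨Bl_sub _ hc', Or.inr (h.gr.tadj_symm hT)⟩
      have h2 : c' ∈ Bl N L b := h.gr.Bl_trans hdeg (hIL b hb) h1 hc
      exact h.gr.Bl_trans hdeg (hIL b hb) hc'b' h2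
  have hfarL : ∀ c ∈ L, ∀ d ∈ L, c ≠ d → Disjoint (N c) (N d) := fun c hc d hd hcd =>
    h.ff.far c (hLR hc) d (hLR hd) hcd
  have hLnB : ∀ b ∈ I, ∀ c ∈ Bl N L b, c ∉ Ln := by
    intro b hb c hc
    exact (Finset.mem_sdiff.1 (hclean b (hILc b hb) c hc).1).2
  -- the system
  have hSys : Sys A K f0 q Ln (Ln.biUnion N) I (fun b => (Bl N L b).biUnion N) (Bl N L) := by
    refine ⟨hrefl, hsymm, hf0, hq, ?_, ?_, ?_, ?_, ?_, ?_, ?_, ?_, ?_, ?_, ?_⟩
    · exact Finset.biUnion_mono (fun c _ => hNA c)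
    · rw [Finset.card_biUnion (fun a ha b hb hab => hfarL a (hLnL ha) b (hLnL hb) hab),
        Finset.sum_congr rfl (fun a ha => h.ff.cen a (hLR (hLnL ha)))]
      simp [mul_comm]
    · intro b _
      exact Finset.biUnion_mono (fun c _ => hNA c)
    · intro b _ c hc
      exact Finset.mem_biUnion.2 ⟨c, hc, h.gr.refl c (hLH (Bl_sub _ hc))⟩
    · intro b hb; exact self_Bl (hIL b hb)
    · intro b hb; exact Bl_card hdeg (hIL b hb)
    · intro b hb; exact hVcard b (hIL b hb)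
    · intro b hb
      rw [Finset.disjoint_left]
      intro x hx hx'
      obtain ⟨c, hc, hxc⟩ := Finset.mem_biUnion.1 hx
      obtain ⟨d, hd, hxd⟩ := Finset.mem_biUnion.1 hx'
      have hne : c ≠ d := fun hh => hLnB b hb d hd (hh ▸ hc)
      exact Finset.disjoint_left.1 (hfarL c (hLnL hc) d (Bl_sub _ hd) hne) hxc hxd
    · intro b hb b' hb' hne
      rw [Finset.disjoint_left]
      intro x hx hx'
      obtain ⟨c, hc, hxc⟩ := Finset.mem_biUnion.1 hx
      obtain ⟨d, hd, hxd⟩ := Finset.mem_biUnion.1 hx'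
      exact Finset.disjoint_left.1 (hfarL c (Bl_sub _ hc) d (Bl_sub _ hd)
        (hBB b hb b' hb' hne c hc d hd).1) hxc hxd
    · intro d hd b hb
      rw [Finset.disjoint_left]
      intro x hx hx'
      obtain ⟨c, hc, hxc⟩ := Finset.mem_biUnion.1 hx'
      have hne : d ≠ c := fun hh => hLnB b hb c hc (hh ▸ hd)
      exact Finset.disjoint_left.1 (hfarL d (hLnL hd) c (Bl_sub _ hc) hne)
        (Finset.mem_inter.2 ⟨hx, hNH _ hxc⟩) hxc
    · intro x b hb b' hb' hne h1 h2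
      obtain ⟨u, hu, huV⟩ := Finset.not_disjoint_iff.1 h1
      obtain ⟨u', hu', huV'⟩ := Finset.not_disjoint_iff.1 h2
      obtain ⟨c, hc, huc⟩ := Finset.mem_biUnion.1 huV
      obtain ⟨c', hc', huc'⟩ := Finset.mem_biUnion.1 huV'
      obtain ⟨h3, h4⟩ := hBB b hb b' hb' hne c hc c' hc'
      have hcL : c ∈ L := Bl_sub _ hc
      have hcL' : c' ∈ L := Bl_sub _ hc'
      exact h.touch (v := x) (hLR hcL) (hLR hcL') (hLΦ c hcL) (hLΦ c' hcL') h3 h4
        (hclean b (hILc b hb) c hc).2 (hclean b' (hILc b' hb') c' hc').2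
        (not_disj (Finset.mem_inter.2 ⟨hu, hNH _ huc⟩) huc)
        (not_disj (Finset.mem_inter.2 ⟨hu', hNH _ huc'⟩) huc')
  have hLO : L.biUnion N ⊆ (Ln.biUnion N) ∪ I.biUnion (fun b => (Bl N L b).biUnion N) := by
    intro x hx
    obtain ⟨c, hc, hxc⟩ := Finset.mem_biUnion.1 hx
    by_cases hcn : c ∈ Ln
    · exact Finset.mem_union_left _ (Finset.mem_biUnion.2 ⟨c, hcn, hxc⟩)
    · obtain ⟨b, hb, hcb⟩ := hLcI c (Finset.mem_sdiff.2 ⟨hc, hcn⟩)
      exact Finset.mem_union_right _ (Finset.mem_biUnion.2 ⟨b, hb,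
        Finset.mem_biUnion.2 ⟨c, hcb, hxc⟩⟩)
  have hLcard : (L.biUnion N).card = K * L.card := by
    rw [Finset.card_biUnion hfarL, Finset.sum_congr rfl (fun a ha => h.ff.cen a (hLR ha))]
    simp [mul_comm]
  have e3 : L.card + F.card = R.card := Finset.card_sdiff_add_card_eq_card hFR
  have hOO : (OO (Ln.biUnion N) I (fun b => (Bl N L b).biUnion N)).card ≤ 24 * (K * q) := by
    have h1 : OO (Ln.biUnion N) I (fun b => (Bl N L b).biUnion N) ⊆ univ \ L.biUnion N :=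
      Finset.sdiff_subset_sdiff (Finset.Subset.refl _) hLO
    have h2 := Finset.card_le_card h1
    have h3 : (univ \ L.biUnion N).card + (L.biUnion N).card = (univ : Finset U).card :=
      Finset.card_sdiff_add_card_eq_card (Finset.subset_univ _)
    rw [hLcard] at h3
    have h4 : K * F.card ≤ K * (7 * (WW N H R).card) := Nat.mul_le_mul_left _ hFc
    have h5 : K * R.card = K * L.card + K * F.card := by rw [← e3]; ring
    omega
  have hI := hSys.cardI (y := fun b => (yg b).1) (g := fun b => (yg b).2) h.gr.K1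
    (by
      intro b hb
      obtain ⟨h1, -, -⟩ := hyg b hb
      exact ⟨Finset.mem_biUnion.2 ⟨b, self_Bl (hIL b hb), h1⟩, hNA _ h1⟩)
    (by
      intro b hb
      obtain ⟨-, h2, h3⟩ := hyg b hb
      refine ⟨h2, ?_⟩
      rw [mem_OO]
      refine ⟨?_, ?_⟩
      · intro hh
        obtain ⟨c, hc, hgc⟩ := Finset.mem_biUnion.1 hh
        exact h3 (Finset.mem_biUnion.2 ⟨c, hLnL hc, hgc⟩)
      · intro b' _ hh
        obtain ⟨c, hc, hgc⟩ := Finset.mem_biUnion.1 hh
        exact h3 (Finset.mem_biUnion.2 ⟨c, Bl_sub _ hc, hgc⟩))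
    hOO
  have e2 : Lc.card + Ln.card = L.card := Finset.card_sdiff_add_card_eq_card hLnL
  omega

end Pool.Agent.Star.Abg
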