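import Pool.Agent.Star.Abg8

/-!
# Star isolation, absolute constant (all graphs): the pigeonhole argument and the theorem
-/

set_option autoImplicit false
set_option linter.unusedSectionVars false

namespace Pool.Agent.Star.Abg

open Finset

variable {U : Type*} [Fintype U] [DecidableEq U]

/-- `D1 ∪ R` kills, `R` is a far family, `|D1| ≤ r`, `|D1| + |R| ≤ m`. -/
def PP (N : U → Finset U) (K : ℕ) (H : Finset U) (r m : ℕ) : Prop :=
  ∃ D1 R : Finset U, D1.card ≤ r ∧ FF N K H R ∧ Kills N K H (D1 ∪ R) ∧ D1.card + R.card ≤ m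

section
variable {N : U → Finset U} {K : ℕ} {H : Finset U}

lemma FF.card_biUnion {R : Finset U} (h : FF N K H R) : (R.biUnion N).card = K * R.card := by
  rw [Finset.card_biUnion h.far, Finset.sum_congr rfl h.cen]
  simp [mul_comm]

lemma Gr.card_le (h : Gr N K H) {R : Finset U} (hR : FF N K H R) : K * R.card ≤ H.card := by
  rw [← hR.card_biUnion]
  apply Finset.card_le_card
  intro x hx
  obtain ⟨c, -, hxc⟩ := Finset.mem_biUnion.1 hx
  exact h.sub _ hxc

lemma Gr.exMax (h : Gr N K H) : ∃ R, FF N K H R ∧ Kills N K H R := by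
  classical
  obtain ⟨R, hR, hmax⟩ := Finset.exists_max_image
    ((Finset.univ : Finset (Finset U)).filter (fun R => FF N K H R)) Finset.card
    ⟨∅, Finset.mem_filter.2 ⟨Finset.mem_univ _, ⟨by simp, by simp, by simp⟩⟩⟩
  have hFF := (Finset.mem_filter.1 hR).2
  refine ⟨R, hFF, ?_⟩
  intro p hpH hpK
  by_contra hcon
  push Not at hcon
  have hpR : p ∉ R := by
    intro hh
    exact Finset.disjoint_left.1 (hcon p hh) (h.refl p hpH) (h.refl p hpH)
  have hFF' : FF N K H (insert p R) := by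
    refine ⟨Finset.insert_subset hpH hFF.sub, ?_, ?_⟩
    · intro c hc
      rcases Finset.mem_insert.1 hc with rfl | hc
      · exact hpK
      · exact hFF.cen c hc
    · intro c hc d hd hcd
      rcases Finset.mem_insert.1 hc with hc' | hc' <;> rcases Finset.mem_insert.1 hd with hd' | hd'
      · exact absurd (hc'.trans hd'.symm) hcd
      · rw [hc']; exact (hcon d hd').symm
      · rw [hd']; exact hcon c hc'
      · exact hFF.far c hc' d hd' hcd
  have := hmax (insert p R) (Finset.mem_filter.2 ⟨Finset.mem_univ _, hFF'⟩)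
  rw [Finset.card_insert_of_notMem hpR] at this
  omega

/-- The pigeonhole step. -/
lemma Gr.exBase (h : Gr N K H) {f0 q : ℕ} (hf0 : ∀ D : Finset U, Kills N K H D → f0 ≤ D.card)
    (hq : H.card = K * f0 + q) :
    ∃ D1 R Φ : Finset U, Base N K H D1 R Φ ∧ Kills N K H (D1 ∪ R) ∧
      Φ.card ≤ (WW N H R).card ∧ K * D1.card ≤ 2 * q := by
  classical
  obtain ⟨R0, hR0, hR0k⟩ := h.exMax
  have hP0 : ∀ r, PP N K H r R0.card := fun r =>
    ⟨∅, R0, by simp, hR0, by simpa using hR0k, by simp⟩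
  let g : ℕ → ℕ := fun i => sInf {m | PP N K H (2 * i) m}
  have hgm : ∀ i, PP N K H (2 * i) (g i) := fun i =>
    Nat.sInf_mem (⟨_, hP0 _⟩ : {m | PP N K H (2 * i) m}.Nonempty)
  have hgl : ∀ i m, PP N K H (2 * i) m → g i ≤ m := fun i m hm => Nat.sInf_le hm
  have hgf : ∀ i, f0 ≤ g i := by
    intro i
    obtain ⟨D1, R, -, -, hk, hc⟩ := hgm i
    have := hf0 _ hk
    have h2 := Finset.card_union_le D1 R
    omega
  have hg0 : K * g 0 ≤ H.card := by
    have h1 : g 0 ≤ R0.card := hgl 0 _ (hP0 _)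
    exact (Nat.mul_le_mul_left _ h1).trans (h.card_le hR0)
  have hex : ∃ i, K * i ≤ q ∧ g i ≤ g (i + 1) := by
    by_contra hcon
    push Not at hcon
    have hind : ∀ i, i ≤ q / K + 1 → g i + i ≤ g 0 := by
      intro i
      induction i with
      | zero => intro _; omega
      | succ i ih =>
        intro hi
        have h1 := ih (by omega)
        have h2 : K * i ≤ q := by
          calc K * i ≤ K * (q / K) := Nat.mul_le_mul_left _ (by omega)
            _ ≤ q := Nat.mul_div_le q K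
        have h3 := hcon i h2
        omega
    have h1 := hind (q / K + 1) le_rfl
    have h2 := hgf (q / K + 1)
    have h3 : K * (f0 + (q / K + 1)) ≤ K * g 0 := Nat.mul_le_mul_left _ (by omega)
    have h4 : q < K * (q / K + 1) := Nat.lt_mul_div_succ q h.K1
    rw [Nat.mul_add] at h3
    omega
  obtain ⟨i, hi, hgi⟩ := hex
  obtain ⟨D1, R, hD1, hR, hk, hc⟩ := hgm i
  -- guards
  have hch : ∀ w, ∃ φ, w ∈ WW N H R → (N w).card = K → (∀ d ∈ D1, Disjoint (N d) (N w)) →
      φ ∈ R ∧ ¬ Disjoint (N φ) (N w) := by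
    intro w
    by_cases hw : w ∈ H ∧ (N w).card = K ∧ (∀ d ∈ D1, Disjoint (N d) (N w))
    · obtain ⟨d, hd, hdw⟩ := hk w hw.1 hw.2.1
      rcases Finset.mem_union.1 hd with hd | hd
      · exact absurd (hw.2.2 d hd) hdw
      · exact ⟨d, fun _ _ _ => ⟨hd, hdw⟩⟩
    · exact ⟨w, fun h0 h1 h2 => absurd ⟨(mem_WW.1 h0).1, h1, h2⟩ hw⟩
  choose φ hφ using hch
  let A := (WW N H R).filter (fun w => (N w).card = K ∧ (∀ d ∈ D1, Disjoint (N d) (N w)))
  refine ⟨D1, R, A.image φ, ⟨h, hR, ?_, ?_, ?_⟩, hk, ?_, ?_⟩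
  · intro E R' hE hR' hlt
    by_contra hcon
    push Not at hcon
    have hkill : Kills N K H ((D1 ∪ E) ∪ R') := by
      intro p hpH hpK
      by_contra hno
      push Not at hno
      obtain ⟨d, hd, hdp⟩ := hcon p hpH hpK
        (fun d hd => hno d (Finset.mem_union_left _ (Finset.mem_union_left _ hd)))
        (fun d hd => hno d (Finset.mem_union_left _ (Finset.mem_union_right _ hd)))
      exact hdp (hno d (Finset.mem_union_right _ hd))
    have h1 := Finset.card_union_le D1 E
    have h2 : PP N K H (2 * (i + 1)) (g i - 1) :=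
      ⟨D1 ∪ E, R', by omega, hR', hkill, by omega⟩
    have h3 := hgl (i + 1) _ h2
    omega
  · intro c hc
    obtain ⟨w, hw, rfl⟩ := Finset.mem_image.1 hc
    obtain ⟨h1, h2, h3⟩ := Finset.mem_filter.1 hw
    exact (hφ w h1 h2 h3).1
  · intro p hpH hpK hp1 hpΦ
    by_contra hno
    push Not at hno
    have hpW : p ∈ WW N H R := mem_WW.2 ⟨hpH, hno⟩
    have hpA : p ∈ A := Finset.mem_filter.2 ⟨hpW, hpK, hp1⟩
    exact (hφ p hpW hpK hp1).2 (hpΦ _ (Finset.mem_image_of_mem φ hpA))
  · exact Finset.card_image_le.trans (Finset.card_le_card (Finset.filter_subset _ _))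
  · calc K * D1.card ≤ K * (2 * i) := Nat.mul_le_mul_left _ hD1
      _ = 2 * (K * i) := by ring
      _ ≤ 2 * q := by omega

end

/-- The vertices of large degree can be removed. -/
lemma exDh (A : U → Finset U) (K : ℕ) :
    ∃ Dh : Finset U, (K + 1) * Dh.card ≤ (Dh.biUnion A).card ∧
      ∀ x, (A x ∩ (univ \ Dh.biUnion A)).card ≤ K := by
  classical
  obtain ⟨Dh, hD, hmax⟩ := Finset.exists_max_image
    ((Finset.univ : Finset (Finset U)).filter (fun D => (K + 1) * D.card ≤ (D.biUnion A).card))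
    Finset.card ⟨∅, Finset.mem_filter.2 ⟨Finset.mem_univ _, by simp⟩⟩
  have hDc := (Finset.mem_filter.1 hD).2
  refine ⟨Dh, hDc, ?_⟩
  intro x
  by_contra hcon
  push Not at hcon
  have hxD : x ∉ Dh := by
    intro hx
    have : A x ∩ (univ \ Dh.biUnion A) = ∅ := by
      rw [← Finset.disjoint_iff_inter_eq_empty, Finset.disjoint_left]
      intro z hz hz'
      exact (Finset.mem_sdiff.1 hz').2 (Finset.mem_biUnion.2 ⟨x, hx, hz⟩)
    rw [this] at hcon
    simp at hcon
  have h1 : (K + 1) * (insert x Dh).card ≤ ((insert x Dh).biUnion A).card := by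
    rw [Finset.card_insert_of_notMem hxD, Finset.biUnion_insert]
    have h2 : A x ∪ Dh.biUnion A = (A x ∩ (univ \ Dh.biUnion A)) ∪ Dh.biUnion A := by
      ext z
      simp only [Finset.mem_union, Finset.mem_inter, Finset.mem_sdiff, Finset.mem_univ, true_and]
      tauto
    have h3 : Disjoint (A x ∩ (univ \ Dh.biUnion A)) (Dh.biUnion A) := by
      rw [Finset.disjoint_left]
      intro z hz hz'
      exact (Finset.mem_sdiff.1 (Finset.mem_inter.1 hz).2).2 hz'
    rw [h2, Finset.card_union_of_disjoint h3, Nat.mul_add]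
    omega
  have := hmax (insert x Dh) (Finset.mem_filter.2 ⟨Finset.mem_univ _, h1⟩)
  rw [Finset.card_insert_of_notMem hxD] at this
  omega

lemma isoU_iff {A : U → Finset U} {K : ℕ} {D : Finset U} : Iso A K univ D ↔ IsoU A K D := by
  unfold Iso IsoU rem
  constructor
  · rintro ⟨-, h⟩ p hp
    have := h p (Finset.mem_sdiff.2 ⟨Finset.mem_univ _, hp⟩)
    have e : A p ∩ (univ \ D.biUnion A) = A p \ D.biUnion A := by
      ext z; simp
    rwa [e] at this
  · intro h
    refine ⟨Finset.subset_univ _, ?_⟩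
    intro p hp
    have := h p (Finset.mem_sdiff.1 hp).2
    have e : A p ∩ (univ \ D.biUnion A) = A p \ D.biUnion A := by
      ext z; simp
    rwa [e]

/-- **Absolute constant.** A connected graph with neither `K` nor `2K` vertices has an isolating
set `D` (no remaining star on `K` vertices) with `(319 K + 1) |D| ≤ 319 n`. -/
theorem main {A : U → Finset U} {K : ℕ} (hK : 1 ≤ K)
    (hrefl : ∀ x, x ∈ A x) (hsymm : ∀ x y, x ∈ A y → y ∈ A x)
    (hconn : ∀ B : Finset U, B.Nonempty → B ≠ univ → ∃ x ∈ B, ∃ y, y ∉ B ∧ y ∈ A x)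
    (hn1 : (univ : Finset U).card ≠ K) (hn2 : (univ : Finset U).card ≠ 2 * K) :
    (319 * K + 1) * f A K univ ≤ 319 * (univ : Finset U).card := by
  classical
  by_contra hbig
  push Not at hbig
  set f0 := f A K univ with hf0def
  have hf0 : ∀ D : Finset U, IsoU A K D → f0 ≤ D.card := fun D hD => f_le (isoU_iff.2 hD)
  have hKf : K * f0 ≤ (univ : Finset U).card := mul_f_le hrefl _
  obtain ⟨q, hq⟩ := Nat.exists_eq_add_of_le hKf
  obtain ⟨Dh, hDh, hdeg⟩ := exDh A K
  set H := univ \ Dh.biUnion A with hH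
  have hHc : H.card + (Dh.biUnion A).card = (univ : Finset U).card :=
    Finset.card_sdiff_add_card_eq_card (Finset.subset_univ _)
  have hGr : Gr (fun x => A x ∩ H) K H := by
    refine ⟨fun x => Finset.inter_subset_right, ?_, ?_, hK, hdeg⟩
    · intro x hx; exact Finset.mem_inter.2 ⟨hrefl x, hx⟩
    · intro x _ y hy hxy
      exact Finset.mem_inter.2 ⟨hsymm _ _ (Finset.mem_inter.1 hxy).1, hy⟩
  have hkill : ∀ D : Finset U, Kills (fun x => A x ∩ H) K H D → f0 ≤ Dh.card + D.card := by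
    intro D hD
    refine (hf0 (Dh ∪ D) ?_).trans (Finset.card_union_le _ _)
    intro p hp
    by_contra hcon
    push Not at hcon
    have hpH : p ∈ H := by
      rw [hH, Finset.mem_sdiff]
      refine ⟨Finset.mem_univ _, fun hh => hp ?_⟩
      exact Finset.biUnion_subset_biUnion_of_subset_left _ Finset.subset_union_left hh
    have hsub : A p \ (Dh ∪ D).biUnion A ⊆ A p ∩ H := by
      intro z hz
      obtain ⟨hz1, hz2⟩ := Finset.mem_sdiff.1 hz
      rw [Finset.mem_inter, hH, Finset.mem_sdiff]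
      refine ⟨hz1, Finset.mem_univ _, fun hh => hz2 ?_⟩
      exact Finset.biUnion_subset_biUnion_of_subset_left _ Finset.subset_union_left hh
    have hdp := hdeg p
    have heq := Finset.eq_of_subset_of_card_le hsub (by omega)
    have hcp : (A p ∩ H).card = K := by
      rw [← heq]; rw [← heq] at hdp; omega
    obtain ⟨d, hd, hnd⟩ := hD p hpH hcp
    obtain ⟨z, hz1, hz2⟩ := Finset.not_disjoint_iff.1 hnd
    have hz3 : z ∈ A p ∩ H := hz2
    rw [← heq] at hz3
    exact (Finset.mem_sdiff.1 hz3).2 (Finset.mem_biUnion.2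
      ⟨d, Finset.mem_union_right _ hd, (Finset.mem_inter.1 hz1).1⟩)
  -- the minimum in `H`
  have hne : {m | ∃ D : Finset U, Kills (fun x => A x ∩ H) K H D ∧ D.card = m}.Nonempty := by
    obtain ⟨R, -, hR⟩ := hGr.exMax
    exact ⟨_, R, hR, rfl⟩
  obtain ⟨D, hD, hDc⟩ := Nat.sInf_mem hne
  set f1 := sInf {m | ∃ D : Finset U, Kills (fun x => A x ∩ H) K H D ∧ D.card = m} with hf1def
  have hf1 : ∀ D : Finset U, Kills (fun x => A x ∩ H) K H D → f1 ≤ D.card :=
    fun D hD => Nat.sInf_le ⟨D, hD, rfl⟩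
  have hf01 : f0 ≤ Dh.card + f1 := by
    rw [← hDc]; exact hkill D hD
  have hKf1 : K * f1 ≤ H.card := by
    obtain ⟨R, hR1, hR⟩ := hGr.exMax
    exact (Nat.mul_le_mul_left _ (hf1 R hR)).trans (hGr.card_le hR1)
  obtain ⟨q1, hq1⟩ := Nat.exists_eq_add_of_le hKf1
  obtain ⟨D1, R, Φ, hB, hk, hΦ, hD1⟩ := hGr.exBase hf1 hq1
  have h2 := hB.card_W
  have h3 := hf1 _ hk
  have h4 := Finset.card_union_le D1 R
  have h5 : K * f1 ≤ K * (D1.card + R.card) := Nat.mul_le_mul_left _ (by omega)
  rw [Nat.mul_add] at h5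
  have h6 : (WW (fun x => A x ∩ H) H R).card ≤ 3 * q1 := by omega
  have h7 : K * f0 ≤ K * Dh.card + K * f1 := by
    rw [← Nat.mul_add]; exact Nat.mul_le_mul_left _ hf01
  have h8 : (K + 1) * Dh.card = K * Dh.card + Dh.card := by ring
  have h9 : q1 + Dh.card ≤ q := by omega
  have h10 : K * Dh.card + 21 * (K * q1) ≤ 21 * (K * q) := by
    have e1 : K * (q1 + Dh.card) ≤ K * q := Nat.mul_le_mul_left _ h9
    rw [Nat.mul_add] at e1
    omega
  have h11 : q ≤ K * q := Nat.le_mul_of_pos_left _ hK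
  have h12 : K * (7 * (WW (fun x => A x ∩ H) H R).card) ≤ 21 * (K * q1) := by
    calc K * (7 * (WW (fun x => A x ∩ H) H R).card) ≤ K * (21 * q1) :=
          Nat.mul_le_mul_left _ (by omega)
      _ = _ := by ring
  have h1 := card_R hrefl hsymm hconn hB hΦ hn1 hn2 hf0 hq (by omega)
  have h13 : D1.card ≤ K * D1.card := Nat.le_mul_of_pos_left _ hK
  have h14 : (319 * K + 1) * f0 = 319 * (K * f0) + f0 := by ring
  omega

end Pool.Agent.Star.Abg
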