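import Pool.Agent.Star.Main

/-!
# Star isolation: an absolute constant for graphs of maximum degree at most `k`

Basic structure and the survivor lemma.
-/

set_option autoImplicit false

namespace Pool.Agent.Star.Abs

open Finset

variable {U : Type*} [Fintype U] [DecidableEq U]

/-- A graph (given by closed neighbourhoods) with all closed neighbourhoods of size `≤ K`. -/
structure Gr (N : U → Finset U) (K : ℕ) : Prop where
  refl : ∀ x, x ∈ N x
  symm : ∀ x y, x ∈ N y → y ∈ N x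
  K1 : 1 ≤ K
  deg : ∀ x, (N x).card ≤ K
  conn : ∀ B : Finset U, B.Nonempty → B ≠ univ → ∃ x ∈ B, ∃ y, y ∉ B ∧ y ∈ N x

/-- A family of centres with pairwise disjoint closed neighbourhoods. -/
structure FF (N : U → Finset U) (K : ℕ) (R : Finset U) : Prop where
  cen : ∀ c ∈ R, (N c).card = K
  far : ∀ c ∈ R, ∀ d ∈ R, c ≠ d → Disjoint (N c) (N d)

/-- Every centre is near an element of `D`. -/
def Kills (N : U → Finset U) (K : ℕ) (D : Finset U) : Prop :=
  ∀ c, (N c).card = K → ∃ d ∈ D, ¬ Disjoint (N d) (N c)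

/-- The situation after the pigeonhole argument. -/
structure Base (N : U → Finset U) (K : ℕ) (D1 R Φ : Finset U) : Prop where
  gr : Gr N K
  ff : FF N K R
  str : ∀ E R' : Finset U, E.card ≤ 2 → FF N K R' → E.card + R'.card < R.card →
      ∃ p, (N p).card = K ∧ (∀ d ∈ D1, Disjoint (N d) (N p)) ∧ (∀ d ∈ E, Disjoint (N d) (N p)) ∧
        ∀ d ∈ R', Disjoint (N d) (N p)
  PhiR : Φ ⊆ R
  guard : ∀ p, (N p).card = K → (∀ d ∈ D1, Disjoint (N d) (N p)) →
      (∀ φ ∈ Φ, Disjoint (N φ) (N p)) → ∃ k ∈ R, p ∈ N k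

section
variable {N : U → Finset U} {K : ℕ} {D1 R Φ : Finset U}

lemma Gr.meet (h : Gr N K) {a b z : U} (ha : a ∈ N z) (hb : b ∈ N z) : ¬ Disjoint (N a) (N b) := by
  rw [Finset.not_disjoint_iff]
  exact ⟨z, h.symm _ _ ha, h.symm _ _ hb⟩

lemma Gr.not_mem (h : Gr N K) {a b z : U} (hd : Disjoint (N a) (N b)) (ha : a ∈ N z) : b ∉ N z :=
  fun hb => h.meet ha hb hd

/-- The survivor lemma. -/
lemma Base.sv (h : Base N K D1 R Φ) (x : U → U) (J E : Finset U) (hJ : J ⊆ R)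
    (hJΦ : ∀ c ∈ J, c ∉ Φ) (hE : E.card < J.card) (hE2 : E.card ≤ 2)
    (hm : ∀ c ∈ R, c ∉ J → x c ∈ N c) (hc : ∀ c ∈ R, c ∉ J → (N (x c)).card = K)
    (hf : ∀ c ∈ R, c ∉ J → ∀ d ∈ R, d ∉ J → c ≠ d → Disjoint (N (x c)) (N (x d)))
    (hΦ : ∀ φ ∈ Φ, x φ = φ) :
    ∃ p, (N p).card = K ∧ (∀ e ∈ E, Disjoint (N e) (N p)) ∧
      (∀ c ∈ R, c ∉ J → Disjoint (N (x c)) (N p)) ∧
      ∃ k ∈ J, p ∈ N k ∧ ∀ e ∈ E, e ∉ N k := by
  have hFF : FF N K ((R \ J).image x) := by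
    refine ⟨?_, ?_⟩
    · intro c hc'
      obtain ⟨a, ha, rfl⟩ := Finset.mem_image.1 hc'
      rw [Finset.mem_sdiff] at ha
      exact hc a ha.1 ha.2
    · intro c hc' d hd' hne
      obtain ⟨a, ha, rfl⟩ := Finset.mem_image.1 hc'
      obtain ⟨b, hb, rfl⟩ := Finset.mem_image.1 hd'
      rw [Finset.mem_sdiff] at ha hb
      exact hf a ha.1 ha.2 b hb.1 hb.2 (fun hh => hne (by rw [hh]))
  have hcard : E.card + ((R \ J).image x).card < R.card := by
    have h1 : ((R \ J).image x).card ≤ (R \ J).card := Finset.card_image_le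
    have h2 : (R \ J).card = R.card - J.card := Finset.card_sdiff_of_subset hJ
    have h3 : J.card ≤ R.card := Finset.card_le_card hJ
    omega
  obtain ⟨p, hpK, hp1, hp2, hp3⟩ := h.str E _ hE2 hFF hcard
  have hp3' : ∀ c ∈ R, c ∉ J → Disjoint (N (x c)) (N p) := by
    intro c hcR hcJ
    exact hp3 _ (Finset.mem_image_of_mem x (Finset.mem_sdiff.2 ⟨hcR, hcJ⟩))
  obtain ⟨k, hk, hpk⟩ := h.guard p hpK hp1 (by
    intro φ hφ
    have hφJ : φ ∉ J := fun hh => hJΦ φ hh hφ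
    have := hp3' φ (h.PhiR hφ) hφJ
    rwa [hΦ φ hφ] at this)
  refine ⟨p, hpK, hp2, hp3', k, ?_, hpk, ?_⟩
  · by_contra hkJ
    exact h.gr.meet (hm k hk hkJ) hpk (hp3' k hk hkJ)
  · intro e he hek
    exact h.gr.meet hek hpk (hp2 e he)

end

end Pool.Agent.Star.Abs
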