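import Pool.Agent.Star.Abs1

/-!
# Star isolation, absolute constant: processing disjoint path triples
-/

set_option autoImplicit false
set_option linter.unusedSectionVars false

namespace Pool.Agent.Star.Abs

open Finset

variable {U : Type*} [Fintype U] [DecidableEq U]

/-- There is an edge between `N c` and `N d`. -/
def Tadj (N : U → Finset U) (c d : U) : Prop := ∃ y ∈ N c, ∃ g ∈ N d, g ∈ N y

/-- A partial transversal of survivors. -/
structure St (N : U → Finset U) (K : ℕ) (R Φ : Finset U) (x : U → U) (A : Finset U) : Prop where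
  mem : ∀ c ∈ R, c ∉ A → x c ∈ N c
  cen : ∀ c ∈ R, c ∉ A → (N (x c)).card = K
  far : ∀ c ∈ R, c ∉ A → ∀ d ∈ R, d ∉ A → c ≠ d → Disjoint (N (x c)) (N (x d))
  phi : ∀ φ ∈ Φ, x φ = φ

/-- The three tiles of a triple. -/
def tiles (t : U × U × U) : Finset U := {t.1, t.2.1, t.2.2}

/-- A path triple of tiles: leaves `t.1`, `t.2.2`, middle `t.2.1`. -/
structure IsTri (N : U → Finset U) (R Φ : Finset U) (t : U × U × U) : Prop where
  r1 : t.1 ∈ R
  r2 : t.2.1 ∈ R
  r3 : t.2.2 ∈ R
  f1 : t.1 ∉ Φ
  f2 : t.2.1 ∉ Φ
  f3 : t.2.2 ∉ Φ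
  n1 : t.1 ≠ t.2.1
  n2 : t.2.2 ≠ t.2.1
  n3 : t.1 ≠ t.2.2
  a1 : Tadj N t.1 t.2.1
  a2 : Tadj N t.2.2 t.2.1

/-- The outcome of the process. -/
structure Proc (N : U → Finset U) (K : ℕ) (R Φ : Finset U) (T : Finset (U × U × U)) (x : U → U) :
    Prop where
  st : St N K R Φ x ∅
  fix : ∀ c, c ∉ T.biUnion tiles → x c = c
  out : ∀ t ∈ T, ∀ l, (l = t.1 ∨ l = t.2.2) → ∃ y ∈ N l, y ∉ N (x l)
  dis : ∀ t ∈ T, ∀ l, (l = t.1 ∨ l = t.2.2) → ∀ k ∈ R, k ≠ l → k ≠ t.2.1 →
    Disjoint (N (x l)) (N k) ∨ Disjoint (N (x k)) (N l)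

section
variable {N : U → Finset U} {K : ℕ} {D1 R Φ : Finset U}

lemma Gr.tadj_symm (h : Gr N K) {c d : U} (hT : Tadj N c d) : Tadj N d c := by
  obtain ⟨y, hy, g, hg, hgy⟩ := hT
  exact ⟨g, hg, y, hy, h.symm _ _ hgy⟩

lemma Base.leafstep (h : Base N K D1 R Φ) {x : U → U} {A : Finset U} {l o : U}
    (hx : St N K R Φ x A) (hA : A ⊆ {o}) (hl : l ∈ R) (ho : o ∈ R) (hlo : l ≠ o) (hlΦ : l ∉ Φ)
    (hoΦ : o ∉ Φ) (hT : Tadj N l o) :
    ∃ p, (∃ y ∈ N l, y ∉ N p) ∧
      (∀ c ∈ R, c ≠ l → c ≠ o → Disjoint (N (x c)) (N p)) ∧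
      St N K R Φ (Function.update x l p) {o} := by
  obtain ⟨y, hy, g, hg, hgy⟩ := hT
  have hnA : ∀ c, c ∉ ({l, o} : Finset U) → c ∉ A := by
    intro c hc hcA
    have := hA hcA
    apply hc
    rw [Finset.mem_singleton] at this
    simp [this]
  obtain ⟨p, hpK, hpE, hpx, k, hkJ, hpk, hke⟩ := h.sv x {l, o} {g}
    (by
      intro c hc
      rcases Finset.mem_insert.1 hc with rfl | hc
      · exact hl
      · rw [Finset.mem_singleton] at hc; rw [hc]; exact ho)
    (by
      intro c hc
      rcases Finset.mem_insert.1 hc with rfl | hc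
      · exact hlΦ
      · rw [Finset.mem_singleton] at hc; rw [hc]; exact hoΦ)
    (by rw [Finset.card_pair hlo, Finset.card_singleton]; omega)
    (by rw [Finset.card_singleton]; omega)
    (fun c hc hcJ => hx.mem c hc (hnA c hcJ))
    (fun c hc hcJ => hx.cen c hc (hnA c hcJ))
    (fun c hc hcJ d hd hdJ => hx.far c hc (hnA c hcJ) d hd (hnA d hdJ))
    hx.phi
  have hgp := hpE g (Finset.mem_singleton_self g)
  have hkl : k = l := by
    rcases Finset.mem_insert.1 hkJ with h1 | h1
    · exact h1
    · rw [Finset.mem_singleton] at h1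
      exact absurd (h1 ▸ hg) (hke g (Finset.mem_singleton_self g))
  subst hkl
  have hpx' : ∀ c ∈ R, c ≠ k → c ≠ o → Disjoint (N (x c)) (N p) := by
    intro c hc h1 h2
    exact hpx c hc (by simp [h1, h2])
  refine ⟨p, ⟨y, hy, ?_⟩, hpx', ?_, ?_, ?_, ?_⟩
  · intro hyp
    exact Finset.disjoint_left.1 hgp (h.gr.symm _ _ hgy) hyp
  · intro c hc hco
    rw [Finset.mem_singleton] at hco
    by_cases hck : c = k
    · rw [hck, Function.update_self]; exact hpk
    · rw [Function.update_of_ne hck]
      exact hx.mem c hc (hnA c (by simp [hck, hco]))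
  · intro c hc hco
    rw [Finset.mem_singleton] at hco
    by_cases hck : c = k
    · rw [hck, Function.update_self]; exact hpK
    · rw [Function.update_of_ne hck]
      exact hx.cen c hc (hnA c (by simp [hck, hco]))
  · intro c hc hco d hd hdo hcd
    rw [Finset.mem_singleton] at hco hdo
    by_cases hck : c = k
    · have hdk : d ≠ k := fun hh => hcd (hck.trans hh.symm)
      rw [hck, Function.update_self, Function.update_of_ne hdk]
      exact (hpx' d hd hdk hdo).symm
    · rw [Function.update_of_ne hck]
      by_cases hdk : d = k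
      · rw [hdk, Function.update_self]
        exact hpx' c hc hck hco
      · rw [Function.update_of_ne hdk]
        exact hx.far c hc (hnA c (by simp [hck, hco])) d hd (hnA d (by simp [hdk, hdo])) hcd
  · intro φ hφ
    have : φ ≠ k := fun hh => hlΦ (hh ▸ hφ)
    rw [Function.update_of_ne this]
    exact hx.phi φ hφ

lemma Base.fillstep (h : Base N K D1 R Φ) {x : U → U} {o : U}
    (hx : St N K R Φ x {o}) (ho : o ∈ R) (hoΦ : o ∉ Φ) :
    ∃ p, St N K R Φ (Function.update x o p) ∅ := by
  obtain ⟨p, hpK, -, hpx, k, hkJ, hpk, -⟩ := h.sv x {o} ∅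
    (by simpa using ho) (by simpa using hoΦ)
    (by simp) (by simp)
    (fun c hc hcJ => hx.mem c hc hcJ)
    (fun c hc hcJ => hx.cen c hc hcJ)
    (fun c hc hcJ d hd hdJ => hx.far c hc hcJ d hd hdJ)
    hx.phi
  rw [Finset.mem_singleton] at hkJ
  subst hkJ
  refine ⟨p, ?_, ?_, ?_, ?_⟩
  · intro c hc _
    by_cases hck : c = k
    · rw [hck, Function.update_self]; exact hpk
    · rw [Function.update_of_ne hck]
      exact hx.mem c hc (by simpa using hck)
  · intro c hc _
    by_cases hck : c = k
    · rw [hck, Function.update_self]; exact hpK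
    · rw [Function.update_of_ne hck]
      exact hx.cen c hc (by simpa using hck)
  · intro c hc _ d hd _ hcd
    by_cases hck : c = k
    · have hdk : d ≠ k := fun hh => hcd (hck.trans hh.symm)
      rw [hck, Function.update_self, Function.update_of_ne hdk]
      exact (hpx d hd (by simpa using hdk)).symm
    · rw [Function.update_of_ne hck]
      by_cases hdk : d = k
      · rw [hdk, Function.update_self]
        exact hpx c hc (by simpa using hck)
      · rw [Function.update_of_ne hdk]
        exact hx.far c hc (by simpa using hck) d hd (by simpa using hdk) hcd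
  · intro φ hφ
    have : φ ≠ k := fun hh => hoΦ (hh ▸ hφ)
    rw [Function.update_of_ne this]
    exact hx.phi φ hφ

/-- Processing a family of pairwise disjoint path triples. -/
lemma Base.process (h : Base N K D1 R Φ) : ∀ T : Finset (U × U × U),
    (∀ t ∈ T, IsTri N R Φ t) → (∀ t ∈ T, ∀ s ∈ T, t ≠ s → Disjoint (tiles t) (tiles s)) →
    ∃ x, Proc N K R Φ T x := by
  intro T
  induction T using Finset.induction_on with
  | empty =>
    intro _ _
    refine ⟨id, ⟨?_, ?_, ?_, ?_⟩, ?_, ?_, ?_⟩
    · intro c _ _; exact h.gr.refl c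
    · intro c hc _; exact h.ff.cen c hc
    · intro c hc _ d hd _ hcd; exact h.ff.far c hc d hd hcd
    · intro φ _; rfl
    · intro c _; rfl
    · intro t ht; exact absurd ht (Finset.notMem_empty t)
    · intro t ht; exact absurd ht (Finset.notMem_empty t)
  | insert t T htT ih =>
    intro hTri hDis
    obtain ⟨x, hx⟩ := ih (fun s hs => hTri s (Finset.mem_insert_of_mem hs))
      (fun s hs r hr => hDis s (Finset.mem_insert_of_mem hs) r (Finset.mem_insert_of_mem hr))
    obtain ⟨i, o, j⟩ := t
    have ht := hTri (i, o, j) (Finset.mem_insert_self _ _)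
    have r1 : i ∈ R := ht.r1
    have r2 : o ∈ R := ht.r2
    have r3 : j ∈ R := ht.r3
    have f1 : i ∉ Φ := ht.f1
    have f2 : o ∉ Φ := ht.f2
    have f3 : j ∉ Φ := ht.f3
    have n1 : i ≠ o := ht.n1
    have n2 : j ≠ o := ht.n2
    have n3 : i ≠ j := ht.n3
    have a1 : Tadj N i o := ht.a1
    have a2 : Tadj N j o := ht.a2
    -- the old leaves and middles are not in the new triple
    have hnew : ∀ c, c ∈ tiles (i, o, j) → c ∉ T.biUnion tiles := by
      intro c hc hcT
      obtain ⟨s, hs, hcs⟩ := Finset.mem_biUnion.1 hcT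
      have := hDis (i, o, j) (Finset.mem_insert_self _ _) s (Finset.mem_insert_of_mem hs)
        (fun hh => htT (hh ▸ hs))
      exact Finset.disjoint_left.1 this hc hcs
    have hxi : x i = i := hx.fix i (hnew i (by simp [tiles]))
    have hxo : x o = o := hx.fix o (hnew o (by simp [tiles]))
    have hxj : x j = j := hx.fix j (hnew j (by simp [tiles]))
    obtain ⟨p1, ho1, hd1, hs1⟩ := h.leafstep hx.st (by simp) r1 r2 n1 f1 f2 a1
    obtain ⟨p2, ho2, hd2, hs2⟩ := h.leafstep hs1 (by simp) r3 r2 n2 f3 f2 a2
    obtain ⟨p3, hs3⟩ := h.fillstep hs2 r2 f2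
    set x3 := Function.update (Function.update (Function.update x i p1) j p2) o p3 with hx3
    have e1 : x3 i = p1 := by
      rw [hx3, Function.update_of_ne n1, Function.update_of_ne n3, Function.update_self]
    have e2 : x3 j = p2 := by
      rw [hx3, Function.update_of_ne n2, Function.update_self]
    have e4 : ∀ c, c ≠ i → c ≠ o → c ≠ j → x3 c = x c := by
      intro c h1 h2 h3
      rw [hx3, Function.update_of_ne h2, Function.update_of_ne h3, Function.update_of_ne h1]
    have d12 : Disjoint (N p1) (N j) := by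
      have := hd1 j r3 n3.symm n2
      rw [hxj] at this
      exact this.symm
    refine ⟨x3, hs3, ?_, ?_, ?_⟩
    · intro c hc
      rw [Finset.biUnion_insert, Finset.mem_union, not_or] at hc
      have hc1 := hc.1
      simp only [tiles, Finset.mem_insert, Finset.mem_singleton, not_or] at hc1
      rw [e4 c hc1.1 hc1.2.1 hc1.2.2]
      exact hx.fix c hc.2
    · intro s hs l hl
      rcases Finset.mem_insert.1 hs with rfl | hs
      · simp only at hl
        rcases hl with rfl | rfl
        · rw [e1]; exact ho1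
        · rw [e2]; exact ho2
      · have hlT : l ∈ T.biUnion tiles := by
          refine Finset.mem_biUnion.2 ⟨s, hs, ?_⟩
          rcases hl with rfl | rfl <;> simp [tiles]
        have hli : l ≠ i := fun hh => hnew i (by simp [tiles]) (hh ▸ hlT)
        have hlo : l ≠ o := fun hh => hnew o (by simp [tiles]) (hh ▸ hlT)
        have hlj : l ≠ j := fun hh => hnew j (by simp [tiles]) (hh ▸ hlT)
        rw [e4 l hli hlo hlj]
        exact hx.out s hs l hl
    · intro s hs l hl k hk hkl hko
      rcases Finset.mem_insert.1 hs with rfl | hs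
      · simp only at hl hko
        rcases hl with rfl | rfl
        · -- l = i
          by_cases hkj : k = j
          · left; rw [e1, hkj]; exact d12
          · right
            rw [e4 k hkl hko hkj]
            have := hx.st.far k hk (Finset.notMem_empty _) l r1 (Finset.notMem_empty _) hkl
            rwa [hxi] at this
        · -- l = j
          by_cases hki : k = i
          · right; rw [hki, e1]; exact d12
          · right
            rw [e4 k hki hko hkl]
            have := hx.st.far k hk (Finset.notMem_empty _) l r3 (Finset.notMem_empty _) hkl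
            rwa [hxj] at this
      · have hlT : l ∈ T.biUnion tiles := by
          refine Finset.mem_biUnion.2 ⟨s, hs, ?_⟩
          rcases hl with rfl | rfl <;> simp [tiles]
        have hlR : l ∈ R := by
          have hs' := hTri s (Finset.mem_insert_of_mem hs)
          rcases hl with rfl | rfl
          · exact hs'.r1
          · exact hs'.r3
        have hli : l ≠ i := fun hh => hnew i (by simp [tiles]) (hh ▸ hlT)
        have hlo : l ≠ o := fun hh => hnew o (by simp [tiles]) (hh ▸ hlT)
        have hlj : l ≠ j := fun hh => hnew j (by simp [tiles]) (hh ▸ hlT)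
        rw [e4 l hli hlo hlj]
        by_cases hkt : k = i ∨ k = o ∨ k = j
        · left
          have hxk : x k = k := by
            rcases hkt with rfl | rfl | rfl
            · exact hxi
            · exact hxo
            · exact hxj
          have := hx.st.far l hlR (Finset.notMem_empty _) k hk (Finset.notMem_empty _) hkl.symm
          rwa [hxk] at this
        · push Not at hkt
          rw [e4 k hkt.1 hkt.2.1 hkt.2.2]
          exact hx.dis s hs l hl k hk hkl hko

end

end Pool.Agent.Star.Abs
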