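import Pool.Agent.Star.Abs2

/-!
# Star isolation, absolute constant: there are at most `2 |W|` disjoint path triples
-/

set_option autoImplicit false
set_option linter.unusedSectionVars false

namespace Pool.Agent.Star.Abs

open Finset

variable {U : Type*} [Fintype U] [DecidableEq U]

/-- The vertices outside the tiles. -/
def WW (N : U → Finset U) (R : Finset U) : Finset U := univ \ R.biUnion N

lemma mem_WW {N : U → Finset U} {R : Finset U} {w : U} : w ∈ WW N R ↔ ∀ c ∈ R, w ∉ N c := by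
  simp [WW]

lemma card_le_of_disj {ι : Type*} [DecidableEq ι] (L : Finset ι) (S : ι → Finset U) (V : Finset U)
    (hd : ∀ a ∈ L, ∀ b ∈ L, a ≠ b → Disjoint (S a) (S b)) (hne : ∀ a ∈ L, ∃ y ∈ S a, y ∈ V) :
    L.card ≤ V.card := by
  calc L.card = ∑ a ∈ L, 1 := by simp
    _ ≤ ∑ a ∈ L, (S a ∩ V).card := Finset.sum_le_sum (fun a ha => by
        obtain ⟨y, hy, hv⟩ := hne a ha
        exact Finset.card_pos.2 ⟨y, Finset.mem_inter.2 ⟨hy, hv⟩⟩)
    _ = (L.biUnion (fun a => S a ∩ V)).card := (Finset.card_biUnion (fun a ha b hb hab =>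
        (hd a ha b hb hab).mono Finset.inter_subset_left Finset.inter_subset_left)).symm
    _ ≤ V.card := Finset.card_le_card (by
        intro y hy
        obtain ⟨a, -, hy'⟩ := Finset.mem_biUnion.1 hy
        exact (Finset.mem_inter.1 hy').2)

section
variable {N : U → Finset U} {K : ℕ} {D1 R Φ : Finset U}

lemma Base.card_W (h : Base N K D1 R Φ) : (WW N R).card + K * R.card = (univ : Finset U).card := by
  have h1 : (R.biUnion N).card = K * R.card := by
    rw [Finset.card_biUnion h.ff.far, Finset.sum_congr rfl h.ff.cen]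
    simp [mul_comm]
  rw [← h1]
  exact Finset.card_sdiff_add_card_eq_card (Finset.subset_univ _)

lemma Base.g1 (h : Base N K D1 R Φ) {x : U → U} (hx : St N K R Φ x ∅) {l k z : U} (hl : l ∈ R)
    (hlΦ : l ∉ Φ) (hk : k ∈ R) (hkl : k ≠ l) (hcov : ∀ y ∈ N l, ∃ c ∈ R, y ∈ N (x c))
    (hz : z ∈ N (x l)) (hzk : z ∈ N k) : ¬ Disjoint (N (x k)) (N l) := by
  have hkΦ : k ∉ Φ := by
    intro hkΦ
    have := hx.far l hl (Finset.notMem_empty _) k hk (Finset.notMem_empty _) hkl.symm
    rw [hx.phi k hkΦ] at this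
    exact Finset.disjoint_left.1 this hz hzk
  obtain ⟨p, hpK, hpE, hpx, k', hkJ, hpk, hke⟩ := h.sv x {l, k} {z}
    (by
      intro c hc
      rcases Finset.mem_insert.1 hc with rfl | hc
      · exact hl
      · rw [Finset.mem_singleton] at hc; rw [hc]; exact hk)
    (by
      intro c hc
      rcases Finset.mem_insert.1 hc with rfl | hc
      · exact hlΦ
      · rw [Finset.mem_singleton] at hc; rw [hc]; exact hkΦ)
    (by rw [Finset.card_pair hkl.symm, Finset.card_singleton]; omega)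
    (by rw [Finset.card_singleton]; omega)
    (fun c hc _ => hx.mem c hc (Finset.notMem_empty _))
    (fun c hc _ => hx.cen c hc (Finset.notMem_empty _))
    (fun c hc _ d hd _ => hx.far c hc (Finset.notMem_empty _) d hd (Finset.notMem_empty _))
    hx.phi
  have hzp := hpE z (Finset.mem_singleton_self z)
  have hk' : k' = l := by
    rcases Finset.mem_insert.1 hkJ with h1 | h1
    · exact h1
    · rw [Finset.mem_singleton] at h1
      exact absurd (h1 ▸ hzk) (hke z (Finset.mem_singleton_self z))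
  subst hk'
  obtain ⟨c, hc, hpc⟩ := hcov p hpk
  have hxcp : x c ∈ N p := h.gr.symm _ _ hpc
  by_cases hcl : c = k'
  · subst hcl
    exact absurd hzp (by
      rw [Finset.not_disjoint_iff]
      exact ⟨x c, h.gr.symm _ _ hz, hxcp⟩)
  by_cases hck : c = k
  · subst hck
    rw [Finset.not_disjoint_iff]
    exact ⟨p, hpc, hpk⟩
  · have := hpx c hc (by simp [hcl, hck])
    exact absurd this (by
      rw [Finset.not_disjoint_iff]
      exact ⟨x c, h.gr.refl _, hxcp⟩)

lemma Base.g2 (h : Base N K D1 R Φ) {x : U → U} (hx : St N K R Φ x ∅) {i o j z g : U}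
    (hi : i ∈ R) (ho : o ∈ R) (hj : j ∈ R) (hiΦ : i ∉ Φ) (hoΦ : o ∉ Φ) (hjΦ : j ∉ Φ)
    (hio : i ≠ o) (hij : i ≠ j) (hjo : j ≠ o)
    (hcov : ∀ y ∈ N i, ∃ c ∈ R, y ∈ N (x c))
    (hz : z ∈ N (x i)) (hzo : z ∈ N o) (hg : g ∈ N (x o)) (hgj : g ∈ N j)
    (hd : Disjoint (N (x j)) (N i)) : False := by
  have hJ3 : ({i, o, j} : Finset U).card = 3 := by
    rw [Finset.card_insert_of_notMem (by simp [hio, hij]), Finset.card_pair hjo.symm]
  have hE2 : ({z, g} : Finset U).card ≤ 2 := Finset.card_le_two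
  obtain ⟨p, hpK, hpE, hpx, k', hkJ, hpk, hke⟩ := h.sv x {i, o, j} {z, g}
    (by
      intro c hc
      simp only [Finset.mem_insert, Finset.mem_singleton] at hc
      rcases hc with rfl | rfl | rfl
      · exact hi
      · exact ho
      · exact hj)
    (by
      intro c hc
      simp only [Finset.mem_insert, Finset.mem_singleton] at hc
      rcases hc with rfl | rfl | rfl
      · exact hiΦ
      · exact hoΦ
      · exact hjΦ)
    (by omega) hE2
    (fun c hc _ => hx.mem c hc (Finset.notMem_empty _))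
    (fun c hc _ => hx.cen c hc (Finset.notMem_empty _))
    (fun c hc _ d hd _ => hx.far c hc (Finset.notMem_empty _) d hd (Finset.notMem_empty _))
    hx.phi
  have hzp := hpE z (by simp)
  have hgp := hpE g (by simp)
  have hk' : k' = i := by
    simp only [Finset.mem_insert, Finset.mem_singleton] at hkJ
    rcases hkJ with h1 | h1 | h1
    · exact h1
    · exact absurd (h1 ▸ hzo) (hke z (by simp))
    · exact absurd (h1 ▸ hgj) (hke g (by simp))
  subst hk'
  obtain ⟨c, hc, hpc⟩ := hcov p hpk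
  have hxcp : x c ∈ N p := h.gr.symm _ _ hpc
  by_cases hci : c = k'
  · subst hci
    exact Finset.disjoint_left.1 hzp (h.gr.symm _ _ hz) hxcp
  by_cases hco : c = o
  · subst hco
    exact Finset.disjoint_left.1 hgp (h.gr.symm _ _ hg) hxcp
  by_cases hcj : c = j
  · subst hcj
    exact Finset.disjoint_left.1 hd hpc hpk
  · have := hpx c hc (by simp [hci, hco, hcj])
    exact Finset.disjoint_left.1 this (h.gr.refl _) hxcp

/-- A leaf without waste: all outside neighbours of its survivor lie in the middle tile. -/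
lemma Base.leaf (h : Base N K D1 R Φ) {T : Finset (U × U × U)} {x : U → U}
    (hT : ∀ t ∈ T, IsTri N R Φ t) (hx : Proc N K R Φ T x)
    {t : U × U × U} (ht : t ∈ T) {l : U} (hl : l = t.1 ∨ l = t.2.2)
    (h1 : ∀ y ∈ N l, ∃ c ∈ R, y ∈ N (x c)) (h2 : ∀ w ∈ N (x l), ∃ c ∈ R, w ∈ N c) :
    (∃ z ∈ N (x l), z ∈ N t.2.1) ∧ (¬ Disjoint (N (x t.2.1)) (N l)) ∧
      ∀ k ∈ R, k ≠ l → k ≠ t.2.1 → Disjoint (N (x l)) (N k) := by
  have htr := hT t ht
  have hlR : l ∈ R := by
    rcases hl with rfl | rfl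
    · exact htr.r1
    · exact htr.r3
  have hlΦ : l ∉ Φ := by
    rcases hl with rfl | rfl
    · exact htr.f1
    · exact htr.f3
  have hlo : l ≠ t.2.1 := by
    rcases hl with rfl | rfl
    · exact htr.n1
    · exact htr.n2
  have hdis : ∀ k ∈ R, k ≠ l → k ≠ t.2.1 → Disjoint (N (x l)) (N k) := by
    intro k hk hkl hko
    by_contra hnd
    obtain ⟨z, hz, hzk⟩ := Finset.not_disjoint_iff.1 hnd
    have hg := h.g1 hx.st hlR hlΦ hk hkl h1 hz hzk
    rcases hx.dis t ht l hl k hk hkl hko with h3 | h3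
    · exact hnd h3
    · exact hg h3
  obtain ⟨y, hy, hyx⟩ := hx.out t ht l hl
  have hex : ∃ z ∈ N (x l), z ∉ N l := by
    by_contra hcon
    push Not at hcon
    have hsub : N (x l) ⊆ N l := hcon
    have hc1 := hx.st.cen l hlR (Finset.notMem_empty _)
    have hc2 := h.ff.cen l hlR
    have := Finset.eq_of_subset_of_card_le hsub (by omega)
    exact hyx (this ▸ hy)
  obtain ⟨z, hz, hzl⟩ := hex
  obtain ⟨k, hk, hzk⟩ := h2 z hz
  have hkl : k ≠ l := fun hh => hzl (hh ▸ hzk)
  have hko : k = t.2.1 := by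
    by_contra hko
    exact Finset.disjoint_left.1 (hdis k hk hkl hko) hz hzk
  refine ⟨⟨z, hz, hko ▸ hzk⟩, ?_, hdis⟩
  rw [← hko]
  exact h.g1 hx.st hlR hlΦ hk hkl h1 hz hzk

/-- In each triple some leaf has a wasted vertex or its survivor uses a vertex of `W`. -/
lemma Base.claim (h : Base N K D1 R Φ) {T : Finset (U × U × U)} {x : U → U}
    (hT : ∀ t ∈ T, IsTri N R Φ t) (hx : Proc N K R Φ T x) {t : U × U × U} (ht : t ∈ T) :
    ∃ l, (l = t.1 ∨ l = t.2.2) ∧ ((∃ y ∈ N l, ∀ c ∈ R, y ∉ N (x c)) ∨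
      (∃ w ∈ N (x l), ∀ c ∈ R, w ∉ N c)) := by
  by_contra hcon
  push Not at hcon
  have htr := hT t ht
  obtain ⟨⟨z, hz, hzo⟩, -, -⟩ := h.leaf hT hx ht (Or.inl rfl) (hcon t.1 (Or.inl rfl)).1
    (hcon t.1 (Or.inl rfl)).2
  obtain ⟨-, hnd, hdj⟩ := h.leaf hT hx ht (Or.inr rfl) (hcon t.2.2 (Or.inr rfl)).1
    (hcon t.2.2 (Or.inr rfl)).2
  obtain ⟨g, hg, hgj⟩ := Finset.not_disjoint_iff.1 hnd
  exact h.g2 hx.st htr.r1 htr.r2 htr.r3 htr.f1 htr.f2 htr.f3 htr.n1 htr.n3 htr.n2
    (hcon t.1 (Or.inl rfl)).1 hz hzo hg hgj (hdj t.1 htr.r1 htr.n3 htr.n1)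

/-- At most `2 |W|` disjoint path triples. -/
lemma Base.card_tri (h : Base N K D1 R Φ) {T : Finset (U × U × U)}
    (hT : ∀ t ∈ T, IsTri N R Φ t) (hd : ∀ t ∈ T, ∀ s ∈ T, t ≠ s → Disjoint (tiles t) (tiles s)) :
    T.card ≤ 2 * (WW N R).card := by
  classical
  obtain ⟨x, hx⟩ := h.process T hT hd
  have hcl : ∀ t : U × U × U, ∃ l, t ∈ T → ((l = t.1 ∨ l = t.2.2) ∧
      ((∃ y ∈ N l, ∀ c ∈ R, y ∉ N (x c)) ∨ (∃ w ∈ N (x l), ∀ c ∈ R, w ∉ N c))) := by
    intro t
    by_cases ht : t ∈ T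
    · obtain ⟨l, hl⟩ := h.claim hT hx ht
      exact ⟨l, fun _ => hl⟩
    · exact ⟨t.1, fun h => absurd h ht⟩
  choose f hf using hcl
  have hfR : ∀ t ∈ T, f t ∈ R := by
    intro t ht
    rcases (hf t ht).1 with h1 | h1
    · rw [h1]; exact (hT t ht).r1
    · rw [h1]; exact (hT t ht).r3
  have hft : ∀ t ∈ T, f t ∈ tiles t := by
    intro t ht
    rcases (hf t ht).1 with h1 | h1 <;> rw [h1] <;> simp [tiles]
  set A := R.biUnion N with hA
  set B := R.biUnion (fun c => N (x c)) with hB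
  set L1 := R.filter (fun l => ∃ y ∈ N l, ∀ c ∈ R, y ∉ N (x c)) with hL1
  set L2 := R.filter (fun l => ∃ w ∈ N (x l), ∀ c ∈ R, w ∉ N c) with hL2
  have c1 : L1.card ≤ (A \ B).card := by
    apply card_le_of_disj L1 N
    · intro a ha b hb hab
      exact h.ff.far a (Finset.mem_filter.1 ha).1 b (Finset.mem_filter.1 hb).1 hab
    · intro a ha
      obtain ⟨haR, y, hy, hy'⟩ := Finset.mem_filter.1 ha
      refine ⟨y, hy, Finset.mem_sdiff.2 ⟨Finset.mem_biUnion.2 ⟨a, haR, hy⟩, ?_⟩⟩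
      intro hyB
      obtain ⟨c, hc, hyc⟩ := Finset.mem_biUnion.1 hyB
      exact hy' c hc hyc
  have c2 : L2.card ≤ (B \ A).card := by
    apply card_le_of_disj L2 (fun c => N (x c))
    · intro a ha b hb hab
      exact hx.st.far a (Finset.mem_filter.1 ha).1 (Finset.notMem_empty _) b
        (Finset.mem_filter.1 hb).1 (Finset.notMem_empty _) hab
    · intro a ha
      obtain ⟨haR, y, hy, hy'⟩ := Finset.mem_filter.1 ha
      refine ⟨y, hy, Finset.mem_sdiff.2 ⟨Finset.mem_biUnion.2 ⟨a, haR, hy⟩, ?_⟩⟩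
      intro hyB
      obtain ⟨c, hc, hyc⟩ := Finset.mem_biUnion.1 hyB
      exact hy' c hc hyc
  have cA : A.card = K * R.card := by
    rw [hA, Finset.card_biUnion h.ff.far, Finset.sum_congr rfl h.ff.cen]
    simp [mul_comm]
  have cB : B.card = K * R.card := by
    rw [hB, Finset.card_biUnion (fun a ha b hb hab => hx.st.far a ha (Finset.notMem_empty _) b hb
      (Finset.notMem_empty _) hab), Finset.sum_congr rfl
      (fun a ha => hx.st.cen a ha (Finset.notMem_empty _))]
    simp [mul_comm]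
  have cAB : (A \ B).card = (B \ A).card := Finset.card_sdiff_comm (by rw [cA, cB])
  have cW : (B \ A).card ≤ (WW N R).card := by
    apply Finset.card_le_card
    intro y hy
    exact Finset.mem_sdiff.2 ⟨Finset.mem_univ _, (Finset.mem_sdiff.1 hy).2⟩
  have cT : T.card ≤ (L1 ∪ L2).card := by
    apply Finset.card_le_card_of_injOn f
    · intro t ht
      rcases (hf t ht).2 with h1 | h1
      · exact Finset.mem_union_left _ (Finset.mem_filter.2 ⟨hfR t ht, h1⟩)
      · exact Finset.mem_union_right _ (Finset.mem_filter.2 ⟨hfR t ht, h1⟩)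
    · intro t ht s hs hts
      by_contra hne
      exact Finset.disjoint_left.1 (hd t ht s hs hne) (hft t ht) (hts ▸ hft s hs)
  have cU := Finset.card_union_le L1 L2
  omega

end

end Pool.Agent.Star.Abs
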