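import Pool.Agent.Star.Abs3

/-!
# Star isolation, absolute constant: blocks of tiles, tiles adjacent to `W`
-/

set_option autoImplicit false
set_option linter.unusedSectionVars false

namespace Pool.Agent.Star.Abs

open Finset

variable {U : Type*} [Fintype U] [DecidableEq U]

/-- After removing `F` the tile graph has maximum degree at most one. -/
def Deg1 (N : U → Finset U) (L : Finset U) : Prop :=
  ∀ i ∈ L, ∀ o ∈ L, ∀ j ∈ L, i ≠ o → j ≠ o → i ≠ j → Tadj N i o → Tadj N j o → False

open Classical in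
/-- The block of `c`. -/
noncomputable def Bl (N : U → Finset U) (L : Finset U) (c : U) : Finset U :=
  L.filter (fun d => d = c ∨ Tadj N d c)

/-- Pairwise non-adjacent tiles. -/
def Ind (N : U → Finset U) (I : Finset U) : Prop :=
  ∀ b ∈ I, ∀ c ∈ I, b ≠ c → ¬ Tadj N b c

section
variable {N : U → Finset U} {K : ℕ} {D1 R Φ : Finset U} {L : Finset U}

lemma mem_Bl {c d : U} : d ∈ Bl N L c ↔ d ∈ L ∧ (d = c ∨ Tadj N d c) := by
  simp [Bl]

lemma self_Bl {c : U} (hc : c ∈ L) : c ∈ Bl N L c := mem_Bl.2 ⟨hc, Or.inl rfl⟩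

lemma Bl_sub (c : U) : Bl N L c ⊆ L := fun _ hd => (mem_Bl.1 hd).1

lemma Gr.Bl_symm (h : Gr N K) {c d : U} (hc : c ∈ L) (hd : d ∈ Bl N L c) : c ∈ Bl N L d := by
  obtain ⟨-, h2⟩ := mem_Bl.1 hd
  refine mem_Bl.2 ⟨hc, ?_⟩
  rcases h2 with h2 | h2
  · exact Or.inl h2.symm
  · exact Or.inr (h.tadj_symm h2)

lemma Gr.Bl_trans (h : Gr N K) (hL : Deg1 N L) {a b c : U} (hc : c ∈ L)
    (hab : a ∈ Bl N L b) (hbc : b ∈ Bl N L c) : a ∈ Bl N L c := by
  obtain ⟨haL, hab'⟩ := mem_Bl.1 hab
  obtain ⟨hbL, hbc'⟩ := mem_Bl.1 hbc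
  refine mem_Bl.2 ⟨haL, ?_⟩
  by_cases hac : a = c
  · exact Or.inl hac
  rcases hab' with rfl | hab'
  · exact hbc'
  rcases hbc' with rfl | hbc'
  · exact Or.inr hab'
  by_cases h1 : a = b
  · rw [h1]; exact Or.inr hbc'
  by_cases h2 : c = b
  · rw [h2]; exact Or.inr hab'
  exact (hL a haL b hbL c hc h1 h2 hac hab' (h.tadj_symm hbc')).elim

lemma Bl_card (hL : Deg1 N L) {c : U} (hc : c ∈ L) : (Bl N L c).card ≤ 2 := by
  by_contra hcon
  push Not at hcon
  have h1 : 1 < ((Bl N L c).erase c).card := by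
    rw [Finset.card_erase_of_mem (self_Bl hc)]
    omega
  obtain ⟨a, ha, b, hb, hab⟩ := Finset.one_lt_card.1 h1
  rw [Finset.mem_erase] at ha hb
  obtain ⟨ha1, ha2⟩ := mem_Bl.1 ha.2
  obtain ⟨hb1, hb2⟩ := mem_Bl.1 hb.2
  exact hL a ha1 c hc b hb1 ha.1 hb.1 hab (ha2.resolve_left ha.1) (hb2.resolve_left hb.1)

lemma Base.exF (h : Base N K D1 R Φ) (hΦ : Φ.card ≤ (WW N R).card) :
    ∃ F, Φ ⊆ F ∧ F ⊆ R ∧ F.card ≤ 7 * (WW N R).card ∧ Deg1 N (R \ F) := by
  classical
  let P : Finset (U × U × U) → Prop := fun T =>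
    (∀ t ∈ T, IsTri N R Φ t) ∧ ∀ t ∈ T, ∀ s ∈ T, t ≠ s → Disjoint (tiles t) (tiles s)
  obtain ⟨T, hT, hmax⟩ := Finset.exists_max_image
    ((Finset.univ : Finset (Finset (U × U × U))).filter P) Finset.card
    ⟨∅, Finset.mem_filter.2 ⟨Finset.mem_univ _, by simp [P]⟩⟩
  have hTP : P T := (Finset.mem_filter.1 hT).2
  refine ⟨Φ ∪ T.biUnion tiles, Finset.subset_union_left, ?_, ?_, ?_⟩
  · apply Finset.union_subset h.PhiR
    intro c hc
    obtain ⟨t, ht, hct⟩ := Finset.mem_biUnion.1 hc
    have := hTP.1 t ht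
    simp only [tiles, Finset.mem_insert, Finset.mem_singleton] at hct
    rcases hct with rfl | rfl | rfl
    · exact this.r1
    · exact this.r2
    · exact this.r3
  · have h1 := h.card_tri hTP.1 hTP.2
    have h2 : (T.biUnion tiles).card ≤ T.card * 3 := by
      apply Finset.card_biUnion_le_card_mul
      intro t _
      exact Finset.card_le_three
    have h3 := Finset.card_union_le Φ (T.biUnion tiles)
    omega
  · intro i hi o ho j hj hio hjo hij h1 h2
    rw [Finset.mem_sdiff, Finset.mem_union, not_or] at hi ho hj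
    have hdis : ∀ s ∈ T, Disjoint (tiles (i, o, j)) (tiles s) := by
      intro s hs
      rw [Finset.disjoint_left]
      intro c hc hcs
      have hcT : c ∈ T.biUnion tiles := Finset.mem_biUnion.2 ⟨s, hs, hcs⟩
      simp only [tiles, Finset.mem_insert, Finset.mem_singleton] at hc
      rcases hc with rfl | rfl | rfl
      · exact hi.2.2 hcT
      · exact ho.2.2 hcT
      · exact hj.2.2 hcT
    have hnT : (i, o, j) ∉ T := by
      intro hh
      exact hi.2.2 (Finset.mem_biUnion.2 ⟨_, hh, by simp [tiles]⟩)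
    have hP : P (insert (i, o, j) T) := by
      refine ⟨?_, ?_⟩
      · intro t ht
        rcases Finset.mem_insert.1 ht with rfl | ht
        · exact ⟨hi.1, ho.1, hj.1, hi.2.1, ho.2.1, hj.2.1, hio, hjo, hij, h1, h2⟩
        · exact hTP.1 t ht
      · intro t ht s hs hts
        rcases Finset.mem_insert.1 ht with ht' | ht' <;> rcases Finset.mem_insert.1 hs with hs' | hs'
        · exact absurd (ht'.trans hs'.symm) hts
        · rw [ht']; exact hdis s hs'
        · rw [hs']; exact (hdis t ht').symm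
        · exact hTP.2 t ht' s hs' hts
    have := hmax (insert (i, o, j) T) (Finset.mem_filter.2 ⟨Finset.mem_univ _, hP⟩)
    rw [Finset.card_insert_of_notMem hnT] at this
    omega

/-- Maximal independent sets of representatives. -/
lemma Gr.exI (h : Gr N K) (hL : Deg1 N L) (A : Finset U) (hA : A ⊆ L) :
    ∃ I, I ⊆ A ∧ Ind N I ∧ ∀ X ⊆ L, (∀ c ∈ X, ∃ a ∈ A, a ∈ Bl N L c) → X.card ≤ 2 * I.card := by
  classical
  obtain ⟨I, hI, hmax⟩ := Finset.exists_max_image (A.powerset.filter (fun I => Ind N I)) Finset.card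
    ⟨∅, Finset.mem_filter.2 ⟨by simp, by simp [Ind]⟩⟩
  rw [Finset.mem_filter, Finset.mem_powerset] at hI
  obtain ⟨hIA, hInd⟩ := hI
  refine ⟨I, hIA, hInd, ?_⟩
  have hdom : ∀ a ∈ A, ∃ b ∈ I, a ∈ Bl N L b := by
    intro a ha
    by_cases haI : a ∈ I
    · exact ⟨a, haI, self_Bl (hA ha)⟩
    by_contra hcon
    push Not at hcon
    have hno : ∀ b ∈ I, ¬ Tadj N a b := fun b hb hT => hcon b hb (mem_Bl.2 ⟨hA ha, Or.inr hT⟩)
    have : Ind N (insert a I) := by
      intro b hb c hc hbc
      rcases Finset.mem_insert.1 hb with hb' | hb' <;> rcases Finset.mem_insert.1 hc with hc' | hc'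
      · exact absurd (hb'.trans hc'.symm) hbc
      · rw [hb']; exact hno c hc'
      · rw [hc']; exact fun hT => hno b hb' (h.tadj_symm hT)
      · exact hInd b hb' c hc' hbc
    have h2 := hmax (insert a I) (Finset.mem_filter.2 ⟨Finset.mem_powerset.2
      (Finset.insert_subset ha hIA), this⟩)
    rw [Finset.card_insert_of_notMem haI] at h2
    omega
  intro X hX hXA
  have hsub : X ⊆ I.biUnion (Bl N L) := by
    intro c hc
    obtain ⟨a, ha, hac⟩ := hXA c hc
    obtain ⟨b, hb, hab⟩ := hdom a ha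
    have hcL := hX hc
    have hca : c ∈ Bl N L a := h.Bl_symm hcL hac
    exact Finset.mem_biUnion.2 ⟨b, hb, h.Bl_trans hL (hA (hIA hb)) hca hab⟩
  calc X.card ≤ (I.biUnion (Bl N L)).card := Finset.card_le_card hsub
    _ ≤ I.card * 2 := Finset.card_biUnion_le_card_mul _ _ _
        (fun b hb => Bl_card hL (hA (hIA hb)))
    _ = 2 * I.card := by ring

/-- A centre in the tile of `k` that avoids a vertex of this tile and is far from the others
meets `W`. -/
lemma Base.meetsW (h : Base N K D1 R Φ) {p k y : U} (hpK : (N p).card = K) (hk : k ∈ R)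
    (hd : ∀ c ∈ R, c ≠ k → Disjoint (N p) (N c)) (hy : y ∈ N k) (hyp : y ∉ N p) :
    ∃ w ∈ N p, w ∈ WW N R := by
  by_contra hcon
  push Not at hcon
  have hsub : N p ⊆ N k := by
    intro z hz
    have := hcon z hz
    rw [mem_WW] at this
    push Not at this
    obtain ⟨c, hc, hzc⟩ := this
    by_cases hck : c = k
    · rw [← hck]; exact hzc
    · exact absurd hzc (Finset.disjoint_left.1 (hd c hc hck) hz)
  have hkK := h.ff.cen k hk
  have := Finset.eq_of_subset_of_card_le hsub (by omega)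
  exact hyp (this ▸ hy)

/-- Pairwise non-adjacent tiles adjacent to `W`. -/
lemma Base.cardJ (h : Base N K D1 R Φ) {J : Finset U} (hJ : J ⊆ R) (hJΦ : ∀ c ∈ J, c ∉ Φ)
    (hind : Ind N J) (hW : ∀ c ∈ J, ∃ w ∈ WW N R, ∃ y ∈ N c, w ∈ N y) :
    J.card ≤ 2 * (WW N R).card := by
  classical
  let P : Finset U → Prop := fun J0 => ∃ x, St N K R Φ x ∅ ∧ (∀ c, c ∉ J0 → x c = c) ∧
    ∀ l ∈ J0, ∃ w ∈ N (x l), w ∈ WW N R
  obtain ⟨J0, hJ0, hmax⟩ := Finset.exists_max_image (J.powerset.filter P) Finset.card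
    ⟨∅, Finset.mem_filter.2 ⟨by simp, id, ⟨fun c _ _ => h.gr.refl c, fun c hc _ => h.ff.cen c hc,
      fun c hc _ d hd _ hcd => h.ff.far c hc d hd hcd, fun _ _ => rfl⟩, fun _ _ => rfl, by simp⟩⟩
  rw [Finset.mem_filter, Finset.mem_powerset] at hJ0
  obtain ⟨hJ0J, x, hx, hfix, hxW⟩ := hJ0
  have c1 : J0.card ≤ (WW N R).card := by
    apply card_le_of_disj J0 (fun c => N (x c))
    · intro a ha b hb hab
      exact hx.far a (hJ (hJ0J ha)) (Finset.notMem_empty _) b (hJ (hJ0J hb))
        (Finset.notMem_empty _) hab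
    · exact hxW
  have c2 : (J \ J0).card ≤ (WW N R).card := by
    by_contra hcon
    push Not at hcon
    have hch : ∀ c, ∃ w, c ∈ J → w ∈ WW N R ∧ ∃ y ∈ N c, w ∈ N y := by
      intro c
      by_cases hc : c ∈ J
      · obtain ⟨w, h1, h2⟩ := hW c hc
        exact ⟨w, fun _ => ⟨h1, h2⟩⟩
      · exact ⟨c, fun hh => absurd hh hc⟩
    choose ω hω using hch
    obtain ⟨j, hj, j', hj', hjj', hww⟩ := Finset.exists_ne_map_eq_of_card_lt_of_maps_to
      (f := ω) hcon (fun c hc => (hω c (Finset.mem_sdiff.1 hc).1).1)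
    rw [Finset.mem_sdiff] at hj hj'
    obtain ⟨p, hpK, hpE, hpx, k, hkJ, hpk, hke⟩ := h.sv x {j, j'} {ω j}
      (by
        intro c hc
        rcases Finset.mem_insert.1 hc with rfl | hc
        · exact hJ hj.1
        · rw [Finset.mem_singleton] at hc; rw [hc]; exact hJ hj'.1)
      (by
        intro c hc
        rcases Finset.mem_insert.1 hc with rfl | hc
        · exact hJΦ _ hj.1
        · rw [Finset.mem_singleton] at hc; rw [hc]; exact hJΦ _ hj'.1)
      (by rw [Finset.card_pair hjj', Finset.card_singleton]; omega)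
      (by rw [Finset.card_singleton]; omega)
      (fun c hc _ => hx.mem c hc (Finset.notMem_empty _))
      (fun c hc _ => hx.cen c hc (Finset.notMem_empty _))
      (fun c hc _ d hd _ => hx.far c hc (Finset.notMem_empty _) d hd (Finset.notMem_empty _))
      hx.phi
    have hwp := hpE (ω j) (Finset.mem_singleton_self _)
    -- facts on k
    have hk : k ∈ J ∧ k ∉ J0 ∧ ∃ y ∈ N k, ω j ∈ N y := by
      rcases Finset.mem_insert.1 hkJ with h1 | h1
      · rw [h1]; exact ⟨hj.1, hj.2, (hω j hj.1).2⟩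
      · rw [Finset.mem_singleton] at h1
        rw [h1, hww]; exact ⟨hj'.1, hj'.2, (hω j' hj'.1).2⟩
    obtain ⟨hkJ', hkJ0, y, hy, hwy⟩ := hk
    have hyp : y ∉ N p := Finset.disjoint_left.1 hwp (h.gr.symm _ _ hwy)
    have hdis : ∀ c ∈ R, c ≠ k → Disjoint (N p) (N c) := by
      intro c hc hck
      by_cases hcJ : c ∈ J
      · by_contra hnd
        obtain ⟨z, hz, hzc⟩ := Finset.not_disjoint_iff.1 hnd
        exact hind k hkJ' c hcJ hck.symm ⟨p, hpk, z, hzc, hz⟩
      · have h1 := hpx c hc (by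
          intro hh
          rcases Finset.mem_insert.1 hh with h2 | h2
          · exact hcJ (h2 ▸ hj.1)
          · rw [Finset.mem_singleton] at h2; exact hcJ (h2 ▸ hj'.1))
        rw [hfix c (fun hh => hcJ (hJ0J hh))] at h1
        exact h1.symm
    have hpx' : ∀ c ∈ R, c ≠ k → Disjoint (N (x c)) (N p) := by
      intro c hc hck
      by_cases hcj : c ∈ ({j, j'} : Finset U)
      · have hcJ0 : c ∉ J0 := by
          rcases Finset.mem_insert.1 hcj with h2 | h2
          · rw [h2]; exact hj.2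
          · rw [Finset.mem_singleton] at h2; rw [h2]; exact hj'.2
        rw [hfix c hcJ0]
        exact (hdis c hc hck).symm
      · exact hpx c hc hcj
    have hP : P (insert k J0) := by
      refine ⟨Function.update x k p, ⟨?_, ?_, ?_, ?_⟩, ?_, ?_⟩
      · intro c hc _
        by_cases hck : c = k
        · rw [hck, Function.update_self]; exact hpk
        · rw [Function.update_of_ne hck]; exact hx.mem c hc (Finset.notMem_empty _)
      · intro c hc _
        by_cases hck : c = k
        · rw [hck, Function.update_self]; exact hpK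
        · rw [Function.update_of_ne hck]; exact hx.cen c hc (Finset.notMem_empty _)
      · intro c hc _ d hd _ hcd
        by_cases hck : c = k
        · have hdk : d ≠ k := fun hh => hcd (hck.trans hh.symm)
          rw [hck, Function.update_self, Function.update_of_ne hdk]
          exact (hpx' d hd hdk).symm
        · rw [Function.update_of_ne hck]
          by_cases hdk : d = k
          · rw [hdk, Function.update_self]; exact hpx' c hc hck
          · rw [Function.update_of_ne hdk]
            exact hx.far c hc (Finset.notMem_empty _) d hd (Finset.notMem_empty _) hcd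
      · intro φ hφ
        have : φ ≠ k := fun hh => hJΦ k hkJ' (hh ▸ hφ)
        rw [Function.update_of_ne this]
        exact hx.phi φ hφ
      · intro c hc
        rw [Finset.mem_insert, not_or] at hc
        rw [Function.update_of_ne hc.1]
        exact hfix c hc.2
      · intro l hl
        by_cases hlk : l = k
        · rw [hlk, Function.update_self]
          exact h.meetsW hpK (hJ hkJ') hdis hy hyp
        · rw [Function.update_of_ne hlk]
          exact hxW l ((Finset.mem_insert.1 hl).resolve_left hlk)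
    have h2 := hmax (insert k J0) (Finset.mem_filter.2 ⟨Finset.mem_powerset.2
      (Finset.insert_subset hkJ' hJ0J), hP⟩)
    rw [Finset.card_insert_of_notMem hkJ0] at h2
    omega
  have c3 : (J \ J0).card + J0.card = J.card := Finset.card_sdiff_add_card_eq_card hJ0J
  omega

end

end Pool.Agent.Star.Abs
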