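import Pool.Agent.Star.Abs4

/-!
# Star isolation, absolute constant: clean blocks and the bound on the number of tiles
-/

set_option autoImplicit false
set_option linter.unusedSectionVars false

namespace Pool.Agent.Star.Abs

open Finset

variable {U : Type*} [Fintype U] [DecidableEq U]

section
variable {N : U → Finset U} {K : ℕ} {D1 R Φ : Finset U} {L : Finset U}

/-- `c` is adjacent to `W`. -/
def AdjW (N : U → Finset U) (R : Finset U) (c : U) : Prop := ∃ w ∈ WW N R, ∃ y ∈ N c, w ∈ N y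

/-- Every vertex touches at most one clean block. -/
lemma Base.touch (h : Base N K D1 R Φ) {c c' v : U} (hc : c ∈ R) (hc' : c' ∈ R) (hcΦ : c ∉ Φ)
    (hcΦ' : c' ∉ Φ) (hcc : c ≠ c') (hT : ¬ Tadj N c c') (hW : ¬ AdjW N R c) (hW' : ¬ AdjW N R c')
    (h1 : ¬ Disjoint (N v) (N c)) (h2 : ¬ Disjoint (N v) (N c')) : False := by
  obtain ⟨p, hpK, hpE, hpx, k, hkJ, hpk, hke⟩ := h.sv id {c, c'} {v}
    (by
      intro d hd
      rcases Finset.mem_insert.1 hd with rfl | hd
      · exact hc
      · rw [Finset.mem_singleton] at hd; rw [hd]; exact hc')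
    (by
      intro d hd
      rcases Finset.mem_insert.1 hd with rfl | hd
      · exact hcΦ
      · rw [Finset.mem_singleton] at hd; rw [hd]; exact hcΦ')
    (by rw [Finset.card_pair hcc, Finset.card_singleton]; omega)
    (by rw [Finset.card_singleton]; omega)
    (fun c _ _ => h.gr.refl c)
    (fun c hc _ => h.ff.cen c hc)
    (fun c hc _ d hd _ hcd => h.ff.far c hc d hd hcd)
    (fun _ _ => rfl)
  have hvp := hpE v (Finset.mem_singleton_self _)
  have hk : k ∈ R ∧ ¬ AdjW N R k ∧ ¬ Disjoint (N v) (N k) ∧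
      ∀ d ∈ ({c, c'} : Finset U), d ≠ k → ¬ Tadj N k d := by
    rcases Finset.mem_insert.1 hkJ with h3 | h3
    · rw [h3]
      refine ⟨hc, hW, h1, ?_⟩
      intro d hd hdk
      have : d = c' := by
        rcases Finset.mem_insert.1 hd with h4 | h4
        · exact absurd h4 hdk
        · exact Finset.mem_singleton.1 h4
      rw [this]; exact hT
    · rw [Finset.mem_singleton] at h3
      rw [h3]
      refine ⟨hc', hW', h2, ?_⟩
      intro d hd hdk
      have : d = c := by
        rcases Finset.mem_insert.1 hd with h4 | h4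
        · exact h4
        · exact absurd (Finset.mem_singleton.1 h4) hdk
      rw [this]; exact fun hh => hT (h.gr.tadj_symm hh)
  obtain ⟨hkR, hkW, hkv, hkT⟩ := hk
  obtain ⟨z, hzv, hzk⟩ := Finset.not_disjoint_iff.1 hkv
  have hdis : ∀ d ∈ R, d ≠ k → Disjoint (N p) (N d) := by
    intro d hd hdk
    by_cases hdJ : d ∈ ({c, c'} : Finset U)
    · by_contra hnd
      obtain ⟨u, hu, hud⟩ := Finset.not_disjoint_iff.1 hnd
      exact hkT d hdJ hdk ⟨p, hpk, u, hud, hu⟩
    · exact (hpx d hd hdJ).symm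
  obtain ⟨w, hw, hwW⟩ := h.meetsW hpK hkR hdis hzk (Finset.disjoint_left.1 hvp hzv)
  exact hkW ⟨w, hwW, p, hpk, hw⟩

/-- The bound on the number of tiles. -/
lemma Base.card_R (h : Base N K D1 R Φ) (hΦ : Φ.card ≤ (WW N R).card) {f0 q : ℕ}
    (hn1 : (univ : Finset U).card ≠ K) (hn2 : (univ : Finset U).card ≠ 2 * K)
    (hf0 : ∀ D : Finset U, Kills N K D → f0 ≤ D.card)
    (hq : (univ : Finset U).card = K * f0 + q) :
    R.card ≤ 25 * (WW N R).card + 2 * q := by
  classical
  obtain ⟨F, hΦF, hFR, hFc, hdeg⟩ := h.exF hΦ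
  set L := R \ F with hLdef
  have hLR : L ⊆ R := Finset.sdiff_subset
  have hLF : ∀ c ∈ L, c ∉ F := fun c hc => (Finset.mem_sdiff.1 hc).2
  have hLΦ : ∀ c ∈ L, c ∉ Φ := fun c hc hh => hLF c hc (hΦF hh)
  set AW := L.filter (fun c => AdjW N R c) with hAW
  have hAWL : AW ⊆ L := Finset.filter_subset _ _
  obtain ⟨J, hJA, hJI, hJX⟩ := h.gr.exI hdeg AW hAWL
  have hJc : J.card ≤ 2 * (WW N R).card :=
    h.cardJ (fun c hc => hLR (hAWL (hJA hc))) (fun c hc => hLΦ c (hAWL (hJA hc))) hJI
      (fun c hc => (Finset.mem_filter.1 (hJA hc)).2)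
  set Ln := L.filter (fun c => ∃ a ∈ AW, a ∈ Bl N L c) with hLn
  have hLnL : Ln ⊆ L := Finset.filter_subset _ _
  have hLnc : Ln.card ≤ 2 * J.card := hJX Ln hLnL (fun c hc => (Finset.mem_filter.1 hc).2)
  set Lc := L \ Ln with hLc
  have hLcL : Lc ⊆ L := Finset.sdiff_subset
  -- blocks of clean tiles are clean
  have hclean : ∀ c ∈ Lc, ∀ a ∈ Bl N L c, a ∈ Lc ∧ ¬ AdjW N R a := by
    intro c hc a ha
    have hcL := hLcL hc
    have haL : a ∈ L := Bl_sub _ ha
    have hcn : ¬ ∃ a ∈ AW, a ∈ Bl N L c := by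
      intro hh
      exact (Finset.mem_sdiff.1 hc).2 (Finset.mem_filter.2 ⟨hcL, hh⟩)
    refine ⟨Finset.mem_sdiff.2 ⟨haL, ?_⟩, ?_⟩
    · intro haLn
      obtain ⟨-, b, hb, hba⟩ := Finset.mem_filter.1 haLn
      exact hcn ⟨b, hb, h.gr.Bl_trans hdeg hcL hba ha⟩
    · intro haW
      exact hcn ⟨a, Finset.mem_filter.2 ⟨haL, haW⟩, ha⟩
  set Z := F.biUnion N with hZ
  set A' := Lc.filter (fun c => ∃ y ∈ N c, ∃ g ∈ N y, g ∈ Z) with hA'
  have hA'L : A' ⊆ L := (Finset.filter_subset _ _).trans hLcL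
  obtain ⟨I, hIA, hInd, hIX⟩ := h.gr.exI hdeg A' hA'L
  have hILc : ∀ b ∈ I, b ∈ Lc := fun b hb => (Finset.mem_filter.1 (hIA hb)).1
  have hIL : ∀ b ∈ I, b ∈ L := fun b hb => hLcL (hILc b hb)
  have hLcc : Lc.card ≤ 2 * I.card := by
    apply hIX Lc hLcL
    intro c hc
    have hcL := hLcL hc
    have hVc : ((Bl N L c).biUnion N).card = K * (Bl N L c).card := by
      rw [Finset.card_biUnion (fun a ha b hb hab => h.ff.far a (hLR (Bl_sub _ ha)) b
        (hLR (Bl_sub _ hb)) hab), Finset.sum_congr rfl (fun a ha => h.ff.cen a (hLR (Bl_sub _ ha)))]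
      simp [mul_comm]
    have hcB : c ∈ Bl N L c := self_Bl hcL
    have hne : ((Bl N L c).biUnion N).Nonempty :=
      ⟨c, Finset.mem_biUnion.2 ⟨c, hcB, h.gr.refl c⟩⟩
    have hne' : (Bl N L c).biUnion N ≠ univ := by
      intro hh
      rw [hh] at hVc
      have h1 := Bl_card hdeg hcL
      have h2 : 0 < (Bl N L c).card := Finset.card_pos.2 ⟨c, hcB⟩
      have h3 : (Bl N L c).card = 1 ∨ (Bl N L c).card = 2 := by omega
      rcases h3 with h3 | h3
      · rw [h3, Nat.mul_one] at hVc; exact hn1 hVc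
      · rw [h3, Nat.mul_comm] at hVc; exact hn2 hVc
    obtain ⟨x, hx, y, hy, hyx⟩ := h.gr.conn _ hne hne'
    obtain ⟨a, ha, hxa⟩ := Finset.mem_biUnion.1 hx
    obtain ⟨haLc, haW⟩ := hclean c hc a ha
    have hyW : y ∉ WW N R := fun hh => haW ⟨y, hh, x, hxa, hyx⟩
    rw [mem_WW] at hyW
    push Not at hyW
    obtain ⟨φ, hφ, hyφ⟩ := hyW
    refine ⟨a, Finset.mem_filter.2 ⟨haLc, x, hxa, y, hyx, ?_⟩, ha⟩
    by_cases hφF : φ ∈ F
    · exact Finset.mem_biUnion.2 ⟨φ, hφF, hyφ⟩
    · exfalso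
      apply hy
      have hφL : φ ∈ L := Finset.mem_sdiff.2 ⟨hφ, hφF⟩
      have hφa : φ ∈ Bl N L a := mem_Bl.2 ⟨hφL, Or.inr (h.gr.tadj_symm ⟨x, hxa, y, hyφ, hyx⟩)⟩
      exact Finset.mem_biUnion.2 ⟨φ, h.gr.Bl_trans hdeg hcL hφa ha, hyφ⟩
  -- the exits
  have hch : ∀ b, ∃ yg : U × U, b ∈ I → yg.1 ∈ N b ∧ yg.2 ∈ N yg.1 ∧ yg.2 ∈ Z := by
    intro b
    by_cases hb : b ∈ I
    · obtain ⟨-, y, hy, g, hg, hgZ⟩ := Finset.mem_filter.1 (hIA hb)
      exact ⟨(y, g), fun _ => ⟨hy, hg, hgZ⟩⟩
    · exact ⟨(b, b), fun hh => absurd hh hb⟩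
  choose yg hyg using hch
  -- distinct blocks
  have hBB : ∀ b ∈ I, ∀ b' ∈ I, b ≠ b' → ∀ c ∈ Bl N L b, ∀ c' ∈ Bl N L b', c ≠ c' ∧ ¬ Tadj N c c' := by
    intro b hb b' hb' hne c hc c' hc'
    have hno : b' ∉ Bl N L b := by
      intro hh
      rcases (mem_Bl.1 hh).2 with h1 | h1
      · exact hne h1.symm
      · exact hInd b' hb' b hb hne.symm h1
    have hc'b' : b' ∈ Bl N L c' := h.gr.Bl_symm (hIL b' hb') hc'
    refine ⟨?_, ?_⟩
    · intro hcc
      apply hno
      rw [← hcc] at hc'b'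
      exact h.gr.Bl_trans hdeg (hIL b hb) hc'b' hc
    · intro hT
      apply hno
      have h1 : c' ∈ Bl N L c := mem_Bl.2 ⟨Bl_sub _ hc', Or.inr (h.gr.tadj_symm hT)⟩
      have h2 : c' ∈ Bl N L b := h.gr.Bl_trans hdeg (hIL b hb) h1 hc
      exact h.gr.Bl_trans hdeg (hIL b hb) hc'b' h2
  have htouch : ∀ v, ∀ b ∈ I, ∀ b' ∈ I, b ≠ b' → ∀ c ∈ Bl N L b, ∀ c' ∈ Bl N L b',
      ¬ Disjoint (N v) (N c) → ¬ Disjoint (N v) (N c') → False := by
    intro v b hb b' hb' hne c hc c' hc' h1 h2
    obtain ⟨h3, h4⟩ := hBB b hb b' hb' hne c hc c' hc'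
    have hcL : c ∈ L := Bl_sub _ hc
    have hcL' : c' ∈ L := Bl_sub _ hc'
    exact h.touch (hLR hcL) (hLR hcL') (hLΦ c hcL) (hLΦ c' hcL') h3 h4
      (hclean b (hILc b hb) c hc).2 (hclean b' (hILc b' hb') c' hc').2 h1 h2
  -- the greedy choice
  let P : Finset U × Finset U → Prop := fun s =>
    s.1 ⊆ I ∧ FF N K s.2 ∧ (∀ a ∈ s.2, ∀ c ∈ Ln, Disjoint (N a) (N c)) ∧
    (∀ a ∈ s.2, ∀ b ∈ s.1, Disjoint (N a) (N (yg b).1)) ∧
    (∀ a ∈ s.2, ∀ b ∈ s.1, ∀ c ∈ Bl N L b, Disjoint (N a) (N c)) ∧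
    (I \ s.1).card ≤ (s.2 ∩ Z).card
  obtain ⟨⟨I0, Fa⟩, hs, hmax⟩ := Finset.exists_max_image
    ((Finset.univ : Finset (Finset U × Finset U)).filter P) (fun s => s.2.card)
    ⟨(I, ∅), Finset.mem_filter.2 ⟨Finset.mem_univ _, Finset.Subset.refl _,
      ⟨by simp, by simp⟩, by simp, by simp, by simp, by simp⟩⟩
  obtain ⟨hI0, hFa, hFaLn, hFay, hFaB, hcnt⟩ := (Finset.mem_filter.1 hs).2
  simp only at hI0 hFa hFaLn hFay hFaB hcnt
  set D := (Ln ∪ Fa) ∪ I0.biUnion (fun b => insert (yg b).1 ((Bl N L b).erase b)) with hD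
  have hkill : Kills N K D := by
    intro p hpK
    by_contra hcon
    push Not at hcon
    have hpLn : ∀ c ∈ Ln, Disjoint (N c) (N p) := fun c hc =>
      hcon c (Finset.mem_union_left _ (Finset.mem_union_left _ hc))
    have hpFa : ∀ c ∈ Fa, Disjoint (N c) (N p) := fun c hc =>
      hcon c (Finset.mem_union_left _ (Finset.mem_union_right _ hc))
    have hpI : ∀ b ∈ I0, ∀ c ∈ insert (yg b).1 ((Bl N L b).erase b), Disjoint (N c) (N p) :=
      fun b hb c hc => hcon c (Finset.mem_union_right _ (Finset.mem_biUnion.2 ⟨b, hb, hc⟩))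
    have hpy : ∀ b ∈ I0, Disjoint (N p) (N (yg b).1) := fun b hb =>
      (hpI b hb _ (Finset.mem_insert_self _ _)).symm
    have hpnFa : p ∉ Fa := by
      intro hh
      exact Finset.disjoint_left.1 (hpFa p hh) (h.gr.refl p) (h.gr.refl p)
    have hFF : FF N K (insert p Fa) := by
      refine ⟨?_, ?_⟩
      · intro c hc
        rcases Finset.mem_insert.1 hc with rfl | hc
        · exact hpK
        · exact hFa.cen c hc
      · intro c hc d hd hcd
        rcases Finset.mem_insert.1 hc with hc' | hc' <;> rcases Finset.mem_insert.1 hd with hd' | hd'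
        · exact absurd (hc'.trans hd'.symm) hcd
        · rw [hc']; exact (hpFa d hd').symm
        · rw [hd']; exact hpFa c hc'
        · exact hFa.far c hc' d hd' hcd
    have hins : ∀ I1, P (I1, insert p Fa) → False := by
      intro I1 hP
      have := hmax (I1, insert p Fa) (Finset.mem_filter.2 ⟨Finset.mem_univ _, hP⟩)
      simp only at this
      rw [Finset.card_insert_of_notMem hpnFa] at this
      omega
    by_cases htch : ∃ b ∈ I0, ∃ c ∈ Bl N L b, ¬ Disjoint (N p) (N c)
    · obtain ⟨b, hb, c, hc, hpc⟩ := htch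
      have hbI := hI0 hb
      obtain ⟨z, hz, hzc⟩ := Finset.not_disjoint_iff.1 hpc
      have hpZ : p ∈ Z := by
        by_cases hpW : p ∈ WW N R
        · exfalso
          exact (hclean b (hILc b hbI) c hc).2 ⟨p, hpW, z, hzc, h.gr.symm _ _ hz⟩
        · rw [mem_WW] at hpW
          push Not at hpW
          obtain ⟨d, hd, hpd⟩ := hpW
          by_cases hdF : d ∈ F
          · exact Finset.mem_biUnion.2 ⟨d, hdF, hpd⟩
          exfalso
          have hdL : d ∈ L := Finset.mem_sdiff.2 ⟨hd, hdF⟩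
          have hdc : d ∈ Bl N L c := mem_Bl.2 ⟨hdL, Or.inr ⟨p, hpd, z, hzc, hz⟩⟩
          have hdb : d ∈ Bl N L b := h.gr.Bl_trans hdeg (hIL b hbI) hdc hc
          by_cases hdeq : d = b
          · have h1 := hpy b hb
            have h2 : b ∈ N (yg b).1 := h.gr.symm _ _ (hyg b hbI).1
            rw [hdeq] at hpd
            exact Finset.disjoint_left.1 h1 (h.gr.symm _ _ hpd) h2
          · have h1 := hpI b hb d (Finset.mem_insert_of_mem (Finset.mem_erase.2 ⟨hdeq, hdb⟩))
            exact Finset.disjoint_left.1 h1 (h.gr.refl d) (h.gr.symm _ _ hpd)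
      apply hins (I0.erase b)
      refine ⟨(Finset.erase_subset _ _).trans hI0, hFF, ?_, ?_, ?_, ?_⟩
      · intro a ha c' hc'
        rcases Finset.mem_insert.1 ha with ha | ha
        · rw [ha]; exact (hpLn c' hc').symm
        · exact hFaLn a ha c' hc'
      · intro a ha b' hb'
        have hb'' := Finset.mem_of_mem_erase hb'
        rcases Finset.mem_insert.1 ha with ha | ha
        · rw [ha]; exact hpy b' hb''
        · exact hFay a ha b' hb''
      · intro a ha b' hb' c' hc'
        have hb'' := Finset.mem_of_mem_erase hb'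
        rcases Finset.mem_insert.1 ha with ha | ha
        · rw [ha]
          by_contra hnd
          exact htouch p b hbI b' (hI0 hb'') (Finset.ne_of_mem_erase hb').symm c hc c' hc' hpc hnd
        · exact hFaB a ha b' hb'' c' hc'
      · have e1 : I \ I0.erase b = insert b (I \ I0) := by
          ext d
          simp only [Finset.mem_sdiff, Finset.mem_erase, Finset.mem_insert]
          constructor
          · rintro ⟨h1, h2⟩
            by_cases hd : d = b
            · exact Or.inl hd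
            · exact Or.inr ⟨h1, fun hh => h2 ⟨hd, hh⟩⟩
          · rintro (h1 | h1)
            · rw [h1]; exact ⟨hbI, fun hh => hh.1 rfl⟩
            · exact ⟨h1.1, fun hh => h1.2 hh.2⟩
        have e2 : (insert p Fa) ∩ Z = insert p (Fa ∩ Z) := Finset.insert_inter_of_mem hpZ
        simp only
        rw [e1, e2, Finset.card_insert_of_notMem (fun hh => hpnFa (Finset.mem_inter.1 hh).1),
          Finset.card_insert_of_notMem (fun hh => (Finset.mem_sdiff.1 hh).2 hb)]
        omega
    · push Not at htch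
      apply hins I0
      refine ⟨hI0, hFF, ?_, ?_, ?_, ?_⟩
      · intro a ha c' hc'
        rcases Finset.mem_insert.1 ha with ha | ha
        · rw [ha]; exact (hpLn c' hc').symm
        · exact hFaLn a ha c' hc'
      · intro a ha b' hb'
        rcases Finset.mem_insert.1 ha with ha | ha
        · rw [ha]; exact hpy b' hb'
        · exact hFay a ha b' hb'
      · intro a ha b' hb' c' hc'
        rcases Finset.mem_insert.1 ha with ha | ha
        · rw [ha]; exact htch b' hb' c' hc'
        · exact hFaB a ha b' hb' c' hc'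
      · simp only
        exact hcnt.trans (Finset.card_le_card (Finset.inter_subset_inter_right
          (Finset.subset_insert _ _)))
  -- the far family `Q`
  set Q := (Ln ∪ Fa) ∪ I0.biUnion (fun b => Bl N L b) with hQ
  have hLnB : ∀ b ∈ I0, ∀ c ∈ Bl N L b, c ∉ Ln := by
    intro b hb c hc
    exact (Finset.mem_sdiff.1 (hclean b (hILc b (hI0 hb)) c hc).1).2
  have hQcard : Q.card = Ln.card + Fa.card + ∑ b ∈ I0, (Bl N L b).card := by
    have d1 : Disjoint Ln Fa := by
      rw [Finset.disjoint_left]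
      intro c hc hc'
      exact Finset.disjoint_left.1 (hFaLn c hc' c hc) (h.gr.refl c) (h.gr.refl c)
    have d2 : Disjoint (Ln ∪ Fa) (I0.biUnion (fun b => Bl N L b)) := by
      rw [Finset.disjoint_left]
      intro c hc hc'
      obtain ⟨b, hb, hcb⟩ := Finset.mem_biUnion.1 hc'
      rcases Finset.mem_union.1 hc with hc | hc
      · exact hLnB b hb c hcb hc
      · exact Finset.disjoint_left.1 (hFaB c hc b hb c hcb) (h.gr.refl c) (h.gr.refl c)
    rw [hQ, Finset.card_union_of_disjoint d2, Finset.card_union_of_disjoint d1,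
      Finset.card_biUnion]
    intro b hb b' hb' hne
    rw [Function.onFun_apply, Finset.disjoint_left]
    intro c hc hc'
    exact (hBB b (hI0 hb) b' (hI0 hb') hne c hc c hc').1 rfl
  have hQFF : FF N K Q := by
    have hLnR : ∀ c ∈ Ln, c ∈ R := fun c hc => hLR (hLnL hc)
    have hBR : ∀ c ∈ I0.biUnion (fun b => Bl N L b), c ∈ R := by
      intro c hc
      obtain ⟨b, -, hcb⟩ := Finset.mem_biUnion.1 hc
      exact hLR (Bl_sub _ hcb)
    have hFB : ∀ a ∈ Fa, ∀ c ∈ I0.biUnion (fun b => Bl N L b), Disjoint (N a) (N c) := by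
      intro a ha c hc
      obtain ⟨b, hb, hcb⟩ := Finset.mem_biUnion.1 hc
      exact hFaB a ha b hb c hcb
    refine ⟨?_, ?_⟩
    · intro c hc
      rcases Finset.mem_union.1 hc with hc | hc
      · rcases Finset.mem_union.1 hc with hc | hc
        · exact h.ff.cen c (hLnR c hc)
        · exact hFa.cen c hc
      · exact h.ff.cen c (hBR c hc)
    · intro c hc d hd hcd
      rcases Finset.mem_union.1 hc with hc | hc
      · rcases Finset.mem_union.1 hc with hc | hc
        · rcases Finset.mem_union.1 hd with hd | hd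
          · rcases Finset.mem_union.1 hd with hd | hd
            · exact h.ff.far c (hLnR c hc) d (hLnR d hd) hcd
            · exact (hFaLn d hd c hc).symm
          · exact h.ff.far c (hLnR c hc) d (hBR d hd) hcd
        · rcases Finset.mem_union.1 hd with hd | hd
          · rcases Finset.mem_union.1 hd with hd | hd
            · exact hFaLn c hc d hd
            · exact hFa.far c hc d hd hcd
          · exact hFB c hc d hd
      · rcases Finset.mem_union.1 hd with hd | hd
        · rcases Finset.mem_union.1 hd with hd | hd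
          · exact h.ff.far c (hBR c hc) d (hLnR d hd) hcd
          · exact (hFB d hd c hc).symm
        · exact h.ff.far c (hBR c hc) d (hBR d hd) hcd
  have hDQ : D.card ≤ Q.card := by
    rw [hQcard]
    have h1 : D.card ≤ (Ln ∪ Fa).card +
      (I0.biUnion (fun b => insert (yg b).1 ((Bl N L b).erase b))).card := Finset.card_union_le _ _
    have h2 := Finset.card_union_le Ln Fa
    have h3 : (I0.biUnion (fun b => insert (yg b).1 ((Bl N L b).erase b))).card ≤
        ∑ b ∈ I0, (Bl N L b).card := by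
      refine Finset.card_biUnion_le.trans (Finset.sum_le_sum ?_)
      intro b hb
      have h4 : b ∈ Bl N L b := self_Bl (hIL b (hI0 hb))
      have h5 := Finset.card_insert_le (yg b).1 ((Bl N L b).erase b)
      have h6 := Finset.card_erase_add_one h4
      omega
    omega
  have hfQ : f0 ≤ Q.card := (hf0 D hkill).trans hDQ
  -- the uncovered vertices
  have hcovQ : (Q.biUnion N).card = K * Q.card := by
    rw [Finset.card_biUnion hQFF.far, Finset.sum_congr rfl hQFF.cen]
    simp [mul_comm]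
  have hunc : (univ \ Q.biUnion N).card + K * Q.card = (univ : Finset U).card := by
    rw [← hcovQ]
    exact Finset.card_sdiff_add_card_eq_card (Finset.subset_univ _)
  have hI0c : I0.card ≤ (univ \ Q.biUnion N).card := by
    apply Finset.card_le_card_of_injOn (fun b => (yg b).2)
    · intro b hb
      have hbI := hI0 hb
      obtain ⟨h1, h2, h3⟩ := hyg b hbI
      rw [Finset.mem_coe, Finset.mem_sdiff]
      refine ⟨Finset.mem_univ _, ?_⟩
      intro hh
      obtain ⟨c, hc, hgc⟩ := Finset.mem_biUnion.1 hh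
      obtain ⟨φ, hφ, hgφ⟩ := Finset.mem_biUnion.1 h3
      have hRc : c ∈ R → c ∈ F := by
        intro hcR
        by_cases hcφ : c = φ
        · rw [hcφ]; exact hφ
        · exact absurd hgφ (Finset.disjoint_left.1 (h.ff.far c hcR φ (hFR hφ) hcφ) hgc)
      rcases Finset.mem_union.1 hc with hc | hc
      · rcases Finset.mem_union.1 hc with hc | hc
        · exact hLF c (hLnL hc) (hRc (hLR (hLnL hc)))
        · exact Finset.disjoint_left.1 (hFay c hc b hb) hgc h2
      · obtain ⟨b', -, hcb⟩ := Finset.mem_biUnion.1 hc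
        have hcL : c ∈ L := Bl_sub _ hcb
        exact hLF c hcL (hRc (hLR hcL))
    · intro b hb b' hb' hgg
      simp only at hgg
      by_contra hne
      have hbI := hI0 hb
      have hbI' := hI0 hb'
      obtain ⟨h1, h2, -⟩ := hyg b hbI
      obtain ⟨h1', h2', -⟩ := hyg b' hbI'
      refine htouch (yg b).2 b hbI b' hbI' hne b (self_Bl (hIL b hbI)) b' (self_Bl (hIL b' hbI'))
        ?_ ?_
      · rw [Finset.not_disjoint_iff]
        exact ⟨(yg b).1, h.gr.symm _ _ h2, h1⟩
      · rw [Finset.not_disjoint_iff, hgg]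
        exact ⟨(yg b').1, h.gr.symm _ _ h2', h1'⟩
  have hI0q : I0.card ≤ q := by
    have : K * f0 ≤ K * Q.card := Nat.mul_le_mul_left _ hfQ
    omega
  have hFaZ : (Fa ∩ Z).card ≤ F.card := by
    have h1 : Fa ∩ Z ⊆ F.biUnion (fun φ => Fa ∩ N φ) := by
      intro a ha
      obtain ⟨ha1, ha2⟩ := Finset.mem_inter.1 ha
      obtain ⟨φ, hφ, haφ⟩ := Finset.mem_biUnion.1 ha2
      exact Finset.mem_biUnion.2 ⟨φ, hφ, Finset.mem_inter.2 ⟨ha1, haφ⟩⟩
    calc (Fa ∩ Z).card ≤ (F.biUnion (fun φ => Fa ∩ N φ)).card := Finset.card_le_card h1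
      _ ≤ F.card * 1 := by
          apply Finset.card_biUnion_le_card_mul
          intro φ _
          rw [Finset.card_le_one]
          intro a ha b hb
          rw [Finset.mem_inter] at ha hb
          by_contra hab
          exact h.gr.meet ha.2 hb.2 (hFa.far a ha.1 b hb.1 hab)
      _ = F.card := by ring
  have e1 : (I \ I0).card + I0.card = I.card := Finset.card_sdiff_add_card_eq_card hI0
  have e2 : Lc.card + Ln.card = L.card := Finset.card_sdiff_add_card_eq_card hLnL
  have e3 : L.card + F.card = R.card := Finset.card_sdiff_add_card_eq_card hFR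
  omega

end

end Pool.Agent.Star.Abs
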