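import Pool.Agent.Star.Abs5

/-!
# Star isolation, absolute constant: the pigeonhole argument and the theorem
-/

set_option autoImplicit false
set_option linter.unusedSectionVars false

namespace Pool.Agent.Star.Abs

open Finset

variable {U : Type*} [Fintype U] [DecidableEq U]

/-- `D1 ∪ R` kills, `R` is a far family, `|D1| ≤ r`, `|D1| + |R| ≤ m`. -/
def PP (N : U → Finset U) (K r m : ℕ) : Prop :=
  ∃ D1 R : Finset U, D1.card ≤ r ∧ FF N K R ∧ Kills N K (D1 ∪ R) ∧ D1.card + R.card ≤ m

section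
variable {N : U → Finset U} {K : ℕ}

lemma FF.card_biUnion {R : Finset U} (h : FF N K R) : (R.biUnion N).card = K * R.card := by
  rw [Finset.card_biUnion h.far, Finset.sum_congr rfl h.cen]
  simp [mul_comm]

lemma Gr.exMax (h : Gr N K) : ∃ R, FF N K R ∧ Kills N K R := by
  classical
  obtain ⟨R, hR, hmax⟩ := Finset.exists_max_image
    ((Finset.univ : Finset (Finset U)).filter (fun R => FF N K R)) Finset.card
    ⟨∅, Finset.mem_filter.2 ⟨Finset.mem_univ _, ⟨by simp, by simp⟩⟩⟩
  have hFF := (Finset.mem_filter.1 hR).2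
  refine ⟨R, hFF, ?_⟩
  intro p hpK
  by_contra hcon
  push Not at hcon
  have hpR : p ∉ R := by
    intro hh
    exact Finset.disjoint_left.1 (hcon p hh) (h.refl p) (h.refl p)
  have hFF' : FF N K (insert p R) := by
    refine ⟨?_, ?_⟩
    · intro c hc
      rcases Finset.mem_insert.1 hc with rfl | hc
      · exact hpK
      · exact hFF.cen c hc
    · intro c hc d hd hcd
      rcases Finset.mem_insert.1 hc with hc' | hc' <;> rcases Finset.mem_insert.1 hd with hd' | hd'
      · exact absurd (hc'.trans hd'.symm) hcd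
      · rw [hc']; exact (hcon d hd').symm
      · rw [hd']; exact hcon c hc'
      · exact hFF.far c hc' d hd' hcd
  have := hmax (insert p R) (Finset.mem_filter.2 ⟨Finset.mem_univ _, hFF'⟩)
  rw [Finset.card_insert_of_notMem hpR] at this
  omega

/-- The pigeonhole step. -/
lemma Gr.exBase (h : Gr N K) {f0 q : ℕ} (hf0 : ∀ D : Finset U, Kills N K D → f0 ≤ D.card)
    (hq : (univ : Finset U).card = K * f0 + q) :
    ∃ D1 R Φ : Finset U, Base N K D1 R Φ ∧ Kills N K (D1 ∪ R) ∧ Φ.card ≤ (WW N R).card ∧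
      K * D1.card ≤ 2 * q := by
  classical
  obtain ⟨R0, hR0, hR0k⟩ := h.exMax
  have hP0 : ∀ r, PP N K r R0.card := fun r =>
    ⟨∅, R0, by simp, hR0, by simpa using hR0k, by simp⟩
  let g : ℕ → ℕ := fun i => sInf {m | PP N K (2 * i) m}
  have hgm : ∀ i, PP N K (2 * i) (g i) := fun i => Nat.sInf_mem (⟨_, hP0 _⟩ : {m | PP N K (2 * i) m}.Nonempty)
  have hgl : ∀ i m, PP N K (2 * i) m → g i ≤ m := fun i m hm => Nat.sInf_le hm
  have hgf : ∀ i, f0 ≤ g i := by
    intro i
    obtain ⟨D1, R, -, -, hk, hc⟩ := hgm i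
    have := hf0 _ hk
    have h2 := Finset.card_union_le D1 R
    omega
  have hg0 : K * g 0 ≤ (univ : Finset U).card := by
    have h1 : g 0 ≤ R0.card := hgl 0 _ (hP0 _)
    calc K * g 0 ≤ K * R0.card := Nat.mul_le_mul_left _ h1
      _ = (R0.biUnion N).card := hR0.card_biUnion.symm
      _ ≤ _ := Finset.card_le_card (Finset.subset_univ _)
  have hex : ∃ i, K * i ≤ q ∧ g i ≤ g (i + 1) := by
    by_contra hcon
    push Not at hcon
    have hind : ∀ i, i ≤ q / K + 1 → g i + i ≤ g 0 := by
      intro i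
      induction i with
      | zero => intro _; omega
      | succ i ih =>
        intro hi
        have h1 := ih (by omega)
        have h2 : K * i ≤ q := by
          calc K * i ≤ K * (q / K) := Nat.mul_le_mul_left _ (by omega)
            _ ≤ q := Nat.mul_div_le q K
        have h3 := hcon i h2
        omega
    have h1 := hind (q / K + 1) le_rfl
    have h2 := hgf (q / K + 1)
    have h3 : K * (f0 + (q / K + 1)) ≤ K * g 0 := Nat.mul_le_mul_left _ (by omega)
    have h4 : q < K * (q / K + 1) := Nat.lt_mul_div_succ q h.K1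
    rw [Nat.mul_add] at h3
    omega
  obtain ⟨i, hi, hgi⟩ := hex
  obtain ⟨D1, R, hD1, hR, hk, hc⟩ := hgm i
  -- guards
  have hch : ∀ w, ∃ φ, w ∈ WW N R → (N w).card = K → (∀ d ∈ D1, Disjoint (N d) (N w)) →
      φ ∈ R ∧ ¬ Disjoint (N φ) (N w) := by
    intro w
    by_cases hw : (N w).card = K ∧ (∀ d ∈ D1, Disjoint (N d) (N w))
    · obtain ⟨d, hd, hdw⟩ := hk w hw.1
      rcases Finset.mem_union.1 hd with hd | hd
      · exact absurd (hw.2 d hd) hdw
      · exact ⟨d, fun _ _ _ => ⟨hd, hdw⟩⟩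
    · exact ⟨w, fun _ h1 h2 => absurd ⟨h1, h2⟩ hw⟩
  choose φ hφ using hch
  let A := (WW N R).filter (fun w => (N w).card = K ∧ (∀ d ∈ D1, Disjoint (N d) (N w)))
  refine ⟨D1, R, A.image φ, ⟨h, hR, ?_, ?_, ?_⟩, hk, ?_, ?_⟩
  · intro E R' hE hR' hlt
    by_contra hcon
    push Not at hcon
    have hkill : Kills N K ((D1 ∪ E) ∪ R') := by
      intro p hpK
      by_contra hno
      push Not at hno
      obtain ⟨d, hd, hdp⟩ := hcon p hpK
        (fun d hd => hno d (Finset.mem_union_left _ (Finset.mem_union_left _ hd)))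
        (fun d hd => hno d (Finset.mem_union_left _ (Finset.mem_union_right _ hd)))
      exact hdp (hno d (Finset.mem_union_right _ hd))
    have h1 := Finset.card_union_le D1 E
    have h2 : PP N K (2 * (i + 1)) (g i - 1) :=
      ⟨D1 ∪ E, R', by omega, hR', hkill, by omega⟩
    have h3 := hgl (i + 1) _ h2
    omega
  · intro c hc
    obtain ⟨w, hw, rfl⟩ := Finset.mem_image.1 hc
    obtain ⟨h1, h2, h3⟩ := Finset.mem_filter.1 hw
    exact (hφ w h1 h2 h3).1
  · intro p hpK hp1 hpΦ
    by_contra hno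
    push Not at hno
    have hpW : p ∈ WW N R := mem_WW.2 hno
    have hpA : p ∈ A := Finset.mem_filter.2 ⟨hpW, hpK, hp1⟩
    exact (hφ p hpW hpK hp1).2 (hpΦ _ (Finset.mem_image_of_mem φ hpA))
  · exact Finset.card_image_le.trans (Finset.card_le_card (Finset.filter_subset _ _))
  · calc K * D1.card ≤ K * (2 * i) := Nat.mul_le_mul_left _ hD1
      _ = 2 * (K * i) := by ring
      _ ≤ 2 * q := by omega

/-- **Absolute constant.** A connected graph whose closed neighbourhoods have at most `K` elements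
and which has neither `K` nor `2K` vertices has a killing set `D` with `(79K+1)|D| ≤ 79 n`. -/
theorem Gr.main (h : Gr N K) (hn1 : (univ : Finset U).card ≠ K)
    (hn2 : (univ : Finset U).card ≠ 2 * K) :
    ∃ D : Finset U, Kills N K D ∧ (79 * K + 1) * D.card ≤ 79 * (univ : Finset U).card := by
  classical
  by_contra hcon
  push Not at hcon
  have hne : {m | ∃ D : Finset U, Kills N K D ∧ D.card = m}.Nonempty := by
    obtain ⟨R, -, hR⟩ := h.exMax
    exact ⟨_, R, hR, rfl⟩
  obtain ⟨D, hD, hDc⟩ := Nat.sInf_mem hne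
  set f0 := sInf {m | ∃ D : Finset U, Kills N K D ∧ D.card = m} with hf0def
  have hf0 : ∀ D : Finset U, Kills N K D → f0 ≤ D.card := fun D hD => Nat.sInf_le ⟨D, hD, rfl⟩
  have hbig := hcon D hD
  rw [hDc] at hbig
  have hKf : K * f0 ≤ (univ : Finset U).card := by
    obtain ⟨R, hR1, hR⟩ := h.exMax
    calc K * f0 ≤ K * R.card := Nat.mul_le_mul_left _ (hf0 R hR)
      _ = (R.biUnion N).card := hR1.card_biUnion.symm
      _ ≤ _ := Finset.card_le_card (Finset.subset_univ _)
  obtain ⟨q, hq⟩ := Nat.exists_eq_add_of_le hKf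
  obtain ⟨D1, R, Φ, hB, hk, hΦ, hD1⟩ := h.exBase hf0 hq
  have h1 := hB.card_R hΦ hn1 hn2 hf0 hq
  have h2 := hB.card_W
  have h3 := hf0 _ hk
  have h4 := Finset.card_union_le D1 R
  have h5 : K * f0 ≤ K * (D1.card + R.card) := Nat.mul_le_mul_left _ (by omega)
  rw [Nat.mul_add] at h5
  have h6 : (WW N R).card ≤ 3 * q := by omega
  have h7 : D1.card ≤ K * D1.card := Nat.le_mul_of_pos_left _ h.K1
  have h8 : (79 * K + 1) * f0 = 79 * (K * f0) + f0 := by ring
  omega

end

end Pool.Agent.Star.Abs
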