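import Pool.Agent.Star.Abs6

/-!
# Star isolation: the bound `n / (K + 1/M)` for `M ≥ 79`, `M > 2K`
-/

set_option autoImplicit false
set_option linter.unusedSectionVars false

namespace Pool.Agent.Star.Abs

open Finset

section
variable {V : Type*} [DecidableEq V] {N : V → Finset V} {K M : ℕ}

/-- The theorem on a connected set of vertices in which all degrees are small. -/
lemma good_of_deg (hs : ∀ x, x ∈ N x) (hsym : ∀ x y, x ∈ N y → y ∈ N x) (hK : 1 ≤ K)
    {H : Finset V} (hH : Conn N H) (hdeg : ∀ v ∈ H, (N v ∩ H).card ≤ K) (h1 : H.card ≠ K)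
    (h2 : H.card ≠ 2 * K) : Good N K 79 H := by
  classical
  let N' : {x // x ∈ H} → Finset {x // x ∈ H} := fun x => Finset.univ.filter (fun y => y.1 ∈ N x.1)
  have hmem : ∀ x y : {x // x ∈ H}, y ∈ N' x ↔ y.1 ∈ N x.1 := by
    intro x y; simp [N']
  have hmap : ∀ x : {x // x ∈ H}, (N' x).map (Function.Embedding.subtype _) = N x.1 ∩ H := by
    intro x
    ext y
    simp only [Finset.mem_map, Function.Embedding.coe_subtype, Finset.mem_inter]
    constructor
    · rintro ⟨a, ha, rfl⟩
      exact ⟨(hmem x a).1 ha, a.2⟩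
    · rintro ⟨h1, h2⟩
      exact ⟨⟨y, h2⟩, (hmem x ⟨y, h2⟩).2 h1, rfl⟩
  have hcN : ∀ x : {x // x ∈ H}, (N' x).card = (N x.1 ∩ H).card := by
    intro x
    rw [← hmap x, Finset.card_map]
  have hU : (univ : Finset {x // x ∈ H}).card = H.card := by
    rw [Finset.card_univ, Fintype.card_coe]
  have hGr : Gr N' K := by
    refine ⟨?_, ?_, hK, ?_, ?_⟩
    · intro x; rw [hmem]; exact hs _
    · intro x y hxy; rw [hmem] at *; exact hsym _ _ hxy
    · intro x; rw [hcN]; exact hdeg _ x.2
    · intro A hA hAne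
      obtain ⟨x, hx, y, hy, hyA, hyx⟩ := hH.2 (A.map (Function.Embedding.subtype _)) (by
          intro a ha
          obtain ⟨b, -, rfl⟩ := Finset.mem_map.1 ha
          exact b.2) (by simpa using hA) (by
          intro hh
          apply hAne
          ext a
          simp only [Finset.mem_univ, iff_true]
          have : a.1 ∈ A.map (Function.Embedding.subtype _) := by rw [hh]; exact a.2
          obtain ⟨b, hb, hba⟩ := Finset.mem_map.1 this
          have : b = a := Subtype.ext hba
          rw [← this]; exact hb)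
      obtain ⟨x', hx', rfl⟩ := Finset.mem_map.1 hx
      refine ⟨x', hx', ⟨y, hy⟩, ?_, ?_⟩
      · intro hh
        exact hyA (Finset.mem_map.2 ⟨⟨y, hy⟩, hh, rfl⟩)
      · rw [hmem]; exact hyx
  obtain ⟨D, hD, hDc⟩ := hGr.main (by rw [hU]; exact h1) (by rw [hU]; exact h2)
  have hI : Iso N K H (D.map (Function.Embedding.subtype _)) := by
    refine ⟨?_, ?_⟩
    · intro a ha
      obtain ⟨b, -, rfl⟩ := Finset.mem_map.1 ha
      exact b.2
    · intro v hv
      obtain ⟨hvH, hvD⟩ := mem_rem.1 hv
      by_contra hcon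
      push Not at hcon
      have hss : N v ∩ rem N H (D.map (Function.Embedding.subtype _)) ⊆ N v ∩ H :=
        Finset.inter_subset_inter_left (fun a ha => (mem_rem.1 ha).1)
      have hle := hdeg v hvH
      have heq := Finset.eq_of_subset_of_card_le hss (by omega)
      have hvK : (N' ⟨v, hvH⟩).card = K := by
        rw [hcN]
        apply le_antisymm hle
        rw [← heq]; exact hcon
      obtain ⟨d, hd, hnd⟩ := hD ⟨v, hvH⟩ hvK
      obtain ⟨z, hz1, hz2⟩ := Finset.not_disjoint_iff.1 hnd
      rw [hmem] at hz1 hz2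
      have hz3 : z.1 ∈ N v ∩ H := Finset.mem_inter.2 ⟨hz2, z.2⟩
      rw [← heq] at hz3
      exact (mem_rem.1 (Finset.mem_inter.1 hz3).2).2 d.1 (Finset.mem_map.2 ⟨d, hd, rfl⟩) hz1
  have hf := f_le hI
  rw [Finset.card_map] at hf
  unfold Good
  rw [hU] at hDc
  calc (K * 79 + 1) * f N K H ≤ (K * 79 + 1) * D.card := Nat.mul_le_mul_left _ hf
    _ = (79 * K + 1) * D.card := by ring
    _ ≤ _ := hDc

lemma good_mono {H : Finset V} {m M : ℕ} (h : Good N K m H) (hm : 1 ≤ m) (hmM : m ≤ M) :
    Good N K M H := by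
  unfold Good at h ⊢
  have h1 : m * ((K * M + 1) * f N K H) ≤ m * (M * H.card) := by
    calc m * ((K * M + 1) * f N K H) = K * M * m * f N K H + m * f N K H := by ring
      _ ≤ K * M * m * f N K H + M * f N K H :=
        Nat.add_le_add_left (Nat.mul_le_mul_right _ hmM) _
      _ = M * ((K * m + 1) * f N K H) := by ring
      _ ≤ M * (m * H.card) := Nat.mul_le_mul_left _ h
      _ = _ := by ring
  exact Nat.le_of_mul_le_mul_left h1 hm

lemma small_cases (hs : ∀ x, x ∈ N x) (hK : 1 ≤ K) (hM : 1 ≤ M) {H : Finset V}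
    (h : H.card = K ∨ H.card = 2 * K) : Good N K M H ∨ Bad N K H := by
  have hm := mul_f_le (K := K) hs H
  rcases h with h | h
  · rw [h] at hm
    have h1 : f N K H ≤ 1 := by
      have : K * f N K H ≤ K * 1 := by omega
      exact Nat.le_of_mul_le_mul_left this hK
    rcases Nat.lt_or_ge (f N K H) 1 with h2 | h2
    · left
      have : f N K H = 0 := by omega
      unfold Good; rw [this]; simp
    · right
      have h3 : f N K H = 1 := by omega
      exact ⟨by rw [h3, h]; ring, Or.inl h3⟩
  · rw [h] at hm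
    have h1 : f N K H ≤ 2 := by
      have : K * f N K H ≤ K * 2 := by omega
      exact Nat.le_of_mul_le_mul_left this hK
    rcases Nat.lt_or_ge (f N K H) 2 with h2 | h2
    · left
      unfold Good
      have e1 : 1 ≤ K * M := Nat.mul_pos hK hM
      calc (K * M + 1) * f N K H ≤ (K * M + 1) * 1 := Nat.mul_le_mul_left _ (by omega)
        _ ≤ K * M + K * M := by omega
        _ = M * H.card := by rw [h]; ring
    · right
      have h3 : f N K H = 2 := by omega
      exact ⟨by rw [h3, h]; ring, Or.inr h3⟩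

/-- **Dichotomy** with `M ≥ 79`, `M > 2K`. -/
theorem good_or_bad (hs : ∀ x, x ∈ N x) (hsym : ∀ x y, x ∈ N y → y ∈ N x) (hK : 1 ≤ K)
    (hM : 2 * K < M) (hM2 : 79 ≤ M) :
    ∀ (n : ℕ) (H : Finset V), H.card ≤ n → Conn N H → Good N K M H ∨ Bad N K H := by
  intro n
  induction n with
  | zero =>
    intro H hH hc
    have := Finset.card_pos.2 hc.1
    omega
  | succ n ih =>
    intro H hH hc
    by_cases hsm : H.card = K ∨ H.card = 2 * K
    · exact small_cases hs hK (by omega) hsm
    push Not at hsm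
    by_contra hcon
    push Not at hcon
    have hcex : Cex N K M H := by
      refine ⟨hs, hsym, hK, by omega, hc, hcon.1, hcon.2, ?_⟩
      intro C hC hne hCc
      refine ih C ?_ hCc
      have : C.card < H.card := Finset.card_lt_card (Finset.ssubset_iff_subset_ne.2 ⟨hC, hne⟩)
      omega
    exact hcon.1 (good_mono (good_of_deg hs hsym hK hc (fun v hv => hcex.deg hM hv) hsm.1 hsm.2)
      (by omega) hM2)

end

end Pool.Agent.Star.Abs
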