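import Mathlib

/-!
# Counting clean clusters (step 6 of the absolute bound)
-/

set_option autoImplicit false

namespace Pool.Agent.Star

open Finset

section Clean

variable {V : Type*} [Fintype V] [DecidableEq V]

/-- A star on `K` vertices. -/
def IsStar (N : V → Finset V) (K : ℕ) (S : Finset V) : Prop :=
  S.card = K ∧ ∃ c ∈ S, S ⊆ N c

/-- Data of the clean clusters: `B` is a set of disjoint blocks of tile centres, each tile `A x` is
a star on `K` vertices, `g b` is a vertex outside all tiles adjacent to `y b` in the tile of `p b`. -/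
structure CleanData (N : V → Finset V) (K s : ℕ) (R : Finset V) (B : Finset (Finset V))
    (A : V → Finset V) (p y g : Finset V → V) : Prop where
  self : ∀ x, x ∈ N x
  symm : ∀ x y, x ∈ N y → y ∈ N x
  iso : ∀ D : Finset V, D.card < s → ∃ S, IsStar N K S ∧ ∀ d ∈ D, Disjoint S (N d)
  sub : ∀ x ∈ R ∪ B.biUnion id, A x ⊆ N x
  card : ∀ x ∈ R ∪ B.biUnion id, (A x).card = K
  disj : ∀ x ∈ R ∪ B.biUnion id, ∀ y ∈ R ∪ B.biUnion id, x ≠ y → Disjoint (A x) (A y)
  hRB : ∀ b ∈ B, Disjoint R b
  hBB : ∀ b ∈ B, ∀ b' ∈ B, b ≠ b' → Disjoint b b'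
  hp : ∀ b ∈ B, p b ∈ b
  hy : ∀ b ∈ B, y b ∈ A (p b)
  hg : ∀ b ∈ B, g b ∈ N (y b)
  hgA : ∀ b ∈ B, ∀ x ∈ R ∪ B.biUnion id, g b ∉ A x
  touch : ∀ v, ∀ b ∈ B, ∀ b' ∈ B, ¬ Disjoint (N v) (b.biUnion A) →
    ¬ Disjoint (N v) (b'.biUnion A) → b = b'

/-- Admissible pairs. -/
structure Adm (N : V → Finset V) (K : ℕ) (R : Finset V) (B : Finset (Finset V))
    (A : V → Finset V) (g : Finset V → V) (U SS : Finset (Finset V)) : Prop where
  hU : U ⊆ B
  star : ∀ S ∈ SS, IsStar N K S
  pair : ∀ S ∈ SS, ∀ S' ∈ SS, S ≠ S' → Disjoint S S'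
  rest : ∀ S ∈ SS, ∀ x ∈ R, Disjoint S (A x)
  offU : ∀ S ∈ SS, ∀ b ∈ U, Disjoint S (b.biUnion A)
  offg : ∀ S ∈ SS, ∀ b ∈ U, g b ∉ S
  rel : ∀ b ∈ B, b ∉ U → ∃ S ∈ SS, ¬ Disjoint S (b.biUnion A) ∧ ¬ S ⊆ b.biUnion A

variable {N : V → Finset V} {K s : ℕ} {R : Finset V} {B : Finset (Finset V)}
  {A : V → Finset V} {p y g : Finset V → V}

omit [Fintype V] in
lemma CleanData.extend (h : CleanData N K s R B A p y g) {U SS : Finset (Finset V)}
    (hA : Adm N K R B A g U SS) (hlt : R.card + SS.card + ∑ b ∈ U, b.card < s) :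
    ∃ U' SS', Adm N K R B A g U' SS' ∧ SS.card < SS'.card := by
  classical
  -- centres of the stars
  have hc : ∀ S : Finset V, ∃ c, S ∈ SS → c ∈ S ∧ S ⊆ N c := by
    intro S
    by_cases hS : S ∈ SS
    · obtain ⟨-, c, hc, hc'⟩ := hA.star S hS
      exact ⟨c, fun _ => ⟨hc, hc'⟩⟩
    · by_cases hne : Nonempty V
      · exact ⟨hne.some, fun h => absurd h hS⟩
      · obtain ⟨S', hS', -⟩ := h.iso ∅ (by
          rw [Finset.card_empty]; omega)
        obtain ⟨-, c, -, -⟩ := hS'
        exact absurd ⟨c⟩ hne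
  choose cen hcen using hc
  let D : Finset V := R ∪ (SS.image cen ∪ U.biUnion (fun b => insert (y b) (b.erase (p b))))
  have hD : D.card < s := by
    have h1 : D.card ≤ R.card + (SS.image cen ∪ U.biUnion (fun b => insert (y b)
      (b.erase (p b)))).card := Finset.card_union_le _ _
    have h2 := Finset.card_union_le (SS.image cen)
      (U.biUnion (fun b => insert (y b) (b.erase (p b))))
    have h3 : (SS.image cen).card ≤ SS.card := Finset.card_image_le
    have h4 : (U.biUnion (fun b => insert (y b) (b.erase (p b)))).card ≤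
        ∑ b ∈ U, (insert (y b) (b.erase (p b))).card := Finset.card_biUnion_le
    have h5 : ∑ b ∈ U, (insert (y b) (b.erase (p b))).card ≤ ∑ b ∈ U, b.card := by
      apply Finset.sum_le_sum
      intro b hb
      have h6 := Finset.card_insert_le (y b) (b.erase (p b))
      have h7 := Finset.card_erase_add_one (h.hp b (hA.hU hb))
      omega
    omega
  obtain ⟨S, hS, hSD⟩ := h.iso D hD
  have hSR : ∀ x ∈ R, Disjoint S (A x) := fun x hx =>
    (hSD x (Finset.mem_union_left _ hx)).mono_right (h.sub x (Finset.mem_union_left _ hx))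
  have hSS : ∀ S' ∈ SS, Disjoint S S' := by
    intro S' hS'
    refine (hSD (cen S') ?_).mono_right (hcen S' hS').2
    exact Finset.mem_union_right _ (Finset.mem_union_left _ (Finset.mem_image_of_mem _ hS'))
  have hSy : ∀ b ∈ U, Disjoint S (N (y b)) := by
    intro b hb
    refine hSD _ ?_
    exact Finset.mem_union_right _ (Finset.mem_union_right _
      (Finset.mem_biUnion.2 ⟨b, hb, Finset.mem_insert_self _ _⟩))
  have hSb : ∀ b ∈ U, ∀ x ∈ b, x ≠ p b → Disjoint S (A x) := by
    intro b hb x hx hxp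
    refine (hSD x ?_).mono_right (h.sub x (Finset.mem_union_right _
      (Finset.mem_biUnion.2 ⟨b, hA.hU hb, hx⟩)))
    exact Finset.mem_union_right _ (Finset.mem_union_right _
      (Finset.mem_biUnion.2 ⟨b, hb, Finset.mem_insert_of_mem (Finset.mem_erase.2 ⟨hxp, hx⟩)⟩))
  obtain ⟨hScard, c, hcS, hScN⟩ := hS
  have hSnot : S ∉ SS := by
    intro hmem
    exact Finset.disjoint_left.1 (hSS S hmem) hcS hcS
  refine ⟨U.filter (fun b => Disjoint S (b.biUnion A)), insert S SS, ?_, ?_⟩
  · refine ⟨(Finset.filter_subset _ _).trans hA.hU, ?_, ?_, ?_, ?_, ?_, ?_⟩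
    · intro S' hS'
      rcases Finset.mem_insert.1 hS' with rfl | hS'
      · exact ⟨hScard, c, hcS, hScN⟩
      · exact hA.star S' hS'
    · intro S1 h1 S2 h2 hne
      rcases Finset.mem_insert.1 h1 with h1 | h1 <;> rcases Finset.mem_insert.1 h2 with h2 | h2
      · exact absurd (h1.trans h2.symm) hne
      · rw [h1]; exact hSS S2 h2
      · rw [h2]; exact (hSS S1 h1).symm
      · exact hA.pair S1 h1 S2 h2 hne
    · intro S' hS' x hx
      rcases Finset.mem_insert.1 hS' with rfl | hS'
      · exact hSR x hx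
      · exact hA.rest S' hS' x hx
    · intro S' hS' b hb
      rcases Finset.mem_insert.1 hS' with rfl | hS'
      · exact (Finset.mem_filter.1 hb).2
      · exact hA.offU S' hS' b (Finset.mem_filter.1 hb).1
    · intro S' hS' b hb
      rcases Finset.mem_insert.1 hS' with rfl | hS'
      · intro hgS
        have hbU := (Finset.mem_filter.1 hb).1
        exact Finset.disjoint_left.1 (hSy b hbU) hgS (h.hg b (hA.hU hbU))
      · exact hA.offg S' hS' b (Finset.mem_filter.1 hb).1
    · intro b hb hbU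
      by_cases hbU2 : b ∈ U
      · have hnd : ¬ Disjoint S (b.biUnion A) := fun hd => hbU (Finset.mem_filter.2 ⟨hbU2, hd⟩)
        refine ⟨S, Finset.mem_insert_self _ _, hnd, ?_⟩
        intro hsub
        have h1 : S ⊆ A (p b) := by
          intro v hv
          obtain ⟨x, hx, hvx⟩ := Finset.mem_biUnion.1 (hsub hv)
          by_cases hxp : x = p b
          · rw [← hxp]; exact hvx
          · exact absurd hvx (Finset.disjoint_left.1 (hSb b hbU2 x hx hxp) hv)
        have h2 : (A (p b)).card = K := h.card _ (Finset.mem_union_right _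
          (Finset.mem_biUnion.2 ⟨b, hb, h.hp b hb⟩))
        have h3 : S = A (p b) := Finset.eq_of_subset_of_card_le h1 (by rw [h2, hScard])
        have h4 : y b ∈ S := by rw [h3]; exact h.hy b hb
        exact Finset.disjoint_left.1 (hSy b hbU2) h4 (h.self _)
      · obtain ⟨S', hS', h1, h2⟩ := hA.rel b hb hbU2
        exact ⟨S', Finset.mem_insert_of_mem hS', h1, h2⟩
  · rw [Finset.card_insert_of_notMem hSnot]; omega

lemma CleanData.exists_adm (h : CleanData N K s R B A p y g) :
    ∃ U SS, Adm N K R B A g U SS ∧ s ≤ R.card + SS.card + ∑ b ∈ U, b.card := by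
  classical
  let T : Finset (Finset (Finset V) × Finset (Finset V)) :=
    Finset.univ.filter (fun q => Adm N K R B A g q.1 q.2)
  have hT : T.Nonempty := by
    refine ⟨(B, ∅), Finset.mem_filter.2 ⟨Finset.mem_univ _, ?_⟩⟩
    refine ⟨Finset.Subset.refl _, ?_, ?_, ?_, ?_, ?_, ?_⟩
    · simp
    · simp
    · simp
    · simp
    · simp
    · intro b hb hb'; exact absurd hb hb'
  obtain ⟨⟨U, SS⟩, hmem, hmax⟩ := Finset.exists_max_image T (fun q => q.2.card) hT
  refine ⟨U, SS, (Finset.mem_filter.1 hmem).2, ?_⟩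
  by_contra hlt
  push Not at hlt
  obtain ⟨U', SS', h1, h2⟩ := h.extend (Finset.mem_filter.1 hmem).2 hlt
  have h3 : SS'.card ≤ SS.card := hmax (U', SS') (Finset.mem_filter.2 ⟨Finset.mem_univ _, h1⟩)
  exact absurd h2 (Nat.not_lt.2 h3)

/-- **Step 6.** -/
theorem CleanData.count (h : CleanData N K s R B A p y g) (hK : 1 ≤ K) :
    B.card + (K - 1) * s + R.card + ∑ b ∈ B, b.card ≤ Fintype.card V := by
  classical
  obtain ⟨U, SS, hA, hs⟩ := h.exists_adm
  have memT : ∀ b ∈ B, ∀ x ∈ b, x ∈ R ∪ B.biUnion id := fun b hb x hx =>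
    Finset.mem_union_right _ (Finset.mem_biUnion.2 ⟨b, hb, hx⟩)
  have memR : ∀ x ∈ R, x ∈ R ∪ B.biUnion id := fun x hx => Finset.mem_union_left _ hx
  -- the region of a block
  have cardVb : ∀ b ∈ B, (b.biUnion A).card = K * b.card := by
    intro b hb
    rw [Finset.card_biUnion (fun x hx z hz hxz => h.disj x (memT b hb x hx) z (memT b hb z hz) hxz)]
    rw [Finset.sum_congr rfl (fun x hx => h.card x (memT b hb x hx)), Finset.sum_const,
      smul_eq_mul, mul_comm]
  have cardR : (R.biUnion A).card = K * R.card := by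
    rw [Finset.card_biUnion (fun x hx z hz hxz => h.disj x (memR x hx) z (memR z hz) hxz)]
    rw [Finset.sum_congr rfl (fun x hx => h.card x (memR x hx)), Finset.sum_const,
      smul_eq_mul, mul_comm]
  have cardSS : (SS.biUnion id).card = K * SS.card := by
    have h1 : (SS.biUnion id).card = ∑ S ∈ SS, (id S).card :=
      Finset.card_biUnion (fun S hS S' hS' hne => hA.pair S hS S' hS' hne)
    have h2 : ∑ S ∈ SS, (id S).card = ∑ S ∈ SS, K :=
      Finset.sum_congr rfl (fun S hS => (hA.star S hS).1)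
    rw [h1, h2, Finset.sum_const, smul_eq_mul, mul_comm]
  have disjVb : ∀ b ∈ B, ∀ b' ∈ B, b ≠ b' → Disjoint (b.biUnion A) (b'.biUnion A) := by
    intro b hb b' hb' hne
    rw [Finset.disjoint_biUnion_left]
    intro x hx
    rw [Finset.disjoint_biUnion_right]
    intro z hz
    refine h.disj x (memT b hb x hx) z (memT b' hb' z hz) ?_
    rintro rfl
    exact Finset.disjoint_left.1 (h.hBB b hb b' hb' hne) hx hz
  have disjRb : ∀ b ∈ B, Disjoint (R.biUnion A) (b.biUnion A) := by
    intro b hb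
    rw [Finset.disjoint_biUnion_left]
    intro x hx
    rw [Finset.disjoint_biUnion_right]
    intro z hz
    refine h.disj x (memR x hx) z (memT b hb z hz) ?_
    rintro rfl
    exact Finset.disjoint_left.1 (h.hRB b hb) hx hz
  -- g is injective on U
  have ginj : Set.InjOn g (U : Set (Finset V)) := by
    intro b hb b' hb' hgg
    have hbB := hA.hU hb
    have hbB' := hA.hU hb'
    have key : ∀ b ∈ B, ¬ Disjoint (N (g b)) (b.biUnion A) := by
      intro b hb hd
      refine Finset.disjoint_left.1 hd (h.symm _ _ (h.hg b hb)) ?_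
      exact Finset.mem_biUnion.2 ⟨p b, h.hp b hb, h.hy b hb⟩
    exact h.touch (g b) b hbB b' hbB' (key b hbB) (by rw [hgg]; exact key b' hbB')
  have cardG : (U.image g).card = U.card := Finset.card_image_of_injOn ginj
  -- released blocks
  let hh : Finset V → ℕ := fun b => (b.biUnion A \ SS.biUnion id).card
  let ff : Finset V → ℕ := fun b => (SS.filter (fun S => ¬ Disjoint S (b.biUnion A))).card
  have hff : ∀ b ∈ B \ U, b.card + 1 ≤ hh b + ff b := by
    intro b hb
    rw [Finset.mem_sdiff] at hb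
    obtain ⟨S0, hS0, h1, h2⟩ := hA.rel b hb.1 hb.2
    have h3 : b.biUnion A ∩ SS.biUnion id ⊆
        (SS.filter (fun S => ¬ Disjoint S (b.biUnion A))).biUnion (fun S => S ∩ b.biUnion A) := by
      intro v hv
      rw [Finset.mem_inter] at hv
      obtain ⟨S, hS, hvS⟩ := Finset.mem_biUnion.1 hv.2
      simp only [id] at hvS
      refine Finset.mem_biUnion.2 ⟨S, Finset.mem_filter.2 ⟨hS, ?_⟩, Finset.mem_inter.2 ⟨hvS, hv.1⟩⟩
      intro hd
      exact Finset.disjoint_left.1 hd hvS hv.1
    have h4 : (b.biUnion A ∩ SS.biUnion id).card ≤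
        ∑ S ∈ SS.filter (fun S => ¬ Disjoint S (b.biUnion A)), (S ∩ b.biUnion A).card :=
      (Finset.card_le_card h3).trans Finset.card_biUnion_le
    have hS0f : S0 ∈ SS.filter (fun S => ¬ Disjoint S (b.biUnion A)) :=
      Finset.mem_filter.2 ⟨hS0, h1⟩
    have h5 : ∑ S ∈ SS.filter (fun S => ¬ Disjoint S (b.biUnion A)), (S ∩ b.biUnion A).card <
        ∑ S ∈ SS.filter (fun S => ¬ Disjoint S (b.biUnion A)), K := by
      apply Finset.sum_lt_sum
      · intro S hS
        rw [← (hA.star S (Finset.mem_filter.1 hS).1).1]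
        exact Finset.card_le_card Finset.inter_subset_left
      · refine ⟨S0, hS0f, ?_⟩
        rw [← (hA.star S0 hS0).1]
        apply Finset.card_lt_card
        refine ⟨Finset.inter_subset_left, fun hsub => h2 ?_⟩
        intro v hv
        exact (Finset.mem_inter.1 (hsub hv)).2
    rw [Finset.sum_const, smul_eq_mul] at h5
    have h6 : hh b + (b.biUnion A ∩ SS.biUnion id).card = K * b.card := by
      rw [← cardVb b hb.1]
      exact Finset.card_sdiff_add_card_inter _ _
    have h7 : K * b.card + 1 ≤ hh b + ff b * K := by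
      have : (b.biUnion A ∩ SS.biUnion id).card + 1 ≤ ff b * K := by
        simp only [ff]; omega
      omega
    by_cases h8 : b.card + 1 ≤ ff b
    · omega
    · push Not at h8
      obtain ⟨e, he⟩ : ∃ e, b.card = ff b + e := ⟨b.card - ff b, by omega⟩
      rw [he] at h7 ⊢
      have h9 : e ≤ K * e := Nat.le_mul_of_pos_left e (by omega)
      have h10 : K * (ff b + e) = ff b * K + K * e := by ring
      omega
  have hfs : ∑ b ∈ B \ U, ff b ≤ SS.card := by
    have h1 : ∑ b ∈ B \ U, ff b =
        ((B \ U).biUnion (fun b => SS.filter (fun S => ¬ Disjoint S (b.biUnion A)))).card := by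
      rw [Finset.card_biUnion]
      intro b hb b' hb' hne
      show Disjoint _ _
      rw [Finset.disjoint_left]
      intro S hS hS'
      have hb1 := (Finset.mem_sdiff.1 hb).1
      have hb2 := (Finset.mem_sdiff.1 hb').1
      rw [Finset.mem_filter] at hS hS'
      obtain ⟨-, c, -, hcN⟩ := hA.star S hS.1
      refine hne (h.touch c b hb1 b' hb2 ?_ ?_)
      · intro hd; exact hS.2 (hd.mono_left hcN)
      · intro hd; exact hS'.2 (hd.mono_left hcN)
    rw [h1]
    apply Finset.card_le_card
    intro S hS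
    obtain ⟨b, -, hb⟩ := Finset.mem_biUnion.1 hS
    exact (Finset.mem_filter.1 hb).1
  -- five disjoint sets
  let X1 := R.biUnion A
  let X2 := SS.biUnion id
  let X3 := U.biUnion (fun b => b.biUnion A)
  let X4 := U.image g
  let X5 := (B \ U).biUnion (fun b => b.biUnion A \ SS.biUnion id)
  have c3 : X3.card = K * ∑ b ∈ U, b.card := by
    simp only [X3]
    rw [Finset.card_biUnion (fun b hb b' hb' hne => disjVb b (hA.hU hb) b' (hA.hU hb') hne)]
    rw [Finset.sum_congr rfl (fun b hb => cardVb b (hA.hU hb)), ← Finset.mul_sum]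
  have c5 : X5.card = ∑ b ∈ B \ U, hh b := by
    simp only [X5]
    rw [Finset.card_biUnion]
    intro b hb b' hb' hne
    exact (disjVb b (Finset.mem_sdiff.1 hb).1 b' (Finset.mem_sdiff.1 hb').1 hne).mono
      Finset.sdiff_subset Finset.sdiff_subset
  have d12 : Disjoint X1 X2 := by
    simp only [X1, X2]
    rw [Finset.disjoint_biUnion_left]
    intro x hx
    rw [Finset.disjoint_biUnion_right]
    intro S hS
    exact (hA.rest S hS x hx).symm
  have d13 : Disjoint X1 X3 := by
    simp only [X1, X3]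
    rw [Finset.disjoint_biUnion_right]
    intro b hb
    exact disjRb b (hA.hU hb)
  have d23 : Disjoint X2 X3 := by
    simp only [X2, X3]
    rw [Finset.disjoint_biUnion_left]
    intro S hS
    rw [Finset.disjoint_biUnion_right]
    intro b hb
    exact hA.offU S hS b hb
  have d14 : Disjoint X1 X4 := by
    simp only [X1, X4]
    rw [Finset.disjoint_right]
    intro v hv hv1
    obtain ⟨b, hb, rfl⟩ := Finset.mem_image.1 hv
    obtain ⟨x, hx, hvx⟩ := Finset.mem_biUnion.1 hv1
    exact h.hgA b (hA.hU hb) x (memR x hx) hvx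
  have d24 : Disjoint X2 X4 := by
    simp only [X2, X4]
    rw [Finset.disjoint_right]
    intro v hv hv1
    obtain ⟨b, hb, rfl⟩ := Finset.mem_image.1 hv
    obtain ⟨S, hS, hvS⟩ := Finset.mem_biUnion.1 hv1
    exact hA.offg S hS b hb hvS
  have d34 : Disjoint X3 X4 := by
    simp only [X3, X4]
    rw [Finset.disjoint_right]
    intro v hv hv1
    obtain ⟨b, hb, rfl⟩ := Finset.mem_image.1 hv
    obtain ⟨b', hb', hv2⟩ := Finset.mem_biUnion.1 hv1
    obtain ⟨x, hx, hvx⟩ := Finset.mem_biUnion.1 hv2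
    exact h.hgA b (hA.hU hb) x (memT b' (hA.hU hb') x hx) hvx
  have d15 : Disjoint X1 X5 := by
    simp only [X1, X5]
    rw [Finset.disjoint_biUnion_right]
    intro b hb
    exact (disjRb b (Finset.mem_sdiff.1 hb).1).mono_right Finset.sdiff_subset
  have d25 : Disjoint X2 X5 := by
    simp only [X2, X5]
    rw [Finset.disjoint_biUnion_right]
    intro b hb
    exact Finset.disjoint_sdiff
  have d35 : Disjoint X3 X5 := by
    simp only [X3, X5]
    rw [Finset.disjoint_biUnion_left]
    intro b hb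
    rw [Finset.disjoint_biUnion_right]
    intro b' hb'
    refine (disjVb b (hA.hU hb) b' (Finset.mem_sdiff.1 hb').1 ?_).mono_right Finset.sdiff_subset
    rintro rfl
    exact (Finset.mem_sdiff.1 hb').2 hb
  have d45 : Disjoint X4 X5 := by
    simp only [X4, X5]
    rw [Finset.disjoint_left]
    intro v hv hv1
    obtain ⟨b, hb, rfl⟩ := Finset.mem_image.1 hv
    obtain ⟨b', hb', hv2⟩ := Finset.mem_biUnion.1 hv1
    obtain ⟨x, hx, hvx⟩ := Finset.mem_biUnion.1 (Finset.mem_sdiff.1 hv2).1
    exact h.hgA b (hA.hU hb) x (memT b' (Finset.mem_sdiff.1 hb').1 x hx) hvx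
  have total : X1.card + X2.card + X3.card + X4.card + X5.card ≤ Fintype.card V := by
    rw [← Finset.card_union_of_disjoint d12,
      ← Finset.card_union_of_disjoint (Finset.disjoint_union_left.2 ⟨d13, d23⟩),
      ← Finset.card_union_of_disjoint (Finset.disjoint_union_left.2
        ⟨Finset.disjoint_union_left.2 ⟨d14, d24⟩, d34⟩),
      ← Finset.card_union_of_disjoint (Finset.disjoint_union_left.2
        ⟨Finset.disjoint_union_left.2 ⟨Finset.disjoint_union_left.2 ⟨d15, d25⟩, d35⟩, d45⟩)]
    exact Finset.card_le_univ _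
  have e1 : X1.card = K * R.card := cardR
  have e2 : X2.card = K * SS.card := cardSS
  have e4 : X4.card = U.card := cardG
  have hsum1 : ∑ b ∈ B, b.card = ∑ b ∈ U, b.card + ∑ b ∈ B \ U, b.card := by
    rw [add_comm, Finset.sum_sdiff hA.hU]
  have hcardB : B.card = U.card + (B \ U).card := by
    rw [add_comm, Finset.card_sdiff_add_card_eq_card hA.hU]
  have hsum2 : ∑ b ∈ B \ U, b.card + (B \ U).card ≤ ∑ b ∈ B \ U, hh b + ∑ b ∈ B \ U, ff b := by
    rw [← Finset.sum_add_distrib]
    calc ∑ b ∈ B \ U, b.card + (B \ U).card = ∑ b ∈ B \ U, (b.card + 1) := by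
          rw [Finset.sum_add_distrib]; simp
      _ ≤ _ := Finset.sum_le_sum hff
  set t := R.card + SS.card + ∑ b ∈ U, b.card with ht
  have h1 : (K - 1) * s ≤ (K - 1) * t := Nat.mul_le_mul_left _ hs
  have h2 : K * R.card + K * SS.card + K * ∑ b ∈ U, b.card = (K - 1) * t + t := by
    have : K * t = (K - 1) * t + t := by
      obtain ⟨e, he⟩ : ∃ e, K = e + 1 := ⟨K - 1, by omega⟩
      rw [he]; simp; ring
    rw [← this, ht]; ring
  omega

end Clean

end Pool.Agent.Star
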