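import Mathlib

/-!
# Vertex-disjoint stars in a finite graph

A family of vertex-disjoint stars is coded by the set `L` of its leaves and the map `o` sending a
leaf to the centre of its star.  The gain of the family is `|L| - |o(L)|`, the sum of
`(number of leaves) - 1`.  A family of maximal gain has gain at least `m / 11`, where `m` is the
number of vertices lying in components with at least three vertices.
-/

set_option autoImplicit false

namespace Pool.Agent.Star

open Finset

variable {α : Type*} [DecidableEq α]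

/-- `L` is the set of leaves and `o` the centre map of a family of disjoint stars of the graph `T`
on `R`. -/
structure SFam (R : Finset α) (T : α → α → Prop) (L : Finset α) (o : α → α) : Prop where
  sub : L ⊆ R
  mem : ∀ l ∈ L, o l ∈ R
  nmem : ∀ l ∈ L, o l ∉ L
  adj : ∀ l ∈ L, T l (o l)

/-- `x` lies in a component of `T` (on `R`) with at most two vertices. -/
def Small (R : Finset α) (T : α → α → Prop) (x : α) : Prop :=
  (∀ y ∈ R, ¬ T x y) ∨
    ∃ y ∈ R, T x y ∧ (∀ z ∈ R, T x z → z = y) ∧ (∀ z ∈ R, T y z → z = x)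

section
variable {R : Finset α} {T : α → α → Prop}

lemma sfam_empty (o : α → α) : SFam R T ∅ o :=
  ⟨by simp, by simp, by simp, by simp⟩

open Classical in
/-- All uncovered neighbours of `c` become leaves of a star with centre `c`. -/
lemma SFam.swap (hirr : ∀ x, ¬ T x x) {L : Finset α} {o : α → α} (h : SFam R T L o)
    {c : α} (hc : c ∈ R) :
    SFam R T (L.erase c ∪ (R \ (L ∪ L.image o)).filter (fun u => T u c))
      (fun x => if x ∈ (R \ (L ∪ L.image o)).filter (fun u => T u c) then c else o x) := by
  set S := (R \ (L ∪ L.image o)).filter (fun u => T u c) with hS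
  have hSmem : ∀ s ∈ S, s ∈ R ∧ s ∉ L ∧ s ∉ L.image o ∧ T s c := by
    intro s hs
    rw [hS, Finset.mem_filter, Finset.mem_sdiff, Finset.mem_union, not_or] at hs
    exact ⟨hs.1.1, hs.1.2.1, hs.1.2.2, hs.2⟩
  have hcS : c ∉ S := fun hh => hirr c (hSmem c hh).2.2.2
  refine ⟨?_, ?_, ?_, ?_⟩
  · intro x hx
    rcases Finset.mem_union.1 hx with hx | hx
    · exact h.sub (Finset.mem_of_mem_erase hx)
    · exact (hSmem x hx).1
  · intro x hx
    by_cases hxS : x ∈ S
    · simp only [hxS, if_true]; exact hc
    · simp only [hxS, if_false]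
      rcases Finset.mem_union.1 hx with hx | hx
      · exact h.mem x (Finset.mem_of_mem_erase hx)
      · exact absurd hx hxS
  · intro x hx
    by_cases hxS : x ∈ S
    · simp only [hxS, if_true]
      rw [Finset.mem_union, not_or]
      exact ⟨Finset.notMem_erase _ _, hcS⟩
    · simp only [hxS, if_false]
      have hxL : x ∈ L := by
        rcases Finset.mem_union.1 hx with hx | hx
        · exact Finset.mem_of_mem_erase hx
        · exact absurd hx hxS
      rw [Finset.mem_union, not_or]
      refine ⟨fun hh => h.nmem x hxL (Finset.mem_of_mem_erase hh), fun hh => ?_⟩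
      exact (hSmem _ hh).2.2.1 (Finset.mem_image_of_mem o hxL)
  · intro x hx
    by_cases hxS : x ∈ S
    · simp only [hxS, if_true]
      exact (hSmem x hxS).2.2.2
    · simp only [hxS, if_false]
      have hxL : x ∈ L := by
        rcases Finset.mem_union.1 hx with hx | hx
        · exact Finset.mem_of_mem_erase hx
        · exact absurd hx hxS
      exact h.adj x hxL

open Classical in
/-- A family of maximal gain, in which every star has at least two leaves. -/
theorem exists_sfam (R : Finset α) (T : α → α → Prop) (hsym : ∀ x y, T x y → T y x)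
    (hirr : ∀ x, ¬ T x x) :
    ∃ (L : Finset α) (o : α → α), SFam R T L o ∧
      (∀ l ∈ L, ∃ l' ∈ L, l' ≠ l ∧ o l' = o l) ∧
      (R.filter (fun x => ¬ Small R T x)).card + 11 * (L.image o).card ≤ 11 * L.card := by
  -- maximal gain
  let P : ℕ → Prop := fun g => ∃ (L : Finset α) (o : α → α), SFam R T L o ∧
    (L.image o).card + g ≤ L.card
  have hP0 : P 0 := ⟨∅, id, sfam_empty id, by simp⟩
  have hPle : ∀ g, P g → g ≤ R.card := by
    rintro g ⟨L, o, h, hc⟩
    have := Finset.card_le_card h.sub
    omega
  obtain ⟨g, hg, hmax⟩ : ∃ g, P g ∧ ∀ g', P g' → g' ≤ g := by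
    refine ⟨Nat.findGreatest P R.card, Nat.findGreatest_spec (Nat.zero_le _) hP0, ?_⟩
    intro g' hg'
    exact Nat.le_findGreatest (hPle g' hg') hg'
  -- minimal number of leaves
  let Q : ℕ → Prop := fun m => ∃ (L : Finset α) (o : α → α), SFam R T L o ∧
    (L.image o).card + g ≤ L.card ∧ L.card = m
  have hQ : ∃ m, Q m := by
    obtain ⟨L, o, h, hc⟩ := hg
    exact ⟨L.card, L, o, h, hc, rfl⟩
  obtain ⟨L, o, h, hc, hm⟩ := Nat.find_spec hQ
  have hmin : ∀ (L' : Finset α) (o' : α → α), SFam R T L' o' →
      (L'.image o').card + g ≤ L'.card → L.card ≤ L'.card := by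
    intro L' o' h' hc'
    rw [hm]
    exact Nat.find_min' hQ ⟨L', o', h', hc', rfl⟩
  have hceq : (L.image o).card + g = L.card := by
    apply le_antisymm hc
    have h1 : (L.image o).card ≤ L.card := Finset.card_image_le
    have h2 := hmax (L.card - (L.image o).card) ⟨L, o, h, by omega⟩
    omega
  have htwo : ∀ l ∈ L, ∃ l' ∈ L, l' ≠ l ∧ o l' = o l := by
    intro l hl
    by_contra hcon
    push Not at hcon
    have h1 : SFam R T (L.erase l) o := by
      refine ⟨fun x hx => h.sub (Finset.mem_of_mem_erase hx),
        fun x hx => h.mem x (Finset.mem_of_mem_erase hx), fun x hx hh => ?_,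
        fun x hx => h.adj x (Finset.mem_of_mem_erase hx)⟩
      exact h.nmem x (Finset.mem_of_mem_erase hx) (Finset.mem_of_mem_erase hh)
    have h2 : (L.erase l).image o ⊆ (L.image o).erase (o l) := by
      intro y hy
      obtain ⟨x, hx, rfl⟩ := Finset.mem_image.1 hy
      rw [Finset.mem_erase] at hx
      exact Finset.mem_erase.2 ⟨hcon x hx.2 hx.1, Finset.mem_image_of_mem o hx.2⟩
    have h3 := Finset.card_le_card h2
    rw [Finset.card_erase_of_mem (Finset.mem_image_of_mem o hl)] at h3
    have h4 : 0 < (L.image o).card := Finset.card_pos.2 ⟨_, Finset.mem_image_of_mem o hl⟩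
    have h5 := hmin (L.erase l) o h1 (by rw [Finset.card_erase_of_mem hl]; omega)
    rw [Finset.card_erase_of_mem hl] at h5
    have h6 : 0 < L.card := Finset.card_pos.2 ⟨l, hl⟩
    omega
  refine ⟨L, o, h, htwo, ?_⟩
  have hO : 2 * (L.image o).card ≤ L.card := by
    apply Finset.mul_card_image_le_card
    intro c hcO
    obtain ⟨l, hl, rfl⟩ := Finset.mem_image.1 hcO
    obtain ⟨l', hl', hne, he⟩ := htwo l hl
    have : ({l, l'} : Finset α) ⊆ L.filter (fun x => o x = o l) := by
      intro x hx
      rw [Finset.mem_insert, Finset.mem_singleton] at hx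
      rcases hx with rfl | rfl
      · exact Finset.mem_filter.2 ⟨hl, rfl⟩
      · exact Finset.mem_filter.2 ⟨hl', he⟩
    calc 2 = ({l, l'} : Finset α).card := (Finset.card_pair hne.symm).symm
      _ ≤ _ := Finset.card_le_card this
  -- degrees towards the uncovered vertices
  set U := R \ (L ∪ L.image o) with hU
  have hUmem : ∀ x, x ∈ U ↔ x ∈ R ∧ x ∉ L ∧ x ∉ L.image o := by
    intro x; rw [hU, Finset.mem_sdiff, Finset.mem_union, not_or]
  have hdeg : ∀ c ∈ R, (L.erase c).card + (U.filter (fun u => T u c)).card ≤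
      (insert c (L.image o)).card + g := by
    intro c hcR
    have h1 := h.swap hirr hcR
    rw [← hU] at h1
    set S := U.filter (fun u => T u c) with hS
    have hdisj : Disjoint (L.erase c) S := by
      rw [Finset.disjoint_left]
      intro x hx hx'
      exact ((hUmem x).1 (Finset.mem_filter.1 hx').1).2.1 (Finset.mem_of_mem_erase hx)
    have h2 : ((L.erase c ∪ S).image (fun x => if x ∈ S then c else o x)).card ≤
        (insert c (L.image o)).card := by
      apply Finset.card_le_card
      intro y hy
      obtain ⟨x, hx, rfl⟩ := Finset.mem_image.1 hy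
      by_cases hxS : x ∈ S
      · simp [hxS]
      · have hxL : x ∈ L := by
          rcases Finset.mem_union.1 hx with hx | hx
          · exact Finset.mem_of_mem_erase hx
          · exact absurd hx hxS
        simp only [hxS, if_false]
        exact Finset.mem_insert_of_mem (Finset.mem_image_of_mem o hxL)
    have h3 := hmax ((L.erase c).card + S.card - (insert c (L.image o)).card) (by
      by_cases hle : (insert c (L.image o)).card ≤ (L.erase c).card + S.card
      · refine ⟨_, _, h1, ?_⟩
        rw [Finset.card_union_of_disjoint hdisj]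
        omega
      · have : (L.erase c).card + S.card - (insert c (L.image o)).card = 0 := by omega
        rw [this]; exact hP0)
    omega
  have hdO : ∀ c ∈ L.image o, ∀ u ∈ U, ¬ T u c := by
    intro c hcO u hu hT
    obtain ⟨l, hl, rfl⟩ := Finset.mem_image.1 hcO
    have h1 := hdeg (o l) (h.mem l hl)
    rw [Finset.erase_eq_of_notMem (h.nmem l hl), Finset.insert_eq_of_mem hcO] at h1
    have h2 : 0 < (U.filter (fun u => T u (o l))).card :=
      Finset.card_pos.2 ⟨u, Finset.mem_filter.2 ⟨hu, hT⟩⟩
    omega
  have hdU : ∀ c ∈ U, (U.filter (fun u => T u c)).card ≤ 1 := by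
    intro c hcU
    obtain ⟨h1, h2, h3⟩ := (hUmem c).1 hcU
    have h4 := hdeg c h1
    rw [Finset.erase_eq_of_notMem h2, Finset.card_insert_of_notMem h3] at h4
    omega
  have hdL : ∀ c ∈ L, (U.filter (fun u => T u c)).card ≤ 2 := by
    intro c hcL
    have h4 := hdeg c (h.sub hcL)
    have h5 : (insert c (L.image o)).card ≤ (L.image o).card + 1 := Finset.card_insert_le _ _
    rw [Finset.card_erase_of_mem hcL] at h4
    have h6 : 0 < L.card := Finset.card_pos.2 ⟨c, hcL⟩
    omega
  -- counting
  set U1 := U.filter (fun u => ∃ l ∈ L, T u l) with hU1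
  have hcU1 : U1.card ≤ L.card * 2 := by
    calc U1.card ≤ (L.biUnion (fun l => U.filter (fun u => T u l))).card := by
          apply Finset.card_le_card
          intro u hu
          rw [hU1, Finset.mem_filter] at hu
          obtain ⟨hu1, l, hl, hT⟩ := hu
          exact Finset.mem_biUnion.2 ⟨l, hl, Finset.mem_filter.2 ⟨hu1, hT⟩⟩
      _ ≤ _ := Finset.card_biUnion_le_card_mul _ _ _ hdL
  set U2 := U1.biUnion (fun y => U.filter (fun u => T u y)) with hU2
  have hcU2 : U2.card ≤ U1.card * 1 :=
    Finset.card_biUnion_le_card_mul _ _ _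
      (fun y hy => hdU y (Finset.mem_filter.1 hy).1)
  have huniq : ∀ c ∈ U, ∀ a ∈ U, ∀ b ∈ U, T a c → T b c → a = b := by
    intro c hcU a ha b hb hac hbc
    exact Finset.card_le_one.1 (hdU c hcU) a (Finset.mem_filter.2 ⟨ha, hac⟩) b
      (Finset.mem_filter.2 ⟨hb, hbc⟩)
  have hcover : R.filter (fun x => ¬ Small R T x) ⊆ (L ∪ L.image o) ∪ (U1 ∪ U2) := by
    intro x hx
    rw [Finset.mem_filter] at hx
    obtain ⟨hxR, hxS⟩ := hx
    by_cases hxLO : x ∈ L ∪ L.image o
    · exact Finset.mem_union_left _ hxLO
    · apply Finset.mem_union_right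
      have hxU : x ∈ U := by rw [hU, Finset.mem_sdiff]; exact ⟨hxR, hxLO⟩
      by_cases hx1 : x ∈ U1
      · exact Finset.mem_union_left _ hx1
      · apply Finset.mem_union_right
        have hnL : ∀ l ∈ L, ¬ T x l := by
          intro l hl hT
          exact hx1 (Finset.mem_filter.2 ⟨hxU, l, hl, hT⟩)
        unfold Small at hxS
        push Not at hxS
        obtain ⟨⟨y, hyR, hxy⟩, hxS2⟩ := hxS
        have hinU : ∀ z ∈ R, T x z → z ∈ U := by
          intro z hz hT
          rw [hUmem]
          exact ⟨hz, fun hh => hnL z hh hT, fun hh => hdO z hh x hxU hT⟩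
        have hyU := hinU y hyR hxy
        obtain ⟨z, hzR, hyz, hzx⟩ := hxS2 y hyR hxy (fun z hz hT =>
          huniq x hxU z (hinU z hz hT) y hyU (hsym _ _ hT) (hsym _ _ hxy))
        have hzL : z ∈ L := by
          by_contra hzL
          have hzO : z ∉ L.image o := fun hh => hdO z hh y hyU hyz
          have hzU : z ∈ U := (hUmem z).2 ⟨hzR, hzL, hzO⟩
          exact hzx (huniq y hyU z hzU x hxU (hsym _ _ hyz) hxy)
        exact Finset.mem_biUnion.2 ⟨y, Finset.mem_filter.2 ⟨hyU, z, hzL, hyz⟩,
          Finset.mem_filter.2 ⟨hxU, hxy⟩⟩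
  have hfin := Finset.card_le_card hcover
  have e1 := Finset.card_union_le (L ∪ L.image o) (U1 ∪ U2)
  have e2 := Finset.card_union_le L (L.image o)
  have e3 := Finset.card_union_le U1 U2
  omega

end

end Pool.Agent.Star
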