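import Pool.Agent.Star.AbsClean
import Pool.Agent.Star.StarFam

/-!
# Absolute bound: dirty and clean clusters, final count (steps 2, 5, 6, 7)
-/

set_option autoImplicit false

namespace Pool.Agent.Star

open Finset

section Abs

variable {V : Type*} [Fintype V] [DecidableEq V]

/-- The vertices dominated by `F`. -/
def dom (N : V → Finset V) (F : Finset V) : Finset V := F.biUnion N

/-- The reduced closed neighbourhood. -/
def nbr (N : V → Finset V) (F : Finset V) (x : V) : Finset V := N x \ dom N F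

/-- Centres of the reduced graph. -/
def Ctr (N : V → Finset V) (K : ℕ) (F : Finset V) (c : V) : Prop :=
  c ∉ dom N F ∧ (nbr N F c).card = K

/-- `x` and `y` have no common reduced closed neighbour. -/
def Afar (N : V → Finset V) (F : Finset V) (x y : V) : Prop :=
  Disjoint (nbr N F x) (nbr N F y)

/-- A minimal isolating system `X`, `Z`: `Z` contains `F` and `X` is a far family of centres. -/
structure ASys (N : V → Finset V) (K s : ℕ) (F X Z : Finset V) : Prop where
  self : ∀ x, x ∈ N x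
  symm : ∀ x y, x ∈ N y → y ∈ N x
  iso : ∀ D : Finset V, D.card < s → ∃ S, IsStar N K S ∧ ∀ d ∈ D, Disjoint S (N d)
  deg : ∀ v, (nbr N F v).card ≤ K
  sub : F ⊆ Z
  ctr : ∀ x ∈ X, Ctr N K F x
  far : ∀ x ∈ X, ∀ y ∈ X, x ≠ y → Afar N F x y
  isol : ∀ c, Ctr N K F c → ∃ d ∈ X ∪ Z, ¬ Afar N F d c
  M : ∀ Y E : Finset V, (∀ x ∈ Y, Ctr N K F x) → (∀ x ∈ Y, ∀ y ∈ Y, x ≠ y → Afar N F x y) →
    E.card ≤ 2 → Y.card + Z.card + E.card < X.card + Z.card →
    ∃ c, Ctr N K F c ∧ ∀ d ∈ Y ∪ (Z ∪ E), Afar N F d c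
  hs : s ≤ X.card + Z.card

/-- The vertices outside the tiles and outside `dom F`. -/
def Wst (N : V → Finset V) (F X : Finset V) : Finset V :=
  Finset.univ \ (dom N F ∪ X.biUnion (nbr N F))

/-- Direct adjacency of two tiles. -/
def TAdj (N : V → Finset V) (F : Finset V) (x y : V) : Prop :=
  x ≠ y ∧ ∃ u ∈ nbr N F x, ∃ v ∈ nbr N F y, v ∈ N u

/-- `R` is a set of tiles such that the remaining tiles and `Z` kill all centres outside the
tiles. -/
structure Guard (N : V → Finset V) (K : ℕ) (F X Z R : Finset V) : Prop where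
  sub : R ⊆ X
  card : (X \ R).card ≤ (Wst N F X).card
  kill : ∀ c ∈ Wst N F X, Ctr N K F c → ∃ d ∈ Z ∪ (X \ R), ¬ Afar N F d c

variable {N : V → Finset V} {K s : ℕ} {F X Z R : Finset V}

omit [Fintype V] in
lemma mem_nbr {x v : V} : v ∈ nbr N F x ↔ v ∈ N x ∧ v ∉ dom N F := by
  simp [nbr]

lemma mem_Wst {v : V} : v ∈ Wst N F X ↔ v ∉ dom N F ∧ ∀ x ∈ X, v ∉ nbr N F x := by
  simp [Wst, not_or]

omit [Fintype V] in
lemma Afar.symm {x y : V} (h : Afar N F x y) : Afar N F y x := Disjoint.symm h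

omit [Fintype V] in
lemma not_afar {x y v : V} (h1 : v ∈ nbr N F x) (h2 : v ∈ nbr N F y) : ¬ Afar N F x y :=
  fun h => Finset.disjoint_left.1 h h1 h2

namespace ASys

variable (h : ASys N K s F X Z)

include h

omit [Fintype V] in
lemma self_nbr {c : V} (hc : c ∉ dom N F) : c ∈ nbr N F c := mem_nbr.2 ⟨h.self c, hc⟩

omit [Fintype V] in
/-- Any set containing `F` with fewer than `s` elements leaves a centre. -/
lemma alive {D : Finset V} (hF : F ⊆ D) (hD : D.card < s) :
    ∃ c, Ctr N K F c ∧ ∀ d ∈ D, Afar N F d c := by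
  obtain ⟨S, ⟨hS, c, hc, hcN⟩, hd⟩ := h.iso D hD
  have h1 : S ⊆ nbr N F c := by
    intro v hv
    rw [mem_nbr]
    refine ⟨hcN hv, fun hv2 => ?_⟩
    obtain ⟨x, hx, hvx⟩ := Finset.mem_biUnion.1 hv2
    exact Finset.disjoint_left.1 (hd x (hF hx)) hv hvx
  have h2 : S = nbr N F c := Finset.eq_of_subset_of_card_le h1 (by rw [hS]; exact h.deg c)
  refine ⟨c, ⟨(mem_nbr.1 (h1 hc)).2, by rw [← h2, hS]⟩, fun d hdD => ?_⟩
  unfold Afar
  rw [← h2]
  refine ((hd d hdD).mono_right ?_).symm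
  intro v hv
  exact (mem_nbr.1 hv).1

lemma exists_guard : ∃ R, Guard N K F X Z R := by
  classical
  have hch : ∀ c : V, ∃ x, (Ctr N K F c ∧ (∀ d ∈ Z, Afar N F d c)) →
      x ∈ X ∧ ¬ Afar N F x c := by
    intro c
    by_cases hc : Ctr N K F c ∧ ∀ d ∈ Z, Afar N F d c
    · obtain ⟨d, hd, hd2⟩ := h.isol c hc.1
      rcases Finset.mem_union.1 hd with hd | hd
      · exact ⟨d, fun _ => ⟨hd, hd2⟩⟩
      · exact absurd (hc.2 d hd) hd2
    · exact ⟨c, fun h => absurd h hc⟩
  choose φ hφ using hch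
  let P := ((Wst N F X).filter (fun c => Ctr N K F c ∧ ∀ d ∈ Z, Afar N F d c)).image φ
  have hP : P ⊆ X := by
    intro x hx
    obtain ⟨c, hc, rfl⟩ := Finset.mem_image.1 hx
    exact (hφ c (Finset.mem_filter.1 hc).2).1
  have hXP : X \ (X \ P) = P := by
    rw [Finset.sdiff_sdiff_eq_self hP]
  refine ⟨X \ P, Finset.sdiff_subset, ?_, ?_⟩
  · rw [hXP]
    exact Finset.card_image_le.trans (Finset.card_filter_le _ _)
  · intro c hc hcc
    by_cases hz : ∀ d ∈ Z, Afar N F d c
    · refine ⟨φ c, ?_, (hφ c ⟨hcc, hz⟩).2⟩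
      rw [hXP]
      exact Finset.mem_union_right _ (Finset.mem_image.2 ⟨c, Finset.mem_filter.2
        ⟨hc, hcc, hz⟩, rfl⟩)
    · push Not at hz
      obtain ⟨d, hd, hd2⟩ := hz
      exact ⟨d, Finset.mem_union_left _ hd, hd2⟩

/-- Location of the survivors. -/
lemma loc {D : Finset V} {c : V} (hfar : ∀ d ∈ D, Afar N F d c)
    {v : V} (hv : v ∈ nbr N F c) :
    v ∈ Wst N F X ∨ ∃ x ∈ X, x ∉ D ∧ v ∈ nbr N F x := by
  by_cases hW : v ∈ Wst N F X
  · exact Or.inl hW
  · right
    rw [mem_Wst] at hW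
    push Not at hW
    obtain ⟨x, hx, hvx⟩ := hW (mem_nbr.1 hv).2
    exact ⟨x, hx, fun hxD => not_afar hvx hv (hfar x hxD), hvx⟩

end ASys

/-! ### small clusters -/

section Cluster

variable {α : Type*} [DecidableEq α]

open Classical in
/-- The cluster of `x`. -/
noncomputable def clus (R : Finset α) (T : α → α → Prop) (x : α) : Finset α :=
  insert x (R.filter (fun y => T x y))

open Classical in
/-- The small clusters. -/
noncomputable def smallC (R : Finset α) (T : α → α → Prop) : Finset (Finset α) :=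
  (R.filter (fun x => Small R T x)).image (clus R T)

variable {R : Finset α} {T : α → α → Prop}

lemma clus_small (hsym : ∀ x y, T x y → T y x) (hirr : ∀ x, ¬ T x x) {x : α} (hx : x ∈ R)
    (hs : Small R T x) :
    (clus R T x).card ≤ 2 ∧ ∀ y ∈ clus R T x, y ∈ R ∧ Small R T y ∧ clus R T y = clus R T x := by
  classical
  rcases hs with hs | ⟨y0, hy0, hT, h1, h2⟩
  · have he : clus R T x = {x} := by
      unfold clus
      rw [Finset.filter_false_of_mem (fun y hy => hs y hy)]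
      rfl
    rw [he]
    refine ⟨by simp, ?_⟩
    intro y hy
    rw [Finset.mem_singleton] at hy
    subst hy
    exact ⟨hx, Or.inl hs, he⟩
  · have he : clus R T x = {x, y0} := by
      unfold clus
      congr 1
      ext z
      simp only [Finset.mem_filter, Finset.mem_singleton]
      constructor
      · rintro ⟨hz1, hz2⟩; exact h1 z hz1 hz2
      · rintro rfl; exact ⟨hy0, hT⟩
    have he2 : clus R T y0 = {x, y0} := by
      unfold clus
      have : R.filter (fun z => T y0 z) = {x} := by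
        ext z
        simp only [Finset.mem_filter, Finset.mem_singleton]
        constructor
        · rintro ⟨hz1, hz2⟩; exact h2 z hz1 hz2
        · rintro rfl; exact ⟨hx, hsym _ _ hT⟩
      rw [this]
      exact Finset.pair_comm y0 x
    rw [he]
    refine ⟨Finset.card_le_two, ?_⟩
    intro y hy
    rcases Finset.mem_insert.1 hy with rfl | hy
    · exact ⟨hx, Or.inr ⟨y0, hy0, hT, h1, h2⟩, he⟩
    · rw [Finset.mem_singleton] at hy
      subst hy
      exact ⟨hy0, Or.inr ⟨x, hx, hsym _ _ hT, h2, h1⟩, he2⟩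

lemma smallC_mem (hsym : ∀ x y, T x y → T y x) (hirr : ∀ x, ¬ T x x) {b : Finset α}
    (hb : b ∈ smallC R T) :
    b.card ≤ 2 ∧ b.Nonempty ∧ ∀ x ∈ b, x ∈ R ∧ Small R T x ∧ clus R T x = b := by
  classical
  unfold smallC at hb
  obtain ⟨x, hx, rfl⟩ := Finset.mem_image.1 hb
  rw [Finset.mem_filter] at hx
  obtain ⟨h1, h2⟩ := clus_small hsym hirr hx.1 hx.2
  exact ⟨h1, ⟨x, Finset.mem_insert_self _ _⟩, h2⟩

lemma smallC_closed (hsym : ∀ x y, T x y → T y x) (hirr : ∀ x, ¬ T x x) {b : Finset α}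
    (hb : b ∈ smallC R T) {x y : α} (hx : x ∈ b) (hy : y ∈ R) (hT : T x y) : y ∈ b := by
  classical
  obtain ⟨-, -, h⟩ := smallC_mem hsym hirr hb
  rw [← (h x hx).2.2]
  exact Finset.mem_insert_of_mem (Finset.mem_filter.2 ⟨hy, hT⟩)

lemma smallC_eq (hsym : ∀ x y, T x y → T y x) (hirr : ∀ x, ¬ T x x) {b b' : Finset α}
    (hb : b ∈ smallC R T) (hb' : b' ∈ smallC R T) {x : α} (hx : x ∈ b) (hx' : x ∈ b') :
    b = b' := by
  obtain ⟨-, -, h⟩ := smallC_mem hsym hirr hb
  obtain ⟨-, -, h'⟩ := smallC_mem hsym hirr hb'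
  rw [← (h x hx).2.2, (h' x hx').2.2]

open Classical in
lemma smallC_card (hsym : ∀ x y, T x y → T y x) (hirr : ∀ x, ¬ T x x) :
    (R.filter (fun x => Small R T x)).card ≤ 2 * (smallC R T).card := by
  have h1 : R.filter (fun x => Small R T x) ⊆ (smallC R T).biUnion id := by
    intro x hx
    refine Finset.mem_biUnion.2 ⟨clus R T x, Finset.mem_image_of_mem _ hx, ?_⟩
    exact Finset.mem_insert_self _ _
  calc (R.filter (fun x => Small R T x)).card ≤ ((smallC R T).biUnion id).card :=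
        Finset.card_le_card h1
    _ ≤ ∑ b ∈ smallC R T, (id b).card := Finset.card_biUnion_le
    _ ≤ ∑ b ∈ smallC R T, 2 := Finset.sum_le_sum (fun b hb => (smallC_mem hsym hirr hb).1)
    _ = 2 * (smallC R T).card := by rw [Finset.sum_const, smul_eq_mul, mul_comm]

end Cluster

omit [Fintype V] in
lemma TAdj.symm' (hsym : ∀ x y, x ∈ N y → y ∈ N x) (x y : V) (h : TAdj N F x y) :
    TAdj N F y x := by
  obtain ⟨h1, u, hu, v, hv, huv⟩ := h
  exact ⟨h1.symm, v, hv, u, hu, hsym _ _ huv⟩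

omit [Fintype V] in
lemma TAdj.irr (x : V) : ¬ TAdj N F x x := fun h => h.1 rfl

/-- A block adjacent to `Wst`. -/
def Dirty (N : V → Finset V) (F X : Finset V) (b : Finset V) : Prop :=
  ∃ x ∈ b, ∃ v ∈ nbr N F x, ∃ w ∈ Wst N F X, v ∈ N w

namespace ASys

variable (h : ASys N K s F X Z)

include h

open Classical in
/-- **Step 5.** -/
lemma dirty_card (hK : 1 ≤ K) (hR : R ⊆ X) :
    ((smallC R (TAdj N F)).filter (fun b => Dirty N F X b)).card + s ≤
      (Wst N F X).card + X.card + Z.card := by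
  set T := TAdj N F with hT
  have hsym : ∀ x y, T x y → T y x := TAdj.symm' h.symm
  have hirr : ∀ x, ¬ T x x := TAdj.irr
  set B := (smallC R T).filter (fun b => Dirty N F X b) with hB
  by_cases hB0 : B = ∅
  · rw [hB0, Finset.card_empty]
    have := h.hs
    omega
  have hne : Nonempty V := by
    obtain ⟨b, hb⟩ := Finset.nonempty_iff_ne_empty.2 hB0
    obtain ⟨x, -, -⟩ := (Finset.mem_filter.1 hb).2
    exact ⟨x⟩
  have hch : ∀ b, b ∈ B → ∃ x ∈ b, ∃ v ∈ nbr N F x, ∃ w ∈ Wst N F X, v ∈ N w :=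
    fun b hb => (Finset.mem_filter.1 hb).2
  choose! p hp hp2 using hch
  have hBs : ∀ b ∈ B, b ∈ smallC R T := fun b hb => (Finset.mem_filter.1 hb).1
  have hpR : ∀ b ∈ B, p b ∈ R := fun b hb =>
    ((smallC_mem hsym hirr (hBs b hb)).2.2 _ (hp b hb)).1
  have hinj : Set.InjOn p (B : Set (Finset V)) := by
    intro b hb b' hb' he
    exact smallC_eq hsym hirr (hBs b hb) (hBs b' hb') (hp b hb) (he ▸ hp b' hb')
  have hPX : B.image p ⊆ X := by
    intro x hx
    obtain ⟨b, hb, rfl⟩ := Finset.mem_image.1 hx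
    exact hR (hpR b hb)
  have hcard : (X \ B.image p).card + B.card = X.card := by
    rw [← Finset.card_image_of_injOn hinj]
    exact Finset.card_sdiff_add_card_eq_card hPX
  by_contra hcon
  push Not at hcon
  have hD : (Z ∪ (Wst N F X ∪ (X \ B.image p))).card < s := by
    have h1 := Finset.card_union_le Z (Wst N F X ∪ (X \ B.image p))
    have h2 := Finset.card_union_le (Wst N F X) (X \ B.image p)
    omega
  obtain ⟨c, hc, hfar⟩ := h.alive (h.sub.trans Finset.subset_union_left) hD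
  have hfW : ∀ w ∈ Wst N F X, Afar N F w c := fun w hw =>
    hfar w (Finset.mem_union_right _ (Finset.mem_union_left _ hw))
  have hfX : ∀ x ∈ X, x ∉ B.image p → Afar N F x c := fun x hx hx2 =>
    hfar x (Finset.mem_union_right _ (Finset.mem_union_right _ (Finset.mem_sdiff.2 ⟨hx, hx2⟩)))
  have key : ∀ v ∈ nbr N F c, ∃ b ∈ B, v ∈ nbr N F (p b) := by
    intro v hv
    rcases h.loc hfar hv with hW | ⟨x, hx, hxD, hvx⟩
    · exact absurd (hfW v hW) (not_afar (h.self_nbr (mem_nbr.1 hv).2) hv)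
    · by_cases hxP : x ∈ B.image p
      · obtain ⟨b, hb, rfl⟩ := Finset.mem_image.1 hxP
        exact ⟨b, hb, hvx⟩
      · exact absurd (hfX x hx hxP) (not_afar hvx hv)
  obtain ⟨b, hb, hcb⟩ := key c (h.self_nbr hc.1)
  have hsub : nbr N F c ⊆ nbr N F (p b) := by
    intro v hv
    obtain ⟨b', hb', hvb⟩ := key v hv
    by_cases hpp : p b = p b'
    · rw [hpp]; exact hvb
    · have hT' : T (p b) (p b') := ⟨hpp, c, hcb, v, hvb, (mem_nbr.1 hv).1⟩
      have h1 := smallC_closed hsym hirr (hBs b hb) (hp b hb) (hpR b' hb') hT'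
      have h2 := smallC_eq hsym hirr (hBs b hb) (hBs b' hb') h1 (hp b' hb')
      rw [h2]; exact hvb
  have heq : nbr N F c = nbr N F (p b) := Finset.eq_of_subset_of_card_le hsub
    (by rw [hc.2, (h.ctr _ (hR (hpR b hb))).2])
  obtain ⟨v, hv, w, hw, hvw⟩ := hp2 b hb
  refine not_afar (F := F) (v := v) ?_ ?_ (hfW w hw)
  · exact mem_nbr.2 ⟨hvw, (mem_nbr.1 hv).2⟩
  · rw [heq]; exact hv

/-- **Step 6 (2).** -/
lemma touch (hK : 1 ≤ K) (hG : Guard N K F X Z R) {b1 b2 : Finset V}
    (hb1 : b1 ∈ smallC R (TAdj N F)) (hb2 : b2 ∈ smallC R (TAdj N F))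
    (hc1 : ¬ Dirty N F X b1) (hc2 : ¬ Dirty N F X b2) {v : V}
    (ht1 : ¬ Disjoint (N v) (b1.biUnion (nbr N F)))
    (ht2 : ¬ Disjoint (N v) (b2.biUnion (nbr N F))) : b1 = b2 := by
  have hsym : ∀ x y, TAdj N F x y → TAdj N F y x := TAdj.symm' h.symm
  have hirr : ∀ x, ¬ TAdj N F x x := TAdj.irr
  by_contra hne
  rw [Finset.not_disjoint_iff] at ht1 ht2
  obtain ⟨v1, hv1, hv1'⟩ := ht1
  obtain ⟨v2, hv2, hv2'⟩ := ht2
  obtain ⟨p1, hp1, hvp1⟩ := Finset.mem_biUnion.1 hv1'
  obtain ⟨p2, hp2, hvp2⟩ := Finset.mem_biUnion.1 hv2'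
  have hpR1 : p1 ∈ R := ((smallC_mem hsym hirr hb1).2.2 _ hp1).1
  have hpR2 : p2 ∈ R := ((smallC_mem hsym hirr hb2).2.2 _ hp2).1
  have hpne : p1 ≠ p2 := by
    rintro rfl
    exact hne (smallC_eq hsym hirr hb1 hb2 hp1 hp2)
  have hcY : ((X.erase p1).erase p2).card + 2 = X.card := by
    have h1 := Finset.card_erase_add_one (hG.sub hpR1)
    have h2 := Finset.card_erase_add_one (Finset.mem_erase.2 ⟨hpne.symm, hG.sub hpR2⟩)
    omega
  obtain ⟨c, hc, hfar⟩ := h.M ((X.erase p1).erase p2) {v}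
    (fun x hx => h.ctr x (Finset.mem_of_mem_erase (Finset.mem_of_mem_erase hx)))
    (fun x hx y hy => h.far x (Finset.mem_of_mem_erase (Finset.mem_of_mem_erase hx)) y
      (Finset.mem_of_mem_erase (Finset.mem_of_mem_erase hy)))
    (by simp) (by rw [Finset.card_singleton]; omega)
  have hfX : ∀ x ∈ X, x ≠ p1 → x ≠ p2 → Afar N F x c := fun x hx h1 h2 =>
    hfar x (Finset.mem_union_left _ (Finset.mem_erase.2 ⟨h2, Finset.mem_erase.2 ⟨h1, hx⟩⟩))
  have hfZ : ∀ x ∈ Z, Afar N F x c := fun x hx =>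
    hfar x (Finset.mem_union_right _ (Finset.mem_union_left _ hx))
  have hfv : Afar N F v c :=
    hfar v (Finset.mem_union_right _ (Finset.mem_union_right _ (Finset.mem_singleton_self v)))
  have key : ∀ u ∈ nbr N F c, u ∈ Wst N F X ∨ u ∈ nbr N F p1 ∨ u ∈ nbr N F p2 := by
    intro u hu
    rcases h.loc hfar hu with hW | ⟨x, hx, hxD, hux⟩
    · exact Or.inl hW
    · by_cases e1 : x = p1
      · subst e1; exact Or.inr (Or.inl hux)
      · by_cases e2 : x = p2
        · subst e2; exact Or.inr (Or.inr hux)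
        · exact absurd (hfX x hx e1 e2) (not_afar hux hu)
  -- the two symmetric cases
  have main : ∀ {b b' : Finset V} {p p' u : V}, b ∈ smallC R (TAdj N F) →
      b' ∈ smallC R (TAdj N F) → ¬ Dirty N F X b → b ≠ b' → p ∈ b → p' ∈ b' → p' ∈ R → p ∈ R →
      u ∈ N v → u ∈ nbr N F p → c ∈ nbr N F p →
      (∀ u ∈ nbr N F c, u ∈ Wst N F X ∨ u ∈ nbr N F p ∨ u ∈ nbr N F p') → False := by
    intro b b' p p' u hb hb' hcl hbb hp hp' hpR' hpR huv hup hcp hk
    have hsub : nbr N F c ⊆ nbr N F p := by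
      intro w hw
      rcases hk w hw with h1 | h1 | h1
      · exact absurd ⟨p, hp, c, hcp, w, h1, h.symm _ _ (mem_nbr.1 hw).1⟩ hcl
      · exact h1
      · by_cases hpp : p = p'
        · rw [hpp]; exact h1
        · have hT' : TAdj N F p p' := ⟨hpp, c, hcp, w, h1, (mem_nbr.1 hw).1⟩
          exact absurd (smallC_eq hsym hirr hb hb'
            (smallC_closed hsym hirr hb hp hpR' hT') hp') hbb
    have heq : nbr N F c = nbr N F p := Finset.eq_of_subset_of_card_le hsub
      (by rw [hc.2, (h.ctr _ (hG.sub hpR)).2])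
    refine not_afar (F := F) (v := u) (mem_nbr.2 ⟨huv, (mem_nbr.1 hup).2⟩) ?_ hfv
    rw [heq]; exact hup
  rcases key c (h.self_nbr hc.1) with h1 | h1 | h1
  · obtain ⟨d, hd, hd2⟩ := hG.kill c h1 hc
    rcases Finset.mem_union.1 hd with hd | hd
    · exact hd2 (hfZ d hd)
    · rw [Finset.mem_sdiff] at hd
      exact hd2 (hfX d hd.1 (fun hh => hd.2 (hh ▸ hpR1)) (fun hh => hd.2 (hh ▸ hpR2)))
  · exact main hb1 hb2 hc1 hne hp1 hp2 hpR2 hpR1 hv1 hvp1 h1 key
  · exact main hb2 hb1 hc2 (Ne.symm hne) hp2 hp1 hpR1 hpR2 hv2 hvp2 h1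
      (fun u hu => (key u hu).imp id Or.symm)

open Classical in
/-- **Step 6.** -/
lemma clean_card (hK : 1 ≤ K) (hG : Guard N K F X Z R)
    (hconn : ∀ S : Finset V, S.Nonempty → S ≠ Finset.univ → ∃ x ∈ S, ∃ y ∉ S, y ∈ N x)
    (hex : ∀ b ∈ smallC R (TAdj N F), ¬ Dirty N F X b → b.biUnion (nbr N F) ≠ Finset.univ) :
    ((smallC R (TAdj N F)).filter (fun b => ¬ Dirty N F X b)).card + (K - 1) * s + R.card ≤
      Fintype.card V := by
  set T := TAdj N F with hT
  have hsym : ∀ x y, T x y → T y x := TAdj.symm' h.symm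
  have hirr : ∀ x, ¬ T x x := TAdj.irr
  set B := (smallC R T).filter (fun b => ¬ Dirty N F X b) with hB
  have hBs : ∀ b ∈ B, b ∈ smallC R T := fun b hb => (Finset.mem_filter.1 hb).1
  have hBc : ∀ b ∈ B, ¬ Dirty N F X b := fun b hb => (Finset.mem_filter.1 hb).2
  have hBR : B.biUnion id ⊆ R := by
    intro x hx
    obtain ⟨b, hb, hxb⟩ := Finset.mem_biUnion.1 hx
    exact ((smallC_mem hsym hirr (hBs b hb)).2.2 x hxb).1
  by_cases hVe : Nonempty V
  swap
  · have hs0 : s = 0 := by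
      by_contra hs
      obtain ⟨S, ⟨-, c, -, -⟩, -⟩ := h.iso ∅ (by rw [Finset.card_empty]; omega)
      exact hVe ⟨c⟩
    have hR0 : R = ∅ := by
      rw [Finset.eq_empty_iff_forall_notMem]
      intro x _
      exact hVe ⟨x⟩
    have hB0 : B = ∅ := by
      rw [Finset.eq_empty_iff_forall_notMem]
      intro b hb
      obtain ⟨x, -⟩ := (smallC_mem hsym hirr (hBs b hb)).2.1
      exact hVe ⟨x⟩
    rw [hs0, hR0, hB0]; simp
  have hch : ∀ b, b ∈ B → ∃ p y g, p ∈ b ∧ y ∈ nbr N F p ∧ g ∈ N y ∧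
      g ∉ b.biUnion (nbr N F) := by
    intro b hb
    obtain ⟨x0, hx0⟩ := (smallC_mem hsym hirr (hBs b hb)).2.1
    have hne : (b.biUnion (nbr N F)).Nonempty := by
      have hx0R : x0 ∈ R := hBR (Finset.mem_biUnion.2 ⟨b, hb, hx0⟩)
      exact ⟨x0, Finset.mem_biUnion.2 ⟨x0, hx0, h.self_nbr (h.ctr _ (hG.sub hx0R)).1⟩⟩
    obtain ⟨y, hy, g, hg, hgy⟩ := hconn _ hne (hex b (hBs b hb) (hBc b hb))
    obtain ⟨p, hp, hyp⟩ := Finset.mem_biUnion.1 hy
    exact ⟨p, y, g, hp, hyp, hgy, hg⟩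
  choose! p y g hp hy hg hgV using hch
  have hRB : (R \ B.biUnion id) ∪ B.biUnion id = R := Finset.sdiff_union_of_subset hBR
  have hD : CleanData N K s (R \ B.biUnion id) B (nbr N F) p y g := by
    refine ⟨h.self, h.symm, h.iso, ?_, ?_, ?_, ?_, ?_, hp, hy, hg, ?_, ?_⟩
    · intro x _ v hv
      exact (mem_nbr.1 hv).1
    · intro x hx
      rw [hRB] at hx
      exact (h.ctr x (hG.sub hx)).2
    · intro x hx z hz hxz
      rw [hRB] at hx hz
      exact h.far x (hG.sub hx) z (hG.sub hz) hxz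
    · intro b hb
      rw [Finset.disjoint_left]
      intro x hx hxb
      exact (Finset.mem_sdiff.1 hx).2 (Finset.mem_biUnion.2 ⟨b, hb, hxb⟩)
    · intro b hb b' hb' hne
      rw [Finset.disjoint_left]
      intro x hx hx'
      exact hne (smallC_eq hsym hirr (hBs b hb) (hBs b' hb') hx hx')
    · intro b hb x hx hgx
      rw [hRB] at hx
      by_cases hxb : x ∈ b
      · exact hgV b hb (Finset.mem_biUnion.2 ⟨x, hxb, hgx⟩)
      · refine hxb (smallC_closed hsym hirr (hBs b hb) (hp b hb) hx ?_)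
        refine ⟨?_, y b, hy b hb, g b, hgx, hg b hb⟩
        intro hpx
        exact hxb (hpx ▸ hp b hb)
    · intro v b hb b' hb' h1 h2
      exact h.touch hK hG (hBs b hb) (hBs b' hb') (hBc b hb) (hBc b' hb') h1 h2
  have hcount := hD.count hK
  have hsum : (R \ B.biUnion id).card + ∑ b ∈ B, b.card = R.card := by
    have h1 : ∑ b ∈ B, b.card = (B.biUnion id).card := by
      rw [Finset.card_biUnion (fun b hb b' hb' hne => ?_)]
      · rfl
      · show Disjoint _ _
        rw [Finset.disjoint_left]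
        intro x hx hx'
        exact hne (smallC_eq hsym hirr (hBs b hb) (hBs b' hb') hx hx')
    rw [h1]
    exact Finset.card_sdiff_add_card_eq_card hBR
  omega

open Classical in
/-- **Step 7.** -/
theorem final (hK : 1 ≤ K)
    (hconn : ∀ S : Finset V, S.Nonempty → S ≠ Finset.univ → ∃ x ∈ S, ∃ y ∉ S, y ∈ N x)
    (hW : (Wst N F X).card + 3 * F.card + 3 * (K * s) ≤ 3 * Fintype.card V)
    (hZ : Z.card + K * s ≤ Fintype.card V)
    (step3 : ∀ R, Guard N K F X Z R → ∀ L o, SFam R (TAdj N F) L o →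
      (∀ l ∈ L, ∃ l' ∈ L, l' ≠ l ∧ o l' = o l) → L.card ≤ (L.image o).card + 2 * (Wst N F X).card) :
    (86 * K + 1) * s ≤ 86 * Fintype.card V ∨ (Fintype.card V = K ∧ s = 1) ∨
      (Fintype.card V = 2 * K ∧ s = 2) := by
  obtain ⟨R, hG⟩ := h.exists_guard
  have hsym : ∀ x y, TAdj N F x y → TAdj N F y x := TAdj.symm' h.symm
  have hirr : ∀ x, ¬ TAdj N F x x := TAdj.irr
  have e1 : (86 * K + 1) * s = 86 * (K * s) + s := by ring
  by_cases hex : ∀ b ∈ smallC R (TAdj N F), ¬ Dirty N F X b → b.biUnion (nbr N F) ≠ Finset.univ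
  · left
    have h1 := h.dirty_card hK hG.sub
    have h2 := h.clean_card hK hG hconn hex
    obtain ⟨L, o, hL, hL2, hL3⟩ := exists_sfam R (TAdj N F) hsym hirr
    have h3 := step3 R hG L o hL hL2
    have h4 := smallC_card (R := R) hsym hirr
    have h5 : (R.filter (fun x => Small R (TAdj N F) x)).card +
        (R.filter (fun x => ¬ Small R (TAdj N F) x)).card = R.card :=
      Finset.card_filter_add_card_filter_not _
    have h6 : ((smallC R (TAdj N F)).filter (fun b => Dirty N F X b)).card +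
        ((smallC R (TAdj N F)).filter (fun b => ¬ Dirty N F X b)).card =
        (smallC R (TAdj N F)).card := Finset.card_filter_add_card_filter_not _
    have h7 : (X \ R).card + R.card = X.card := Finset.card_sdiff_add_card_eq_card hG.sub
    have h8 := hG.card
    have h9 := h.hs
    have h10 : (K - 1) * s + s = K * s := by
      obtain ⟨e, he⟩ : ∃ e, K = e + 1 := ⟨K - 1, by omega⟩
      rw [he]; simp; ring
    rw [e1]
    omega
  · push Not at hex
    obtain ⟨b, hb, -, hbu⟩ := hex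
    obtain ⟨hb2, hbne, hb3⟩ := smallC_mem hsym hirr hb
    have hcard : Fintype.card V = K * b.card := by
      rw [← Finset.card_univ, ← hbu, Finset.card_biUnion]
      · rw [Finset.sum_congr rfl (fun x hx => (h.ctr x (hG.sub (hb3 x hx).1)).2), Finset.sum_const,
          smul_eq_mul, mul_comm]
      · intro x hx z hz hxz
        exact h.far x (hG.sub (hb3 x hx).1) z (hG.sub (hb3 z hz).1) hxz
    have hpos := Finset.card_pos.2 hbne
    have hKs : K * s ≤ K * b.card := by omega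
    have hsb : s ≤ b.card := Nat.le_of_mul_le_mul_left hKs (by omega)
    rw [hcard, e1]
    have hb12 : b.card = 1 ∨ b.card = 2 := by omega
    rcases hb12 with hb1 | hb1
    · rw [hb1] at hsb ⊢
      rcases Nat.lt_or_ge s 1 with hs | hs
      · left
        have : s = 0 := by omega
        subst this; simp
      · right; left
        exact ⟨by ring, by omega⟩
    · rw [hb1] at hsb ⊢
      rcases Nat.lt_or_ge s 2 with hs | hs
      · left
        rcases Nat.lt_or_ge s 1 with hs | hs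
        · have : s = 0 := by omega
          subst this; simp
        · have : s = 1 := by omega
          subst this; omega
      · right; right
        exact ⟨by ring, by omega⟩

end ASys

end Abs

end Pool.Agent.Star
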