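import Pool.Agent.Star.AbsFin
import Pool.Agent.StarAbs.Count

/-!
# Absolute bound: step 3 (the exchange process) in the form used by `ASys.final`
-/

set_option autoImplicit false

namespace Pool.Agent.Star

open Finset

variable {V : Type*} [Fintype V] [DecidableEq V]
variable {N : V → Finset V} {K s : ℕ} {F X Z R : Finset V}

lemma sdiff_dom_eq_Wst : (univ \ dom N F) \ X.biUnion (nbr N F) = Wst N F X := by
  ext v
  simp [Wst, not_or]

/-- The system as a `StarAbs.Sys`. -/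
lemma ASys.toSys (h : ASys N K s F X Z) (hG : Guard N K F X Z R) :
    StarAbs.Sys K (nbr N F) (univ \ dom N F) X Z (X \ R) where
  sub := by
    intro x v hv
    exact mem_sdiff.2 ⟨mem_univ _, (mem_nbr.1 hv).2⟩
  self := by
    intro x hx
    exact h.self_nbr (mem_sdiff.1 hx).2
  sym := by
    intro x y hxy hy
    exact mem_nbr.2 ⟨h.symm _ _ (mem_nbr.1 hxy).1, (mem_sdiff.1 hy).2⟩
  XC := by
    intro x hx
    obtain ⟨h1, h2⟩ := h.ctr x hx
    exact ⟨mem_sdiff.2 ⟨mem_univ _, h1⟩, h2⟩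
  disj := h.far
  PhiX := sdiff_subset
  guard := by
    intro c hc hcK hcX
    have hcW : c ∈ Wst N F X := by
      rw [← sdiff_dom_eq_Wst]
      exact mem_sdiff.2 ⟨hc, hcX⟩
    obtain ⟨d, hd, hd2⟩ := hG.kill c hcW ⟨(mem_sdiff.1 hc).2, hcK⟩
    rcases mem_union.1 hd with hd | hd
    · exact Or.inr ⟨d, hd, hd2⟩
    · exact Or.inl ⟨d, hd, hd2⟩
  M := by
    intro Y E hY hYd hE hlt
    obtain ⟨c, hc, hfar⟩ := h.M Y E (fun y hy => ⟨(mem_sdiff.1 (hY y hy).1).2, (hY y hy).2⟩)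
      hYd hE (by omega)
    refine ⟨c, mem_sdiff.2 ⟨mem_univ _, hc.1⟩, hc.2, ?_, ?_, ?_⟩
    · intro y hy
      exact hfar y (mem_union_left _ hy)
    · intro z hz
      exact hfar z (mem_union_right _ (mem_union_left _ hz))
    · intro e he
      exact hfar e (mem_union_right _ (mem_union_right _ he))

/-- **Step 3.** -/
theorem ASys.step3 (h : ASys N K s F X Z) (hG : Guard N K F X Z R) {L : Finset V}
    {o : V → V} (hL : SFam R (TAdj N F) L o) :
    L.card ≤ (L.image o).card + 2 * (Wst N F X).card := by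
  have hch : ∀ l, l ∈ L → ∃ u v, u ∈ nbr N F l ∧ v ∈ nbr N F (o l) ∧ v ∈ N u := by
    intro l hl
    obtain ⟨-, u, hu, v, hv, huv⟩ := hL.adj l hl
    exact ⟨u, v, hu, hv, huv⟩
  choose! y g hy hg hyg using hch
  have hXR : X \ (X \ R) = R := Finset.sdiff_sdiff_eq_self hG.sub
  have hD : StarAbs.Sys.Data (nbr N F) (X \ (X \ R)) L o g y := by
    rw [hXR]
    refine ⟨hL.sub, hL.mem, hL.nmem, hg, hy, ?_⟩
    intro l hl
    exact mem_nbr.2 ⟨h.symm _ _ (hyg l hl), (mem_nbr.1 (hy l hl)).2⟩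
  have := (h.toSys hG).theoremS hD
  rwa [sdiff_dom_eq_Wst] at this

end Pool.Agent.Star
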