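import Pool.Agent.Star.AbsStart
import Pool.Agent.Star.AbsS3

/-!
# The absolute isolation bound for closed-neighbourhood systems
-/

set_option autoImplicit false

namespace Pool.Agent.Star

open Finset

variable {V : Type*} [Fintype V] [DecidableEq V]

/-- **Theorem ABS** (closed-neighbourhood form).  If every set of fewer than `s` vertices leaves a
`K`-star, then `s ≤ 86 (n - K s)`, unless `n = K, s = 1` or `n = 2K, s = 2`. -/
theorem abs_main {N : V → Finset V} {K s : ℕ} (hs : ∀ x, x ∈ N x)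
    (hsym : ∀ x y, x ∈ N y → y ∈ N x) (hK : 2 ≤ K)
    (hconn : ∀ S : Finset V, S.Nonempty → S ≠ Finset.univ → ∃ x ∈ S, ∃ y ∉ S, y ∈ N x)
    (iso : ∀ D : Finset V, D.card < s → ∃ S, IsStar N K S ∧ ∀ d ∈ D, Disjoint S (N d)) :
    (86 * K + 1) * s ≤ 86 * Fintype.card V ∨ (Fintype.card V = K ∧ s = 1) ∨
      (Fintype.card V = 2 * K ∧ s = 2) := by
  obtain ⟨F, X, Z, h, h1, h2⟩ := exists_system hs hsym hK iso
  exact h.final (by omega) hconn h1 h2 (fun R hG L o hL _ => h.step3 hG hL)

end Pool.Agent.Star
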