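import Pool.Agent.Star.AbsFin

/-!
# Absolute bound: vertex-disjoint stars of tiles (step 3)
-/

set_option autoImplicit false

namespace Pool.Agent.Star

open Finset

section AbsS

variable {V : Type*} [Fintype V] [DecidableEq V] {N : V → Finset V} {K s : ℕ}
  {F X Z R : Finset V}

/-- `nbr (x a)` meets the tile of `b`. -/
def Arc (N : V → Finset V) (F : Finset V) (x : V → V) (a b : V) : Prop :=
  ∃ v ∈ nbr N F (x a), v ∈ nbr N F b

/-- Representatives: `x i` is a centre in the tile of `i`. -/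
structure Rep (N : V → Finset V) (K : ℕ) (F X R : Finset V) (x : V → V) : Prop where
  ctr : ∀ i ∈ X, Ctr N K F (x i)
  mem : ∀ i ∈ X, x i ∈ nbr N F i
  fix : ∀ i ∈ X, i ∉ R → x i = i

/-- The tile of `j` contains a vertex covered by no representative. -/
def Bad (N : V → Finset V) (F X : Finset V) (x : V → V) (j : V) : Prop :=
  ∃ v ∈ nbr N F j, ∀ i ∈ X, v ∉ nbr N F (x i)

namespace ASys

variable (h : ASys N K s F X Z)

include h

lemma surv (hG : Guard N K F X Z R) {x : V → V} (hx : Rep N K F X R x) {J E : Finset V}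
    (hJ : J ⊆ R) (hfar : ∀ i ∈ X, i ∉ J → ∀ i' ∈ X, i' ∉ J → i ≠ i' → Afar N F (x i) (x i'))
    (hE : E.card ≤ 2) (hEJ : E.card + 1 ≤ J.card) {j : V}
    (hcov : ∀ i ∈ J, i ≠ j → ∃ e ∈ E, e ∈ nbr N F i) :
    ∃ c, Ctr N K F c ∧ c ∈ nbr N F j ∧ (∀ i ∈ X, i ∉ J → Afar N F (x i) c) ∧
      (∀ e ∈ E, Afar N F e c) := by
  classical
  have hJX : J ⊆ X := hJ.trans hG.sub
  have hY : ((X \ J).image x).card + J.card ≤ X.card := by
    have h1 : ((X \ J).image x).card ≤ (X \ J).card := Finset.card_image_le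
    have h2 := Finset.card_sdiff_add_card_eq_card hJX
    omega
  obtain ⟨c, hc, hcf⟩ := h.M ((X \ J).image x) E (by
      intro y hy
      obtain ⟨i, hi, rfl⟩ := Finset.mem_image.1 hy
      exact hx.ctr i (Finset.mem_sdiff.1 hi).1) (by
      intro y hy y' hy' hne
      obtain ⟨i, hi, rfl⟩ := Finset.mem_image.1 hy
      obtain ⟨i', hi', rfl⟩ := Finset.mem_image.1 hy'
      rw [Finset.mem_sdiff] at hi hi'
      exact hfar i hi.1 hi.2 i' hi'.1 hi'.2 (fun hh => hne (by rw [hh]))) hE (by omega)
  have hfx : ∀ i ∈ X, i ∉ J → Afar N F (x i) c := fun i hi hiJ =>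
    hcf _ (Finset.mem_union_left _ (Finset.mem_image_of_mem x (Finset.mem_sdiff.2 ⟨hi, hiJ⟩)))
  have hfZ : ∀ z ∈ Z, Afar N F z c := fun z hz =>
    hcf _ (Finset.mem_union_right _ (Finset.mem_union_left _ hz))
  have hfE : ∀ e ∈ E, Afar N F e c := fun e he =>
    hcf _ (Finset.mem_union_right _ (Finset.mem_union_right _ he))
  refine ⟨c, hc, ?_, hfx, hfE⟩
  by_cases hW : c ∈ Wst N F X
  · exfalso
    obtain ⟨d, hd, hd2⟩ := hG.kill c hW hc
    rcases Finset.mem_union.1 hd with hd | hd
    · exact hd2 (hfZ d hd)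
    · rw [Finset.mem_sdiff] at hd
      have h1 := hfx d hd.1 (fun hh => hd.2 (hJ hh))
      rw [hx.fix d hd.1 hd.2] at h1
      exact hd2 h1
  · rw [mem_Wst] at hW
    push Not at hW
    obtain ⟨i, hi, hci⟩ := hW hc.1
    have hi1 : i ∈ nbr N F c := mem_nbr.2 ⟨h.symm _ _ (mem_nbr.1 hci).1, (h.ctr i hi).1⟩
    by_cases hiJ : i ∈ J
    · by_cases hij : i = j
      · rw [← hij]; exact hci
      · exfalso
        obtain ⟨e, he, hei⟩ := hcov i hiJ hij
        refine not_afar (v := i) (mem_nbr.2 ⟨h.symm _ _ (mem_nbr.1 hei).1, (h.ctr i hi).1⟩)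
          hi1 (hfE e he)
    · exfalso
      refine not_afar (v := i) (mem_nbr.2 ⟨h.symm _ _ (mem_nbr.1 (hx.mem i hi)).1,
        (h.ctr i hi).1⟩) hi1 (hfx i hi hiJ)

/-- Property (G), path of length one. -/
lemma G1 (hG : Guard N K F X Z R) {x : V → V} (hx : Rep N K F X R x)
    (hfar : ∀ i ∈ X, ∀ i' ∈ X, i ≠ i' → Afar N F (x i) (x i')) {j k : V} (hj : j ∈ R)
    (hk : k ∈ R) (hjk : j ≠ k) (h1 : Arc N F x j k) (h2 : ¬ Arc N F x k j) :
    Bad N F X x j := by
  obtain ⟨u, hu1, hu2⟩ := h1
  obtain ⟨c, hc, hcj, hcx, hce⟩ := h.surv hG hx (J := {j, k}) (E := {u}) (j := j)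
    (by intro i hi; rcases Finset.mem_insert.1 hi with rfl | hi
        · exact hj
        · rw [Finset.mem_singleton] at hi; rw [hi]; exact hk)
    (fun i hi _ i' hi' _ hne => hfar i hi i' hi' hne) (by simp)
    (by rw [Finset.card_pair hjk]; simp) (by
      intro i hi hij
      rcases Finset.mem_insert.1 hi with hi | hi
      · exact absurd hi hij
      · rw [Finset.mem_singleton] at hi
        subst hi
        exact ⟨u, Finset.mem_singleton_self u, hu2⟩)
  refine ⟨c, hcj, fun i hi hci => ?_⟩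
  by_cases hij : i = j
  · subst hij
    -- x i is a common neighbour of c and u
    refine not_afar (v := x i) ?_ ?_ (hce u (Finset.mem_singleton_self u))
    · exact mem_nbr.2 ⟨h.symm _ _ (mem_nbr.1 hu1).1, (hx.ctr i hi).1⟩
    · exact mem_nbr.2 ⟨h.symm _ _ (mem_nbr.1 hci).1, (hx.ctr i hi).1⟩
  · by_cases hik : i = k
    · subst hik
      exact h2 ⟨c, hci, hcj⟩
    · refine not_afar (v := c) hci (h.self_nbr hc.1) (hcx i hi ?_)
      intro hh
      rcases Finset.mem_insert.1 hh with hh | hh
      · exact hij hh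
      · exact hik (Finset.mem_singleton.1 hh)

/-- Property (G), path of length two. -/
lemma G2 (hG : Guard N K F X Z R) {x : V → V} (hx : Rep N K F X R x)
    (hfar : ∀ i ∈ X, ∀ i' ∈ X, i ≠ i' → Afar N F (x i) (x i')) {j o k : V} (hj : j ∈ R)
    (ho : o ∈ R) (hk : k ∈ R) (hjo : j ≠ o) (hjk : j ≠ k) (hok : o ≠ k)
    (h1 : Arc N F x j o) (h2 : Arc N F x o k) (h3 : ¬ Arc N F x k j) :
    Bad N F X x j := by
  obtain ⟨u, hu1, hu2⟩ := h1
  obtain ⟨w, hw1, hw2⟩ := h2
  have hcard : ({j, o, k} : Finset V).card = 3 := by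
    rw [Finset.card_insert_of_notMem, Finset.card_pair hok]
    simp [hjo, hjk]
  obtain ⟨c, hc, hcj, hcx, hce⟩ := h.surv hG hx (J := {j, o, k}) (E := {u, w}) (j := j)
    (by
      intro i hi
      simp only [Finset.mem_insert, Finset.mem_singleton] at hi
      rcases hi with rfl | rfl | rfl
      · exact hj
      · exact ho
      · exact hk)
    (fun i hi _ i' hi' _ hne => hfar i hi i' hi' hne) Finset.card_le_two
    (by rw [hcard]; have := Finset.card_le_two (a := u) (b := w); omega) (by
      intro i hi hij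
      simp only [Finset.mem_insert, Finset.mem_singleton] at hi
      rcases hi with hi | hi | hi
      · exact absurd hi hij
      · subst hi
        exact ⟨u, by simp, hu2⟩
      · subst hi
        exact ⟨w, by simp, hw2⟩)
  refine ⟨c, hcj, fun i hi hci => ?_⟩
  have hic : x i ∈ nbr N F c := mem_nbr.2 ⟨h.symm _ _ (mem_nbr.1 hci).1, (hx.ctr i hi).1⟩
  by_cases hij : i = j
  · subst hij
    refine not_afar (v := x i) ?_ hic (hce u (by simp))
    exact mem_nbr.2 ⟨h.symm _ _ (mem_nbr.1 hu1).1, (hx.ctr i hi).1⟩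
  · by_cases hio : i = o
    · subst hio
      refine not_afar (v := x i) ?_ hic (hce w (by simp))
      exact mem_nbr.2 ⟨h.symm _ _ (mem_nbr.1 hw1).1, (hx.ctr i hi).1⟩
    · by_cases hik : i = k
      · subst hik
        exact h3 ⟨c, hci, hcj⟩
      · refine not_afar (v := c) hci (h.self_nbr hc.1) (hcx i hi ?_)
        simp only [Finset.mem_insert, Finset.mem_singleton]
        tauto

/-- The result of processing the stars with centres in `O`. -/
structure Inv (N : V → Finset V) (K : ℕ) (F X R L O : Finset V) (o y : V → V) (x : V → V) :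
    Prop where
  rep : Rep N K F X R x
  fix : ∀ i ∈ X, i ∉ O → (i ∈ L → o i ∉ O) → x i = i
  far : ∀ i ∈ X, ∀ i' ∈ X, i ≠ i' → Afar N F (x i) (x i')
  miss : ∀ l ∈ L, o l ∈ O → y l ∉ nbr N F (x l)
  nomut : ∀ l ∈ L, o l ∈ O → ∀ b ∈ X, b ≠ l → b ≠ o l → ¬ (Arc N F x l b ∧ Arc N F x b l)

/-- The result of processing the leaves in `Q` of the star of `o0`, starting from `x`. -/
structure Inv2 (N : V → Finset V) (K : ℕ) (F X R Q : Finset V) (o0 : V) (y : V → V)
    (x x' : V → V) : Prop where
  rep : Rep N K F X R x'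
  agree : ∀ i, i ∉ Q → x' i = x i
  far : ∀ i ∈ X, i ≠ o0 → ∀ i' ∈ X, i' ≠ o0 → i ≠ i' → Afar N F (x' i) (x' i')
  miss : ∀ l ∈ Q, y l ∉ nbr N F (x' l)
  nomut : ∀ l ∈ Q, ∀ b ∈ X, b ≠ l → b ≠ o0 → ¬ (Arc N F x' l b ∧ Arc N F x' b l)

lemma leaves (hG : Guard N K F X Z R) {o0 : V} (ho : o0 ∈ R) {y g : V → V} {x : V → V}
    (hx : Rep N K F X R x)
    (hfar : ∀ i ∈ X, ∀ i' ∈ X, i ≠ i' → Afar N F (x i) (x i')) (Q : Finset V)
    (hQR : ∀ l ∈ Q, l ∈ R) (hQo : ∀ l ∈ Q, l ≠ o0) (hQx : ∀ l ∈ Q, x l = l)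
    (hy : ∀ l ∈ Q, y l ∈ nbr N F l) (hg : ∀ l ∈ Q, g l ∈ nbr N F o0)
    (hyg : ∀ l ∈ Q, g l ∈ N (y l)) :
    ∃ x', Inv2 N K F X R Q o0 y x x' := by
  classical
  induction Q using Finset.induction_on with
  | empty =>
    exact ⟨x, hx, fun _ _ => rfl, fun i hi _ i' hi' _ hne => hfar i hi i' hi' hne, by simp,
      by simp⟩
  | insert l Q hlQ ih =>
    obtain ⟨x', I⟩ := ih (fun l hl => hQR l (Finset.mem_insert_of_mem hl))
      (fun l hl => hQo l (Finset.mem_insert_of_mem hl))
      (fun l hl => hQx l (Finset.mem_insert_of_mem hl))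
      (fun l hl => hy l (Finset.mem_insert_of_mem hl))
      (fun l hl => hg l (Finset.mem_insert_of_mem hl))
      (fun l hl => hyg l (Finset.mem_insert_of_mem hl))
    have hlR := hQR l (Finset.mem_insert_self _ _)
    have hlo := hQo l (Finset.mem_insert_self _ _)
    have hlx := hQx l (Finset.mem_insert_self _ _)
    have hyl := hy l (Finset.mem_insert_self _ _)
    have hgl := hg l (Finset.mem_insert_self _ _)
    have hygl := hyg l (Finset.mem_insert_self _ _)
    have hx'l : x' l = l := by rw [I.agree l hlQ, hlx]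
    obtain ⟨c, hc, hcl, hcx, hce⟩ := h.surv hG I.rep (J := {l, o0}) (E := {g l}) (j := l)
      (by intro i hi; rcases Finset.mem_insert.1 hi with rfl | hi
          · exact hlR
          · rw [Finset.mem_singleton] at hi; rw [hi]; exact ho)
      (by
        intro i hi hiJ i' hi' hiJ' hne
        simp only [Finset.mem_insert, Finset.mem_singleton, not_or] at hiJ hiJ'
        exact I.far i hi hiJ.2 i' hi' hiJ'.2 hne) (by simp)
      (by rw [Finset.card_pair hlo]; simp) (by
        intro i hi hij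
        rcases Finset.mem_insert.1 hi with hi | hi
        · exact absurd hi hij
        · rw [Finset.mem_singleton] at hi
          subst hi
          exact ⟨g l, Finset.mem_singleton_self _, hgl⟩)
    have hcx' : ∀ i ∈ X, i ≠ l → i ≠ o0 → Afar N F (x' i) c := by
      intro i hi h1 h2
      refine hcx i hi ?_
      simp [h1, h2]
    -- no arcs into the tile of l from the others
    have hnl : ∀ i ∈ X, i ≠ l → i ≠ o0 → Afar N F (x' i) l := by
      intro i hi h1 h2
      have := I.far i hi h2 l (hG.sub hlR) hlo h1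
      rwa [hx'l] at this
    have hup : ∀ i, i ≠ l → Function.update x' l c i = x' i := fun i hi =>
      Function.update_of_ne hi _ _
    have hupl : Function.update x' l c l = c := Function.update_self _ _ _
    refine ⟨Function.update x' l c, ⟨?_, ?_, ?_⟩, ?_, ?_, ?_, ?_⟩
    · intro i hi
      by_cases hil : i = l
      · rw [hil, hupl]; exact hc
      · rw [hup i hil]; exact I.rep.ctr i hi
    · intro i hi
      by_cases hil : i = l
      · rw [hil, hupl]; exact hcl
      · rw [hup i hil]; exact I.rep.mem i hi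
    · intro i hi hiR
      have hil : i ≠ l := fun hh => hiR (hh ▸ hlR)
      rw [hup i hil]; exact I.rep.fix i hi hiR
    · intro i hi
      rw [Finset.mem_insert, not_or] at hi
      rw [hup i hi.1]; exact I.agree i hi.2
    · intro i hi hio i' hi' hio' hne
      by_cases hil : i = l
      · rw [hil, hupl, hup i' (fun hh => hne (by rw [hil, hh]))]
        exact (hcx' i' hi' (fun hh => hne (by rw [hil, hh])) hio').symm
      · by_cases hil' : i' = l
        · rw [hil', hupl, hup i hil]
          exact hcx' i hi hil hio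
        · rw [hup i hil, hup i' hil']
          exact I.far i hi hio i' hi' hio' hne
    · intro l' hl'
      by_cases hll : l' = l
      · rw [hll, hupl]
        intro hyc
        refine not_afar (v := y l) ?_ hyc (hce (g l) (Finset.mem_singleton_self _))
        exact mem_nbr.2 ⟨h.symm _ _ hygl, (mem_nbr.1 hyl).2⟩
      · rw [hup l' hll]
        exact I.miss l' ((Finset.mem_insert.1 hl').resolve_left hll)
    · intro l' hl' b hb hbl hbo hmut
      obtain ⟨⟨u, hu1, hu2⟩, ⟨w, hw1, hw2⟩⟩ := hmut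
      by_cases hll : l' = l
      · subst hll
        rw [hupl] at hu1
        rw [hup b hbl] at hw1
        exact not_afar hw1 hw2 (hnl b hb hbl hbo)
      · have hl'Q := (Finset.mem_insert.1 hl').resolve_left hll
        rw [hup l' hll] at hu1
        by_cases hbl' : b = l
        · subst hbl'
          exact not_afar hu1 hu2 (hnl l' (hG.sub (hQR l' hl')) hll (hQo l' hl'))
        · rw [hup b hbl'] at hw1
          exact I.nomut l' hl'Q b hb hbl hbo ⟨⟨u, hu1, hu2⟩, ⟨w, hw1, hw2⟩⟩

lemma process (hG : Guard N K F X Z R) {L : Finset V} {o y g : V → V}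
    (hL : SFam R (TAdj N F) L o) (hy : ∀ l ∈ L, y l ∈ nbr N F l)
    (hg : ∀ l ∈ L, g l ∈ nbr N F (o l)) (hyg : ∀ l ∈ L, g l ∈ N (y l)) (O : Finset V)
    (hO : ∀ c ∈ O, c ∈ R ∧ c ∉ L) :
    ∃ x, Inv N K F X R L O o y x := by
  classical
  induction O using Finset.induction_on with
  | empty =>
    refine ⟨id, ⟨fun i hi => h.ctr i hi, fun i hi => h.self_nbr (h.ctr i hi).1,
      fun _ _ _ => rfl⟩, fun _ _ _ _ => rfl, fun i hi i' hi' hne => h.far i hi i' hi' hne,
      by simp, by simp⟩
  | insert o0 O hoO ih =>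
    obtain ⟨x, I⟩ := ih (fun c hc => hO c (Finset.mem_insert_of_mem hc))
    obtain ⟨hoR, hoL⟩ := hO o0 (Finset.mem_insert_self _ _)
    have hox : x o0 = o0 := I.fix o0 (hG.sub hoR) hoO (fun hh => absurd hh hoL)
    have hQx : ∀ l ∈ L.filter (fun l => o l = o0), x l = l := by
      intro l hl
      rw [Finset.mem_filter] at hl
      refine I.fix l (hG.sub (hL.sub hl.1)) ?_ (fun _ => by rw [hl.2]; exact hoO)
      intro hlO
      exact (hO l (Finset.mem_insert_of_mem hlO)).2 hl.1
    obtain ⟨x', I'⟩ := h.leaves hG hoR (y := y) (g := g) I.rep I.far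
      (L.filter (fun l => o l = o0))
      (fun l hl => hL.sub (Finset.mem_filter.1 hl).1)
      (fun l hl hh => hoL (hh ▸ (Finset.mem_filter.1 hl).1)) hQx
      (fun l hl => hy l (Finset.mem_filter.1 hl).1)
      (fun l hl => by
        have := hg l (Finset.mem_filter.1 hl).1
        rwa [(Finset.mem_filter.1 hl).2] at this)
      (fun l hl => hyg l (Finset.mem_filter.1 hl).1)
    obtain ⟨c, hc, hco, hcx, -⟩ := h.surv hG I'.rep (J := {o0}) (E := ∅) (j := o0)
      (by simpa using hoR)
      (by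
        intro i hi hiJ i' hi' hiJ' hne
        rw [Finset.mem_singleton] at hiJ hiJ'
        exact I'.far i hi hiJ i' hi' hiJ' hne) (by simp) (by simp) (by
        intro i hi hij
        exact absurd (Finset.mem_singleton.1 hi) hij)
    have hcx' : ∀ i ∈ X, i ≠ o0 → Afar N F (x' i) c := fun i hi h1 => hcx i hi (by simpa using h1)
    have hup : ∀ i, i ≠ o0 → Function.update x' o0 c i = x' i := fun i hi =>
      Function.update_of_ne hi _ _
    have hupo : Function.update x' o0 c o0 = c := Function.update_self _ _ _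
    refine ⟨Function.update x' o0 c, ⟨?_, ?_, ?_⟩, ?_, ?_, ?_, ?_⟩
    · intro i hi
      by_cases hio : i = o0
      · rw [hio, hupo]; exact hc
      · rw [hup i hio]; exact I'.rep.ctr i hi
    · intro i hi
      by_cases hio : i = o0
      · rw [hio, hupo]; exact hco
      · rw [hup i hio]; exact I'.rep.mem i hi
    · intro i hi hiR
      have hio : i ≠ o0 := fun hh => hiR (hh ▸ hoR)
      rw [hup i hio]; exact I'.rep.fix i hi hiR
    · intro i hi hiO hiL
      rw [Finset.mem_insert, not_or] at hiO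
      rw [hup i hiO.1, I'.agree i]
      · refine I.fix i hi hiO.2 (fun hh hh2 => hiL hh (Finset.mem_insert_of_mem hh2))
      · intro hh
        rw [Finset.mem_filter] at hh
        exact hiL hh.1 (by rw [hh.2]; exact Finset.mem_insert_self _ _)
    · intro i hi i' hi' hne
      by_cases hio : i = o0
      · rw [hio, hupo, hup i' (fun hh => hne (by rw [hio, hh]))]
        exact (hcx' i' hi' (fun hh => hne (by rw [hio, hh]))).symm
      · by_cases hio' : i' = o0
        · rw [hio', hupo, hup i hio]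
          exact hcx' i hi hio
        · rw [hup i hio, hup i' hio']
          exact I'.far i hi hio i' hi' hio' hne
    · intro l hl hlO
      have hlo : l ≠ o0 := fun hh => hoL (hh ▸ hl)
      rw [hup l hlo]
      by_cases hol : o l = o0
      · exact I'.miss l (Finset.mem_filter.2 ⟨hl, hol⟩)
      · rw [I'.agree l (fun hh => hol (Finset.mem_filter.1 hh).2)]
        exact I.miss l hl ((Finset.mem_insert.1 hlO).resolve_left hol)
    · intro l hl hlO b hb hbl hbo hmut
      have hlo : l ≠ o0 := fun hh => hoL (hh ▸ hl)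
      obtain ⟨⟨u, hu1, hu2⟩, ⟨w, hw1, hw2⟩⟩ := hmut
      rw [hup l hlo] at hu1
      by_cases hol : o l = o0
      · have hbo0 : b ≠ o0 := fun hh => hbo (by rw [hh, hol])
        rw [hup b hbo0] at hw1
        exact I'.nomut l (Finset.mem_filter.2 ⟨hl, hol⟩) b hb hbl hbo0
          ⟨⟨u, hu1, hu2⟩, ⟨w, hw1, hw2⟩⟩
      · have hlQ : l ∉ L.filter (fun l => o l = o0) := fun hh => hol (Finset.mem_filter.1 hh).2
        rw [I'.agree l hlQ] at hu1
        have holO := (Finset.mem_insert.1 hlO).resolve_left hol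
        by_cases hbo0 : b = o0
        · subst hbo0
          have := I.far l (hG.sub (hL.sub hl)) b hb hlo
          rw [hox] at this
          exact not_afar hu1 hu2 this
        · rw [hup b hbo0] at hw1
          by_cases hbQ : b ∈ L.filter (fun l => o l = o0)
          · have := I.far l (hG.sub (hL.sub hl)) b hb (Ne.symm hbl)
            rw [hQx b hbQ] at this
            exact not_afar hu1 hu2 this
          · rw [I'.agree b hbQ] at hw1
            exact I.nomut l hl holO b hb hbl hbo ⟨⟨u, hu1, hu2⟩, ⟨w, hw1, hw2⟩⟩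

/-- **Step 3.** -/
theorem stars (hG : Guard N K F X Z R) {L : Finset V} {o : V → V}
    (hL : SFam R (TAdj N F) L o) : L.card ≤ (L.image o).card + 2 * (Wst N F X).card := by
  classical
  have hch : ∀ l ∈ L, ∃ u ∈ nbr N F l, ∃ v ∈ nbr N F (o l), v ∈ N u :=
    fun l hl => (hL.adj l hl).2
  by_cases hL0 : L = ∅
  · rw [hL0]; simp
  have hne : Nonempty V := by
    obtain ⟨l, -⟩ := Finset.nonempty_iff_ne_empty.2 hL0
    exact ⟨l⟩
  choose! y hy g hg hyg using hch
  obtain ⟨x, I⟩ := h.process hG hL hy hg hyg (L.image o) (by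
    intro c hc
    obtain ⟨l, hl, rfl⟩ := Finset.mem_image.1 hc
    exact ⟨hL.mem l hl, hL.nmem l hl⟩)
  have hLX : ∀ l ∈ L, l ∈ X := fun l hl => hG.sub (hL.sub hl)
  have hlo : ∀ l ∈ L, l ≠ o l := fun l hl hh => hL.nmem l hl (hh ▸ hl)
  -- counting
  let Cov := X.biUnion (fun i => nbr N F (x i))
  let Til := X.biUnion (nbr N F)
  have cCov : Cov.card = K * X.card := by
    simp only [Cov]
    rw [Finset.card_biUnion (fun i hi i' hi' hne => I.far i hi i' hi' hne)]
    rw [Finset.sum_congr rfl (fun i hi => (I.rep.ctr i hi).2), Finset.sum_const, smul_eq_mul,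
      mul_comm]
  have cTil : Til.card = K * X.card := by
    simp only [Til]
    rw [Finset.card_biUnion (fun i hi i' hi' hne => h.far i hi i' hi' hne)]
    rw [Finset.sum_congr rfl (fun i hi => (h.ctr i hi).2), Finset.sum_const, smul_eq_mul,
      mul_comm]
  have hused : (Til \ Cov).card ≤ (Wst N F X).card := by
    have h1 : (Til \ Cov).card + (Til ∩ Cov).card = Til.card := Finset.card_sdiff_add_card_inter _ _
    have h2 : (Cov \ Til).card + (Cov ∩ Til).card = Cov.card := Finset.card_sdiff_add_card_inter _ _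
    rw [Finset.inter_comm] at h2
    have h3 : (Cov \ Til).card ≤ (Wst N F X).card := by
      apply Finset.card_le_card
      intro v hv
      rw [Finset.mem_sdiff] at hv
      obtain ⟨i, hi, hvi⟩ := Finset.mem_biUnion.1 hv.1
      rw [mem_Wst]
      exact ⟨(mem_nbr.1 hvi).2, fun x hx hvx => hv.2 (Finset.mem_biUnion.2 ⟨x, hx, hvx⟩)⟩
    omega
  have cBad : (L.filter (fun l => Bad N F X x l)).card ≤ (Wst N F X).card := by
    refine le_trans ?_ hused
    have hb : ∀ l ∈ L.filter (fun l => Bad N F X x l), ∃ v ∈ nbr N F l, v ∉ Cov := by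
      intro l hl
      obtain ⟨v, hv, hv2⟩ := (Finset.mem_filter.1 hl).2
      refine ⟨v, hv, fun hh => ?_⟩
      obtain ⟨i, hi, hvi⟩ := Finset.mem_biUnion.1 hh
      exact hv2 i hi hvi
    choose! w hw hw2 using hb
    refine Finset.card_le_card_of_injOn w ?_ ?_
    · intro l hl
      refine Finset.mem_coe.2 (Finset.mem_sdiff.2 ⟨Finset.mem_biUnion.2 ⟨l, ?_, hw l hl⟩, hw2 l hl⟩)
      exact hLX l (Finset.mem_filter.1 hl).1
    · intro l hl l' hl' hww
      by_contra hne
      exact not_afar (hw l hl) (hww ▸ hw l' hl') (h.far l (hLX l (Finset.mem_filter.1 hl).1) l'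
        (hLX l' (Finset.mem_filter.1 hl').1) hne)
  have cUse : (L.filter (fun l => ∃ v ∈ nbr N F (x l), v ∈ Wst N F X)).card ≤
      (Wst N F X).card := by
    have hb : ∀ l ∈ L.filter (fun l => ∃ v ∈ nbr N F (x l), v ∈ Wst N F X),
        ∃ v ∈ nbr N F (x l), v ∈ Wst N F X := fun l hl => (Finset.mem_filter.1 hl).2
    choose! w hw hw2 using hb
    refine Finset.card_le_card_of_injOn w (fun l hl => hw2 l hl) ?_
    intro l hl l' hl' hww
    by_contra hne
    exact not_afar (hw l hl) (hww ▸ hw l' hl') (I.far l (hLX l (Finset.mem_filter.1 hl).1) l'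
      (hLX l' (Finset.mem_filter.1 hl').1) hne)
  -- good leaves
  let Gd := L.filter (fun l => ¬ Bad N F X x l ∧ ¬ ∃ v ∈ nbr N F (x l), v ∈ Wst N F X)
  have hGd : ∀ l ∈ Gd, Arc N F x l (o l) ∧ Arc N F x (o l) l := by
    intro l hl
    rw [Finset.mem_filter] at hl
    obtain ⟨hlL, hnb, hnu⟩ := hl
    have holI : o l ∈ L.image o := Finset.mem_image_of_mem o hlL
    have hmiss := I.miss l hlL holI
    have hns : ¬ nbr N F (x l) ⊆ nbr N F l := by
      intro hs
      have := Finset.eq_of_subset_of_card_le hs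
        (by rw [(h.ctr l (hLX l hlL)).2, (I.rep.ctr l (hLX l hlL)).2])
      exact hmiss (by rw [this]; exact hy l hlL)
    rw [Finset.not_subset] at hns
    obtain ⟨v, hv, hvl⟩ := hns
    have hvW : v ∉ Wst N F X := fun hh => hnu ⟨v, hv, hh⟩
    rw [mem_Wst] at hvW
    push Not at hvW
    obtain ⟨k, hk, hvk⟩ := hvW (mem_nbr.1 hv).2
    have hkl : k ≠ l := fun hh => hvl (hh ▸ hvk)
    have hkR : k ∈ R := by
      by_contra hkR
      have := I.far l (hLX l hlL) k hk (Ne.symm hkl)
      rw [I.rep.fix k hk hkR] at this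
      exact not_afar hv hvk this
    have harc : Arc N F x l k := ⟨v, hv, hvk⟩
    have hback : Arc N F x k l := by
      by_contra hb
      exact hnb (h.G1 hG I.rep I.far (hL.sub hlL) hkR (Ne.symm hkl) harc hb)
    by_cases hko : k = o l
    · subst hko
      exact ⟨harc, hback⟩
    · exact absurd ⟨harc, hback⟩ (I.nomut l hlL holI k hk hkl hko)
  have cGd : Gd.card ≤ (L.image o).card := by
    refine Finset.card_le_card_of_injOn o ?_ ?_
    · intro l hl
      exact Finset.mem_coe.2 (Finset.mem_image_of_mem o (Finset.mem_filter.1 hl).1)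
    · intro l hl l' hl' hoo
      by_contra hne
      have hlL := (Finset.mem_filter.1 hl).1
      have hlL' := (Finset.mem_filter.1 hl').1
      have h1 := hGd l hl
      have h2 := hGd l' hl'
      rw [← hoo] at h2
      have holI : o l ∈ L.image o := Finset.mem_image_of_mem o hlL
      have hl'o : l' ≠ o l := by rw [hoo]; exact hlo l' hlL'
      have hA : Arc N F x l' l := by
        by_contra hb
        exact (Finset.mem_filter.1 hl).2.1 (h.G2 hG I.rep I.far (hL.sub hlL) (hL.mem l hlL)
          (hL.sub hlL') (hlo l hlL) hne (Ne.symm hl'o) h1.1 h2.2 hb)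
      have hB : Arc N F x l l' := by
        by_contra hb
        exact (Finset.mem_filter.1 hl').2.1 (h.G2 hG I.rep I.far (hL.sub hlL') (hL.mem l hlL)
          (hL.sub hlL) hl'o (Ne.symm hne) (Ne.symm (hlo l hlL)) h2.1 h1.2 hb)
      exact I.nomut l hlL holI l' (hLX l' hlL') (Ne.symm hne) hl'o ⟨hB, hA⟩
  have hall : L ⊆ Gd ∪ (L.filter (fun l => Bad N F X x l) ∪
      L.filter (fun l => ∃ v ∈ nbr N F (x l), v ∈ Wst N F X)) := by
    intro l hl
    by_cases h1 : Bad N F X x l
    · exact Finset.mem_union_right _ (Finset.mem_union_left _ (Finset.mem_filter.2 ⟨hl, h1⟩))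
    · by_cases h2 : ∃ v ∈ nbr N F (x l), v ∈ Wst N F X
      · exact Finset.mem_union_right _ (Finset.mem_union_right _ (Finset.mem_filter.2 ⟨hl, h2⟩))
      · exact Finset.mem_union_left _ (Finset.mem_filter.2 ⟨hl, h1, h2⟩)
  have h1 := Finset.card_le_card hall
  have h2 := Finset.card_union_le Gd (L.filter (fun l => Bad N F X x l) ∪
      L.filter (fun l => ∃ v ∈ nbr N F (x l), v ∈ Wst N F X))
  have h3 := Finset.card_union_le (L.filter (fun l => Bad N F X x l))
      (L.filter (fun l => ∃ v ∈ nbr N F (x l), v ∈ Wst N F X))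
  omega

end ASys

end AbsS

end Pool.Agent.Star
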