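import Pool.Agent.Star.Wrap

/-!
# Blocks: connected star systems on `2K` vertices with killing number two

Preparation for: a minimal violator with an end whose rest is rigid has an end whose rest is
vertex-critical.
-/

set_option autoImplicit false
set_option linter.unusedSectionVars false
set_option linter.unusedVariables false

namespace Pool.Agent.Star.Rig

open Finset

variable {V : Type*} [DecidableEq V]

/-- A block: connected, `2K` vertices, killing number two. -/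
structure Blk (N : V → Finset V) (K : ℕ) (U : Finset V) (J : Finset (Finset V)) : Prop where
  refl : ∀ x, x ∈ N x
  symm : ∀ x y, x ∈ N y → y ∈ N x
  sys : Sys N K U J
  conn : Conn N U
  card : U.card = 2 * K
  two : gk N U J = 2

section
variable {N : V → Finset V} {K : ℕ} {U : Finset V} {J : Finset (Finset V)}

lemma Blk.pos (b : Blk N K U J) : 1 ≤ K := by
  have := Finset.card_pos.2 b.conn.1
  have := b.card
  omega

/-- No vertex of a block kills all star sets. -/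
lemma Blk.miss (b : Blk N K U J) {v : V} (hv : v ∈ U) : ∃ T ∈ J, ∀ x ∈ T, x ∉ N v := by
  by_contra hcon
  push Not at hcon
  have h1 : gk N U J ≤ ({v} : Finset V).card := gk_le (Finset.singleton_subset_iff.2 hv)
    (fun T hT => by
      obtain ⟨x, hx, hxv⟩ := hcon T hT
      exact ⟨v, Finset.mem_singleton_self v, x, hx, hxv⟩)
  rw [b.two, Finset.card_singleton] at h1
  omega

lemma Blk.ne (b : Blk N K U J) : J.Nonempty := by
  obtain ⟨v, hv⟩ := b.conn.1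
  obtain ⟨T, hT, _⟩ := b.miss hv
  exact ⟨T, hT⟩

/-- The complement of a star set. -/
lemma Blk.compl (b : Blk N K U J) {T : Finset V} (hT : T ∈ J) {c : V} (hc : c ∈ T)
    (hcN : T ⊆ N c) : U \ T ∈ J ∧ ∀ x ∈ U \ T, x ∉ N c := by
  obtain ⟨T', hT', hn⟩ := b.miss (b.sys.sub T hT hc)
  have h1 : T' ⊆ U \ T := by
    intro x hx
    exact Finset.mem_sdiff.2 ⟨b.sys.sub T' hT' hx, fun h => hn x hx (hcN h)⟩
  have h2 : (U \ T).card + T.card = U.card :=
    Finset.card_sdiff_add_card_eq_card (b.sys.sub T hT)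
  have h3 := b.sys.card T hT
  have h4 := b.sys.card T' hT'
  have h5 := b.card
  have h6 : T' = U \ T := Finset.eq_of_subset_of_card_le h1 (by omega)
  rw [← h6]
  exact ⟨hT', hn⟩

lemma Blk.compl_mem (b : Blk N K U J) {T : Finset V} (hT : T ∈ J) : U \ T ∈ J := by
  obtain ⟨c, hc, hcN⟩ := b.sys.cen T hT
  exact (b.compl hT hc hcN).1

/-- Inside the block the neighbourhood of a centre is its star set. -/
lemma Blk.cen_eq (b : Blk N K U J) {T : Finset V} (hT : T ∈ J) {c : V} (hc : c ∈ T)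
    (hcN : T ⊆ N c) {x : V} (hx : x ∈ U) : x ∈ N c ↔ x ∈ T := by
  constructor
  · intro h
    by_contra hn
    exact (b.compl hT hc hcN).2 x (Finset.mem_sdiff.2 ⟨hx, hn⟩) h
  · intro h
    exact hcN h

/-- The neighbourhood of a vertex lies in a star set. -/
lemma Blk.cover (b : Blk N K U J) {v : V} (hv : v ∈ U) :
    ∃ T ∈ J, ∀ x ∈ U, x ∈ N v → x ∈ T := by
  obtain ⟨T, hT, hn⟩ := b.miss hv
  refine ⟨U \ T, b.compl_mem hT, ?_⟩
  intro x hx hxv
  exact Finset.mem_sdiff.2 ⟨hx, fun h => hn x h hxv⟩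

/-- An edge between a star set and its complement. -/
lemma Blk.edge (b : Blk N K U J) {T : Finset V} (hT : T ∈ J) :
    ∃ v ∈ T, ∃ w ∈ U \ T, w ∈ N v := by
  obtain ⟨c, hc, _⟩ := b.sys.cen T hT
  obtain ⟨c', hc', _⟩ := b.sys.cen _ (b.compl_mem hT)
  have hne : T ≠ U := by
    intro h
    rw [h, Finset.sdiff_self] at hc'
    exact absurd hc' (Finset.notMem_empty _)
  obtain ⟨v, hv, w, hw, hwT, hwv⟩ := b.conn.2 T (b.sys.sub T hT) ⟨c, hc⟩ hne
  exact ⟨v, hv, w, Finset.mem_sdiff.2 ⟨hw, hwT⟩, hwv⟩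

/-- A block has no separated set. -/
lemma Blk.near (b : Blk N K U J) {B : Finset V} (hB : Sep J B) : U ⊆ B ∨ Disjoint U B := by
  obtain ⟨T, hT⟩ := b.ne
  obtain ⟨v, hv, w, hw, hwv⟩ := b.edge hT
  have hvU : v ∈ U := b.sys.sub T hT hv
  have hwU : w ∈ U := (Finset.mem_sdiff.1 hw).1
  obtain ⟨X, hX, hXc⟩ := b.cover hvU
  have hvX : v ∈ X := hXc v hvU (b.refl v)
  have hwX : w ∈ X := hXc w hwU hwv
  have hT' := b.compl_mem hT
  have key : ∀ Y ∈ J, ∀ Y' ∈ J, (∃ x ∈ Y, x ∈ Y') → Y ⊆ B → Y' ⊆ B := by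
    rintro Y hY Y' hY' ⟨x, hx, hx'⟩ h
    rcases hB Y' hY' with h1 | h1
    · exact h1
    · exact absurd (h hx) (Finset.disjoint_left.1 h1 hx')
  have hU : ∀ x ∈ U, x ∈ T ∨ x ∈ U \ T := by
    intro x hx
    by_cases h : x ∈ T
    · exact Or.inl h
    · exact Or.inr (Finset.mem_sdiff.2 ⟨hx, h⟩)
  rcases hB T hT with h1 | h1
  · left
    have h2 := key T hT X hX ⟨v, hv, hvX⟩ h1
    have h3 := key X hX _ hT' ⟨w, hwX, hw⟩ h2
    intro x hx
    rcases hU x hx with h | h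
    · exact h1 h
    · exact h3 h
  · right
    rcases hB _ hT' with h2 | h2
    · exfalso
      have h3 := key _ hT' X hX ⟨w, hw, hwX⟩ h2
      have h4 := key X hX T hT ⟨v, hvX, hv⟩ h3
      exact Finset.disjoint_left.1 h1 hv (h4 hv)
    · rw [Finset.disjoint_left]
      intro x hx
      rcases hU x hx with h | h
      · exact Finset.disjoint_left.1 h1 h
      · exact Finset.disjoint_left.1 h2 h

/-- Every star set of a block contains three centres. -/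
lemma Blk.three (b : Blk N K U J) {T : Finset V} (hT : T ∈ J) :
    ∃ c1 ∈ T, ∃ c2 ∈ T, ∃ c3 ∈ T, c1 ≠ c2 ∧ c1 ≠ c3 ∧ c2 ≠ c3 ∧
      (∃ Y ∈ J, c1 ∈ Y ∧ Y ⊆ N c1) ∧ (∃ Y ∈ J, c2 ∈ Y ∧ Y ⊆ N c2) ∧
      (∃ Y ∈ J, c3 ∈ Y ∧ Y ⊆ N c3) := by
  obtain ⟨c, hc, hcN⟩ := b.sys.cen T hT
  have hT' := b.compl_mem hT
  obtain ⟨c', hc', hcN'⟩ := b.sys.cen _ hT'
  obtain ⟨v, hv, w, hw, hwv⟩ := b.edge hT
  have hTU := b.sys.sub T hT
  have hvU : v ∈ U := hTU hv
  have hwU : w ∈ U := (Finset.mem_sdiff.1 hw).1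
  have hwT : w ∉ T := (Finset.mem_sdiff.1 hw).2
  have hcU : c ∈ U := hTU hc
  have hc'U : c' ∈ U := (Finset.mem_sdiff.1 hc').1
  -- the star set around v
  obtain ⟨X, hX, hXc⟩ := b.cover hvU
  obtain ⟨d, hd, hdN⟩ := b.sys.cen X hX
  have hcX : c ∈ X := hXc c hcU (b.symm _ _ (hcN hv))
  have hwX : w ∈ X := hXc w hwU hwv
  have hdU : d ∈ U := b.sys.sub X hX hd
  have hdT : d ∈ T := (b.cen_eq hT hc hcN hdU).1 (b.symm _ _ (hdN hcX))
  -- the star set around w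
  obtain ⟨X', hX', hXm⟩ := b.miss hwU
  have hX'U := b.sys.sub X' hX'
  obtain ⟨e, he, heN⟩ := b.sys.cen X' hX'
  have heU : e ∈ U := hX'U he
  have hvX' : v ∉ X' := fun h => hXm v h (b.symm _ _ hwv)
  have hwX' : w ∉ X' := fun h => hXm w h (b.refl w)
  have hc'X' : c' ∉ X' := fun h => hXm c' h (b.symm _ _ (hcN' hw))
  have hcX' : c ∈ X' := by
    by_contra hcn
    have hY := b.compl_mem hX'
    obtain ⟨g, hg, hgN⟩ := b.sys.cen _ hY
    have hgU : g ∈ U := (Finset.mem_sdiff.1 hg).1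
    have h1 : g ∈ T := (b.cen_eq hT hc hcN hgU).1
      (b.symm _ _ (hgN (Finset.mem_sdiff.2 ⟨hcU, hcn⟩)))
    have h2 : g ∈ U \ T := (b.cen_eq hT' hc' hcN' hgU).1
      (b.symm _ _ (hgN (Finset.mem_sdiff.2 ⟨hc'U, hc'X'⟩)))
    exact (Finset.mem_sdiff.1 h2).2 h1
  have heT : e ∈ T := (b.cen_eq hT hc hcN heU).1 (b.symm _ _ (heN hcX'))
  refine ⟨c, hc, d, hdT, e, heT, ?_, ?_, ?_, ⟨T, hT, hc, hcN⟩, ⟨X, hX, hd, hdN⟩,
    ⟨X', hX', he, heN⟩⟩
  · rintro rfl
    exact hwT ((b.cen_eq hT hc hcN hwU).1 (hdN hwX))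
  · rintro rfl
    exact hvX' ((b.cen_eq hX' he heN hvU).1 (hcN hv))
  · rintro rfl
    exact hwX' ((b.cen_eq hX' he heN hwU).1 (hdN hwX))

/-- The star sets avoiding a given vertex are killed by at most one vertex. -/
lemma Blk.crit (b : Blk N K U J)
    (hE : ∀ A' ⊂ U, ∀ C' ⊆ J, Sys N K A' C' → Conn N A' → Bd N K A' C') (v : V) :
    ∃ D, D ⊆ U ∧ D.card ≤ 1 ∧ (v ∈ U → ∀ T ∈ J, v ∉ T → Hit N D T) := by
  by_cases hv : v ∈ U
  · obtain ⟨D, h1, h2, h3⟩ := Rig.crit b.refl b.symm b.sys hE (Or.inr ⟨b.card, b.two⟩) hv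
    refine ⟨D, h1, ?_, ?_⟩
    · rw [b.two] at h3
      omega
    · intro _ T hT hvT
      refine h2 T (mem_res.2 ⟨hT, fun x hx => Finset.mem_erase.2 ⟨?_, b.sys.sub T hT hx⟩⟩)
      rintro rfl
      exact hvT hx
  · exact ⟨∅, Finset.empty_subset _, by simp, fun h => absurd h hv⟩

/-- A connected subset lies in a set closed under adjacency or misses it. -/
lemma Conn.side {X Y B : Finset V} (hY : Conn N Y) (hYX : Y ⊆ X)
    (hB : ∀ a ∈ B, ∀ x ∈ X, x ∈ N a → x ∈ B) : Y ⊆ B ∨ Disjoint Y B := by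
  by_contra hcon
  push Not at hcon
  obtain ⟨h1, h2⟩ := hcon
  rw [Finset.not_disjoint_iff] at h2
  obtain ⟨y, hy, hyB⟩ := h2
  obtain ⟨a, ha, x, hx, hxn, hxa⟩ := hY.2 (Y ∩ B) Finset.inter_subset_left
    ⟨y, Finset.mem_inter.2 ⟨hy, hyB⟩⟩ (fun h => h1 (fun z hz => by
      rw [← h] at hz
      exact (Finset.mem_inter.1 hz).2))
  exact hxn (Finset.mem_inter.2 ⟨hx, hB a (Finset.mem_inter.1 ha).2 x (hYX hx) hxa⟩)

lemma conn_of_side {X : Finset V} (hX : X.Nonempty)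
    (h : ∀ B ⊆ X, B.Nonempty → (∀ a ∈ B, ∀ x ∈ X, x ∈ N a → x ∈ B) → X ⊆ B) : Conn N X := by
  refine ⟨hX, ?_⟩
  intro B hB hBn hBX
  by_contra hcon
  push Not at hcon
  apply hBX
  apply Finset.Subset.antisymm hB
  apply h B hB hBn
  intro a ha x hx hxa
  by_contra hxB
  exact hcon a ha x hx hxB hxa

end

end Pool.Agent.Star.Rig
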