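import Pool.Agent.Star.Alpha1

/-!
# A minimal violator with an end whose rest is rigid: basic facts
-/

set_option autoImplicit false
set_option linter.unusedSectionVars false
set_option linter.unusedVariables false

namespace Pool.Agent.Star.Rig

open Finset

variable {V : Type*} [DecidableEq V]

/-- A minimal violator with an end `S` whose rest is rigid. -/
structure Al (N : V → Finset V) (K : ℕ) (A : Finset V) (C : Finset (Finset V)) (S Z : Finset V)
    (P : Finset (Finset V)) (z : Finset V → V) : Prop where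
  v : Viol N K A C
  ex : (2 * K + 1) * gk N A C = 2 * A.card + 1
  e : End N K A C S
  r : Rigid N K (A \ S) (res C (A \ S)) Z P z
  two : ∀ U ∈ P, U.card = 2 * K

section
variable {N : V → Finset V} {K : ℕ} {A : Finset V} {C : Finset (Finset V)} {S Z : Finset V}
  {P : Finset (Finset V)} {z : Finset V → V}

lemma res_res {R U : Finset V} (h : U ⊆ R) : res (res C R) U = res C U := by
  ext T
  rw [mem_res, mem_res, mem_res]
  exact ⟨fun h' => ⟨h'.1.1, h'.2⟩, fun h' => ⟨⟨h'.1, h'.2.trans h⟩, h'.2⟩⟩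

lemma Al.SA (a : Al N K A C S Z P z) : S ⊆ A := a.v.sys.sub S a.e.mem

lemma Al.Scard (a : Al N K A C S Z P z) : S.card = K := a.v.sys.card S a.e.mem

lemma Al.Kpos (a : Al N K A C S Z P z) : 2 ≤ K := a.v.two

lemma Al.ZA (a : Al N K A C S Z P z) : Z ⊆ A := a.r.sub.trans Finset.sdiff_subset

lemma Al.ZS (a : Al N K A C S Z P z) {x : V} (hx : x ∈ Z) : x ∉ S :=
  (Finset.mem_sdiff.1 (a.r.sub hx)).2

lemma Al.UR (a : Al N K A C S Z P z) {U : Finset V} (hU : U ∈ P) : U ⊆ (A \ S) \ Z :=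
  (a.r.comps.cl U hU).1

lemma Al.UR' (a : Al N K A C S Z P z) {U : Finset V} (hU : U ∈ P) : U ⊆ A \ S :=
  (a.UR hU).trans Finset.sdiff_subset

lemma Al.UA (a : Al N K A C S Z P z) {U : Finset V} (hU : U ∈ P) : U ⊆ A :=
  (a.UR' hU).trans Finset.sdiff_subset

lemma Al.US (a : Al N K A C S Z P z) {U : Finset V} (hU : U ∈ P) {x : V} (hx : x ∈ U) :
    x ∉ S := (Finset.mem_sdiff.1 (a.UR' hU hx)).2

lemma Al.UZ (a : Al N K A C S Z P z) {U : Finset V} (hU : U ∈ P) {x : V} (hx : x ∈ U) :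
    x ∉ Z := (Finset.mem_sdiff.1 (a.UR hU hx)).2

lemma Al.UU (a : Al N K A C S Z P z) {U U' : Finset V} (hU : U ∈ P) (hU' : U' ∈ P) {x : V}
    (hx : x ∈ U) (hx' : x ∈ U') : U = U' := a.r.comps.eq_of_mem hU hU' hx hx'

/-- The four kinds of vertices. -/
lemma Al.cases (a : Al N K A C S Z P z) {x : V} (hx : x ∈ A) :
    x ∈ S ∨ (∃ U ∈ P, z U = x) ∨ ∃ U ∈ P, x ∈ U := by
  by_cases h1 : x ∈ S
  · exact Or.inl h1
  · by_cases h2 : x ∈ Z
    · exact Or.inr (Or.inl (a.r.surj x h2))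
    · exact Or.inr (Or.inr (a.r.comps.cover x
        (Finset.mem_sdiff.2 ⟨Finset.mem_sdiff.2 ⟨hx, h1⟩, h2⟩)))

/-- Neighbours of a block vertex: in the block, its hub, or in `S`. -/
lemma Al.nbr (a : Al N K A C S Z P z) {U : Finset V} (hU : U ∈ P) {x y : V} (hx : x ∈ U)
    (hy : y ∈ A) (hxy : y ∈ N x) : y ∈ U ∨ y = z U ∨ y ∈ S := by
  by_cases h1 : y ∈ S
  · exact Or.inr (Or.inr h1)
  · by_cases h2 : y ∈ U
    · exact Or.inl h2
    · exact Or.inr (Or.inl (a.r.only U hU x hx y (Finset.mem_sdiff.2 ⟨hy, h1⟩) h2 hxy))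

/-- A hub other than `z U` is not adjacent to `U`. -/
lemma Al.hub_not (a : Al N K A C S Z P z) {U U' : Finset V} (hU : U ∈ P) (hU' : U' ∈ P)
    (hne : U' ≠ U) {x : V} (hx : x ∈ U) : x ∉ N (z U') := by
  intro h
  rcases a.nbr hU hx (a.ZA (a.r.mem U' hU')) (a.v.symm _ _ h) with h1 | h1 | h1
  · exact a.UZ hU h1 (a.r.mem U' hU')
  · exact hne (a.r.inj U' hU' U hU h1)
  · exact a.ZS (a.r.mem U' hU') h1

lemma Al.blk (a : Al N K A C S Z P z) {U : Finset V} (hU : U ∈ P) :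
    Blk N K U (res C U) := by
  have h0 : 0 < U.card := Finset.card_pos.2 (a.r.comps.conn U hU).1
  refine ⟨a.v.refl, a.v.symm, a.v.sys.res, a.r.comps.conn U hU, a.two U hU, ?_⟩
  have h1 := a.r.typ U hU
  rw [res_res (a.UR' hU)] at h1
  rcases h1 with ⟨h2, _⟩ | ⟨_, h2⟩
  · have := a.two U hU
    omega
  · exact h2

lemma Al.blkE (a : Al N K A C S Z P z) {U : Finset V} (hU : U ∈ P) :
    ∀ A' ⊂ U, ∀ C' ⊆ res C U, Sys N K A' C' → Conn N A' → Bd N K A' C' :=
  fun A' hA' C' hC' => a.v.hE A' (Finset.ssubset_of_ssubset_of_subset hA' (a.UA hU)) C'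
    (hC'.trans (Finset.filter_subset _ _))

lemma Al.PZ (a : Al N K A C S Z P z) : Z.card = P.card := by
  have h1 : P.image z = Z := by
    ext x
    rw [Finset.mem_image]
    constructor
    · rintro ⟨U, hU, rfl⟩
      exact a.r.mem U hU
    · intro hx
      obtain ⟨U, hU, h⟩ := a.r.surj x hx
      exact ⟨U, hU, h⟩
  rw [← h1, Finset.card_image_of_injOn]
  intro U hU U' hU' h
  exact a.r.inj U hU U' hU' h

lemma Al.gkR (a : Al N K A C S Z P z) : gk N (A \ S) (res C (A \ S)) = 2 * P.card := by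
  rw [a.r.sum, Finset.sum_congr rfl (fun U hU => by
    rw [res_res (a.UR' hU), (a.blk hU).two]), Finset.sum_const, smul_eq_mul, Nat.mul_comm]

lemma Al.gkA (a : Al N K A C S Z P z) : gk N A C = 2 * P.card + 1 := by
  have h1 := a.e.drop
  rw [a.gkR] at h1
  omega

lemma Al.P2 (a : Al N K A C S Z P z) : 2 ≤ P.card := by
  have h1 := a.e.rest.four
  rw [a.gkR] at h1
  omega

lemma Al.Acard (a : Al N K A C S Z P z) : A.card = K + P.card * (2 * K + 1) := by
  have h1 := a.ex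
  rw [a.gkA, Nat.mul_add, Nat.mul_comm (2 * K + 1) (2 * P.card)] at h1
  have h2 : 2 * P.card * (2 * K + 1) = 2 * (P.card * (2 * K + 1)) := by ring
  omega

/-- The sets `d_U`: at most one vertex, killing the star sets of `U` which avoid a given vertex. -/
lemma Al.crit (a : Al N K A C S Z P z) {U : Finset V} (hU : U ∈ P) (v : V) :
    ∃ D, D ⊆ U ∧ D.card ≤ 1 ∧ (v ∈ U → ∀ T ∈ C, T ⊆ U → v ∉ T → Hit N D T) := by
  obtain ⟨D, h1, h2, h3⟩ := (a.blk hU).crit (a.blkE hU) v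
  exact ⟨D, h1, h2, fun hv T hT hTU hvT => h3 hv T (mem_res.2 ⟨hT, hTU⟩) hvT⟩

/-- The general killing argument: a set `Y` outside the blocks and at most one vertex in each
block. `w U` is a vertex of `U` with a neighbour in `Y`. -/
lemma Al.kill (a : Al N K A C S Z P z) {Y : Finset V} (hY : Y ⊆ A) (F : Finset (Finset V))
    (hF : F ⊆ P)
    (w : Finset V → V) (hw : ∀ U ∈ P, U ∉ F → w U ∈ U ∧ ∃ y ∈ Y, w U ∈ N y)
    (hwF : ∀ U ∈ F, ∀ T ∈ C, T ⊆ U → Hit N Y T)
    (hk : ∀ T ∈ C, ¬ T ⊆ (A \ S) \ Z → Hit N Y T) :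
    2 * P.card + 1 + F.card ≤ Y.card + P.card := by
  classical
  have h0 : ∀ U : Finset V, ∃ D : Finset V, U ∈ P → D ⊆ U ∧ D.card ≤ 1 ∧
      (w U ∈ U → ∀ T ∈ C, T ⊆ U → w U ∉ T → Hit N D T) := by
    intro U
    by_cases hU : U ∈ P
    · obtain ⟨D, h1, h2, h3⟩ := a.crit hU (w U)
      exact ⟨D, fun _ => ⟨h1, h2, h3⟩⟩
    · exact ⟨∅, fun h => absurd h hU⟩
  choose D hD using h0
  have h1 := gk_le_union (C' := C) (Y := Y) a.r.comps a.v.sys
    (Finset.sdiff_subset.trans Finset.sdiff_subset) hY subset_rfl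
    (fun U => if U ∈ F then ∅ else D U)
    (fun U hU => by
      by_cases hUF : U ∈ F
      · simp [hUF]
      · simp only [hUF, if_false]
        exact (hD U hU).1.trans (a.UA hU))
    hk
    (fun U hU T hT hTU => by
      by_cases hUF : U ∈ F
      · exact Or.inl (hwF U hUF T hT hTU)
      · simp only [hUF, if_false]
        obtain ⟨hwU, y, hy, hwy⟩ := hw U hU hUF
        by_cases hwT : w U ∈ T
        · exact Or.inl ⟨y, hy, w U, hwT, hwy⟩
        · exact Or.inr ((hD U hU).2.2 hwU T hT hTU hwT))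
  rw [a.gkA] at h1
  have h2 : ∑ U ∈ P, (if U ∈ F then (∅ : Finset V) else D U).card ≤
      ∑ U ∈ P, (if U ∈ F then 0 else 1) := by
    apply Finset.sum_le_sum
    intro U hU
    by_cases hUF : U ∈ F
    · simp [hUF]
    · simp only [hUF, if_false]
      exact (hD U hU).2.1
  have h3 : ∑ U ∈ P, (if U ∈ F then 0 else 1) + F.card = P.card := by
    have h4 : F.card = ∑ U ∈ P, (if U ∈ F then 1 else 0) := by
      rw [← Finset.card_filter]
      congr 1
      ext U
      rw [Finset.mem_filter]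
      exact ⟨fun hU => ⟨hF hU, hU⟩, fun hU => hU.2⟩
    rw [h4, ← Finset.sum_add_distrib]
    rw [Finset.card_eq_sum_ones]
    apply Finset.sum_congr rfl
    intro U _
    by_cases hUF : U ∈ F <;> simp [hUF]
  omega

/-- A star set which is not inside the blocks meets `S` or contains a hub. -/
lemma Al.not_sub (a : Al N K A C S Z P z) {T : Finset V} (hT : T ∈ C)
    (h : ¬ T ⊆ (A \ S) \ Z) : (∃ x ∈ T, x ∈ S) ∨ ∃ U ∈ P, z U ∈ T := by
  rw [Finset.not_subset] at h
  obtain ⟨x, hx, hn⟩ := h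
  have hxA := a.v.sys.sub T hT hx
  rcases a.cases hxA with h1 | ⟨U, hU, rfl⟩ | ⟨U, hU, h1⟩
  · exact Or.inl ⟨x, hx, h1⟩
  · exact Or.inr ⟨U, hU, hx⟩
  · exact absurd (a.UR hU h1) hn

/-- Another hub adjacent to a given one. -/
lemma Al.hub_adj (a : Al N K A C S Z P z) {U : Finset V} (hU : U ∈ P) :
    ∃ U' ∈ P, U' ≠ U ∧ z U' ∈ N (z U) := by
  have hne : ({z U} : Finset V) ≠ Z := by
    intro h
    have h1 := a.PZ
    rw [← h, Finset.card_singleton] at h1
    have := a.P2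
    omega
  obtain ⟨x, hx, y, hy, hyx, hyN⟩ := a.r.conn.2 {z U}
    (Finset.singleton_subset_iff.2 (a.r.mem U hU)) (Finset.singleton_nonempty _) hne
  rw [Finset.mem_singleton] at hx
  rw [Finset.mem_singleton] at hyx
  obtain ⟨U', hU', rfl⟩ := a.r.surj y hy
  refine ⟨U', hU', ?_, ?_⟩
  · rintro rfl
    exact hyx rfl
  · rw [← hx]; exact hyN

/-- The neighbour of the hub in its block. -/
lemma Al.foot (a : Al N K A C S Z P z) {U : Finset V} (hU : U ∈ P) :
    ∃ b ∈ U, b ∈ N (z U) := a.r.adj U hU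

end

end Pool.Agent.Star.Rig
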