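import Pool.Agent.Star.Alpha2

/-!
# The rigid rest: adjacency of the blocks to the end, at least three blocks
-/

set_option autoImplicit false
set_option linter.unusedSectionVars false
set_option linter.unusedVariables false

namespace Pool.Agent.Star.Rig

open Finset

variable {V : Type*} [DecidableEq V]

section
variable {N : V → Finset V} {K : ℕ} {A : Finset V} {C : Finset (Finset V)} {S Z : Finset V}
  {P : Finset (Finset V)} {z : Finset V → V}

/-- Every edge is used by a star set centred at one of its ends. -/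
lemma Viol.star_edge (h : Viol N K A C) {y x : V} (hyx : y ≠ x) (hy : y ∈ A) (hx : x ∈ A)
    (hxy : x ∈ N y) : ∃ Y ∈ C, y ∈ Y ∧ x ∈ Y ∧ (Y ⊆ N y ∨ Y ⊆ N x) := by
  by_contra hcon
  push Not at hcon
  apply h.edge_used hyx hy hx hxy
  refine ⟨h.sys.sub, h.sys.card, ?_⟩
  intro Y hY
  obtain ⟨c, hc, hcN⟩ := h.sys.cen Y hY
  refine ⟨c, hc, ?_⟩
  intro a ha
  rw [mem_del hyx]
  refine ⟨hcN ha, ?_, ?_⟩
  · rintro ⟨rfl, rfl⟩
    exact (hcon Y hY hc ha).1 hcN
  · rintro ⟨rfl, rfl⟩
    exact (hcon Y hY ha hc).2 hcN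

/-- The set of all hubs dominates all star sets containing a hub. -/
lemma Al.hubs (a : Al N K A C S Z P z) {T : Finset V} (h : ∃ U ∈ P, z U ∈ T) : Hit N Z T := by
  obtain ⟨U, hU, hzT⟩ := h
  exact ⟨z U, a.r.mem U hU, z U, hzT, a.v.refl _⟩

/-- **(1)** Every block is adjacent to `S`. -/
lemma Al.touch (a : Al N K A C S Z P z) {U : Finset V} (hU : U ∈ P) :
    ∃ u ∈ S, ∃ t ∈ U, t ∈ N u := by
  classical
  by_contra hcon
  push Not at hcon
  -- neighbours of `U`
  have hnb : ∀ x ∈ U, ∀ y ∈ A, y ∈ N x → y ∈ U ∨ y = z U := by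
    intro x hx y hy hxy
    rcases a.nbr hU hx hy hxy with h | h | h
    · exact Or.inl h
    · exact Or.inr h
    · exact absurd (a.v.symm _ _ hxy) (hcon y h x hx)
  set X := insert (z U) U with hX
  have hzU : z U ∉ U := fun h => a.UZ hU h (a.r.mem U hU)
  have hXc : X.card = 2 * K + 1 := by
    rw [hX, Finset.card_insert_of_notMem hzU, a.two U hU]
  have hXA : X ⊆ A := Finset.insert_subset (a.ZA (a.r.mem U hU)) (a.UA hU)
  obtain ⟨b, hb, hbz⟩ := a.foot hU
  obtain ⟨d, hd, hdc, hdk⟩ := a.crit hU b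
  obtain ⟨F, hF⟩ := exists_comps (N := N) a.v.symm (A \ X)
  have hss : ∀ W ∈ F, W ⊂ A := fun W hW =>
    Finset.ssubset_of_subset_of_ssubset (hF.cl W hW).1
      (Finset.sdiff_ssubset hXA ⟨z U, Finset.mem_insert_self _ _⟩)
  have hopt : ∀ W : Finset V, ∃ D, D ⊆ W ∧ Kills N D (res C W) ∧ D.card = gk N W (res C W) :=
    fun W => exists_gk a.v.refl (a.v.sys.res).sub
      (fun T hT => (a.v.sys.res (B := W)).nonempty hT)
  choose D1 hD1 hD1k hD1c using hopt
  have h1 := gk_le_union (C' := C) (Y := insert (z U) d) hF a.v.sys Finset.sdiff_subset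
    (Finset.insert_subset (a.ZA (a.r.mem U hU)) (hd.trans (a.UA hU))) subset_rfl D1
    (fun W hW => (hD1 W).trans (hss W hW).1)
    (fun T hT hTn => by
      rw [Finset.not_subset] at hTn
      obtain ⟨x, hx, hxn⟩ := hTn
      have hxX : x ∈ X := by
        by_contra hxX
        exact hxn (Finset.mem_sdiff.2 ⟨a.v.sys.sub T hT hx, hxX⟩)
      by_cases hzT : z U ∈ T
      · exact ⟨z U, Finset.mem_insert_self _ _, z U, hzT, a.v.refl _⟩
      · have hxU : x ∈ U := by
          rcases Finset.mem_insert.1 hxX with rfl | h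
          · exact absurd hx hzT
          · exact h
        have hTU : T ⊆ U := by
          obtain ⟨c, hc, hcN⟩ := a.v.sys.cen T hT
          have hcA := a.v.sys.sub T hT hc
          have hcU : c ∈ U := by
            rcases hnb x hxU c hcA (a.v.symm _ _ (hcN hx)) with h | h
            · exact h
            · exact absurd (h ▸ hc) hzT
          intro y hy
          rcases hnb c hcU y (a.v.sys.sub T hT hy) (hcN hy) with h | h
          · exact h
          · exact absurd (h ▸ hy) hzT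
        by_cases hbT : b ∈ T
        · exact ⟨z U, Finset.mem_insert_self _ _, b, hbT, hbz⟩
        · exact (hdk hb T hT hTU hbT).mono (Finset.subset_insert _ _))
    (fun W hW T hT hTW => Or.inr (hD1k W T (mem_res.2 ⟨hT, hTW⟩)))
  rw [Finset.sum_congr rfl (fun W _ => hD1c W)] at h1
  have h2 := Finset.card_insert_le (z U) d
  have hcard : (A \ X).card + X.card = A.card := Finset.card_sdiff_add_card_eq_card hXA
  -- an exceptional component
  obtain ⟨W, hW, hWT⟩ : ∃ W ∈ F, Typ N K W (res C W) := by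
    by_contra hn
    push Not at hn
    have h3 : (2 * K + 1) * ∑ W ∈ F, gk N W (res C W) ≤ 2 * (A \ X).card := by
      rw [hF.card, Finset.mul_sum, Finset.mul_sum]
      apply Finset.sum_le_sum
      intro W hW
      exact bd_exc (a.v.hE W (hss W hW) (res C W) (Finset.filter_subset _ _) a.v.sys.res
        (hF.conn W hW)) (hn W hW)
    have h4 := Nat.mul_le_mul_left (2 * K + 1)
      (h1.trans (Nat.add_le_add_right (show (insert (z U) d).card ≤ 2 by omega) _))
    have h5 := a.ex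
    rw [Nat.mul_add] at h4
    omega
  have hWc : W.card ≤ 2 * K := by
    rcases hWT with ⟨h, _⟩ | ⟨h, _⟩ <;> omega
  -- it contains no block vertex
  have hblk : ∀ U' ∈ P, ∀ x ∈ U', x ∉ W := by
    intro U' hU' x hx hxW
    have hne : U' ≠ U := by
      rintro rfl
      exact (Finset.mem_sdiff.1 ((hF.cl W hW).1 hxW)).2 (Finset.mem_insert_of_mem hx)
    have hsub : U' ⊆ A \ X := by
      intro y hy
      refine Finset.mem_sdiff.2 ⟨a.UA hU' hy, ?_⟩
      intro hyX
      rcases Finset.mem_insert.1 hyX with rfl | h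
      · exact a.UZ hU' hy (a.r.mem U hU)
      · exact hne (a.UU hU' hU hy h)
    have h3 : U' ⊆ W := (a.r.comps.conn U' hU').subset_of_closed hsub (hF.cl W hW) hx hxW
    obtain ⟨b', hb', hbz'⟩ := a.foot hU'
    have hzX : z U' ∈ A \ X := by
      refine Finset.mem_sdiff.2 ⟨a.ZA (a.r.mem U' hU'), ?_⟩
      intro hzX
      rcases Finset.mem_insert.1 hzX with h | h
      · exact hne (a.r.inj U' hU' U hU h)
      · exact a.UZ hU h (a.r.mem U' hU')
    have h4 : z U' ∈ W := (hF.cl W hW).2 b' (h3 hb') (z U') hzX (a.v.symm _ _ hbz')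
    have h5 : insert (z U') U' ⊆ W := Finset.insert_subset h4 h3
    have h6 := Finset.card_le_card h5
    rw [Finset.card_insert_of_notMem (fun h => a.UZ hU' h (a.r.mem U' hU')), a.two U' hU'] at h6
    omega
  -- nor a hub
  have hhub : ∀ U' ∈ P, z U' ∉ W := by
    intro U' hU' hzW
    have hne : U' ≠ U := by
      rintro rfl
      exact (Finset.mem_sdiff.1 ((hF.cl W hW).1 hzW)).2 (Finset.mem_insert_self _ _)
    obtain ⟨b', hb', hbz'⟩ := a.foot hU'
    have hbX : b' ∈ A \ X := by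
      refine Finset.mem_sdiff.2 ⟨a.UA hU' hb', ?_⟩
      intro hbX
      rcases Finset.mem_insert.1 hbX with rfl | h
      · exact a.UZ hU' hb' (a.r.mem U hU)
      · exact hne (a.UU hU' hU hb' h)
    exact hblk U' hU' b' hb' ((hF.cl W hW).2 (z U') hzW b' hbX hbz')
  have hWS : W ⊆ S := by
    intro x hx
    rcases a.cases ((hss W hW).1 hx) with h | ⟨U', hU', rfl⟩ | ⟨U', hU', h⟩
    · exact h
    · exact absurd hx (hhub U' hU')
    · exact absurd hx (hblk U' hU' x h)
  have hSX : S ⊆ A \ X := by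
    intro x hx
    refine Finset.mem_sdiff.2 ⟨a.SA hx, ?_⟩
    intro hxX
    rcases Finset.mem_insert.1 hxX with rfl | h
    · exact a.ZS (a.r.mem U hU) hx
    · exact a.US hU h hx
  obtain ⟨c, hc, hcN⟩ := a.v.sys.cen S a.e.mem
  obtain ⟨w, hw⟩ := (hF.conn W hW).1
  have hSW : S ⊆ W := (conn_star a.v.symm hc (fun x hx => hcN hx)).subset_of_closed hSX
    (hF.cl W hW) (hWS hw) hw
  -- the neighbours of `S`
  have hSn : ∀ x ∈ S, ∀ y ∈ A, y ∈ N x → y ∈ S ∨ y = z U := by
    intro x hx y hy hxy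
    by_cases hyX : y ∈ X
    · rcases Finset.mem_insert.1 hyX with h | h
      · exact Or.inr h
      · exact absurd hxy (hcon x hx y h)
    · exact Or.inl (hWS ((hF.cl W hW).2 x (hSW hx) y (Finset.mem_sdiff.2 ⟨hy, hyX⟩) hxy))
  have hSne : S ≠ A := by
    rintro rfl
    exact a.ZS (a.r.mem U hU) (a.ZA (a.r.mem U hU))
  obtain ⟨s1, hs1, y1, hy1, hy1S, hsy⟩ := a.v.conn.2 S a.SA ⟨c, hc⟩ hSne
  have hy1z : y1 = z U := by
    rcases hSn s1 hs1 y1 hy1 hsy with h | h
    · exact absurd h hy1S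
    · exact h
  -- all hubs kill everything outside the blocks
  have hfoot : ∀ U' : Finset V, ∃ b, U' ∈ P → b ∈ U' ∧ b ∈ N (z U') := by
    intro U'
    by_cases hU' : U' ∈ P
    · obtain ⟨b', h3, h4⟩ := a.foot hU'
      exact ⟨b', fun _ => ⟨h3, h4⟩⟩
    · exact ⟨z U', fun h => absurd h hU'⟩
  choose w' hw' using hfoot
  have h3 := a.kill a.ZA ∅ (Finset.empty_subset _) w'
    (fun U' hU' _ => ⟨(hw' U' hU').1, z U', a.r.mem U' hU', (hw' U' hU').2⟩)
    (fun U' hU' => absurd hU' (Finset.notMem_empty _))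
    (fun T hT hTn => by
      by_cases hh : ∃ U' ∈ P, z U' ∈ T
      · exact a.hubs hh
      · rcases a.not_sub hT hTn with ⟨x, hx, hxS⟩ | h
        · have hTS : T ⊆ S := by
            obtain ⟨g, hg, hgN⟩ := a.v.sys.cen T hT
            have hgA := a.v.sys.sub T hT hg
            have hgS : g ∈ S := by
              rcases hSn x hxS g hgA (a.v.symm _ _ (hgN hx)) with h | h
              · exact h
              · exact absurd ⟨U, hU, h ▸ hg⟩ hh
            intro y hy
            rcases hSn g hgS y (a.v.sys.sub T hT hy) (hgN hy) with h | h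
            · exact h
            · exact absurd ⟨U, hU, h ▸ hy⟩ hh
          have hTeq : T = S := Finset.eq_of_subset_of_card_le hTS
            (by rw [a.Scard, a.v.sys.card T hT])
          rw [hTeq]
          exact ⟨z U, a.r.mem U hU, s1, hs1, a.v.symm _ _ (hy1z ▸ hsy)⟩
        · exact absurd h hh)
  rw [a.PZ, Finset.card_empty] at h3
  omega

/-- **(3)** If `u` in `S` touches two blocks then the hub of one of them is adjacent to no other
hub than that of the other block. -/
lemma Al.two_touch (a : Al N K A C S Z P z) {U1 U2 : Finset V} (h1 : U1 ∈ P) (h2 : U2 ∈ P)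
    (hne : U1 ≠ U2) {u v1 v2 : V} (hu : u ∈ S) (hv1 : v1 ∈ U1) (hv2 : v2 ∈ U2)
    (huv1 : v1 ∈ N u) (huv2 : v2 ∈ N u) :
    (∀ U ∈ P, z U ∈ N (z U1) → U = U1 ∨ U = U2) ∨
      (∀ U ∈ P, z U ∈ N (z U2) → U = U1 ∨ U = U2) := by
  classical
  by_contra hcon
  push Not at hcon
  obtain ⟨⟨W1, hW1, hW1a, hW11, hW12⟩, ⟨W2, hW2, hW2a, hW21, hW22⟩⟩ := hcon
  obtain ⟨x, hx, hxN⟩ := a.v.sys.cen S a.e.mem
  have hz12 : z U1 ≠ z U2 := fun h => hne (a.r.inj U1 h1 U2 h2 h)
  set Z' := (Z.erase (z U1)).erase (z U2) with hZ'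
  have hmem : ∀ U ∈ P, U ≠ U1 → U ≠ U2 → z U ∈ Z' := by
    intro U hU hU1 hU2
    refine Finset.mem_erase.2 ⟨fun h => hU2 (a.r.inj U hU U2 h2 h),
      Finset.mem_erase.2 ⟨fun h => hU1 (a.r.inj U hU U1 h1 h), a.r.mem U hU⟩⟩
  have hZ'c : Z'.card + 2 = Z.card := by
    have e1 := Finset.card_erase_add_one (a.r.mem U1 h1)
    have e2 : (Z.erase (z U1)).card = Z'.card + 1 :=
      (Finset.card_erase_add_one (Finset.mem_erase.2 ⟨hz12.symm, a.r.mem U2 h2⟩)).symm
    omega
  set Y := insert x (insert u Z') with hY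
  have hYA : Y ⊆ A := by
    refine Finset.insert_subset (a.SA hx) (Finset.insert_subset (a.SA hu) ?_)
    exact (Finset.erase_subset _ _).trans ((Finset.erase_subset _ _).trans a.ZA)
  have hYc : Y.card ≤ Z.card := by
    have e1 := Finset.card_insert_le x (insert u Z')
    have e2 := Finset.card_insert_le u Z'
    rw [hY]
    omega
  have hfoot : ∀ U : Finset V, ∃ b, U ∈ P → b ∈ U ∧ ∃ y ∈ Y, b ∈ N y := by
    intro U
    by_cases hU : U ∈ P
    · by_cases e1 : U = U1
      · exact ⟨v1, fun _ => ⟨e1 ▸ hv1, u, by simp [hY], huv1⟩⟩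
      · by_cases e2 : U = U2
        · exact ⟨v2, fun _ => ⟨e2 ▸ hv2, u, by simp [hY], huv2⟩⟩
        · obtain ⟨b', h3, h4⟩ := a.foot hU
          exact ⟨b', fun _ => ⟨h3, z U, Finset.mem_insert_of_mem
            (Finset.mem_insert_of_mem (hmem U hU e1 e2)), h4⟩⟩
    · exact ⟨u, fun h => absurd h hU⟩
  choose w hw using hfoot
  have h3 := a.kill hYA ∅ (Finset.empty_subset _) w
    (fun U hU _ => hw U hU)
    (fun U' hU' => absurd hU' (Finset.notMem_empty _))
    (fun T hT hTn => by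
      rcases a.not_sub hT hTn with ⟨y, hy, hyS⟩ | ⟨U, hU, hzT⟩
      · exact ⟨x, Finset.mem_insert_self _ _, y, hy, hxN hyS⟩
      · by_cases e1 : U = U1
        · exact ⟨z W1, Finset.mem_insert_of_mem (Finset.mem_insert_of_mem
            (hmem W1 hW1 hW11 hW12)), z U, hzT, a.v.symm _ _ (e1 ▸ hW1a)⟩
        · by_cases e2 : U = U2
          · exact ⟨z W2, Finset.mem_insert_of_mem (Finset.mem_insert_of_mem
              (hmem W2 hW2 hW21 hW22)), z U, hzT, a.v.symm _ _ (e2 ▸ hW2a)⟩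
          · exact ⟨z U, Finset.mem_insert_of_mem (Finset.mem_insert_of_mem
              (hmem U hU e1 e2)), z U, hzT, a.v.refl _⟩)
  rw [Finset.card_empty] at h3
  have h4 := a.PZ
  omega

/-- No vertex of `S` kills all star sets of a block. -/
lemma Al.S_miss (a : Al N K A C S Z P z) {U : Finset V} (hU : U ∈ P) {u : V} (hu : u ∈ S) :
    ∃ T ∈ res C U, ∀ x ∈ T, x ∉ N u := by
  classical
  by_contra hcon
  push Not at hcon
  obtain ⟨x, hx, hxN⟩ := a.v.sys.cen S a.e.mem
  obtain ⟨W, hW, hWU, hWa⟩ := a.hub_adj hU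
  set Y := insert x (insert u (Z.erase (z U))) with hY
  have hmem : ∀ U' ∈ P, U' ≠ U → z U' ∈ Y := by
    intro U' hU' hne
    exact Finset.mem_insert_of_mem (Finset.mem_insert_of_mem
      (Finset.mem_erase.2 ⟨fun h => hne (a.r.inj U' hU' U hU h), a.r.mem U' hU'⟩))
  have hYA : Y ⊆ A := Finset.insert_subset (a.SA hx) (Finset.insert_subset (a.SA hu)
    ((Finset.erase_subset _ _).trans a.ZA))
  have hYc : Y.card ≤ Z.card + 1 := by
    have e1 := Finset.card_insert_le x (insert u (Z.erase (z U)))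
    have e2 := Finset.card_insert_le u (Z.erase (z U))
    have e3 := Finset.card_erase_add_one (a.r.mem U hU)
    rw [hY]
    omega
  have hfoot : ∀ U' : Finset V, ∃ b, U' ∈ P → U' ∉ ({U} : Finset (Finset V)) →
      b ∈ U' ∧ ∃ y ∈ Y, b ∈ N y := by
    intro U'
    by_cases hU' : U' ∈ P
    · obtain ⟨b', h3, h4⟩ := a.foot hU'
      exact ⟨b', fun _ hne => ⟨h3, z U', hmem U' hU'
        (fun h => hne (Finset.mem_singleton.2 h)), h4⟩⟩
    · exact ⟨u, fun h => absurd h hU'⟩
  choose w hw using hfoot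
  have h3 := a.kill hYA {U} (Finset.singleton_subset_iff.2 hU) w
    (fun U' hU' hn => hw U' hU' hn)
    (fun U' hU' T hT hTU => by
      rw [Finset.mem_singleton.1 hU'] at hTU
      obtain ⟨y, hy, hyN⟩ := hcon T (mem_res.2 ⟨hT, hTU⟩)
      exact ⟨u, by simp [hY], y, hy, hyN⟩)
    (fun T hT hTn => by
      rcases a.not_sub hT hTn with ⟨y, hy, hyS⟩ | ⟨U', hU', hzT⟩
      · exact ⟨x, Finset.mem_insert_self _ _, y, hy, hxN hyS⟩
      · by_cases e1 : U' = U
        · exact ⟨z W, hmem W hW hWU, z U', hzT, a.v.symm _ _ (e1 ▸ hWa)⟩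
        · exact ⟨z U', hmem U' hU' e1, z U', hzT, a.v.refl _⟩)
  rw [Finset.card_singleton] at h3
  have h4 := a.PZ
  omega

end

end Pool.Agent.Star.Rig
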