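import Pool.Agent.Star.Alpha3

/-!
# The rigid rest: connected parts, at least three blocks
-/

set_option autoImplicit false
set_option linter.unusedSectionVars false
set_option linter.unusedVariables false

namespace Pool.Agent.Star.Rig

open Finset

variable {V : Type*} [DecidableEq V]

/-- `p` and `q` cannot be separated by a set closed under adjacency in `X`. -/
def Lk (N : V → Finset V) (X : Finset V) (p q : V) : Prop :=
  ∀ B : Finset V, (∀ a ∈ B, ∀ x ∈ X, x ∈ N a → x ∈ B) → (p ∈ B ↔ q ∈ B)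

/-- `p` and `q` cannot be separated by a separated set. -/
def SLk (J : Finset (Finset V)) (p q : V) : Prop := ∀ B : Finset V, Sep J B → (p ∈ B ↔ q ∈ B)

section
variable {N : V → Finset V} {K : ℕ} {A : Finset V} {C : Finset (Finset V)} {S Z : Finset V}
  {P : Finset (Finset V)} {z : Finset V → V} {X : Finset V} {J : Finset (Finset V)} {p q r : V}

lemma Lk.refl (p : V) : Lk N X p p := fun _ _ => Iff.rfl

lemma Lk.symm (h : Lk N X p q) : Lk N X q p := fun B hB => (h B hB).symm

lemma Lk.trans (h : Lk N X p q) (h' : Lk N X q r) : Lk N X p r :=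
  fun B hB => (h B hB).trans (h' B hB)

lemma Lk.of_adj (hsym : ∀ x y, x ∈ N y → y ∈ N x) (hp : p ∈ X) (hq : q ∈ X) (h : q ∈ N p) :
    Lk N X p q :=
  fun B hB => ⟨fun hpB => hB p hpB q hq h, fun hqB => hB q hqB p hp (hsym _ _ h)⟩

lemma Lk.of_conn {Y : Finset V} (hY : Conn N Y) (hYX : Y ⊆ X) (hp : p ∈ Y) (hq : q ∈ Y) :
    Lk N X p q := by
  intro B hB
  rcases Conn.side hY hYX hB with h | h
  · exact ⟨fun _ => h hq, fun _ => h hp⟩
  · exact ⟨fun hpB => absurd hpB (Finset.disjoint_left.1 h hp),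
      fun hqB => absurd hqB (Finset.disjoint_left.1 h hq)⟩

lemma conn_of_lk {s : V} (hs : s ∈ X) (h : ∀ x ∈ X, Lk N X x s) : Conn N X := by
  apply conn_of_side ⟨s, hs⟩
  rintro B hBX ⟨b, hb⟩ hB x hx
  exact (h x hx B hB).2 ((h b (hBX hb) B hB).1 hb)

lemma SLk.refl (p : V) : SLk J p p := fun _ _ => Iff.rfl

lemma SLk.symm (h : SLk J p q) : SLk J q p := fun B hB => (h B hB).symm

lemma SLk.trans (h : SLk J p q) (h' : SLk J q r) : SLk J p r :=
  fun B hB => (h B hB).trans (h' B hB)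

lemma SLk.of_star {T : Finset V} (hT : T ∈ J) (hp : p ∈ T) (hq : q ∈ T) : SLk J p q := by
  intro B hB
  rcases hB T hT with h | h
  · exact ⟨fun _ => h hq, fun _ => h hp⟩
  · exact ⟨fun hpB => absurd hpB (Finset.disjoint_left.1 h hp),
      fun hqB => absurd hqB (Finset.disjoint_left.1 h hq)⟩

lemma near_of_slk {s : V} (h : ∀ x ∈ X, SLk J x s) :
    ∀ B ⊆ X, B.Nonempty → B ≠ X → ∃ T ∈ J, ¬ T ⊆ B ∧ ¬ Disjoint T B := by
  rintro B hBX ⟨b, hb⟩ hne
  by_contra hcon
  push Not at hcon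
  have hB : Sep J B := by
    intro T hT
    by_cases hTB : T ⊆ B
    · exact Or.inl hTB
    · exact Or.inr (hcon T hT hTB)
  apply hne
  apply Finset.Subset.antisymm hBX
  intro x hx
  exact (h x hx B hB).2 ((h b (hBX hb) B hB).1 hb)

lemma Al.Sconn (a : Al N K A C S Z P z) : Conn N S := by
  obtain ⟨c, hc, hcN⟩ := a.v.sys.cen S a.e.mem
  exact conn_star a.v.symm hc (fun x hx => hcN hx)

lemma Al.lkSS (a : Al N K A C S Z P z) (hS : S ⊆ X) (hp : p ∈ S) (hq : q ∈ S) : Lk N X p q :=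
  Lk.of_conn a.Sconn hS hp hq

lemma Al.lkSU (a : Al N K A C S Z P z) {U : Finset V} (hU : U ∈ P) (hS : S ⊆ X) (hUX : U ⊆ X)
    (hp : p ∈ U) (hq : q ∈ S) : Lk N X p q := by
  obtain ⟨u, hu, t, ht, hut⟩ := a.touch hU
  exact (Lk.of_conn (a.r.comps.conn U hU) hUX hp ht).trans
    ((Lk.of_adj a.v.symm (hUX ht) (hS hu) (a.v.symm _ _ hut)).trans (a.lkSS hS hu hq))

lemma Al.lkzU (a : Al N K A C S Z P z) {U : Finset V} (hU : U ∈ P) (hUX : U ⊆ X)
    (hz : z U ∈ X) (hp : p ∈ U) : Lk N X (z U) p := by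
  obtain ⟨b, hb, hbz⟩ := a.foot hU
  exact (Lk.of_adj a.v.symm hz (hUX hb) hbz).trans
    (Lk.of_conn (a.r.comps.conn U hU) hUX hb hp)

lemma Al.lkzS (a : Al N K A C S Z P z) {U : Finset V} (hU : U ∈ P) (hS : S ⊆ X) (hUX : U ⊆ X)
    (hz : z U ∈ X) (hq : q ∈ S) : Lk N X (z U) q := by
  obtain ⟨b, hb, hbz⟩ := a.foot hU
  exact (a.lkzU hU hUX hz hb).trans (a.lkSU hU hS hUX hb hq)

lemma Al.Sne (a : Al N K A C S Z P z) : S.Nonempty := a.v.sys.nonempty a.e.mem

/-- `A` without a block, its hub and one more hub is connected. -/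
lemma Al.conn3 (a : Al N K A C S Z P z) {U : Finset V} (hU : U ∈ P) {v : V} (hv : v ∈ Z) :
    Conn N (A \ (insert v (insert (z U) U))) := by
  obtain ⟨s, hs⟩ := a.Sne
  have hS : S ⊆ A \ (insert v (insert (z U) U)) := by
    intro x hx
    refine Finset.mem_sdiff.2 ⟨a.SA hx, ?_⟩
    intro h
    rcases Finset.mem_insert.1 h with h | h
    · rw [h] at hx; exact a.ZS hv hx
    · rcases Finset.mem_insert.1 h with h | h
      · rw [h] at hx; exact a.ZS (a.r.mem U hU) hx
      · exact a.US hU h hx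
  have hUX : ∀ W ∈ P, W ≠ U → W ⊆ A \ (insert v (insert (z U) U)) := by
    intro W hW hne x hx
    refine Finset.mem_sdiff.2 ⟨a.UA hW hx, ?_⟩
    intro h
    rcases Finset.mem_insert.1 h with h | h
    · rw [h] at hx; exact a.UZ hW hx hv
    · rcases Finset.mem_insert.1 h with h | h
      · rw [h] at hx; exact a.UZ hW hx (a.r.mem U hU)
      · exact hne (a.UU hW hU hx h)
  apply conn_of_lk (hS hs)
  intro x hx
  have hxA := (Finset.mem_sdiff.1 hx).1
  have hxn := (Finset.mem_sdiff.1 hx).2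
  rcases a.cases hxA with h | ⟨W, hW, rfl⟩ | ⟨W, hW, h⟩
  · exact a.lkSS hS h hs
  · have hne : W ≠ U := by
      rintro rfl
      exact hxn (Finset.mem_insert_of_mem (Finset.mem_insert_self _ _))
    exact a.lkzS hW hS (hUX W hW hne) hx hs
  · have hne : W ≠ U := by
      rintro rfl
      exact hxn (Finset.mem_insert_of_mem (Finset.mem_insert_of_mem h))
    exact a.lkSU hW hS (hUX W hW hne) h hs

/-- The hub of a block is not adjacent to a centre of the block. -/
lemma Al.hub_no_cen (a : Al N K A C S Z P z) {U : Finset V} (hU : U ∈ P) {T : Finset V}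
    (hT : T ∈ res C U) {c : V} (hc : c ∈ T) (hcN : T ⊆ N c) : z U ∉ N c := by
  intro hz
  obtain ⟨hT', _⟩ := (a.blk hU).compl hT hc hcN
  obtain ⟨c', hc', hcN'⟩ := a.v.sys.cen _ (mem_res.1 hT').1
  set X := A \ (insert (z U) U) with hX
  have hconn : Conn N X := by
    have := a.conn3 hU (a.r.mem U hU)
    rwa [Finset.insert_eq_of_mem (Finset.mem_insert_self _ _)] at this
  have hzU : z U ∉ U := fun h => a.UZ hU h (a.r.mem U hU)
  have hsub : insert (z U) U ⊆ A := Finset.insert_subset (a.ZA (a.r.mem U hU)) (a.UA hU)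
  have hcard : X.card + (2 * K + 1) = A.card := by
    have h1 := Finset.card_sdiff_add_card_eq_card hsub
    rw [Finset.card_insert_of_notMem hzU, a.two U hU] at h1
    exact h1
  have hXA : X ⊂ A := Finset.sdiff_ssubset hsub ⟨z U, Finset.mem_insert_self _ _⟩
  have hP2 := a.P2
  have hAc := a.Acard
  have h2 : 2 * (2 * K + 1) ≤ P.card * (2 * K + 1) := Nat.mul_le_mul_right _ hP2
  have hex := a.ex
  have hbd : (2 * K + 1) * gk N X (res C X) ≤ 2 * X.card := by
    rcases a.v.hE X hXA (res C X) (Finset.filter_subset _ _) a.v.sys.res hconn with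
      h | ⟨h, _⟩ | ⟨h, _⟩
    · exact h
    · omega
    · omega
  obtain ⟨D, hD, hDk, hDc⟩ := exists_gk a.v.refl (a.v.sys.res (B := X)).sub
    (fun T hT => (a.v.sys.res (B := X)).nonempty hT)
  have hTU := (mem_res.1 hT).2
  have h3 : gk N A C ≤ (insert c (insert c' D)).card := by
    apply gk_le
    · exact Finset.insert_subset (a.UA hU (hTU hc)) (Finset.insert_subset
        (a.UA hU (Finset.mem_sdiff.1 hc').1) (hD.trans hXA.1))
    · intro Y hY
      by_cases hYX : Y ⊆ X
      · exact (hDk Y (mem_res.2 ⟨hY, hYX⟩)).mono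
          ((Finset.subset_insert _ _).trans (Finset.subset_insert _ _))
      · rw [Finset.not_subset] at hYX
        obtain ⟨y, hy, hyn⟩ := hYX
        have hyX : y ∈ insert (z U) U := by
          by_contra h
          exact hyn (Finset.mem_sdiff.2 ⟨a.v.sys.sub Y hY hy, h⟩)
        rcases Finset.mem_insert.1 hyX with rfl | h
        · exact ⟨c, Finset.mem_insert_self _ _, _, hy, hz⟩
        · by_cases hyT : y ∈ T
          · exact ⟨c, Finset.mem_insert_self _ _, y, hy, hcN hyT⟩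
          · exact ⟨c', Finset.mem_insert_of_mem (Finset.mem_insert_self _ _), y, hy,
              hcN' (Finset.mem_sdiff.2 ⟨h, hyT⟩)⟩
  have h4 := Finset.card_insert_le c (insert c' D)
  have h5 := Finset.card_insert_le c' D
  have h6 := Nat.mul_le_mul_left (2 * K + 1) (show gk N A C ≤ gk N X (res C X) + 2 by omega)
  rw [Nat.mul_add] at h6
  omega

open Classical in
/-- The hub does not kill all star sets of its block. -/
lemma Al.hub_miss (a : Al N K A C S Z P z) {U : Finset V} (hU : U ∈ P) :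
    ∃ T ∈ res C U, ∀ x ∈ T, x ∉ N (z U) := by
  by_contra hcon
  push Not at hcon
  have h0 : ∀ W : Finset V, ∃ D : Finset V, W ∈ P → D ⊆ W ∧ D.card ≤ 1 ∧
      ∀ T ∈ C, T ⊆ W → Hit N Z T ∨ Hit N D T := by
    intro W
    by_cases hW : W ∈ P
    · obtain ⟨b, hb, hbz⟩ := a.foot hW
      obtain ⟨D, h1, h2, h3⟩ := a.crit hW b
      refine ⟨D, fun _ => ⟨h1, h2, ?_⟩⟩
      intro T hT hTW
      by_cases hbT : b ∈ T
      · exact Or.inl ⟨z W, a.r.mem W hW, b, hbT, hbz⟩
      · exact Or.inr (h3 hb T hT hTW hbT)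
    · exact ⟨∅, fun h => absurd h hW⟩
  choose D hD using h0
  have h1 := gk_le_union (C' := res C (A \ S)) (Y := Z) a.r.comps a.e.rest.sys
    Finset.sdiff_subset a.r.sub subset_rfl
    (fun W => if W = U then ∅ else D W)
    (fun W hW => by
      by_cases hWU : W = U
      · simp [hWU]
      · simp only [hWU, if_false]
        exact (hD W hW).1.trans (a.UR' hW))
    (fun T hT hTn => by
      apply a.hubs
      rw [Finset.not_subset] at hTn
      obtain ⟨x, hx, hxn⟩ := hTn
      have hxR := (mem_res.1 hT).2 hx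
      have hxZ : x ∈ Z := by
        by_contra h
        exact hxn (Finset.mem_sdiff.2 ⟨hxR, h⟩)
      obtain ⟨W, hW, rfl⟩ := a.r.surj x hxZ
      exact ⟨W, hW, hx⟩)
    (fun W hW T hT hTW => by
      have hTC := (mem_res.1 hT).1
      by_cases hWU : W = U
      · left
        rw [hWU] at hTW
        obtain ⟨x, hx, hxN⟩ := hcon T (mem_res.2 ⟨hTC, hTW⟩)
        exact ⟨z U, a.r.mem U hU, x, hx, hxN⟩
      · simp only [hWU, if_false]
        exact (hD W hW).2.2 T hTC hTW)
  rw [a.gkR] at h1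
  have h2 : ∑ W ∈ P, (if W = U then (∅ : Finset V) else D W).card ≤
      ∑ W ∈ P.erase U, 1 := by
    rw [← Finset.add_sum_erase P _ hU]
    simp only [if_true, Finset.card_empty, Nat.zero_add]
    apply Finset.sum_le_sum
    intro W hW
    rw [if_neg (Finset.ne_of_mem_erase hW)]
    exact (hD W (Finset.mem_of_mem_erase hW)).2.1
  rw [Finset.sum_const, smul_eq_mul, Nat.mul_one] at h2
  have h3 := Finset.card_erase_add_one hU
  have h4 := a.PZ
  omega

/-- The hub sees at most `K - 3` vertices of its block. -/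
lemma Al.beta (a : Al N K A C S Z P z) {U : Finset V} (hU : U ∈ P) :
    (U ∩ N (z U)).card + 3 ≤ K := by
  obtain ⟨X, hX, hXn⟩ := a.hub_miss hU
  have b := a.blk hU
  obtain ⟨c1, h1, c2, h2, c3, h3, h12, h13, h23, ⟨Y1, k1, l1, m1⟩, ⟨Y2, k2, l2, m2⟩,
    ⟨Y3, k3, l3, m3⟩⟩ := b.three (b.compl_mem hX)
  have hn : ∀ c Y, Y ∈ res C U → c ∈ Y → Y ⊆ N c → c ∉ U ∩ N (z U) := by
    intro c Y hY hcY hYN h
    exact a.hub_no_cen hU hY hcY hYN (a.v.symm _ _ (Finset.mem_inter.1 h).2)
  have hsub : insert c1 (insert c2 (insert c3 (U ∩ N (z U)))) ⊆ U \ X := by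
    refine Finset.insert_subset h1 (Finset.insert_subset h2 (Finset.insert_subset h3 ?_))
    intro x hx
    obtain ⟨hxU, hxN⟩ := Finset.mem_inter.1 hx
    exact Finset.mem_sdiff.2 ⟨hxU, fun h => hXn x h hxN⟩
  have hcard := Finset.card_le_card hsub
  have n3 := hn c3 Y3 k3 l3 m3
  have n2 : c2 ∉ insert c3 (U ∩ N (z U)) := by
    rw [Finset.mem_insert, not_or]
    exact ⟨h23, hn c2 Y2 k2 l2 m2⟩
  have n1 : c1 ∉ insert c2 (insert c3 (U ∩ N (z U))) := by
    rw [Finset.mem_insert, not_or, Finset.mem_insert, not_or]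
    exact ⟨h12, h13, hn c1 Y1 k1 l1 m1⟩
  rw [Finset.card_insert_of_notMem n1, Finset.card_insert_of_notMem n2,
    Finset.card_insert_of_notMem n3] at hcard
  have h4 : (U \ X).card + X.card = U.card :=
    Finset.card_sdiff_add_card_eq_card (mem_res.1 hX).2
  have h5 := a.v.sys.card X (mem_res.1 hX).1
  have h6 := a.two U hU
  omega

/-- **(2)** There are at least three blocks. -/
lemma Al.P3 (a : Al N K A C S Z P z) : 3 ≤ P.card := by
  by_contra hcon
  have hP2 := a.P2
  have hPe : P.card = 2 := by omega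
  obtain ⟨U1, U2, hne, hPeq⟩ := Finset.card_eq_two.1 hPe
  have hU1 : U1 ∈ P := by rw [hPeq]; simp
  have hU2 : U2 ∈ P := by rw [hPeq]; simp
  have hPc : ∀ U ∈ P, U = U1 ∨ U = U2 := by
    intro U hU
    rw [hPeq] at hU
    simpa using hU
  have hRc : ∀ x ∈ A \ S, x = z U1 ∨ x = z U2 ∨ x ∈ U1 ∨ x ∈ U2 := by
    intro x hx
    obtain ⟨hxA, hxS⟩ := Finset.mem_sdiff.1 hx
    rcases a.cases hxA with h | ⟨U, hU, h⟩ | ⟨U, hU, h⟩
    · exact absurd h hxS
    · rcases hPc U hU with rfl | rfl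
      · exact Or.inl h.symm
      · exact Or.inr (Or.inl h.symm)
    · rcases hPc U hU with rfl | rfl
      · exact Or.inr (Or.inr (Or.inl h))
      · exact Or.inr (Or.inr (Or.inr h))
  -- no star set of the rest is centred at a hub and contains the other hub
  have hcen : ∀ U ∈ P, ∀ T ∈ C, T ⊆ A \ S → T ⊆ N (z U) → False := by
    intro U hU T hT hTR hTN
    have h1 : T ⊆ insert (z U1) (insert (z U2) (U ∩ N (z U))) := by
      intro x hx
      have hxN := hTN hx
      rcases hRc x (hTR hx) with h | h | h | h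
      · rw [h]; exact Finset.mem_insert_self _ _
      · rw [h]; exact Finset.mem_insert_of_mem (Finset.mem_insert_self _ _)
      · by_cases hUU : U1 = U
        · exact Finset.mem_insert_of_mem (Finset.mem_insert_of_mem
            (Finset.mem_inter.2 ⟨hUU ▸ h, hxN⟩))
        · exact absurd hxN (a.hub_not hU1 hU (fun h => hUU h.symm) h)
      · by_cases hUU : U2 = U
        · exact Finset.mem_insert_of_mem (Finset.mem_insert_of_mem
            (Finset.mem_inter.2 ⟨hUU ▸ h, hxN⟩))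
        · exact absurd hxN (a.hub_not hU2 hU (fun h => hUU h.symm) h)
    have h2 := Finset.card_le_card h1
    have h3 := Finset.card_insert_le (z U1) (insert (z U2) (U ∩ N (z U)))
    have h4 := Finset.card_insert_le (z U2) (U ∩ N (z U))
    have h5 := a.beta hU
    have h6 := a.v.sys.card T hT
    omega
  have hz1 := a.r.mem U1 hU1
  have hz2 := a.r.mem U2 hU2
  set B := insert (z U1) U1 with hB
  have hBR : B ⊆ A \ S := Finset.insert_subset (a.r.sub hz1) (a.UR' hU1)
  have hz2B : z U2 ∉ B := by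
    intro h
    rcases Finset.mem_insert.1 h with h | h
    · exact hne (a.r.inj U1 hU1 U2 hU2 h.symm)
    · exact a.UZ hU1 h hz2
  have hBne : B ≠ A \ S := by
    intro h
    exact hz2B (h ▸ a.r.sub hz2)
  obtain ⟨T, hT, hTB, hTd⟩ := a.e.rest.near B hBR ⟨_, Finset.mem_insert_self _ _⟩ hBne
  obtain ⟨hTC, hTR⟩ := mem_res.1 hT
  rw [Finset.not_subset] at hTB
  rw [Finset.not_disjoint_iff] at hTd
  obtain ⟨y, hy, hyB⟩ := hTB
  obtain ⟨x, hx, hxB⟩ := hTd
  obtain ⟨c, hc, hcN⟩ := a.v.sys.cen T hTC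
  have hcR := hTR hc
  rcases hRc c hcR with h | h | h | h
  · exact hcen U1 hU1 T hTC hTR (h ▸ hcN)
  · exact hcen U2 hU2 T hTC hTR (h ▸ hcN)
  · -- centre in the first block
    have hyU : y ∉ U1 := fun h' => hyB (Finset.mem_insert_of_mem h')
    have := a.r.only U1 hU1 c h y (hTR hy) hyU (hcN hy)
    exact hyB (this ▸ Finset.mem_insert_self _ _)
  · have hxU : x ∉ U2 := by
      intro h'
      rcases Finset.mem_insert.1 hxB with h'' | h''
      · exact a.UZ hU2 (h'' ▸ h') hz1
      · exact hne (a.UU hU1 hU2 h'' h')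
    have := a.r.only U2 hU2 c h x (hTR hx) hxU (hcN hx)
    exact hz2B (this ▸ hxB)

end

end Pool.Agent.Star.Rig
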