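import Pool.Agent.Star.Alpha4

/-!
# The rigid rest: another end whose rest is vertex-critical
-/

set_option autoImplicit false
set_option linter.unusedSectionVars false
set_option linter.unusedVariables false

namespace Pool.Agent.Star.Rig

open Finset

variable {V : Type*} [DecidableEq V]

/-- The choice of a star set `T` of a block `U`: an edge `u t` from `S` to `U \ T`, used by a star
set `Y` which misses `T`. -/
structure Ch (N : V → Finset V) (C : Finset (Finset V)) (S U T Y : Finset V) (u t : V) :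
    Prop where
  hT : T ∈ res C U
  hu : u ∈ S
  ht : t ∈ U \ T
  hut : t ∈ N u
  hY : Y ∈ C
  huY : u ∈ Y
  htY : t ∈ Y
  hd : Disjoint Y T

section
variable {N : V → Finset V} {K : ℕ} {A : Finset V} {C : Finset (Finset V)} {S Z : Finset V}
  {P : Finset (Finset V)} {z : Finset V → V} {X : Finset V} {J : Finset (Finset V)}
  {U T Y : Finset V} {u t : V}

lemma Al.exists_ch (a : Al N K A C S Z P z) (hU : U ∈ P) :
    ∃ T Y u t, Ch N C S U T Y u t := by
  obtain ⟨u, hu, t, ht, hut⟩ := a.touch hU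
  have hne : u ≠ t := by
    rintro rfl
    exact a.US hU ht hu
  obtain ⟨Y, hY, huY, htY, h⟩ := a.v.star_edge hne (a.SA hu) (a.UA hU ht) hut
  rcases h with h | h
  · obtain ⟨T, hT, hTn⟩ := a.S_miss hU hu
    refine ⟨T, Y, u, t, hT, hu, Finset.mem_sdiff.2 ⟨ht, fun h' => hTn t h' hut⟩, hut, hY, huY,
      htY, ?_⟩
    rw [Finset.disjoint_left]
    intro x hx hxT
    exact hTn x hxT (h hx)
  · obtain ⟨T, hT, hTn⟩ := (a.blk hU).miss ht
    refine ⟨T, Y, u, t, hT, hu, Finset.mem_sdiff.2 ⟨ht, fun h' => hTn t h' (a.v.refl t)⟩, hut,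
      hY, huY, htY, ?_⟩
    rw [Finset.disjoint_left]
    intro x hx hxT
    exact hTn x hxT (h hx)

lemma Al.SM (a : Al N K A C S Z P z) (hU : U ∈ P) (c : Ch N C S U T Y u t) : S ⊆ A \ T := by
  intro x hx
  exact Finset.mem_sdiff.2 ⟨a.SA hx, fun h => a.US hU ((mem_res.1 c.hT).2 h) hx⟩

lemma Al.ZM (a : Al N K A C S Z P z) (hU : U ∈ P) (c : Ch N C S U T Y u t) : Z ⊆ A \ T := by
  intro x hx
  exact Finset.mem_sdiff.2 ⟨a.ZA hx, fun h => a.UZ hU ((mem_res.1 c.hT).2 h) hx⟩

lemma Al.WM (a : Al N K A C S Z P z) (hU : U ∈ P) (c : Ch N C S U T Y u t) {W : Finset V}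
    (hW : W ∈ P) (hne : W ≠ U) : W ⊆ A \ T := by
  intro x hx
  exact Finset.mem_sdiff.2 ⟨a.UA hW hx, fun h => hne (a.UU hW hU hx ((mem_res.1 c.hT).2 h))⟩

lemma Al.TsM (a : Al N K A C S Z P z) (hU : U ∈ P) (c : Ch N C S U T Y u t) :
    U \ T ⊆ A \ T := Finset.sdiff_subset_sdiff (a.UA hU) subset_rfl

lemma Al.Ts (a : Al N K A C S Z P z) (hU : U ∈ P) (c : Ch N C S U T Y u t) :
    U \ T ∈ C := (mem_res.1 ((a.blk hU).compl_mem c.hT)).1

lemma Al.Tsconn (a : Al N K A C S Z P z) (hU : U ∈ P) (c : Ch N C S U T Y u t) :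
    Conn N (U \ T) := by
  obtain ⟨g, hg, hgN⟩ := a.v.sys.cen _ (a.Ts hU c)
  exact conn_star a.v.symm hg (fun x hx => hgN hx)

lemma Al.Tcard (a : Al N K A C S Z P z) (hU : U ∈ P) (c : Ch N C S U T Y u t) :
    T.card = K ∧ (U \ T).card = K ∧ (A \ T).card + K = A.card := by
  have h1 := a.v.sys.card T (mem_res.1 c.hT).1
  have h2 := a.v.sys.card _ (a.Ts hU c)
  have h3 := Finset.card_sdiff_add_card_eq_card (a.v.sys.sub T (mem_res.1 c.hT).1)
  exact ⟨h1, h2, by omega⟩

/-- Another block. -/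
lemma Al.other (a : Al N K A C S Z P z) (U W : Finset V) : ∃ X ∈ P, X ≠ U ∧ X ≠ W := by
  by_contra hcon
  push Not at hcon
  have h1 : P ⊆ {U, W} := by
    intro X hX
    rw [Finset.mem_insert, Finset.mem_singleton]
    by_cases h : X = U
    · exact Or.inl h
    · exact Or.inr (hcon X hX h)
  have h2 := Finset.card_le_card h1
  have h3 := Finset.card_le_two (a := U) (b := W)
  have h4 := a.P3
  omega

lemma Al.Acard3 (a : Al N K A C S Z P z) : 7 * K + 3 ≤ A.card := by
  have h1 := a.Acard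
  have h2 : 3 * (2 * K + 1) ≤ P.card * (2 * K + 1) := Nat.mul_le_mul_right _ a.P3
  omega

/-- `A \ T` is connected, also without one more block. -/
lemma Al.connM (a : Al N K A C S Z P z) (hU : U ∈ P) (c : Ch N C S U T Y u t) (W : Finset V)
    (hXA : X ⊆ A) (hS : S ⊆ X) (hZ : Z ⊆ X) (hT : U \ T ⊆ X)
    (hB : ∀ U' ∈ P, U' ≠ U → U' ≠ W → U' ⊆ X)
    (hX : ∀ x ∈ X, x ∈ T ∨ (x ∈ W ∧ W ∈ P ∧ W ≠ U) → False) : Conn N X := by
  have hZS : ∀ x ∈ Z, Lk N X x u := by
    intro x hx
    obtain ⟨W', hW', h1, h2⟩ := a.other U W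
    exact (Lk.of_conn a.r.conn hZ hx (a.r.mem W' hW')).trans
      (a.lkzS hW' hS (hB W' hW' h1 h2) (hZ (a.r.mem W' hW')) c.hu)
  apply conn_of_lk (hS c.hu)
  intro x hx
  rcases a.cases (hXA hx) with h | ⟨W', hW', rfl⟩ | ⟨W', hW', h⟩
  · exact a.lkSS hS h c.hu
  · exact hZS _ (a.r.mem W' hW')
  · by_cases h1 : W' = U
    · have hxT : x ∈ U \ T := Finset.mem_sdiff.2 ⟨h1 ▸ h, fun h' => hX x hx (Or.inl h')⟩
      exact (Lk.of_conn (a.Tsconn hU c) hT hxT c.ht).trans
        (Lk.of_adj a.v.symm (hT c.ht) (hS c.hu) (a.v.symm _ _ c.hut))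
    · by_cases h2 : W' = W
      · exact absurd (Or.inr ⟨h2 ▸ h, h2 ▸ hW', h2 ▸ h1⟩) (fun h' => hX x hx h')
      · exact a.lkSU hW' hS (hB W' hW' h1 h2) h c.hu

lemma Al.conn_rest (a : Al N K A C S Z P z) (hU : U ∈ P) (c : Ch N C S U T Y u t) :
    Conn N (A \ T) := by
  apply a.connM hU c U Finset.sdiff_subset (a.SM hU c) (a.ZM hU c) (a.TsM hU c)
    (fun U' hU' h1 _ => a.WM hU c hU' h1)
  intro x hx h
  rcases h with h | ⟨_, _, h⟩
  · exact (Finset.mem_sdiff.1 hx).2 h
  · exact h rfl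

/-- Every vertex of `A \ T` leaves a large connected set with a small complement. -/
lemma Al.big (a : Al N K A C S Z P z) (hU : U ∈ P) (c : Ch N C S U T Y u t) {v : V}
    (hv : v ∈ A \ T) :
    ∃ W, W ⊆ (A \ T).erase v ∧ Conn N W ∧ 2 * K < W.card ∧
      (((A \ T).erase v) \ W).card < 2 * K := by
  obtain ⟨hT1, hT2, hT3⟩ := a.Tcard hU c
  have hA3 := a.Acard3
  have hK := a.Kpos
  obtain ⟨hvA, hvT⟩ := Finset.mem_sdiff.1 hv
  have hTU := (mem_res.1 c.hT).2
  rcases a.cases hvA with h | ⟨W', hW', h⟩ | ⟨W', hW', h⟩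
  · -- `v` in `S`
    have hZX : Z ⊆ (A \ S) \ U := fun x hx =>
      Finset.mem_sdiff.2 ⟨a.r.sub hx, fun h' => a.UZ hU h' hx⟩
    have hsubU : U ⊆ A \ S := a.UR' hU
    refine ⟨(A \ S) \ U, ?_, ?_, ?_, ?_⟩
    · intro x hx
      obtain ⟨h1, h2⟩ := Finset.mem_sdiff.1 hx
      obtain ⟨h3, h4⟩ := Finset.mem_sdiff.1 h1
      refine Finset.mem_erase.2 ⟨?_, Finset.mem_sdiff.2 ⟨h3, fun h' => h2 (hTU h')⟩⟩
      rintro rfl
      exact h4 h
    · apply conn_of_lk (hZX (a.r.mem U hU))
      intro x hx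
      obtain ⟨h1, h2⟩ := Finset.mem_sdiff.1 hx
      obtain ⟨h3, h4⟩ := Finset.mem_sdiff.1 h1
      rcases a.cases h3 with h' | ⟨W, hW, rfl⟩ | ⟨W, hW, h'⟩
      · exact absurd h' h4
      · exact Lk.of_conn a.r.conn hZX (a.r.mem W hW) (a.r.mem U hU)
      · have hne : W ≠ U := by
          rintro rfl
          exact h2 h'
        have hWX : W ⊆ (A \ S) \ U := fun y hy =>
          Finset.mem_sdiff.2 ⟨a.UR' hW hy, fun h'' => hne (a.UU hW hU hy h'')⟩
        exact (a.lkzU hW hWX (hZX (a.r.mem W hW)) h').symm.trans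
          (Lk.of_conn a.r.conn hZX (a.r.mem W hW) (a.r.mem U hU))
    · have e1 := Finset.card_sdiff_add_card_eq_card a.SA
      have e2 := Finset.card_sdiff_add_card_eq_card hsubU
      have e3 := a.Scard
      have e4 := a.two U hU
      omega
    · have hsub : ((A \ T).erase v) \ ((A \ S) \ U) ⊆ (S.erase v) ∪ (U \ T) := by
        intro x hx
        obtain ⟨h1, h2⟩ := Finset.mem_sdiff.1 hx
        obtain ⟨h3, h4⟩ := Finset.mem_erase.1 h1
        obtain ⟨h5, h6⟩ := Finset.mem_sdiff.1 h4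
        by_cases h7 : x ∈ S
        · exact Finset.mem_union_left _ (Finset.mem_erase.2 ⟨h3, h7⟩)
        · by_cases h8 : x ∈ U
          · exact Finset.mem_union_right _ (Finset.mem_sdiff.2 ⟨h8, h6⟩)
          · exact absurd (Finset.mem_sdiff.2 ⟨Finset.mem_sdiff.2 ⟨h5, h7⟩, h8⟩) h2
      have e1 := Finset.card_le_card hsub
      have e2 := Finset.card_union_le (S.erase v) (U \ T)
      have e3 := Finset.card_erase_add_one h
      have e4 := a.Scard
      omega
  · -- `v` a hub
    have hvZ : v ∈ Z := h ▸ a.r.mem W' hW'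
    refine ⟨A \ (insert v (insert (z U) U)), ?_, a.conn3 hU hvZ, ?_, ?_⟩
    · intro x hx
      obtain ⟨h1, h2⟩ := Finset.mem_sdiff.1 hx
      refine Finset.mem_erase.2 ⟨?_, Finset.mem_sdiff.2 ⟨h1, ?_⟩⟩
      · rintro rfl
        exact h2 (Finset.mem_insert_self _ _)
      · intro h'
        exact h2 (Finset.mem_insert_of_mem (Finset.mem_insert_of_mem (hTU h')))
    · have hsub : insert v (insert (z U) U) ⊆ A :=
        Finset.insert_subset hvA (Finset.insert_subset (a.ZA (a.r.mem U hU)) (a.UA hU))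
      have e1 := Finset.card_sdiff_add_card_eq_card hsub
      have e2 := Finset.card_insert_le v (insert (z U) U)
      have e3 := Finset.card_insert_le (z U) U
      have e4 := a.two U hU
      omega
    · have hsub : ((A \ T).erase v) \ (A \ (insert v (insert (z U) U))) ⊆
          insert (z U) (U \ T) := by
        intro x hx
        obtain ⟨h1, h2⟩ := Finset.mem_sdiff.1 hx
        obtain ⟨h3, h4⟩ := Finset.mem_erase.1 h1
        obtain ⟨h5, h6⟩ := Finset.mem_sdiff.1 h4
        by_cases h7 : x = z U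
        · rw [h7]; exact Finset.mem_insert_self _ _
        · by_cases h8 : x ∈ U
          · exact Finset.mem_insert_of_mem (Finset.mem_sdiff.2 ⟨h8, h6⟩)
          · refine absurd (Finset.mem_sdiff.2 ⟨h5, ?_⟩) h2
            rw [Finset.mem_insert, Finset.mem_insert]
            push Not
            exact ⟨h3, h7, h8⟩
      have e1 := Finset.card_le_card hsub
      have e2 := Finset.card_insert_le (z U) (U \ T)
      omega
  · by_cases hWU : W' = U
    · -- `v` in `U \ T`
      have hvU : v ∈ U \ T := Finset.mem_sdiff.2 ⟨hWU ▸ h, hvT⟩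
      have hSX : S ⊆ A \ U := fun x hx =>
        Finset.mem_sdiff.2 ⟨a.SA hx, fun h' => a.US hU h' hx⟩
      have hZX : Z ⊆ A \ U := fun x hx =>
        Finset.mem_sdiff.2 ⟨a.ZA hx, fun h' => a.UZ hU h' hx⟩
      have hWX : ∀ W ∈ P, W ≠ U → W ⊆ A \ U := fun W hW hne y hy =>
        Finset.mem_sdiff.2 ⟨a.UA hW hy, fun h'' => hne (a.UU hW hU hy h'')⟩
      refine ⟨A \ U, ?_, ?_, ?_, ?_⟩
      · intro x hx
        obtain ⟨h1, h2⟩ := Finset.mem_sdiff.1 hx
        refine Finset.mem_erase.2 ⟨?_, Finset.mem_sdiff.2 ⟨h1, fun h' => h2 (hTU h')⟩⟩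
        rintro rfl
        exact h2 (Finset.mem_sdiff.1 hvU).1
      · apply conn_of_lk (hSX c.hu)
        intro x hx
        obtain ⟨h1, h2⟩ := Finset.mem_sdiff.1 hx
        rcases a.cases h1 with h' | ⟨W, hW, rfl⟩ | ⟨W, hW, h'⟩
        · exact a.lkSS hSX h' c.hu
        · obtain ⟨W2, hW2, hne, _⟩ := a.other U U
          exact (Lk.of_conn a.r.conn hZX (a.r.mem W hW) (a.r.mem W2 hW2)).trans
            (a.lkzS hW2 hSX (hWX W2 hW2 hne) (hZX (a.r.mem W2 hW2)) c.hu)
        · have hne : W ≠ U := by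
            rintro rfl
            exact h2 h'
          exact a.lkSU hW hSX (hWX W hW hne) h' c.hu
      · have e1 := Finset.card_sdiff_add_card_eq_card (a.UA hU)
        have e2 := a.two U hU
        omega
      · have hsub : ((A \ T).erase v) \ (A \ U) ⊆ (U \ T).erase v := by
          intro x hx
          obtain ⟨h1, h2⟩ := Finset.mem_sdiff.1 hx
          obtain ⟨h3, h4⟩ := Finset.mem_erase.1 h1
          obtain ⟨h5, h6⟩ := Finset.mem_sdiff.1 h4
          by_cases h8 : x ∈ U
          · exact Finset.mem_erase.2 ⟨h3, Finset.mem_sdiff.2 ⟨h8, h6⟩⟩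
          · exact absurd (Finset.mem_sdiff.2 ⟨h5, h8⟩) h2
        have e1 := Finset.card_le_card hsub
        have e2 := Finset.card_erase_add_one hvU
        omega
    · -- `v` in another block
      have hTW : Disjoint T W' := by
        rw [Finset.disjoint_left]
        intro x hx hx'
        exact hWU (a.UU hW' hU hx' (hTU hx))
      have hsub0 : T ∪ W' ⊆ A := Finset.union_subset (hTU.trans (a.UA hU)) (a.UA hW')
      refine ⟨A \ (T ∪ W'), ?_, ?_, ?_, ?_⟩
      · intro x hx
        obtain ⟨h1, h2⟩ := Finset.mem_sdiff.1 hx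
        refine Finset.mem_erase.2 ⟨?_, Finset.mem_sdiff.2 ⟨h1, ?_⟩⟩
        · rintro rfl
          exact h2 (Finset.mem_union_right _ h)
        · intro h'
          exact h2 (Finset.mem_union_left _ h')
      · apply a.connM hU c W' Finset.sdiff_subset
        · intro x hx
          refine Finset.mem_sdiff.2 ⟨a.SA hx, ?_⟩
          intro h'
          rcases Finset.mem_union.1 h' with h' | h'
          · exact a.US hU (hTU h') hx
          · exact a.US hW' h' hx
        · intro x hx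
          refine Finset.mem_sdiff.2 ⟨a.ZA hx, ?_⟩
          intro h'
          rcases Finset.mem_union.1 h' with h' | h'
          · exact a.UZ hU (hTU h') hx
          · exact a.UZ hW' h' hx
        · intro x hx
          obtain ⟨h1, h2⟩ := Finset.mem_sdiff.1 hx
          refine Finset.mem_sdiff.2 ⟨a.UA hU h1, ?_⟩
          intro h'
          rcases Finset.mem_union.1 h' with h' | h'
          · exact h2 h'
          · exact hWU (a.UU hW' hU h' h1)
        · intro U' hU' h1 h2 x hx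
          refine Finset.mem_sdiff.2 ⟨a.UA hU' hx, ?_⟩
          intro h'
          rcases Finset.mem_union.1 h' with h' | h'
          · exact h1 (a.UU hU' hU hx (hTU h'))
          · exact h2 (a.UU hU' hW' hx h')
        · intro x hx h'
          have h2 := (Finset.mem_sdiff.1 hx).2
          rcases h' with h' | ⟨h', _, _⟩
          · exact h2 (Finset.mem_union_left _ h')
          · exact h2 (Finset.mem_union_right _ h')
      · have e1 := Finset.card_sdiff_add_card_eq_card hsub0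
        have e2 := Finset.card_union_le T W'
        have e3 := a.two W' hW'
        omega
      · have hsub : ((A \ T).erase v) \ (A \ (T ∪ W')) ⊆ W'.erase v := by
          intro x hx
          obtain ⟨h1, h2⟩ := Finset.mem_sdiff.1 hx
          obtain ⟨h3, h4⟩ := Finset.mem_erase.1 h1
          obtain ⟨h5, h6⟩ := Finset.mem_sdiff.1 h4
          by_cases h8 : x ∈ W'
          · exact Finset.mem_erase.2 ⟨h3, h8⟩
          · refine absurd (Finset.mem_sdiff.2 ⟨h5, ?_⟩) h2
            intro h'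
            rcases Finset.mem_union.1 h' with h' | h'
            · exact h6 h'
            · exact h8 h'
        have e1 := Finset.card_le_card hsub
        have e2 := Finset.card_erase_add_one h
        have e3 := a.two W' hW'
        omega

/-- `A \ T` is tight. -/
lemma Al.tightM (a : Al N K A C S Z P z) (hU : U ∈ P) (c : Ch N C S U T Y u t) :
    (2 * K + 1) * gk N (A \ T) (res C (A \ T)) = 2 * (A \ T).card ∧
      gk N (A \ T) (res C (A \ T)) + 1 = gk N A C := by
  obtain ⟨hT1, hT2, hT3⟩ := a.Tcard hU c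
  have hTC := (mem_res.1 c.hT).1
  obtain ⟨g, hg, hgN⟩ := a.v.sys.cen T hTC
  have h1 := end_noncrit a.v.refl a.v.sys hTC hg hgN
  have h2 : gk N (A \ T) (res C ((A \ T) \ N g)) ≤ gk N (A \ T) (res C (A \ T)) :=
    gk_mono a.v.refl (a.v.sys.res (B := A \ T)).sub
      (fun Y hY => (a.v.sys.res (B := A \ T)).nonempty hY)
      (fun Y hY => mem_res.2 ⟨(mem_res.1 hY).1, (mem_res.1 hY).2.trans Finset.sdiff_subset⟩)
  have hss : A \ T ⊂ A :=
    Finset.sdiff_ssubset (a.v.sys.sub T hTC) (a.v.sys.nonempty hTC)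
  have hA3 := a.Acard3
  have hex := a.ex
  have h3 : (2 * K + 1) * gk N (A \ T) (res C (A \ T)) ≤ 2 * (A \ T).card := by
    rcases a.v.hE (A \ T) hss (res C (A \ T)) (Finset.filter_subset _ _) a.v.sys.res
      (a.conn_rest hU c) with h | ⟨h, _⟩ | ⟨h, _⟩
    · exact h
    · omega
    · omega
  have h4 := Nat.mul_le_mul_left (2 * K + 1)
    (show gk N A C ≤ gk N (A \ T) (res C (A \ T)) + 1 by omega)
  rw [Nat.mul_add] at h4
  have h5 : (2 * K + 1) * gk N (A \ T) (res C (A \ T)) = 2 * (A \ T).card := by omega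
  refine ⟨h5, ?_⟩
  have h6 : (2 * K + 1) * (gk N (A \ T) (res C (A \ T)) + 1) = (2 * K + 1) * gk N A C := by
    rw [Nat.mul_add]; omega
  exact Nat.eq_of_mul_eq_mul_left (by omega) h6

/-- `A \ T` is vertex-critical. -/
lemma Al.critM (a : Al N K A C S Z P z) (hU : U ∈ P) (c : Ch N C S U T Y u t) :
    ∀ x ∈ A \ T, gk N (A \ T) (res (res C (A \ T)) ((A \ T).erase x)) <
      gk N (A \ T) (res C (A \ T)) := by
  by_contra hcon
  push Not at hcon
  obtain ⟨x, hx, hx2⟩ := hcon
  have hTC := (mem_res.1 c.hT).1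
  have hss : A \ T ⊂ A :=
    Finset.sdiff_ssubset (a.v.sys.sub T hTC) (a.v.sys.nonempty hTC)
  have hsys : Sys N K (A \ T) (res C (A \ T)) := a.v.sys.res
  obtain ⟨ht1, ht2⟩ := a.tightM hU c
  have hle : gk N (A \ T) (res (res C (A \ T)) ((A \ T).erase x)) ≤
      gk N (A \ T) (res C (A \ T)) :=
    gk_mono a.v.refl hsys.sub (fun S hS => hsys.nonempty hS) (Finset.filter_subset _ _)
  obtain ⟨Z', P', z', hR, hxZ, hcard⟩ := rigid a.v.refl a.v.symm a.v.two hsys
    (a.conn_rest hU c)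
    (fun A' hA' C' hC' => a.v.hE A' (hA'.trans hss) C' (hC'.trans (Finset.filter_subset _ _)))
    hx (le_antisymm hle hx2) (by omega)
  have h7 : (P'.filter (fun U => U.card = K)).card = 0 := by omega
  rw [Finset.card_eq_zero, Finset.filter_eq_empty_iff] at h7
  obtain ⟨W, hW, hWx⟩ := hR.surj x hxZ
  have hWc : W.card = 2 * K := by
    rcases hR.typ W hW with ⟨h8, _⟩ | ⟨h8, _⟩
    · exact absurd h8 (h7 hW)
    · exact h8
  have hWsub : W ⊆ (A \ T) \ Z' := (hR.comps.cl W hW).1
  have hWM : W ⊆ (A \ T).erase x := by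
    intro y hy
    obtain ⟨h1, h2⟩ := Finset.mem_sdiff.1 (hWsub hy)
    refine Finset.mem_erase.2 ⟨?_, h1⟩
    rintro rfl
    exact h2 hxZ
  obtain ⟨B, hBM, hBc, hB1, hB2⟩ := a.big hU c hx
  have hcl : ∀ p ∈ W, ∀ q ∈ (A \ T).erase x, q ∈ N p → q ∈ W := by
    intro p hp q hq hqp
    by_contra hqW
    obtain ⟨h1, h2⟩ := Finset.mem_erase.1 hq
    exact h1 ((hR.only W hW p hp q h2 hqW hqp).trans hWx)
  rcases Conn.side hBc hBM hcl with h | h
  · have := Finset.card_le_card h
    omega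
  · have h8 : W ⊆ ((A \ T).erase x) \ B := fun y hy =>
      Finset.mem_sdiff.2 ⟨hWM hy, Finset.disjoint_right.1 h hy⟩
    have := Finset.card_le_card h8
    omega

end

end Pool.Agent.Star.Rig
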