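import Pool.Agent.Star.Alpha5

/-!
# The rigid rest: an end with vertex-critical rest

A minimal violator which has an end with rigid rest also has an end whose rest is vertex-critical.
So the claim E follows from the two statements `hbase` and `hbeta` of the wrapper.
-/

set_option autoImplicit false
set_option linter.unusedSectionVars false
set_option linter.unusedVariables false

namespace Pool.Agent.Star.Rig

open Finset

variable {V : Type*} [DecidableEq V]

section
variable {N : V → Finset V} {K : ℕ} {A : Finset V} {C : Finset (Finset V)} {S Z : Finset V}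
  {P : Finset (Finset V)} {z : Finset V → V} {X : Finset V} {J : Finset (Finset V)}
  {U T Y : Finset V} {u t : V}

/-- A vertex of another block is not adjacent to the block `U`. -/
lemma Al.blk_not (a : Al N K A C S Z P z) (hU : U ∈ P) {W : Finset V} (hW : W ∈ P)
    (hne : W ≠ U) {b x : V} (hb : b ∈ W) (hx : x ∈ U) : x ∉ N b := by
  intro h
  rcases a.nbr hW hb (a.UA hU hx) h with h1 | h1 | h1
  · exact hne (a.UU hW hU h1 hx)
  · exact a.UZ hU hx (h1 ▸ a.r.mem W hW)
  · exact a.US hU hx h1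

lemma Al.memJ (a : Al N K A C S Z P z) (hU : U ∈ P) (c : Ch N C S U T Y u t)
    {Y' : Finset V} (hY' : Y' ∈ C) (h : ∀ x ∈ Y', x ∉ U) : Y' ∈ res C (A \ T) :=
  mem_res.2 ⟨hY', fun x hx => Finset.mem_sdiff.2 ⟨a.v.sys.sub Y' hY' hx,
    fun h' => h x hx ((mem_res.1 c.hT).2 h')⟩⟩

lemma Al.memJ' (a : Al N K A C S Z P z) (hU : U ∈ P) (c : Ch N C S U T Y u t)
    {Y' : Finset V} (hY' : Y' ∈ C) (h : ∀ x ∈ Y', x ∉ T) : Y' ∈ res C (A \ T) :=
  mem_res.2 ⟨hY', fun x hx => Finset.mem_sdiff.2 ⟨a.v.sys.sub Y' hY' hx, h x hx⟩⟩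

/-- The vertices of another block are linked. -/
lemma Al.slkW (a : Al N K A C S Z P z) (hU : U ∈ P) (c : Ch N C S U T Y u t)
    {W : Finset V} (hW : W ∈ P) (hne : W ≠ U) {p q : V} (hp : p ∈ W) (hq : q ∈ W) :
    SLk (res C (A \ T)) p q := by
  intro B hB
  have hB' : Sep (res C W) B := by
    intro X hX
    apply hB
    exact mem_res.2 ⟨(mem_res.1 hX).1, (mem_res.1 hX).2.trans (a.WM hU c hW hne)⟩
  rcases (a.blk hW).near hB' with h | h
  · exact ⟨fun _ => h hq, fun _ => h hp⟩
  · exact ⟨fun h' => absurd h' (Finset.disjoint_left.1 h hp),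
      fun h' => absurd h' (Finset.disjoint_left.1 h hq)⟩

/-- The hub of another block is linked to the block. -/
lemma Al.slkzW (a : Al N K A C S Z P z) (hU : U ∈ P) (c : Ch N C S U T Y u t)
    {W : Finset V} (hW : W ∈ P) (hne : W ≠ U) {p : V} (hp : p ∈ W) :
    SLk (res C (A \ T)) (z W) p := by
  obtain ⟨b, hb, hbz⟩ := a.foot hW
  have hzb : z W ≠ b := by
    intro h
    exact a.UZ hW hb (h ▸ a.r.mem W hW)
  obtain ⟨Y', hY', h1, h2, h3⟩ := a.v.star_edge hzb (a.ZA (a.r.mem W hW)) (a.UA hW hb) hbz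
  have h4 : Y' ∈ res C (A \ T) := by
    apply a.memJ hU c hY'
    intro x hx hxU
    rcases h3 with h3 | h3
    · exact a.hub_not hU hW hne hxU (h3 hx)
    · exact a.blk_not hU hW hne hb hxU (h3 hx)
  exact (SLk.of_star h4 h1 h2).trans (a.slkW hU c hW hne hb hp)

/-- Adjacent hubs, not that of `U`, are linked. -/
lemma Al.slkzz (a : Al N K A C S Z P z) (hU : U ∈ P) (c : Ch N C S U T Y u t)
    {W W' : Finset V} (hW : W ∈ P) (hW' : W' ∈ P) (hne : W ≠ U) (hne' : W' ≠ U)
    (hWW : W ≠ W') (h : z W' ∈ N (z W)) : SLk (res C (A \ T)) (z W) (z W') := by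
  obtain ⟨Y', hY', h1, h2, h3⟩ := a.v.star_edge (fun h' => hWW (a.r.inj W hW W' hW' h'))
    (a.ZA (a.r.mem W hW)) (a.ZA (a.r.mem W' hW')) h
  have h4 : Y' ∈ res C (A \ T) := by
    apply a.memJ hU c hY'
    intro x hx hxU
    rcases h3 with h3 | h3
    · exact a.hub_not hU hW hne hxU (h3 hx)
    · exact a.hub_not hU hW' hne' hxU (h3 hx)
  exact SLk.of_star h4 h1 h2

lemma Al.slkS (a : Al N K A C S Z P z) (hU : U ∈ P) (c : Ch N C S U T Y u t) {p : V}
    (hp : p ∈ S) : SLk (res C (A \ T)) p u :=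
  SLk.of_star (mem_res.2 ⟨a.e.mem, a.SM hU c⟩) hp c.hu

/-- `F1`: the hub of `U` has no other hub neighbour than that of `W`. -/
def F1 (N : V → Finset V) (P : Finset (Finset V)) (z : Finset V → V) (U W : Finset V) : Prop :=
  ∀ U' ∈ P, z U' ∈ N (z U) → U' = U ∨ U' = W

/-- A block is linked to `S` directly, or its hub is the only hub neighbour of that of `U`. -/
lemma Al.slk_or (a : Al N K A C S Z P z) (hU : U ∈ P) (c : Ch N C S U T Y u t)
    (hmin : ∀ W ∈ P, (Z ∩ N (z U)).card ≤ (Z ∩ N (z W)).card)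
    {W : Finset V} (hW : W ∈ P) (hne : W ≠ U) :
    (∀ p ∈ W, SLk (res C (A \ T)) p u) ∨ F1 N P z U W := by
  by_cases hF : F1 N P z U W
  · exact Or.inr hF
  left
  obtain ⟨u', hu', t', ht', hut'⟩ := a.touch hW
  have hne' : u' ≠ t' := by
    intro h
    exact a.US hW ht' (h ▸ hu')
  obtain ⟨Y', hY', h1, h2, h3⟩ := a.v.star_edge hne' (a.SA hu') (a.UA hW ht') hut'
  have h4 : Y' ∈ res C (A \ T) := by
    apply a.memJ hU c hY'
    intro x hx hxU
    rcases h3 with h3 | h3
    · -- `u'` touches both blocks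
      have h5 := h3 hx
      rcases a.two_touch hU hW (fun h => hne h.symm) hu' hxU ht' h5 hut' with h6 | h6
      · exact hF h6
      · -- the hub of `W` has degree at most two
        apply hF
        have h7 : Z ∩ N (z W) ⊆ {z U, z W} := by
          intro y hy
          obtain ⟨hyZ, hyN⟩ := Finset.mem_inter.1 hy
          obtain ⟨U', hU', rfl⟩ := a.r.surj y hyZ
          rw [Finset.mem_insert, Finset.mem_singleton]
          rcases h6 U' hU' hyN with h8 | h8
          · exact Or.inl (by rw [h8])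
          · exact Or.inr (by rw [h8])
        have h8 := (hmin W hW).trans (Finset.card_le_card h7)
        obtain ⟨W1, hW1, hW1W, hW1N⟩ := a.hub_adj hW
        have h9 : W1 = U := by
          rcases h6 W1 hW1 hW1N with h | h
          · exact h
          · exact absurd h hW1W
        have hzz : z W ∈ N (z U) := a.v.symm _ _ (h9 ▸ hW1N)
        have hzne : z U ≠ z W := fun h => hne (a.r.inj U hU W hW h).symm
        have h10 : ({z U, z W} : Finset V) ⊆ Z ∩ N (z U) := by
          intro y hy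
          rcases Finset.mem_insert.1 hy with h | h
          · rw [h]
            exact Finset.mem_inter.2 ⟨a.r.mem U hU, a.v.refl _⟩
          · rw [Finset.mem_singleton.1 h]
            exact Finset.mem_inter.2 ⟨a.r.mem W hW, hzz⟩
        have h11 := Finset.eq_of_subset_of_card_le h10 h8
        intro U' hU' hN
        have h12 : z U' ∈ ({z U, z W} : Finset V) := by
          rw [h11]
          exact Finset.mem_inter.2 ⟨a.r.mem U' hU', hN⟩
        rcases Finset.mem_insert.1 h12 with h | h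
        · exact Or.inl (a.r.inj U' hU' U hU h)
        · exact Or.inr (a.r.inj U' hU' W hW (Finset.mem_singleton.1 h))
    · exact a.blk_not hU hW hne ht' hxU (h3 hx)
  intro p hp
  exact (a.slkW hU c hW hne hp ht').trans ((SLk.of_star h4 h1 h2).symm.trans (a.slkS hU c hu'))

/-- Every other block is linked to `S`. -/
lemma Al.slkWS (a : Al N K A C S Z P z) (hU : U ∈ P) (c : Ch N C S U T Y u t)
    (hmin : ∀ W ∈ P, (Z ∩ N (z U)).card ≤ (Z ∩ N (z W)).card)
    {W : Finset V} (hW : W ∈ P) (hne : W ≠ U) {p : V} (hp : p ∈ W) :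
    SLk (res C (A \ T)) p u := by
  rcases a.slk_or hU c hmin hW hne with h | hF
  · exact h p hp
  -- the hub of `U` hangs at that of `W`
  obtain ⟨W1, hW1, hW1U, hW1N⟩ := a.hub_adj hU
  have h1 : W1 = W := by
    rcases hF W1 hW1 hW1N with h | h
    · exact absurd h hW1U
    · exact h
  have hne2 : ({z U, z W} : Finset V) ≠ Z := by
    intro h
    have h2 := a.PZ
    have h3 := a.P3
    rw [← h] at h2
    have h4 := Finset.card_le_two (a := z U) (b := z W)
    omega
  obtain ⟨x, hx, y, hy, hyB, hxy⟩ := a.r.conn.2 {z U, z W} (by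
    intro y hy
    rcases Finset.mem_insert.1 hy with h | h
    · rw [h]; exact a.r.mem U hU
    · rw [Finset.mem_singleton.1 h]; exact a.r.mem W hW) ⟨z U, Finset.mem_insert_self _ _⟩ hne2
  obtain ⟨W', hW', rfl⟩ := a.r.surj y hy
  rw [Finset.mem_insert, Finset.mem_singleton, not_or] at hyB
  have hW'U : W' ≠ U := fun h => hyB.1 (by rw [h])
  have hW'W : W' ≠ W := fun h => hyB.2 (by rw [h])
  have hxW : x = z W := by
    rcases Finset.mem_insert.1 hx with h | h
    · exfalso
      rw [h] at hxy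
      rcases hF W' hW' hxy with h' | h'
      · exact hW'U h'
      · exact hW'W h'
    · exact Finset.mem_singleton.1 h
  rw [hxW] at hxy
  have h5 := a.slkzz hU c hW hW' hne hW'U (fun h => hW'W h.symm) hxy
  obtain ⟨b, hb, _⟩ := a.foot hW'
  have h6 : SLk (res C (A \ T)) b u := by
    rcases a.slk_or hU c hmin hW' hW'U with h | hF'
    · exact h b hb
    · exfalso
      rcases hF' W1 hW1 hW1N with h | h
      · exact hW1U h
      · exact hW'W (h.symm.trans h1)
  exact (a.slkzW hU c hW hne hp).symm.trans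
    (h5.trans ((a.slkzW hU c hW' hW'U hb).trans h6))

/-- All vertices but the hub of `U` are linked. -/
lemma Al.slk_main (a : Al N K A C S Z P z) (hU : U ∈ P) (c : Ch N C S U T Y u t)
    (hmin : ∀ W ∈ P, (Z ∩ N (z U)).card ≤ (Z ∩ N (z W)).card)
    {x : V} (hx : x ∈ A \ T) (hxz : x ≠ z U) : SLk (res C (A \ T)) x u := by
  obtain ⟨hxA, hxT⟩ := Finset.mem_sdiff.1 hx
  rcases a.cases hxA with h | ⟨W, hW, h⟩ | ⟨W, hW, h⟩
  · exact a.slkS hU c h
  · have hne : W ≠ U := fun h' => hxz (by rw [← h, h'])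
    obtain ⟨b, hb, _⟩ := a.foot hW
    rw [← h]
    exact (a.slkzW hU c hW hne hb).trans (a.slkWS hU c hmin hW hne hb)
  · by_cases hne : W = U
    · have hxU : x ∈ U \ T := Finset.mem_sdiff.2 ⟨hne ▸ h, hxT⟩
      have h1 : U \ T ∈ res C (A \ T) := mem_res.2 ⟨a.Ts hU c, a.TsM hU c⟩
      have h2 : Y ∈ res C (A \ T) := a.memJ' hU c c.hY
        (fun y hy hyT => Finset.disjoint_left.1 c.hd hy hyT)
      exact (SLk.of_star h1 hxU c.ht).trans (SLk.of_star h2 c.htY c.huY)
    · exact a.slkWS hU c hmin hW hne h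

/-- All vertices are linked. -/
lemma Al.slk_all (a : Al N K A C S Z P z) (hU : U ∈ P) (c : Ch N C S U T Y u t)
    (hmin : ∀ W ∈ P, (Z ∩ N (z U)).card ≤ (Z ∩ N (z W)).card)
    {x : V} (hx : x ∈ A \ T) : SLk (res C (A \ T)) x u := by
  by_cases hxz : x = z U
  · have hzM : z U ∈ A \ T := a.ZM hU c (a.r.mem U hU)
    obtain ⟨X', hX', hzX⟩ : ∃ X' ∈ res C (A \ T), z U ∈ X' := by
      by_contra hcon
      push Not at hcon
      have h1 := a.critM hU c (z U) hzM
      have h2 : res (res C (A \ T)) ((A \ T).erase (z U)) = res C (A \ T) := by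
        ext X'
        rw [mem_res]
        refine ⟨fun h => h.1, fun h => ⟨h, fun y hy => Finset.mem_erase.2 ⟨?_,
          (mem_res.1 h).2 hy⟩⟩⟩
        rintro rfl
        exact hcon X' h hy
      rw [h2] at h1
      exact absurd h1 (lt_irrefl _)
    have h3 := a.v.sys.card X' (mem_res.1 hX').1
    have h4 := a.Kpos
    obtain ⟨y, hy, hyz⟩ := Finset.exists_mem_ne (s := X') (by omega) (z U)
    rw [hxz]
    exact (SLk.of_star hX' hzX hy).trans
      (a.slk_main hU c hmin ((mem_res.1 hX').2 hy) hyz)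
  · exact a.slk_main hU c hmin hx hxz

/-- **A minimal violator with an end whose rest is rigid has an end whose rest is
vertex-critical.** -/
theorem Al.exists_end (a : Al N K A C S Z P z) :
    ∃ T, End N K A C T ∧ ∀ x ∈ A \ T,
      gk N (A \ T) (res (res C (A \ T)) ((A \ T).erase x)) < gk N (A \ T) (res C (A \ T)) := by
  have hPn : P.Nonempty := Finset.card_pos.1 (by have := a.P3; omega)
  obtain ⟨U, hU, hmin⟩ := Finset.exists_min_image P (fun W => (Z ∩ N (z W)).card) hPn
  obtain ⟨T, Y, u, t, c⟩ := a.exists_ch hU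
  obtain ⟨h1, h2⟩ := a.tightM hU c
  have h3 := a.gkA
  have h4 := a.P3
  refine ⟨T, ⟨(mem_res.1 c.hT).1, ⟨a.v.sys.res, a.conn_rest hU c, ?_, h1, by omega⟩, h2⟩,
    a.critM hU c⟩
  exact near_of_slk (fun x hx => a.slk_all hU c hmin hx)

end

section
variable {V : Type*} [DecidableEq V] {K : ℕ}

/-- **The wrapper for E without rigid rests**: the two statements on minimal violators that are
left. -/
theorem E_of_two (hK : 2 ≤ K)
    (hbase : ∀ (N : V → Finset V) (A : Finset V) (C : Finset (Finset V)), Viol N K A C →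
      gk N A C = 3 → 3 * K + 1 < A.card)
    (hbeta : ∀ (N : V → Finset V) (A : Finset V) (C : Finset (Finset V)) (S : Finset V),
      Viol N K A C → End N K A C S →
      (∀ x ∈ A \ S, gk N (A \ S) (res (res C (A \ S)) ((A \ S).erase x)) <
          gk N (A \ S) (res C (A \ S))) → False) : EV V K := by
  apply E_of hK hbase _ hbeta
  intro N A C S h hE Z P z hR hZ hU
  have a : Al N K A C S Z P z := ⟨h, (h.exact (hbase N A C h)).1, hE, hR, hU⟩
  obtain ⟨T, hT, hTc⟩ := a.exists_end
  exact hbeta N A C T h hT hTc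

end

/-- **The wrapper without rigid rests**: the frozen statement from the two statements that are
left. -/
theorem main_of_two
    (hbase : ∀ (n K : ℕ), 3 ≤ K → ∀ (N : Fin n → Finset (Fin n)) (A : Finset (Fin n))
      (C : Finset (Finset (Fin n))), Viol N K A C → gk N A C = 3 → 3 * K + 1 < A.card)
    (hbeta : ∀ (n K : ℕ), 3 ≤ K → ∀ (N : Fin n → Finset (Fin n)) (A : Finset (Fin n))
      (C : Finset (Finset (Fin n))) (S : Finset (Fin n)), Viol N K A C → End N K A C S →
      (∀ x ∈ A \ S, gk N (A \ S) (res (res C (A \ S)) ((A \ S).erase x)) <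
          gk N (A \ S) (res C (A \ S))) → False) :
    ∀ k : ℕ, 2 ≤ k →
      (∃ N : ℕ, ∀ n : ℕ, N ≤ n → ∀ G : SimpleGraph (Fin n), G.Connected →
        ∃ S : Finset (Fin n), S.card ≤ 2 * n / (2 * k + 3) ∧
          ∀ v : Fin n, (v ∉ S ∧ ∀ s ∈ S, ¬ G.Adj s v) →
            {w : Fin n | G.Adj v w ∧ w ∉ S ∧ ∀ s ∈ S, ¬ G.Adj s w}.ncard < k) ∧
      (∀ N : ℕ, ∃ n : ℕ, N ≤ n ∧ ∃ G : SimpleGraph (Fin n), G.Connected ∧
        (∃ S : Finset (Fin n), S.card = 2 * n / (2 * k + 3) ∧
          ∀ v : Fin n, (v ∉ S ∧ ∀ s ∈ S, ¬ G.Adj s v) →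
            {w : Fin n | G.Adj v w ∧ w ∉ S ∧ ∀ s ∈ S, ¬ G.Adj s w}.ncard < k) ∧
        ∀ S : Finset (Fin n),
          (∀ v : Fin n, (v ∉ S ∧ ∀ s ∈ S, ¬ G.Adj s v) →
            {w : Fin n | G.Adj v w ∧ w ∉ S ∧ ∀ s ∈ S, ¬ G.Adj s w}.ncard < k) →
          2 * n / (2 * k + 3) ≤ S.card) := by
  apply main_of_E
  intro K hK n
  exact E_of_two (by omega) (fun N A C => hbase n K hK N A C)
    (fun N A C S => hbeta n K hK N A C S)

end Pool.Agent.Star.Rig
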