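import Pool.Agent.Star.Main
import Pool.Agent.Star.AbsClean

/-!
# Reduction of the upper bound `2n/(2k+3)` to vertex-critical graphs

If every connected vertex-critical graph satisfies `(2K+1) f ≤ 2n + 2`, and the large ones
`(2K+1) f ≤ 2n`, then all large connected graphs satisfy `(2K+1) f ≤ 2n`.
-/

set_option autoImplicit false

namespace Pool.Agent.Star

open Finset

section
variable {V : Type*} [DecidableEq V]

/-- Vertex-critical sets. -/
def Crit (N : V → Finset V) (K : ℕ) (A : Finset V) : Prop :=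
  ∀ x ∈ A, f N K (A.erase x) < f N K A

/-- `D` isolates `B` when the vertices of `T` are dominated in addition. -/
def IsoT (N : V → Finset V) (K : ℕ) (T B D : Finset V) : Prop :=
  D ⊆ B ∧ ∀ v ∈ rem N B D \ T, (N v ∩ (rem N B D \ T)).card < K

variable {N : V → Finset V} {K : ℕ}

lemma isoT_union (hs : ∀ x, x ∈ N x) (hsym : ∀ x y, x ∈ N y → y ∈ N x) {T A B D E : Finset V}
    (h : ∀ x ∈ A, ∀ y ∈ B, y ∉ N x) (hA : IsoT N K T A D) (hB : IsoT N K T B E) :
    IsoT N K T (A ∪ B) (D ∪ E) := by
  refine ⟨Finset.union_subset_union hA.1 hB.1, ?_⟩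
  intro v hv
  rw [Finset.mem_sdiff, mem_rem] at hv
  obtain ⟨⟨hv1, hv2⟩, hvT⟩ := hv
  rw [Finset.mem_union] at hv1
  rcases hv1 with hvA | hvB
  · have hvr : v ∈ rem N A D \ T :=
      Finset.mem_sdiff.2 ⟨mem_rem.2 ⟨hvA, fun d hd => hv2 d (Finset.mem_union_left _ hd)⟩, hvT⟩
    refine lt_of_le_of_lt (Finset.card_le_card ?_) (hA.2 v hvr)
    intro w hw
    rw [Finset.mem_inter, Finset.mem_sdiff, mem_rem, Finset.mem_union] at hw
    rw [Finset.mem_inter, Finset.mem_sdiff, mem_rem]
    obtain ⟨hw1, ⟨hw2, hw3⟩, hw4⟩ := hw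
    rcases hw2 with hw2 | hw2
    · exact ⟨hw1, ⟨hw2, fun d hd => hw3 d (Finset.mem_union_left _ hd)⟩, hw4⟩
    · exact absurd hw1 (h v hvA w hw2)
  · have hvr : v ∈ rem N B E \ T :=
      Finset.mem_sdiff.2 ⟨mem_rem.2 ⟨hvB, fun d hd => hv2 d (Finset.mem_union_right _ hd)⟩, hvT⟩
    refine lt_of_le_of_lt (Finset.card_le_card ?_) (hB.2 v hvr)
    intro w hw
    rw [Finset.mem_inter, Finset.mem_sdiff, mem_rem, Finset.mem_union] at hw
    rw [Finset.mem_inter, Finset.mem_sdiff, mem_rem]
    obtain ⟨hw1, ⟨hw2, hw3⟩, hw4⟩ := hw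
    rcases hw2 with hw2 | hw2
    · exact absurd (hsym _ _ hw1) (h w hw2 v hvB)
    · exact ⟨hw1, ⟨hw2, fun d hd => hw3 d (Finset.mem_union_right _ hd)⟩, hw4⟩

lemma isoT_of_iso {T B D : Finset V} (h : Iso N K B D) : IsoT N K T B D := by
  refine ⟨h.1, ?_⟩
  intro v hv
  refine lt_of_le_of_lt (Finset.card_le_card ?_) (h.2 v (Finset.mem_sdiff.1 hv).1)
  exact Finset.inter_subset_inter_left Finset.sdiff_subset

lemma isoT_of_erase {T B D : Finset V} {y : V} (hyT : y ∈ T)
    (h : Iso N K (B.erase y) D) : IsoT N K T B D := by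
  refine ⟨h.1.trans (Finset.erase_subset _ _), ?_⟩
  have hsub : rem N B D \ T ⊆ rem N (B.erase y) D := by
    intro w hw
    rw [Finset.mem_sdiff, mem_rem] at hw
    rw [mem_rem, Finset.mem_erase]
    exact ⟨⟨fun hh => hw.2 (hh ▸ hyT), hw.1.1⟩, hw.1.2⟩
  intro v hv
  exact lt_of_le_of_lt (Finset.card_le_card (Finset.inter_subset_inter_left hsub))
    (h.2 v (hsub hv))

/-- The accounting over the components of `B`. -/
lemma account (hs : ∀ x, x ∈ N x) (hsym : ∀ x y, x ∈ N y → y ∈ N x) (T : Finset V) :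
    ∀ (n : ℕ) (B : Finset V), B.card ≤ n →
      (∀ C, Conn N C → Closed N C B → ∃ y ∈ C, y ∈ T) →
      (∀ C ⊆ B, Conn N C → (Crit N K C ∧ (2 * K + 1) * f N K C ≤ 2 * C.card + 2) ∨
        (2 * K + 1) * f N K C ≤ 2 * C.card) →
      ∃ F p D, f N K B ≤ F ∧ IsoT N K T B D ∧ D.card + p ≤ F ∧
        (2 * K + 1) * F ≤ 2 * B.card + 2 * p := by
  intro n
  induction n with
  | zero =>
    intro B hB _ _
    have hB0 : B = ∅ := by rw [← Finset.card_eq_zero]; omega
    subst hB0
    have h0 : f N K (∅ : Finset V) = 0 := f_zero (by simp)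
    refine ⟨0, 0, ∅, by rw [h0], ⟨Finset.Subset.refl _, ?_⟩, by simp, by simp⟩
    intro v hv
    rw [Finset.mem_sdiff, mem_rem] at hv
    exact absurd hv.1.1 (Finset.notMem_empty v)
  | succ n ih =>
    intro B hB hT hyp
    rcases B.eq_empty_or_nonempty with rfl | ⟨x, hx⟩
    · have h0 : f N K (∅ : Finset V) = 0 := f_zero (by simp)
      refine ⟨0, 0, ∅, by rw [h0], ⟨Finset.Subset.refl _, ?_⟩, by simp, by simp⟩
      intro v hv
      rw [Finset.mem_sdiff, mem_rem] at hv
      exact absurd hv.1.1 (Finset.notMem_empty v)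
    · obtain ⟨C, hxC, hCc, hCl⟩ := exists_comp hsym hx
      have hcard : (B \ C).card = B.card - C.card := Finset.card_sdiff_of_subset hCl.1
      have hpos : 0 < C.card := Finset.card_pos.2 ⟨x, hxC⟩
      have hle : C.card ≤ B.card := Finset.card_le_card hCl.1
      have hclosed : ∀ C', Closed N C' (B \ C) → Closed N C' B := by
        intro C' h2
        refine ⟨h2.1.trans Finset.sdiff_subset, ?_⟩
        intro a ha y hy hya
        by_cases hyC : y ∈ C
        · exfalso
          have haB := h2.1 ha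
          rw [Finset.mem_sdiff] at haB
          exact haB.2 (hCl.2 y hyC a haB.1 (hsym _ _ hya))
        · exact h2.2 a ha y (Finset.mem_sdiff.2 ⟨hy, hyC⟩) hya
      obtain ⟨F, p, D, h1, h2, h3, h4⟩ := ih (B \ C) (by omega)
        (fun C' hC' hcl => hT C' hC' (hclosed C' hcl))
        (fun C' hC' => hyp C' (hC'.trans Finset.sdiff_subset))
      have hBu : B = (B \ C) ∪ C := (Finset.sdiff_union_of_subset hCl.1).symm
      have hno : ∀ a ∈ B \ C, ∀ y ∈ C, y ∉ N a := by
        intro a ha y hy hya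
        rw [Finset.mem_sdiff] at ha
        exact ha.2 (hCl.2 y hy a ha.1 (hsym _ _ hya))
      have hf : f N K B ≤ f N K (B \ C) + f N K C := by
        conv_lhs => rw [hBu]
        exact f_union hs hsym hno
      rcases hyp C hCl.1 hCc with ⟨hcr, hb⟩ | hb
      · obtain ⟨y, hyC, hyT⟩ := hT C hCc hCl
        obtain ⟨E, hE, hEc⟩ := exists_iso (K := K) hs (C.erase y)
        have hlt := hcr y hyC
        refine ⟨F + f N K C, p + 1, D ∪ E, by omega, ?_, ?_, ?_⟩
        · rw [hBu]
          exact isoT_union hs hsym hno h2 (isoT_of_erase hyT hE)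
        · have := Finset.card_union_le D E
          omega
        · rw [Nat.mul_add, hcard] at *
          omega
      · obtain ⟨E, hE, hEc⟩ := exists_iso (K := K) hs C
        refine ⟨F + f N K C, p, D ∪ E, by omega, ?_, ?_, ?_⟩
        · rw [hBu]
          exact isoT_union hs hsym hno h2 (isoT_of_iso hE)
        · have := Finset.card_union_le D E
          omega
        · rw [Nat.mul_add, hcard] at *
          omega

/-- The reduction to critical graphs. -/
theorem noncrit (hs : ∀ x, x ∈ N x) (hsym : ∀ x y, x ∈ N y → y ∈ N x) (hK : 1 ≤ K) :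
    ∀ (n : ℕ) (A : Finset V), A.card ≤ n →
      (∀ C ⊆ A, Conn N C → Crit N K C → (2 * K + 1) * f N K C ≤ 2 * C.card + 2) →
      Conn N A → ¬ Crit N K A → (2 * K + 1) * f N K A ≤ 2 * A.card := by
  intro n
  induction n with
  | zero =>
    intro A hA _ hc _
    exfalso
    have := Finset.card_pos.2 hc.1
    omega
  | succ n ih =>
    intro A hA hyp hc hn
    unfold Crit at hn
    push Not at hn
    obtain ⟨x, hx, hfx⟩ := hn
    have hcA : (A.erase x).card + 1 = A.card := Finset.card_erase_add_one hx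
    obtain ⟨F, p, D, h1, h2, h3, h4⟩ := account (K := K) hs hsym (N x) (A.erase x).card
      (A.erase x) le_rfl (by
        intro C hC hCl
        have hCA : C ⊆ A := hCl.1.trans (Finset.erase_subset _ _)
        obtain ⟨y, hy, z, hz, hzC, hzy⟩ := hc.2 C hCA hC.1 (by
          intro hh
          have : x ∈ C := by rw [hh]; exact hx
          exact (Finset.mem_erase.1 (hCl.1 this)).1 rfl)
        by_cases hzx : z = x
        · subst hzx
          exact ⟨y, hy, hsym _ _ hzy⟩
        · exact absurd (hCl.2 y hy z (Finset.mem_erase.2 ⟨hzx, hz⟩) hzy) hzC) (by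
        intro C hC hCc
        have hCA : C ⊆ A := hC.trans (Finset.erase_subset _ _)
        by_cases hcr : Crit N K C
        · exact Or.inl ⟨hcr, hyp C hCA hCc hcr⟩
        · right
          refine ih C ?_ (fun C' hC' => hyp C' (hC'.trans hCA)) hCc hcr
          have := Finset.card_le_card hC
          omega)
    -- the isolating set through x
    have hiso : Iso N K A (insert x D) := by
      refine ⟨?_, ?_⟩
      · intro y hy
        rcases Finset.mem_insert.1 hy with rfl | hy
        · exact hx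
        · exact (Finset.mem_erase.1 (h2.1 hy)).2
      · have hsub : rem N A (insert x D) ⊆ rem N (A.erase x) D \ N x := by
          intro w hw
          rw [mem_rem] at hw
          have hwx := hw.2 x (Finset.mem_insert_self _ _)
          rw [Finset.mem_sdiff, mem_rem, Finset.mem_erase]
          exact ⟨⟨⟨fun hh => hwx (hh ▸ hs x), hw.1⟩,
            fun d hd => hw.2 d (Finset.mem_insert_of_mem hd)⟩, hwx⟩
        intro v hv
        exact lt_of_le_of_lt (Finset.card_le_card (Finset.inter_subset_inter_left hsub))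
          (h2.2 v (hsub hv))
    have h5 : f N K A ≤ 1 + D.card := by
      have := f_le hiso
      have h6 := Finset.card_insert_le x D
      omega
    rcases Nat.eq_zero_or_pos p with hp | hp
    · subst hp
      have h6 : f N K A ≤ F := hfx.trans h1
      have h7 : (2 * K + 1) * f N K A ≤ (2 * K + 1) * F := Nat.mul_le_mul_left _ h6
      omega
    · obtain ⟨r, rfl⟩ : ∃ r, p = r + 1 := ⟨p - 1, by omega⟩
      have h6 : f N K A + r ≤ F := by omega
      have h7 : (2 * K + 1) * (f N K A + r) ≤ (2 * K + 1) * F := Nat.mul_le_mul_left _ h6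
      rw [Nat.mul_add] at h7
      have h8 : 3 * r ≤ (2 * K + 1) * r := Nat.mul_le_mul_right _ (by omega)
      omega

end

/-! ### critical graphs as types -/

/-- A connected vertex-critical graph with `K_{1,K-1}`-isolation number `s`. -/
structure CritInst (V : Type) [Fintype V] [DecidableEq V] (N : V → Finset V) (K s : ℕ) :
    Prop where
  self : ∀ x, x ∈ N x
  symm : ∀ x y, x ∈ N y → y ∈ N x
  nonempty : Nonempty V
  conn : ∀ S : Finset V, S.Nonempty → S ≠ Finset.univ → ∃ x ∈ S, ∃ y ∉ S, y ∈ N x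
  iso : ∀ D : Finset V, D.card < s → ∃ S, IsStar N K S ∧ ∀ d ∈ D, Disjoint S (N d)
  crit : ∀ x, ∃ D : Finset V, D.card < s ∧
    ∀ S, IsStar N K S → (∀ d ∈ D, Disjoint S (N d)) → x ∈ S

section
variable {V : Type} [DecidableEq V] {N : V → Finset V} {K : ℕ}

/-- A connected critical set gives a `CritInst` on the subtype. -/
lemma critInst_of (hs : ∀ x, x ∈ N x) (hsym : ∀ x y, x ∈ N y → y ∈ N x) (hK : 1 ≤ K)
    {A : Finset V} (hc : Conn N A) (hcr : Crit N K A) :
    CritInst {x // x ∈ A} (fun x => Finset.univ.filter (fun y => y.1 ∈ N x.1)) K (f N K A) := by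
  classical
  have hmem : ∀ x y : {x // x ∈ A},
      y ∈ (Finset.univ.filter (fun y : {x // x ∈ A} => y.1 ∈ N x.1)) ↔ y.1 ∈ N x.1 := by
    intro x y; simp
  refine ⟨fun x => ?_, fun x y hxy => ?_, ?_, ?_, ?_, ?_⟩
  · rw [hmem]; exact hs _
  · rw [hmem] at *; exact hsym _ _ hxy
  · obtain ⟨x, hx⟩ := hc.1
    exact ⟨⟨x, hx⟩⟩
  · intro S hS hSne
    obtain ⟨x, hx, y, hy, hyA, hyx⟩ := hc.2 (S.map (Function.Embedding.subtype _)) (by
      intro a ha
      obtain ⟨b, -, rfl⟩ := Finset.mem_map.1 ha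
      exact b.2) (by simpa using hS) (by
      intro hh
      apply hSne
      ext a
      simp only [Finset.mem_univ, iff_true]
      have : a.1 ∈ S.map (Function.Embedding.subtype _) := by rw [hh]; exact a.2
      obtain ⟨b, hb, hba⟩ := Finset.mem_map.1 this
      have : b = a := Subtype.ext hba
      rw [← this]; exact hb)
    obtain ⟨x', hx', rfl⟩ := Finset.mem_map.1 hx
    refine ⟨x', hx', ⟨y, hy⟩, ?_, ?_⟩
    · intro hh
      exact hyA (Finset.mem_map.2 ⟨⟨y, hy⟩, hh, rfl⟩)
    · rw [hmem]; exact hyx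
  · intro D hD
    let D' : Finset V := D.map (Function.Embedding.subtype _)
    have hD' : D'.card < f N K A := by simpa [D'] using hD
    have hnI : ¬ Iso N K A D' := by
      intro hI
      have := f_le hI
      omega
    have hsub : D' ⊆ A := by
      intro a ha
      obtain ⟨b, -, rfl⟩ := Finset.mem_map.1 ha
      exact b.2
    unfold Iso at hnI
    push Not at hnI
    obtain ⟨v, hv, hvK⟩ := hnI hsub
    have hvm : v ∈ N v ∩ rem N A D' := Finset.mem_inter.2 ⟨hs v, hv⟩
    obtain ⟨S, hvS, hSs, hSc⟩ := Finset.exists_subsuperset_card_eq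
      (s := {v}) (Finset.singleton_subset_iff.2 hvm) (by simpa using hK) hvK
    have hSA : ∀ w ∈ S, w ∈ A := fun w hw => (mem_rem.1 (Finset.mem_inter.1 (hSs hw)).2).1
    refine ⟨S.subtype (fun x => x ∈ A), ⟨?_, ⟨v, hSA v (by simpa using hvS)⟩, ?_, ?_⟩, ?_⟩
    · rw [Finset.card_subtype, Finset.filter_true_of_mem hSA, hSc]
    · rw [Finset.mem_subtype]; simpa using hvS
    · intro w hw
      rw [Finset.mem_subtype] at hw
      rw [hmem]
      exact (Finset.mem_inter.1 (hSs hw)).1
    · intro d hd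
      rw [Finset.disjoint_left]
      intro w hw hwd
      rw [Finset.mem_subtype] at hw
      rw [hmem] at hwd
      exact (mem_rem.1 (Finset.mem_inter.1 (hSs hw)).2).2 d.1
        (Finset.mem_map.2 ⟨d, hd, rfl⟩) hwd
  · intro x
    obtain ⟨D, hD, hDc⟩ := exists_iso (K := K) hs (A.erase x.1)
    have hlt := hcr x.1 x.2
    have hDA : ∀ d ∈ D, d ∈ A := fun d hd => (Finset.mem_erase.1 (hD.1 hd)).2
    refine ⟨D.subtype (fun x => x ∈ A), ?_, ?_⟩
    · rw [Finset.card_subtype, Finset.filter_true_of_mem hDA]; omega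
    · intro S hS hSD
      by_contra hxS
      obtain ⟨hSc, c, hcS, hcN⟩ := hS
      let S' : Finset V := S.map (Function.Embedding.subtype _)
      have hS' : ∀ w ∈ S', w ∈ rem N (A.erase x.1) D := by
        intro w hw
        obtain ⟨w', hw', rfl⟩ := Finset.mem_map.1 hw
        rw [mem_rem, Finset.mem_erase]
        refine ⟨⟨fun hh => hxS ?_, w'.2⟩, fun d hd hwd => ?_⟩
        · have : w' = x := Subtype.ext hh
          rw [← this]; exact hw'
        · refine Finset.disjoint_left.1 (hSD ⟨d, hDA d hd⟩ ?_) hw' ?_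
          · rw [Finset.mem_subtype]; exact hd
          · rw [hmem]; exact hwd
      have hcS' : c.1 ∈ rem N (A.erase x.1) D := hS' c.1 (Finset.mem_map.2 ⟨c, hcS, rfl⟩)
      have hlt2 := hD.2 c.1 hcS'
      have hsub : S' ⊆ N c.1 ∩ rem N (A.erase x.1) D := by
        intro w hw
        refine Finset.mem_inter.2 ⟨?_, hS' w hw⟩
        obtain ⟨w', hw', rfl⟩ := Finset.mem_map.1 hw
        have := hcN hw'
        rw [hmem] at this
        exact this
      have h1 := Finset.card_le_card hsub
      rw [Finset.card_map, hSc] at h1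
      omega

/-- The bound for all large connected sets, from the critical graphs. -/
theorem upper_of_crit (hs : ∀ x, x ∈ N x) (hsym : ∀ x y, x ∈ N y → y ∈ N x) (hK : 1 ≤ K)
    {N0 : ℕ}
    (H1 : ∀ (W : Type) [Fintype W] [DecidableEq W] (M : W → Finset W) (s : ℕ),
      CritInst W M K s → (2 * K + 1) * s ≤ 2 * Fintype.card W + 2)
    (H2 : ∀ (W : Type) [Fintype W] [DecidableEq W] (M : W → Finset W) (s : ℕ),
      CritInst W M K s → N0 ≤ Fintype.card W → (2 * K + 1) * s ≤ 2 * Fintype.card W)
    {A : Finset V} (hA : Conn N A) (hN : N0 ≤ A.card) :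
    (2 * K + 1) * f N K A ≤ 2 * A.card := by
  by_cases hcr : Crit N K A
  · have := H2 {x // x ∈ A} _ _ (critInst_of hs hsym hK hA hcr) (by simpa using hN)
    simpa using this
  · refine noncrit hs hsym hK A.card A le_rfl ?_ hA hcr
    intro C _ hC hCcr
    have := H1 {x // x ∈ C} _ _ (critInst_of hs hsym hK hC hCcr)
    simpa using this

end

end Pool.Agent.Star
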