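import Pool.Agent.Star.FO.Base

/-!
# The base case: no connected instance with three pairwise far stars missing at most one vertex

`m` is a closed adjacency relation, `C` a set of centres, `Far m a b` means that `a` and `b` have
no common closed neighbour.  An instance satisfies: for all `x, y` there is a centre far from both,
three pairwise far centres dominate all vertices but at most one, and the graph is connected.
`base_false`: there is no finite instance.
-/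

set_option autoImplicit false

namespace Pool.Agent.Star.FO

universe u

section

variable {V : Type u} {m : V → V → Prop} {C : V → Prop}

/-- An instance of the base case. -/
structure Inst (m : V → V → Prop) (C : V → Prop) : Prop where
  refl : ∀ x, m x x
  symm : ∀ x y, m x y → m y x
  T : ∀ x y, ∃ z, C z ∧ Far m z x ∧ Far m z y
  U : ∀ a b d, C a → C b → C d → Far m a b → Far m a d → Far m b d → ∀ x y,
      ¬ m a x → ¬ m b x → ¬ m d x → ¬ m a y → ¬ m b y → ¬ m d y → x = y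
  conn : ∀ S : V → Prop, (∃ x, S x) → (∀ x y, S x → m x y → S y) → ∀ x, S x

/-- Three pairwise far centres. -/
structure Pk (m : V → V → Prop) (C : V → Prop) (a b c : V) : Prop where
  ca : C a
  cb : C b
  cc : C c
  ab : Far m a b
  ac : Far m a c
  bc : Far m b c

/-- Three pairwise far centres missing `w`. -/
structure Ms (m : V → V → Prop) (C : V → Prop) (a b c w : V) : Prop where
  pk : Pk m C a b c
  na : ¬ m a w
  nb : ¬ m b w
  nc : ¬ m c w

lemma Pk.swap12 {a b c : V} (h : Pk m C a b c) : Pk m C b a c :=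
  ⟨h.cb, h.ca, h.cc, far_symm h.ab, h.bc, h.ac⟩

lemma Pk.swap23 {a b c : V} (h : Pk m C a b c) : Pk m C a c b :=
  ⟨h.ca, h.cc, h.cb, h.ac, h.ab, far_symm h.bc⟩

lemma Ms.swap12 {a b c w : V} (h : Ms m C a b c w) : Ms m C b a c w :=
  ⟨h.pk.swap12, h.nb, h.na, h.nc⟩

lemma Ms.swap23 {a b c w : V} (h : Ms m C a b c w) : Ms m C a c b w :=
  ⟨h.pk.swap23, h.na, h.nc, h.nb⟩

namespace Inst

variable (I : Inst m C)

include I

lemma ns {x y : V} (h : ¬ m x y) : ¬ m y x := fun h' => h (I.symm _ _ h')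

/-- An edge leaving a proper nonempty set. -/
lemma edge (S : V → Prop) (h1 : ∃ x, S x) (h2 : ∃ x, ¬ S x) : ∃ g h, S g ∧ ¬ S h ∧ m g h := by
  by_contra hcon
  push Not at hcon
  obtain ⟨y, hy⟩ := h2
  refine hy (I.conn S h1 (fun x y hx hxy => ?_) y)
  by_contra hSy
  exact hcon x y hx hSy hxy

lemma pk_of {a : V} (ha : C a) : ∃ p q, Pk m C a p q := by
  obtain ⟨p, cp, hp, -⟩ := I.T a a
  obtain ⟨q, cq, hq1, hq2⟩ := I.T a p
  exact ⟨p, q, ha, cp, cq, far_symm hp, far_symm hq1, far_symm hq2⟩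

lemma pk_of2 {a b : V} (ha : C a) (hb : C b) (hab : Far m a b) : ∃ q, Pk m C a b q := by
  obtain ⟨q, cq, hq1, hq2⟩ := I.T a b
  exact ⟨q, ha, hb, cq, hab, far_symm hq1, far_symm hq2⟩

/-- `far_out`: if `c` is far from `x` and `x` is adjacent to `a` then `a` is not adjacent to `c`. -/
lemma out {c x a : V} (h : Far m c x) (h1 : m a x) : ¬ m a c := fun h2 =>
  h a ⟨I.symm _ _ h2, I.symm _ _ h1⟩

lemma Uniq {a b c w w' : V} (h : Ms m C a b c w) (h' : Ms m C a b c w') : w = w' :=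
  I.U a b c h.pk.ca h.pk.cb h.pk.cc h.pk.ab h.pk.ac h.pk.bc w w' h.na h.nb h.nc h'.na h'.nb h'.nc

/-- A packing through a missed centre misses a member of the packing missing it. -/
lemma near {a b c w p q : V} (h : Ms m C a b c w) (k : Pk m C w p q) :
    ∃ z, (z = a ∨ z = b ∨ z = c) ∧ Ms m C w p q z := by
  by_contra hcon
  push Not at hcon
  have h1 : ∀ z, z = a ∨ z = b ∨ z = c → m w z ∨ m p z ∨ m q z := by
    intro z hz
    by_contra h2
    push Not at h2
    exact hcon z hz ⟨k, h2.1, h2.2.1, h2.2.2⟩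
  have wa := I.ns h.na
  have wb := I.ns h.nb
  have wc := I.ns h.nc
  have ha : m p a ∨ m q a := (h1 a (Or.inl rfl)).resolve_left wa
  have hb : m p b ∨ m q b := (h1 b (Or.inr (Or.inl rfl))).resolve_left wb
  have hc : m p c ∨ m q c := (h1 c (Or.inr (Or.inr rfl))).resolve_left wc
  rcases ha with ha | ha <;> rcases hb with hb | hb <;> rcases hc with hc | hc
  · exact h.pk.ab p ⟨I.symm _ _ ha, I.symm _ _ hb⟩
  · exact h.pk.ab p ⟨I.symm _ _ ha, I.symm _ _ hb⟩
  · exact h.pk.ac p ⟨I.symm _ _ ha, I.symm _ _ hc⟩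
  · exact h.pk.bc q ⟨I.symm _ _ hb, I.symm _ _ hc⟩
  · exact h.pk.bc p ⟨I.symm _ _ hb, I.symm _ _ hc⟩
  · exact h.pk.ac q ⟨I.symm _ _ ha, I.symm _ _ hc⟩
  · exact h.pk.ab q ⟨I.symm _ _ ha, I.symm _ _ hb⟩
  · exact h.pk.ab q ⟨I.symm _ _ ha, I.symm _ _ hb⟩

end Inst

/-- Local form of Lemma (I): in a perfect instance the direct edges between the stars of a
packing never form a path of length two. -/
lemma no_path {W : Type u} {m : W → W → Prop} (hrefl : ∀ x, m x x)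
    (hsymm : ∀ x y, m x y → m y x) (hT : ∀ x y, ∃ z, Far m z x ∧ Far m z y)
    (hU : ∀ a b d, Far m a b → Far m a d → Far m b d → ∀ x, m a x ∨ m b x ∨ m d x)
    {x0 x1 x2 y0 y1 z0 z1 : W} (f01 : Far m x0 x1) (f02 : Far m x0 x2) (f12 : Far m x1 x2)
    (hy0 : m x0 y0) (hy1 : m x0 y1) (hz0 : m x1 z0) (hz1 : m x2 z1) (e0 : m y0 z0)
    (e1 : m y1 z1) : False := by
  have out : ∀ {c x a : W}, Far m c x → m a x → ¬ m a c := fun h h1 h2 =>
    h _ ⟨hsymm _ _ h2, hsymm _ _ h1⟩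
  have ns : ∀ {x y}, ¬ m x y → ¬ m y x := fun h h' => h (hsymm _ _ h')
  obtain ⟨c7, h71, h72⟩ := hT x2 z0
  obtain ⟨c8, h81, h82⟩ := hT x1 y1
  obtain ⟨c9, h91, h92⟩ := hT x1 z1
  obtain ⟨c10, h101, h102⟩ := hT x2 c7
  obtain ⟨c12, h121, h122⟩ := hT x1 c8
  obtain ⟨c11, h111, h112⟩ := hT x0 y0
  obtain ⟨c13, h131, h132⟩ := hT y0 c9
  -- 1
  have a1 : m x0 c7 := by
    rcases hU x0 x1 x2 f01 f02 f12 c7 with h | h | h
    · exact h
    · exact absurd h (out h72 hz0)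
    · exact absurd h (out h71 (hrefl _))
  have a2 : ¬ m c7 y0 := ns (out h72 e0)
  have P1 := hU x2 c7 c10 (far_symm h71) (far_symm h101) (far_symm h102)
  have P2 := hU x1 c8 c12 (far_symm h81) (far_symm h121) (far_symm h122)
  -- 2
  have b1 : m c10 x1 := by
    rcases P1 x1 with h | h | h
    · exact absurd ⟨hrefl x1, h⟩ (f12 x1)
    · exact absurd (hsymm _ _ h) (out h72 hz0)
    · exact h
  have b2 : m c10 y0 := by
    rcases P1 y0 with h | h | h
    · exact absurd ⟨hy0, h⟩ (f02 y0)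
    · exact absurd h a2
    · exact h
  -- 3
  have d1 : m c12 x0 := by
    rcases P2 x0 with h | h | h
    · exact absurd ⟨hrefl x0, h⟩ (f01 x0)
    · exact absurd (hsymm _ _ h) (out h82 hy1)
    · exact h
  have d2 : m c12 z1 := by
    rcases P2 z1 with h | h | h
    · exact absurd ⟨h, hz1⟩ (f12 z1)
    · exact absurd (hsymm _ _ h) (out h82 (hsymm _ _ e1))
    · exact h
  -- 4
  have g1 : m c7 c9 := by
    rcases P1 c9 with h | h | h
    · exact absurd h (out h92 hz1)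
    · exact h
    · exact absurd h (out h91 b1)
  have g2 : m c8 c9 := by
    rcases P2 c9 with h | h | h
    · exact absurd h (out h91 (hrefl _))
    · exact h
    · exact absurd h (out h92 d2)
  -- 5
  have k1 : m x2 c11 := by
    rcases P1 c11 with h | h | h
    · exact h
    · exact absurd h (out h111 (hsymm _ _ a1))
    · exact absurd h (out h112 b2)
  have k2 : m c8 c11 := by
    rcases P2 c11 with h | h | h
    · exact absurd ⟨h, k1⟩ (f12 c11)
    · exact h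
    · exact absurd h (out h111 d1)
  -- 6
  have l1 : m c12 y0 := by
    rcases P2 y0 with h | h | h
    · exact absurd ⟨hy0, h⟩ (f01 y0)
    · exact absurd k2 (out h112 h)
    · exact h
  -- 7
  have n1 : m x2 c13 := by
    rcases P1 c13 with h | h | h
    · exact h
    · exact absurd h (out h132 g1)
    · exact absurd h (out h131 b2)
  rcases P2 c13 with h | h | h
  · exact f12 c13 ⟨h, n1⟩
  · exact out h132 g2 h
  · exact out h131 l1 h

namespace Inst

variable (I : Inst m C)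

include I

/-- If all packings cover all centres, some star is closed under adjacency among the centres. -/
lemma iso_tile (v0 : V) (E : ∀ a b c x, Pk m C a b c → C x → m a x ∨ m b x ∨ m c x) :
    ∃ x0 x1 x2, Pk m C x0 x1 x2 ∧ ∀ y z, C y → C z → m x0 y → m y z → m x0 z := by
  obtain ⟨x0, c0, -, -⟩ := I.T v0 v0
  obtain ⟨x1, x2, hk⟩ := I.pk_of c0
  let m' : {x // C x} → {x // C x} → Prop := fun a b => m a.1 b.1
  have hT' : ∀ x y, ∃ z, Far m' z x ∧ Far m' z y := by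
    intro x y
    obtain ⟨z, cz, h1, h2⟩ := I.T x.1 y.1
    exact ⟨⟨z, cz⟩, fun v hv => h1 v.1 hv, fun v hv => h2 v.1 hv⟩
  have hU' : ∀ a b d, Far m' a b → Far m' a d → Far m' b d → ∀ x, m' a x ∨ m' b x ∨ m' d x := by
    intro a b d hab had hbd x
    by_contra hcon
    push Not at hcon
    obtain ⟨n1, n2, n3⟩ := hcon
    obtain ⟨p, q, hp⟩ := I.pk_of x.2
    have ea := E x.1 p q a.1 hp a.2
    have eb := E x.1 p q b.1 hp b.2
    have ed := E x.1 p q d.1 hp d.2
    have ha : m p a.1 ∨ m q a.1 := ea.resolve_left (I.ns n1)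
    have hb : m p b.1 ∨ m q b.1 := eb.resolve_left (I.ns n2)
    have hc : m p d.1 ∨ m q d.1 := ed.resolve_left (I.ns n3)
    rcases ha with ha | ha <;> rcases hb with hb | hb <;> rcases hc with hc | hc
    · exact hab ⟨p, hp.cb⟩ ⟨I.symm _ _ ha, I.symm _ _ hb⟩
    · exact hab ⟨p, hp.cb⟩ ⟨I.symm _ _ ha, I.symm _ _ hb⟩
    · exact had ⟨p, hp.cb⟩ ⟨I.symm _ _ ha, I.symm _ _ hc⟩
    · exact hbd ⟨q, hp.cc⟩ ⟨I.symm _ _ hb, I.symm _ _ hc⟩
    · exact hbd ⟨p, hp.cb⟩ ⟨I.symm _ _ hb, I.symm _ _ hc⟩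
    · exact had ⟨q, hp.cc⟩ ⟨I.symm _ _ ha, I.symm _ _ hc⟩
    · exact hab ⟨q, hp.cc⟩ ⟨I.symm _ _ ha, I.symm _ _ hb⟩
    · exact hab ⟨q, hp.cc⟩ ⟨I.symm _ _ ha, I.symm _ _ hb⟩
  have key : ∀ {x0 x1 x2 : V}, Pk m C x0 x1 x2 →
      (∃ y z, C y ∧ C z ∧ m x0 y ∧ m x1 z ∧ m y z) →
      (∃ y z, C y ∧ C z ∧ m x0 y ∧ m x2 z ∧ m y z) → False := by
    rintro x0 x1 x2 hk ⟨y0, z0, cy0, cz0, h1, h2, h3⟩ ⟨y1, z1, cy1, cz1, h4, h5, h6⟩
    exact no_path (m := m') (fun x => I.refl _) (fun x y => I.symm _ _) hT' hU'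
      (x0 := ⟨x0, hk.ca⟩) (x1 := ⟨x1, hk.cb⟩) (x2 := ⟨x2, hk.cc⟩) (y0 := ⟨y0, cy0⟩)
      (y1 := ⟨y1, cy1⟩) (z0 := ⟨z0, cz0⟩) (z1 := ⟨z1, cz1⟩) (fun v hv => hk.ab v.1 hv)
      (fun v hv => hk.ac v.1 hv) (fun v hv => hk.bc v.1 hv) h1 h4 h2 h5 h3 h6
  have key2 : ∀ {x0 x1 x2 : V}, Pk m C x0 x1 x2 →
      ¬ (∃ y z, C y ∧ C z ∧ m x0 y ∧ m x1 z ∧ m y z) →
      ¬ (∃ y z, C y ∧ C z ∧ m x0 y ∧ m x2 z ∧ m y z) →
      ∃ x0 x1 x2, Pk m C x0 x1 x2 ∧ ∀ y z, C y → C z → m x0 y → m y z → m x0 z := by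
    intro x0 x1 x2 hk h1 h2
    refine ⟨x0, x1, x2, hk, fun y z cy cz hy hyz => ?_⟩
    rcases E x0 x1 x2 z hk cz with h | h | h
    · exact h
    · exact absurd ⟨y, z, cy, cz, hy, h, hyz⟩ h1
    · exact absurd ⟨y, z, cy, cz, hy, h, hyz⟩ h2
  by_cases e01 : ∃ y z, C y ∧ C z ∧ m x0 y ∧ m x1 z ∧ m y z
  · have e02 := fun h => key hk e01 h
    have e12 : ¬ ∃ y z, C y ∧ C z ∧ m x1 y ∧ m x2 z ∧ m y z := by
      intro h
      refine key hk.swap12 ?_ h
      obtain ⟨y, z, h1, h2, h3, h4, h5⟩ := e01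
      exact ⟨z, y, h2, h1, h4, h3, I.symm _ _ h5⟩
    refine key2 (x0 := x2) (x1 := x0) (x2 := x1) hk.swap23.swap12 ?_ ?_
    · rintro ⟨y, z, h1, h2, h3, h4, h5⟩
      exact e02 ⟨z, y, h2, h1, h4, h3, I.symm _ _ h5⟩
    · rintro ⟨y, z, h1, h2, h3, h4, h5⟩
      exact e12 ⟨z, y, h2, h1, h4, h3, I.symm _ _ h5⟩
  · by_cases e02 : ∃ y z, C y ∧ C z ∧ m x0 y ∧ m x2 z ∧ m y z
    · have e12 : ¬ ∃ y z, C y ∧ C z ∧ m x1 y ∧ m x2 z ∧ m y z := by
        rintro ⟨y, z, h1, h2, h3, h4, h5⟩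
        refine key (x0 := x2) (x1 := x0) (x2 := x1) hk.swap23.swap12 ?_
          ⟨z, y, h2, h1, h4, h3, I.symm _ _ h5⟩
        obtain ⟨y, z, h1, h2, h3, h4, h5⟩ := e02
        exact ⟨z, y, h2, h1, h4, h3, I.symm _ _ h5⟩
      refine key2 (x0 := x1) (x1 := x0) (x2 := x2) hk.swap12 ?_ e12
      rintro ⟨y, z, h1, h2, h3, h4, h5⟩
      exact e01 ⟨z, y, h2, h1, h4, h3, I.symm _ _ h5⟩
    · exact key2 hk e01 e02

/-- If all packings cover all centres then there is a contradiction. -/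
lemma perfect_false (v0 : V) (E : ∀ a b c x, Pk m C a b c → C x → m a x ∨ m b x ∨ m c x) :
    False := by
  obtain ⟨x0, x1, x2, hk, cl⟩ := I.iso_tile v0 E
  have nx01 : ¬ m x0 x1 := fun h => hk.ab x1 ⟨h, I.refl _⟩
  have nx02 : ¬ m x0 x2 := fun h => hk.ac x2 ⟨h, I.refl _⟩
  -- X is a clique
  have F1 : ∀ c v, C c → m x0 c → C v → m x0 v → m c v := by
    intro c v cc hc cv hv
    obtain ⟨p, q, hp⟩ := I.pk_of cc
    have hp0 : ¬ m x0 p := fun h => hp.ab x0 ⟨I.symm _ _ hc, I.symm _ _ h⟩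
    have hq0 : ¬ m x0 q := fun h => hp.ac x0 ⟨I.symm _ _ hc, I.symm _ _ h⟩
    rcases E c p q v hp cv with h | h | h
    · exact h
    · exact absurd (cl v p cv hp.cb hv (I.symm _ _ h)) hp0
    · exact absurd (cl v q cv hp.cc hv (I.symm _ _ h)) hq0
  -- far pairs in Y cover the centres of Y
  have KY : ∀ u, C u → ¬ m x0 u → ∀ c e, C c → C e → ¬ m x0 c → ¬ m x0 e → Far m c e →
      m c u ∨ m e u := by
    intro u cu hu c e cc ce hc he hce
    obtain ⟨p, hp⟩ := I.pk_of2 cc ce hce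
    have hpx : m x0 p := by
      rcases E c e p x0 hp hk.ca with h | h | h
      · exact absurd (I.symm _ _ h) hc
      · exact absurd (I.symm _ _ h) he
      · exact I.symm _ _ h
    rcases E c e p u hp cu with h | h | h
    · exact Or.inl h
    · exact Or.inr h
    · exact absurd (cl p u hp.cc cu hpx h) hu
  -- the killing lemma
  have K : ∀ v u, (∀ c, C c → m x0 c → ∃ w, m c w ∧ m v w) → m v u →
      (∀ c e, C c → C e → ¬ m x0 c → ¬ m x0 e → Far m c e → m c u ∨ m e u) → False := by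
    intro v u hv hvu hcov
    have : ∃ e, C e ∧ ¬ m x0 e ∧ ¬ m e u := by
      by_cases h : m x1 u
      · exact ⟨x2, hk.cc, nx02, fun h' => hk.bc u ⟨h, h'⟩⟩
      · exact ⟨x1, hk.cb, nx01, h⟩
    obtain ⟨e, ce, he, heu⟩ := this
    obtain ⟨c, cc, hc1, hc2⟩ := I.T v e
    have hcX : ¬ m x0 c := by
      intro h
      obtain ⟨w, hw1, hw2⟩ := hv c cc h
      exact hc1 w ⟨hw1, hw2⟩
    rcases hcov c e cc ce hcX he hc2 with h | h
    · exact hc1 u ⟨h, hvu⟩
    · exact heu h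
  have F2 : ∀ x y v, C x → m x0 x → C y → ¬ m x0 y → m x v → m y v → False := by
    intro x y v cx hx cy hy hxv hyv
    refine K v y (fun c cc hc => ⟨x, F1 c x cc hc cx hx, I.symm _ _ hxv⟩) (I.symm _ _ hyv)
      (KY y cy hy)
  have hfar : ∀ x y, C x → m x0 x → C y → ¬ m x0 y → Far m x y := fun x y cx hx cy hy v hv =>
    F2 x y v cx hx cy hy hv.1 hv.2
  have hx0 := I.refl x0
  by_cases P1 : ∀ c v, C c → m x0 c → (∃ x, C x ∧ m x0 x ∧ m x v) → m c v
  · obtain ⟨o, o', ho, ho', hoo⟩ := I.edge (fun v => ∃ x, C x ∧ m x0 x ∧ m x v)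
      ⟨x0, x0, hk.ca, hx0, hx0⟩
      ⟨x1, by
        rintro ⟨x, cx, hx, hx1⟩
        exact nx01 (cl x x1 cx hk.cb hx hx1)⟩
    have kill : ∀ c, C c → m x0 c → ∃ w, m c w ∧ m o' w := fun c cc hc =>
      ⟨o, P1 c o cc hc ho, I.symm _ _ hoo⟩
    by_cases hY : ∃ y, C y ∧ ¬ m x0 y ∧ m y o'
    · obtain ⟨y, cy, hy, hyo⟩ := hY
      exact K o' y kill (I.symm _ _ hyo) (KY y cy hy)
    · have hY' : ∀ y, C y → ¬ m x0 y → ¬ m y o' := fun y cy hy h => hY ⟨y, cy, hy, h⟩
      have hx0o' : ¬ m x0 o' := fun h => ho' ⟨x0, hk.ca, hx0, h⟩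
      have P2 : ∀ u, (∃ y, C y ∧ ¬ m x0 y ∧ m y u) →
          ∀ c e, C c → C e → ¬ m x0 c → ¬ m x0 e → Far m c e → m c u ∨ m e u := by
        rintro u ⟨y, cy, hy, hyu⟩ c e cc ce hc he hce
        by_contra hcon
        push Not at hcon
        have hx0u : ¬ m x0 u := fun h => F2 x0 y u hk.ca hx0 cy hy h hyu
        have := I.U x0 c e hk.ca cc ce (hfar x0 c hk.ca hx0 cc hc) (hfar x0 e hk.ca hx0 ce he)
          hce u o' hx0u hcon.1 hcon.2 hx0o' (hY' c cc hc) (hY' e ce he)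
        subst this
        exact hY' y cy hy hyu
      obtain ⟨p, p', hp, hp', hpp⟩ := I.edge (fun v => ∃ y, C y ∧ ¬ m x0 y ∧ m y v)
        ⟨x1, x1, hk.cb, nx01, I.refl _⟩
        ⟨x0, by
          rintro ⟨y, cy, hy, hyx⟩
          exact hy (I.symm _ _ hyx)⟩
      by_cases hX : ∃ x, C x ∧ m x0 x ∧ m x p'
      · obtain ⟨y, cy, hy, hyp⟩ := hp
        exact K p y (fun c cc hc => ⟨p', P1 c p' cc hc hX, hpp⟩) (I.symm _ _ hyp) (KY y cy hy)
      · have hp'Y : ∀ y, C y → ¬ m x0 y → ¬ m y p' := fun y cy hy h => hp' ⟨y, cy, hy, h⟩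
        have : p' = o' := I.U x0 x1 x2 hk.ca hk.cb hk.cc hk.ab hk.ac hk.bc p' o'
          (fun h => hX ⟨x0, hk.ca, hx0, h⟩) (hp'Y x1 hk.cb nx01) (hp'Y x2 hk.cc nx02)
          hx0o' (hY' x1 hk.cb nx01) (hY' x2 hk.cc nx02)
        subst this
        exact K p' p kill (I.symm _ _ hpp) (P2 p hp)
  · push Not at P1
    obtain ⟨c0, o1, cc0, hc0, ⟨x, cx, hx, hxo⟩, hc0o⟩ := P1
    have hYo : ∀ y, C y → ¬ m x0 y → ¬ m y o1 := fun y cy hy h => F2 x y o1 cx hx cy hy hxo h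
    have P2 : ∀ u, (∃ y, C y ∧ ¬ m x0 y ∧ m y u) →
          ∀ c e, C c → C e → ¬ m x0 c → ¬ m x0 e → Far m c e → m c u ∨ m e u := by
      rintro u ⟨y, cy, hy, hyu⟩ c e cc ce hc he hce
      by_contra hcon
      push Not at hcon
      have hc0u : ¬ m c0 u := fun h => F2 c0 y u cc0 hc0 cy hy h hyu
      have := I.U c0 c e cc0 cc ce (hfar c0 c cc0 hc0 cc hc) (hfar c0 e cc0 hc0 ce he)
        hce u o1 hc0u hcon.1 hcon.2 hc0o (hYo c cc hc) (hYo e ce he)
      subst this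
      exact hYo y cy hy hyu
    obtain ⟨p, p', hp, hp', hpp⟩ := I.edge (fun v => ∃ y, C y ∧ ¬ m x0 y ∧ m y v)
      ⟨x1, x1, hk.cb, nx01, I.refl _⟩
      ⟨x0, by
        rintro ⟨y, cy, hy, hyx⟩
        exact hy (I.symm _ _ hyx)⟩
    have hp'Y : ∀ y, C y → ¬ m x0 y → ¬ m y p' := fun y cy hy h => hp' ⟨y, cy, hy, h⟩
    by_cases hX : ∃ x, C x ∧ m x0 x ∧ m x p'
    · obtain ⟨x', cx', hx', hxp⟩ := hX
      exact K p' p (fun c cc hc => ⟨x', F1 c x' cc hc cx' hx', I.symm _ _ hxp⟩)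
        (I.symm _ _ hpp) (P2 p hp)
    · have : p' = o1 := I.U c0 x1 x2 cc0 hk.cb hk.cc (hfar c0 x1 cc0 hc0 hk.cb nx01)
        (hfar c0 x2 cc0 hc0 hk.cc nx02) hk.bc p' o1
        (fun h => hX ⟨c0, cc0, hc0, h⟩) (hp'Y x1 hk.cb nx01) (hp'Y x2 hk.cc nx02)
        hc0o (hYo x1 hk.cb nx01) (hYo x2 hk.cc nx02)
      subst this
      exact hX ⟨x, cx, hx, hxo⟩

end Inst

namespace Inst

variable (I : Inst m C)

include I

/-- `D2`: a missed centre is not far from the members of a packing missed by it. -/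
lemma not_far {t z b c p q : V} (h1 : Ms m C z b c t) (h2 : Ms m C t p q z) : ¬ Far m t z := by
  intro hf
  -- symmetric version, to be applied to the four choices
  have main : ∀ {b c p q : V}, Ms m C z b c t → Ms m C t p q z → b = p → False := by
    intro b c p q h1 h2 hbp
    subst hbp
    have k : Pk m C t b z := ⟨h2.pk.ca, h2.pk.cb, h1.pk.ca, h2.pk.ab, hf, far_symm h1.pk.ab⟩
    -- leftover of t, b, z
    obtain ⟨x, hx, hxm⟩ := I.near h2 (k.swap23.swap12)
    have hxq : x = q := by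
      rcases hx with rfl | rfl | rfl
      · exact absurd (I.refl _) hxm.nb
      · exact absurd (I.refl _) hxm.nc
      · rfl
    obtain ⟨y, hy, hym⟩ := I.near h1 k
    have hyc : y = c := by
      rcases hy with rfl | rfl | rfl
      · exact absurd (I.refl _) hym.nc
      · exact absurd (I.refl _) hym.nb
      · rfl
    have hxy : x = y := I.Uniq hxm.swap12.swap23 hym
    have hqc : q = c := by rw [← hxq, hxy, hyc]
    subst hqc
    -- the closed neighbourhood of z is z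
    have hz : ∀ v, m z v → v = z := by
      intro v hv
      refine (I.Uniq h2 ⟨h2.pk, fun h => hf v ⟨h, hv⟩, fun h => h1.pk.ab v ⟨hv, h⟩,
        fun h => h1.pk.ac v ⟨hv, h⟩⟩).symm
    have := I.conn (fun v => v = z) ⟨z, rfl⟩ (fun x y hx hxy => hz y (hx ▸ hxy)) t
    exact h2.na (this ▸ I.refl _)
  obtain ⟨d, cd, hd1, hd2⟩ := I.T t z
  have k : Pk m C t z d := ⟨h2.pk.ca, h1.pk.ca, cd, hf, far_symm hd1, far_symm hd2⟩
  obtain ⟨x, hx, hxm⟩ := I.near h1 k
  obtain ⟨y, hy, hym⟩ := I.near h2 k.swap12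
  have hxy : x = y := I.Uniq hxm hym.swap12
  subst hxy
  rcases hx with rfl | rfl | rfl
  · exact hxm.nb (I.refl _)
  · rcases hy with rfl | rfl | rfl
    · exact hym.nb (I.refl _)
    · exact main h1 h2 rfl
    · exact main h1 h2.swap23 rfl
  · rcases hy with rfl | rfl | rfl
    · exact hym.nb (I.refl _)
    · exact main h1.swap23 h2 rfl
    · exact main h1.swap23 h2.swap23 rfl

/-- If there is a packing missing a centre then there are false twins. -/
lemma twins {a b c t : V} (h : Ms m C a b c t) (ct : C t) :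
    ∃ t z, C t ∧ C z ∧ ¬ m t z ∧ ∀ v, v ≠ t → v ≠ z → (m t v ↔ m z v) := by
  obtain ⟨p, q, hk⟩ := I.pk_of ct
  obtain ⟨z, hz, h2⟩ := I.near h hk
  -- packing through z missing t
  have : ∃ b c, Ms m C z b c t := by
    rcases hz with rfl | rfl | rfl
    · exact ⟨b, c, h⟩
    · exact ⟨a, c, h.swap12⟩
    · exact ⟨a, b, h.swap23.swap12⟩
  obtain ⟨b, c, h1⟩ := this
  clear h hz hk
  have cz : C z := h1.pk.ca
  have nf := I.not_far h1 h2
  -- the good case
  have good : ∀ {t z c c1 c2 : V}, C t → C z → Far m c t → Far m c z → Ms m C t c c1 z →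
      Ms m C z c c2 t → ∀ v, v ≠ t → v ≠ z → m z v → m t v := by
    intro t z c c1 c2 ct cz hct hcz h1 h2 v hvt hvz hv
    by_contra hcon
    obtain ⟨g, h, hg, hh, hgh⟩ := I.edge (fun v => m c v) ⟨c, I.refl c⟩
      ⟨t, fun h => hct t ⟨h, I.refl t⟩⟩
    exact config_a I.refl I.symm I.T I.U ct cz h1.pk.cb h1.pk.cc h2.pk.cc h1.pk.ab h1.pk.ac
      h1.pk.bc h2.pk.ab h2.pk.ac h2.pk.bc h1.na h1.nc h2.nc hv hcon hvz hg hh hgh
  have good2 : ∀ {t z c c1 c2 : V}, C t → C z → Far m c t → Far m c z → Ms m C t c c1 z →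
      Ms m C z c c2 t → ∃ t z, C t ∧ C z ∧ ¬ m t z ∧ ∀ v, v ≠ t → v ≠ z → (m t v ↔ m z v) := by
    intro t z c c1 c2 ct cz hct hcz h1 h2
    exact ⟨t, z, ct, cz, h1.na, fun v hvt hvz =>
      ⟨good cz ct hcz hct h2 h1 v hvz hvt, good ct cz hct hcz h1 h2 v hvt hvz⟩⟩
  obtain ⟨c', cc', hct, hcz⟩ := I.T t z
  obtain ⟨c1, k1⟩ := I.pk_of2 ct cc' (far_symm hct)
  obtain ⟨c2, k2⟩ := I.pk_of2 cz cc' (far_symm hcz)
  obtain ⟨z', hz', m1⟩ := I.near h1 k1
  obtain ⟨t', ht', m2⟩ := I.near h2 k2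
  by_cases e1 : z' = z
  · subst e1
    by_cases e2 : t' = t
    · subst e2
      exact good2 ct cz hct hcz m1 m2
    · -- t' = c1
      obtain ⟨x, hx, hxm⟩ := I.near m1 k2
      have hxt : x = t' := I.Uniq hxm m2
      subst hxt
      have hxc : x = c1 := by
        rcases hx with rfl | rfl | rfl
        · exact absurd rfl e2
        · exact absurd (I.refl _) m2.nb
        · rfl
      subst hxc
      exact good2 (t := z') (z := x) (c := c') (c1 := c2) (c2 := t) cz k1.cc hcz k1.bc m2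
        (m1.swap23.swap12.swap23)
  · by_cases e2 : t' = t
    · subst e2
      obtain ⟨x, hx, hxm⟩ := I.near m2 k1
      have hxt : x = z' := I.Uniq hxm m1
      subst hxt
      have hxc : x = c2 := by
        rcases hx with rfl | rfl | rfl
        · exact absurd rfl e1
        · exact absurd (I.refl _) m1.nb
        · rfl
      subst hxc
      exact good2 (t := t') (z := x) (c := c') (c1 := c1) (c2 := z) ct k2.cc hct k2.bc m1
        (m2.swap23.swap12.swap23)
    · -- case B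
      exfalso
      have B : ∀ {b c p q : V}, Ms m C z b c t → Ms m C t p q z → z' = b → t' = p → False := by
        rintro b c p q h1 h2 rfl rfl
        obtain ⟨g, h, hg, hh, hgh⟩ := I.edge (fun v => m c' v) ⟨c', I.refl c'⟩
          ⟨t, fun h => hct t ⟨h, I.refl t⟩⟩
        exact config_b I.refl I.symm I.T I.U (t := t) (z := z) (z1 := z') (t1 := t') (c := c')
          (c1 := c1) (c2 := c2) (r := c) (r1 := q) ct cz h1.pk.cb h2.pk.cb cc' k1.cc k2.cc
          h1.pk.cc h2.pk.cc k1.ab k1.ac k1.bc k2.ab k2.ac k2.bc h1.pk.ab h1.pk.ac h1.pk.bc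
          h2.pk.ab h2.pk.ac h2.pk.bc h1.nb m1.nb m1.nc h2.nb m2.nb m2.nc h1.na h1.nc h2.nc
          hg hh hgh
      have hz2 : z' = b ∨ z' = c := by
        rcases hz' with h | h | h
        · exact absurd h e1
        · exact Or.inl h
        · exact Or.inr h
      have ht2 : t' = p ∨ t' = q := by
        rcases ht' with h | h | h
        · exact absurd h e2
        · exact Or.inl h
        · exact Or.inr h
      rcases hz2 with hz2 | hz2 <;> rcases ht2 with ht2 | ht2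
      · exact B h1 h2 hz2 ht2
      · exact B h1 h2.swap23 hz2 ht2
      · exact B h1.swap23 h2 hz2 ht2
      · exact B h1.swap23 h2.swap23 hz2 ht2

/-- Deleting one of two false twins. -/
lemma delete {t z : V} (ct : C t) (ntz : ¬ m t z)
    (htw : ∀ v, v ≠ t → v ≠ z → (m t v ↔ m z v)) :
    Inst (V := {v // v ≠ z}) (fun a b => m a.1 b.1) (fun a => C a.1) := by
  have htz : t ≠ z := by
    rintro rfl
    exact ntz (I.refl _)
  have F : ∀ a b : {v // v ≠ z}, Far (fun a b : {v // v ≠ z} => m a.1 b.1) a b →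
      Far m a.1 b.1 := by
    intro a b hab v hv
    by_cases hvz : v = z
    · subst hvz
      have hat : a.1 ≠ t := fun h => ntz (h ▸ hv.1)
      have hbt : b.1 ≠ t := fun h => ntz (h ▸ hv.2)
      have h1 := (htw a.1 hat a.2).2 (I.symm _ _ hv.1)
      have h2 := (htw b.1 hbt b.2).2 (I.symm _ _ hv.2)
      exact hab ⟨t, htz⟩ ⟨I.symm _ _ h1, I.symm _ _ h2⟩
    · exact hab ⟨v, hvz⟩ hv
  refine ⟨fun x => I.refl _, fun x y => I.symm _ _, ?_, ?_, ?_⟩
  · intro x y
    obtain ⟨c, cc, h1, h2⟩ := I.T x.1 y.1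
    by_cases hcz : c = z
    · subst hcz
      have nfar : ¬ Far m c t := by
        intro hf
        have hz : ∀ v, m c v → v = c := by
          intro v hv
          by_contra hvc
          have hvt : v ≠ t := fun h => ntz (I.symm _ _ (h ▸ hv))
          exact hf v ⟨hv, (htw v hvt hvc).2 hv⟩
        exact htz (I.conn (fun v => v = c) ⟨c, rfl⟩ (fun x y hx hxy => hz y (hx ▸ hxy)) t)
      have key : ∀ x : {v // v ≠ c}, Far m c x.1 → Far m t x.1 := by
        intro x hx v hv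
        by_cases hvt : v = t
        · subst hvt
          by_cases hxv : x.1 = v
          · exact nfar (hxv ▸ hx)
          · have := (htw x.1 hxv x.2).1 (I.symm _ _ hv.2)
            exact hx x.1 ⟨this, I.refl _⟩
        · have hvc : v ≠ c := fun h => ntz (h ▸ hv.1)
          exact hx v ⟨(htw v hvt hvc).1 hv.1, hv.2⟩
      exact ⟨⟨t, htz⟩, ct, fun v hv => key x h1 v.1 hv, fun v hv => key y h2 v.1 hv⟩
    · exact ⟨⟨c, hcz⟩, cc, fun v hv => h1 v.1 hv, fun v hv => h2 v.1 hv⟩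
  · intro a b d ca cb cd fab fad fbd x y h1 h2 h3 h4 h5 h6
    exact Subtype.ext (I.U a.1 b.1 d.1 ca cb cd (F a b fab) (F a d fad) (F b d fbd) x.1 y.1
      h1 h2 h3 h4 h5 h6)
  · rintro S ⟨x, hx⟩ hS y
    have := I.conn (fun v => (∃ h : v ≠ z, S ⟨v, h⟩) ∨ (v = z ∧ S ⟨t, htz⟩))
      ⟨x.1, Or.inl ⟨x.2, hx⟩⟩ ?_ y.1
    · rcases this with ⟨h, h'⟩ | ⟨h, -⟩
      · exact h'
      · exact absurd h y.2
    · intro a b ha hab
      by_cases hbz : b = z
      · subst hbz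
        right
        refine ⟨rfl, ?_⟩
        rcases ha with ⟨h, h'⟩ | ⟨h, h'⟩
        · have hat : a ≠ t := fun h => ntz (h ▸ hab)
          have := (htw a hat h).2 (I.symm _ _ hab)
          exact hS ⟨a, h⟩ ⟨t, htz⟩ h' (I.symm _ _ this)
        · exact h'
      · left
        refine ⟨hbz, ?_⟩
        rcases ha with ⟨h, h'⟩ | ⟨h, h'⟩
        · exact hS ⟨a, h⟩ ⟨b, hbz⟩ h' hab
        · subst h
          have hbt : b ≠ t := fun h => ntz (I.symm _ _ (h ▸ hab))
          exact hS ⟨t, htz⟩ ⟨b, hbz⟩ h' ((htw b hbt hbz).2 hab)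

end Inst

end

/-- **Base case.**  There is no finite nonempty instance. -/
theorem base_false (n : ℕ) : ∀ (V : Type u) [Finite V] (m : V → V → Prop) (C : V → Prop),
    Nat.card V = n → Nonempty V → Inst m C → False := by
  induction n using Nat.strong_induction_on with
  | _ n ih =>
    intro V _ m C hn ⟨v0⟩ I
    by_cases E : ∀ a b c x, Pk m C a b c → C x → m a x ∨ m b x ∨ m c x
    · exact I.perfect_false v0 E
    · push Not at E
      obtain ⟨a, b, c, x, hk, cx, h1, h2, h3⟩ := E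
      obtain ⟨t, z, ct, cz, ntz, htw⟩ := I.twins ⟨hk, h1, h2, h3⟩ cx
      have htz : t ≠ z := by
        rintro rfl
        exact ntz (I.refl _)
      have J := I.delete ct ntz htw
      refine ih (Nat.card {v // v ≠ z}) ?_ {v // v ≠ z} _ _ rfl ⟨⟨t, htz⟩⟩ J
      rw [← hn]
      have := Fintype.ofFinite V
      classical
      rw [Nat.card_eq_fintype_card, Nat.card_eq_fintype_card]
      exact Fintype.card_subtype_lt (x := z) (by simp)

end Pool.Agent.Star.FO
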