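import Pool.Agent.Star.Red3

/-!
# Star systems: plain ends (R5)

In a system which exceeds the bound by one, all smaller systems satisfying it, there is a star set
whose removal leaves a connected system, held together by its star sets, which meets the bound
with equality.
-/

set_option autoImplicit false
set_option linter.unusedSectionVars false
set_option linter.unusedVariables false

namespace Pool.Agent.Star.Rig

open Finset

variable {V : Type*} [DecidableEq V]

section
variable {N : V → Finset V} {K : ℕ}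

/-- The family `Z` hangs together: a separated set contains all or meets none. -/
def FC (Z : Finset (Finset V)) : Prop :=
  Z.Nonempty ∧ ∀ B, Sep Z B → (∀ S ∈ Z, S ⊆ B) ∨ (∀ S ∈ Z, Disjoint S B)

lemma Sep.mono {C C' : Finset (Finset V)} {B : Finset V} (h : Sep C B) (hC : C' ⊆ C) :
    Sep C' B := fun S hS => h S (hC hS)

lemma fc_single (S : Finset V) : FC ({S} : Finset (Finset V)) := by
  refine ⟨⟨S, by simp⟩, ?_⟩
  intro B hB
  rcases hB S (by simp) with h | h
  · left; intro S' hS'; rw [Finset.mem_singleton.1 hS']; exact h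
  · right; intro S' hS'; rw [Finset.mem_singleton.1 hS']; exact h

lemma FC.insert {Z : Finset (Finset V)} (hZ : FC Z) {S T : Finset V} (hS : S ∈ Z)
    (hST : ¬ Disjoint T S) : FC (insert T Z) := by
  refine ⟨⟨T, Finset.mem_insert_self _ _⟩, ?_⟩
  intro B hB
  have h1 := hZ.2 B (hB.mono (Finset.subset_insert _ _))
  have h2 := hB T (Finset.mem_insert_self _ _)
  rw [Finset.not_disjoint_iff] at hST
  obtain ⟨x, hxT, hxS⟩ := hST
  rcases h1 with h1 | h1
  · left
    intro S' hS'
    rcases Finset.mem_insert.1 hS' with rfl | hS'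
    · rcases h2 with h2 | h2
      · exact h2
      · exact absurd (h1 S hS hxS) (Finset.disjoint_left.1 h2 hxT)
    · exact h1 S' hS'
  · right
    intro S' hS'
    rcases Finset.mem_insert.1 hS' with rfl | hS'
    · rcases h2 with h2 | h2
      · exact absurd (h2 hxT) (Finset.disjoint_left.1 (h1 S hS) hxS)
      · exact h2
    · exact h1 S' hS'

/-- The union of a family. -/
def un (Z : Finset (Finset V)) : Finset V := Z.biUnion id

lemma mem_un {Z : Finset (Finset V)} {x : V} : x ∈ un Z ↔ ∃ S ∈ Z, x ∈ S := by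
  simp [un]

lemma sub_un {Z : Finset (Finset V)} {S : Finset V} (hS : S ∈ Z) : S ⊆ un Z :=
  fun x hx => mem_un.2 ⟨S, hS, hx⟩

lemma FC.conn (hsym : ∀ x y, x ∈ N y → y ∈ N x) {A : Finset V} {C Z : Finset (Finset V)}
    (hZ : FC Z) (hS : Sys N K A C) (hZC : Z ⊆ C) : Conn N (un Z) := by
  refine ⟨?_, ?_⟩
  · obtain ⟨S, hSZ⟩ := hZ.1
    exact (hS.nonempty (hZC hSZ)).mono (sub_un hSZ)
  · intro B hB hBn hBne
    by_contra hcon
    push Not at hcon
    have hsep : Sep Z B := by
      intro S hSZ
      obtain ⟨c, hc, hcN⟩ := hS.cen S (hZC hSZ)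
      by_cases hcB : c ∈ B
      · left
        intro x hx
        by_contra hxB
        exact hcon c hcB x (sub_un hSZ hx) hxB (hcN hx)
      · right
        rw [Finset.disjoint_left]
        intro x hx hxB
        exact hcon x hxB c (sub_un hSZ hc) hcB (hsym _ _ (hcN hx))
    rcases hZ.2 B hsep with h | h
    · apply hBne
      apply Finset.Subset.antisymm hB
      intro x hx
      obtain ⟨S, hSZ, hxS⟩ := mem_un.1 hx
      exact h S hSZ hxS
    · obtain ⟨x, hx⟩ := hBn
      obtain ⟨S, hSZ, hxS⟩ := mem_un.1 (hB hx)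
      exact Finset.disjoint_left.1 (h S hSZ) hxS hx

lemma un_sys {A : Finset V} {C Z : Finset (Finset V)} (hS : Sys N K A C) (hZC : Z ⊆ C) :
    Sys N K (un Z) Z :=
  ⟨fun S h => sub_un h, fun S h => hS.card S (hZC h), fun S h => hS.cen S (hZC h)⟩

lemma un_sub {A : Finset V} {C Z : Finset (Finset V)} (hS : Sys N K A C) (hZC : Z ⊆ C) :
    un Z ⊆ A := by
  intro x hx
  obtain ⟨S, hSZ, hxS⟩ := mem_un.1 hx
  exact hS.sub S (hZC hSZ) hxS

variable {A : Finset V} {C : Finset (Finset V)}

/-- A star set is killed by the centre of a star set it meets. -/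
lemma hit_of_meet {S T : Finset V} {c : V} (hcN : S ⊆ N c) (h : ¬ Disjoint T S) {D : Finset V}
    (hc : c ∈ D) : Hit N D T := by
  rw [Finset.not_disjoint_iff] at h
  obtain ⟨x, hxT, hxS⟩ := h
  exact ⟨c, hc, x, hxT, hcN hxS⟩

/-- **R5.** Plain ends. -/
theorem plain_end (hs : ∀ x, x ∈ N x) (hsym : ∀ x y, x ∈ N y → y ∈ N x) (hK : 2 ≤ K)
    (hS : Sys N K A C) (hA : Conn N A)
    (hE : ∀ A' ⊂ A, ∀ C' ⊆ C, Sys N K A' C' → Conn N A' → Bd N K A' C')
    (he : (2 * K + 1) * gk N A C = 2 * A.card + 1) (h5 : 5 ≤ gk N A C) :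
    ∃ S ∈ C, Conn N (A \ S) ∧
      (2 * K + 1) * gk N (A \ S) (res C (A \ S)) = 2 * (A \ S).card ∧
      gk N (A \ S) (res C (A \ S)) + 1 = gk N A C ∧
      ∀ B ⊆ A \ S, B.Nonempty → B ≠ A \ S → ∃ S' ∈ res C (A \ S), ¬ S' ⊆ B ∧ ¬ Disjoint S' B := by
  classical
  have hV : 2 * A.card < (2 * K + 1) * gk N A C := by omega
  -- two disjoint star sets
  obtain ⟨S0, hS0, T0, hT0, hd0⟩ : ∃ S ∈ C, ∃ T ∈ C, Disjoint T S := by
    by_contra hcon
    push Not at hcon
    have hCn : C.Nonempty := by
      by_contra hn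
      rw [Finset.not_nonempty_iff_eq_empty] at hn
      have : gk N A C ≤ (∅ : Finset V).card := gk_le (Finset.empty_subset _) (by
        intro S hSC
        rw [hn] at hSC
        exact absurd hSC (Finset.notMem_empty _))
      rw [Finset.card_empty] at this
      omega
    obtain ⟨S, hSC⟩ := hCn
    obtain ⟨c, hc, hcN⟩ := hS.cen S hSC
    have : gk N A C ≤ ({c} : Finset V).card := gk_le
      (by rw [Finset.singleton_subset_iff]; exact hS.sub S hSC hc)
      (fun T hTC => hit_of_meet hcN (hcon S hSC T hTC) (by simp))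
    rw [Finset.card_singleton] at this
    omega
  -- the choice
  set P : Finset (Finset V × Finset (Finset V)) := (C ×ˢ C.powerset).filter
    (fun p => FC p.2 ∧ ∀ T ∈ p.2, Disjoint T p.1) with hP
  have hmemP : ∀ (S : Finset V) (Z : Finset (Finset V)), S ∈ C → Z ⊆ C → FC Z →
      (∀ T ∈ Z, Disjoint T S) → (S, Z) ∈ P := by
    intro S Z h1 h2 h3 h4
    rw [hP, Finset.mem_filter, Finset.mem_product, Finset.mem_powerset]
    exact ⟨⟨h1, h2⟩, h3, h4⟩
  have hPne : P.Nonempty := ⟨(S0, {T0}), hmemP S0 {T0} hS0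
    (by rw [Finset.singleton_subset_iff]; exact hT0) (fc_single T0)
    (by intro T hT; rw [Finset.mem_singleton.1 hT]; exact hd0)⟩
  obtain ⟨⟨S, Z⟩, hSZ, hmax⟩ := Finset.exists_max_image P (fun p => p.2.card) hPne
  rw [hP, Finset.mem_filter, Finset.mem_product, Finset.mem_powerset] at hSZ
  obtain ⟨⟨hSC, hZC⟩, hZf, hZS⟩ := hSZ
  dsimp only at hSC hZC hZf hZS
  have hRA : un Z ⊆ A := un_sub hS hZC
  have hRS : Disjoint (un Z) S := by
    rw [Finset.disjoint_left]
    intro x hx
    obtain ⟨T, hT, hxT⟩ := mem_un.1 hx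
    exact Finset.disjoint_left.1 (hZS T hT) hxT
  have hRc : Conn N (un Z) := hZf.conn hsym hS hZC
  have hSn := hS.nonempty hSC
  have hRne : un Z ≠ A := by
    intro heq
    obtain ⟨x, hx⟩ := hSn
    exact Finset.disjoint_left.1 hRS (heq ▸ hS.sub S hSC hx) hx
  have hRss : un Z ⊂ A := Finset.ssubset_iff_subset_ne.2 ⟨hRA, hRne⟩
  -- maximality
  have M1 : ∀ S' ∈ C, Disjoint S' (un Z) → ∀ T ∈ C, T ∉ Z → ¬ Disjoint T (un Z) →
      ¬ Disjoint T S' := by
    intro S' hS' hd T hT hTZ hTR hTS
    rw [Finset.not_disjoint_iff] at hTR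
    obtain ⟨x, hxT, hxR⟩ := hTR
    obtain ⟨W, hW, hxW⟩ := mem_un.1 hxR
    have h1 : FC (insert T Z) := hZf.insert hW
      (Finset.not_disjoint_iff.2 ⟨x, hxT, hxW⟩)
    have h2 := hmax (S', insert T Z) (hmemP S' (insert T Z) hS'
      (Finset.insert_subset hT hZC) h1 (by
        intro U hU
        rcases Finset.mem_insert.1 hU with rfl | hU
        · exact hTS
        · exact (Finset.disjoint_of_subset_right (sub_un hU) hd).symm))
    dsimp only at h2
    rw [Finset.card_insert_of_notMem hTZ] at h2
    omega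
  obtain ⟨y, hyC, hyR, hyd⟩ := near_conn hs hsym hK hS hA hE hV hRA hRc.1 hRne
  have hyZ : y ∉ Z := fun h => hyR (sub_un h)
  obtain ⟨DZ, hDZ1, hDZ2, hDZ3⟩ := exists_gk (N := N) hs (A := un Z) (C := Z)
    (fun T hT => sub_un hT) (fun T hT => hS.nonempty (hZC hT))
  obtain ⟨cy, hcy, hcyN⟩ := hS.cen y hyC
  obtain ⟨cS, hcS, hcSN⟩ := hS.cen S hSC
  have hsplit : ∀ T ∈ C, T ∈ Z ∨ (T ∉ Z ∧ ¬ Disjoint T (un Z)) ∨ Disjoint T (un Z) := by
    intro T _
    by_cases h1 : T ∈ Z
    · exact Or.inl h1
    · by_cases h2 : Disjoint T (un Z)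
      · exact Or.inr (Or.inr h2)
      · exact Or.inr (Or.inl ⟨h1, h2⟩)
  have hb2 : gk N A C ≤ gk N (un Z) Z + 2 := by
    have h1 : gk N A C ≤ (insert cS (insert cy DZ)).card := by
      apply gk_le
      · exact Finset.insert_subset (hS.sub S hSC hcS)
          (Finset.insert_subset (hS.sub y hyC hcy) (hDZ1.trans hRA))
      · intro T hT
        rcases hsplit T hT with h | ⟨h, h'⟩ | h
        · exact (hDZ2 T h).mono ((Finset.subset_insert _ _).trans (Finset.subset_insert _ _))
        · exact hit_of_meet hcSN (M1 S hSC hRS.symm T hT h h') (Finset.mem_insert_self _ _)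
        · have h2 := M1 T hT h y hyC hyZ hyd
          exact hit_of_meet hcyN (fun h3 => h2 h3.symm)
            (Finset.mem_insert_of_mem (Finset.mem_insert_self _ _))
    have h2 := Finset.card_insert_le cS (insert cy DZ)
    have h3 := Finset.card_insert_le cy DZ
    omega
  have hbd : (2 * K + 1) * gk N (un Z) Z ≤ 2 * (un Z).card := by
    rcases hE (un Z) hRss Z hZC (un_sys hS hZC) hRc with h | ⟨_, h⟩ | ⟨_, h⟩
    · exact h
    · omega
    · omega
  have hcS' : S.card = K := hS.card S hSC
  have hcRS : (un Z ∪ S).card = (un Z).card + K := by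
    rw [Finset.card_union_of_disjoint hRS, hcS']
  by_cases hcase : ∃ S' ∈ C, Disjoint S' (un Z) ∧ Disjoint S' S
  · exfalso
    obtain ⟨S', hS'C, hS'R, hS'S⟩ := hcase
    have hcS2 : S'.card = K := hS.card S' hS'C
    have hd3 : Disjoint (un Z ∪ S) S' := by
      rw [Finset.disjoint_union_left]
      exact ⟨hS'R.symm, hS'S.symm⟩
    have hc3 : (un Z ∪ S ∪ S').card = (un Z).card + K + K := by
      rw [Finset.card_union_of_disjoint hd3, hcRS, hcS2]
    have hs3 : un Z ∪ S ∪ S' ⊆ A :=
      Finset.union_subset (Finset.union_subset hRA (hS.sub S hSC)) (hS.sub S' hS'C)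
    have hle := Finset.card_le_card hs3
    have h1 := Nat.mul_le_mul_left (2 * K + 1) hb2
    rw [Nat.mul_add] at h1
    have hst : gk N A C = gk N (un Z) Z + 2 := by
      by_contra hne
      have h2 : gk N A C + 1 ≤ gk N (un Z) Z + 2 := by omega
      have h3 := Nat.mul_le_mul_left (2 * K + 1) h2
      rw [Nat.mul_add, Nat.mul_add] at h3
      omega
    rw [hst, Nat.mul_add] at he
    have hcA : A.card = (un Z).card + K + K := by omega
    have hAeq : un Z ∪ S ∪ S' = A := Finset.eq_of_subset_of_card_le hs3 (by omega)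
    obtain ⟨v, hv, w, hw, hwR, hwv⟩ := hA.2 (un Z) hRA hRc.1 hRne
    rcases use_or hs hsym (un_sys hS hZC) hRc (fun A' hA' C'' hC'' =>
      hE A' (hA'.trans hRss) C'' (hC''.trans hZC)) hv with ⟨D, hDR, hvD, hDk, hDc⟩ | h2
    · have key : ∀ S1 ∈ C, ∀ S2 ∈ C, Disjoint S1 (un Z) → Disjoint S2 (un Z) →
          A ⊆ un Z ∪ S1 ∪ S2 → w ∉ S2 := by
        intro S1 hS1 S2 hS2 hd1 hd2 hcov hwS2
        obtain ⟨c1, hc1, hc1N⟩ := hS.cen S1 hS1
        have h3 : gk N A C ≤ (insert c1 D).card := by
          apply gk_le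
          · exact Finset.insert_subset (hS.sub S1 hS1 hc1) (hDR.trans hRA)
          · intro T hT
            rcases hsplit T hT with h | ⟨h, h'⟩ | h
            · exact (hDk T h).mono (Finset.subset_insert _ _)
            · exact hit_of_meet hc1N (M1 S1 hS1 hd1 T hT h h') (Finset.mem_insert_self _ _)
            · by_cases h4 : Disjoint T S1
              · have h5 : T ⊆ S2 := by
                  intro x hx
                  have hxA := hcov (hS.sub T hT hx)
                  rcases Finset.mem_union.1 hxA with hxA | hxA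
                  · rcases Finset.mem_union.1 hxA with hxA | hxA
                    · exact absurd hxA (Finset.disjoint_left.1 h hx)
                    · exact absurd hxA (Finset.disjoint_left.1 h4 hx)
                  · exact hxA
                have h6 : T = S2 := Finset.eq_of_subset_of_card_le h5
                  (by rw [hS.card T hT, hS.card S2 hS2])
                rw [h6]
                exact ⟨v, Finset.mem_insert_of_mem hvD, w, hwS2, hwv⟩
              · exact hit_of_meet hc1N h4 (Finset.mem_insert_self _ _)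
        have h4 := Finset.card_insert_le c1 D
        omega
      have hw' : w ∈ un Z ∪ S ∪ S' := hAeq ▸ hw
      rcases Finset.mem_union.1 hw' with hw' | hw'
      · rcases Finset.mem_union.1 hw' with hw' | hw'
        · exact hwR hw'
        · refine key S' hS'C S hSC hS'R hRS.symm ?_ hw'
          rw [← hAeq]
          intro x hx
          rcases Finset.mem_union.1 hx with hx | hx
          · rcases Finset.mem_union.1 hx with hx | hx
            · exact Finset.mem_union_left _ (Finset.mem_union_left _ hx)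
            · exact Finset.mem_union_right _ hx
          · exact Finset.mem_union_left _ (Finset.mem_union_right _ hx)
      · exact key S hSC S' hS'C hRS.symm hS'R (by rw [hAeq]) hw'
    · omega
  · push Not at hcase
    have hb1 : gk N A C ≤ gk N (un Z) Z + 1 := by
      have h1 : gk N A C ≤ (insert cS DZ).card := by
        apply gk_le
        · exact Finset.insert_subset (hS.sub S hSC hcS) (hDZ1.trans hRA)
        · intro T hT
          rcases hsplit T hT with h | ⟨h, h'⟩ | h
          · exact (hDZ2 T h).mono (Finset.subset_insert _ _)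
          · exact hit_of_meet hcSN (M1 S hSC hRS.symm T hT h h') (Finset.mem_insert_self _ _)
          · exact hit_of_meet hcSN (hcase T hT h) (Finset.mem_insert_self _ _)
      have h3 := Finset.card_insert_le cS DZ
      omega
    have hs2 : un Z ∪ S ⊆ A := Finset.union_subset hRA (hS.sub S hSC)
    have hle := Finset.card_le_card hs2
    have h1 := Nat.mul_le_mul_left (2 * K + 1) hb1
    rw [Nat.mul_add] at h1
    have hcA : A.card = (un Z).card + K := by omega
    have hAeq : un Z ∪ S = A := Finset.eq_of_subset_of_card_le hs2 (by omega)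
    have hR : A \ S = un Z := by
      rw [← hAeq, Finset.union_sdiff_right]
      exact Finset.sdiff_eq_self_of_disjoint hRS
    have hst : gk N A C = gk N (un Z) Z + 1 := by
      have h2 : (2 * K + 1) * gk N A C = (2 * K + 1) * (gk N (un Z) Z + 1) := by
        rw [Nat.mul_add]; omega
      exact Nat.eq_of_mul_eq_mul_left (by omega) h2
    have hmt : (2 * K + 1) * gk N (un Z) Z = 2 * (un Z).card := by omega
    have hZres : Z ⊆ res C (un Z) := fun T hT => mem_res.2 ⟨hZC hT, sub_un hT⟩
    have hge : gk N (un Z) Z ≤ gk N (un Z) (res C (un Z)) :=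
      gk_mono hs (hS.res).sub (fun T hT => (hS.res (B := un Z)).nonempty hT) hZres
    have hgr : gk N (un Z) (res C (un Z)) = gk N (un Z) Z := by
      apply le_antisymm _ hge
      rcases hE (un Z) hRss (res C (un Z)) (Finset.filter_subset _ _) hS.res hRc with
        h | ⟨_, h⟩ | ⟨_, h⟩
      · rw [← hmt] at h
        exact Nat.le_of_mul_le_mul_left h (by omega)
      · omega
      · omega
    refine ⟨S, hSC, ?_, ?_, ?_, ?_⟩
    · rw [hR]; exact hRc
    · rw [hR, hgr, hmt]
    · rw [hR, hgr, hst]
    · rw [hR]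
      intro B hB hBn hBne
      by_contra hcon
      push Not at hcon
      have hsep : Sep Z B := by
        intro T hT
        by_cases h : T ⊆ B
        · exact Or.inl h
        · exact Or.inr (hcon T (hZres hT) h)
      rcases hZf.2 B hsep with h | h
      · apply hBne
        apply Finset.Subset.antisymm hB
        intro x hx
        obtain ⟨T, hT, hxT⟩ := mem_un.1 hx
        exact h T hT hxT
      · obtain ⟨x, hx⟩ := hBn
        obtain ⟨T, hT, hxT⟩ := mem_un.1 (hB hx)
        exact Finset.disjoint_left.1 (h T hT) hxT hx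

/-- Only the star sets of `A \ S` which avoid the neighbourhood of the centre of `S` matter. -/
theorem end_noncrit (hs : ∀ x, x ∈ N x) (hS : Sys N K A C) {S : Finset V} (hSC : S ∈ C) {c : V}
    (hc : c ∈ S) (hcN : S ⊆ N c) :
    gk N A C ≤ gk N (A \ S) (res C ((A \ S) \ N c)) + 1 := by
  obtain ⟨D, h1, h2, h3⟩ := exists_gk (N := N) hs (A := A \ S) (C := res C ((A \ S) \ N c))
    (fun T hT => (mem_res.1 hT).2.trans Finset.sdiff_subset)
    (fun T hT => hS.nonempty (mem_res.1 hT).1)
  have h4 : gk N A C ≤ (insert c D).card := by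
    apply gk_le
    · exact Finset.insert_subset (hS.sub S hSC hc) (h1.trans Finset.sdiff_subset)
    · intro T hT
      by_cases h5 : Disjoint T (N c)
      · refine (h2 T (mem_res.2 ⟨hT, ?_⟩)).mono (Finset.subset_insert _ _)
        intro x hx
        have hxN := Finset.disjoint_left.1 h5 hx
        exact Finset.mem_sdiff.2 ⟨Finset.mem_sdiff.2 ⟨hS.sub T hT hx, fun h => hxN (hcN h)⟩, hxN⟩
      · exact hit_of_meet (subset_rfl : N c ⊆ N c) h5 (Finset.mem_insert_self _ _)
  have h5 := Finset.card_insert_le c D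
  omega

end

end Pool.Agent.Star.Rig
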