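import Pool.Agent.Star.Red4
import Pool.Agent.Star.Red5

/-!
# Star systems: the minimal violator (R1, R2)

`Viol N K A C` is a minimal violating system: minimal in the number of vertices, then in the
number of star sets, then in the number of edges.
-/

set_option autoImplicit false
set_option linter.unusedSectionVars false
set_option linter.unusedVariables false

namespace Pool.Agent.Star.Rig

open Finset

variable {V : Type*} [DecidableEq V]

/-- A minimal violating system. -/
structure Viol (N : V → Finset V) (K : ℕ) (A : Finset V) (C : Finset (Finset V)) : Prop where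
  refl : ∀ x, x ∈ N x
  symm : ∀ x y, x ∈ N y → y ∈ N x
  two : 2 ≤ K
  sys : Sys N K A C
  conn : Conn N A
  bad : ¬ Bd N K A C
  small : ∀ N' : V → Finset V, (∀ x, x ∈ N' x) → (∀ x y, x ∈ N' y → y ∈ N' x) →
    ∀ A' C', A'.card < A.card → Sys N' K A' C' → Conn N' A' → Bd N' K A' C'
  min : ∀ N' : V → Finset V, (∀ x, x ∈ N' x) → (∀ x y, x ∈ N' y → y ∈ N' x) →
    ∀ A' C', A'.card = A.card → C'.card < C.card → Sys N' K A' C' → Conn N' A' → Bd N' K A' C'
  edge : ∀ N' : V → Finset V, (∀ x, x ∈ N' x) → (∀ x y, x ∈ N' y → y ∈ N' x) →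
    ∀ A' C', A'.card = A.card → C'.card = C.card →
    ∑ x ∈ A', (N' x ∩ A').card < ∑ x ∈ A, (N x ∩ A).card →
    Sys N' K A' C' → Conn N' A' → Bd N' K A' C'

/-- Every violation gives a minimal one. -/
theorem exists_viol {N : V → Finset V} {K : ℕ} {A : Finset V} {C : Finset (Finset V)}
    (hK : 2 ≤ K) (hs : ∀ x, x ∈ N x) (hsym : ∀ x y, x ∈ N y → y ∈ N x) (hS : Sys N K A C)
    (hA : Conn N A) (hB : ¬ Bd N K A C) :
    ∃ (N' : V → Finset V) (A' : Finset V) (C' : Finset (Finset V)), Viol N' K A' C' := by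
  classical
  -- the violating systems
  let Q : (V → Finset V) → Finset V → Finset (Finset V) → Prop := fun N A C =>
    (∀ x, x ∈ N x) ∧ (∀ x y, x ∈ N y → y ∈ N x) ∧ Sys N K A C ∧ Conn N A ∧ ¬ Bd N K A C
  have h1 : ∃ n, ∃ N A C, Q N A C ∧ A.card = n := ⟨_, N, A, C, ⟨hs, hsym, hS, hA, hB⟩, rfl⟩
  have h2 : ∃ m, ∃ N A C, Q N A C ∧ A.card = Nat.find h1 ∧ C.card = m := by
    obtain ⟨N1, A1, C1, h, h'⟩ := Nat.find_spec h1
    exact ⟨_, N1, A1, C1, h, h', rfl⟩
  have h3 : ∃ e, ∃ N A C, Q N A C ∧ A.card = Nat.find h1 ∧ C.card = Nat.find h2 ∧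
      ∑ x ∈ A, (N x ∩ A).card = e := by
    obtain ⟨N1, A1, C1, h, h', h''⟩ := Nat.find_spec h2
    exact ⟨_, N1, A1, C1, h, h', h'', rfl⟩
  obtain ⟨N1, A1, C1, ⟨q1, q2, q3, q4, q5⟩, e1, e2, e3⟩ := Nat.find_spec h3
  refine ⟨N1, A1, C1, ⟨q1, q2, hK, q3, q4, q5, ?_, ?_, ?_⟩⟩
  · intro N' p1 p2 A' C' hlt p3 p4
    by_contra p5
    rw [e1] at hlt
    exact Nat.find_min h1 hlt ⟨N', A', C', ⟨p1, p2, p3, p4, p5⟩, rfl⟩
  · intro N' p1 p2 A' C' heq hlt p3 p4
    by_contra p5
    rw [e2] at hlt
    exact Nat.find_min h2 hlt ⟨N', A', C', ⟨p1, p2, p3, p4, p5⟩, heq.trans e1, rfl⟩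
  · intro N' p1 p2 A' C' heq heq' hlt p3 p4
    by_contra p5
    rw [e3] at hlt
    exact Nat.find_min h3 hlt
      ⟨N', A', C', ⟨p1, p2, p3, p4, p5⟩, heq.trans e1, heq'.trans e2, rfl⟩

section
variable {N : V → Finset V} {K : ℕ} {A : Finset V} {C : Finset (Finset V)}

lemma Viol.hE (h : Viol N K A C) :
    ∀ A' ⊂ A, ∀ C' ⊆ C, Sys N K A' C' → Conn N A' → Bd N K A' C' :=
  fun A' hA' C' _ h1 h2 => h.small N h.refl h.symm A' C' (Finset.card_lt_card hA') h1 h2

lemma Viol.lt (h : Viol N K A C) : 2 * A.card < (2 * K + 1) * gk N A C := by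
  by_contra hcon
  exact h.bad (Or.inl (by omega))

lemma Viol.pos (h : Viol N K A C) : 0 < A.card := Finset.card_pos.2 h.conn.1

/-- Only `C` of a violator may shrink, and then `gk` drops. -/
lemma Viol.drop (h : Viol N K A C) {C' : Finset (Finset V)} (hC : C' ⊂ C) :
    gk N A C' < gk N A C := by
  have h1 : gk N A C' ≤ gk N A C :=
    gk_mono h.refl h.sys.sub (fun S hS => h.sys.nonempty hS) hC.1
  rcases Nat.lt_or_ge (gk N A C') (gk N A C) with h2 | h2
  · exact h2
  · exfalso
    have h3 : gk N A C' = gk N A C := le_antisymm h1 h2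
    apply h.bad
    have h4 := h.min N h.refl h.symm A C' rfl (Finset.card_lt_card hC) (h.sys.of_subset hC.1)
      h.conn
    unfold Bd Typ at h4 ⊢
    rwa [h3] at h4

/-- Adding one star set raises `gk` by at most one. -/
lemma gk_insert (hs : ∀ x, x ∈ N x) (hS : Sys N K A C) {C' : Finset (Finset V)} (hC' : C' ⊆ C)
    {c : V} (hc : c ∈ A) (h1 : ∀ S ∈ C, S ∉ C' → Hit N {c} S) :
    gk N A C ≤ gk N A C' + 1 := by
  obtain ⟨D, hD, hDk, hDc⟩ := exists_gk (N := N) hs (A := A) (C := C')
    (fun S hS' => hS.sub S (hC' hS')) (fun S hS' => hS.nonempty (hC' hS'))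
  have h2 : gk N A C ≤ (insert c D).card := by
    apply gk_le (Finset.insert_subset hc hD)
    intro S hSC
    by_cases hSC' : S ∈ C'
    · exact (hDk S hSC').mono (Finset.subset_insert _ _)
    · exact (h1 S hSC hSC').mono
        (Finset.singleton_subset_iff.2 (Finset.mem_insert_self _ _))
  have h3 := Finset.card_insert_le c D
  omega

/-- **R1a.** Every star set is critical. -/
theorem Viol.star_crit (h : Viol N K A C) {S : Finset V} (hS : S ∈ C) :
    gk N A (C.erase S) + 1 = gk N A C := by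
  obtain ⟨c, hc, hcN⟩ := h.sys.cen S hS
  have h1 := h.drop (Finset.erase_ssubset hS)
  have h2 := gk_insert h.refl h.sys (Finset.erase_subset S C) (h.sys.sub S hS hc)
    (fun S' hS' hn => by
      have : S' = S := by
        by_contra hne
        exact hn (Finset.mem_erase.2 ⟨hne, hS'⟩)
      rw [this]
      exact ⟨c, Finset.mem_singleton_self _, c, hc, h.refl c⟩)
  omega

/-- There is a killing set with `gk - 1` elements missing only the given star set. -/
theorem Viol.miss_only (h : Viol N K A C) {S : Finset V} (hS : S ∈ C) :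
    ∃ D, D ⊆ A ∧ D.card + 1 = gk N A C ∧ (∀ S' ∈ C, S' ≠ S → Hit N D S') ∧ ¬ Hit N D S := by
  obtain ⟨D, hD, hDk, hDc⟩ := exists_gk (N := N) h.refl (A := A) (C := C.erase S)
    (fun S' hS' => h.sys.sub S' (Finset.mem_of_mem_erase hS'))
    (fun S' hS' => h.sys.nonempty (Finset.mem_of_mem_erase hS'))
  have h1 := h.star_crit hS
  refine ⟨D, hD, by omega, fun S' hS' hne => hDk S' (Finset.mem_erase.2 ⟨hne, hS'⟩), ?_⟩
  intro hH
  have h2 : gk N A C ≤ D.card := gk_le hD (fun S' hS' => by
    by_cases hne : S' = S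
    · rw [hne]; exact hH
    · exact hDk S' (Finset.mem_erase.2 ⟨hne, hS'⟩))
  omega

open Classical in
/-- **R1b.** Every vertex is useful. -/
theorem Viol.useful (h : Viol N K A C) {v : V} (hv : v ∈ A) :
    gk N A (C.filter (fun S => ¬ Hit N {v} S)) + 1 = gk N A C := by
  have h1 : gk N A (C.filter (fun S => ¬ Hit N {v} S)) ≤ gk N A C :=
    gk_mono h.refl h.sys.sub (fun S hS => h.sys.nonempty hS) (Finset.filter_subset _ _)
  have h2 := gk_insert h.refl h.sys (Finset.filter_subset (fun S => ¬ Hit N {v} S) C) hv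
    (fun S' hS' hn => by
      by_contra hH
      exact hn (Finset.mem_filter.2 ⟨hS', hH⟩))
  have h3 : gk N A (C.filter (fun S => ¬ Hit N {v} S)) ≠ gk N A C := by
    intro heq
    have h4 := useless h.refl h.symm h.sys h.conn h.hE (Finset.singleton_subset_iff.2 hv)
      (Finset.singleton_nonempty v) heq
    have h5 := h.lt
    omega
  omega

/-- Every vertex lies in a minimum killing set. -/
theorem Viol.in_min (h : Viol N K A C) {v : V} (hv : v ∈ A) :
    ∃ D, D ⊆ A ∧ v ∈ D ∧ D.card = gk N A C ∧ Kills N D C := by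
  classical
  obtain ⟨D, hD, hDk, hDc⟩ := exists_gk (N := N) h.refl (A := A)
    (C := C.filter (fun S => ¬ Hit N {v} S))
    (fun S' hS' => h.sys.sub S' (Finset.mem_filter.1 hS').1)
    (fun S' hS' => h.sys.nonempty (Finset.mem_filter.1 hS').1)
  have h1 := h.useful hv
  have hk : Kills N (insert v D) C := by
    intro S hS
    by_cases hH : Hit N {v} S
    · exact hH.mono (Finset.singleton_subset_iff.2 (Finset.mem_insert_self _ _))
    · exact (hDk S (Finset.mem_filter.2 ⟨hS, hH⟩)).mono (Finset.subset_insert _ _)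
  have hsub : insert v D ⊆ A := Finset.insert_subset hv hD
  refine ⟨insert v D, hsub, Finset.mem_insert_self _ _, ?_, hk⟩
  have h2 := gk_le hsub hk
  have h3 := Finset.card_insert_le v D
  omega

/-- **R1c.** Every vertex is critical: the star sets avoiding it are killed by fewer vertices. -/
theorem Viol.vertex_crit (h : Viol N K A C) {v : V} (hv : v ∈ A) :
    gk N A (res C (A.erase v)) + 1 = gk N A C := by
  have h1 : gk N A (res C (A.erase v)) ≤ gk N A C :=
    gk_mono h.refl h.sys.sub (fun S hS => h.sys.nonempty hS) (Finset.filter_subset _ _)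
  have h2 := gk_insert (C' := res C (A.erase v)) h.refl h.sys (Finset.filter_subset _ _) hv
    (fun S' hS' hn => by
      by_contra hH
      apply hn
      refine mem_res.2 ⟨hS', fun x hx => Finset.mem_erase.2 ⟨?_, h.sys.sub S' hS' hx⟩⟩
      rintro rfl
      exact hH ⟨x, Finset.mem_singleton_self _, x, hx, h.refl x⟩)
  have h3 : gk N A (res C (A.erase v)) ≠ gk N A C := by
    intro heq
    have h4 := nonpos h.refl h.symm (by have := h.two; omega) h.sys h.conn h.hE hv heq
    have h5 := h.lt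
    omega
  omega

/-- **R1d.** Every vertex lies in a star set. -/
theorem Viol.covered (h : Viol N K A C) {v : V} (hv : v ∈ A) : ∃ S ∈ C, v ∈ S := by
  by_contra hcon
  push Not at hcon
  have h1 : res C (A.erase v) = C := by
    ext S
    rw [mem_res]
    refine ⟨fun h => h.1, fun hS => ⟨hS, fun x hx => Finset.mem_erase.2 ⟨?_, h.sys.sub S hS hx⟩⟩⟩
    rintro rfl
    exact hcon S hS hx
  have h2 := h.vertex_crit hv
  rw [h1] at h2
  omega

/-- The excess of a component. -/
lemma bd_exc {U : Finset V} {C : Finset (Finset V)} (hB : Bd N K U C) (hn : ¬ Typ N K U C) :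
    (2 * K + 1) * gk N U C ≤ 2 * U.card := by
  rcases hB with h | h
  · exact h
  · exact absurd h hn

/-- Deleting a star set. -/
lemma gk_star (hs : ∀ x, x ∈ N x) (hsym : ∀ x y, x ∈ N y → y ∈ N x) (hS : Sys N K A C)
    {S : Finset V} (hSC : S ∈ C) {F : Finset (Finset V)} (hF : Comps N (A \ S) F) :
    gk N A C ≤ 1 + ∑ U ∈ F, gk N U (res C U) := by
  obtain ⟨c, hc, hcN⟩ := hS.cen S hSC
  have h0 : ∀ U : Finset V, ∃ D, D ⊆ U ∧ Kills N D (res C U) ∧ D.card = gk N U (res C U) :=
    fun U => exists_gk hs (hS.res).sub (fun S hSC => (hS.res (B := U)).nonempty hSC)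
  choose D hD1 hD2 hD3 using h0
  have h1 := gk_le_union (C' := C) (Y := {c}) hF hS Finset.sdiff_subset
    (Finset.singleton_subset_iff.2 (hS.sub S hSC hc)) (subset_rfl)
    D (fun U hU => (hD1 U).trans ((hF.cl U hU).1.trans Finset.sdiff_subset))
    (fun S' hS' hn => by
      rw [Finset.not_subset] at hn
      obtain ⟨x, hx, hxn⟩ := hn
      have hxS : x ∈ S := by
        by_contra hxS
        exact hxn (Finset.mem_sdiff.2 ⟨hS.sub S' hS' hx, hxS⟩)
      exact ⟨c, Finset.mem_singleton_self _, x, hx, hcN hxS⟩)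
    (fun U hU S' hS' hSU => Or.inr (hD2 U S' (mem_res.2 ⟨hS', hSU⟩)))
  rw [Finset.card_singleton] at h1
  calc _ ≤ _ := h1
    _ = _ := by rw [Finset.sum_congr rfl (fun U _ => hD3 U)]

/-- If no component of `A \ S` is exceptional, the violation is at most one. -/
lemma exc_le_one (hs : ∀ x, x ∈ N x) (hsym : ∀ x y, x ∈ N y → y ∈ N x) (hS : Sys N K A C)
    {S : Finset V} (hSC : S ∈ C) {F : Finset (Finset V)} (hF : Comps N (A \ S) F)
    (M : Finset V) (hM : ∀ U ∈ F, U ≠ M → (2 * K + 1) * gk N U (res C U) ≤ 2 * U.card)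
    (t : ℕ) (hMt : M ∈ F → (2 * K + 1) * gk N M (res C M) ≤ 2 * M.card + t) :
    (2 * K + 1) * gk N A C ≤ 2 * A.card + 1 + t := by
  classical
  have h1 := Nat.mul_le_mul_left (2 * K + 1) (gk_star hs hsym hS hSC hF)
  have h2 : (2 * K + 1) * ∑ U ∈ F, gk N U (res C U) ≤
      ∑ U ∈ F, (2 * U.card + if U = M then t else 0) := by
    rw [Finset.mul_sum]
    apply Finset.sum_le_sum
    intro U hU
    by_cases hUM : U = M
    · rw [if_pos hUM]
      rw [hUM] at hU ⊢
      exact hMt hU
    · rw [if_neg hUM]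
      exact hM U hU hUM
  have h3 : ∑ U ∈ F, (2 * U.card + if U = M then t else 0) ≤ 2 * (A \ S).card + t := by
    rw [Finset.sum_add_distrib, ← Finset.mul_sum, ← hF.card]
    have : ∑ U ∈ F, (if U = M then t else 0) ≤ t := by
      rw [Finset.sum_ite_eq']
      split_ifs <;> omega
    omega
  have h4 : (A \ S).card + S.card = A.card := Finset.card_sdiff_add_card_eq_card (hS.sub S hSC)
  have h5 := hS.card S hSC
  rw [Nat.mul_add] at h1
  omega

/-- **R2.** The violation is exactly one, up to the base case `gk = 3`. -/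
theorem exact (hs : ∀ x, x ∈ N x) (hsym : ∀ x y, x ∈ N y → y ∈ N x) (hK : 2 ≤ K)
    (hS : Sys N K A C) (hA : Conn N A)
    (hE : ∀ A' ⊂ A, ∀ C' ⊆ C, Sys N K A' C' → Conn N A' → Bd N K A' C')
    (hB : ¬ Bd N K A C) (hbase : gk N A C = 3 → 3 * K + 1 < A.card) :
    (2 * K + 1) * gk N A C = 2 * A.card + 1 ∧ 5 ≤ gk N A C := by
  classical
  have hlt : 2 * A.card < (2 * K + 1) * gk N A C := by
    by_contra hcon
    exact hB (Or.inl (by omega))
  have hnt : ¬ Typ N K A C := fun h => hB (Or.inr h)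
  have hAp : 0 < A.card := Finset.card_pos.2 hA.1
  -- there is a star set
  have hgp : 0 < gk N A C := by
    by_contra h0
    have : gk N A C = 0 := by omega
    rw [this] at hlt
    omega
  have hCne : ∃ S, S ∈ C := by
    by_contra hcon
    push Not at hcon
    have : gk N A C ≤ (∅ : Finset V).card := gk_le (Finset.empty_subset _)
      (fun S hS' => absurd hS' (hcon S))
    rw [Finset.card_empty] at this
    omega
  obtain ⟨S0, hS0⟩ := hCne
  have hKA : K ≤ A.card := by
    rw [← hS.card S0 hS0]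
    exact Finset.card_le_card (hS.sub S0 hS0)
  -- the violation is one
  have hone : (2 * K + 1) * gk N A C ≤ 2 * A.card + 1 := by
    by_contra hcon
    push Not at hcon
    -- every star set has an exceptional component
    have hexc : ∀ S ∈ C, ∀ F : Finset (Finset V), Comps N (A \ S) F →
        ∀ M : Finset V, (∃ U ∈ F, Typ N K U (res C U)) ∧
          ((∀ U ∈ F, U ≠ M → ¬ Typ N K U (res C U)) →
            M ∈ F ∧ Typ N K M (res C M) ∧ (2 * K + 1) * gk N A C ≤ 2 * A.card + 3) := by
      intro S hSC F hF M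
      have hss : ∀ U ∈ F, U ⊂ A := fun U hU =>
        Finset.ssubset_of_subset_of_ssubset (hF.cl U hU).1
          (Finset.sdiff_ssubset (hS.sub S hSC) (hS.nonempty hSC))
      have hbd : ∀ U ∈ F, Bd N K U (res C U) := fun U hU =>
        hE U (hss U hU) (res C U) (Finset.filter_subset _ _) hS.res (hF.conn U hU)
      refine ⟨?_, ?_⟩
      · by_contra hn
        push Not at hn
        have := exc_le_one hs hsym hS hSC hF ∅
          (fun U hU _ => bd_exc (hbd U hU) (hn U hU)) 0
          (fun hU => by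
            have := bd_exc (hbd ∅ hU) (hn ∅ hU)
            omega)
        omega
      · intro hn
        by_cases hM : M ∈ F ∧ Typ N K M (res C M)
        · refine ⟨hM.1, hM.2, ?_⟩
          exact exc_le_one hs hsym hS hSC hF M
            (fun U hU hne => bd_exc (hbd U hU) (hn U hU hne)) 2
            (fun hU => bd_two (hbd M hU))
        · exfalso
          have := exc_le_one hs hsym hS hSC hF M
            (fun U hU hne => bd_exc (hbd U hU) (hn U hU hne)) 0
            (fun hU => by
              have := bd_exc (hbd M hU) (fun hT => hM ⟨hU, hT⟩)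
              omega)
          omega
    -- the smallest exceptional component
    set P : Finset (Finset V × Finset V) := (C ×ˢ A.powerset).filter
      (fun p => Conn N p.2 ∧ Closed N p.2 (A \ p.1) ∧ Typ N K p.2 (res C p.2)) with hP
    have hmemP : ∀ S ∈ C, ∀ F : Finset (Finset V), Comps N (A \ S) F → ∀ U ∈ F,
        Typ N K U (res C U) → (S, U) ∈ P := by
      intro S hSC F hF U hU hT
      rw [hP, Finset.mem_filter, Finset.mem_product, Finset.mem_powerset]
      exact ⟨⟨hSC, (hF.cl U hU).1.trans Finset.sdiff_subset⟩, hF.conn U hU, hF.cl U hU, hT⟩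
    have hPne : P.Nonempty := by
      obtain ⟨F, hF⟩ := exists_comps (N := N) hsym (A \ S0)
      obtain ⟨⟨U, hU, hT⟩, _⟩ := hexc S0 hS0 F hF ∅
      exact ⟨_, hmemP S0 hS0 F hF U hU hT⟩
    obtain ⟨⟨S, U⟩, hSU, hmin⟩ := Finset.exists_min_image P (fun p => p.2.card) hPne
    rw [hP, Finset.mem_filter, Finset.mem_product] at hSU
    obtain ⟨⟨hSC, _⟩, hUc, hUcl, hUT⟩ := hSU
    dsimp only at hSC hUc hUcl hUT
    obtain ⟨F, hF⟩ := exists_comps (N := N) hsym (A \ S)
    have hUF : U ∈ F := hF.mem_of hUc hUcl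
    -- a star set inside `U`
    have hS' : ∃ S' ∈ C, S' ⊆ U := by
      by_contra hn
      push Not at hn
      have h1 : gk N U (res C U) ≤ (∅ : Finset V).card := gk_le (Finset.empty_subset _)
        (fun T hT => absurd (mem_res.1 hT).2 (hn T (mem_res.1 hT).1))
      rw [Finset.card_empty] at h1
      rcases hUT with ⟨_, h2⟩ | ⟨_, h2⟩ <;> omega
    obtain ⟨S', hSC', hSU'⟩ := hS'
    obtain ⟨F', hF'⟩ := exists_comps (N := N) hsym (A \ S')
    have hUA : U ⊆ A := hUcl.1.trans Finset.sdiff_subset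
    have hSs : S ⊆ A := hS.sub S hSC
    have hSUd : Disjoint S U := by
      rw [Finset.disjoint_right]
      intro x hx
      exact (Finset.mem_sdiff.1 (hUcl.1 hx)).2
    -- `A \ U` lies in one component of `A \ S'`
    obtain ⟨c, hcS, hcN⟩ := hS.cen S hSC
    have hcB : c ∈ A \ S' := Finset.mem_sdiff.2
      ⟨hSs hcS, fun h => Finset.disjoint_left.1 hSUd hcS (hSU' h)⟩
    obtain ⟨M, hM, hcM⟩ := hF'.cover c hcB
    have hSM : S ⊆ M := by
      intro x hx
      have hxB : x ∈ A \ S' := Finset.mem_sdiff.2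
        ⟨hSs hx, fun h => Finset.disjoint_left.1 hSUd hx (hSU' h)⟩
      exact (hF'.cl M hM).2 c hcM x hxB (hcN hx)
    have hAM : A \ U ⊆ M := by
      intro x hx
      obtain ⟨hxA, hxU⟩ := Finset.mem_sdiff.1 hx
      by_cases hxS : x ∈ S
      · exact hSM hxS
      · obtain ⟨W, hW, hxW⟩ := hF.cover x (Finset.mem_sdiff.2 ⟨hxA, hxS⟩)
        have hWU : W ≠ U := by
          rintro rfl
          exact hxU hxW
        have hdWU := hF.disj W hW U hUF hWU
        obtain ⟨z, hz, y, hy, hyz⟩ := hF.adj hsym hA hSs (hS.nonempty hSC) hW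
        have hWB : W ⊆ A \ S' := by
          intro w hw
          exact Finset.mem_sdiff.2 ⟨(Finset.mem_sdiff.1 ((hF.cl W hW).1 hw)).1,
            fun h => Finset.disjoint_left.1 hdWU hw (hSU' h)⟩
        have hyM : y ∈ M := (hF'.cl M hM).2 z (hSM hz) y (hWB hy) hyz
        exact (hF.conn W hW).subset_of_closed hWB (hF'.cl M hM) hy hyM hxW
    -- the other components are not exceptional
    have hoth : ∀ W ∈ F', W ≠ M → ¬ Typ N K W (res C W) := by
      intro W hW hWM hWT
      have h1 := hmin (S', W) (hmemP S' hSC' F' hF' W hW hWT)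
      dsimp only at h1
      have h2 : W ⊆ U \ S' := by
        intro x hx
        have hx1 := Finset.mem_sdiff.1 ((hF'.cl W hW).1 hx)
        refine Finset.mem_sdiff.2 ⟨?_, hx1.2⟩
        by_contra hxU
        exact Finset.disjoint_left.1 (hF'.disj W hW M hM hWM) hx
          (hAM (Finset.mem_sdiff.2 ⟨hx1.1, hxU⟩))
      have h3 := Finset.card_le_card h2
      have h4 : (U \ S').card + S'.card = U.card := Finset.card_sdiff_add_card_eq_card hSU'
      have h5 := hS.card S' hSC'
      omega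
    obtain ⟨_, hMT, h3⟩ := (hexc S' hSC' F' hF' M).2 hoth
    -- count
    have hM2 : M.card ≤ 2 * K := by
      rcases hMT with ⟨h, _⟩ | ⟨h, _⟩ <;> omega
    have hU2 : U.card ≤ 2 * K := by
      rcases hUT with ⟨h, _⟩ | ⟨h, _⟩ <;> omega
    have hn : A.card ≤ 4 * K := by
      have h4 : (A \ U).card + U.card = A.card := Finset.card_sdiff_add_card_eq_card hUA
      have h5 := Finset.card_le_card hAM
      omega
    have hg3 : gk N A C ≤ 3 := by
      by_contra h4
      push Not at h4
      have h5 : (2 * K + 1) * 4 ≤ (2 * K + 1) * gk N A C := Nat.mul_le_mul_left _ h4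
      omega
    have hcases : gk N A C = 1 ∨ gk N A C = 2 ∨ gk N A C = 3 := by omega
    rcases hcases with h4 | h4 | h4
    · rw [h4] at hcon h3
      omega
    · rw [h4] at hcon h3
      apply hnt
      right
      exact ⟨by omega, h4⟩
    · have h5 := hbase h4
      rw [h4] at hcon h3
      omega
  have heq : (2 * K + 1) * gk N A C = 2 * A.card + 1 := by omega
  refine ⟨heq, ?_⟩
  by_contra h5
  push Not at h5
  have hcases : gk N A C = 1 ∨ gk N A C = 2 ∨ gk N A C = 3 ∨ gk N A C = 4 := by omega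
  rcases hcases with h4 | h4 | h4 | h4
  · rw [h4] at heq
    exact hnt (Or.inl ⟨by omega, h4⟩)
  · rw [h4] at heq
    omega
  · rw [h4] at heq
    have := hbase h4
    omega
  · rw [h4] at heq
    omega

/-- R2 for the minimal violator. -/
theorem Viol.exact (h : Viol N K A C) (hbase : gk N A C = 3 → 3 * K + 1 < A.card) :
    (2 * K + 1) * gk N A C = 2 * A.card + 1 ∧ 5 ≤ gk N A C :=
  Rig.exact h.refl h.symm h.two h.sys h.conn h.hE h.bad hbase

/-- R3 for the minimal violator. -/
theorem Viol.near_conn (h : Viol N K A C) {B : Finset V} (hB : B ⊆ A) (hBn : B.Nonempty)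
    (hBA : B ≠ A) : ∃ S ∈ C, ¬ S ⊆ B ∧ ¬ Disjoint S B :=
  Rig.near_conn h.refl h.symm h.two h.sys h.conn h.hE h.lt hB hBn hBA

/-- R4 for the minimal violator: every edge is used by a star set. -/
theorem Viol.edge_used (h : Viol N K A C) {y z : V} (hyz : y ≠ z) (hy : y ∈ A) (hz : z ∈ A)
    (hzy : z ∈ N y) : ¬ Sys (del N y z) K A C := by
  apply Rig.edge_used h.refl h.symm h.two h.conn h.small h.bad _ hyz hy hz hzy
  intro y hy z hz hyz hzy hS hc
  apply h.edge _ (del_refl h.refl hyz) (del_symm h.symm hyz) A C rfl rfl _ hS hc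
  apply Finset.sum_lt_sum
  · intro x _
    exact Finset.card_le_card (Finset.inter_subset_inter_right (del_sub hyz x))
  · refine ⟨y, hy, Finset.card_lt_card ?_⟩
    refine Finset.ssubset_iff_subset_ne.2
      ⟨Finset.inter_subset_inter_right (del_sub hyz y), ?_⟩
    intro heq
    have h1 : z ∈ N y ∩ A := Finset.mem_inter.2 ⟨hzy, hz⟩
    rw [← heq] at h1
    exact ((mem_del hyz).1 (Finset.mem_inter.1 h1).1).2.1 ⟨rfl, rfl⟩

/-- R5 for the minimal violator. -/
theorem Viol.plain_end (h : Viol N K A C) (hbase : gk N A C = 3 → 3 * K + 1 < A.card) :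
    ∃ S ∈ C, Conn N (A \ S) ∧
      (2 * K + 1) * gk N (A \ S) (res C (A \ S)) = 2 * (A \ S).card ∧
      gk N (A \ S) (res C (A \ S)) + 1 = gk N A C ∧
      ∀ B ⊆ A \ S, B.Nonempty → B ≠ A \ S →
        ∃ S' ∈ res C (A \ S), ¬ S' ⊆ B ∧ ¬ Disjoint S' B := by
  obtain ⟨h1, h2⟩ := h.exact hbase
  exact Rig.plain_end h.refl h.symm h.two h.sys h.conn h.hE h1 h2

end

end Pool.Agent.Star.Rig
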