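import Pool.Agent.Star.BaseAA4
import Pool.Agent.Star.Red1
import Pool.Agent.Star.Base1

/-!
# The base case: reduction to a high vertex

A minimal violator with `f = 3` and at most `3 K + 1` vertices gives a system `BB` with a high
vertex.
-/

set_option autoImplicit false
set_option linter.unusedSectionVars false
set_option linter.unusedVariables false

namespace Pool.Agent.Star.BaseAA

open Finset

section
variable {V : Type*} [Fintype V] [DecidableEq V] {N : V → Finset V} {K : ℕ}

/-- Without high vertices there is no instance. -/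
theorem low_false (refl : ∀ v, v ∈ N v) (symm : ∀ u v, u ∈ N v → v ∈ N u)
    (card : Fintype.card V ≤ 3 * K + 1)
    (T : ∀ u v, ∃ p, Sr N K p ∧ Disjoint p (N u) ∧ Disjoint p (N v))
    (conn : ∀ S : Finset V, S.Nonempty → (∀ x ∈ S, N x ⊆ S) → ∀ x, x ∈ S) (hV : Nonempty V)
    (low : ∀ v, (N v).card ≤ K) : False := by
  classical
  have key : ∀ p c, p.card = K → p ⊆ N c → p = N c := fun p c hp hpc =>
    eq_of_subset_of_card_le hpc (by rw [hp]; exact low c)
  have dj : ∀ a b : V, FO.Far (fun x y => y ∈ N x) a b → Disjoint (N a) (N b) :=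
    fun a b hab => disjoint_left.mpr fun x hx hx' => hab x ⟨hx, hx'⟩
  refine FO.base_false _ V (fun x y => y ∈ N x) (fun c => (N c).card = K) rfl hV
    ⟨refl, fun x y hxy => symm _ _ hxy, ?_, ?_, ?_⟩
  · intro x y
    obtain ⟨p, ⟨hp, c, hc, hpc⟩, h1, h2⟩ := T x y
    have h3 := key p c hp hpc
    subst h3
    exact ⟨c, hp, fun v hv => nin h1 hv.1 hv.2, fun v hv => nin h2 hv.1 hv.2⟩
  · intro a b c ha hb hc hab hac hbc x y hxa hxb hxc hya hyb hyc
    have h1 : Disjoint (N a) (N b ∪ N c) :=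
      disjoint_union_right.mpr ⟨dj _ _ hab, dj _ _ hac⟩
    have h2 : (N a ∪ (N b ∪ N c))ᶜ.card ≤ 1 := by
      rw [card_compl, card_union_of_disjoint h1, card_union_of_disjoint (dj _ _ hbc), ha, hb, hc]
      omega
    rw [card_le_one] at h2
    apply h2
    · rw [mem_compl, mem_union, mem_union]
      tauto
    · rw [mem_compl, mem_union, mem_union]
      tauto
  · rintro S ⟨x, hx⟩ hS y
    have := conn (univ.filter S) ⟨x, mem_filter.mpr ⟨mem_univ _, hx⟩⟩
      (fun u hu v hv => mem_filter.mpr ⟨mem_univ _, hS u v (mem_filter.mp hu).2 hv⟩) y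
    exact (mem_filter.mp this).2

end

section
variable {V : Type*} [DecidableEq V] {N : V → Finset V} {K : ℕ} {A : Finset V}
  {C : Finset (Finset V)}

/-- The closed neighbourhoods on the subtype. -/
def sN (N : V → Finset V) (A : Finset V) (v : {x // x ∈ A}) : Finset {x // x ∈ A} :=
  (N v.1).subtype (· ∈ A)

lemma mem_sN {u v : {x // x ∈ A}} : u ∈ sN N A v ↔ u.1 ∈ N v.1 := by
  rw [sN, mem_subtype]

/-- A minimal violator with `f = 3` and few vertices. -/
theorem bb_of (h : Rig.Viol N K A C) (hK : 3 ≤ K) (h3 : Rig.gk N A C = 3)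
    (hA : A.card ≤ 3 * K + 1) : BB (sN N A) K ∧ ∃ d, (sN N A d).card = K + 1 := by
  classical
  have hrefl : ∀ v, v ∈ sN N A v := fun v => mem_sN.mpr (h.refl _)
  have hsymm : ∀ u v, u ∈ sN N A v → v ∈ sN N A u :=
    fun u v huv => mem_sN.mpr (h.symm _ _ (mem_sN.mp huv))
  have hcard : Fintype.card {x // x ∈ A} ≤ 3 * K + 1 := by
    rw [Fintype.card_coe]
    exact hA
  have hT : ∀ u v, ∃ p, Sr (sN N A) K p ∧ Disjoint p (sN N A u) ∧ Disjoint p (sN N A v) := by
    intro u v
    have h1 : ¬ Rig.Kills N {u.1, v.1} C := by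
      intro hk
      have h2 : Rig.gk N A C ≤ ({u.1, v.1} : Finset V).card := by
        apply Rig.gk_le
        · intro x hx
          rcases mem_insert.mp hx with rfl | hx
          · exact u.2
          · rw [mem_singleton] at hx
            subst hx
            exact v.2
        · exact hk
      have h3' : ({u.1, v.1} : Finset V).card ≤ 2 := card_le_two
      omega
    unfold Rig.Kills at h1
    push Not at h1
    obtain ⟨p, hp, hpk⟩ := h1
    have hpA := h.sys.sub p hp
    refine ⟨p.subtype (· ∈ A), ⟨?_, ?_⟩, ?_, ?_⟩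
    · rw [card_subtype, filter_true_of_mem (fun x hx => hpA hx)]
      exact h.sys.card p hp
    · obtain ⟨c, hc, hpc⟩ := h.sys.cen p hp
      refine ⟨⟨c, hpA hc⟩, mem_subtype.mpr hc, fun x hx => mem_sN.mpr (hpc (mem_subtype.mp hx))⟩
    · rw [disjoint_left]
      intro x hx hx'
      exact hpk ⟨u.1, mem_insert_self _ _, x.1, mem_subtype.mp hx, mem_sN.mp hx'⟩
    · rw [disjoint_left]
      intro x hx hx'
      exact hpk ⟨v.1, mem_insert_of_mem (mem_singleton_self _), x.1, mem_subtype.mp hx,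
        mem_sN.mp hx'⟩
  have hconn : ∀ S : Finset {x // x ∈ A}, S.Nonempty → (∀ x ∈ S, sN N A x ⊆ S) →
      ∀ x, x ∈ S := by
    intro S hS hcl x
    by_contra hx
    have hsub : S.map (Function.Embedding.subtype _) ⊆ A := by
      intro y hy
      obtain ⟨z, hz, rfl⟩ := mem_map.mp hy
      exact z.2
    obtain ⟨a, ha, b, hb, hb', hab⟩ := h.conn.2 _ hsub (hS.map) (by
      intro heq
      have : x.1 ∈ S.map (Function.Embedding.subtype _) := by
        rw [heq]
        exact x.2
      obtain ⟨z, hz, hz'⟩ := mem_map.mp this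
      exact hx ((Subtype.ext hz' : z = x) ▸ hz))
    obtain ⟨z, hz, rfl⟩ := mem_map.mp ha
    have h1 : (⟨b, hb⟩ : {x // x ∈ A}) ∈ S := hcl z hz (mem_sN.mpr hab)
    exact hb' (mem_map.mpr ⟨_, h1, rfl⟩)
  have hne : Nonempty {x // x ∈ A} := by
    obtain ⟨x, hx⟩ := h.conn.1
    exact ⟨⟨x, hx⟩⟩
  -- a high vertex
  have hh : ∃ d, K < (sN N A d).card := by
    by_contra hcon
    push Not at hcon
    exact low_false hrefl hsymm hcard hT hconn hne hcon
  obtain ⟨d, hd⟩ := hh
  -- the count
  obtain ⟨p, ⟨hp, c, hc, hpc⟩, h1, -⟩ := hT d d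
  obtain ⟨p', ⟨hp', -⟩, h3', h4⟩ := hT d c
  have h5 : Disjoint p p' := Finset.disjoint_left.mpr fun x hx hx' => nin h4 hx' (hpc hx)
  have h6 : Disjoint (sN N A d) (p ∪ p') :=
    Finset.disjoint_union_right.mpr ⟨h1.symm, h3'.symm⟩
  have h7 := Finset.card_union_of_disjoint h6
  have h8 := Finset.card_union_of_disjoint h5
  have h9 := Finset.card_le_univ (sN N A d ∪ (p ∪ p'))
  exact ⟨⟨hrefl, hsymm, by omega, hK, hT, hconn⟩, d, by omega⟩

/-- The base case from the impossibility of high vertices. -/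
theorem hbase_of (hK : 3 ≤ K)
    (hf : ∀ N' : {x // x ∈ A} → Finset {x // x ∈ A}, BB N' K → ∀ d, (N' d).card = K + 1 → False)
    (h : Rig.Viol N K A C) (h3 : Rig.gk N A C = 3) : 3 * K + 1 < A.card := by
  by_contra hcon
  obtain ⟨h1, d, hd⟩ := bb_of h hK h3 (by omega)
  exact hf _ h1 d hd

end

end Pool.Agent.Star.BaseAA
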