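import Pool.Agent.Star.BaseB3
import Pool.Agent.Star.BaseRed

/-!
# The base case for `K = 4`
-/

set_option autoImplicit false
set_option linter.unusedSectionVars false
set_option linter.unusedVariables false

namespace Pool.Agent.Star.BaseAA

open Finset

section
variable {V : Type*} [Fintype V] [DecidableEq V] {N : V → Finset V} {K : ℕ}

/-- The stars outside the neighbourhood of `d`. -/
def Js (N : V → Finset V) (K : ℕ) (d : V) (p : Finset V) : Prop :=
  Sr N K p ∧ Disjoint p (N d)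

namespace BB

variable (h : BB N K) {d : V} (hd : (N d).card = K + 1)
include h hd

/-- The complement of a star outside. -/
lemma js_compl {p : Finset V} (hp : Js N K d p) : Js N K d (N d ∪ p)ᶜ := by
  obtain ⟨⟨hp, c, hc, hpc⟩, h1⟩ := hp
  refine ⟨(h.comp hd hp hc hpc h1).1, ?_⟩
  rw [disjoint_left]
  intro y hy hy'
  rw [mem_compl, mem_union, not_or] at hy
  exact hy.1 hy'

lemma js_cen {p : Finset V} (hp : Js N K d p) : ∃ c ∈ p, ∀ y, y ∉ N d → (y ∈ N c ↔ y ∈ p) := by
  obtain ⟨⟨hp, c, hc, hpc⟩, h1⟩ := hp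
  refine ⟨c, hc, fun y hy => ⟨fun h' => (h.comp hd hp hc hpc h1).2 y h' hy, fun h' => hpc h'⟩⟩

/-- Every vertex is contained with its neighbours outside in a star. -/
lemma js_of (v : V) : ∃ p, Js N K d p ∧ (∀ y ∈ N v, y ∉ N d → y ∈ p) ∧
    Disjoint (N d ∪ p)ᶜ (N v) ∧ Js N K d (N d ∪ p)ᶜ := by
  obtain ⟨r, hr, h1, h2⟩ := h.T d v
  have h3 : Js N K d r := ⟨hr, h1⟩
  have h4 := h.js_compl hd h3
  have h5 : (N d ∪ (N d ∪ r)ᶜ)ᶜ = r := by
    ext y
    rw [mem_compl, mem_union, mem_compl, mem_union]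
    constructor
    · intro hy
      by_contra hcon
      apply hy
      by_cases hyd : y ∈ N d
      · exact Or.inl hyd
      · right
        rintro (h' | h')
        · exact hyd h'
        · exact hcon h'
    · rintro hy (h' | h')
      · exact nin h1 hy h'
      · exact h' (Or.inr hy)
  refine ⟨(N d ∪ r)ᶜ, h4, ?_, ?_, ?_⟩
  · intro y hy hyd
    rw [mem_compl, mem_union, not_or]
    exact ⟨hyd, nin' h2 hy⟩
  · rw [h5]
    exact h2
  · rw [h5]
    exact h3

omit h hd in
lemma mem_cc {p : Finset V} {y : V} : y ∈ (N d ∪ p)ᶜ ↔ y ∉ N d ∧ y ∉ p := by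
  rw [mem_compl, mem_union, not_or]

/-- Some star containing `v` is not the only one. -/
lemma js_two {v : V} (hv : v ∉ N d) :
    ∃ p q, Js N K d p ∧ Js N K d q ∧ v ∈ p ∧ v ∈ q ∧ p ≠ q := by
  by_contra hcon
  push Not at hcon
  obtain ⟨S, hS, h1, -, -⟩ := h.js_of hd v
  have hvS : v ∈ S := h1 v (h.refl v) hv
  obtain ⟨u, hu, w, hw, huw⟩ := edge_of_high h hd hS.1 (h.js_compl hd hS).1 hS.2
    (h.js_compl hd hS).2 (by
      rw [disjoint_left]
      intro y hy hy'
      exact (mem_cc.mp hy').2 hy)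
  obtain ⟨p, hp, h2, h3, h4⟩ := h.js_of hd u
  by_cases hvp : v ∈ p
  · have h5 := hcon S p hS hp hvS hvp
    subst h5
    exact (mem_cc.mp hw).2 (h2 w huw (mem_cc.mp hw).1)
  · have h5 : v ∈ (N d ∪ p)ᶜ := mem_cc.mpr ⟨hv, hvp⟩
    have h6 := hcon S _ hS h4 hvS h5
    rw [h6] at hu
    exact nin h3 hu (h.refl u)

end BB

/-- FACT B: for `K = 4` every vertex outside has four closed neighbours outside. -/
theorem factB (h : BB N 4) {d : V} (hd : (N d).card = 5) {v : V} (hv : v ∉ N d) :
    4 ≤ ((N v).filter (fun y => y ∉ N d)).card := by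
  by_contra hcon
  push Not at hcon
  obtain ⟨p, q, hp, hq, hvp, hvq, hpq⟩ := h.js_two hd hv
  -- the centre of a star containing `v` is a neighbour of `v` different from `v`
  have cen : ∀ p, Js N 4 d p → v ∈ p → ∃ c ∈ p, c ≠ v ∧ c ∈ N v ∧
      (∀ y, y ∉ N d → (y ∈ N c ↔ y ∈ p)) := by
    intro p hp hvp
    obtain ⟨c, hc, hcp⟩ := h.js_cen hd hp
    have h1 : c ∈ N v := h.symm _ _ ((hcp v hv).mpr hvp)
    refine ⟨c, hc, ?_, h1, hcp⟩
    rintro rfl
    have h2 : p ⊆ (N c).filter (fun y => y ∉ N d) := fun y hy =>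
      mem_filter.mpr ⟨(hcp y (nin hp.2 hy)).mpr hy, nin hp.2 hy⟩
    have := card_le_card h2
    rw [hp.1.1] at this
    omega
  obtain ⟨c1, hc1, hc1v, hc1N, hc1p⟩ := cen p hp hvp
  obtain ⟨c2, hc2, hc2v, hc2N, hc2q⟩ := cen q hq hvq
  have hc1d : c1 ∉ N d := nin hp.2 hc1
  have hc2d : c2 ∉ N d := nin hq.2 hc2
  have eqs : ∀ (r s : Finset V) (c : V), Js N 4 d r → Js N 4 d s →
      (∀ y, y ∉ N d → (y ∈ N c ↔ y ∈ r)) → (∀ y, y ∉ N d → (y ∈ N c ↔ y ∈ s)) → r = s := by
    intro r s c hr hs h1 h2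
    ext y
    constructor
    · intro hy
      exact (h2 y (nin hr.2 hy)).mp ((h1 y (nin hr.2 hy)).mpr hy)
    · intro hy
      exact (h1 y (nin hs.2 hy)).mp ((h2 y (nin hs.2 hy)).mpr hy)
  have hc12 : c1 ≠ c2 := by
    rintro rfl
    exact hpq (eqs p q c1 hp hq hc1p hc2q)
  -- the neighbours of `v` outside are `v`, `c1`, `c2`
  have hNv : (N v).filter (fun y => y ∉ N d) = {v, c1, c2} := by
    symm
    apply eq_of_subset_of_card_le
    · intro y hy
      rw [mem_insert, mem_insert, mem_singleton] at hy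
      rcases hy with rfl | rfl | rfl
      · exact mem_filter.mpr ⟨h.refl _, hv⟩
      · exact mem_filter.mpr ⟨hc1N, hc1d⟩
      · exact mem_filter.mpr ⟨hc2N, hc2d⟩
    · have : ({v, c1, c2} : Finset V).card = 3 := by
        rw [card_insert_of_notMem, card_pair hc12]
        rw [mem_insert, mem_singleton]
        push Not
        exact ⟨hc1v.symm, hc2v.symm⟩
      rw [this]
      omega
  have only : ∀ r, Js N 4 d r → v ∈ r → r = p ∨ r = q := by
    intro r hr hvr
    obtain ⟨c, hc, hcv, hcN, hcr⟩ := cen r hr hvr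
    have h1 : c ∈ (N v).filter (fun y => y ∉ N d) := mem_filter.mpr ⟨hcN, nin hr.2 hc⟩
    rw [hNv, mem_insert, mem_insert, mem_singleton] at h1
    rcases h1 with h1 | h1 | h1
    · exact absurd h1 hcv
    · subst h1
      exact Or.inl (eqs r p c hr hp hcr hc1p)
    · subst h1
      exact Or.inr (eqs r q c hr hq hcr hc2q)
  -- the final argument, symmetric in the two stars
  have key : ∀ (p q : Finset V) (c1 c2 : V), Js N 4 d p → Js N 4 d q → v ∈ p → v ∈ q → p ≠ q →
      c1 ∈ p → c2 ∈ q → (∀ y, y ∉ N d → (y ∈ N c1 ↔ y ∈ p)) →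
      (∀ y, y ∉ N d → (y ∈ N c2 ↔ y ∈ q)) → c1 ≠ c2 → c1 ≠ v → c2 ≠ v → c2 ∈ p → c1 ∈ q →
      (∀ r, Js N 4 d r → v ∈ r → r = p ∨ r = q) → False := by
    intro p q c1 c2 hp hq hvp hvq hpq hc1 hc2 hc1p hc2q hc12 hc1v hc2v hc2p hc1q only
    -- the fourth element of `p`
    have hcard : ({v, c1, c2} : Finset V).card = 3 := by
      rw [card_insert_of_notMem, card_pair hc12]
      rw [mem_insert, mem_singleton]
      push Not
      exact ⟨hc1v.symm, hc2v.symm⟩
    have hsub1 : ({v, c1, c2} : Finset V) ⊆ p := by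
      intro y hy
      rw [mem_insert, mem_insert, mem_singleton] at hy
      rcases hy with rfl | rfl | rfl
      · exact hvp
      · exact hc1
      · exact hc2p
    have hsub2 : ({v, c1, c2} : Finset V) ⊆ q := by
      intro y hy
      rw [mem_insert, mem_insert, mem_singleton] at hy
      rcases hy with rfl | rfl | rfl
      · exact hvq
      · exact hc1q
      · exact hc2
    obtain ⟨x, hx, hxq⟩ : ∃ x ∈ p, x ∉ q := by
      by_contra hcon
      push Not at hcon
      exact hpq (eq_of_subset_of_card_le hcon (by rw [hp.1.1, hq.1.1]))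
    have hxd : x ∉ N d := nin hp.2 hx
    have hpx : p = insert x {v, c1, c2} := by
      symm
      apply eq_of_subset_of_card_le
      · intro y hy
        rcases mem_insert.mp hy with rfl | hy
        · exact hx
        · exact hsub1 hy
      · rw [hp.1.1, card_insert_of_notMem (fun h' => hxq (hsub2 h')), hcard]
    have hqp : ∀ y ∈ p, y ≠ x → y ∈ q := by
      intro y hy hyx
      rw [hpx] at hy
      rcases mem_insert.mp hy with h' | h'
      · exact absurd h' hyx
      · exact hsub2 h'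
    -- `x` misses a star
    obtain ⟨r, hr, h1, h2⟩ := h.T d x
    have hJr : Js N 4 d r := ⟨hr, h1⟩
    have hxr : x ∉ r := nin' h2 (h.refl x)
    have hc1x : c1 ∈ N x := h.symm _ _ ((hc1p x hxd).mpr hx)
    have hc1r : c1 ∉ r := nin' h2 hc1x
    have hvr : v ∉ r := by
      intro hvr
      rcases only r hJr hvr with rfl | rfl
      · exact hxr hx
      · exact hc1r hc1q
    -- the complement of `r` is `p` or `q`
    have hJ' := h.js_compl hd hJr
    rcases only _ hJ' (BB.mem_cc.mpr ⟨hv, hvr⟩) with h3 | h3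
    · -- `r` is the complement of `p`; the complement of `q` has a centre adjacent to `x`
      have hrp : ∀ y, y ∉ N d → (y ∈ r ↔ y ∉ p) := by
        intro y hy
        rw [← h3, BB.mem_cc]
        tauto
      obtain ⟨e, he, heq⟩ := h.js_cen hd (h.js_compl hd hq)
      obtain ⟨hed, heq'⟩ := BB.mem_cc.mp he
      have hxe : x ∈ N e := (heq x hxd).mpr (BB.mem_cc.mpr ⟨hxd, hxq⟩)
      have hex : e ≠ x := by
        rintro rfl
        have := (heq c1 (nin hp.2 hc1)).mp hc1x
        exact (BB.mem_cc.mp this).2 hc1q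
      have hep : e ∉ p := fun h' => heq' (hqp e h' hex)
      exact nin h2 ((hrp e hed).mpr hep) (h.symm _ _ hxe)
    · have : x ∈ (N d ∪ r)ᶜ := BB.mem_cc.mpr ⟨hxd, hxr⟩
      rw [h3] at this
      exact hxq this
  -- `c1` and `c2` are adjacent
  have hadj : c2 ∈ N c1 := by
    obtain ⟨r, hr, h1, -, -⟩ := h.js_of hd v
    have hvr : v ∈ r := h1 v (h.refl v) hv
    rcases only r hr hvr with rfl | rfl
    · exact (hc1p c2 hc2d).mpr (h1 c2 hc2N hc2d)
    · exact h.symm _ _ ((hc2q c1 hc1d).mpr (h1 c1 hc1N hc1d))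
  have hc2p : c2 ∈ p := (hc1p c2 hc2d).mp hadj
  have hc1q : c1 ∈ q := (hc2q c1 hc1d).mp (h.symm _ _ hadj)
  exact key p q c1 c2 hp hq hvp hvq hpq hc1 hc2 hc1p hc2q hc12 hc1v hc2v hc2p hc1q only

/-- No high vertex for `K = 4`. -/
theorem four_false (h : BB N 4) {d : V} (hd : (N d).card = 5) : False := by
  -- a vertex outside with a neighbour in the neighbourhood
  have h1 : ∃ u, u ∉ N d ∧ ∃ y ∈ N u, y ∈ N d := by
    by_contra hcon
    push Not at hcon
    have := h.conn (N d)ᶜ ?_ ?_ d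
    · rw [mem_compl] at this
      exact this (h.refl d)
    · rw [← card_pos, card_compl, hd, h.card]
      omega
    · intro x hx y hy
      rw [mem_compl] at hx ⊢
      exact hcon x hx y hy
  obtain ⟨u, hu, y, hy, hyd⟩ := h1
  have h2 := factB h hd hu
  have h3 : (N u).card = ((N u).filter (fun y => y ∉ N d)).card + (N u ∩ N d).card := by
    rw [← card_filter_add_card_filter_not (s := N u) (fun y => y ∉ N d)]
    congr 2
    ext z
    rw [mem_filter, mem_inter, not_not]
  have h4 : 1 ≤ (N u ∩ N d).card := card_pos.mpr ⟨y, mem_inter.mpr ⟨hy, hyd⟩⟩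
  have h5 := h.card_le u
  have h6 := h.two_common (by omega : (N u).card = 4 + 1) hd
  omega

end

section
variable {V : Type*} [DecidableEq V] {N : V → Finset V} {A : Finset V} {C : Finset (Finset V)}

/-- **The base case for `K = 4`.** -/
theorem hbase_four (h : Rig.Viol N 4 A C) (h3 : Rig.gk N A C = 3) : 3 * 4 + 1 < A.card :=
  hbase_of (by norm_num) (fun N' hN' d hd => four_false hN' hd) h h3

end

end Pool.Agent.Star.BaseAA
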