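import Mathlib

/-!
# The base case with a high vertex, type AA

`N` is a closed neighbourhood system on `3 K + 1` vertices, every pair of vertices misses a star
set, the system is connected.  This file: basic facts.
-/

set_option autoImplicit false
set_option linter.unusedSectionVars false
set_option linter.unusedVariables false

namespace Pool.Agent.Star.BaseAA

open Finset

variable {V : Type*} [Fintype V] [DecidableEq V] {N : V → Finset V} {K : ℕ}

/-- Star sets. -/
def Sr (N : V → Finset V) (K : ℕ) (p : Finset V) : Prop :=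
  p.card = K ∧ ∃ c ∈ p, p ⊆ N c

/-- An instance of the base case. -/
structure BB (N : V → Finset V) (K : ℕ) : Prop where
  refl : ∀ v, v ∈ N v
  symm : ∀ u v, u ∈ N v → v ∈ N u
  card : Fintype.card V = 3 * K + 1
  hK : 3 ≤ K
  T : ∀ u v, ∃ p, Sr N K p ∧ Disjoint p (N u) ∧ Disjoint p (N v)
  conn : ∀ S : Finset V, S.Nonempty → (∀ x ∈ S, N x ⊆ S) → ∀ x, x ∈ S

lemma nd_of {p q : Finset V} {x : V} (h1 : x ∈ p) (h2 : x ∈ q) : ¬ Disjoint p q :=
  fun h => Finset.disjoint_left.mp h h1 h2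

lemma nin {p q : Finset V} {x : V} (h : Disjoint p q) (h1 : x ∈ p) : x ∉ q :=
  Finset.disjoint_left.mp h h1

lemma nin' {p q : Finset V} {x : V} (h : Disjoint p q) (h1 : x ∈ q) : x ∉ p :=
  Finset.disjoint_right.mp h h1

lemma nd_iff {p q : Finset V} : ¬ Disjoint p q ↔ ∃ x, x ∈ p ∧ x ∈ q :=
  Finset.not_disjoint_iff

namespace BB

variable (h : BB N K)
include h

lemma comm {u v : V} : u ∈ N v ↔ v ∈ N u := ⟨h.symm u v, h.symm v u⟩

/-- Every closed neighbourhood has at most `K + 1` elements. -/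
lemma card_le (v : V) : (N v).card ≤ K + 1 := by
  obtain ⟨p, ⟨hp, c, hc, hpc⟩, h1, -⟩ := h.T v v
  obtain ⟨p', ⟨hp', -⟩, h3, h4⟩ := h.T v c
  have h5 : Disjoint p p' := Finset.disjoint_left.mpr fun x hx hx' => nin h4 hx' (hpc hx)
  have h6 : Disjoint (N v) (p ∪ p') :=
    Finset.disjoint_union_right.mpr ⟨h1.symm, h3.symm⟩
  have h7 := Finset.card_union_of_disjoint h6
  have h8 := Finset.card_union_of_disjoint h5
  have h9 := Finset.card_le_univ (N v ∪ (p ∪ p'))
  have := h.card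
  omega

/-- The complementary star at a high vertex. -/
lemma comp {u : V} (hu : (N u).card = K + 1) {p : Finset V} {c : V} (hp : p.card = K)
    (hc : c ∈ p) (hpc : p ⊆ N c) (hd : Disjoint p (N u)) :
    Sr N K (N u ∪ p)ᶜ ∧ ∀ x, x ∈ N c → x ∉ N u → x ∈ p := by
  obtain ⟨r, hr, h1, h2⟩ := h.T u c
  have h5 : Disjoint p r := Finset.disjoint_left.mpr fun x hx hx' => nin h2 hx' (hpc hx)
  have h6 : r ⊆ (N u ∪ p)ᶜ := by
    intro x hx
    rw [mem_compl, mem_union]
    rintro (h' | h')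
    · exact nin h1 hx h'
    · exact nin h5 h' hx
  have h7 : (N u ∪ p)ᶜ.card = K := by
    rw [card_compl, card_union_of_disjoint hd.symm, hu, hp, h.card]
    omega
  have h8 : r = (N u ∪ p)ᶜ := eq_of_subset_of_card_le h6 (by rw [h7, hr.1])
  refine ⟨h8 ▸ hr, fun x hx hxu => ?_⟩
  by_contra hxp
  have : x ∈ r := by
    rw [h8, mem_compl, mem_union]
    tauto
  exact nin h2 this hx

end BB

/-- The situation at a high vertex `d` with two non-adjacent stars outside. -/
structure Tw (N : V → Finset V) (K : ℕ) (d : V) (T1 T2 : Finset V) : Prop where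
  b : BB N K
  hd : (N d).card = K + 1
  s1 : Sr N K T1
  s2 : Sr N K T2
  d1 : Disjoint T1 (N d)
  d2 : Disjoint T2 (N d)
  d12 : Disjoint T1 T2
  ne : ∀ u ∈ T1, ∀ v ∈ T2, v ∉ N u

/-- The neighbours of `d`. -/
def XX (N : V → Finset V) (d : V) : Finset V := (N d).erase d

/-- The neighbours of `d` touching `T`. -/
def Xt (N : V → Finset V) (d : V) (T : Finset V) : Finset V :=
  (XX N d).filter (fun x => ¬ Disjoint (N x) T)

/-- Crossing star sets. -/
structure Qm (N : V → Finset V) (K : ℕ) (d : V) (T p : Finset V) : Prop where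
  sr : Sr N K p
  sub : p ⊆ T ∪ XX N d
  t : ∃ u ∈ p, u ∈ T
  x : ∃ u ∈ p, u ∈ XX N d

/-- Crossing star sets with a centre in `X`. -/
structure Bt (N : V → Finset V) (K : ℕ) (d : V) (T p : Finset V) (w : V) : Prop where
  q : Qm N K d T p
  wp : w ∈ p
  wx : w ∈ XX N d
  sub : p ⊆ N w

namespace Tw

variable {d : V} {T1 T2 : Finset V}

lemma swap (h : Tw N K d T1 T2) : Tw N K d T2 T1 :=
  ⟨h.b, h.hd, h.s2, h.s1, h.d2, h.d1, h.d12.symm,
    fun u hu v hv h' => h.ne v hv u hu (h.b.symm _ _ h')⟩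

variable (h : Tw N K d T1 T2)
include h

lemma xcard : (XX N d).card = K := by
  rw [XX, card_erase_of_mem (h.b.refl d), h.hd]
  rfl

lemma xd {x : V} (hx : x ∈ XX N d) : d ∈ N x := h.b.symm _ _ (mem_of_mem_erase hx)

lemma xne {x : V} (hx : x ∈ XX N d) : x ≠ d := ne_of_mem_erase hx

lemma xN {x : V} (hx : x ∈ XX N d) : x ∈ N d := mem_of_mem_erase hx

lemma x1 {x : V} (hx : x ∈ XX N d) : x ∉ T1 := fun h' => nin h.d1 h' (h.xN hx)

lemma x2 {x : V} (hx : x ∈ XX N d) : x ∉ T2 := h.swap.x1 hx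

lemma dT1 : d ∉ T1 := fun h' => nin h.d1 h' (h.b.refl d)

lemma dT2 : d ∉ T2 := h.swap.dT1

lemma dX : d ∉ XX N d := fun h' => h.xne h' rfl

lemma t12 {x : V} (hx : x ∈ T1) : x ∉ T2 := nin h.d12 hx

lemma t1X {x : V} (hx : x ∈ T1) : x ∉ XX N d := fun h' => h.x1 h' hx

lemma t2X {x : V} (hx : x ∈ T2) : x ∉ XX N d := fun h' => h.x2 h' hx

/-- Everything is covered. -/
lemma cov (x : V) : x = d ∨ x ∈ XX N d ∨ x ∈ T1 ∨ x ∈ T2 := by
  have h1 : (N d ∪ T1 ∪ T2) = univ := by
    rw [← card_eq_iff_eq_univ]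
    rw [card_union_of_disjoint (by
      rw [disjoint_union_left]; exact ⟨h.d2.symm, h.d12⟩), card_union_of_disjoint h.d1.symm,
      h.hd, h.s1.1, h.s2.1, h.b.card]
    omega
  have h2 : x ∈ N d ∪ T1 ∪ T2 := by rw [h1]; exact mem_univ x
  rw [mem_union, mem_union] at h2
  rcases h2 with (h2 | h2) | h2
  · by_cases hx : x = d
    · exact Or.inl hx
    · exact Or.inr (Or.inl (mem_erase.mpr ⟨hx, h2⟩))
  · exact Or.inr (Or.inr (Or.inl h2))
  · exact Or.inr (Or.inr (Or.inr h2))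

/-- A star set inside `T1 ∪ T2` is `T1` or `T2`. -/
lemma inT {p : Finset V} (hp : Sr N K p) (h1 : Disjoint p (N d)) : p = T1 ∨ p = T2 := by
  obtain ⟨hc, c, hcp, hpc⟩ := hp
  have key : ∀ x ∈ p, x ∈ T1 ∨ x ∈ T2 := by
    intro x hx
    rcases h.cov x with rfl | h' | h' | h'
    · exact absurd (h.b.refl x) (nin h1 hx)
    · exact absurd (h.xN h') (nin h1 hx)
    · exact Or.inl h'
    · exact Or.inr h'
  rcases key c hcp with h' | h'
  · left
    apply eq_of_subset_of_card_le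
    · intro x hx
      rcases key x hx with h'' | h''
      · exact h''
      · exact absurd (hpc hx) (h.ne c h' x h'')
    · rw [h.s1.1, hc]
  · right
    apply eq_of_subset_of_card_le
    · intro x hx
      rcases key x hx with h'' | h''
      · exact absurd (hpc hx) (h.swap.ne c h' x h'')
      · exact h''
    · rw [h.s2.1, hc]

/-- (1) No neighbour of `d` touches both stars. -/
lemma one {x : V} (hx : x ∈ XX N d) : Disjoint (N x) T1 ∨ Disjoint (N x) T2 := by
  obtain ⟨p, hp, h1, h2⟩ := h.b.T d x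
  rcases h.inT hp h1 with rfl | rfl
  · exact Or.inl h2.symm
  · exact Or.inr h2.symm

lemma mem_Xt {x : V} : x ∈ Xt N d T1 ↔ x ∈ XX N d ∧ ∃ y ∈ N x, y ∈ T1 := by
  unfold Xt
  rw [mem_filter, nd_iff]

lemma mem_Xt' {x : V} : x ∈ Xt N d T2 ↔ x ∈ XX N d ∧ ∃ y ∈ N x, y ∈ T2 := h.swap.mem_Xt

/-- Vertices of `X1` are not adjacent to `T2`. -/
lemma x1T2 {x : V} (hx : x ∈ Xt N d T1) : Disjoint (N x) T2 := by
  obtain ⟨h1, y, hy, hy'⟩ := h.mem_Xt.mp hx
  rcases h.one h1 with h2 | h2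
  · exact absurd hy' (nin h2 hy)
  · exact h2

lemma x2T1 {x : V} (hx : x ∈ Xt N d T2) : Disjoint (N x) T1 := h.swap.x1T2 hx

lemma x1x2 {x : V} (hx : x ∈ Xt N d T1) : x ∉ Xt N d T2 := by
  intro h2
  obtain ⟨h3, y, hy, hy'⟩ := h.mem_Xt'.mp h2
  exact nin (h.x1T2 hx) hy hy'

lemma Xt_sub {x : V} (hx : x ∈ Xt N d T1) : x ∈ XX N d := (h.mem_Xt.mp hx).1

lemma Xt_sub' {x : V} (hx : x ∈ Xt N d T2) : x ∈ XX N d := (h.mem_Xt'.mp hx).1

/-- Neighbours of `T1`. -/
lemma nT1 {u x : V} (hu : u ∈ T1) (hx : x ∈ N u) : x ∈ T1 ∨ x ∈ Xt N d T1 := by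
  rcases h.cov x with rfl | h' | h' | h'
  · exact absurd (h.b.symm _ _ hx) (nin h.d1 hu)
  · exact Or.inr (h.mem_Xt.mpr ⟨h', u, h.b.symm _ _ hx, hu⟩)
  · exact Or.inl h'
  · exact absurd hx (h.ne u hu x h')

lemma nT2 {u x : V} (hu : u ∈ T2) (hx : x ∈ N u) : x ∈ T2 ∨ x ∈ Xt N d T2 := h.swap.nT1 hu hx

/-- (2) A star set without `d` does not meet both stars. -/
lemma noBoth {p : Finset V} (hp : Sr N K p) (hdp : d ∉ p) {u v : V} (hu : u ∈ T1) (hv : v ∈ T2)
    (hup : u ∈ p) (hvp : v ∈ p) : False := by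
  obtain ⟨hc, c, hcp, hpc⟩ := hp
  rcases h.cov c with rfl | h' | h' | h'
  · exact hdp hcp
  · rcases h.one h' with h2 | h2
    · exact nin h2 (hpc hup) hu
    · exact nin h2 (hpc hvp) hv
  · exact h.ne c h' v hv (hpc hvp)
  · exact h.swap.ne c h' u hu (hpc hup)

/-- The star sets without `d`. -/
lemma cls {p : Finset V} (hp : Sr N K p) (hdp : d ∉ p) :
    p = T1 ∨ p = T2 ∨ p = XX N d ∨ Qm N K d T1 p ∨ Qm N K d T2 p := by
  by_cases h1 : ∃ u ∈ p, u ∈ T1
  · have h2 : p ⊆ T1 ∪ XX N d := by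
      intro x hx
      obtain ⟨u, hu, hu'⟩ := h1
      rcases h.cov x with rfl | h' | h' | h'
      · exact absurd hx hdp
      · exact mem_union_right _ h'
      · exact mem_union_left _ h'
      · exact (h.noBoth hp hdp hu' h' hu hx).elim
    by_cases h3 : ∃ u ∈ p, u ∈ XX N d
    · exact Or.inr (Or.inr (Or.inr (Or.inl ⟨hp, h2, h1, h3⟩)))
    · left
      apply eq_of_subset_of_card_le
      · intro x hx
        rcases mem_union.mp (h2 hx) with h' | h'
        · exact h'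
        · exact absurd ⟨x, hx, h'⟩ h3
      · rw [h.s1.1, hp.1]
  · by_cases h1' : ∃ u ∈ p, u ∈ T2
    · have h2 : p ⊆ T2 ∪ XX N d := by
        intro x hx
        rcases h.cov x with rfl | h' | h' | h'
        · exact absurd hx hdp
        · exact mem_union_right _ h'
        · exact absurd ⟨x, hx, h'⟩ h1
        · exact mem_union_left _ h'
      by_cases h3 : ∃ u ∈ p, u ∈ XX N d
      · exact Or.inr (Or.inr (Or.inr (Or.inr ⟨hp, h2, h1', h3⟩)))
      · right; left
        apply eq_of_subset_of_card_le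
        · intro x hx
          rcases mem_union.mp (h2 hx) with h' | h'
          · exact h'
          · exact absurd ⟨x, hx, h'⟩ h3
        · rw [h.s2.1, hp.1]
    · right; right; left
      apply eq_of_subset_of_card_le
      · intro x hx
        rcases h.cov x with rfl | h' | h' | h'
        · exact absurd hx hdp
        · exact h'
        · exact absurd ⟨x, hx, h'⟩ h1
        · exact absurd ⟨x, hx, h'⟩ h1'
      · rw [h.xcard, hp.1]

lemma qd {p : Finset V} (hq : Qm N K d T1 p) : d ∉ p := by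
  intro h'
  rcases mem_union.mp (hq.sub h') with h2 | h2
  · exact h.dT1 h2
  · exact h.dX h2

lemma qd' {p : Finset V} (hq : Qm N K d T2 p) : d ∉ p := h.swap.qd hq

/-- Centres of crossing star sets. -/
lemma qcen {p : Finset V} (hq : Qm N K d T1 p) {c : V} (hc : c ∈ p) :
    c ∈ T1 ∨ c ∈ XX N d := by
  rcases mem_union.mp (hq.sub hc) with h2 | h2
  · exact Or.inl h2
  · exact Or.inr h2

lemma q_no2 {p : Finset V} (hq : Qm N K d T1 p) {x : V} (hx : x ∈ p) : x ∉ T2 := by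
  intro h'
  rcases mem_union.mp (hq.sub hx) with h2 | h2
  · exact h.t12 h2 h'
  · exact h.x2 h2 h'

/-- Star sets with a centre in `T1`. -/
lemma alph {p : Finset V} {c : V} (hc : c ∈ T1) (hpc : p ⊆ N c) {x : V} (hx : x ∈ p) :
    x ∈ T1 ∨ x ∈ Xt N d T1 := h.nT1 hc (hpc hx)

end Tw

end Pool.Agent.Star.BaseAA
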