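import Pool.Agent.Star.BaseAA1

/-!
# Type AA: star sets with a centre at a neighbour of the high vertex
-/

set_option autoImplicit false
set_option linter.unusedSectionVars false
set_option linter.unusedVariables false

namespace Pool.Agent.Star.BaseAA

open Finset

variable {V : Type*} [Fintype V] [DecidableEq V] {N : V → Finset V} {K : ℕ}

namespace Tw

variable {d : V} {T1 T2 : Finset V} (h : Tw N K d T1 T2)
include h

lemma sr_ne {p : Finset V} (hp : Sr N K p) : p.Nonempty := by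
  rw [← card_pos, hp.1]
  have := h.b.hK
  omega

/-- A crossing star set does not contain `T1`. -/
lemma q_T1 {p : Finset V} (hq : Qm N K d T1 p) : ∃ u ∈ T1, u ∉ p := by
  by_contra hcon
  push Not at hcon
  have : T1 = p := eq_of_subset_of_card_le hcon (by rw [hq.sr.1, h.s1.1])
  obtain ⟨u, hu, hu'⟩ := hq.x
  exact h.x1 hu' (this ▸ hu)

lemma q_X {p : Finset V} (hq : Qm N K d T1 p) : ∃ u ∈ XX N d, u ∉ p := by
  by_contra hcon
  push Not at hcon
  have : XX N d = p := eq_of_subset_of_card_le hcon (by rw [hq.sr.1, h.xcard])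
  obtain ⟨u, hu, hu'⟩ := hq.t
  exact h.t1X hu' (this ▸ hu)

/-- The neighbourhood of the centre of a beta. -/
lemma bt_nbr {Q : Finset V} {w : V} (hb : Bt N K d T1 Q w) : N w = insert d Q := by
  symm
  apply eq_of_subset_of_card_le
  · intro x hx
    rcases mem_insert.mp hx with rfl | hx
    · exact h.xd hb.wx
    · exact hb.sub hx
  · rw [card_insert_of_notMem (h.qd hb.q), hb.q.sr.1]
    exact h.b.card_le w

lemma bt_high {Q : Finset V} {w : V} (hb : Bt N K d T1 Q w) : (N w).card = K + 1 := by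
  rw [h.bt_nbr hb, card_insert_of_notMem (h.qd hb.q), hb.q.sr.1]

lemma bt_x1 {Q : Finset V} {w : V} (hb : Bt N K d T1 Q w) : w ∈ Xt N d T1 := by
  obtain ⟨u, hu, hu'⟩ := hb.q.t
  exact h.mem_Xt.mpr ⟨hb.wx, u, hb.sub hu, hu'⟩

/-- High vertices in `X1` give a beta. -/
lemma bt_of {x : V} (hx : x ∈ Xt N d T1) (hc : (N x).card = K + 1) :
    Bt N K d T1 ((N x).erase d) x := by
  obtain ⟨hx1, y, hy, hy'⟩ := h.mem_Xt.mp hx
  have h1 : x ∈ (N x).erase d := mem_erase.mpr ⟨h.xne hx1, h.b.refl x⟩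
  refine ⟨⟨⟨?_, x, h1, erase_subset _ _⟩, ?_, ?_, ?_⟩, h1, hx1, erase_subset _ _⟩
  · rw [card_erase_of_mem (h.xd hx1), hc]
    rfl
  · intro z hz
    obtain ⟨hz1, hz2⟩ := mem_erase.mp hz
    rcases h.cov z with rfl | h' | h' | h'
    · exact absurd rfl hz1
    · exact mem_union_right _ h'
    · exact mem_union_left _ h'
    · exact absurd h' (nin (h.x1T2 hx) hz2)
  · refine ⟨y, mem_erase.mpr ⟨?_, hy⟩, hy'⟩
    rintro rfl
    exact h.dT1 hy'
  · exact ⟨x, h1, hx1⟩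

/-- Without beta the centres are in `T1`. -/
lemma qcenT (hnb : ∀ Q w, ¬ Bt N K d T1 Q w) {p : Finset V} (hq : Qm N K d T1 p) {c : V}
    (hc : c ∈ p) (hpc : p ⊆ N c) : c ∈ T1 := by
  rcases h.qcen hq hc with h' | h'
  · exact h'
  · exact absurd ⟨hq, hc, h', hpc⟩ (hnb p c)

lemma low (hnb : ∀ Q w, ¬ Bt N K d T1 Q w) {x : V} (hx : x ∈ Xt N d T1) :
    (N x).card ≤ K := by
  by_contra hcon
  have := h.b.card_le x
  exact hnb _ _ (h.bt_of hx (by omega))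

/-- (3) For `x` in `X2` some crossing star set avoids `N x`. -/
lemma three {x : V} (hx : x ∈ Xt N d T2) : ∃ q, Qm N K d T2 q ∧ Disjoint q (N x) := by
  obtain ⟨-, c1, hc1, hT1⟩ := h.s1
  obtain ⟨hxX, y, hy, hy'⟩ := h.mem_Xt'.mp hx
  obtain ⟨p, hp, h1, h2⟩ := h.b.T x c1
  refine ⟨p, ?_, h1⟩
  have hdp : d ∉ p := fun h' => nin h1 h' (h.xd hxX)
  rcases h.cls hp hdp with rfl | rfl | rfl | hq | hq
  · exact absurd (h.b.refl c1) (nin h2 hc1)
  · exact absurd hy (nin h1 hy')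
  · exact absurd (h.b.refl x) (nin h1 hxX)
  · obtain ⟨u, hu, hu'⟩ := hq.t
    exact absurd (hT1 hu') (nin h2 hu)
  · exact hq

/-- Crossing star sets contain a vertex of `X2`. -/
lemma q_x2 {q : Finset V} (hq : Qm N K d T2 q) : ∃ u ∈ q, u ∈ Xt N d T2 := by
  obtain ⟨-, c, hc, hqc⟩ := hq.sr
  rcases h.swap.qcen hq hc with h' | h'
  · obtain ⟨u, hu, hu'⟩ := hq.x
    rcases h.nT2 h' (hqc hu) with h2 | h2
    · exact absurd h2 (h.x2 hu')
    · exact ⟨u, hu, h2⟩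
  · obtain ⟨u, hu, hu'⟩ := hq.t
    exact ⟨c, hc, h.mem_Xt'.mpr ⟨h', u, hqc hu, hu'⟩⟩

lemma x1ne : (Xt N d T1).Nonempty := by
  by_contra hcon
  rw [not_nonempty_iff_eq_empty] at hcon
  have := h.b.conn T1 (h.sr_ne h.s1) ?_ d
  · exact h.dT1 this
  · intro u hu x hx
    rcases h.nT1 hu hx with h' | h'
    · exact h'
    · rw [hcon] at h'
      exact absurd h' (notMem_empty _)

/-- Another vertex of `X2`. -/
lemma other {x : V} (hx : x ∈ Xt N d T2) : ∃ y ∈ Xt N d T2, y ≠ x := by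
  obtain ⟨q, hq, h1⟩ := h.three hx
  obtain ⟨u, hu, hu'⟩ := h.q_x2 hq
  refine ⟨u, hu', ?_⟩
  rintro rfl
  exact nin h1 hu (h.b.refl u)

/-- Star sets avoiding the neighbourhood of the centre of a beta. -/
lemma bt_comp {Q : Finset V} {w : V} (hb : Bt N K d T1 Q w) {Z : Finset V} (hZ : Sr N K Z)
    (hZw : Disjoint Z (N w)) : Sr N K (N w ∪ Z)ᶜ := by
  obtain ⟨hZ1, c, hc, hZc⟩ := hZ
  exact (h.b.comp (h.bt_high hb) hZ1 hc hZc hZw).1

/-- The complement of a beta. -/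
lemma bt_P {Q : Finset V} {w : V} (hb : Bt N K d T1 Q w) :
    Sr N K ((T1 ∪ XX N d) \ Q) := by
  have h1 : Disjoint T2 (N w) := (h.x1T2 (h.bt_x1 hb)).symm
  have h2 := h.bt_comp hb h.s2 h1
  have h3 : (N w ∪ T2)ᶜ = (T1 ∪ XX N d) \ Q := by
    ext x
    rw [mem_compl, mem_union, h.bt_nbr hb, mem_insert, mem_sdiff, mem_union]
    constructor
    · intro hx
      push Not at hx
      obtain ⟨⟨hx1, hx2⟩, hx3⟩ := hx
      refine ⟨?_, hx2⟩
      rcases h.cov x with rfl | h' | h' | h'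
      · exact absurd rfl hx1
      · exact Or.inr h'
      · exact Or.inl h'
      · exact absurd h' hx3
    · rintro ⟨hx1, hx2⟩
      push Not
      refine ⟨⟨?_, hx2⟩, ?_⟩
      · rintro rfl
        rcases hx1 with h' | h'
        · exact h.dT1 h'
        · exact h.dX h'
      · rcases hx1 with h' | h'
        · exact h.t12 h'
        · exact h.x2 h'
  rw [← h3]
  exact h2

/-- A star set missed by the centre of a beta is `T2`, the complement `P`, or crosses `T2`; the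
last case is impossible. -/
lemma bt_miss {Q : Finset V} {w : V} (hb : Bt N K d T1 Q w) {Z : Finset V} (hZ : Sr N K Z)
    (hZw : Disjoint Z (N w)) : Z = T2 ∨ Z = (T1 ∪ XX N d) \ Q := by
  have hdZ : d ∉ Z := fun h' => nin hZw h' (h.xd hb.wx)
  rcases h.cls hZ hdZ with rfl | rfl | rfl | hq | hq
  · obtain ⟨u, hu, hu'⟩ := hb.q.t
    exact absurd (hb.sub hu) (nin hZw hu')
  · exact Or.inl rfl
  · exact absurd (h.b.refl w) (nin hZw hb.wx)
  · right
    apply eq_of_subset_of_card_le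
    · intro x hx
      rw [mem_sdiff]
      refine ⟨hq.sub hx, fun h' => nin hZw hx (hb.sub h')⟩
    · rw [(h.bt_P hb).1, hZ.1]
  · exfalso
    have h1 := h.bt_comp hb hZ hZw
    obtain ⟨u, hu, hu'⟩ := h.q_T1 hb.q
    obtain ⟨v, hv, hv'⟩ := h.swap.q_T1 hq
    have hd : d ∉ (N w ∪ Z)ᶜ := by
      rw [mem_compl, mem_union, not_or, not_and_or]
      left
      rw [not_not]
      exact h.xd hb.wx
    refine h.noBoth h1 hd hu hv ?_ ?_
    · rw [mem_compl, mem_union, h.bt_nbr hb, mem_insert]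
      push Not
      refine ⟨⟨?_, hu'⟩, fun h' => ?_⟩
      · rintro rfl
        exact h.dT1 hu
      · rcases mem_union.mp (hq.sub h') with h2 | h2
        · exact h.t12 hu h2
        · exact h.t1X hu h2
    · rw [mem_compl, mem_union]
      push Not
      refine ⟨fun h' => nin (h.x1T2 (h.bt_x1 hb)) h' hv, hv'⟩

/-- (A1) -/
lemma a1 {Q : Finset V} {w : V} (hb : Bt N K d T1 Q w) : Xt N d T2 ⊆ Q := by
  intro x hx
  by_contra hxQ
  obtain ⟨hxX, y, hy, hy'⟩ := h.mem_Xt'.mp hx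
  obtain ⟨Z, hZ, h1, h2⟩ := h.b.T w x
  rcases h.bt_miss hb hZ h1 with rfl | rfl
  · exact absurd hy (nin h2 hy')
  · exact absurd (h.b.refl x) (nin h2 (mem_sdiff.mpr ⟨mem_union_right _ hxX, hxQ⟩))

/-- (A2) -/
lemma a2 {Q : Finset V} {w : V} (hb : Bt N K d T1 Q w) :
    ∃ z ∈ T1, z ∉ Q ∧ (T1 ∪ XX N d) \ Q ⊆ N z := by
  obtain ⟨hP, c, hc, hPc⟩ := h.bt_P hb
  obtain ⟨hc1, hc2⟩ := mem_sdiff.mp hc
  rcases mem_union.mp hc1 with h' | h'
  · exact ⟨c, h', hc2, hPc⟩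
  · exfalso
    obtain ⟨u, hu, hu'⟩ := h.q_T1 hb.q
    have hb' : Bt N K d T1 ((T1 ∪ XX N d) \ Q) c := by
      refine ⟨⟨⟨hP, c, hc, hPc⟩, sdiff_subset, ⟨u, ?_, hu⟩, ⟨c, hc, h'⟩⟩, hc, h', hPc⟩
      exact mem_sdiff.mpr ⟨mem_union_left _ hu, hu'⟩
    obtain ⟨x, hx⟩ := h.swap.x1ne
    have h1 := h.a1 hb hx
    have h2 := h.a1 hb' hx
    exact (mem_sdiff.mp h2).2 h1

lemma a2q {Q : Finset V} {w : V} (hb : Bt N K d T1 Q w) :
    Qm N K d T1 ((T1 ∪ XX N d) \ Q) := by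
  obtain ⟨u, hu, hu'⟩ := h.q_T1 hb.q
  obtain ⟨x, hx, hx'⟩ := h.q_X hb.q
  exact ⟨h.bt_P hb, sdiff_subset, ⟨u, mem_sdiff.mpr ⟨mem_union_left _ hu, hu'⟩, hu⟩,
    ⟨x, mem_sdiff.mpr ⟨mem_union_right _ hx, hx'⟩, hx⟩⟩

lemma a2x {Q : Finset V} {w : V} (hb : Bt N K d T1 Q w) {x : V} (hx : x ∈ XX N d)
    (hxQ : x ∉ Q) : x ∈ Xt N d T1 := by
  obtain ⟨z, hz, hz', hz2⟩ := h.a2 hb
  rcases h.nT1 hz (hz2 (mem_sdiff.mpr ⟨mem_union_right _ hx, hxQ⟩)) with h' | h'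
  · exact absurd h' (h.x1 hx)
  · exact h'

lemma a2n {Q : Finset V} {w : V} (hb : Bt N K d T1 Q w) {x : V} (hx : x ∈ Xt N d T2) :
    Disjoint (N x) ((T1 ∪ XX N d) \ Q) := by
  obtain ⟨hxX, y, hy, hy'⟩ := h.mem_Xt'.mp hx
  obtain ⟨Z, hZ, h1, h2⟩ := h.b.T w x
  rcases h.bt_miss hb hZ h1 with rfl | rfl
  · exact absurd hy (nin h2 hy')
  · exact h2.symm

/-- (A3) -/
lemma a3 {Q : Finset V} {w : V} (hb : Bt N K d T1 Q w) : ∀ Q' w', ¬ Bt N K d T2 Q' w' := by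
  intro Q' w' hb'
  obtain ⟨Z, hZ, h1, h2⟩ := h.b.T w w'
  obtain ⟨u, hu, hu'⟩ := hb'.q.t
  rcases h.bt_miss hb hZ h1 with rfl | h3
  · exact absurd (hb'.sub hu) (nin h2 hu')
  · obtain ⟨x, hx, hx'⟩ := h.q_X hb.q
    have h4 : x ∈ Z := by
      rw [h3]
      exact mem_sdiff.mpr ⟨mem_union_right _ hx, hx'⟩
    have h5 := h.swap.a1 hb' (h.a2x hb hx hx')
    exact nin h2 h4 (hb'.sub h5)

/-- (A4) -/
lemma a4 {p q : Finset V} (hp : Qm N K d T1 p) (hq : Qm N K d T2 q) {c c' : V} (hc : c ∈ T1)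
    (hpc : p ⊆ N c) (hc' : c' ∈ T2) (hqc : q ⊆ N c') :
    (T1 \ p).card ≤ 1 ∨ (T2 \ q).card ≤ 1 := by
  by_contra hcon
  push Not at hcon
  obtain ⟨hcon1, hcon2⟩ := hcon
  obtain ⟨r, hr, h1, h2⟩ := h.b.T c c'
  have h3 : Disjoint p q := by
    rw [disjoint_left]
    intro x hx hx'
    rcases h.nT1 hc (hpc hx) with h4 | h4
    · rcases h.nT2 hc' (hqc hx') with h5 | h5
      · exact h.t12 h4 h5
      · exact h.t1X h4 (h.Xt_sub' h5)
    · rcases h.nT2 hc' (hqc hx') with h5 | h5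
      · exact h.x2 (h.Xt_sub h4) h5
      · exact h.x1x2 h4 h5
  have h4 : Disjoint r p := disjoint_left.mpr fun x hx hx' => nin h1 hx (hpc hx')
  have h5 : Disjoint r q := disjoint_left.mpr fun x hx hx' => nin h2 hx (hqc hx')
  -- the rest of the vertices
  have h6 : (r ∪ (p ∪ q))ᶜ.card = 1 := by
    rw [card_compl, card_union_of_disjoint (disjoint_union_right.mpr ⟨h4, h5⟩),
      card_union_of_disjoint h3, hr.1, hp.sr.1, hq.sr.1, h.b.card]
    omega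
  have h7 : ∃ u ∈ T1 \ p, u ∈ r := by
    by_contra hcc
    push Not at hcc
    have : T1 \ p ⊆ (r ∪ (p ∪ q))ᶜ := by
      intro x hx
      rw [mem_compl, mem_union, mem_union]
      push Not
      refine ⟨hcc x hx, (mem_sdiff.mp hx).2, fun h' => ?_⟩
      exact h.swap.q_no2 hq h' (mem_sdiff.mp hx).1
    have := card_le_card this
    omega
  have h8 : ∃ u ∈ T2 \ q, u ∈ r := by
    by_contra hcc
    push Not at hcc
    have : T2 \ q ⊆ (r ∪ (p ∪ q))ᶜ := by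
      intro x hx
      rw [mem_compl, mem_union, mem_union]
      push Not
      refine ⟨hcc x hx, fun h' => ?_, (mem_sdiff.mp hx).2⟩
      exact h.q_no2 hp h' (mem_sdiff.mp hx).1
    have := card_le_card this
    omega
  obtain ⟨u, hu, hur⟩ := h7
  obtain ⟨v, hv, hvr⟩ := h8
  have hu1 := (mem_sdiff.mp hu).1
  have hv1 := (mem_sdiff.mp hv).1
  by_cases hd : d ∈ r
  · obtain ⟨-, k, hk, hrk⟩ := hr
    rcases h.cov k with rfl | h' | h' | h'
    · exact nin h.d1 hu1 (hrk hur)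
    · rcases h.one h' with h9 | h9
      · exact nin h9 (hrk hur) hu1
      · exact nin h9 (hrk hvr) hv1
    · exact h.ne k h' v hv1 (hrk hvr)
    · exact h.swap.ne k h' u hu1 (hrk hur)
  · exact h.noBoth hr hd hu1 hv1 hur hvr

end Tw

end Pool.Agent.Star.BaseAA
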