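import Pool.Agent.Star.BaseAA2

/-!
# Type AA: one side thin, the other side not (Lemma N)
-/

set_option autoImplicit false
set_option linter.unusedSectionVars false
set_option linter.unusedVariables false

namespace Pool.Agent.Star.BaseAA

open Finset

variable {V : Type*} [Fintype V] [DecidableEq V] {N : V → Finset V} {K : ℕ}

namespace Tw

variable {d : V} {T1 T2 : Finset V} (h : Tw N K d T1 T2)
include h

/-- Thin crossing star sets. -/
lemma thin_form {q : Finset V} (hq : Qm N K d T2 q) (ht : (T2 \ q).card ≤ 1) :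
    ∃ t ∈ T2, ∃ y ∈ Xt N d T2, y ∈ q ∧ q = insert y (T2.erase t) := by
  obtain ⟨t, ht2, htq⟩ := h.swap.q_T1 hq
  obtain ⟨y, hy, hy2⟩ := h.q_x2 hq
  have hyT : y ∉ T2 := h.x2 (h.Xt_sub' hy2)
  refine ⟨t, ht2, y, hy2, hy, ?_⟩
  symm
  apply eq_of_subset_of_card_le
  · intro x hx
    rcases mem_insert.mp hx with rfl | hx
    · exact hy
    · obtain ⟨h1, h2⟩ := mem_erase.mp hx
      by_contra hxq
      have h3 : ({t, x} : Finset V) ⊆ T2 \ q := by
        intro u hu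
        rcases mem_insert.mp hu with rfl | hu
        · exact mem_sdiff.mpr ⟨ht2, htq⟩
        · rw [mem_singleton] at hu
          subst hu
          exact mem_sdiff.mpr ⟨h2, hxq⟩
      have h4 := card_le_card h3
      rw [card_pair (Ne.symm h1)] at h4
      omega
  · rw [hq.sr.1, card_insert_of_notMem (fun h' => hyT (mem_of_mem_erase h')),
      card_erase_of_mem ht2, h.s2.1]
    have := h.b.hK
    omega

/-- (N1) -/
lemma n1 (hth : ∀ q, Qm N K d T2 q → (T2 \ q).card ≤ 1) {x : V} (hx : x ∈ Xt N d T2) :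
    ∃ t ∈ T2, t ∈ N x ∧ (∀ y ∈ N x, y ∈ T2 → y = t) ∧ ∃ x' ∈ Xt N d T2, x' ∉ N x := by
  obtain ⟨q, hq, h1⟩ := h.three hx
  obtain ⟨t, ht, y, hy, hyq, hqe⟩ := h.thin_form hq (hth q hq)
  obtain ⟨hxX, u, hu, hu'⟩ := h.mem_Xt'.mp hx
  have key : ∀ v ∈ N x, v ∈ T2 → v = t := by
    intro v hv hv2
    by_contra hvt
    have : v ∈ q := by
      rw [hqe]
      exact mem_insert_of_mem (mem_erase.mpr ⟨hvt, hv2⟩)
    exact nin h1 this hv
  refine ⟨t, ht, ?_, key, y, hy, nin h1 hyq⟩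
  rw [← key u hu hu']
  exact hu

/-- (N2) -/
lemma n2 (hth : ∀ q, Qm N K d T2 q → (T2 \ q).card ≤ 1) {x t : V} (hx : x ∈ XX N d)
    (ht : t ∈ T2) (htx : t ∈ N x) {R : Finset V} (hR : Sr N K R) (hRt : Disjoint R (N t)) :
    x ∉ R ∧ (R = T1 ∨ Qm N K d T1 R ∨ d ∈ R) := by
  have hxt : x ∈ N t := h.b.symm _ _ htx
  refine ⟨fun h' => nin hRt h' hxt, ?_⟩
  by_cases hd : d ∈ R
  · exact Or.inr (Or.inr hd)
  rcases h.cls hR hd with h' | h' | h' | h' | h'
  · exact Or.inl h'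
  · subst h'
    exact absurd (h.b.refl t) (nin hRt ht)
  · subst h'
    exact absurd hxt (nin hRt hx)
  · exact Or.inr (Or.inl h')
  · exfalso
    obtain ⟨t', ht', y, hy, hyq, hqe⟩ := h.thin_form h' (hth R h')
    have h1 : t = t' := by
      by_contra hne
      have : t ∈ R := by
        rw [hqe]
        exact mem_insert_of_mem (mem_erase.mpr ⟨hne, ht⟩)
      exact nin hRt this (h.b.refl t)
    subst h1
    obtain ⟨hT, c, hc, hTc⟩ := h.s2
    by_cases hct : c = t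
    · subst hct
      have h2 : 1 < T2.card := by
        have := h.b.hK
        omega
      obtain ⟨u, hu, hu'⟩ := exists_mem_ne h2 c
      have : u ∈ R := by
        rw [hqe]
        exact mem_insert_of_mem (mem_erase.mpr ⟨hu', hu⟩)
      exact nin hRt this (hTc hu)
    · have : c ∈ R := by
        rw [hqe]
        exact mem_insert_of_mem (mem_erase.mpr ⟨hct, hc⟩)
      exact nin hRt this (h.b.symm _ _ (hTc ht))

/-- The exceptional star sets. -/
lemma exc (hth : ∀ q, Qm N K d T2 q → (T2 \ q).card ≤ 1) (hnb : ∀ Q w, ¬ Bt N K d T2 Q w)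
    {R : Finset V} (hR : Sr N K R) (hdR : d ∈ R) {y : V} (hy : y ∈ R) (hy2 : y ∈ T2) :
    ∃ w ∈ Xt N d T2, w ∈ R ∧ N w = R ∧ (XX N d \ R).card ≤ 2 := by
  obtain ⟨hRc, k, hk, hRk⟩ := hR
  have hkX : k ∈ XX N d := by
    rcases h.cov k with rfl | h' | h' | h'
    · exact absurd (hRk hy) (nin h.d2 hy2)
    · exact h'
    · exact absurd (h.b.symm _ _ (hRk hdR)) (nin h.d1 h')
    · exact absurd (h.b.symm _ _ (hRk hdR)) (nin h.d2 h')
  have hk2 : k ∈ Xt N d T2 := h.mem_Xt'.mpr ⟨hkX, y, hRk hy, hy2⟩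
  have h1 : R = N k := by
    apply eq_of_subset_of_card_le hRk
    rw [hRc]
    exact h.swap.low hnb hk2
  refine ⟨k, hk2, hk, h1.symm, ?_⟩
  obtain ⟨t, ht, htk, htu, -⟩ := h.n1 hth hk2
  have h2 : R ⊆ {d, t} ∪ (XX N d ∩ R) := by
    intro u hu
    rcases h.cov u with rfl | h' | h' | h'
    · exact mem_union_left _ (mem_insert_self _ _)
    · exact mem_union_right _ (mem_inter.mpr ⟨h', hu⟩)
    · exact absurd h' (nin (h.x2T1 hk2) (hRk hu))
    · rw [htu u (hRk hu) h']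
      exact mem_union_left _ (mem_insert_of_mem (mem_singleton_self _))
  have h3 := card_le_card h2
  have h4 := card_union_le ({d, t} : Finset V) (XX N d ∩ R)
  have h5 : ({d, t} : Finset V).card ≤ 2 := card_le_two
  have h6 := card_sdiff_add_card_inter (XX N d) R
  have h7 := h.xcard
  omega

end Tw

/-- The hypotheses of Lemma N. -/
structure LN (N : V → Finset V) (K : ℕ) (d : V) (T1 T2 P : Finset V) (z : V) : Prop where
  h : Tw N K d T1 T2
  nb : ∀ Q w, ¬ Bt N K d T2 Q w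
  thin : ∀ q, Qm N K d T2 q → (T2 \ q).card ≤ 1
  hP : Qm N K d T1 P
  hz : z ∈ T1
  hPz : P ⊆ N z
  two : 2 ≤ (P ∩ XX N d).card

namespace LN

variable {d z : V} {T1 T2 P : Finset V} (a : LN N K d T1 T2 P z)
include a

lemma PX {y : V} (hy : y ∈ P) (hyX : y ∈ XX N d) : y ∈ Xt N d T1 := by
  rcases a.h.nT1 a.hz (a.hPz hy) with h' | h'
  · exact absurd h' (a.h.x1 hyX)
  · exact h'

lemma P2 {y : V} (hy : y ∈ P) (hy2 : y ∈ Xt N d T2) : False :=
  a.h.x1x2 (a.PX hy (a.h.Xt_sub' hy2)) hy2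

/-- Few vertices of `X` are missed by a star set far from `P` and `x`. -/
lemma three_out {x : V} (hx : x ∈ Xt N d T2) {R : Finset V} (hxR : x ∉ R)
    (hPR : ∀ y ∈ P, y ∉ R) : 3 ≤ (XX N d \ R).card := by
  have h1 : insert x (P ∩ XX N d) ⊆ XX N d \ R := by
    intro y hy
    rcases mem_insert.mp hy with rfl | hy
    · exact mem_sdiff.mpr ⟨a.h.Xt_sub' hx, hxR⟩
    · obtain ⟨h2, h3⟩ := mem_inter.mp hy
      exact mem_sdiff.mpr ⟨h3, hPR y h2⟩
  have h2 := card_le_card h1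
  rw [card_insert_of_notMem (fun h' => a.P2 (mem_inter.mp h').1 hx)] at h2
  have := a.two
  omega

/-- (N3) -/
lemma n3 {x : V} (hx : x ∈ Xt N d T2) :
    ∃ w ∈ Xt N d T1, ∀ y, y ∉ T2 → y ≠ x → y ∉ P → y ∈ N w := by
  have h := a.h
  have hxX := h.Xt_sub' hx
  obtain ⟨t, ht, htx, htu, -⟩ := h.n1 a.thin hx
  obtain ⟨R, hR, h1, h2⟩ := h.b.T t z
  obtain ⟨hxR, h3⟩ := h.n2 a.thin hxX ht htx hR h1
  have hPR : ∀ y ∈ P, y ∉ R := fun y hy h' => nin h2 h' (a.hPz hy)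
  have h4 := a.three_out hx hxR hPR
  have h5 := card_sdiff_add_card_inter (XX N d) R
  have h6 := h.xcard
  have hK := h.b.hK
  have hdR : d ∈ R := by
    rcases h3 with rfl | h3 | h3
    · exact absurd (h.b.refl z) (nin h2 a.hz)
    · exfalso
      have h7 : P ∪ R ⊆ (T1 ∪ XX N d).erase x := by
        intro y hy
        rw [mem_erase]
        rcases mem_union.mp hy with hy | hy
        · refine ⟨?_, a.hP.sub hy⟩
          rintro rfl
          exact a.P2 hy hx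
        · refine ⟨?_, h3.sub hy⟩
          rintro rfl
          exact hxR hy
      have h8 := card_le_card h7
      rw [card_union_of_disjoint (disjoint_left.mpr hPR), a.hP.sr.1, hR.1,
        card_erase_of_mem (mem_union_right _ hxX)] at h8
      have h9 := card_union_le T1 (XX N d)
      have := h.s1.1
      omega
    · exact h3
  have hR2 : ∀ y ∈ R, y ∉ T2 := by
    intro y hy hy2
    obtain ⟨w, -, -, -, h7⟩ := h.exc a.thin a.nb hR hdR hy hy2
    omega
  obtain ⟨hRc, k, hk, hRk⟩ := hR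
  have hkT : ∃ u ∈ N k, u ∈ T1 := by
    by_contra hcon
    push Not at hcon
    have h7 : R ⊆ insert d (XX N d ∩ R) := by
      intro u hu
      rcases h.cov u with rfl | h' | h' | h'
      · exact mem_insert_self _ _
      · exact mem_insert_of_mem (mem_inter.mpr ⟨h', hu⟩)
      · exact absurd h' (hcon u (hRk hu))
      · exact absurd h' (hR2 u hu)
    have h8 := card_le_card h7
    have h9 := card_insert_le d (XX N d ∩ R)
    omega
  have hk1 : k ∈ Xt N d T1 := by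
    obtain ⟨u, hu, hu'⟩ := hkT
    rcases h.cov k with rfl | h' | h' | h'
    · exact absurd hu (nin h.d1 hu')
    · exact h.mem_Xt.mpr ⟨h', u, hu, hu'⟩
    · exact absurd (h.b.symm _ _ (hRk hdR)) (nin h.d1 h')
    · exact absurd h' (hR2 k hk)
  refine ⟨k, hk1, ?_⟩
  have hM : R = ((T2ᶜ).erase x) \ P := by
    apply eq_of_subset_of_card_le
    · intro y hy
      rw [mem_sdiff, mem_erase, mem_compl]
      refine ⟨⟨?_, hR2 y hy⟩, fun h' => hPR y h' hy⟩
      rintro rfl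
      exact hxR hy
    · have h7 : P ⊆ (T2ᶜ).erase x := by
        intro y hy
        rw [mem_erase, mem_compl]
        refine ⟨?_, h.q_no2 a.hP hy⟩
        rintro rfl
        exact a.P2 hy hx
      rw [card_sdiff_of_subset h7, card_erase_of_mem (mem_compl.mpr (h.x2 hxX)), card_compl,
        h.b.card, h.s2.1, a.hP.sr.1, hRc]
      omega
  intro y hy1 hy2 hy3
  apply hRk
  rw [hM, mem_sdiff, mem_erase, mem_compl]
  exact ⟨⟨hy2, hy1⟩, hy3⟩

/-- (N4) -/
lemma n4 {x : V} (hx : x ∈ Xt N d T2) : Disjoint P (N x) := by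
  have h := a.h
  have hxX := h.Xt_sub' hx
  obtain ⟨w, hw, hwM⟩ := a.n3 hx
  obtain ⟨Z, hZ, h1, h2⟩ := h.b.T x w
  have hdZ : d ∉ Z := fun h' => nin h1 h' (h.xd hxX)
  rcases h.cls hZ hdZ with rfl | rfl | rfl | hq | hq
  · obtain ⟨-, u, hu, hu'⟩ := h.mem_Xt.mp hw
    exact absurd hu (nin h2 hu')
  · obtain ⟨-, u, hu, hu'⟩ := h.mem_Xt'.mp hx
    exact absurd hu (nin h1 hu')
  · exact absurd (h.b.refl x) (nin h1 hxX)
  · have h3 : Z = P := by
      apply eq_of_subset_of_card_le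
      · intro y hy
        by_contra hyP
        refine nin h2 hy (hwM y (h.q_no2 hq hy) ?_ hyP)
        rintro rfl
        exact nin h1 hy (h.b.refl _)
      · rw [a.hP.sr.1, hZ.1]
    rw [← h3]
    exact h1
  · exfalso
    obtain ⟨y, hy, hy2⟩ := h.q_x2 hq
    refine nin h2 hy (hwM y (h.x2 (h.Xt_sub' hy2)) ?_ (fun h' => a.P2 h' hy2))
    rintro rfl
    exact nin h1 hy (h.b.refl _)

/-- (N5) -/
lemma n5 {x t : V} (hx : x ∈ Xt N d T2) (ht : t ∈ T2) (htx : t ∈ N x) {R : Finset V}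
    (hR : Sr N K R) (hRt : Disjoint R (N t)) : ∀ y ∈ R, y ∉ T2 ∧ y ≠ x := by
  have h := a.h
  have hxX := h.Xt_sub' hx
  obtain ⟨hxR, h3⟩ := h.n2 a.thin hxX ht htx hR hRt
  intro y hy
  refine ⟨fun hy2 => ?_, ?_⟩
  · rcases h3 with rfl | h3 | h3
    · exact h.t12 hy hy2
    · exact h.q_no2 h3 hy hy2
    · obtain ⟨w, hw, hwR, hNw, h7⟩ := h.exc a.thin a.nb hR h3 hy hy2
      have h4 := a.three_out hx hxR (fun y hy h' => nin (a.n4 hw) hy (by rw [hNw]; exact h'))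
      omega
  · rintro rfl
    exact hxR hy

/-- (N5), the complementary star. -/
lemma n5c {x t : V} (hx : x ∈ Xt N d T2) (ht : t ∈ T2) (htx : t ∈ N x) {R : Finset V} {c : V}
    (hR : R.card = K) (hRM : ∀ y ∈ R, y ∉ T2 ∧ y ≠ x) (hRc : R ⊆ N c) :
    Sr N K (((T2ᶜ).erase x) \ R) ∧ ∀ y ∈ N c, y ∉ T2 → y ≠ x → y ∈ R := by
  have h := a.h
  have hxX := h.Xt_sub' hx
  have hK := h.b.hK
  obtain ⟨R', hR', h1, h2⟩ := h.b.T t c
  have h3 := a.n5 hx ht htx hR' h1
  have hsub : R ⊆ (T2ᶜ).erase x := by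
    intro y hy
    rw [mem_erase, mem_compl]
    exact ⟨(hRM y hy).2, (hRM y hy).1⟩
  have h4 : R' = ((T2ᶜ).erase x) \ R := by
    apply eq_of_subset_of_card_le
    · intro y hy
      rw [mem_sdiff, mem_erase, mem_compl]
      exact ⟨⟨(h3 y hy).2, (h3 y hy).1⟩, fun h' => nin h2 hy (hRc h')⟩
    · rw [card_sdiff_of_subset hsub, card_erase_of_mem (mem_compl.mpr (h.x2 hxX)), card_compl,
        h.b.card, h.s2.1, hR, hR'.1]
      omega
  refine ⟨h4 ▸ hR', fun y hy hy1 hy2 => ?_⟩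
  by_contra hyR
  have : y ∈ R' := by
    rw [h4, mem_sdiff, mem_erase, mem_compl]
    exact ⟨⟨hy2, hy1⟩, hyR⟩
  exact nin h2 this hy

/-- **Lemma N.** -/
theorem false : False := by
  have h := a.h
  have hK := h.b.hK
  obtain ⟨x, hx⟩ := h.swap.x1ne
  obtain ⟨x', hx', hne⟩ := h.other hx
  have hxX := h.Xt_sub' hx
  obtain ⟨t, ht, htx, htu, -⟩ := h.n1 a.thin hx
  obtain ⟨v, hv⟩ : (P ∩ XX N d).Nonempty := by
    rw [← card_pos]
    have := a.two
    omega
  obtain ⟨hvP, hvX⟩ := mem_inter.mp hv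
  obtain ⟨R, hR, h1, h2⟩ := h.b.T t v
  have h3 := a.n5 hx ht htx hR h1
  have hdR : d ∉ R := fun h' => nin h2 h' (h.xd hvX)
  have hxR : x ∉ R := fun h' => (h3 x h').2 rfl
  -- a centre of `R` in `T1`
  have hc : ∃ k ∈ T1, R ⊆ N k := by
    obtain ⟨-, h4⟩ := h.n2 a.thin hxX ht htx hR h1
    rcases h4 with rfl | h4 | h4
    · obtain ⟨-, c, hc, hT⟩ := h.s1
      exact ⟨c, hc, hT⟩
    · obtain ⟨-, c, hc, hRc⟩ := hR
      rcases h.qcen h4 hc with h' | h'
      · exact ⟨c, h', hRc⟩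
      · exact absurd (h.a1 ⟨h4, hc, h', hRc⟩ hx) hxR
    · exact absurd h4 hdR
  obtain ⟨k, hk, hRk⟩ := hc
  have hx'R : x' ∉ R := fun h' =>
    nin (h.x2T1 hx') (h.b.symm _ _ (hRk h')) hk
  obtain ⟨⟨hRs, w, hw, hRw⟩, h6⟩ := a.n5c hx ht htx hR.1 h3 hRk
  obtain ⟨h7, hwR⟩ := mem_sdiff.mp hw
  obtain ⟨hwx, hwT⟩ := mem_erase.mp h7
  rw [mem_compl] at hwT
  have hd' : d ∈ N w := by
    apply hRw
    rw [mem_sdiff, mem_erase, mem_compl]
    exact ⟨⟨(h.xne hxX).symm, h.dT2⟩, hdR⟩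
  have hx'w : x' ∈ N w := by
    apply hRw
    rw [mem_sdiff, mem_erase, mem_compl]
    exact ⟨⟨hne, h.x2 (h.Xt_sub' hx')⟩, hx'R⟩
  have hPM : ∀ y ∈ P, y ∉ T2 ∧ y ≠ x := by
    intro y hy
    refine ⟨h.q_no2 a.hP hy, ?_⟩
    rintro rfl
    exact a.P2 hy hx
  have hzw : z ∉ N w := by
    intro hzw
    have hwz := h.b.symm _ _ hzw
    obtain ⟨-, h8⟩ := a.n5c hx ht htx a.hP.sr.1 hPM a.hPz
    have hwP := h8 w hwz hwT hwx
    exact nin (a.n4 hx') hwP (h.b.symm _ _ hx'w)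
  have hzR : z ∈ R := by
    by_contra hcon
    apply hzw
    apply hRw
    rw [mem_sdiff, mem_erase, mem_compl]
    refine ⟨⟨?_, h.t12 a.hz⟩, hcon⟩
    rintro rfl
    exact h.t1X a.hz hxX
  exact nin h2 hzR (h.b.symm _ _ (a.hPz hvP))

end LN

end Pool.Agent.Star.BaseAA
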