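import Pool.Agent.Star.BaseAA3

/-!
# Type AA: both sides thin, and the beta with one vertex outside
-/

set_option autoImplicit false
set_option linter.unusedSectionVars false
set_option linter.unusedVariables false

namespace Pool.Agent.Star.BaseAA

open Finset

variable {V : Type*} [Fintype V] [DecidableEq V] {N : V → Finset V} {K : ℕ}

namespace Tw

variable {d : V} {T1 T2 : Finset V} (h : Tw N K d T1 T2)
include h

lemma keyA (nb1 : ∀ Q w, ¬ Bt N K d T1 Q w) (nb2 : ∀ Q w, ¬ Bt N K d T2 Q w)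
    (th1 : ∀ q, Qm N K d T1 q → (T1 \ q).card ≤ 1) (th2 : ∀ q, Qm N K d T2 q → (T2 \ q).card ≤ 1)
    {x1 x2 : V} (hx1 : x1 ∈ Xt N d T1) (hx2 : x2 ∈ Xt N d T2) :
    ∃ w, (w ∈ Xt N d T1 ∨ w ∈ Xt N d T2) ∧ ∀ y ∈ XX N d, (y ∉ N w ↔ y = x1 ∨ y = x2) := by
  have hK := h.b.hK
  have hX1 := h.Xt_sub hx1
  have hX2 := h.Xt_sub' hx2
  have hne : x1 ≠ x2 := by
    rintro rfl
    exact h.x1x2 hx1 hx2
  obtain ⟨t1, ht1, htx1, -, -⟩ := h.swap.n1 th1 hx1
  obtain ⟨t2, ht2, htx2, -, -⟩ := h.n1 th2 hx2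
  obtain ⟨R, hR, h1, h2⟩ := h.b.T t1 t2
  obtain ⟨hx2R, h3⟩ := h.n2 th2 hX2 ht2 htx2 hR h2
  obtain ⟨hx1R, h4⟩ := h.swap.n2 th1 hX1 ht1 htx1 hR h1
  have hdR : d ∈ R := by
    by_contra hd
    have h5 : ∃ u ∈ R, u ∈ T1 := by
      rcases h3 with rfl | h3 | h3
      · obtain ⟨u, hu⟩ := h.sr_ne hR
        exact ⟨u, hu, hu⟩
      · exact h3.t
      · exact absurd h3 hd
    obtain ⟨u, hu, hu'⟩ := h5
    rcases h4 with rfl | h4 | h4
    · exact h.t12 hu' hu
    · exact h.swap.q_no2 h4 hu hu'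
    · exact hd h4
  have fin : ∀ w : V, N w = R → (XX N d \ R).card ≤ 2 →
      ∀ y ∈ XX N d, (y ∉ N w ↔ y = x1 ∨ y = x2) := by
    intro w hw hc y hy
    have h5 : ({x1, x2} : Finset V) ⊆ XX N d \ R := by
      intro u hu
      rcases mem_insert.mp hu with rfl | hu
      · exact mem_sdiff.mpr ⟨hX1, hx1R⟩
      · rw [mem_singleton] at hu
        subst hu
        exact mem_sdiff.mpr ⟨hX2, hx2R⟩
    have h6 : ({x1, x2} : Finset V) = XX N d \ R := by
      apply eq_of_subset_of_card_le h5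
      rw [card_pair hne]
      exact hc
    have h7 : y ∈ ({x1, x2} : Finset V) ↔ y ∈ XX N d \ R := by rw [h6]
    rw [mem_insert, mem_singleton, mem_sdiff] at h7
    rw [hw]
    tauto
  by_cases hR2 : ∃ u ∈ R, u ∈ T2
  · obtain ⟨u, hu, hu'⟩ := hR2
    obtain ⟨w, hw, -, hNw, hc⟩ := h.exc th2 nb2 hR hdR hu hu'
    exact ⟨w, Or.inr hw, fin w hNw hc⟩
  · by_cases hR1 : ∃ u ∈ R, u ∈ T1
    · obtain ⟨u, hu, hu'⟩ := hR1
      obtain ⟨w, hw, -, hNw, hc⟩ := h.swap.exc th1 nb1 hR hdR hu hu'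
      exact ⟨w, Or.inl hw, fin w hNw hc⟩
    · exfalso
      have h5 : R ⊆ insert d (((XX N d).erase x1).erase x2) := by
        intro u hu
        rcases h.cov u with rfl | h' | h' | h'
        · exact mem_insert_self _ _
        · apply mem_insert_of_mem
          rw [mem_erase, mem_erase]
          refine ⟨?_, ?_, h'⟩
          · rintro rfl
            exact hx2R hu
          · rintro rfl
            exact hx1R hu
        · exact absurd ⟨u, hu, h'⟩ hR1
        · exact absurd ⟨u, hu, h'⟩ hR2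
      have h6 := card_le_card h5
      have h7 := card_insert_le d (((XX N d).erase x1).erase x2)
      rw [card_erase_of_mem (mem_erase.mpr ⟨hne.symm, hX2⟩), card_erase_of_mem hX1, h.xcard] at h7
      rw [hR.1] at h6
      omega

lemma auxA (key : ∀ x1 ∈ Xt N d T1, ∀ x2 ∈ Xt N d T2,
      ∃ w, (w ∈ Xt N d T1 ∨ w ∈ Xt N d T2) ∧ ∀ y ∈ XX N d, (y ∉ N w ↔ y = x1 ∨ y = x2))
    {x1 x2 w : V} (hx1 : x1 ∈ Xt N d T1) (hx2 : x2 ∈ Xt N d T2) (hw : w ∈ Xt N d T1)
    (hN : ∀ y ∈ XX N d, (y ∉ N w ↔ y = x1 ∨ y = x2)) : False := by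
  have hX1 := h.Xt_sub hx1
  have hX2 := h.Xt_sub' hx2
  have hwX := h.Xt_sub hw
  have hx1w : x1 ∉ N w := (hN x1 hX1).mpr (Or.inl rfl)
  have hx2w : x2 ∉ N w := (hN x2 hX2).mpr (Or.inr rfl)
  have hne : x1 ≠ w := fun h' => hx1w (h' ▸ h.b.refl w)
  obtain ⟨y2, hy2, hyne⟩ := h.other hx2
  have hY2 := h.Xt_sub' hy2
  -- the vertex of the pair `(w, x2)`
  obtain ⟨w', hw'X, hw'⟩ := key w hw x2 hx2
  have hw'XX : w' ∈ XX N d := hw'X.elim h.Xt_sub h.Xt_sub'
  have h1 : w' ∉ N w := fun h' => (hw' w hwX).mpr (Or.inl rfl) (h.b.symm _ _ h')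
  have h2 : w' = x1 := by
    rcases (hN w' hw'XX).mp h1 with h' | h'
    · exact h'
    · exact absurd (h.b.refl w') ((hw' w' hw'XX).mpr (Or.inr h'))
  subst h2
  -- the vertex of the pair `(w, y2)`
  obtain ⟨w'', hw''X, hw''⟩ := key w hw y2 hy2
  have hw''XX : w'' ∈ XX N d := hw''X.elim h.Xt_sub h.Xt_sub'
  have h3 : w'' ∉ N w := fun h' => (hw'' w hwX).mpr (Or.inl rfl) (h.b.symm _ _ h')
  rcases (hN w'' hw''XX).mp h3 with h' | h'
  · subst h'
    have h4 : y2 ∉ N w'' := (hw'' y2 hY2).mpr (Or.inr rfl)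
    rcases (hw' y2 hY2).mp h4 with h5 | h5
    · subst h5
      exact h.x1x2 hw hy2
    · exact hyne h5
  · subst h'
    have h4 : w'' ∉ N w' := (hw' w'' hX2).mpr (Or.inr rfl)
    have h5 : w' ∉ N w'' := fun h' => h4 (h.b.symm _ _ h')
    rcases (hw'' w' hX1).mp h5 with h6 | h6
    · exact hne h6
    · subst h6
      exact h.x1x2 hx1 hy2

/-- **Lemma A.** -/
theorem lemmaA (nb1 : ∀ Q w, ¬ Bt N K d T1 Q w) (nb2 : ∀ Q w, ¬ Bt N K d T2 Q w)
    (th1 : ∀ q, Qm N K d T1 q → (T1 \ q).card ≤ 1)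
    (th2 : ∀ q, Qm N K d T2 q → (T2 \ q).card ≤ 1) : False := by
  obtain ⟨x1, hx1⟩ := h.x1ne
  obtain ⟨x2, hx2⟩ := h.swap.x1ne
  obtain ⟨w, hw, hN⟩ := h.keyA nb1 nb2 th1 th2 hx1 hx2
  rcases hw with hw | hw
  · exact h.auxA (fun a ha b hb => h.keyA nb1 nb2 th1 th2 ha hb) hx1 hx2 hw hN
  · refine h.swap.auxA (fun a ha b hb => ?_) hx2 hx1 hw (fun y hy => ?_)
    · obtain ⟨v, hv, hv'⟩ := h.keyA nb1 nb2 th1 th2 hb ha
      exact ⟨v, hv.symm, fun y hy => by rw [hv' y hy, or_comm]⟩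
    · rw [hN y hy, or_comm]

end Tw

/-- The situation of Lemma B1. -/
structure LB (N : V → Finset V) (K : ℕ) (d : V) (T1 T2 Q : Finset V) (w p y : V) : Prop where
  h : Tw N K d T1 T2
  hb : Bt N K d T1 Q w
  pT : p ∈ T1
  pQ : p ∈ Q
  pu : ∀ u ∈ T1, u ∈ Q → u = p
  yX : y ∈ XX N d
  yQ : y ∉ Q
  yu : ∀ u ∈ XX N d, u ∉ Q → u = y

namespace LB

variable {d w p y : V} {T1 T2 Q : Finset V} (a : LB N K d T1 T2 Q w p y)
include a

lemma y1 : y ∈ Xt N d T1 := a.h.a2x a.hb a.yX a.yQ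

lemma w1 : w ∈ Xt N d T1 := a.h.bt_x1 a.hb

lemma wy : w ≠ y := by
  intro h'
  exact a.yQ (h' ▸ a.hb.wp)

lemma X2 {x : V} (hx : x ∈ Xt N d T2) : x ∈ Q ∧ x ≠ w ∧ x ≠ y := by
  refine ⟨a.h.a1 a.hb hx, ?_, ?_⟩
  · rintro rfl
    exact a.h.x1x2 a.w1 hx
  · rintro rfl
    exact a.h.x1x2 a.y1 hx

lemma yP : y ∈ (T1 ∪ XX N d) \ Q := mem_sdiff.mpr ⟨mem_union_right _ a.yX, a.yQ⟩

/-- `T2 ∪ X2` is not adjacent to `T1 + y`. -/
lemma far {u x : V} (hu : u ∈ insert y T1) (hx : x ∈ T2 ∨ x ∈ Xt N d T2) : x ∉ N u := by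
  intro hxu
  rcases mem_insert.mp hu with rfl | hu
  · rcases hx with hx | hx
    · exact nin (a.h.x1T2 a.y1) hxu hx
    · exact nin (a.h.a2n a.hb hx) (a.h.b.symm _ _ hxu) a.yP
  · rcases a.h.nT1 hu hxu with h1 | h1 <;> rcases hx with hx | hx
    · exact a.h.t12 h1 hx
    · exact a.h.t1X h1 (a.h.Xt_sub' hx)
    · exact a.h.x2 (a.h.Xt_sub h1) hx
    · exact a.h.x1x2 h1 hx

lemma Ucard : (insert y T1).card = K + 1 := by
  rw [card_insert_of_notMem (a.h.x1 a.yX), a.h.s1.1]

/-- A crossing star set on the other side with its centre. -/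
lemma exq : ∃ q z, Qm N K d T2 q ∧ z ∈ T2 ∧ z ∈ q ∧ q ⊆ N z := by
  have h := a.h
  obtain ⟨x, hx⟩ := h.swap.x1ne
  obtain ⟨q, hq, -⟩ := h.three hx
  obtain ⟨-, z, hz, hqz⟩ := hq.sr
  exact ⟨q, z, hq, h.swap.qcenT (h.a3 a.hb) hq hz hqz, hz, hqz⟩

/-- (B1.1) -/
lemma b11 {u : V} (hu : u ∈ insert y T1) (hh : (N u).card = K + 1) : N u = insert y T1 := by
  have h := a.h
  obtain ⟨q, z, hq, hz, hzq, hqz⟩ := a.exq
  have hq2 : ∀ x ∈ q, x ∈ T2 ∨ x ∈ Xt N d T2 := fun x hx => h.nT2 hz (hqz hx)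
  have h1 : Disjoint q (N u) := disjoint_left.mpr fun x hx hx' => a.far hu (hq2 x hx) hx'
  obtain ⟨⟨-, k, hk, hrk⟩, -⟩ := h.b.comp hh hq.sr.1 hzq hqz h1
  symm
  apply eq_of_subset_of_card_le
  · intro u' hu'
    by_contra hcon
    have h2 : u' ∉ q := fun h' => a.far hu' (hq2 u' h') (h.b.refl u')
    have h3 : u' ∈ N k := by
      apply hrk
      rw [mem_compl, mem_union]
      tauto
    obtain ⟨v, hv, hvq⟩ := h.swap.q_T1 hq
    have h4 : v ∈ N k := by
      apply hrk
      rw [mem_compl, mem_union]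
      push Not
      exact ⟨a.far hu (Or.inl hv), hvq⟩
    exact a.far hu' (h.nT2 hv (h.b.symm _ _ h4)) (h.b.symm _ _ h3)
  · rw [a.Ucard, hh]

lemma wp : w ∈ N p := a.h.b.symm _ _ (a.hb.sub a.pQ)

lemma wU : w ∉ insert y T1 := by
  rw [mem_insert]
  push Not
  exact ⟨a.wy, a.h.x1 a.hb.wx⟩

lemma p_low : (N p).card ≤ K := by
  by_contra hcon
  have h1 := a.h.b.card_le p
  have h2 := a.b11 (mem_insert_of_mem a.pT) (by omega)
  exact a.wU (h2 ▸ a.wp)

lemma y_low : (N y).card ≤ K := by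
  by_contra hcon
  have h1 := a.h.b.card_le y
  have h2 := a.b11 (mem_insert_self _ _) (by omega)
  have h3 : d ∈ insert y T1 := h2 ▸ a.h.xd a.yX
  rcases mem_insert.mp h3 with h4 | h4
  · exact a.h.xne a.yX h4.symm
  · exact a.h.dT1 h4

/-- The middle vertices. -/
lemma mid {k : V} (hk : k ∈ XX N d) (hk2 : k ∉ Xt N d T2) (hc : (N k).card = K + 1) :
    Xt N d T2 ⊆ N k := by
  have h := a.h
  have h1 : k ∈ (N k).erase d := mem_erase.mpr ⟨h.xne hk, h.b.refl k⟩
  have h2 : Sr N K ((N k).erase d) := by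
    refine ⟨?_, k, h1, erase_subset _ _⟩
    rw [card_erase_of_mem (h.xd hk), hc]
    rfl
  intro x hx
  have h3 : x ∈ (N k).erase d := by
    rcases h.cls h2 (notMem_erase _ _) with h' | h' | h' | h' | h'
    · rw [h'] at h1
      exact absurd h1 (h.x1 hk)
    · rw [h'] at h1
      exact absurd h1 (h.x2 hk)
    · rw [h']
      exact h.Xt_sub' hx
    · exact h.a1 ⟨h', h1, hk, erase_subset _ _⟩ hx
    · obtain ⟨u, hu, hu'⟩ := h'.t
      exact absurd (h.mem_Xt'.mpr ⟨hk, u, mem_of_mem_erase hu, hu'⟩) hk2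
  exact mem_of_mem_erase h3

/-- The vertices of `X` outside `X2`, different from `w` and `y`, are adjacent to `w`. -/
lemma kw {k : V} (hk : k ∈ XX N d) (hky : k ≠ y) : w ∈ N k := by
  apply a.h.b.symm
  apply a.hb.sub
  by_contra hcon
  exact hky (a.yu k hk hcon)

lemma q2 {q : Finset V} {z : V} (hz : z ∈ T2) (hqz : q ⊆ N z) :
    ∀ x ∈ q, x ∈ T2 ∨ x ∈ ((XX N d).erase y).erase w := by
  intro x hx
  rcases a.h.nT2 hz (hqz hx) with h' | h'
  · exact Or.inl h'
  · right
    obtain ⟨-, h2, h3⟩ := a.X2 h'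
    rw [mem_erase, mem_erase]
    exact ⟨h2, h3, a.h.Xt_sub' h'⟩

/-- (B1.2) -/
lemma b12 {q m : Finset V} {z k : V} (hq : Qm N K d T2 q) (hz : z ∈ T2) (hqz : q ⊆ N z)
    (hm : m.card = K) (hk : k ∈ m) (hmk : m ⊆ N k) (hmp : Disjoint m (N p))
    (hmz : Disjoint m (N z)) : k ∈ insert y T1 := by
  have h := a.h
  have hK := h.b.hK
  have hX := h.xcard
  have hwm : w ∉ m := fun h' => nin hmp h' a.wp
  have hqm : Disjoint q m := disjoint_left.mpr fun x hx hx' => nin hmz hx' (hqz hx)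
  obtain ⟨x2, hx2q, hx2⟩ := h.q_x2 hq
  obtain ⟨-, hx2w, hx2y⟩ := a.X2 hx2
  have hx2m : x2 ∉ m := nin hqm hx2q
  have hq2 := a.q2 hz hqz
  by_contra hkU
  rw [mem_insert] at hkU
  push Not at hkU
  obtain ⟨hky, hkT⟩ := hkU
  -- the bound for neighbourhoods on the other side
  have side : (∀ x ∈ N k, x = d ∨ x ∈ T2 ∨ x ∈ (XX N d).erase y) → False := by
    intro hN
    have h1 : q ∪ m ⊆ insert d (T2 ∪ ((XX N d).erase y).erase w) := by
      intro x hx
      rw [mem_insert, mem_union]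
      rcases mem_union.mp hx with hx | hx
      · exact Or.inr (hq2 x hx)
      · rcases hN x (hmk hx) with h' | h' | h'
        · exact Or.inl h'
        · exact Or.inr (Or.inl h')
        · right; right
          rw [mem_erase]
          refine ⟨?_, h'⟩
          rintro rfl
          exact hwm hx
    have h2 := card_le_card h1
    rw [card_union_of_disjoint hqm, hq.sr.1, hm] at h2
    have h3 := card_insert_le d (T2 ∪ ((XX N d).erase y).erase w)
    have h4 := card_union_le T2 (((XX N d).erase y).erase w)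
    rw [card_erase_of_mem (mem_erase.mpr ⟨a.wy, a.hb.wx⟩), card_erase_of_mem a.yX, h.s2.1] at h4
    omega
  rcases h.cov k with rfl | h' | h' | h'
  · have h1 : m ⊆ ((N k).erase w).erase x2 := by
      intro x hx
      rw [mem_erase, mem_erase]
      refine ⟨?_, ?_, hmk hx⟩
      · rintro rfl
        exact hx2m hx
      · rintro rfl
        exact hwm hx
    have h2 := card_le_card h1
    rw [card_erase_of_mem (mem_erase.mpr ⟨hx2w, h.xN (h.Xt_sub' hx2)⟩),
      card_erase_of_mem (h.xN a.hb.wx), h.hd, hm] at h2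
    omega
  · by_cases hk2 : k ∈ Xt N d T2
    · apply side
      intro x hx
      rcases h.cov x with h1 | h1 | h1 | h1
      · exact Or.inl h1
      · right; right
        rw [mem_erase]
        refine ⟨?_, h1⟩
        rintro rfl
        exact nin (h.a2n a.hb hk2) hx a.yP
      · exact absurd h1 (nin (h.x2T1 hk2) hx)
      · exact Or.inr (Or.inl h1)
    · have h1 : w ∈ N k := a.kw h' hky
      have h2 : insert w m = N k := by
        apply eq_of_subset_of_card_le
        · intro x hx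
          rcases mem_insert.mp hx with rfl | hx
          · exact h1
          · exact hmk hx
        · rw [card_insert_of_notMem hwm, hm]
          exact h.b.card_le k
      have h3 : (N k).card = K + 1 := by
        rw [← h2, card_insert_of_notMem hwm, hm]
      have h4 := a.mid h' hk2 h3 hx2
      rw [← h2] at h4
      rcases mem_insert.mp h4 with h5 | h5
      · exact hx2w h5
      · exact hx2m h5
  · exact hkT h'
  · apply side
    intro x hx
    rcases h.nT2 h' hx with h1 | h1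
    · exact Or.inr (Or.inl h1)
    · right; right
      rw [mem_erase]
      exact ⟨(a.X2 h1).2.2, h.Xt_sub' h1⟩

/-- The same for `y`. -/
lemma b15 {q m : Finset V} {z k : V} (hq : Qm N K d T2 q) (hz : z ∈ T2) (hqz : q ⊆ N z)
    (hm : m.card = K) (hk : k ∈ m) (hmk : m ⊆ N k) (hmy : Disjoint m (N y))
    (hmz : Disjoint m (N z)) : k ∈ T1 := by
  have h := a.h
  have hK := h.b.hK
  have hX := h.xcard
  have hdm : d ∉ m := fun h' => nin hmy h' (h.xd a.yX)
  have hym : y ∉ m := fun h' => nin hmy h' (h.b.refl y)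
  have hqm : Disjoint q m := disjoint_left.mpr fun x hx hx' => nin hmz hx' (hqz hx)
  obtain ⟨x2, hx2q, hx2⟩ := h.q_x2 hq
  obtain ⟨hx2Q, hx2w, hx2y⟩ := a.X2 hx2
  have hx2m : x2 ∉ m := nin hqm hx2q
  have hq2 := a.q2 hz hqz
  by_contra hkT
  have side : (∀ x ∈ N k, x = d ∨ x ∈ T2 ∨ x ∈ XX N d) → False := by
    intro hN
    have h1 : q ∪ m ⊆ T2 ∪ (XX N d).erase y := by
      intro x hx
      rw [mem_union]
      rcases mem_union.mp hx with hx | hx
      · rcases hq2 x hx with h' | h'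
        · exact Or.inl h'
        · exact Or.inr (mem_of_mem_erase h')
      · rcases hN x (hmk hx) with h' | h' | h'
        · subst h'
          exact absurd hx hdm
        · exact Or.inl h'
        · right
          rw [mem_erase]
          refine ⟨?_, h'⟩
          rintro rfl
          exact hym hx
    have h2 := card_le_card h1
    rw [card_union_of_disjoint hqm, hq.sr.1, hm] at h2
    have h4 := card_union_le T2 ((XX N d).erase y)
    rw [card_erase_of_mem a.yX, h.s2.1] at h4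
    omega
  rcases h.cov k with rfl | h' | h' | h'
  · exact hdm hk
  · by_cases hk2 : k ∈ Xt N d T2
    · apply side
      intro x hx
      rcases h.cov x with h1 | h1 | h1 | h1
      · exact Or.inl h1
      · exact Or.inr (Or.inr h1)
      · exact absurd h1 (nin (h.x2T1 hk2) hx)
      · exact Or.inr (Or.inl h1)
    · have hky : k ≠ y := by
        rintro rfl
        exact hym hk
      by_cases hkw : k = w
      · subst hkw
        have h1 : m ⊆ Q.erase x2 := by
          intro x hx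
          rw [mem_erase]
          refine ⟨?_, ?_⟩
          · rintro rfl
            exact hx2m hx
          · have := hmk hx
            rw [h.bt_nbr a.hb] at this
            rcases mem_insert.mp this with h1 | h1
            · subst h1
              exact absurd hx hdm
            · exact h1
        have h2 := card_le_card h1
        rw [card_erase_of_mem hx2Q, a.hb.q.sr.1, hm] at h2
        omega
      · have h1 : d ∈ N k := h.xd h'
        have h2 : insert d m = N k := by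
          apply eq_of_subset_of_card_le
          · intro x hx
            rcases mem_insert.mp hx with rfl | hx
            · exact h1
            · exact hmk hx
          · rw [card_insert_of_notMem hdm, hm]
            exact h.b.card_le k
        have h3 : (N k).card = K + 1 := by
          rw [← h2, card_insert_of_notMem hdm, hm]
        have h4 := a.mid h' hk2 h3 hx2
        rw [← h2] at h4
        rcases mem_insert.mp h4 with h5 | h5
        · exact h.xne (h.Xt_sub' hx2) h5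
        · exact hx2m h5
  · exact hkT h'
  · apply side
    intro x hx
    rcases h.nT2 h' hx with h1 | h1
    · exact Or.inr (Or.inl h1)
    · exact Or.inr (Or.inr (h.Xt_sub' h1))

/-- **Lemma B1.** -/
theorem false : False := by
  have h := a.h
  have hK := h.b.hK
  obtain ⟨q, z, hq, hz, hzq, hqz⟩ := a.exq
  obtain ⟨m, ⟨hm, k, hk, hmk⟩, hmp, hmz⟩ := h.b.T p z
  have hkU := a.b12 hq hz hqz hm hk hmk hmp hmz
  -- (B1.3)
  have low : ∀ u ∈ insert y T1, (N u).card ≤ K := by
    intro u hu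
    by_contra hcon
    have h1 := h.b.card_le u
    have h2 := a.b11 hu (by omega)
    have h3 : p ∈ N u := by
      rw [h2]
      exact mem_insert_of_mem a.pT
    have h4 : u ∉ m := fun h' => nin hmp h' (h.b.symm _ _ h3)
    have h5 : k ∈ N u := by
      rw [h2]
      exact hkU
    have h6 : insert u m ⊆ N k := by
      intro x hx
      rcases mem_insert.mp hx with rfl | hx
      · exact h.b.symm _ _ h5
      · exact hmk hx
    have h7 := card_le_card h6
    rw [card_insert_of_notMem h4, hm] at h7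
    have h8 := h.b.card_le k
    have h9 := a.b11 hkU (by omega)
    have h10 : p ∈ N k := by
      rw [h9]
      exact mem_insert_of_mem a.pT
    exact nin hmp hk (h.b.symm _ _ h10)
  have eqN : ∀ u ∈ insert y T1, ∀ r : Finset V, r.card = K → r ⊆ N u → r = N u := by
    intro u hu r hr hru
    apply eq_of_subset_of_card_le hru
    rw [hr]
    exact low u hu
  -- (B1.4)
  obtain ⟨hT1, c1, hc1, hTc⟩ := h.s1
  have h1 := eqN c1 (mem_insert_of_mem hc1) T1 hT1 hTc
  obtain ⟨cP, hcP, hcPQ, hPc⟩ := h.a2 a.hb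
  have h3 := eqN k hkU m hm hmk
  have hky : k = y := by
    rcases mem_insert.mp hkU with h' | h'
    · exact h'
    · exfalso
      have h4 : c1 ∈ m := by
        rw [h3]
        exact h.b.symm _ _ (hTc h')
      exact nin hmp h4 (h.b.symm _ _ (hTc a.pT))
  subst hky
  -- (B1.5)
  obtain ⟨m', ⟨hm', k', hk', hmk'⟩, hmy', hmz'⟩ := h.b.T k z
  have hkT' := a.b15 hq hz hqz hm' hk' hmk' hmy' hmz'
  have h5 := eqN k' (mem_insert_of_mem hkT') m' hm' hmk'
  have hkp : k' = p := by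
    by_contra hne
    have h6 : k' ∈ (T1 ∪ XX N d) \ Q :=
      mem_sdiff.mpr ⟨mem_union_left _ hkT', fun h' => hne (a.pu k' hkT' h')⟩
    have h7 : cP ∈ m' := by
      rw [h5]
      exact h.b.symm _ _ (hPc h6)
    exact nin hmy' h7 (h.b.symm _ _ (hPc a.yP))
  subst hkp
  -- (B1.6)
  have h6 : N k' ∪ N k ⊆ insert d (T1 ∪ (XX N d \ Xt N d T2)) := by
    intro x hx
    rw [mem_insert, mem_union, mem_sdiff]
    rcases mem_union.mp hx with hx | hx
    · rcases h.nT1 a.pT hx with h' | h'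
      · exact Or.inr (Or.inl h')
      · exact Or.inr (Or.inr ⟨h.Xt_sub h', h.x1x2 h'⟩)
    · rcases h.cov x with h' | h' | h' | h'
      · exact Or.inl h'
      · right; right
        refine ⟨h', fun h2 => a.far (mem_insert_self _ _) (Or.inr h2) hx⟩
      · exact Or.inr (Or.inl h')
      · exact absurd hx (a.far (mem_insert_self _ _) (Or.inl h'))
  have h7 := card_le_card h6
  have h8 : Disjoint (N k') (N k) := by
    rw [← h3]
    exact hmp.symm
  rw [card_union_of_disjoint h8, ← h5, ← h3, hm, hm'] at h7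
  have h9 := card_insert_le d (T1 ∪ (XX N d \ Xt N d T2))
  have h10 := card_union_le T1 (XX N d \ Xt N d T2)
  have h11 : Xt N d T2 ⊆ XX N d := fun x hx => h.Xt_sub' hx
  rw [card_sdiff_of_subset h11, h.xcard, hT1] at h10
  have h12 : 2 ≤ (Xt N d T2).card := by
    obtain ⟨x, hx⟩ := h.swap.x1ne
    obtain ⟨x', hx', hne⟩ := h.other hx
    exact one_lt_card.mpr ⟨x, hx, x', hx', hne.symm⟩
  have h13 := card_le_card h11
  rw [h.xcard] at h13
  omega

end LB

namespace Tw

variable {d : V} {T1 T2 : Finset V} (h : Tw N K d T1 T2)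
include h

/-- Cardinalities of crossing star sets. -/
lemma q_card {p : Finset V} (hq : Qm N K d T1 p) : (p ∩ XX N d).card = (T1 \ p).card := by
  have h1 := card_sdiff_add_card_inter T1 p
  have h2 := card_sdiff_add_card_inter p (XX N d)
  have h3 : p \ XX N d = T1 ∩ p := by
    ext x
    rw [mem_sdiff, mem_inter]
    constructor
    · rintro ⟨h4, h5⟩
      rcases mem_union.mp (hq.sub h4) with h6 | h6
      · exact ⟨h6, h4⟩
      · exact absurd h6 h5
    · rintro ⟨h4, h5⟩
      exact ⟨h5, h.t1X h4⟩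
  rw [h3, hq.sr.1] at h2
  rw [h.s1.1] at h1
  omega

/-- Lemma N for an alpha which is not thin. -/
lemma fat (nb2 : ∀ Q w, ¬ Bt N K d T2 Q w) {P : Finset V} (hP : Qm N K d T1 P) {z : V}
    (hz : z ∈ T1) (hPz : P ⊆ N z) (h2 : 2 ≤ (T1 \ P).card) : False := by
  have h3 : LN N K d T1 T2 P z := by
    refine ⟨h, nb2, ?_, hP, hz, hPz, ?_⟩
    · intro q hq
      obtain ⟨-, c, hc, hqc⟩ := hq.sr
      have h4 := h.swap.qcenT nb2 hq hc hqc
      rcases h.a4 hP hq hz hPz h4 hqc with h5 | h5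
      · omega
      · exact h5
    · rw [h.q_card hP]
      exact h2
  exact h3.false

/-- A beta is impossible. -/
lemma noBeta {Q : Finset V} {w : V} (hb : Bt N K d T1 Q w) : False := by
  have h1 : (T1 ∩ Q).Nonempty := by
    obtain ⟨u, hu, hu'⟩ := hb.q.t
    exact ⟨u, mem_inter.mpr ⟨hu', hu⟩⟩
  by_cases h2 : (T1 ∩ Q).card = 1
  · obtain ⟨p, hp⟩ := card_eq_one.mp h2
    have h3 := h.q_card hb.q
    have h4 := card_sdiff_add_card_inter T1 Q
    have h5 := card_sdiff_add_card_inter (XX N d) Q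
    rw [inter_comm] at h3
    rw [h.s1.1] at h4
    rw [h.xcard] at h5
    have h6 : (XX N d \ Q).card = 1 := by omega
    obtain ⟨y, hy⟩ := card_eq_one.mp h6
    have hp' : p ∈ T1 ∩ Q := hp ▸ mem_singleton_self p
    have hy' : y ∈ XX N d \ Q := hy ▸ mem_singleton_self y
    have : LB N K d T1 T2 Q w p y := by
      refine ⟨h, hb, (mem_inter.mp hp').1, (mem_inter.mp hp').2, ?_, (mem_sdiff.mp hy').1,
        (mem_sdiff.mp hy').2, ?_⟩
      · intro u hu hu'
        have : u ∈ T1 ∩ Q := mem_inter.mpr ⟨hu, hu'⟩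
        rw [hp] at this
        exact mem_singleton.mp this
      · intro u hu hu'
        have : u ∈ XX N d \ Q := mem_sdiff.mpr ⟨hu, hu'⟩
        rw [hy] at this
        exact mem_singleton.mp this
    exact this.false
  · obtain ⟨z, hz, hzQ, hPz⟩ := h.a2 hb
    refine h.fat (h.a3 hb) (h.a2q hb) hz hPz ?_
    have h3 : T1 \ ((T1 ∪ XX N d) \ Q) = T1 ∩ Q := by
      ext x
      rw [mem_sdiff, mem_sdiff, mem_inter, mem_union]
      tauto
    rw [h3]
    have := card_pos.mpr h1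
    omega

/-- **Type AA is impossible.** -/
theorem false : False := by
  have nb1 : ∀ Q w, ¬ Bt N K d T1 Q w := fun Q w hb => h.noBeta hb
  have nb2 : ∀ Q w, ¬ Bt N K d T2 Q w := fun Q w hb => h.swap.noBeta hb
  have th1 : ∀ q, Qm N K d T1 q → (T1 \ q).card ≤ 1 := by
    intro q hq
    by_contra hcon
    obtain ⟨-, c, hc, hqc⟩ := hq.sr
    exact h.fat nb2 hq (h.qcenT nb1 hq hc hqc) hqc (by omega)
  have th2 : ∀ q, Qm N K d T2 q → (T2 \ q).card ≤ 1 := by
    intro q hq
    by_contra hcon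
    obtain ⟨-, c, hc, hqc⟩ := hq.sr
    exact h.swap.fat nb1 hq (h.swap.qcenT nb2 hq hc hqc) hqc (by omega)
  exact h.lemmaA nb1 nb2 th1 th2

end Tw

/-- For every high vertex, two star sets outside are adjacent. -/
theorem edge_of_high (h : BB N K) {d : V} (hd : (N d).card = K + 1) {T1 T2 : Finset V}
    (s1 : Sr N K T1) (s2 : Sr N K T2) (d1 : Disjoint T1 (N d)) (d2 : Disjoint T2 (N d))
    (d12 : Disjoint T1 T2) : ∃ u ∈ T1, ∃ v ∈ T2, v ∈ N u := by
  by_contra hcon
  push Not at hcon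
  have : Tw N K d T1 T2 := ⟨h, hd, s1, s2, d1, d2, d12, hcon⟩
  exact this.false

end Pool.Agent.Star.BaseAA
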