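import Pool.Agent.Star.BaseAA4

/-!
# The base case with a high vertex, type B: two high vertices with one common neighbour

`c`, `d` are high and `x` is the only common closed neighbour.  `Q` is the set of vertices outside
both neighbourhoods.
-/

set_option autoImplicit false
set_option linter.unusedSectionVars false
set_option linter.unusedVariables false

namespace Pool.Agent.Star.BaseAA

open Finset

variable {V : Type*} [Fintype V] [DecidableEq V] {N : V → Finset V} {K : ℕ}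

namespace BB

variable (h : BB N K)
include h

/-- (H0) Two high vertices are never far. -/
lemma notFar {u v : V} (hu : (N u).card = K + 1) (hv : (N v).card = K + 1) :
    ∃ y, y ∈ N u ∧ y ∈ N v := by
  by_contra hcon
  push Not at hcon
  obtain ⟨p, hp, h1, h2⟩ := h.T u v
  have h3 : Disjoint (N u) (N v) := disjoint_left.mpr hcon
  have h4 : Disjoint p (N u ∪ N v) := disjoint_union_right.mpr ⟨h1, h2⟩
  have h5 := card_union_of_disjoint h4
  have h6 := card_union_of_disjoint h3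
  have h7 := card_le_univ (p ∪ (N u ∪ N v))
  have := h.card
  have := hp.1
  omega

/-- A star whose centre has a neighbour outside the star. -/
lemma plus {p : Finset V} {g y : V} (hp : p.card = K) (hpg : p ⊆ N g) (hy : y ∈ N g)
    (hyp : y ∉ p) : N g = insert y p := by
  symm
  apply eq_of_subset_of_card_le
  · intro z hz
    rcases mem_insert.mp hz with rfl | hz
    · exact hy
    · exact hpg hz
  · rw [card_insert_of_notMem hyp, hp]
    exact h.card_le g

lemma plus_high {p : Finset V} {g y : V} (hp : p.card = K) (hpg : p ⊆ N g) (hy : y ∈ N g)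
    (hyp : y ∉ p) : (N g).card = K + 1 := by
  rw [h.plus hp hpg hy hyp, card_insert_of_notMem hyp, hp]

lemma full {p : Finset V} {g : V} (hp : p.card = K) (hpg : p ⊆ N g) (hg : (N g).card ≤ K) :
    p = N g := eq_of_subset_of_card_le hpg (by rw [hp]; exact hg)

end BB

/-- Two high vertices with exactly one common closed neighbour. -/
structure HP (N : V → Finset V) (K : ℕ) (c d x : V) : Prop where
  b : BB N K
  hc : (N c).card = K + 1
  hd : (N d).card = K + 1
  xc : x ∈ N c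
  xd : x ∈ N d
  un : ∀ y, y ∈ N c → y ∈ N d → y = x

/-- The vertices outside both neighbourhoods. -/
def QQ (N : V → Finset V) (c d : V) : Finset V := (N c ∪ N d)ᶜ

lemma mem_QQ {c d y : V} : y ∈ QQ N c d ↔ y ∉ N c ∧ y ∉ N d := by
  rw [QQ, mem_compl, mem_union, not_or]

namespace HP

variable {c d x : V} (h : HP N K c d x)
include h

lemma swap : HP N K d c x := ⟨h.b, h.hd, h.hc, h.xd, h.xc, fun y hy hy' => h.un y hy' hy⟩

omit h in
lemma qswap {y : V} : y ∈ QQ N c d ↔ y ∈ QQ N d c := by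
  rw [mem_QQ, mem_QQ, and_comm]

lemma cx : c ≠ x := by
  rintro rfl
  have h1 : d = c := h.un d (h.b.symm _ _ h.xd) (h.b.refl d)
  have h2 : N c ⊆ {c} := fun y hy => mem_singleton.mpr (h.un y hy (by rw [h1]; exact hy))
  have h3 := card_le_card h2
  rw [h.hc, card_singleton] at h3
  have := h.b.hK
  omega

lemma dx : d ≠ x := h.swap.cx

lemma cd : c ∉ N d := fun h' => h.cx (h.un c (h.b.refl c) h')

lemma dc : d ∉ N c := h.swap.cd

lemma cx' : c ∈ N x := h.b.symm _ _ h.xc

lemma dx' : d ∈ N x := h.b.symm _ _ h.xd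

/-- Everything is covered. -/
lemma cov (y : V) : y = x ∨ (y ∈ N c ∧ y ≠ x ∧ y ∉ N d) ∨ (y ∈ N d ∧ y ≠ x ∧ y ∉ N c) ∨
    y ∈ QQ N c d := by
  by_cases h1 : y = x
  · exact Or.inl h1
  by_cases h2 : y ∈ N c
  · exact Or.inr (Or.inl ⟨h2, h1, fun h3 => h1 (h.un y h2 h3)⟩)
  · by_cases h3 : y ∈ N d
    · exact Or.inr (Or.inr (Or.inl ⟨h3, h1, h2⟩))
    · exact Or.inr (Or.inr (Or.inr (mem_QQ.mpr ⟨h2, h3⟩)))

lemma Dstar : Sr N K ((N d).erase x) ∧ Disjoint ((N d).erase x) (N c) := by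
  refine ⟨⟨?_, d, mem_erase.mpr ⟨h.dx, h.b.refl d⟩, erase_subset _ _⟩, ?_⟩
  · rw [card_erase_of_mem h.xd, h.hd]
    rfl
  · rw [disjoint_left]
    intro y hy hy'
    obtain ⟨h1, h2⟩ := mem_erase.mp hy
    exact h1 (h.un y hy' h2)

lemma Qstar : Sr N K (QQ N c d) := by
  have h1 := (h.b.comp h.hc h.Dstar.1.1 (mem_erase.mpr ⟨h.dx, h.b.refl d⟩) (erase_subset _ _)
    h.Dstar.2).1
  have h2 : (N c ∪ (N d).erase x)ᶜ = QQ N c d := by
    ext y
    rw [mem_QQ, mem_compl, mem_union, mem_erase]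
    constructor
    · intro hy
      push Not at hy
      refine ⟨hy.1, fun h' => ?_⟩
      by_cases hyx : y = x
      · subst hyx
        exact hy.1 h.xc
      · exact hy.2 hyx h'
    · rintro ⟨h3, h4⟩
      push Not
      exact ⟨h3, fun _ => h4⟩
  rwa [h2] at h1

end HP

/-- The vertex `k`: a high vertex adjacent to `c`, with no neighbour outside the two
neighbourhoods, and `c` as its only common neighbour with `x`. -/
structure KK (N : V → Finset V) (K : ℕ) (c d x k : V) : Prop where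
  kc : k ∈ N c
  kh : (N k).card = K + 1
  kx : ∀ y, y ∈ N k → y ∈ N x → y = c
  kQ : ∀ y, y ∈ N k → y ∉ QQ N c d

namespace HP

variable {c d x : V} (h : HP N K c d x)
include h

/-- The first steps: the vertex `k` and a full centre of `Q`. -/
lemma exk : (∃ q ∈ QQ N c d, N q = QQ N c d) ∧
    ((∃ k, KK N K c d x k) ∨ (∃ k, KK N K d c x k)) := by
  obtain ⟨hQ, q, hq, hQq⟩ := h.Qstar
  obtain ⟨hq1, hq2⟩ := mem_QQ.mp hq
  obtain ⟨m, ⟨hm, k, hk, hmk⟩, h1, h2⟩ := h.b.T x q
  have hcm : c ∉ m := nin' h1 h.cx'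
  have hdm : d ∉ m := nin' h1 h.dx'
  have hmQ : ∀ y ∈ m, y ∉ QQ N c d := fun y hy hy' => nin h2 hy (hQq hy')
  have hkx : k ≠ x := by
    rintro rfl
    exact nin h1 hk (h.b.refl k)
  have key : ∀ c' : V, c' ∈ N k → c' ∉ m → c' ∈ N x → c' ∉ QQ N c d → q ∉ N c' →
      (N k).card = K + 1 ∧ (∀ y, y ∈ N k → y ∈ N x → y = c') ∧
        (∀ y, y ∈ N k → y ∉ QQ N c d) ∧ (N q).card ≤ K := by
    intro c' h3 h4 h5 h6 h7
    have h8 := h.b.plus hm hmk h3 h4
    have h9 := h.b.plus_high hm hmk h3 h4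
    refine ⟨h9, ?_, ?_, ?_⟩
    · intro y hy hyx
      rw [h8] at hy
      rcases mem_insert.mp hy with h' | h'
      · exact h'
      · exact absurd hyx (nin h1 h')
    · intro y hy
      rw [h8] at hy
      rcases mem_insert.mp hy with h' | h'
      · rw [h']
        exact h6
      · exact hmQ y h'
    · by_contra hcon
      have h10 := h.b.card_le q
      obtain ⟨y, hy, hy'⟩ := h.b.notFar h9 (by omega : (N q).card = K + 1)
      rw [h8] at hy
      rcases mem_insert.mp hy with h' | h'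
      · subst h'
        exact h7 (h.b.symm _ _ hy')
      · exact nin h2 h' hy'
  have fin : (N q).card ≤ K → N q = QQ N c d := fun hle => (h.b.full hQ hQq hle).symm
  rcases h.cov k with h3 | ⟨h3, -, -⟩ | ⟨h3, -, -⟩ | h3
  · exact absurd h3 hkx
  · obtain ⟨h4, h5, h6, h7⟩ := key c (h.b.symm _ _ h3) hcm h.cx'
      (fun h' => (mem_QQ.mp h').1 (h.b.refl c)) (fun h' => hq1 h')
    exact ⟨⟨q, hq, fin h7⟩, Or.inl ⟨k, h3, h4, h5, h6⟩⟩
  · obtain ⟨h4, h5, h6, h7⟩ := key d (h.b.symm _ _ h3) hdm h.dx'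
      (fun h' => (mem_QQ.mp h').2 (h.b.refl d)) (fun h' => hq2 h')
    exact ⟨⟨q, hq, fin h7⟩, Or.inr ⟨k, h3, h4, h5, fun y hy h' => h6 y hy (qswap.mp h')⟩⟩
  · exact absurd h3 (hmQ k hk)

/-- **Lemma Q** with `k` on the side of `c`. -/
lemma lemmaQ' {k : V} (hk : KK N K c d x k) {w : V} (hw : w ∈ QQ N c d) : (N w).card ≤ K := by
  obtain ⟨⟨q, hq, hNq⟩, -⟩ := h.exk
  obtain ⟨hq1, hq2⟩ := mem_QQ.mp hq
  obtain ⟨hw1, hw2⟩ := mem_QQ.mp hw
  have hqx : q ∉ N x := by
    intro h'
    have := h.b.symm _ _ h'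
    rw [hNq] at this
    exact (mem_QQ.mp this).1 h.xc
  have hQq : ∀ g ∈ QQ N c d, q ∈ N g := fun g hg => h.b.symm _ _ (hNq ▸ hg)
  by_contra hcon
  have hwh : (N w).card = K + 1 := by
    have := h.b.card_le w
    omega
  obtain ⟨n, ⟨hn, g, hg, hng⟩, h1, h2⟩ := h.b.T x w
  have hcn : c ∉ n := nin' h1 h.cx'
  have hdn : d ∉ n := nin' h1 h.dx'
  have hqn : q ∉ n := nin' h2 (hQq w hw)
  have hgx : g ≠ x := by
    rintro rfl
    exact nin h1 hg (h.b.refl g)
  -- a centre in the neighbourhood of `c` or `d`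
  have side : ∀ c' : V, c' ∈ N g → c' ∉ n → c' ∉ N w → False := by
    intro c' h3 h4 h5
    obtain ⟨y, hy, hy'⟩ := h.b.notFar (h.b.plus_high hn hng h3 h4) hwh
    rw [h.b.plus hn hng h3 h4] at hy
    rcases mem_insert.mp hy with h' | h'
    · subst h'
      exact h5 hy'
    · exact nin h2 h' hy'
  rcases h.cov g with h3 | ⟨h3, -, -⟩ | ⟨h3, -, -⟩ | h3
  · exact hgx h3
  · exact side c (h.b.symm _ _ h3) hcn (fun h' => hw1 (h.b.symm _ _ h'))
  · exact side d (h.b.symm _ _ h3) hdn (fun h' => hw2 (h.b.symm _ _ h'))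
  · have hgq := hQq g h3
    have hgh := h.b.plus_high hn hng hgq hqn
    have hNg := h.b.plus hn hng hgq hqn
    have hgX : ∀ y ∈ N g, y ∉ N x := by
      intro y hy
      rw [hNg] at hy
      rcases mem_insert.mp hy with h' | h'
      · rw [h']
        exact hqx
      · exact nin h1 h'
    obtain ⟨p, ⟨hp, y, hy, hpy⟩, h4, h5⟩ := h.b.T g x
    obtain ⟨⟨hp', y', hy', hpy'⟩, -⟩ := h.b.comp hgh hp hy hpy h4
    -- `k` is in `p`
    have hsub : N x ⊆ (N g ∪ p)ᶜ := by
      intro z hz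
      rw [mem_compl, mem_union]
      rintro (h' | h')
      · exact hgX z h' hz
      · exact nin h5 h' hz
    have hy'x : y' = x :=
      h.un y' (h.b.symm _ _ (hpy' (hsub h.cx'))) (h.b.symm _ _ (hpy' (hsub h.dx')))
    subst hy'x
    have hkx : k ∉ N y' := fun h' => by
      have := hk.kx k (h.b.refl k) h'
      subst this
      exact h.cx (hk.kx y' h.xc (h.b.refl y')).symm
    have hkp : k ∈ p := by
      by_contra hkp
      apply hkx
      apply hpy'
      rw [mem_compl, mem_union]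
      rintro (h' | h')
      · exact hk.kQ g (h.b.symm _ _ h') h3
      · exact hkp h'
    have hcp : c ∉ p := nin' h5 h.cx'
    have hdp : d ∉ p := nin' h5 h.dx'
    have hyk : y ∈ N k := h.b.symm _ _ (hpy hkp)
    have side2 : ∀ c' : V, c' ∈ N y → c' ∉ p → c' ∉ N g → False := by
      intro c' h6 h7 h8
      obtain ⟨z, hz, hz'⟩ := h.b.notFar (h.b.plus_high hp hpy h6 h7) hgh
      rw [h.b.plus hp hpy h6 h7] at hz
      rcases mem_insert.mp hz with h' | h'
      · subst h'
        exact h8 hz'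
      · exact nin h4 h' hz'
    obtain ⟨h31, h32⟩ := mem_QQ.mp h3
    rcases h.cov y with h6 | ⟨h6, -, -⟩ | ⟨h6, -, -⟩ | h6
    · subst h6
      exact nin h5 hy (h.b.refl _)
    · exact side2 c (h.b.symm _ _ h6) hcp (fun h' => h31 (h.b.symm _ _ h'))
    · exact side2 d (h.b.symm _ _ h6) hdp (fun h' => h32 (h.b.symm _ _ h'))
    · exact hk.kQ y hyk h6

/-- **Lemma Q.** No vertex outside both neighbourhoods is high. -/
theorem lemmaQ {w : V} (hw : w ∈ QQ N c d) : (N w).card ≤ K := by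
  rcases h.exk.2 with ⟨k, hk⟩ | ⟨k, hk⟩
  · exact h.lemmaQ' hk hw
  · exact h.swap.lemmaQ' hk (qswap.mp hw)

/-- (H2) All high vertices are in the two neighbourhoods. -/
theorem high_in {w : V} (hw : (N w).card = K + 1) : w ∈ N c ∨ w ∈ N d := by
  by_contra hcon
  push Not at hcon
  have := h.lemmaQ (mem_QQ.mpr hcon)
  omega

/-- Lemma R: no star outside the neighbourhood of a high vertex of `P` has its centre in `P`. -/
theorem lemmaR {g : V} (hg : (N g).card = K + 1) (hgc : g ∈ N c) (hgx : g ≠ x)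
    {n : Finset V} (hn : n.card = K) {a : V} (ha : a ∈ n) (hna : n ⊆ N a)
    (hd : Disjoint n (N g)) : a = x ∨ a ∉ N c := by
  by_contra hcon
  push Not at hcon
  obtain ⟨hax, hac⟩ := hcon
  have hcn : c ∉ n := nin' hd (h.b.symm _ _ hgc)
  have h1 := h.b.plus_high hn hna (h.b.symm _ _ hac) hcn
  have h2 := h.b.plus hn hna (h.b.symm _ _ hac) hcn
  have hp : HP N K a g c := by
    refine ⟨h.b, h1, hg, h.b.symm _ _ hac, h.b.symm _ _ hgc, fun y hy hy' => ?_⟩
    rw [h2] at hy
    rcases mem_insert.mp hy with h' | h'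
    · exact h'
    · exact absurd hy' (nin hd h')
  rcases hp.high_in h.hd with h' | h'
  · exact hax (h.un a hac (h.b.symm _ _ h'))
  · exact hgx (h.un g hgc (h.b.symm _ _ h'))

end HP

end Pool.Agent.Star.BaseAA
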