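import Pool.Agent.Star.BaseB1

/-!
# Type B, the hard configuration: crossing pairs and their types
-/

set_option autoImplicit false
set_option linter.unusedSectionVars false
set_option linter.unusedVariables false

namespace Pool.Agent.Star.BaseAA

open Finset

variable {V : Type*} [Fintype V] [DecidableEq V] {N : V → Finset V} {K : ℕ}

/-- The hard configuration with `k` on the side of `c`. -/
structure HK (N : V → Finset V) (K : ℕ) (c d x k q : V) : Prop where
  h : HP N K c d x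
  k : KK N K c d x k
  hq : q ∈ QQ N c d
  Nq : N q = QQ N c d

/-- Crossing pairs: a star `S` with centre `s` adjacent to `c`, the complementary star outside the
neighbourhood of `d` is the full neighbourhood of `t` in `Q`. -/
structure Cr (N : V → Finset V) (K : ℕ) (c d : V) (S : Finset V) (s t : V) : Prop where
  Sc : S.card = K
  Sd : ∀ y ∈ S, y ∉ N d
  cS : c ∈ S
  sS : s ∈ S
  SN : S ⊆ N s
  SN' : ∀ y ∈ N s, y ∉ N d → y ∈ S
  wS : ∃ w ∈ S, w ∈ QQ N c d
  tQ : t ∈ QQ N c d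
  Nt : ∀ y, y ∈ N t ↔ y ∉ N d ∧ y ∉ S
  Ntc : (N t).card = K

/-- Linked crossing pairs. -/
structure Ln (N : V → Finset V) (S : Finset V) (s t : V) (S' : Finset V) (s' t' : V) : Prop where
  a : s' ∈ N t
  b : s ∈ N t'
  c : t' ∈ S
  d : t ∈ S'

lemma Ln.symm {S S' : Finset V} {s t s' t' : V} (h : Ln N S s t S' s' t') :
    Ln N S' s' t' S s t := ⟨h.b, h.a, h.d, h.c⟩

namespace HP

variable {c d x : V} (h : HP N K c d x)
include h

/-- A crossing pair from a vertex adjacent to `c` touching `Q`. -/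
lemma cross {v w : V} (hv : v ∈ N c) (hw : w ∈ QQ N c d) (hvw : w ∈ N v) :
    ∃ S s t, Cr N K c d S s t ∧ ∀ y ∈ N v, y ∉ N d → y ∈ S := by
  obtain ⟨p, ⟨hp, t, ht, hpt⟩, h1, h2⟩ := h.b.T d v
  obtain ⟨⟨hS, s, hs, hSs⟩, h3⟩ := h.b.comp h.hd hp ht hpt h1
  have hSd : Disjoint (N d ∪ p)ᶜ (N d) := by
    rw [disjoint_left]
    intro y hy hy'
    rw [mem_compl, mem_union] at hy
    exact hy (Or.inl hy')
  obtain ⟨-, h4⟩ := h.b.comp h.hd hS hs hSs hSd
  have hcv : c ∈ N v := h.b.symm _ _ hv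
  have hmem : ∀ y, y ∈ (N d ∪ p)ᶜ ↔ y ∉ N d ∧ y ∉ p := by
    intro y
    rw [mem_compl, mem_union, not_or]
  have htd : t ∉ N d := nin h1 ht
  have htc : t ∉ N c := fun h' => nin' h2 hcv (h3 c (h.b.symm _ _ h') h.cd)
  have htQ : t ∈ QQ N c d := mem_QQ.mpr ⟨htc, htd⟩
  have hpN := h.b.full hp hpt (h.lemmaQ htQ)
  refine ⟨(N d ∪ p)ᶜ, s, t, ⟨hS, fun y hy => ((hmem y).mp hy).1, ?_, hs, hSs, h4, ?_, htQ, ?_, ?_⟩,
    ?_⟩
  · exact (hmem c).mpr ⟨h.cd, nin' h2 hcv⟩
  · exact ⟨w, (hmem w).mpr ⟨(mem_QQ.mp hw).2, nin' h2 hvw⟩, hw⟩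
  · intro y
    rw [← hpN, hmem]
    constructor
    · intro hy
      exact ⟨nin h1 hy, fun h' => h'.2 hy⟩
    · rintro ⟨h5, h6⟩
      by_contra h7
      exact h6 ⟨h5, h7⟩
  · rw [← hpN]
    exact hp
  · intro y hy hyd
    exact (hmem y).mpr ⟨hyd, nin' h2 hy⟩

/-- There are crossing pairs. -/
lemma exCross : ∃ S s t, Cr N K c d S s t := by
  have h1 := h.swap.Dstar
  have h2 := h.Qstar
  have h3 : Disjoint (QQ N c d) (N d) := disjoint_left.mpr fun y hy => (mem_QQ.mp hy).2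
  have h4 : Disjoint ((N c).erase x) (QQ N c d) := by
    rw [disjoint_left]
    intro y hy hy'
    exact (mem_QQ.mp hy').1 (mem_of_mem_erase hy)
  obtain ⟨u, hu, v, hv, huv⟩ := edge_of_high h.b h.hd h1.1 h2 h1.2 h3 h4
  obtain ⟨S, s, t, hS, -⟩ := h.cross (mem_of_mem_erase hu) hv huv
  exact ⟨S, s, t, hS⟩

end HP

namespace Cr

variable {c d x : V} {S : Finset V} {s t : V} (a : Cr N K c d S s t) (h : HP N K c d x)
include a

lemma tt (h : HP N K c d x) : t ∉ S := ((a.Nt t).mp (h.b.refl t)).2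

lemma sc (h : HP N K c d x) : s ∈ N c := h.b.symm _ _ (a.SN a.cS)

lemma sd : s ∉ N d := a.Sd s a.sS

lemma sx (h : HP N K c d x) : s ≠ x := fun h' => a.sd (h' ▸ h.xd)

lemma s_ne : s ≠ c := by
  rintro rfl
  obtain ⟨w, hw, hw'⟩ := a.wS
  exact (mem_QQ.mp hw').1 (a.SN hw)

/-- The centre `t` has no neighbour adjacent to `d`. -/
lemma td {y : V} (hy : y ∈ N t) : y ∉ N d := ((a.Nt y).mp hy).1

lemma tx (h : HP N K c d x) : x ∉ N t := fun h' => a.td h' h.xd

lemma dt (h : HP N K c d x) : d ∉ N t := fun h' => a.td h' (h.b.refl d)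

lemma ct : c ∉ N t := fun h' => ((a.Nt c).mp h').2 a.cS

/-- (H3) A linked crossing pair. -/
lemma next (h : HP N K c d x) :
    ∃ S' s' t', Cr N K c d S' s' t' ∧ Ln N S s t S' s' t' := by
  obtain ⟨v, hv, hvS⟩ : ∃ v ∈ (N c).erase x, v ∉ S := by
    by_contra hcon
    push Not at hcon
    have h1 : (N c).erase x = S := eq_of_subset_of_card_le hcon (by
      rw [a.Sc, card_erase_of_mem h.xc, h.hc]
      rfl)
    obtain ⟨w, hw, hw'⟩ := a.wS
    rw [← h1] at hw
    exact (mem_QQ.mp hw').1 (mem_of_mem_erase hw)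
  obtain ⟨hvx, hvc⟩ := mem_erase.mp hv
  have hvd : v ∉ N d := fun h' => hvx (h.un v hvc h')
  have hvt : v ∈ N t := (a.Nt v).mpr ⟨hvd, hvS⟩
  have htv : t ∈ N v := h.b.symm _ _ hvt
  obtain ⟨S', s', t', b, h1⟩ := h.cross hvc a.tQ htv
  have htS' : t ∈ S' := h1 t htv (mem_QQ.mp a.tQ).2
  have h2 : s' ∈ N t := h.b.symm _ _ (b.SN htS')
  have h3 : s ∉ S' := by
    intro h'
    have h4 : s' ∈ N s := h.b.symm _ _ (b.SN h')
    exact ((a.Nt s').mp h2).2 (a.SN' s' h4 b.sd)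
  have h5 : s ∈ N t' := (b.Nt s).mpr ⟨a.sd, h3⟩
  have h6 : t' ∈ S := a.SN' t' (h.b.symm _ _ h5) (mem_QQ.mp b.tQ).2
  exact ⟨S', s', t', b, ⟨h2, h5, h6, htS'⟩⟩

end Cr

/-- Type (i): the centre is on the side of `c`. -/
structure Ti (N : V → Finset V) (K : ℕ) (c d x k : V) (S : Finset V) (s t g : V) : Prop where
  gc : g ∈ N c
  gh : (N g).card = K + 1
  gx : ∀ y, y ∈ N g → y ∈ N x → y = c
  gt : ∀ y, y ∈ N g → y ∉ N t
  gk : k ∈ N g
  gL : ∀ S' s' t', Cr N K c d S' s' t' → Ln N S s t S' s' t' → t' ∈ N g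

/-- Type (ii): the centre is on the side of `d`. -/
structure Tii (N : V → Finset V) (K : ℕ) (c d x k : V) (S : Finset V) (s t g : V) : Prop where
  gd : g ∈ N d
  gh : (N g).card = K + 1
  gx : ∀ y, y ∈ N g → y ∈ N x → y = d
  gt : ∀ y, y ∈ N g → y ∉ N t
  gk : k ∈ N g
  gz : ∃ z, z ∈ N c ∧ z ≠ c ∧ z ≠ x ∧ z ∈ N x ∧ z ∉ N k ∧ z ∉ N g ∧ z ∉ N t ∧
    (∀ y, y ∉ N g → y ∉ N t → y ∈ N z) ∧ (∀ y ∈ N z, y ∉ N g → y ∉ N t) ∧
    (∀ S' s' t', Cr N K c d S' s' t' → Ln N S s t S' s' t' → t' ∈ N z ∧ t' ∉ N g)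

namespace HK

variable {c d x k q : V} (a : HK N K c d x k q)
include a

lemma kx' : x ∉ N k := fun h' => a.h.cx (a.k.kx x h' (a.h.b.refl x)).symm

lemma k_ne : k ≠ c := by
  rintro rfl
  exact a.kx' a.h.xc

lemma k_nx : k ≠ x := by
  rintro rfl
  exact a.kx' (a.h.b.refl _)

lemma kd : k ∉ N d := fun h' => a.k_nx (a.h.un k a.k.kc h')

lemma kS {S : Finset V} {s t : V} (r : Cr N K c d S s t) : k ∈ S := by
  by_contra hcon
  have h1 : k ∈ N t := (r.Nt k).mpr ⟨a.kd, hcon⟩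
  exact a.k.kQ t (a.h.b.symm _ _ h1) r.tQ

lemma sk {S : Finset V} {s t : V} (r : Cr N K c d S s t) : s ∈ N k :=
  a.h.b.symm _ _ (r.SN (a.kS r))

lemma qt {t : V} (ht : t ∈ QQ N c d) : q ∈ N t := a.h.b.symm _ _ (a.Nq ▸ ht)

/-- (H4) -/
lemma types {S : Finset V} {s t : V} (r : Cr N K c d S s t) :
    (∃ g, Ti N K c d x k S s t g) ∨ (∃ g, Tii N K c d x k S s t g) := by
  have h := a.h
  obtain ⟨n, ⟨hn, g, hg, hng⟩, h1, h2⟩ := h.b.T x t
  have hcn : c ∉ n := nin' h1 h.cx'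
  have hdn : d ∉ n := nin' h1 h.dx'
  have hqn : q ∉ n := nin' h2 (a.qt r.tQ)
  have hxn : x ∉ n := nin' h1 (h.b.refl x)
  have hgx : g ≠ x := by
    rintro rfl
    exact hxn hg
  have hcd : c ∉ N d := h.cd
  -- the complementary star
  have comp : ∀ e : V, N g = insert e n → e ∉ N t → (N g).card = K + 1 →
      (∀ y, y ∈ N g → y ∉ N t) ∧ ∃ z, z ∉ N g ∧ z ∉ N t ∧ (∀ y, y ∉ N g → y ∉ N t → y ∈ N z) ∧
        (∀ y ∈ N z, y ∉ N g → y ∉ N t) := by
    intro e he het hgh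
    have h3 : ∀ y, y ∈ N g → y ∉ N t := by
      intro y hy
      rw [he] at hy
      rcases mem_insert.mp hy with h' | h'
      · rw [h']
        exact het
      · exact nin h2 h'
    have h4 : Disjoint (N t) (N g) := disjoint_right.mpr h3
    obtain ⟨⟨hZ, z, hz, hZz⟩, -⟩ := h.b.comp hgh r.Ntc (h.b.refl t) (subset_refl _) h4
    have hZg : Disjoint (N g ∪ N t)ᶜ (N g) := by
      rw [disjoint_left]
      intro y hy hy'
      rw [mem_compl, mem_union] at hy
      exact hy (Or.inl hy')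
    obtain ⟨-, h5⟩ := h.b.comp hgh hZ hz hZz hZg
    rw [mem_compl, mem_union, not_or] at hz
    refine ⟨h3, z, hz.1, hz.2, fun y hy hy' => hZz ?_, fun y hy hyg hyt => ?_⟩
    · rw [mem_compl, mem_union, not_or]
      exact ⟨hy, hy'⟩
    · have := h5 y hy hyg
      rw [mem_compl, mem_union, not_or] at this
      exact this.2 hyt
  rcases h.cov g with h3 | ⟨h3, -, h3'⟩ | ⟨h3, -, h3'⟩ | h3
  · exact absurd h3 hgx
  · -- type (i)
    left
    have hcg : c ∈ N g := h.b.symm _ _ h3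
    have hNg := h.b.plus hn hng hcg hcn
    have hgh := h.b.plus_high hn hng hcg hcn
    obtain ⟨h4, z, hzg, hzt, hz, hz'⟩ := comp c hNg r.ct hgh
    have hgX : ∀ y, y ∈ N g → y ∈ N x → y = c := by
      intro y hy hyx
      rw [hNg] at hy
      rcases mem_insert.mp hy with h' | h'
      · exact h'
      · exact absurd hyx (nin h1 h')
    have hxg : x ∉ N g := fun h' => h.cx (hgX x h' (h.b.refl x)).symm
    have hdg : d ∉ N g := fun h' => h.dc (by rw [hgX d h' h.dx']; exact h.b.refl c)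
    have hzx : z ∈ N x := h.b.symm _ _ (hz x hxg (r.tx h))
    have hzd : z ∈ N d := h.b.symm _ _ (hz d hdg (r.dt h))
    have hkg : k ∈ N g := by
      by_contra hkg
      have hkt : k ∉ N t := fun h' => a.k.kQ t (h.b.symm _ _ h') r.tQ
      have h5 : z ∈ N k := h.b.symm _ _ (hz k hkg hkt)
      have := a.k.kx z h5 hzx
      subst this
      exact h.cd hzd
    refine ⟨g, h3, hgh, hgX, h4, hkg, ?_⟩
    intro S' s' t' r' l
    by_contra hcon
    have h5 : t' ∉ N t := fun h' => ((r.Nt t').mp h').2 l.c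
    have h6 : z ∈ N t' := h.b.symm _ _ (hz t' hcon h5)
    exact r'.td h6 hzd
  · -- type (ii)
    right
    have hdg : d ∈ N g := h.b.symm _ _ h3
    have hNg := h.b.plus hn hng hdg hdn
    have hgh := h.b.plus_high hn hng hdg hdn
    obtain ⟨h4, z, hzg, hzt, hz, hz'⟩ := comp d hNg (r.dt h) hgh
    have hgX : ∀ y, y ∈ N g → y ∈ N x → y = d := by
      intro y hy hyx
      rw [hNg] at hy
      rcases mem_insert.mp hy with h' | h'
      · exact h'
      · exact absurd hyx (nin h1 h')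
    have hxg : x ∉ N g := fun h' => h.dx (hgX x h' (h.b.refl x)).symm
    have hcg : c ∉ N g := fun h' => h.cd (by rw [hgX c h' h.cx']; exact h.b.refl d)
    have hzx : z ∈ N x := h.b.symm _ _ (hz x hxg (r.tx h))
    have hzc : z ∈ N c := h.b.symm _ _ (hz c hcg r.ct)
    obtain ⟨S₁, s₁, t₁, r₁, l₁⟩ := r.next h
    have key : ∀ S' s' t', Cr N K c d S' s' t' → Ln N S s t S' s' t' →
        t' ∈ N z ∧ t' ∉ N g := by
      intro S' s' t' r' l
      have h5 : t' ∉ N t := fun h' => ((r.Nt t').mp h').2 l.c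
      have h6 : t' ∉ N g := fun h' => r'.td (h.b.symm _ _ h') h3
      exact ⟨hz t' h6 h5, h6⟩
    have h7 := (key S₁ s₁ t₁ r₁ l₁).1
    have hzc' : z ≠ c := by
      rintro rfl
      exact r₁.ct (h.b.symm _ _ h7)
    have hzx' : z ≠ x := by
      rintro rfl
      exact r₁.tx h (h.b.symm _ _ h7)
    have hzk : z ∉ N k := fun h' => hzc' (a.k.kx z h' hzx)
    have hkg : k ∈ N g := by
      by_contra hkg
      have hkt : k ∉ N t := fun h' => a.k.kQ t (h.b.symm _ _ h') r.tQ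
      exact hzk (h.b.symm _ _ (hz k hkg hkt))
    exact ⟨g, h3, hgh, hgX, h4, hkg, z, hzc, hzc', hzx', hzx, hzk, hzg, hzt, hz, hz', key⟩
  · -- centre in `Q`
    exfalso
    have := h.b.plus_high hn hng (a.qt h3) hqn
    have := h.lemmaQ h3
    omega

/-- (H5) Two linked crossing pairs, the first one containing the neighbours of `x` in `Q`, are not
both of type (i). -/
lemma not_both {S S' : Finset V} {s t s' t' g g' : V} (r : Cr N K c d S s t)
    (r' : Cr N K c d S' s' t') (l : Ln N S s t S' s' t') (hx : ∀ y ∈ N x, y ∈ QQ N c d → y ∈ S)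
    (b : Ti N K c d x k S s t g) (b' : Ti N K c d x k S' s' t' g') : False := by
  have h := a.h
  have hcd : c ∉ N d := h.cd
  have hgx : g ≠ x := by
    rintro rfl
    exact h.cx (b.gx _ (h.b.refl _) (h.b.refl _)).symm
  have hgd : g ∉ N d := fun h' => hgx (h.un g b.gc h')
  have hg'x : g' ≠ x := by
    rintro rfl
    exact h.cx (b'.gx _ (h.b.refl _) (h.b.refl _)).symm
  have hg'd : g' ∉ N d := fun h' => hg'x (h.un g' b'.gc h')
  -- `g ∈ S`
  have hgS : g ∈ S := by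
    by_contra hcon
    exact b.gt g (h.b.refl g) ((r.Nt g).mpr ⟨hgd, hcon⟩)
  have hsg : s ∈ N g := h.b.symm _ _ (r.SN hgS)
  have htg' : t ∈ N g' := b'.gL S s t r l.symm
  have hg't : g' ∈ N t := h.b.symm _ _ htg'
  have hg'g : g' ∉ N g := fun h' => b.gt g' h' hg't
  have hdg' : d ∉ N g' := fun h' => hcd (by
    have := b'.gx d h' h.dx'
    rw [← this]
    exact h.b.refl d)
  have hdg : d ∉ N g := fun h' => hcd (by
    have := b.gx d h' h.dx'
    rw [← this]
    exact h.b.refl d)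
  have hxg' : x ∉ N g' := fun h' => h.cx (b'.gx x h' (h.b.refl x)).symm
  have hxg : x ∉ N g := fun h' => h.cx (b.gx x h' (h.b.refl x)).symm
  have hcg : c ∈ N g := h.b.symm _ _ b.gc
  -- a neighbour of `g'` in `D`
  have hy : ∃ y ∈ N g', y ∈ N d := by
    by_contra hcon
    push Not at hcon
    have h1 : N g' ⊆ S' := by
      intro y hy
      by_contra hyS
      exact b'.gt y hy ((r'.Nt y).mpr ⟨hcon y hy, hyS⟩)
    have h2 := card_le_card h1
    rw [b'.gh, r'.Sc] at h2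
    omega
  obtain ⟨y, hyg', hyd⟩ := hy
  have hyx : y ≠ x := by
    rintro rfl
    exact hxg' hyg'
  obtain ⟨n, ⟨hn, e, he, hne⟩, h1, h2⟩ := h.b.T y g
  have hcn : c ∉ n := nin' h2 hcg
  have hdn : d ∉ n := nin' h1 (h.b.symm _ _ hyd)
  have hg'n : g' ∉ n := nin' h1 (h.b.symm _ _ hyg')
  rcases h.cov e with h3 | ⟨h3, h3x, h3'⟩ | ⟨h3, -, h3'⟩ | h3
  · -- the centre is `x`
    subst h3
    have h4 : insert c (insert d n) ⊆ N e := by
      intro z hz
      rcases mem_insert.mp hz with rfl | hz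
      · exact h.cx'
      · rcases mem_insert.mp hz with rfl | hz
        · exact h.dx'
        · exact hne hz
    have h5 := card_le_card h4
    have h6 : c ∉ insert d n := by
      rw [mem_insert]
      push Not
      refine ⟨fun h' => hcd (h' ▸ h.b.refl c), hcn⟩
    rw [card_insert_of_notMem h6, card_insert_of_notMem hdn, hn] at h5
    have := h.b.card_le e
    omega
  · -- the centre is in `P`
    rcases h.lemmaR b.gh b.gc hgx hn he hne h2 with h4 | h4
    · exact h3x h4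
    · exact h4 h3
  · -- the centre is in `D`
    obtain ⟨z, hz, hz'⟩ := h.b.notFar (h.b.plus_high hn hne (h.b.symm _ _ h3) hdn) b.gh
    rw [h.b.plus hn hne (h.b.symm _ _ h3) hdn] at hz
    rcases mem_insert.mp hz with h' | h'
    · subst h'
      exact hdg hz'
    · exact nin h2 h' hz'
  · -- the centre is in `Q`
    have h4 := h.b.full hn hne (h.lemmaQ h3)
    obtain ⟨⟨hn', y', hy', hny'⟩, -⟩ := h.b.comp b.gh hn he hne h2
    have hmem : ∀ z, z ∉ N g → z ∉ n → y' ∈ N z := by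
      intro z hz hz'
      apply h.b.symm
      apply hny'
      rw [mem_compl, mem_union, not_or]
      exact ⟨hz, hz'⟩
    have h5 : y' ∈ N d := hmem d hdg hdn
    have h6 : y' ∈ N g' := hmem g' hg'g hg'n
    have h7 : y' ∉ N x := by
      intro h'
      have := b'.gx y' h6 h'
      subst this
      exact hcd h5
    have h8 : x ∈ n := by
      by_contra hcon
      exact h7 (hmem x hxg hcon)
    have h9 : e ∈ N x := by
      rw [h4] at h8
      exact h.b.symm _ _ h8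
    have h10 : e ∈ S := hx e h9 h3
    have h11 : s ∈ n := by
      rw [h4]
      exact h.b.symm _ _ (r.SN h10)
    exact nin h2 h11 hsg

/-- A crossing pair of type (ii) exists. -/
theorem exTii : ∃ S s t g, Cr N K c d S s t ∧ Tii N K c d x k S s t g := by
  have h := a.h
  -- a crossing pair containing the neighbours of `x` in `Q`
  have h1 : ∃ S s t, Cr N K c d S s t ∧ ∀ y ∈ N x, y ∈ QQ N c d → y ∈ S := by
    by_cases hx : ∃ w ∈ N x, w ∈ QQ N c d
    · obtain ⟨w, hw, hw'⟩ := hx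
      obtain ⟨S, s, t, r, hS⟩ := h.cross h.xc hw' hw
      exact ⟨S, s, t, r, fun y hy hy' => hS y hy (mem_QQ.mp hy').2⟩
    · push Not at hx
      obtain ⟨S, s, t, r⟩ := h.exCross
      exact ⟨S, s, t, r, fun y hy hy' => absurd hy' (hx y hy)⟩
  obtain ⟨S, s, t, r, hx⟩ := h1
  obtain ⟨S', s', t', r', l⟩ := r.next h
  rcases a.types r with ⟨g, hg⟩ | ⟨g, hg⟩
  · rcases a.types r' with ⟨g', hg'⟩ | ⟨g', hg'⟩
    · exact (a.not_both r r' l hx hg hg').elim
    · exact ⟨S', s', t', g', r', hg'⟩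
  · exact ⟨S, s, t, g, r, hg⟩

end HK

end Pool.Agent.Star.BaseAA
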