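import Pool.Agent.Star.BaseB2

/-!
# Type B, the hard configuration is impossible
-/

set_option autoImplicit false
set_option linter.unusedSectionVars false
set_option linter.unusedVariables false

namespace Pool.Agent.Star.BaseAA

open Finset

variable {V : Type*} [Fintype V] [DecidableEq V] {N : V → Finset V} {K : ℕ}

namespace HK

variable {c d x k q : V} (a : HK N K c d x k q)
include a

/-- (H6) No type (ii). -/
lemma noTii {S : Finset V} {s t g : V} (r : Cr N K c d S s t) (b : Tii N K c d x k S s t g) :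
    False := by
  have h := a.h
  obtain ⟨z, hzc, hzc', hzx', hzx, hzk, hzg, hzt, hz, hz', key⟩ := b.gz
  obtain ⟨S', s', t', r', l⟩ := r.next h
  obtain ⟨hzt', -⟩ := key S' s' t' r' l
  obtain ⟨p, ⟨hp, w, hw, hpw⟩, h1, h2⟩ := h.b.T k t'
  obtain ⟨⟨hP, e, he, hPe⟩, hcomp⟩ := h.b.comp a.k.kh hp hw hpw h1
  have hmem : ∀ y, y ∉ N k → y ∈ N t' → y ∈ (N k ∪ p)ᶜ := by
    intro y hy hy'
    rw [mem_compl, mem_union, not_or]
    exact ⟨hy, nin' h2 hy'⟩
  have hzP : z ∈ (N k ∪ p)ᶜ := hmem z hzk (h.b.symm _ _ hzt')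
  have hqP : q ∈ (N k ∪ p)ᶜ :=
    hmem q (fun h' => a.k.kQ q h' a.hq) (a.qt r'.tQ)
  have heQ : e ∈ QQ N c d := by
    rw [← a.Nq]
    exact h.b.symm _ _ (hPe hqP)
  obtain ⟨heQ1, heQ2⟩ := mem_QQ.mp heQ
  have hPN := h.b.full hP hPe (h.lemmaQ heQ)
  have hek : ∀ y, y ∈ N e → y ∉ N k ∧ y ∉ p := by
    intro y hy
    rw [← hPN, mem_compl, mem_union, not_or] at hy
    exact hy
  have hke : ∀ y, y ∉ N k → y ∉ N e → y ∈ p := by
    intro y hy hy'
    by_contra hcon
    apply hy'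
    rw [← hPN, mem_compl, mem_union, not_or]
    exact ⟨hy, hcon⟩
  have hzp : z ∉ p := by
    rw [mem_compl, mem_union, not_or] at hzP
    exact hzP.2
  -- (1)
  have hxe : x ∉ N e := by
    intro hx
    obtain ⟨S₁, s₁, t₁, r₁, hS₁⟩ := h.cross h.xc heQ (h.b.symm _ _ hx)
    have h3 : e ∈ S₁ := hS₁ e (h.b.symm _ _ hx) heQ2
    exact (hek s₁ (h.b.symm _ _ (r₁.SN h3))).1 (a.sk r₁)
  -- (2)
  have hxp : x ∈ p := hke x a.kx' hxe
  have hdk : d ∉ N k := fun h' => h.cd (by
    have := a.k.kx d h' h.dx'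
    rw [← this]
    exact h.b.refl d)
  have hdp : d ∈ p := hke d hdk (fun h' => heQ2 (h.b.symm _ _ h'))
  have hwx : w ∈ N x := h.b.symm _ _ (hpw hxp)
  have hwd : w ∈ N d := h.b.symm _ _ (hpw hdp)
  by_cases hwx' : w = x
  · subst hwx'
    exact hzp (hcomp z (h.b.symm _ _ (h.b.symm _ _ hzx)) hzk)
  by_cases hwd' : w = d
  · subst hwd'
    have h3 : QQ N c w ⊆ (N k ∪ p)ᶜ := by
      intro y hy
      rw [mem_compl, mem_union, not_or]
      exact ⟨fun h' => a.k.kQ y h' hy, fun h' => (mem_QQ.mp hy).2 (hpw h')⟩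
    have h4 : QQ N c w = (N k ∪ p)ᶜ :=
      eq_of_subset_of_card_le h3 (by rw [hP, h.Qstar.1])
    rw [← h4] at hzP
    exact (mem_QQ.mp hzP).1 hzc
  · have h3 : w ∉ N g := fun h' => hwd' (b.gx w h' hwx)
    have h4 : w ∉ N t := fun h' => r.td h' hwd
    exact hzp (hcomp z (h.b.symm _ _ (hz w h3 h4)) hzk)

/-- **The hard configuration is impossible.** -/
theorem false : False := by
  obtain ⟨S, s, t, g, r, b⟩ := a.exTii
  exact a.noTii r b

end HK

/-- No two high vertices have exactly one common closed neighbour. -/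
theorem HP.false {c d x : V} (h : HP N K c d x) : False := by
  rcases h.exk with ⟨⟨q, hq, hNq⟩, ⟨k, hk⟩ | ⟨k, hk⟩⟩
  · have a : HK N K c d x k q := ⟨h, hk, hq, hNq⟩
    exact a.false
  · have h' := h.swap
    have hq' : q ∈ QQ N d c := HP.qswap.mp hq
    have hNq' : N q = QQ N d c := by
      rw [hNq]
      ext y
      exact HP.qswap
    have a : HK N K d c x k q := ⟨h', hk, hq', hNq'⟩
    exact a.false

/-- Two high vertices have at least two common closed neighbours. -/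
theorem BB.two_common (h : BB N K) {u v : V} (hu : (N u).card = K + 1) (hv : (N v).card = K + 1) :
    2 ≤ (N u ∩ N v).card := by
  by_contra hcon
  obtain ⟨x, hx, hx'⟩ := h.notFar hu hv
  have h1 : x ∈ N u ∩ N v := mem_inter.mpr ⟨hx, hx'⟩
  have h2 : (N u ∩ N v).card ≤ 1 := by omega
  have : HP N K u v x := ⟨h, hu, hv, hx, hx', fun y hy hy' =>
    card_le_one.mp h2 y (mem_inter.mpr ⟨hy, hy'⟩) x h1⟩
  exact this.false

end Pool.Agent.Star.BaseAA
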