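import Pool.Agent.Star.BaseB3

/-!
# The base case with a high vertex, type B: types of vertices outside a high neighbourhood

`d` is high.  `JJ` are the star sets outside the closed neighbourhood of `d`, `st` is the
complement, `c` chooses centres and `τ` types.
-/

set_option autoImplicit false
set_option linter.unusedSectionVars false
set_option linter.unusedVariables false

namespace Pool.Agent.Star.BaseAA

open Finset

variable {V : Type*} [Fintype V] [DecidableEq V] {N : V → Finset V} {K : ℕ}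

/-- Star sets avoiding the closed neighbourhood of `d`. -/
def JJ (N : V → Finset V) (K : ℕ) (d : V) (p : Finset V) : Prop :=
  Sr N K p ∧ Disjoint p (N d)

/-- The complementary set outside the closed neighbourhood of `d`. -/
def st (N : V → Finset V) (d : V) (p : Finset V) : Finset V := (N d ∪ p)ᶜ

lemma mem_st {d x : V} {p : Finset V} : x ∈ st N d p ↔ x ∉ N d ∧ x ∉ p := by
  rw [st, mem_compl, mem_union, not_or]

lemma JJ.out {d x : V} {p : Finset V} (h : JJ N K d p) (hx : x ∈ p) : x ∉ N d := nin h.2 hx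

namespace BB

variable (h : BB N K)
include h

/-- The complement of a star set is a star set. -/
lemma stJ {d : V} (hd : (N d).card = K + 1) {p : Finset V} (hp : JJ N K d p) :
    JJ N K d (st N d p) := by
  obtain ⟨⟨hp1, c, hc, hpc⟩, hp2⟩ := hp
  refine ⟨(h.comp hd hp1 hc hpc hp2).1, ?_⟩
  rw [disjoint_left]
  intro x hx
  exact (mem_st.mp hx).1

/-- Centres are exact. -/
lemma exact {d : V} (hd : (N d).card = K + 1) {p : Finset V} {c : V} (hp : JJ N K d p)
    (hpc : p ⊆ N c) (hc : c ∈ p) : N c = p := by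
  have h1 := (h.comp hd hp.1.1 hc hpc hp.2).2
  by_contra hne
  have h2 : (N c).card = K + 1 := by
    have h3 := h.card_le c
    have h4 := card_lt_card (ssubset_of_subset_of_ne hpc (Ne.symm hne))
    have h5 := hp.1.1
    omega
  have h3 := h.two_common h2 hd
  have h4 : N c ∩ N d ⊆ N c \ p := by
    intro x hx
    rw [mem_inter] at hx
    exact mem_sdiff.mpr ⟨hx.1, fun h' => hp.out h' hx.2⟩
  have h5 := card_le_card h4
  have h6 := card_sdiff_add_card_eq_card hpc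
  have h7 := hp.1.1
  omega

lemma cen {d : V} (hd : (N d).card = K + 1) {p : Finset V} (hp : JJ N K d p) :
    ∃ c, N c = p := by
  obtain ⟨⟨hp1, c, hc, hpc⟩, hp2⟩ := id hp
  exact ⟨c, h.exact hd hp hpc hc⟩

lemma typ {d : V} (hd : (N d).card = K + 1) {v : V} :
    ∃ p, JJ N K d p ∧ ∀ x ∈ N v, x ∉ N d → x ∈ p := by
  obtain ⟨s, hs, h1, h2⟩ := h.T d v
  refine ⟨st N d s, h.stJ hd ⟨hs, h1⟩, fun x hx hxd => mem_st.mpr ⟨hxd, nin' h2 hx⟩⟩

end BB

/-- The context: `c` chooses centres, `τ` chooses types. -/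
structure Cx (N : V → Finset V) (K : ℕ) (d : V) (c : Finset V → V) (τ : V → Finset V) :
    Prop where
  h : BB N K
  hd : (N d).card = K + 1
  cen : ∀ p, JJ N K d p → N (c p) = p
  J : ∀ v, JJ N K d (τ v)
  tau : ∀ v, ∀ x ∈ N v, x ∉ N d → x ∈ τ v

theorem exists_cx (h : BB N K) {d : V} (hd : (N d).card = K + 1) :
    ∃ c τ, Cx N K d c τ := by
  classical
  have h1 : ∀ p, ∃ c, JJ N K d p → N c = p := by
    intro p
    by_cases hp : JJ N K d p
    · obtain ⟨c, hc⟩ := h.cen hd hp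
      exact ⟨c, fun _ => hc⟩
    · exact ⟨d, fun h' => absurd h' hp⟩
  choose c hc using h1
  have h2 : ∀ v, ∃ p, JJ N K d p ∧ ∀ x ∈ N v, x ∉ N d → x ∈ p := fun v => h.typ hd
  choose τ hτ using h2
  exact ⟨c, τ, h, hd, hc, fun v => (hτ v).1, fun v => (hτ v).2⟩

namespace Cx

variable {d : V} {c : Finset V → V} {τ : V → Finset V} (a : Cx N K d c τ)
include a

lemma sJ {p : Finset V} (hp : JJ N K d p) : JJ N K d (st N d p) := a.h.stJ a.hd hp

lemma ss {p : Finset V} (hp : JJ N K d p) : st N d (st N d p) = p := by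
  ext x
  rw [mem_st, mem_st]
  constructor
  · rintro ⟨h1, h2⟩
    by_contra h3
    exact h2 ⟨h1, h3⟩
  · intro hx
    exact ⟨hp.out hx, fun h' => h'.2 hx⟩

lemma mem {p : Finset V} (hp : JJ N K d p) : c p ∈ p := by
  have := a.h.refl (c p)
  rwa [a.cen p hp] at this

lemma cout {p : Finset V} (hp : JJ N K d p) : c p ∉ N d := hp.out (a.mem hp)

/-- Adjacency of a centre is membership. -/
lemma adj {q : Finset V} {v : V} (hq : JJ N K d q) : c q ∈ N v ↔ v ∈ q := by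
  rw [a.h.comm, a.cen q hq]

lemma sym {p q : Finset V} (hp : JJ N K d p) (hq : JJ N K d q) : c p ∈ q ↔ c q ∈ p := by
  rw [← a.adj hp, a.cen q hq]

lemma rst {p q : Finset V} (hp : JJ N K d p) (hq : JJ N K d q) : c p ∈ st N d q ↔ c p ∉ q := by
  rw [mem_st]
  exact ⟨fun h' => h'.2, fun h' => ⟨a.cout hp, h'⟩⟩

lemma lst {p q : Finset V} (hp : JJ N K d p) (hq : JJ N K d q) : c (st N d p) ∈ q ↔ c p ∉ q := by
  rw [a.sym (a.sJ hp) hq, a.rst hq hp, a.sym hq hp]

/-- (1.1) for any candidate type. -/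
lemma t1' {v : V} {p : Finset V} (hv : v ∉ N d) (hp : JJ N K d p)
    (hvp : ∀ x ∈ N v, x ∉ N d → x ∈ p) {q : Finset V} (hq : JJ N K d q) : v ∈ q ↔ c q ∈ p := by
  have key : ∀ q, JJ N K d q → v ∈ q → c q ∈ p := fun q hq hvq =>
    hvp _ ((a.adj hq).mpr hvq) (a.cout hq)
  constructor
  · exact key q hq
  · intro hcq
    by_contra hvq
    have h1 := key _ (a.sJ hq) (mem_st.mpr ⟨hv, hvq⟩)
    exact (a.lst hq hp).mp h1 hcq

/-- (1.1) -/
lemma t1 {v : V} (hv : v ∉ N d) {q : Finset V} (hq : JJ N K d q) : v ∈ q ↔ c q ∈ τ v :=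
  a.t1' hv (a.J v) (a.tau v) hq

lemma tself {v : V} (hv : v ∉ N d) : v ∈ τ v := a.tau v v (a.h.refl v) hv

/-- (1.2) -/
lemma ext {p p' : Finset V} (hp : JJ N K d p) (hp' : JJ N K d p')
    (hq : ∀ q, JJ N K d q → c q ∈ p → c q ∈ p') : p = p' := by
  have h1 : ∀ q, JJ N K d q → (c q ∈ p ↔ c q ∈ p') := by
    intro q hqJ
    refine ⟨hq q hqJ, fun h' => ?_⟩
    by_contra hcon
    have h2 := hq _ (a.sJ hqJ) ((a.lst hqJ hp).mpr hcon)
    exact (a.lst hqJ hp').mp h2 h'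
  ext v
  by_cases hv : v ∈ N d
  · exact ⟨fun h' => absurd hv (hp.out h'), fun h' => absurd hv (hp'.out h')⟩
  · rw [a.t1 hv hp, a.t1 hv hp', a.sym hp (a.J v), a.sym hp' (a.J v)]
    exact h1 _ (a.J v)

lemma tau_eq {v : V} {p : Finset V} (hv : v ∉ N d) (hp : JJ N K d p)
    (hvp : ∀ x ∈ N v, x ∉ N d → x ∈ p) : τ v = p :=
  a.ext (a.J v) hp fun q hq h' => (a.t1' hv hp hvp hq).mp ((a.t1 hv hq).mpr h')

lemma tau_cen {g : V} {p : Finset V} (hp : JJ N K d p) (hg : N g = p) : τ g = p := by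
  have hgp : g ∈ p := by rw [← hg]; exact a.h.refl g
  exact a.tau_eq (hp.out hgp) hp (by rw [hg]; exact fun x hx _ => hx)

lemma tau_c {p : Finset V} (hp : JJ N K d p) : τ (c p) = p := a.tau_cen hp (a.cen p hp)

lemma tau_miss {v : V} {s : Finset V} (hv : v ∉ N d) (hs : JJ N K d s) (hd : Disjoint s (N v)) :
    τ v = st N d s :=
  a.tau_eq hv (a.sJ hs) fun x hx hxd => mem_st.mpr ⟨hxd, nin' hd hx⟩

/-- (1.3) -/
lemma t3 {v : V} (hv : v ∉ N d) {q : Finset V} (hq : JJ N K d q) : c q ∈ N v ↔ c q ∈ τ v := by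
  rw [a.adj hq, a.t1 hv hq]

/-- (DISJ) -/
lemma disj {p r : Finset V} (hp : JJ N K d p) (hr : JJ N K d r)
    (hq : ∀ q, JJ N K d q → c q ∈ p → c q ∉ r) : r = st N d p := by
  apply a.ext hr (a.sJ hp)
  intro q hqJ h1
  rw [a.rst hqJ hp]
  exact fun h2 => hq q hqJ h2 h1

/-- (1.4) -/
lemma two {p : Finset V} (hp : JJ N K d p) :
    ∃ i k, JJ N K d i ∧ JJ N K d k ∧ c i ∈ p ∧ c k ∈ p ∧ c i ∉ k := by
  have hs := a.sJ hp
  have hdd : Disjoint p (st N d p) := disjoint_left.mpr fun x hx hx' => (mem_st.mp hx').2 hx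
  obtain ⟨v, hv, v', hv', hvv⟩ := edge_of_high a.h a.hd hp.1 hs.1 hp.2 hs.2 hdd
  have hvd := hp.out hv
  have hvd' := hs.out hv'
  have h1 : c (τ v) ∈ p := (a.sym (a.J v) hp).mpr ((a.t1 hvd hp).mp hv)
  have h2 : c (τ v') ∈ st N d p := (a.sym (a.J v') hs).mpr ((a.t1 hvd' hs).mp hv')
  have h3 : v' ∈ τ v := a.tau v v' hvv hvd'
  have h4 : c (τ v) ∈ τ v' := (a.t1 hvd' (a.J v)).mp h3
  refine ⟨τ v, st N d (τ v'), a.J v, a.sJ (a.J v'), h1, ?_, ?_⟩
  · rw [a.lst (a.J v') hp]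
    exact (a.rst (a.J v') hp).mp h2
  · rw [a.rst (a.J v) (a.J v')]
    exact fun h' => h' h4

lemma one {p : Finset V} (hp : JJ N K d p) : ∃ i, JJ N K d i ∧ c i ∈ p ∧ i ≠ p := by
  obtain ⟨i, k, hi, hk, h1, h2, h3⟩ := a.two hp
  by_cases h4 : i = p
  · refine ⟨k, hk, h2, fun h5 => h3 ?_⟩
    rw [h5]
    exact h1
  · exact ⟨i, hi, h1, h4⟩

end Cx

end Pool.Agent.Star.BaseAA
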