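import Pool.Agent.Star.BaseE1

/-!
# The base case with a high vertex, type B: high vertices are pairwise adjacent
-/

set_option autoImplicit false
set_option linter.unusedSectionVars false
set_option linter.unusedVariables false

namespace Pool.Agent.Star.BaseAA

open Finset

variable {V : Type*} [Fintype V] [DecidableEq V] {N : V → Finset V} {K : ℕ}

/-- Every pair of a high vertex and another vertex misses a member of `JJ`, with its centre. -/
lemma BB.missJ (h : BB N K) {b : V} (hb : (N b).card = K + 1) (z : V) :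
    ∃ g, JJ N K b (N g) ∧ Disjoint (N g) (N z) := by
  obtain ⟨s, hs, h1, h2⟩ := h.T b z
  obtain ⟨g, hg⟩ := h.cen hb ⟨hs, h1⟩
  exact ⟨g, by rw [hg]; exact ⟨hs, h1⟩, by rw [hg]; exact h2⟩

/-- The complementary member and its centre. -/
lemma BB.compJ (h : BB N K) {b g : V} (hb : (N b).card = K + 1) (hg : JJ N K b (N g)) :
    ∃ g', JJ N K b (N g') ∧ ∀ x, x ∈ N g' ↔ x ∉ N b ∧ x ∉ N g := by
  obtain ⟨g', hg'⟩ := h.cen hb (h.stJ hb hg)
  exact ⟨g', by rw [hg']; exact h.stJ hb hg, fun x => by rw [hg', mem_st]⟩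

theorem adj_high (h : BB N K) {d w : V} (hd : (N d).card = K + 1) (hw : (N w).card = K + 1) :
    w ∈ N d := by
  by_contra hwd
  obtain ⟨c, τ, a⟩ := exists_cx h hd
  have hl := a.J w
  -- the vertex `v`
  have hv : ∃ v ∈ τ w, v ∉ N w := by
    by_contra hcon
    push Not at hcon
    have h1 : N w ∩ N d ⊆ N w \ τ w := by
      intro x hx
      rw [mem_inter] at hx
      exact mem_sdiff.mpr ⟨hx.1, fun h' => hl.out h' hx.2⟩
    have h2 := card_le_card h1
    have h3 := card_sdiff_add_card_eq_card (show τ w ⊆ N w from hcon)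
    have h4 := hl.1.1
    have h5 := h.two_common hw hd
    omega
  obtain ⟨v, hvl, hvw⟩ := hv
  have hvd := hl.out hvl
  -- (2.1)
  have h21 : ∀ g, JJ N K w (N g) → d ∉ N g →
      (∀ x ∈ N g, x ∉ N d → x ∉ τ w) ∧ ∀ k, JJ N K d k → c k ∉ τ w → c k ∈ N g := by
    intro g hg hdg
    have hgd : g ∉ N d := fun h' => hdg (h.symm _ _ h')
    have h1 : τ g = st N d (τ w) := by
      apply a.disj hl (a.J g)
      intro q hq h2 h3
      have h4 := (a.t3 hwd hq).mpr h2
      have h5 := (a.t3 hgd hq).mpr h3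
      exact hg.out h5 h4
    constructor
    · intro x hx hxd
      have h2 := a.tau g x hx hxd
      rw [h1] at h2
      exact (mem_st.mp h2).2
    · intro k hk hkl
      rw [a.t3 hgd hk, h1]
      exact (a.rst hk hl).mpr hkl
  -- (2.2)
  have h22 : ∀ g, JJ N K w (N g) → d ∈ N g → v ∈ N g := by
    intro g hg hdg
    obtain ⟨g', hg', hmem⟩ := h.compJ hw hg
    have h1 : d ∉ N g' := fun h' => ((hmem d).mp h').2 hdg
    by_contra hcon
    exact (h21 g' hg' h1).1 v ((hmem v).mpr ⟨hvw, hcon⟩) hvd hvl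
  -- (2.3)
  have h23 : ∀ k, JJ N K d k → c k ∉ τ w → v ∉ k := by
    intro k hk hkl hvk
    obtain ⟨g, hg, hdis⟩ := h.missJ hw (c k)
    rw [a.cen k hk] at hdis
    by_cases hdg : d ∈ N g
    · exact nin hdis (h22 g hg hdg) hvk
    · exact nin hdis ((h21 g hg hdg).2 k hk hkl) (a.mem hk)
  have htv : τ w = τ v := by
    apply a.ext hl (a.J v)
    intro q hq hql
    rw [← a.t1 hvd hq]
    by_contra hcon
    have h1 := h23 _ (a.sJ hq) (by rw [a.lst hq hl]; exact fun h' => h' hql)
    exact h1 (mem_st.mpr ⟨hvd, hcon⟩)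
  -- (2.4)
  obtain ⟨i, hi, hil, hne⟩ := a.one hl
  have hvi : v ∈ i := by
    rw [a.t1 hvd hi, ← htv]
    exact hil
  have hk : ∃ k, JJ N K d k ∧ c k ∈ i ∧ c k ∉ τ w := by
    by_contra hcon
    push Not at hcon
    exact hne (a.ext hi hl hcon)
  obtain ⟨k, hk, hki, hkl⟩ := hk
  obtain ⟨g, hg, hdis⟩ := h.missJ hw (c i)
  rw [a.cen i hi] at hdis
  by_cases hdg : d ∈ N g
  · exact nin hdis (h22 g hg hdg) hvi
  · exact nin hdis ((h21 g hg hdg).2 k hk hkl) hki

end Pool.Agent.Star.BaseAA
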