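import Pool.Agent.Star.BaseE2

/-!
# The base case with a high vertex, type B: high vertices have the same closed neighbourhood
-/

set_option autoImplicit false
set_option linter.unusedSectionVars false
set_option linter.unusedVariables false

namespace Pool.Agent.Star.BaseAA

open Finset

variable {V : Type*} [Fintype V] [DecidableEq V] {N : V → Finset V} {K : ℕ}

lemma BB.highs (h : BB N K) {d v : V} (hd : (N d).card = K + 1) (hv : v ∉ N d) :
    (N v).card ≤ K := by
  have h1 := h.card_le v
  have h2 : (N v).card ≠ K + 1 := fun h' => hv (adj_high h hd h')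
  omega

theorem same_high (h : BB N K) {d b : V} (hd : (N d).card = K + 1) (hb : (N b).card = K + 1) :
    N b = N d := by
  by_contra hne
  have hbd : b ∈ N d := adj_high h hd hb
  have hdb : d ∈ N b := h.symm _ _ hbd
  obtain ⟨c, τ, a⟩ := exists_cx h hd
  -- a neighbour of `b` outside
  have ht : ∃ t ∈ N b, t ∉ N d := by
    by_contra hcon
    push Not at hcon
    exact hne (eq_of_subset_of_card_le hcon (by rw [hd, hb]))
  obtain ⟨t, htb, htd⟩ := ht
  have hbt : b ∈ N t := h.symm _ _ htb
  have hcb : ∀ q, JJ N K d q → c q ∉ N b := by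
    intro q hq h'
    exact hq.out ((a.adj hq).mp h') hbd
  -- members of `J b` have their centre outside `N d`
  have hout : ∀ g, JJ N K b (N g) → g ∉ N d := fun g hg h' => hg.out (h.symm _ _ h') hdb
  have hk := a.J b
  have hl := a.J t
  have htk : t ∈ τ b := a.tau b t htb htd
  have hkl : c (τ b) ∈ τ t := (a.t1 htd hk).mp htk
  -- the choice of `i`
  have hi : ∃ i, JJ N K d i ∧ c i ∈ τ t ∧ i ≠ τ t ∧ c i ∈ τ b := by
    by_cases h1 : τ b = τ t
    · obtain ⟨i, hi, h2, h3⟩ := a.one hl
      exact ⟨i, hi, h2, h3, by rw [h1]; exact h2⟩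
    · exact ⟨τ b, hk, hkl, h1, a.mem hk⟩
  obtain ⟨i, hi, hil, hine, hik⟩ := hi
  have hti : t ∈ i := (a.t1 htd hi).mpr hil
  -- `Q` with centre `g`
  obtain ⟨g', hg', hdis'⟩ := h.missJ hb (c i)
  rw [a.cen i hi] at hdis'
  obtain ⟨g, hg, hmem⟩ := h.compJ hb hg'
  have hiQ : ∀ x ∈ i, x ∉ N b → x ∈ N g := fun x hx hxb =>
    (hmem x).mpr ⟨hxb, nin' hdis' hx⟩
  have hgd := hout g hg
  have hji : ∀ j, JJ N K d j → c j ∈ i → c j ∈ N g := fun j hj hji =>
    hiQ _ hji (hcb j hj)
  have hti' : i = τ g := a.ext hi (a.J g) fun j hj h' => (a.t3 hgd hj).mp (hji j hj h')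
  have hQi : ∀ x ∈ N g, x ∉ N d → x ∈ i := fun x hx hxd => by
    rw [hti']; exact a.tau g x hx hxd
  -- `y`
  have hy : ∃ y ∈ N g, y ∈ N d ∧ y ≠ b := by
    by_contra hcon
    push Not at hcon
    have h1 : N g ⊆ i.erase t := by
      intro x hx
      have hxd : x ∉ N d := by
        intro h'
        have := hcon x hx h'
        rw [this] at hx
        exact hg.out hx (h.refl b)
      refine mem_erase.mpr ⟨?_, hQi x hx hxd⟩
      rintro rfl
      exact hg.out hx htb
    have h2 := card_le_card h1
    rw [card_erase_of_mem hti, hg.1.1, hi.1.1] at h2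
    have := h.hK
    omega
  obtain ⟨y, hyg, hyd, hyb⟩ := hy
  have hbg : b ∉ N g := fun h' => hg.out h' (h.refl b)
  -- the star set missed by `t` and `g`
  obtain ⟨m, ⟨hmK, κ, hκm, hmκ⟩, hmt, hmg⟩ := h.T t g
  have hbm : b ∉ m := fun h' => nin hmt h' hbt
  have hκb : κ ≠ b := fun h' => hbm (h' ▸ hκm)
  by_cases hκd : κ ∈ N d
  · by_cases hκe : κ = d
    · -- (b)
      subst hκe
      have h1 : m ⊆ ((N κ).erase b).erase y := by
        intro x hx
        refine mem_erase.mpr ⟨?_, mem_erase.mpr ⟨?_, hmκ hx⟩⟩
        · rintro rfl; exact nin hmg hx hyg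
        · rintro rfl; exact hbm hx
      have h2 := card_le_card h1
      rw [card_erase_of_mem (mem_erase.mpr ⟨hyb, hyd⟩), card_erase_of_mem hbd, hd, hmK] at h2
      have := h.hK
      omega
    · by_cases hhigh : (N κ).card = K + 1
      · -- (c)
        have hbκ : b ∈ N κ := adj_high h hhigh hb
        have hNκ : N κ = insert b m := h.plus hmK hmκ hbκ hbm
        have hgκ : JJ N K κ (N g) := by
          refine ⟨hg.1, ?_⟩
          rw [hNκ, disjoint_insert_right]
          exact ⟨hbg, hmg.symm⟩
        obtain ⟨g2, hg2, hmem2⟩ := h.compJ hhigh hgκ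
        have htκ : t ∉ N κ := by
          rw [hNκ, mem_insert]
          rintro (h' | h')
          · rw [h'] at htd; exact htd hbd
          · exact nin hmt h' (h.refl t)
        have htg : t ∉ N g := fun h' => hg.out h' htb
        have htg2 : t ∈ N g2 := (hmem2 t).mpr ⟨htκ, htg⟩
        have hdg2 : d ∉ N g2 := fun h' => ((hmem2 d).mp h').1 (h.symm _ _ hκd)
        have hg2d : g2 ∉ N d := fun h' => hdg2 (h.symm _ _ h')
        have h1 : τ g2 = st N d i := by
          apply a.disj hi (a.J g2)
          intro j hj h2 h3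
          have h4 := (a.t3 hg2d hj).mpr h3
          exact ((hmem2 _).mp h4).2 (hji j hj h2)
        have h2 := a.tau g2 t htg2 htd
        rw [h1] at h2
        exact (mem_st.mp h2).2 hti
      · -- (d)
        have hlow : (N κ).card ≤ K := by
          have := h.card_le κ
          omega
        have hmN : m = N κ := h.full hmK hmκ hlow
        have hκNb : κ ∉ N b := fun h' => hbm (by rw [hmN]; exact h.symm _ _ h')
        -- `st k` is a member of `J b`
        have hs := a.sJ hk
        have hsb : JJ N K b (st N d (τ b)) := by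
          refine ⟨hs.1, disjoint_left.mpr ?_⟩
          intro x hx hxb
          rw [mem_st] at hx
          exact hx.2 (a.tau b x hxb hx.1)
        obtain ⟨s, hs'⟩ := h.cen hb hsb
        obtain ⟨gk, hgk, hmemk⟩ := h.compJ (g := s) hb (by rw [hs']; exact hsb)
        rw [hs'] at hmemk
        have hκP : κ ∈ N gk := (hmemk κ).mpr ⟨hκNb, fun h' => (mem_st.mp h').1 hκd⟩
        have hgkm : gk ∈ m := by rw [hmN]; exact h.symm _ _ hκP
        have hgkd := hout gk hgk
        have h1 : τ gk = τ b := by
          apply a.ext (a.J gk) hk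
          intro j hj h2
          have h3 := (a.t3 hgkd hj).mpr h2
          have h4 := ((hmemk _).mp h3).2
          by_contra h5
          exact h4 ((a.rst hj hk).mpr h5)
        have h2 : gk ∈ i := by
          rw [a.t1 hgkd hi, h1]
          exact hik
        have h3 : gk ∉ N b := ((hmemk gk).mp (h.refl gk)).1
        exact nin hmg hgkm (hiQ gk h2 h3)
  · -- (a)
    have hlow := h.highs hd hκd
    have hmN : m = N κ := h.full hmK hmκ hlow
    have h1 : τ κ = st N d (τ t) := by
      apply a.disj hl (a.J κ)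
      intro q hq h2 h3
      have h4 := (a.t3 hκd hq).mpr h3
      rw [← hmN] at h4
      exact nin hmt h4 ((a.t3 htd hq).mpr h2)
    have h2 : τ κ = st N d i := by
      apply a.disj hi (a.J κ)
      intro q hq h2 h3
      have h4 := (a.t3 hκd hq).mpr h3
      rw [← hmN] at h4
      exact nin hmg h4 (hji q hq h2)
    rw [h1] at h2
    have h3 := a.ss hl
    rw [h2, a.ss hi] at h3
    exact hine h3

end Pool.Agent.Star.BaseAA
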