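import Pool.Agent.Star.BaseE3
import Pool.Agent.Star.BaseRed

/-!
# The base case with a high vertex, type B: the count, and the base case for all `K`
-/

set_option autoImplicit false
set_option linter.unusedSectionVars false
set_option linter.unusedVariables false

namespace Pool.Agent.Star.BaseAA

open Finset

variable {V : Type*} [Fintype V] [DecidableEq V] {N : V → Finset V} {K : ℕ}

/-- Vertices outside with a full neighbourhood which touches `N d`. -/
def UU (N : V → Finset V) (K : ℕ) (d : V) : Finset V :=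
  univ.filter fun u => u ∉ N d ∧ (N u).card = K ∧ (N u ∩ N d).Nonempty

lemma mem_UU {d u : V} : u ∈ UU N K d ↔ u ∉ N d ∧ (N u).card = K ∧ (N u ∩ N d).Nonempty := by
  simp [UU]

namespace Cx

variable {d : V} {c : Finset V → V} {τ : V → Finset V} (a : Cx N K d c τ)
include a

lemma low_out {v : V} (hv : v ∉ N d) : (N v).card ≤ K := a.h.highs a.hd hv

lemma low_in {x y : V} (hy : y ∈ N x) (hyd : y ∉ N d) : (N x).card ≤ K := by
  have h1 := a.h.card_le x
  have h2 : (N x).card ≠ K + 1 := fun h' => hyd (by rw [← same_high a.h a.hd h']; exact hy)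
  omega

/-- (4.0) Star sets without `d`. -/
lemma kinds {m : Finset V} (hm : Sr N K m) (hdm : d ∉ m) :
    JJ N K d m ∨ (∃ u ∈ UU N K d, m = N u) ∨ m = (N d).erase d := by
  obtain ⟨hmK, κ, hκm, hmκ⟩ := id hm
  have hκe : κ ≠ d := fun h' => hdm (h' ▸ hκm)
  by_cases hκd : κ ∈ N d
  · right; right
    by_cases hhigh : (N κ).card = K + 1
    · have h1 : N κ = N d := same_high a.h a.hd hhigh
      apply eq_of_subset_of_card_le
      · intro x hx
        exact mem_erase.mpr ⟨fun h' => hdm (h' ▸ hx), by rw [← h1]; exact hmκ hx⟩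
      · rw [card_erase_of_mem (a.h.refl d), a.hd, hmK]
        omega
    · exfalso
      have h1 := a.h.card_le κ
      have h2 : m = N κ := a.h.full hmK hmκ (by omega)
      exact hdm (by rw [h2]; exact a.h.symm _ _ hκd)
  · have h2 : m = N κ := a.h.full hmK hmκ (a.low_out hκd)
    by_cases h3 : (N κ ∩ N d).Nonempty
    · right; left
      exact ⟨κ, mem_UU.mpr ⟨hκd, by rw [← h2]; exact hmK, h3⟩, h2⟩
    · left
      refine ⟨hm, ?_⟩
      rw [h2, disjoint_iff_inter_eq_empty]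
      exact not_nonempty_iff_eq_empty.mp h3

lemma opp {u v : V} (hu : u ∉ N d) (hv : v ∉ N d) (hdis : Disjoint (N u) (N v)) :
    τ u = st N d (τ v) := by
  apply a.disj (a.J v) (a.J u)
  intro q hq h1 h2
  exact nin hdis ((a.t3 hu hq).mpr h2) ((a.t3 hv hq).mpr h1)

lemma st_inj {p q : Finset V} (hp : JJ N K d p) (hq : JJ N K d q) (h : st N d p = st N d q) :
    p = q := by
  have := a.ss hp
  rw [h, a.ss hq] at this
  exact this.symm

/-- (4.1) -/
lemma f1 {x v : V} {j : Finset V} (hx : x ∈ N d) (hxd : x ≠ d) (hj : JJ N K d j)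
    (hxj : ∃ z ∈ N x, z ∈ j) (hv : v ∉ N d) (hvj : τ v = st N d j) :
    ∃ u ∈ UU N K d, τ u = j ∧ Disjoint (N u) (N x) ∧ Disjoint (N u) (N v) := by
  obtain ⟨m, hm, h1, h2⟩ := a.h.T x v
  have hdm : d ∉ m := fun h' => nin h1 h' (a.h.symm _ _ hx)
  rcases a.kinds hm hdm with h3 | ⟨u, hu, rfl⟩ | h3
  · exfalso
    have h4 := a.tau_miss hv h3 h2
    rw [hvj] at h4
    have h5 := a.st_inj hj h3 h4
    obtain ⟨z, hz1, hz2⟩ := hxj
    rw [h5] at hz2
    exact nin h1 hz2 hz1
  · refine ⟨u, hu, ?_, h1, h2⟩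
    rw [a.opp (mem_UU.mp hu).1 hv h2, hvj, a.ss hj]
  · exfalso
    exact nin h1 (by rw [h3]; exact mem_erase.mpr ⟨hxd, hx⟩) (a.h.refl x)

/-- (4.2), the main step. -/
lemma f2 {u v : V} {j : Finset V} (hu : u ∈ UU N K d) (h2 : 2 ≤ (N u ∩ N d).card)
    (hj : JJ N K d j) (hne : j ≠ τ u) (hv : v ∉ N d) (hvj : τ v = j) :
    ∃ w ∈ UU N K d, τ w = st N d j ∧ ((N u ∩ N d) \ N w).card ≤ 1 ∧ Disjoint (N w) (N v) := by
  obtain ⟨hud, huK, -⟩ := mem_UU.mp hu
  obtain ⟨m, hm, hmu, hmj⟩ := a.h.T u (c j)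
  have hcd := a.cout hj
  have hdm : d ∈ m := by
    by_contra hdm
    rcases a.kinds hm hdm with h3 | ⟨z, hz, rfl⟩ | h3
    · have h4 := a.tau_miss hud h3 hmu
      have h5 := a.tau_miss hcd h3 hmj
      rw [a.tau_c hj] at h5
      exact hne (by rw [h5, h4])
    · have h4 := a.opp (mem_UU.mp hz).1 hud hmu
      have h5 := a.opp (mem_UU.mp hz).1 hcd hmj
      rw [a.tau_c hj] at h5
      rw [h4] at h5
      exact hne (a.st_inj (a.J u) hj h5).symm
    · obtain ⟨x, hx⟩ := (mem_UU.mp hu).2.2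
      rw [mem_inter] at hx
      have hxd : x ≠ d := by
        rintro rfl
        exact hud (a.h.symm _ _ hx.1)
      exact nin hmu (by rw [h3]; exact mem_erase.mpr ⟨hxd, hx.2⟩) hx.1
  obtain ⟨hmK, ζ, hζm, hmζ⟩ := hm
  have hζd : ζ ∈ N d := a.h.symm _ _ (hmζ hdm)
  have hz : ∃ z ∈ N ζ, z ∉ N d := by
    by_contra hcon
    push Not at hcon
    have h3 : m ⊆ N d \ (N u ∩ N d) := by
      intro x hx
      exact mem_sdiff.mpr ⟨hcon x (hmζ hx), fun h' => nin hmu hx (mem_inter.mp h').1⟩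
    have h4 := card_le_card h3
    have h5 := card_sdiff_add_card_eq_card (show N u ∩ N d ⊆ N d from inter_subset_right)
    have h6 := a.hd
    omega
  obtain ⟨z, hzζ, hzd⟩ := hz
  have hmN : m = N ζ := a.h.full hmK hmζ (a.low_in hzζ hzd)
  have hζe : ζ ≠ d := by
    rintro rfl
    exact hzd hzζ
  rw [a.cen j hj] at hmj
  have hzj : z ∉ j := fun h' => nin hmj (by rw [hmN]; exact hzζ) h'
  obtain ⟨w, hw, hwj, hwζ, hwv⟩ := a.f1 hζd hζe (a.sJ hj) ⟨z, hzζ, mem_st.mpr ⟨hzd, hzj⟩⟩ hv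
    (by rw [hvj, a.ss hj])
  refine ⟨w, hw, hwj, ?_, hwv⟩
  obtain ⟨hwd, hwK, -⟩ := mem_UU.mp hw
  have hW : (m ∪ j)ᶜ.card = K + 1 := by
    rw [card_compl, card_union_of_disjoint hmj, hmK, hj.1.1, a.h.card]
    omega
  have hNw : N w ⊆ (m ∪ j)ᶜ := by
    intro x hx
    rw [mem_compl, mem_union]
    rintro (h' | h')
    · rw [hmN] at h'
      exact nin hwζ hx h'
    · have h3 := a.tau w x hx (hj.out h')
      rw [hwj] at h3
      exact (mem_st.mp h3).2 h'
  have hXu : (N u ∩ N d) \ N w ⊆ (m ∪ j)ᶜ \ N w := by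
    intro x hx
    rw [mem_sdiff, mem_inter] at hx
    rw [mem_sdiff, mem_compl, mem_union]
    refine ⟨?_, hx.2⟩
    rintro (h' | h')
    · exact nin hmu h' hx.1.1
    · exact hj.out h' hx.1.2
  have h3 := card_le_card hXu
  have h4 := card_sdiff_add_card_eq_card hNw
  omega

/-- (4.2) -/
lemma f3 {u : V} (hu : u ∈ UU N K d) : (N u ∩ N d).card ≤ 2 := by
  by_contra hcon
  push Not at hcon
  obtain ⟨j, hj, hju, hne⟩ := a.one (a.J u)
  have hs := a.sJ hj
  have hne2 : st N d j ≠ τ u := by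
    intro h'
    rw [← h', mem_st] at hju
    exact hju.2 (a.mem hj)
  obtain ⟨w, hw, hwj, h1, -⟩ := a.f2 hu (by omega) hs hne2 (a.cout hs) (a.tau_c hs)
  rw [a.ss hj] at hwj
  obtain ⟨w', hw', -, h2, h3⟩ := a.f2 hu (by omega) hj hne (mem_UU.mp hw).1 hwj
  have h4 : N u ∩ N d ⊆ ((N u ∩ N d) \ N w) ∪ ((N u ∩ N d) \ N w') := by
    intro x hx
    rw [mem_union, mem_sdiff, mem_sdiff]
    by_cases hxw : x ∈ N w
    · right
      exact ⟨hx, nin' h3 hxw⟩
    · left
      exact ⟨hx, hxw⟩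
  have h5 := (card_le_card h4).trans (card_union_le _ _)
  omega

/-- (4.3) -/
lemma f4 {u : V} {j : Finset V} (hu : u ∈ UU N K d) (hj : JJ N K d j) (hju : c j ∈ τ u) :
    ∃ w ∈ UU N K d, τ w = j ∧ u ∈ τ w \ N w := by
  obtain ⟨hud, huK, x, hx⟩ := mem_UU.mp hu
  rw [mem_inter] at hx
  have hxd : x ≠ d := by
    rintro rfl
    exact hud (a.h.symm _ _ hx.1)
  have huj : u ∈ j := (a.t1 hud hj).mpr hju
  have hux : u ∈ N x := a.h.symm _ _ hx.1
  have hs := a.sJ hj
  obtain ⟨w, hw, hwj, h1, -⟩ := a.f1 hx.2 hxd hj ⟨u, hux, huj⟩ (a.cout hs) (a.tau_c hs)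
  exact ⟨w, hw, hwj, mem_sdiff.mpr ⟨by rw [hwj]; exact huj, nin' h1 hux⟩⟩

lemma miss {w : V} (hw : w ∈ UU N K d) : (τ w \ N w).card ≤ 2 := by
  have h1 := a.f3 hw
  obtain ⟨hwd, hwK, -⟩ := mem_UU.mp hw
  have h2 : N w \ N d ⊆ τ w := by
    intro x hx
    rw [mem_sdiff] at hx
    exact a.tau w x hx.1 hx.2
  have h3 : τ w \ N w ⊆ τ w \ (N w \ N d) := by
    intro x hx
    rw [mem_sdiff] at hx ⊢
    exact ⟨hx.1, fun h' => hx.2 (mem_sdiff.mp h').1⟩
  have h4 := card_le_card h3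
  have h5 := card_sdiff_add_card_eq_card h2
  have h6 := card_sdiff_add_card_inter (N w) (N d)
  have h7 := (a.J w).1.1
  omega

open Classical in
lemma empty : UU N K d = ∅ := by
  have h1 : (UU N K d).card * 3 ≤ (UU N K d).card * 2 := by
    apply card_mul_le_card_mul (fun u w => u ∈ τ w \ N w)
    · intro u hu
      obtain ⟨i, k, hi, hk, hiu, hku, hik⟩ := a.two (a.J u)
      obtain ⟨w1, hw1, e1, m1⟩ := a.f4 hu (a.J u) (a.mem (a.J u))
      obtain ⟨w2, hw2, e2, m2⟩ := a.f4 hu hi hiu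
      obtain ⟨w3, hw3, e3, m3⟩ := a.f4 hu hk hku
      have n12 : w1 ≠ w2 := by
        rintro rfl
        rw [e1] at e2
        rw [e2] at hku
        exact hik ((a.sym hk hi).mp hku)
      have n13 : w1 ≠ w3 := by
        rintro rfl
        rw [e1] at e3
        rw [e3] at hiu
        exact hik hiu
      have n23 : w2 ≠ w3 := by
        rintro rfl
        rw [e2] at e3
        rw [e3] at hik
        exact hik (a.mem hk)
      have h2 : ({w1, w2, w3} : Finset V) ⊆
          bipartiteAbove (fun u w => u ∈ τ w \ N w) (UU N K d) u := by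
        intro x hx
        rw [mem_bipartiteAbove]
        simp only [mem_insert, mem_singleton] at hx
        rcases hx with rfl | rfl | rfl
        · exact ⟨hw1, m1⟩
        · exact ⟨hw2, m2⟩
        · exact ⟨hw3, m3⟩
      have h3 := card_le_card h2
      rwa [card_eq_three.mpr ⟨w1, w2, w3, n12, n13, n23, rfl⟩] at h3
    · intro w hw
      refine (card_le_card ?_).trans (a.miss hw)
      intro x hx
      rw [mem_bipartiteBelow] at hx
      exact hx.2
  have h2 : (UU N K d).card = 0 := by omega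
  exact card_eq_zero.mp h2

theorem false : False := by
  have h1 : ∃ x ∈ N d, ∃ y ∈ N x, y ∉ N d := by
    by_contra hcon
    push Not at hcon
    have h2 := a.h.conn (N d) ⟨d, a.h.refl d⟩ (fun x hx y hy => hcon x hx y hy)
    exact a.cout (a.J d) (h2 _)
  obtain ⟨x, hx, y, hy, hyd⟩ := h1
  have hxd : x ≠ d := by
    rintro rfl
    exact hyd hy
  have hj := a.J y
  have hs := a.sJ hj
  obtain ⟨u, hu, -⟩ := a.f1 hx hxd hj ⟨y, hy, a.tself hyd⟩ (a.cout hs) (a.tau_c hs)
  rw [a.empty] at hu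
  exact notMem_empty u hu

end Cx

/-- There is no instance with a high vertex. -/
theorem no_high (h : BB N K) {d : V} (hd : (N d).card = K + 1) : False := by
  obtain ⟨c, τ, a⟩ := exists_cx h hd
  exact a.false

/-- **The base case for all `K ≥ 3`.** -/
theorem hbase_all {V : Type*} [DecidableEq V] {N : V → Finset V} {K : ℕ} {A : Finset V}
    {C : Finset (Finset V)} (hK : 3 ≤ K) (h : Rig.Viol N K A C) (h3 : Rig.gk N A C = 3) :
    3 * K + 1 < A.card :=
  hbase_of hK (fun N' hN' d hd => no_high hN' hd) h h3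

end Pool.Agent.Star.BaseAA
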