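import Pool.Agent.Star.Three

/-!
# Star isolation: basic tools

`N x` is the closed neighbourhood of `x`; `K = k + 1`.  For a vertex set `A`, `f N K A` is the
`K_{1,k}`-isolation number of the graph induced on `A`.
-/

set_option autoImplicit false

namespace Pool.Agent.Star

open Finset

variable {V : Type*} [DecidableEq V]

/-- The vertices of `A` not dominated by `D`. -/
def rem (N : V → Finset V) (A D : Finset V) : Finset V := A \ D.biUnion N

/-- `D` is an isolating set of the graph induced on `A`. -/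
def Iso (N : V → Finset V) (K : ℕ) (A D : Finset V) : Prop :=
  D ⊆ A ∧ ∀ v ∈ rem N A D, (N v ∩ rem N A D).card < K

open Classical in
/-- The isolation number of the graph induced on `A`. -/
noncomputable def f (N : V → Finset V) (K : ℕ) (A : Finset V) : ℕ :=
  sInf {m | ∃ D, Iso N K A D ∧ D.card = m}

/-- `A` induces a connected graph. -/
def Conn (N : V → Finset V) (A : Finset V) : Prop :=
  A.Nonempty ∧ ∀ B ⊆ A, B.Nonempty → B ≠ A → ∃ x ∈ B, ∃ y ∈ A, y ∉ B ∧ y ∈ N x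

/-- `C` is a union of components of `B`. -/
def Closed (N : V → Finset V) (C B : Finset V) : Prop :=
  C ⊆ B ∧ ∀ x ∈ C, ∀ y ∈ B, y ∈ N x → y ∈ C

section
variable {N : V → Finset V} {K : ℕ}

lemma mem_rem {A D : Finset V} {v : V} : v ∈ rem N A D ↔ v ∈ A ∧ ∀ d ∈ D, v ∉ N d := by
  simp [rem]

lemma iso_self (hs : ∀ x, x ∈ N x) (A : Finset V) : Iso N K A A := by
  refine ⟨Finset.Subset.refl _, ?_⟩
  intro v hv
  rw [mem_rem] at hv
  exact absurd (hs v) (hv.2 v hv.1)

lemma exists_iso (hs : ∀ x, x ∈ N x) (A : Finset V) : ∃ D, Iso N K A D ∧ D.card = f N K A := by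
  have hne : {m | ∃ D, Iso N K A D ∧ D.card = m}.Nonempty := ⟨_, A, iso_self hs A, rfl⟩
  exact Nat.sInf_mem hne

lemma f_le {A D : Finset V} (h : Iso N K A D) : f N K A ≤ D.card :=
  Nat.sInf_le ⟨D, h, rfl⟩

/-- The basic principle. -/
lemma f_le_add (hs : ∀ x, x ∈ N x) {A S D0 : Finset V} (h1 : D0 ⊆ S) (h2 : S ⊆ A)
    (h3 : ∀ x ∈ S, ∃ d ∈ D0, x ∈ N d) : f N K A ≤ D0.card + f N K (A \ S) := by
  obtain ⟨D, hD, hc⟩ := exists_iso (K := K) hs (A \ S)
  have hsub : rem N A (D0 ∪ D) ⊆ rem N (A \ S) D := by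
    intro v hv
    rw [mem_rem] at hv
    rw [mem_rem, Finset.mem_sdiff]
    refine ⟨⟨hv.1, fun hvS => ?_⟩, fun d hd => hv.2 d (Finset.mem_union_right _ hd)⟩
    obtain ⟨d, hd, hvd⟩ := h3 v hvS
    exact hv.2 d (Finset.mem_union_left _ hd) hvd
  have hI : Iso N K A (D0 ∪ D) := by
    refine ⟨Finset.union_subset (h1.trans h2) (hD.1.trans Finset.sdiff_subset), ?_⟩
    intro v hv
    exact lt_of_le_of_lt (Finset.card_le_card (Finset.inter_subset_inter_left hsub))
      (hD.2 v (hsub hv))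
  calc f N K A ≤ (D0 ∪ D).card := f_le hI
    _ ≤ D0.card + D.card := Finset.card_union_le _ _
    _ = _ := by rw [hc]

/-- Subadditivity over parts that are not joined. -/
lemma f_union (hs : ∀ x, x ∈ N x) (hsym : ∀ x y, x ∈ N y → y ∈ N x) {A B : Finset V}
    (h : ∀ x ∈ A, ∀ y ∈ B, y ∉ N x) : f N K (A ∪ B) ≤ f N K A + f N K B := by
  obtain ⟨D, hD, hc⟩ := exists_iso (K := K) hs A
  obtain ⟨E, hE, hc'⟩ := exists_iso (K := K) hs B
  have hI : Iso N K (A ∪ B) (D ∪ E) := by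
    refine ⟨Finset.union_subset_union hD.1 hE.1, ?_⟩
    intro v hv
    rw [mem_rem] at hv
    obtain ⟨hv1, hv2⟩ := hv
    rw [Finset.mem_union] at hv1
    rcases hv1 with hvA | hvB
    · have hvr : v ∈ rem N A D := mem_rem.2 ⟨hvA, fun d hd => hv2 d (Finset.mem_union_left _ hd)⟩
      refine lt_of_le_of_lt (Finset.card_le_card ?_) (hD.2 v hvr)
      intro w hw
      rw [Finset.mem_inter, mem_rem, Finset.mem_union] at hw
      rw [Finset.mem_inter, mem_rem]
      obtain ⟨hw1, hw2, hw3⟩ := hw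
      rcases hw2 with hw2 | hw2
      · exact ⟨hw1, hw2, fun d hd => hw3 d (Finset.mem_union_left _ hd)⟩
      · exact absurd hw1 (h v hvA w hw2)
    · have hvr : v ∈ rem N B E := mem_rem.2 ⟨hvB, fun d hd => hv2 d (Finset.mem_union_right _ hd)⟩
      refine lt_of_le_of_lt (Finset.card_le_card ?_) (hE.2 v hvr)
      intro w hw
      rw [Finset.mem_inter, mem_rem, Finset.mem_union] at hw
      rw [Finset.mem_inter, mem_rem]
      obtain ⟨hw1, hw2, hw3⟩ := hw
      rcases hw2 with hw2 | hw2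
      · exact absurd (hsym _ _ hw1) (h w hw2 v hvB)
      · exact ⟨hw1, hw2, fun d hd => hw3 d (Finset.mem_union_right _ hd)⟩
  calc f N K (A ∪ B) ≤ (D ∪ E).card := f_le hI
    _ ≤ D.card + E.card := Finset.card_union_le _ _
    _ = _ := by rw [hc, hc']

lemma f_zero {A : Finset V} (h : ∀ v ∈ A, (N v ∩ A).card < K) : f N K A = 0 := by
  have hr : rem N A ∅ = A := by simp [rem]
  have hI : Iso N K A ∅ := by
    refine ⟨Finset.empty_subset _, ?_⟩
    rw [hr]; exact h
  have := f_le hI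
  simpa using this

/-- The bound `K f(A) ≤ |A|`. -/
lemma K_f_le (hs : ∀ x, x ∈ N x) : ∀ (n : ℕ) (A : Finset V), A.card ≤ n → K * f N K A ≤ A.card := by
  intro n
  induction n with
  | zero =>
    intro A hA
    have hA0 : A = ∅ := by rw [← Finset.card_eq_zero]; omega
    subst hA0
    have : f N K (∅ : Finset V) = 0 := f_zero (by simp)
    rw [this]; simp
  | succ n ih =>
    intro A hA
    by_cases hc : ∀ v ∈ A, (N v ∩ A).card < K
    · rw [f_zero hc]; simp
    · push Not at hc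
      obtain ⟨v, hv, hvK⟩ := hc
      have hvS : v ∈ N v ∩ A := Finset.mem_inter.2 ⟨hs v, hv⟩
      have h1 : f N K A ≤ ({v} : Finset V).card + f N K (A \ (N v ∩ A)) :=
        f_le_add hs (by simpa using hvS) Finset.inter_subset_right
          (fun x hx => ⟨v, by simp, (Finset.mem_inter.1 hx).1⟩)
      rw [Finset.card_singleton] at h1
      have h2 : (A \ (N v ∩ A)).card = A.card - (N v ∩ A).card :=
        Finset.card_sdiff_of_subset Finset.inter_subset_right
      have h3 : (N v ∩ A).card ≤ A.card := Finset.card_le_card Finset.inter_subset_right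
      have h4 : 0 < (N v ∩ A).card := Finset.card_pos.2 ⟨v, hvS⟩
      have h5 := ih (A \ (N v ∩ A)) (by omega)
      calc K * f N K A ≤ K * (1 + f N K (A \ (N v ∩ A))) := Nat.mul_le_mul_left _ h1
        _ = K + K * f N K (A \ (N v ∩ A)) := by ring
        _ ≤ K + (A \ (N v ∩ A)).card := by omega
        _ ≤ A.card := by omega

lemma mul_f_le (hs : ∀ x, x ∈ N x) (A : Finset V) : K * f N K A ≤ A.card :=
  K_f_le hs A.card A le_rfl

/-- Removing a vertex that lies in no star does not decrease `f`. -/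
lemma f_dead (hs : ∀ x, x ∈ N x) {A : Finset V} {y : V}
    (h : ∀ w ∈ A, y ∈ N w → (N w ∩ A).card < K) :
    f N K A ≤ f N K (A.erase y) := by
  obtain ⟨D, hD, hc⟩ := exists_iso (K := K) hs (A.erase y)
  rw [← hc]
  apply f_le
  refine ⟨hD.1.trans (Finset.erase_subset _ _), ?_⟩
  intro v hv
  rw [mem_rem] at hv
  by_cases hy : y ∈ N v
  · refine lt_of_le_of_lt (Finset.card_le_card ?_) (h v hv.1 hy)
    exact Finset.inter_subset_inter_left (fun w hw => (mem_rem.1 hw).1)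
  · have hvy : v ≠ y := fun hh => hy (by rw [hh]; exact hs y)
    have hvr : v ∈ rem N (A.erase y) D := mem_rem.2 ⟨Finset.mem_erase.2 ⟨hvy, hv.1⟩, hv.2⟩
    refine lt_of_le_of_lt (Finset.card_le_card ?_) (hD.2 v hvr)
    intro w hw
    rw [Finset.mem_inter, mem_rem] at hw
    rw [Finset.mem_inter, mem_rem, Finset.mem_erase]
    refine ⟨hw.1, ⟨fun hh => hy (by rw [← hh]; exact hw.1), hw.2.1⟩, hw.2.2⟩

/-! ### connected sets -/

lemma conn_star (hsym : ∀ x y, x ∈ N y → y ∈ N x) {S : Finset V} {v : V} (hv : v ∈ S)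
    (hS : ∀ x ∈ S, x ∈ N v) : Conn N S := by
  refine ⟨⟨v, hv⟩, ?_⟩
  intro B hB hne hneq
  by_cases hvB : v ∈ B
  · obtain ⟨y, hy1, hy2⟩ : ∃ y ∈ S, y ∉ B := by
      by_contra hcon
      push Not at hcon
      exact hneq (Finset.Subset.antisymm hB hcon)
    exact ⟨v, hvB, y, hy1, hy2, hS y hy1⟩
  · obtain ⟨x, hx⟩ := hne
    exact ⟨x, hx, v, hv, hvB, hsym _ _ (hS x (hB hx))⟩

lemma Conn.union (hsym : ∀ x y, x ∈ N y → y ∈ N x) {A B : Finset V} (hA : Conn N A)
    (hB : Conn N B) {a b : V} (ha : a ∈ A) (hb : b ∈ B) (hab : b ∈ N a) : Conn N (A ∪ B) := by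
  refine ⟨hA.1.mono Finset.subset_union_left, ?_⟩
  intro C hC hne hneq
  by_cases h1 : (C ∩ A).Nonempty ∧ C ∩ A ≠ A
  · obtain ⟨x, hx, y, hy, hyC, hyx⟩ := hA.2 (C ∩ A) Finset.inter_subset_right h1.1 h1.2
    refine ⟨x, (Finset.mem_inter.1 hx).1, y, Finset.mem_union_left _ hy, ?_, hyx⟩
    intro hh; exact hyC (Finset.mem_inter.2 ⟨hh, hy⟩)
  by_cases h2 : (C ∩ B).Nonempty ∧ C ∩ B ≠ B
  · obtain ⟨x, hx, y, hy, hyC, hyx⟩ := hB.2 (C ∩ B) Finset.inter_subset_right h2.1 h2.2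
    refine ⟨x, (Finset.mem_inter.1 hx).1, y, Finset.mem_union_right _ hy, ?_, hyx⟩
    intro hh; exact hyC (Finset.mem_inter.2 ⟨hh, hy⟩)
  have g1 : (∀ x ∈ A, x ∉ C) ∨ (∀ x ∈ A, x ∈ C) := by
    by_contra hcon
    push Not at hcon
    obtain ⟨⟨x, hx1, hx2⟩, ⟨y, hy1, hy2⟩⟩ := hcon
    exact h1 ⟨⟨x, Finset.mem_inter.2 ⟨hx2, hx1⟩⟩,
      fun hh => hy2 (by rw [← hh] at hy1; exact (Finset.mem_inter.1 hy1).1)⟩
  have g2 : (∀ x ∈ B, x ∉ C) ∨ (∀ x ∈ B, x ∈ C) := by
    by_contra hcon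
    push Not at hcon
    obtain ⟨⟨x, hx1, hx2⟩, ⟨y, hy1, hy2⟩⟩ := hcon
    exact h2 ⟨⟨x, Finset.mem_inter.2 ⟨hx2, hx1⟩⟩,
      fun hh => hy2 (by rw [← hh] at hy1; exact (Finset.mem_inter.1 hy1).1)⟩
  rcases g1 with g1 | g1 <;> rcases g2 with g2 | g2
  · exfalso
    obtain ⟨x, hx⟩ := hne
    rcases Finset.mem_union.1 (hC hx) with h | h
    · exact g1 x h hx
    · exact g2 x h hx
  · exact ⟨b, g2 b hb, a, Finset.mem_union_left _ ha, g1 a ha, hsym _ _ hab⟩
  · exact ⟨a, g1 a ha, b, Finset.mem_union_right _ hb, g2 b hb, hab⟩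
  · exfalso
    apply hneq
    apply Finset.Subset.antisymm hC
    intro x hx
    rcases Finset.mem_union.1 hx with h | h
    · exact g1 x h
    · exact g2 x h

/-- Components exist. -/
lemma exists_comp (hsym : ∀ x y, x ∈ N y → y ∈ N x) {B : Finset V} {x : V} (hx : x ∈ B) :
    ∃ C, x ∈ C ∧ Conn N C ∧ Closed N C B := by
  classical
  have hsx : Conn N {x} := by
    refine ⟨⟨x, by simp⟩, ?_⟩
    intro B hB hne hneq
    exfalso
    apply hneq
    apply Finset.Subset.antisymm hB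
    intro y hy
    obtain ⟨z, hz⟩ := hne
    have h1 := Finset.mem_singleton.1 (hB hz)
    have h2 := Finset.mem_singleton.1 hy
    rw [h2, ← h1]; exact hz
  let T := B.powerset.filter (fun C => x ∈ C ∧ Conn N C)
  have hT : T.Nonempty := ⟨{x}, by
    simp only [T, Finset.mem_filter, Finset.mem_powerset, Finset.singleton_subset_iff]
    exact ⟨hx, by simp, hsx⟩⟩
  obtain ⟨C, hC, hmax⟩ := Finset.exists_max_image T Finset.card hT
  simp only [T, Finset.mem_filter, Finset.mem_powerset] at hC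
  obtain ⟨hCB, hxC, hCc⟩ := hC
  refine ⟨C, hxC, hCc, hCB, ?_⟩
  intro c hc y hy hyc
  by_contra hyC
  have hsy : Conn N {y} := by
    refine ⟨⟨y, by simp⟩, ?_⟩
    intro B hB hne hneq
    exfalso
    apply hneq
    apply Finset.Subset.antisymm hB
    intro y' hy'
    obtain ⟨z, hz⟩ := hne
    have h1 := Finset.mem_singleton.1 (hB hz)
    have h2 := Finset.mem_singleton.1 hy'
    rw [h2, ← h1]; exact hz
  have hu : Conn N (C ∪ {y}) := hCc.union hsym hsy hc (by simp) hyc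
  have := hmax (C ∪ {y}) (by
    simp only [T, Finset.mem_filter, Finset.mem_powerset]
    refine ⟨Finset.union_subset hCB (by simpa using hy), Finset.mem_union_left _ hxC, hu⟩)
  rw [Finset.card_union_of_disjoint (by simpa using hyC), Finset.card_singleton] at this
  omega

lemma Conn.subset_of_closed {C C' B : Finset V} (hC : Conn N C) (hCB : C ⊆ B)
    (hC' : Closed N C' B) {x : V} (hx : x ∈ C) (hx' : x ∈ C') : C ⊆ C' := by
  by_contra hns
  rw [Finset.not_subset] at hns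
  obtain ⟨y, hy, hy'⟩ := hns
  obtain ⟨a, ha, b, hb, hb', hba⟩ := hC.2 (C ∩ C') Finset.inter_subset_left
    ⟨x, Finset.mem_inter.2 ⟨hx, hx'⟩⟩
    (fun hh => hy' (by rw [← hh] at hy; exact (Finset.mem_inter.1 hy).2))
  exact hb' (Finset.mem_inter.2 ⟨hb, hC'.2 a (Finset.mem_inter.1 ha).2 b (hCB hb) hba⟩)

end

end Pool.Agent.Star
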