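import Pool.Agent.Star.Alpha3

/-!
# Codes: rigidity for a jointly non-critical set, rigid forests

The K-reduction: a set `S` of `gk` non-centres meeting every star set in at most one vertex.
-/

set_option autoImplicit false
set_option linter.unusedSectionVars false
set_option linter.unusedVariables false

namespace Pool.Agent.Star.Rig

open Finset

variable {V : Type*} [DecidableEq V]

section
variable {N : V → Finset V} {K : ℕ} {A Z : Finset V} {C F : Finset (Finset V)}

/-- LEMMA R (rigidity) for a nonempty set `Y` which is jointly non-critical. -/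
theorem rigid_set (hs : ∀ x, x ∈ N x) (hsym : ∀ x y, x ∈ N y → y ∈ N x) (hK : 2 ≤ K)
    (hS : Sys N K A C) (hA : Conn N A)
    (hE : ∀ A' ⊂ A, ∀ C' ⊆ C, Sys N K A' C' → Conn N A' → Bd N K A' C')
    {Y : Finset V} (hY : Y ⊆ A) (hYn : Y.Nonempty) (hYf : gk N A (res C (A \ Y)) = gk N A C)
    (he : 2 * A.card ≤ (2 * K + 1) * gk N A C + 1) :
    ∃ (Z : Finset V) (P : Finset (Finset V)) (z : Finset V → V), Rigid N K A C Z P z ∧ Y ⊆ Z ∧
      (2 * K + 1) * gk N A C + (P.filter (fun U => U.card = K)).card = 2 * A.card := by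
  classical
  -- a maximal set
  obtain ⟨Z, hZmem, hZmax⟩ := Finset.exists_max_image
    (A.powerset.filter (fun Z => Y ⊆ Z ∧ gk N A (res C (A \ Z)) = gk N A C)) Finset.card
    ⟨Y, by
      rw [Finset.mem_filter, Finset.mem_powerset]
      exact ⟨hY, subset_rfl, hYf⟩⟩
  rw [Finset.mem_filter, Finset.mem_powerset] at hZmem
  obtain ⟨hZA, hxZ, hZf⟩ := hZmem
  have hmax : Maxi N A C Z := by
    intro X hZX hXA hne
    have h1 : gk N A (res C (A \ X)) ≤ gk N A C :=
      gk_mono hs hS.sub (fun S hSC => hS.nonempty hSC) (Finset.filter_subset _ _)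
    rcases lt_or_eq_of_le h1 with h2 | h2
    · exact h2
    · exfalso
      have h3 := hZmax X (by
        rw [Finset.mem_filter, Finset.mem_powerset]
        exact ⟨hXA, hxZ.trans hZX, h2⟩)
      have h4 := Finset.card_lt_card (Finset.ssubset_iff_subset_ne.2 ⟨hZX, fun h => hne h.symm⟩)
      omega
  obtain ⟨F, hF⟩ := exists_comps (N := N) hsym (A \ Z)
  have h : Cut N K A C Z F := ⟨hS, hA, hE, hZA, hYn.mono hxZ, hZf, hF⟩
  obtain ⟨Δ, ρ, h1, h2, h3⟩ := h.main hs hsym
  have h4 : 5 * Δ ≤ (2 * K + 1) * Δ := Nat.mul_le_mul_right _ (by omega)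
  have hΔ : Δ = 0 := by omega
  subst hΔ
  have hρ : ρ = 0 := by omega
  subst hρ
  have hsum : gk N A C = ∑ U ∈ F, gk N U (res C U) := by omega
  have hP : (exc N K C F).card = Z.card := by omega
  have hall := h.all_exc hs hsym hmax hsum hP
  obtain ⟨z, hz1, hz2, hz3, hz4, hz5⟩ := h.match hs hsym hsum hP
  rw [hall] at hz1 hz2 hz3 hz4 hz5 h3
  refine ⟨Z, F, z, ⟨hZA, ⟨hYn.mono hxZ, ?_⟩, hF, fun U hU => (mem_exc.1 (hall.symm ▸ hU)).2, hz1, hz2,
    hz3, hz4, hz5, hsum⟩, hxZ, ?_⟩
  · -- the hubs are connected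
    intro B hBZ hBne hBZne
    set B' := B ∪ (F.filter (fun U => z U ∈ B)).biUnion id with hB'
    have hB'A : B' ⊆ A := by
      refine Finset.union_subset (hBZ.trans hZA) ?_
      intro y hy
      obtain ⟨U, hU, hyU⟩ := Finset.mem_biUnion.1 hy
      exact (h.ss (Finset.mem_filter.1 hU).1).1 hyU
    have hB'ne : B' ≠ A := by
      intro heq
      apply hBZne
      apply Finset.Subset.antisymm hBZ
      intro y hy
      have hyB' : y ∈ B' := heq ▸ hZA hy
      rw [hB'] at hyB'
      rcases Finset.mem_union.1 hyB' with h5 | h5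
      · exact h5
      · exfalso
        obtain ⟨U, hU, hyU⟩ := Finset.mem_biUnion.1 h5
        exact (Finset.mem_sdiff.1 ((hF.cl U (Finset.mem_filter.1 hU).1).1 hyU)).2 hy
    obtain ⟨a, ha, y, hy, hyB, hya⟩ := hA.2 B' hB'A (hBne.mono Finset.subset_union_left) hB'ne
    have hyB1 : y ∉ B := fun hc => hyB (Finset.mem_union_left _ hc)
    rcases Finset.mem_union.1 ha with h5 | h5
    · by_cases hyZ : y ∈ Z
      · exact ⟨a, h5, y, hyZ, hyB1, hya⟩
      · exfalso
        obtain ⟨U, hU, hyU⟩ := hF.cover y (Finset.mem_sdiff.2 ⟨hy, hyZ⟩)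
        have haU : a ∉ U := fun hc =>
          (Finset.mem_sdiff.1 ((hF.cl U hU).1 hc)).2 (hBZ h5)
        have h6 := hz5 U hU y hyU a (hZA (hBZ h5)) haU (hsym _ _ hya)
        exact hyB (Finset.mem_union_right _ (Finset.mem_biUnion.2 ⟨U,
          Finset.mem_filter.2 ⟨hU, h6 ▸ h5⟩, hyU⟩))
    · exfalso
      obtain ⟨U, hU, haU⟩ := Finset.mem_biUnion.1 h5
      obtain ⟨hUF, hzB⟩ := Finset.mem_filter.1 hU
      have hyU : y ∉ U := fun hc =>
        hyB (Finset.mem_union_right _ (Finset.mem_biUnion.2 ⟨U, hU, hc⟩))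
      have h6 := hz5 U hUF a haU y hy hyU hya
      exact hyB1 (h6 ▸ hzB)
  · simp only [Finset.sdiff_self, Finset.sum_empty] at h3
    omega

end

end Pool.Agent.Star.Rig
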