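import Pool.Agent.Star.Code1

/-!
# Codes: rigid forests
-/

set_option autoImplicit false
set_option linter.unusedSectionVars false
set_option linter.unusedVariables false

namespace Pool.Agent.Star.Rig

open Finset

variable {V : Type*} [DecidableEq V]

/-- A rigid forest on `M`: hubs `Z`, the components of `M \ Z` are exceptional and each is
attached to its own private hub. -/
structure Forest (N : V → Finset V) (K : ℕ) (M : Finset V) (C : Finset (Finset V))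
    (Z : Finset V) (P : Finset (Finset V)) (z : Finset V → V) : Prop where
  sub : Z ⊆ M
  comps : Comps N (M \ Z) P
  typ : ∀ U ∈ P, Typ N K U (res C U)
  mem : ∀ U ∈ P, z U ∈ Z
  inj : ∀ U ∈ P, ∀ U' ∈ P, z U = z U' → U = U'
  surj : ∀ y ∈ Z, ∃ U ∈ P, z U = y
  adj : ∀ U ∈ P, ∃ x ∈ U, x ∈ N (z U)
  only : ∀ U ∈ P, ∀ x ∈ U, ∀ y ∈ M, y ∉ U → y ∈ N x → y = z U

section
variable {N : V → Finset V} {K : ℕ} {A M Y Z : Finset V} {C F P : Finset (Finset V)}
  {z : Finset V → V}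

lemma Forest.PZ (a : Forest N K M C Z P z) : Z.card = P.card := by
  have h1 : P.image z = Z := by
    ext x
    rw [Finset.mem_image]
    constructor
    · rintro ⟨U, hU, rfl⟩
      exact a.mem U hU
    · intro hx
      exact a.surj x hx
  rw [← h1]
  exact Finset.card_image_of_injOn (fun U hU U' hU' h => a.inj U hU U' hU' h)

lemma Forest.cardM (a : Forest N K M C Z P z) : M.card = Z.card + ∑ U ∈ P, U.card := by
  rw [← a.comps.card]
  have := Finset.card_sdiff_add_card_eq_card a.sub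
  omega

lemma Forest.count (a : Forest N K M C Z P z) (hK : 2 ≤ K) :
    (2 * K + 1) * ∑ U ∈ P, gk N U (res C U) + (P.filter (fun U => U.card = K)).card =
      2 * M.card := by
  rw [a.cardM, a.PZ, Finset.mul_sum, Finset.card_filter, ← Finset.sum_add_distrib, Nat.mul_add,
    Finset.card_eq_sum_ones, Finset.mul_sum, Finset.mul_sum, ← Finset.sum_add_distrib]
  apply Finset.sum_congr rfl
  intro U hU
  rcases a.typ U hU with ⟨h1, h2⟩ | ⟨h1, h2⟩
  · rw [h1, h2, if_pos rfl]; omega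
  · rw [h1, h2, if_neg (by omega)]; omega

lemma Forest.UM (a : Forest N K M C Z P z) {U : Finset V} (hU : U ∈ P) : U ⊆ M :=
  (a.comps.cl U hU).1.trans Finset.sdiff_subset

lemma Forest.UZ (a : Forest N K M C Z P z) {U : Finset V} (hU : U ∈ P) {x : V} (hx : x ∈ U) :
    x ∉ Z := (Finset.mem_sdiff.1 ((a.comps.cl U hU).1 hx)).2

lemma Forest.UU (a : Forest N K M C Z P z) {U U' : Finset V} (hU : U ∈ P) (hU' : U' ∈ P) {x : V}
    (hx : x ∈ U) (hx' : x ∈ U') : U = U' := a.comps.eq_of_mem hU hU' hx hx'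

lemma Forest.cases (a : Forest N K M C Z P z) {x : V} (hx : x ∈ M) :
    (∃ U ∈ P, z U = x) ∨ ∃ U ∈ P, x ∈ U := by
  by_cases h : x ∈ Z
  · exact Or.inl (a.surj x h)
  · exact Or.inr (a.comps.cover x (Finset.mem_sdiff.2 ⟨hx, h⟩))

/-- A rigid system is a forest. -/
lemma Rigid.forest (r : Rigid N K A C Z P z) : Forest N K A C Z P z :=
  ⟨r.sub, r.comps, r.typ, r.mem, r.inj, r.surj, r.adj, r.only⟩

/-- A union of forests on the components. -/
lemma forest_union (hF : Comps N M F) (hM : M.Nonempty)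
    (h : ∀ L ∈ F, ∃ (Z : Finset V) (P : Finset (Finset V)) (z : Finset V → V),
      Forest N K L C Z P z ∧ Y ∩ L ⊆ Z) (hY : Y ⊆ M) :
    ∃ (Z : Finset V) (P : Finset (Finset V)) (z : Finset V → V), Forest N K M C Z P z ∧ Y ⊆ Z := by
  classical
  obtain ⟨x0, hx0⟩ := hM
  have h' : ∀ L : Finset V, ∃ (Z : Finset V) (P : Finset (Finset V)) (z : Finset V → V), L ∈ F →
      Forest N K L C Z P z ∧ Y ∩ L ⊆ Z := by
    intro L
    by_cases hL : L ∈ F
    · obtain ⟨Z, P, z, h1⟩ := h L hL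
      exact ⟨Z, P, z, fun _ => h1⟩
    · exact ⟨∅, ∅, fun _ => x0, fun h => absurd h hL⟩
  choose Zf Pf zf hf using h'
  have hw : ∀ U : Finset V, ∃ L : Finset V, U ∈ F.biUnion Pf → L ∈ F ∧ U ∈ Pf L := by
    intro U
    by_cases hU : U ∈ F.biUnion Pf
    · obtain ⟨L, hL, hUL⟩ := Finset.mem_biUnion.1 hU
      exact ⟨L, fun _ => ⟨hL, hUL⟩⟩
    · exact ⟨∅, fun h => absurd h hU⟩
  choose w hw using hw
  have hLM : ∀ L ∈ F, L ⊆ M := fun L hL => (hF.cl L hL).1
  have hZL : ∀ L ∈ F, Zf L ⊆ L := fun L hL => (hf L hL).1.sub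
  have hmZ : ∀ L ∈ F, ∀ x ∈ L, x ∈ F.biUnion Zf → x ∈ Zf L := by
    intro L hL x hx hxZ
    obtain ⟨L', hL', hxZ'⟩ := Finset.mem_biUnion.1 hxZ
    rw [hF.eq_of_mem hL hL' hx (hZL L' hL' hxZ')]
    exact hxZ'
  refine ⟨F.biUnion Zf, F.biUnion Pf, fun U => zf (w U) U, ⟨?_, ⟨?_, ?_, ?_, ?_⟩, ?_, ?_, ?_, ?_,
    ?_, ?_⟩, ?_⟩
  · intro x hx
    obtain ⟨L, hL, hxL⟩ := Finset.mem_biUnion.1 hx
    exact hLM L hL (hZL L hL hxL)
  · intro U hU
    obtain ⟨hL, hUL⟩ := hw U hU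
    exact (hf _ hL).1.comps.conn U hUL
  · intro U hU
    obtain ⟨hL, hUL⟩ := hw U hU
    have hcl := (hf _ hL).1.comps.cl U hUL
    refine ⟨?_, ?_⟩
    · intro x hx
      have hxL := hcl.1 hx
      exact Finset.mem_sdiff.2 ⟨hLM _ hL (Finset.mem_sdiff.1 hxL).1, fun h =>
        (Finset.mem_sdiff.1 hxL).2 (hmZ _ hL x (Finset.mem_sdiff.1 hxL).1 h)⟩
    · intro x hx y hy hyx
      obtain ⟨hyM, hyZ⟩ := Finset.mem_sdiff.1 hy
      have hxL := (Finset.mem_sdiff.1 (hcl.1 hx)).1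
      have hyL := (hF.cl _ hL).2 x hxL y hyM hyx
      exact hcl.2 x hx y (Finset.mem_sdiff.2 ⟨hyL, fun h => hyZ
        (Finset.mem_biUnion.2 ⟨_, hL, h⟩)⟩) hyx
  · intro U hU U' hU' hne
    obtain ⟨hL, hUL⟩ := hw U hU
    obtain ⟨hL', hUL'⟩ := hw U' hU'
    by_cases hLL : w U = w U'
    · rw [← hLL] at hUL'
      exact (hf _ hL).1.comps.disj U hUL U' hUL' hne
    · have h1 := hF.disj _ hL _ hL' hLL
      exact Finset.disjoint_of_subset_left ((hf _ hL).1.UM hUL)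
        (Finset.disjoint_of_subset_right ((hf _ hL').1.UM hUL') h1)
  · intro x hx
    obtain ⟨hxM, hxZ⟩ := Finset.mem_sdiff.1 hx
    obtain ⟨L, hL, hxL⟩ := hF.cover x hxM
    obtain ⟨U, hU, hxU⟩ := (hf L hL).1.comps.cover x (Finset.mem_sdiff.2 ⟨hxL, fun h => hxZ
      (Finset.mem_biUnion.2 ⟨L, hL, h⟩)⟩)
    exact ⟨U, Finset.mem_biUnion.2 ⟨L, hL, hU⟩, hxU⟩
  · intro U hU
    obtain ⟨hL, hUL⟩ := hw U hU
    exact (hf _ hL).1.typ U hUL
  · intro U hU
    obtain ⟨hL, hUL⟩ := hw U hU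
    exact Finset.mem_biUnion.2 ⟨_, hL, (hf _ hL).1.mem U hUL⟩
  · intro U hU U' hU' heq
    obtain ⟨hL, hUL⟩ := hw U hU
    obtain ⟨hL', hUL'⟩ := hw U' hU'
    have h1 := hZL _ hL ((hf _ hL).1.mem U hUL)
    have h2 := hZL _ hL' ((hf _ hL').1.mem U' hUL')
    have heq' : zf (w U) U = zf (w U') U' := heq
    rw [heq'] at h1
    have hLL := hF.eq_of_mem hL hL' h1 h2
    rw [← hLL] at hUL' heq'
    exact (hf _ hL).1.inj U hUL U' hUL' heq'
  · intro y hy
    obtain ⟨L, hL, hyL⟩ := Finset.mem_biUnion.1 hy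
    obtain ⟨U, hU, hUy⟩ := (hf L hL).1.surj y hyL
    have hUP : U ∈ F.biUnion Pf := Finset.mem_biUnion.2 ⟨L, hL, hU⟩
    obtain ⟨hL', hUL'⟩ := hw U hUP
    obtain ⟨x, hx⟩ := ((hf L hL).1.comps.conn U hU).1
    have hLL : w U = L := hF.eq_of_mem hL' hL ((hf _ hL').1.UM hUL' hx) ((hf L hL).1.UM hU hx)
    refine ⟨U, hUP, ?_⟩
    show zf (w U) U = y
    rw [hLL]; exact hUy
  · intro U hU
    obtain ⟨hL, hUL⟩ := hw U hU
    exact (hf _ hL).1.adj U hUL
  · intro U hU x hx y hy hyU hyx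
    obtain ⟨hL, hUL⟩ := hw U hU
    have hxL := (hf _ hL).1.UM hUL hx
    exact (hf _ hL).1.only U hUL x hx y ((hF.cl _ hL).2 x hxL y hy hyx) hyU hyx
  · intro y hy
    obtain ⟨L, hL, hyL⟩ := hF.cover y (hY hy)
    exact Finset.mem_biUnion.2 ⟨L, hL, (hf L hL).2 (Finset.mem_inter.2 ⟨hy, hyL⟩)⟩

/-- The set of hub type in a unit. -/
lemma Forest.hub (hs : ∀ x, x ∈ N x) (hsym : ∀ x y, x ∈ N y → y ∈ N x) (hS : Sys N K A C)
    (hE : ∀ A' ⊂ A, ∀ C' ⊆ C, Sys N K A' C' → Conn N A' → Bd N K A' C') (hMA : M ⊆ A)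
    (a : Forest N K M C Z P z) {U : Finset V} (hU : U ∈ P) :
    ∃ d, d ⊆ U ∧ d.card + 1 ≤ gk N U (res C U) ∧
      ∀ T ∈ C, T ⊆ U → Hit N (insert (z U) d) T := by
  obtain ⟨x, hx, hxz⟩ := a.adj U hU
  have hUA : U ⊂ A := by
    refine Finset.ssubset_iff_subset_ne.2 ⟨(a.UM hU).trans hMA, ?_⟩
    rintro rfl
    exact a.UZ hU (hMA (a.sub (a.mem _ hU))) (a.mem _ hU)
  obtain ⟨D, hD1, hD2, hD3⟩ := crit hs hsym (hS.res (B := U))
    (fun A' hA' C'' hC'' => hE A' (hA'.trans hUA) C''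
      (hC''.trans (Finset.filter_subset _ _))) (a.typ U hU) hx
  refine ⟨D, hD1, hD3, ?_⟩
  intro T hT hTU
  by_cases hxT : x ∈ T
  · exact ⟨z U, Finset.mem_insert_self _ _, x, hxT, hxz⟩
  · refine (hD2 T (mem_res.2 ⟨mem_res.2 ⟨hT, hTU⟩, ?_⟩)).mono (Finset.subset_insert _ _)
    intro y hy
    refine Finset.mem_erase.2 ⟨?_, hTU hy⟩
    rintro rfl
    exact hxT hy

/-- The killing sets: one set for each unit. -/
lemma Forest.kill (hS : Sys N K A C) (a : Forest N K M C Z P z) (E : Finset V → Finset V)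
    (h1 : ∀ U ∈ P, E U ⊆ M) (h2 : ∀ U ∈ P, (E U).card ≤ gk N U (res C U))
    (h3 : ∀ U ∈ P, ∀ T ∈ C, T ⊆ U → Hit N (E U) T) :
    ∃ D, D ⊆ M ∧ D.card ≤ ∑ U ∈ P, gk N U (res C U) ∧ (∀ U ∈ P, E U ⊆ D) ∧
      ∀ T ∈ C, T ⊆ M \ Z → Hit N D T := by
  refine ⟨P.biUnion E, ?_, ?_, ?_, ?_⟩
  · intro x hx
    obtain ⟨U, hU, hx⟩ := Finset.mem_biUnion.1 hx
    exact h1 U hU hx
  · exact Finset.card_biUnion_le.trans (Finset.sum_le_sum h2)
  · intro U hU x hx
    exact Finset.mem_biUnion.2 ⟨U, hU, hx⟩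
  · intro T hT hTM
    obtain ⟨U, hU, hTU⟩ := a.comps.star hS hT hTM
    refine (h3 U hU T hT hTU).mono ?_
    intro x hx
    exact Finset.mem_biUnion.2 ⟨U, hU, hx⟩

/-- A killing set with all hubs. -/
lemma Forest.kill_hubs (hs : ∀ x, x ∈ N x) (hsym : ∀ x y, x ∈ N y → y ∈ N x) (hS : Sys N K A C)
    (hE : ∀ A' ⊂ A, ∀ C' ⊆ C, Sys N K A' C' → Conn N A' → Bd N K A' C') (hMA : M ⊆ A)
    (a : Forest N K M C Z P z) :
    ∃ D, D ⊆ M ∧ D.card ≤ ∑ U ∈ P, gk N U (res C U) ∧ Z ⊆ D ∧ Kills N D (res C M) := by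
  classical
  have hd : ∀ U : Finset V, ∃ d : Finset V, U ∈ P → d ⊆ U ∧ d.card + 1 ≤ gk N U (res C U) ∧
      ∀ T ∈ C, T ⊆ U → Hit N (insert (z U) d) T := by
    intro U
    by_cases hU : U ∈ P
    · obtain ⟨d, h⟩ := a.hub hs hsym hS hE hMA hU
      exact ⟨d, fun _ => h⟩
    · exact ⟨∅, fun h => absurd h hU⟩
  choose d hd using hd
  obtain ⟨D, h1, h2, h3, h4⟩ := a.kill hS (fun U => insert (z U) (d U))
    (fun U hU => Finset.insert_subset (a.sub (a.mem U hU)) ((hd U hU).1.trans (a.UM hU)))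
    (fun U hU => (Finset.card_insert_le _ _).trans (hd U hU).2.1)
    (fun U hU => (hd U hU).2.2)
  have hZD : Z ⊆ D := by
    intro y hy
    obtain ⟨U, hU, rfl⟩ := a.surj y hy
    exact h3 U hU (Finset.mem_insert_self _ _)
  refine ⟨D, h1, h2, hZD, ?_⟩
  intro T hT
  obtain ⟨hTC, hTM⟩ := mem_res.1 hT
  by_cases h : T ⊆ M \ Z
  · exact h4 T hTC h
  · rw [Finset.not_subset] at h
    obtain ⟨x, hx, hxn⟩ := h
    have hxZ : x ∈ Z := by
      by_contra hc
      exact hxn (Finset.mem_sdiff.2 ⟨hTM hx, hc⟩)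
    exact ⟨x, hZD hxZ, x, hx, hs x⟩

/-- A killing set with all hubs but one, and a given set in one unit. -/
lemma Forest.kill_one (hs : ∀ x, x ∈ N x) (hsym : ∀ x y, x ∈ N y → y ∈ N x) (hS : Sys N K A C)
    (hE : ∀ A' ⊂ A, ∀ C' ⊆ C, Sys N K A' C' → Conn N A' → Bd N K A' C') (hMA : M ⊆ A)
    (a : Forest N K M C Z P z) {U : Finset V} (hU : U ∈ P) {E : Finset V} (hEM : E ⊆ M)
    (hEc : E.card ≤ gk N U (res C U)) (hEk : ∀ T ∈ C, T ⊆ U → Hit N E T) :
    ∃ D, D ⊆ M ∧ D.card ≤ ∑ U ∈ P, gk N U (res C U) ∧ E ⊆ D ∧ (∀ y ∈ Z, y ≠ z U → y ∈ D) ∧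
      ∀ T ∈ C, T ⊆ M → z U ∉ T → Hit N D T := by
  classical
  have hd : ∀ U : Finset V, ∃ d : Finset V, U ∈ P → d ⊆ U ∧ d.card + 1 ≤ gk N U (res C U) ∧
      ∀ T ∈ C, T ⊆ U → Hit N (insert (z U) d) T := by
    intro U
    by_cases hU : U ∈ P
    · obtain ⟨d, h⟩ := a.hub hs hsym hS hE hMA hU
      exact ⟨d, fun _ => h⟩
    · exact ⟨∅, fun h => absurd h hU⟩
  choose d hd using hd
  obtain ⟨D, h1, h2, h3, h4⟩ := a.kill hS (fun W => if W = U then E else insert (z W) (d W))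
    (fun W hW => by
      by_cases h : W = U
      · simp only [h, if_true]; exact hEM
      · simp only [h, if_false]
        exact Finset.insert_subset (a.sub (a.mem W hW)) ((hd W hW).1.trans (a.UM hW)))
    (fun W hW => by
      by_cases h : W = U
      · simp only [h, if_true]; exact hEc
      · simp only [h, if_false]
        exact (Finset.card_insert_le _ _).trans (hd W hW).2.1)
    (fun W hW T hT hTW => by
      by_cases h : W = U
      · rw [h] at hTW
        simp only [h, if_true]; exact hEk T hT hTW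
      · simp only [h, if_false]
        exact (hd W hW).2.2 T hT hTW)
  have hED : E ⊆ D := by
    have := h3 U hU
    simp only [if_true] at this
    exact this
  have hZD : ∀ y ∈ Z, y ≠ z U → y ∈ D := by
    intro y hy hne
    obtain ⟨W, hW, rfl⟩ := a.surj y hy
    have hWU : W ≠ U := fun h => hne (by rw [h])
    have := h3 W hW
    simp only [hWU, if_false] at this
    exact this (Finset.mem_insert_self _ _)
  refine ⟨D, h1, h2, hED, hZD, ?_⟩
  intro T hTC hTM hzT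
  by_cases h : T ⊆ M \ Z
  · exact h4 T hTC h
  · rw [Finset.not_subset] at h
    obtain ⟨x, hx, hxn⟩ := h
    have hxZ : x ∈ Z := by
      by_contra hc
      exact hxn (Finset.mem_sdiff.2 ⟨hTM hx, hc⟩)
    exact ⟨x, hZD x hxZ (fun h => hzT (h ▸ hx)), x, hx, hs x⟩

/-- **The forest lemma.** -/
theorem forest_of (hs : ∀ x, x ∈ N x) (hsym : ∀ x y, x ∈ N y → y ∈ N x) (hK : 2 ≤ K)
    (hS : Sys N K A C)
    (hE : ∀ A' ⊂ A, ∀ C' ⊆ C, Sys N K A' C' → Conn N A' → Bd N K A' C')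
    (hMA : M ⊂ A) (hMn : M.Nonempty) (hY : Y ⊆ M) (hF : Comps N M F) {g : ℕ}
    (hg : ∀ D ⊆ M, Kills N D (res C (M \ Y)) → g ≤ D.card)
    (hun : ∀ L ∈ F, Disjoint L Y → (2 * K + 1) * gk N L (res C L) + 2 ≤ 2 * L.card)
    (he : 2 * M.card ≤ (2 * K + 1) * g + 1) :
    ∃ (Z : Finset V) (P : Finset (Finset V)) (z : Finset V → V), Forest N K M C Z P z ∧ Y ⊆ Z ∧
      (∀ L ∈ F, ¬ Disjoint L Y ∧ ¬ Typ N K L (res C L) ∧
        2 * L.card ≤ (2 * K + 1) * gk N L (res C L) + 1) ∧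
      (∑ U ∈ P, gk N U (res C U)) = g ∧
      (2 * K + 1) * g + (P.filter (fun U => U.card = K)).card = 2 * M.card := by
  classical
  have hLM : ∀ L ∈ F, L ⊆ M := fun L hL => (hF.cl L hL).1
  have hLA : ∀ L ∈ F, L ⊂ A := fun L hL => Finset.ssubset_of_subset_of_ssubset (hLM L hL) hMA
  -- the killing numbers of the star sets avoiding `Y`
  have hopt : ∀ L : Finset V, ∃ D, D ⊆ L ∧ Kills N D (res C (L \ Y)) ∧
      D.card = gk N L (res C (L \ Y)) := by
    intro L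
    exact exists_gk hs (fun S hSC => (mem_res.1 hSC).2.trans Finset.sdiff_subset)
      (fun S hSC => hS.nonempty (mem_res.1 hSC).1)
  choose D1 hD1s hD1k hD1c using hopt
  have hle : ∀ L : Finset V, gk N L (res C (L \ Y)) ≤ gk N L (res C L) := by
    intro L
    apply gk_mono hs (fun S hSC => (mem_res.1 hSC).2) (fun S hSC => hS.nonempty (mem_res.1 hSC).1)
    intro S hSC
    exact mem_res.2 ⟨(mem_res.1 hSC).1, (mem_res.1 hSC).2.trans Finset.sdiff_subset⟩
  have hbd : ∀ L ∈ F, Bd N K L (res C L) := fun L hL =>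
    hE L (hLA L hL) (res C L) (Finset.filter_subset _ _) hS.res (hF.conn L hL)
  have hstep : ∀ L ∈ F, (2 * K + 1) * gk N L (res C (L \ Y)) ≤ 2 * L.card ∧
      (2 * L.card ≤ (2 * K + 1) * gk N L (res C (L \ Y)) + 1 →
        ¬ Disjoint L Y ∧ ¬ Typ N K L (res C L) ∧
          gk N L (res C (L \ Y)) = gk N L (res C L)) := by
    intro L hL
    have hm := Nat.mul_le_mul_left (2 * K + 1) (hle L)
    by_cases hdis : Disjoint L Y
    · have h1 := hun L hL hdis
      exact ⟨by omega, fun h => by omega⟩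
    · by_cases hT : Typ N K L (res C L)
      · -- exceptional and touched
        obtain ⟨x, hx, hxY⟩ := Finset.not_disjoint_iff.1 hdis
        obtain ⟨D, hD1, hD2, hD3⟩ := crit hs hsym (hS.res (B := L))
          (fun A' hA' C'' hC'' => hE A' (hA'.trans (hLA L hL)) C''
            (hC''.trans (Finset.filter_subset _ _))) hT hx
        have h1 : gk N L (res C (L \ Y)) ≤ D.card := by
          apply gk_le hD1
          intro S hSC
          apply hD2
          obtain ⟨hSC, hSL⟩ := mem_res.1 hSC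
          refine mem_res.2 ⟨mem_res.2 ⟨hSC, hSL.trans Finset.sdiff_subset⟩, ?_⟩
          intro y hy
          refine Finset.mem_erase.2 ⟨?_, (Finset.mem_sdiff.1 (hSL hy)).1⟩
          rintro rfl
          exact (Finset.mem_sdiff.1 (hSL hy)).2 hxY
        rcases hT with ⟨h2, h3⟩ | ⟨h2, h3⟩
        · have h4 : gk N L (res C (L \ Y)) = 0 := by omega
          rw [h4, h2]
          exact ⟨by omega, fun h => by omega⟩
        · have h4 : gk N L (res C (L \ Y)) ≤ 1 := by omega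
          have h5 : (2 * K + 1) * gk N L (res C (L \ Y)) ≤ (2 * K + 1) * 1 :=
            Nat.mul_le_mul_left _ h4
          rw [h2]
          exact ⟨by omega, fun h => by omega⟩
      · have h1 := bd_exc (hbd L hL) hT
        refine ⟨by omega, fun h => ⟨hdis, hT, ?_⟩⟩
        by_contra hne
        have h2 : gk N L (res C (L \ Y)) + 1 ≤ gk N L (res C L) := by
          have := hle L
          omega
        have h3 := Nat.mul_le_mul_left (2 * K + 1) h2
        rw [Nat.mul_add] at h3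
        omega
  -- the union bound
  have hun1 : g ≤ ∑ L ∈ F, gk N L (res C (L \ Y)) := by
    have h1 : Kills N (F.biUnion D1) (res C (M \ Y)) := by
      intro S hSC
      obtain ⟨hSC, hSM⟩ := mem_res.1 hSC
      obtain ⟨L, hL, hSL⟩ := hF.star hS hSC (hSM.trans Finset.sdiff_subset)
      refine (hD1k L S (mem_res.2 ⟨hSC, fun x hx => Finset.mem_sdiff.2
        ⟨hSL hx, (Finset.mem_sdiff.1 (hSM hx)).2⟩⟩)).mono ?_
      intro x hx
      exact Finset.mem_biUnion.2 ⟨L, hL, hx⟩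
    have h2 : F.biUnion D1 ⊆ M := by
      intro x hx
      obtain ⟨L, hL, hx⟩ := Finset.mem_biUnion.1 hx
      exact hLM L hL (hD1s L hx)
    refine (hg _ h2 h1).trans (Finset.card_biUnion_le.trans (le_of_eq ?_))
    exact Finset.sum_congr rfl (fun L _ => hD1c L)
  have hsum : (2 * K + 1) * ∑ L ∈ F, gk N L (res C (L \ Y)) +
      ∑ L ∈ F, (2 * L.card - (2 * K + 1) * gk N L (res C (L \ Y))) = 2 * M.card := by
    rw [hF.card, Finset.mul_sum, Finset.mul_sum, ← Finset.sum_add_distrib]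
    apply Finset.sum_congr rfl
    intro L hL
    have := (hstep L hL).1
    omega
  have hgm := Nat.mul_le_mul_left (2 * K + 1) hun1
  have hslack : ∀ L ∈ F, 2 * L.card - (2 * K + 1) * gk N L (res C (L \ Y)) ≤ 1 := by
    intro L hL
    have h1 := Finset.single_le_sum
      (f := fun L => 2 * L.card - (2 * K + 1) * gk N L (res C (L \ Y)))
      (fun L _ => Nat.zero_le _) hL
    omega
  have hgeq : ∑ L ∈ F, gk N L (res C (L \ Y)) = g := by
    by_contra hne
    have h1 : g + 1 ≤ ∑ L ∈ F, gk N L (res C (L \ Y)) := by omega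
    have h2 := Nat.mul_le_mul_left (2 * K + 1) h1
    rw [Nat.mul_add] at h2
    omega
  have hall : ∀ L ∈ F, ¬ Disjoint L Y ∧ ¬ Typ N K L (res C L) ∧
      gk N L (res C (L \ Y)) = gk N L (res C L) := by
    intro L hL
    have := hslack L hL
    exact (hstep L hL).2 (by omega)
  have hall2 : ∀ L ∈ F, 2 * L.card ≤ (2 * K + 1) * gk N L (res C L) + 1 := by
    intro L hL
    have h1 := hslack L hL
    rw [(hall L hL).2.2] at h1
    omega
  have hrig : ∀ L ∈ F, ∃ (Z : Finset V) (P : Finset (Finset V)) (z : Finset V → V),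
      Forest N K L C Z P z ∧ Y ∩ L ⊆ Z := by
    intro L hL
    obtain ⟨x, hx, hxY⟩ := Finset.not_disjoint_iff.1 (hall L hL).1
    obtain ⟨Z, P, z, hR, hYZ, -⟩ := rigid_set hs hsym hK (hS.res (B := L)) (hF.conn L hL)
      (fun A' hA' C'' hC'' => hE A' (hA'.trans (hLA L hL)) C''
        (hC''.trans (Finset.filter_subset _ _))) (Y := Y ∩ L) Finset.inter_subset_right
      ⟨x, Finset.mem_inter.2 ⟨hxY, hx⟩⟩
      (by
        have h1 : L \ (Y ∩ L) = L \ Y := by
          ext y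
          simp only [Finset.mem_sdiff, Finset.mem_inter]
          tauto
        rw [h1, res_res Finset.sdiff_subset]
        exact (hall L hL).2.2)
      (hall2 L hL)
    refine ⟨Z, P, z, ?_, hYZ⟩
    have hr := hR.forest
    refine ⟨hr.sub, hr.comps, ?_, hr.mem, hr.inj, hr.surj, hr.adj, hr.only⟩
    intro U hU
    have h1 := hr.typ U hU
    rwa [res_res (hr.UM hU)] at h1
  obtain ⟨Z, P, z, hf, hYZ⟩ := forest_union hF hMn hrig hY
  have hcount := hf.count hK
  -- the sum over the blocks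
  have hsg : (∑ U ∈ P, gk N U (res C U)) = g := by
    obtain ⟨D, hD1, hD2, -, hD4⟩ := hf.kill_hubs hs hsym hS hE hMA.1
    have h1 : g ≤ ∑ U ∈ P, gk N U (res C U) := by
      refine (hg D hD1 ?_).trans hD2
      intro T hT
      exact hD4 T (mem_res.2 ⟨(mem_res.1 hT).1, (mem_res.1 hT).2.trans Finset.sdiff_subset⟩)
    by_contra hne
    have h2 : g + 1 ≤ ∑ U ∈ P, gk N U (res C U) := by omega
    have h3 := Nat.mul_le_mul_left (2 * K + 1) h2
    rw [Nat.mul_add] at h3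
    omega
  refine ⟨Z, P, z, hf, hYZ, fun L hL => ⟨(hall L hL).1, (hall L hL).2.1, hall2 L hL⟩, hsg, ?_⟩
  rw [← hsg]; exact hcount

end

end Pool.Agent.Star.Rig
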