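import Pool.Agent.Star.Code2

/-!
# Codes: general lemmas on violators and blocks
-/

set_option autoImplicit false
set_option linter.unusedSectionVars false
set_option linter.unusedVariables false

namespace Pool.Agent.Star.Rig

open Finset

variable {V : Type*} [DecidableEq V]

section
variable {N : V → Finset V} {K : ℕ} {A G : Finset V} {C F : Finset (Finset V)}

/-- The union bound with savings on exceptional components. -/
lemma Viol.hall (h : Viol N K A C) (hGA : G ⊆ A) (hGn : G.Nonempty) (hF : Comps N (A \ G) F)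
    {D0 : Finset V} (hD0 : D0 ⊆ A) (hk : ∀ p ∈ C, ¬ p ⊆ A \ G → Hit N D0 p)
    {E : Finset (Finset V)} (hEF : E ⊆ F) (hT : ∀ L ∈ E, Typ N K L (res C L))
    (hadj : ∀ L ∈ E, ∃ y ∈ D0, ∃ x ∈ L, x ∈ N y) :
    gk N A C + E.card ≤ D0.card + ∑ L ∈ F, gk N L (res C L) := by
  classical
  have hLA : ∀ L ∈ F, L ⊂ A := fun L hL =>
    Finset.ssubset_of_subset_of_ssubset (hF.cl L hL).1 (Finset.sdiff_ssubset hGA hGn)
  have hd : ∀ L : Finset V, ∃ d : Finset V, L ∈ F → d ⊆ L ∧
      d.card + (if L ∈ E then 1 else 0) ≤ gk N L (res C L) ∧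
      ∀ T ∈ C, T ⊆ L → Hit N D0 T ∨ Hit N d T := by
    intro L
    by_cases hL : L ∈ F
    · by_cases hLE : L ∈ E
      · obtain ⟨y, hy, x, hx, hxy⟩ := hadj L hLE
        obtain ⟨D, hD1, hD2, hD3⟩ := crit h.refl h.symm (h.sys.res (B := L))
          (fun A' hA' C'' hC'' => h.hE A' (hA'.trans (hLA L hL)) C''
            (hC''.trans (Finset.filter_subset _ _))) (hT L hLE) hx
        refine ⟨D, fun _ => ⟨hD1, by simp only [hLE, if_true]; exact hD3, ?_⟩⟩
        intro T hTC hTL
        by_cases hxT : x ∈ T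
        · exact Or.inl ⟨y, hy, x, hxT, hxy⟩
        · right
          refine hD2 T (mem_res.2 ⟨mem_res.2 ⟨hTC, hTL⟩, ?_⟩)
          intro w hw
          refine Finset.mem_erase.2 ⟨?_, hTL hw⟩
          rintro rfl
          exact hxT hw
      · obtain ⟨D, hD1, hD2, hD3⟩ := exists_gk (N := N) h.refl (A := L) (C := res C L)
          (h.sys.res).sub (fun S hSC => (h.sys.res (B := L)).nonempty hSC)
        refine ⟨D, fun _ => ⟨hD1, by simp only [hLE, if_false]; omega, ?_⟩⟩
        intro T hTC hTL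
        exact Or.inr (hD2 T (mem_res.2 ⟨hTC, hTL⟩))
    · exact ⟨∅, fun h => absurd h hL⟩
  choose d hd using hd
  have h1 := gk_le_union (C' := C) (Y := D0) hF h.sys Finset.sdiff_subset hD0 subset_rfl d
    (fun L hL => (hd L hL).1.trans (hLA L hL).1) hk (fun L hL T hTC hTL => (hd L hL).2.2 T hTC hTL)
  have h2 : ∑ L ∈ F, (d L).card + E.card ≤ ∑ L ∈ F, gk N L (res C L) := by
    have h3 : E.card = ∑ L ∈ F, (if L ∈ E then 1 else 0) := by
      rw [← Finset.card_filter]
      congr 1
      ext U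
      rw [Finset.mem_filter]
      exact ⟨fun hU => ⟨hEF hU, hU⟩, fun hU => hU.2⟩
    rw [h3, ← Finset.sum_add_distrib]
    exact Finset.sum_le_sum (fun L hL => (hd L hL).2.1)
  omega

/-- Deleting any nonempty set of vertices of a violator lowers the killing number (of the rest,
killed by itself). -/
theorem Viol.sub_lt (h : Viol N K A C) (hex : (2 * K + 1) * gk N A C = 2 * A.card + 1)
    (hGA : G ⊆ A) (hGn : G.Nonempty) (hF : Comps N (A \ G) F) :
    ∑ L ∈ F, gk N L (res C L) + 1 ≤ gk N A C := by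
  classical
  have hLA : ∀ L ∈ F, L ⊂ A := fun L hL =>
    Finset.ssubset_of_subset_of_ssubset (hF.cl L hL).1 (Finset.sdiff_ssubset hGA hGn)
  have h1 := h.hall hGA hGn hF hGA (fun p hp hn => by
      rw [Finset.not_subset] at hn
      obtain ⟨x, hx, hxn⟩ := hn
      have hxG : x ∈ G := by
        by_contra hc
        exact hxn (Finset.mem_sdiff.2 ⟨h.sys.sub p hp hx, hc⟩)
      exact ⟨x, hxG, x, hx, h.refl x⟩) (E := exc N K C F) exc_sub
    (fun L hL => (mem_exc.1 hL).2)
    (fun L hL => hF.adj h.symm h.conn hGA hGn (exc_sub hL))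
  have h2 : (2 * K + 1) * ∑ L ∈ F, gk N L (res C L) ≤
      2 * (A \ G).card + 2 * (exc N K C F).card := by
    have h3 : (exc N K C F).card = ∑ L ∈ F, (if L ∈ exc N K C F then 1 else 0) := by
      rw [← Finset.card_filter]
      congr 1
      ext U
      rw [Finset.mem_filter]
      exact ⟨fun hU => ⟨exc_sub hU, hU⟩, fun hU => hU.2⟩
    rw [h3, hF.card, Finset.mul_sum, Finset.mul_sum, Finset.mul_sum, ← Finset.sum_add_distrib]
    apply Finset.sum_le_sum
    intro L hL
    have hB := h.hE L (hLA L hL) (res C L) (Finset.filter_subset _ _) h.sys.res (hF.conn L hL)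
    by_cases hLE : L ∈ exc N K C F
    · rw [if_pos hLE]
      have := bd_two hB
      omega
    · rw [if_neg hLE]
      have := bd_exc hB (fun hT => hLE (mem_exc.2 ⟨hL, hT⟩))
      omega
  have h4 : (A \ G).card + G.card = A.card := Finset.card_sdiff_add_card_eq_card hGA
  have hK := h.two
  by_contra hcon
  push Not at hcon
  -- `(2K-1) f0 ≤ 2n - 2s`
  obtain ⟨k, rfl⟩ : ∃ k, K = k + 1 := ⟨K - 1, by omega⟩
  have h5 : (2 * (k + 1) + 1) * ∑ L ∈ F, gk N L (res C L) =
      (2 * k + 1) * ∑ L ∈ F, gk N L (res C L) + 2 * ∑ L ∈ F, gk N L (res C L) := by ring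
  have h6 : (2 * (k + 1) + 1) * gk N A C = (2 * k + 1) * gk N A C + 2 * gk N A C := by ring
  have h7 : gk N A C ≤ ∑ L ∈ F, gk N L (res C L) := by omega
  have h8 := Nat.mul_le_mul_left (2 * k + 1) h7
  omega

/-- No exceptional piece hangs at a single vertex. -/
theorem Viol.no_hang (h : Viol N K A C) {z : V} (hz : z ∈ A) {B : Finset V} (hB : Conn N B)
    (hBA : B ⊆ A) (hzB : z ∉ B) (hcl : ∀ x ∈ B, ∀ y ∈ A, y ∈ N x → y ∈ B ∨ y = z)
    (hT : Typ N K B (res C B)) : False := by
  classical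
  have hBA' : B ⊂ A := Finset.ssubset_iff_subset_ne.2 ⟨hBA, fun h => hzB (h ▸ hz)⟩
  obtain ⟨x, hx, y, hy, hyB, hyx⟩ := h.conn.2 B hBA hB.1 hBA'.ne
  have hyz : y = z := by
    rcases hcl x hx y hy hyx with h1 | h1
    · exact absurd h1 hyB
    · exact h1
  rw [hyz] at hyx
  obtain ⟨d, hd1, hd2, hd3⟩ := crit h.refl h.symm (h.sys.res (B := B))
    (fun A' hA' C'' hC'' => h.hE A' (hA'.trans hBA') C''
      (hC''.trans (Finset.filter_subset _ _))) hT hx
  obtain ⟨D, hD1, hD2, hD3⟩ := exists_gk (N := N) h.refl (A := A) (C := res C (A.erase z))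
    (fun S hSC => (mem_res.1 hSC).2.trans (Finset.erase_subset _ _))
    (fun S hSC => h.sys.nonempty (mem_res.1 hSC).1)
  have hcrit := h.vertex_crit hz
  have hmem : ∀ T ∈ C, z ∉ T → T ∈ res C (A.erase z) := by
    intro T hTC hzT
    refine mem_res.2 ⟨hTC, fun w hw => Finset.mem_erase.2 ⟨?_, h.sys.sub T hTC hw⟩⟩
    rintro rfl
    exact hzT hw
  have hzD : z ∉ D := by
    intro hzD
    have h1 : gk N A C ≤ D.card := gk_le hD1 (fun T hTC => by
      by_cases hzT : z ∈ T
      · exact ⟨z, hzD, z, hzT, h.refl z⟩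
      · exact hD2 T (hmem T hTC hzT))
    omega
  have hDB : gk N B (res C B) ≤ (D ∩ B).card := by
    apply gk_le Finset.inter_subset_right
    intro T hT
    obtain ⟨hTC, hTB⟩ := mem_res.1 hT
    obtain ⟨e, he, w, hw, hwe⟩ := hD2 T (hmem T hTC (fun h => hzB (hTB h)))
    refine ⟨e, Finset.mem_inter.2 ⟨he, ?_⟩, w, hw, hwe⟩
    rcases hcl w (hTB hw) e (hD1 he) (h.symm _ _ hwe) with h1 | h1
    · exact h1
    · exact absurd (h1 ▸ he) hzD
  have hk : Kills N ((D \ B) ∪ insert z d) C := by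
    intro T hTC
    by_cases hzT : z ∈ T
    · exact ⟨z, Finset.mem_union_right _ (Finset.mem_insert_self _ _), z, hzT, h.refl z⟩
    · obtain ⟨c, hc, hcN⟩ := h.sys.cen T hTC
      have hTA := h.sys.sub T hTC
      by_cases hcB : c ∈ B
      · have hTB : T ⊆ B := by
          intro w hw
          rcases hcl c hcB w (hTA hw) (hcN hw) with h1 | h1
          · exact h1
          · exact absurd (h1 ▸ hw) hzT
        by_cases hxT : x ∈ T
        · exact ⟨z, Finset.mem_union_right _ (Finset.mem_insert_self _ _), x, hxT,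
            h.symm _ _ hyx⟩
        · refine (hd2 T (mem_res.2 ⟨mem_res.2 ⟨hTC, hTB⟩, ?_⟩)).mono ?_
          · intro w hw
            refine Finset.mem_erase.2 ⟨?_, hTB hw⟩
            rintro rfl
            exact hxT hw
          · intro w hw
            exact Finset.mem_union_right _ (Finset.mem_insert_of_mem hw)
      · have hdis : ∀ w ∈ T, w ∉ B := by
          intro w hw hwB
          rcases hcl w hwB c (hTA hc) (h.symm _ _ (hcN hw)) with h1 | h1
          · exact hcB h1
          · exact hzT (h1 ▸ hc)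
        obtain ⟨e, he, w, hw, hwe⟩ := hD2 T (hmem T hTC hzT)
        refine ⟨e, Finset.mem_union_left _ (Finset.mem_sdiff.2 ⟨he, ?_⟩), w, hw, hwe⟩
        intro heB
        rcases hcl e heB w (hTA hw) hwe with h1 | h1
        · exact hdis w hw h1
        · exact hzT (h1 ▸ hw)
  have hsub : (D \ B) ∪ insert z d ⊆ A :=
    Finset.union_subset (Finset.sdiff_subset.trans hD1)
      (Finset.insert_subset hz (hd1.trans hBA))
  have h1 := gk_le hsub hk
  have h2 := Finset.card_union_le (D \ B) (insert z d)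
  have h3 := Finset.card_insert_le z d
  have h4 := Finset.card_sdiff_add_card_inter D B
  omega

end

section
variable {N : V → Finset V} {K : ℕ} {U : Finset V} {J : Finset (Finset V)}

/-- A separated pair kills the block. -/
lemma Blk.sep_kill (b : Blk N K U J) {T : Finset V} (hT : T ∈ J) {v w : V} (hv : v ∈ T)
    (hw : w ∈ U \ T) {X : Finset V} (hX : X ∈ J) : Hit N {v, w} X := by
  obtain ⟨c, hc, hcN⟩ := b.sys.cen T hT
  have hT' := b.compl_mem hT
  obtain ⟨c', hc', hcN'⟩ := b.sys.cen _ hT'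
  obtain ⟨d, hd, hdN⟩ := b.sys.cen X hX
  have hdU := b.sys.sub X hX hd
  by_cases hdT : d ∈ T
  · have h1 : c ∈ X := (b.cen_eq hX hd hdN (b.sys.sub T hT hc)).1 (b.symm _ _ (hcN hdT))
    exact ⟨v, by simp, c, h1, b.symm _ _ (hcN hv)⟩
  · have hdT' : d ∈ U \ T := Finset.mem_sdiff.2 ⟨hdU, hdT⟩
    have h1 : c' ∈ X := (b.cen_eq hX hd hdN (Finset.mem_sdiff.1 hc').1).1
      (b.symm _ _ (hcN' hdT'))
    exact ⟨w, by simp, c', h1, b.symm _ _ (hcN' hw)⟩

/-- A star set through a vertex. -/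
lemma Blk.through (b : Blk N K U J) {v : V} (hv : v ∈ U) : ∃ T ∈ J, v ∈ T := by
  obtain ⟨T, hT, h⟩ := b.cover hv
  exact ⟨T, hT, h v hv (b.refl v)⟩

/-- Two star sets through a vertex. -/
lemma Blk.two_through (b : Blk N K U J) {v : V} (hv : v ∈ U) {T : Finset V} (hT : T ∈ J)
    (hvT : v ∈ T) : ∃ T' ∈ J, v ∈ T' ∧ T' ≠ T := by
  by_contra hcon
  push Not at hcon
  have hsep : Sep J T := by
    intro X hX
    by_cases hvX : v ∈ X
    · left; rw [hcon X hX hvX]
    · right
      have h1 := hcon _ (b.compl_mem hX) (Finset.mem_sdiff.2 ⟨hv, hvX⟩)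
      rw [← h1]
      exact Finset.disjoint_sdiff
  rcases b.near hsep with h1 | h1
  · have h2 := Finset.card_le_card h1
    have h3 := b.sys.card T hT
    have h4 := b.card
    have h5 := b.pos
    omega
  · exact Finset.disjoint_left.1 h1 hv hvT

end

end Pool.Agent.Star.Rig
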