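import Pool.Agent.Star.Code3

/-!
# Codes: killing sets through a vertex of the code in a block
-/

set_option autoImplicit false
set_option linter.unusedSectionVars false
set_option linter.unusedVariables false

namespace Pool.Agent.Star.Rig

open Finset

variable {V : Type*} [DecidableEq V]

/-- A forest on `H \ T0`, where `T0` is a set of vertices of the code. -/
structure Ctx (N : V → Finset V) (K : ℕ) (A : Finset V) (C : Finset (Finset V))
    (S H T0 M Z : Finset V) (P : Finset (Finset V)) (z : Finset V → V) : Prop where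
  v : Viol N K A C
  one : ∀ p ∈ C, (p ∩ S).card ≤ 1
  cen : ∀ p ∈ C, ∀ c ∈ p, p ⊆ N c → c ∉ S
  HA : H ⊆ A
  MA : M ⊂ A
  T0S : T0 ⊆ S
  T0H : T0 ⊆ H
  M_iff : ∀ x, x ∈ M ↔ x ∈ H ∧ x ∉ T0
  f : Forest N K M C Z P z
  Y : ∀ s ∈ T0, ∀ y ∈ M, y ∈ N s → y ∈ Z
  inH : ∀ p ∈ C, ∀ c ∈ p, p ⊆ N c → c ∈ H → p ⊆ H
  touch : ∀ L, Conn N L → Closed N L M → ∃ s ∈ T0, ∃ y ∈ L, y ∈ N s

section
variable {N : V → Finset V} {K : ℕ} {A S H T0 M Z : Finset V} {C P : Finset (Finset V)}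
  {z : Finset V → V}

lemma Ctx.MH (a : Ctx N K A C S H T0 M Z P z) {x : V} (hx : x ∈ M) : x ∈ H :=
  ((a.M_iff x).1 hx).1

lemma Ctx.HM (a : Ctx N K A C S H T0 M Z P z) {x : V} (hx : x ∈ H) : x ∈ M ∨ x ∈ T0 := by
  by_cases h : x ∈ T0
  · exact Or.inr h
  · exact Or.inl ((a.M_iff x).2 ⟨hx, h⟩)

lemma Ctx.MA' (a : Ctx N K A C S H T0 M Z P z) {x : V} (hx : x ∈ M) : x ∈ A := a.HA (a.MH hx)

/-- If the star sets through the hub are killed then all are. -/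
lemma Ctx.all (a : Ctx N K A C S H T0 M Z P z) {U D : Finset V}
    (hD1 : ∀ y ∈ Z, y ≠ z U → y ∈ D) (hD2 : ∀ T ∈ C, T ⊆ M → z U ∉ T → Hit N D T)
    (hD3 : ∀ p ∈ C, p ⊆ H → z U ∈ p → Hit N D p) : ∀ p ∈ C, p ⊆ H → Hit N D p := by
  intro p hp hpH
  by_cases hz : z U ∈ p
  · exact hD3 p hp hpH hz
  · by_cases hpM : p ⊆ M
    · exact hD2 p hp hpM hz
    · rw [Finset.not_subset] at hpM
      obtain ⟨s, hs, hsM⟩ := hpM
      have hsT : s ∈ T0 := by
        rcases a.HM (hpH hs) with h | h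
        · exact absurd h hsM
        · exact h
      obtain ⟨c, hc, hcN⟩ := a.v.sys.cen p hp
      have hcM : c ∈ M := by
        rcases a.HM (hpH hc) with h | h
        · exact h
        · exact absurd (a.T0S h) (a.cen p hp c hc hcN)
      have hcZ : c ∈ Z := a.Y s hsT c hcM (a.v.symm _ _ (hcN hs))
      exact ⟨c, hD1 c hcZ (fun h => hz (h ▸ hc)), c, hc, a.v.refl c⟩

/-- In a block, a vertex of the code lies in a killing set of `H`. -/
theorem Ctx.no_port (a : Ctx N K A C S H T0 M Z P z) (hK : 3 ≤ K) {U : Finset V} (hU : U ∈ P)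
    (hUc : U.card = 2 * K) {s : V} (hs : s ∈ U) (hsS : s ∈ S) :
    ∃ D, D ⊆ M ∧ s ∈ D ∧ D.card ≤ ∑ U ∈ P, gk N U (res C U) ∧ ∀ p ∈ C, p ⊆ H → Hit N D p := by
  classical
  have hUM := a.f.UM hU
  have hzZ := a.f.mem U hU
  have hzM := a.f.sub hzZ
  have hzU : z U ∉ U := fun h => a.f.UZ hU h hzZ
  have hgk : gk N U (res C U) = 2 := by
    rcases a.f.typ U hU with ⟨h1, _⟩ | ⟨_, h1⟩
    · omega
    · exact h1
  have b : Blk N K U (res C U) :=
    ⟨a.v.refl, a.v.symm, a.v.sys.res, a.f.comps.conn U hU, hUc, hgk⟩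
  -- the construction
  have key : ∀ w : V, ∀ T ∈ res C U, s ∈ T → w ∈ U \ T →
      (∀ D : Finset V, s ∈ D → w ∈ D → (∀ y ∈ Z, y ≠ z U → y ∈ D) →
        ∀ p ∈ C, p ⊆ H → z U ∈ p → Hit N D p) →
      ∃ D, D ⊆ M ∧ s ∈ D ∧ D.card ≤ ∑ U ∈ P, gk N U (res C U) ∧
        ∀ p ∈ C, p ⊆ H → Hit N D p := by
    intro w T hT hsT hw hdom
    have hwU := (Finset.mem_sdiff.1 hw).1
    obtain ⟨D, h1, h2, h3, h4, h5⟩ := a.f.kill_one a.v.refl a.v.symm a.v.sys a.v.hE a.MA.1 hU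
      (E := {s, w}) (by
        intro x hx
        rcases Finset.mem_insert.1 hx with rfl | hx
        · exact hUM hs
        · rw [Finset.mem_singleton.1 hx]; exact hUM hwU)
      (by rw [hgk]; exact Finset.card_le_two)
      (fun X hX hXU => b.sep_kill hT hsT hw (mem_res.2 ⟨hX, hXU⟩))
    have hsD : s ∈ D := h3 (by simp)
    have hwD : w ∈ D := h3 (by simp)
    exact ⟨D, h1, hsD, h2, a.all h4 h5 (hdom D hsD hwD h4)⟩
  obtain ⟨T1, hT1, hsT1⟩ := b.through hs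
  obtain ⟨w1, hw1⟩ : (U \ T1).Nonempty := b.sys.nonempty (b.compl_mem hT1)
  by_cases hiso : ∃ z1 ∈ Z, z1 ≠ z U ∧ z1 ∈ N (z U)
  · -- the hub has a neighbouring hub
    obtain ⟨z1, hz1, hne, hadj⟩ := hiso
    apply key w1 T1 hT1 hsT1 hw1
    intro D _ _ hD p hp hpH hzp
    exact ⟨z1, hD z1 hz1 hne, z U, hzp, a.v.symm _ _ hadj⟩
  push Not at hiso
  have hiso' : ∀ y ∈ M, y ∈ N (z U) → y = z U ∨ y ∈ U := by
    intro y hy hyz
    rcases a.f.cases hy with ⟨W, hW, rfl⟩ | ⟨W, hW, hyW⟩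
    · left
      by_contra hne
      exact hiso (z W) (a.f.mem W hW) hne hyz
    · right
      have hzW : z U ∉ W := fun h => a.f.UZ hW h hzZ
      have h1 := a.f.only W hW y hyW (z U) hzM hzW (a.v.symm _ _ hyz)
      rw [a.f.inj U hU W hW h1]
      exact hyW
  -- the component
  have hLc : Conn N (insert (z U) U) := by
    obtain ⟨x, hx, hxz⟩ := a.f.adj U hU
    have h1 : Conn N ({z U} : Finset V) := conn_star a.v.symm (Finset.mem_singleton_self _)
      (fun y hy => by rw [Finset.mem_singleton.1 hy]; exact a.v.refl _)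
    have h2 := h1.union a.v.symm (a.f.comps.conn U hU) (Finset.mem_singleton_self _) hx hxz
    rwa [Finset.singleton_union] at h2
  have hLcl : Closed N (insert (z U) U) M := by
    refine ⟨Finset.insert_subset hzM hUM, ?_⟩
    intro x hx y hy hyx
    rcases Finset.mem_insert.1 hx with rfl | hx
    · rcases hiso' y hy hyx with h | h
      · rw [h]; exact Finset.mem_insert_self _ _
      · exact Finset.mem_insert_of_mem h
    · by_cases hyU : y ∈ U
      · exact Finset.mem_insert_of_mem hyU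
      · rw [a.f.only U hU x hx y hy hyU hyx]; exact Finset.mem_insert_self _ _
  obtain ⟨s1, hs1, y1, hy1, hy1N⟩ := a.touch _ hLc hLcl
  have hzs1 : z U ∈ N s1 := by
    have h1 := a.Y s1 hs1 y1 (hLcl.1 hy1) hy1N
    rcases Finset.mem_insert.1 hy1 with h2 | h2
    · rw [← h2]; exact hy1N
    · exact absurd h1 (a.f.UZ hU h2)
  -- the star sets centred at the hub
  set Q := U.filter (fun x => x ∈ N (z U)) with hQ
  have hmQ : ∀ x, x ∈ Q ↔ x ∈ U ∧ x ∈ N (z U) := fun x => by rw [hQ, Finset.mem_filter]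
  have hzp : ∀ p ∈ C, p ⊆ H → z U ∈ p → p ⊆ N (z U) → K ≤ (p ∩ Q).card + 2 := by
    intro p hp hpH hzp hpN
    have h1 : p ⊆ insert (z U) ((p ∩ Q) ∪ (p ∩ S)) := by
      intro x hx
      rcases a.HM (hpH hx) with h | h
      · rcases hiso' x h (hpN hx) with h2 | h2
        · rw [h2]; exact Finset.mem_insert_self _ _
        · exact Finset.mem_insert_of_mem (Finset.mem_union_left _ (Finset.mem_inter.2
            ⟨hx, (hmQ x).2 ⟨h2, hpN hx⟩⟩))
      · exact Finset.mem_insert_of_mem (Finset.mem_union_right _ (Finset.mem_inter.2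
            ⟨hx, a.T0S h⟩))
    have h2 := Finset.card_le_card h1
    have h3 := Finset.card_insert_le (z U) ((p ∩ Q) ∪ (p ∩ S))
    have h4 := Finset.card_union_le (p ∩ Q) (p ∩ S)
    have h5 := a.one p hp
    have h6 := a.v.sys.card p hp
    omega
  have hQK : K ≤ Q.card + 2 := by
    have hne : z U ≠ s1 := by
      intro h
      exact ((a.M_iff _).1 hzM).2 (h ▸ hs1)
    obtain ⟨p, hp, hzp1, hsp, h1 | h1⟩ := a.v.star_edge hne (a.MA' hzM) (a.HA (a.T0H hs1))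
      (a.v.symm _ _ hzs1)
    · have h2 := hzp p hp (a.inH p hp _ hzp1 h1 (a.MH hzM)) hzp1 h1
      have h3 : (p ∩ Q).card ≤ Q.card := Finset.card_le_card Finset.inter_subset_right
      omega
    · exact absurd (a.T0S hs1) (a.cen p hp s1 hsp h1)
  -- the centre of a star set through the hub
  have hcQ : ∀ p ∈ C, p ⊆ H → z U ∈ p → ∀ c ∈ p, p ⊆ N c → c ≠ z U → c ∈ Q := by
    intro p hp hpH hzp c hc hcN hne
    have hcM : c ∈ M := by
      rcases a.HM (hpH hc) with h | h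
      · exact h
      · exact absurd (a.T0S h) (a.cen p hp c hc hcN)
    have hcz : c ∈ N (z U) := a.v.symm _ _ (hcN hzp)
    rcases hiso' c hcM hcz with h | h
    · exact absurd h hne
    · exact (hmQ c).2 ⟨h, hcz⟩
  by_cases hsQ : s ∈ Q
  · -- `s` dominates the hub
    apply key w1 T1 hT1 hsT1 hw1
    intro D hsD _ _ p hp hpH hzp
    exact ⟨s, hsD, z U, hzp, a.v.symm _ _ ((hmQ s).1 hsQ).2⟩
  by_cases hβ : ∃ T ∈ res C U, s ∈ T ∧ ∃ w ∈ U \ T, w ∈ Q
  · obtain ⟨T, hT, hsT, w, hw, hwQ⟩ := hβ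
    apply key w T hT hsT hw
    intro D _ hwD _ p hp hpH hzp
    exact ⟨w, hwD, z U, hzp, a.v.symm _ _ ((hmQ w).1 hwQ).2⟩
  push Not at hβ
  have hQT : ∀ T ∈ res C U, s ∈ T → Q ⊆ T := by
    intro T hT hsT x hx
    by_contra hxT
    exact hβ T hT hsT x (Finset.mem_sdiff.2 ⟨((hmQ x).1 hx).1, hxT⟩) hx
  obtain ⟨T2, hT2, hsT2, hne12⟩ := b.two_through hs hT1 hsT1
  have hQ1 := hQT T1 hT1 hsT1
  have hQ2 := hQT T2 hT2 hsT2
  have hi1 : insert s Q ⊆ T1 := Finset.insert_subset hsT1 hQ1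
  have hi2 : insert s Q ⊆ T2 := Finset.insert_subset hsT2 hQ2
  have hic : (insert s Q).card = Q.card + 1 := Finset.card_insert_of_notMem hsQ
  have hT1c := b.sys.card T1 hT1
  have hT2c := b.sys.card T2 hT2
  have hcap : (T1 ∩ T2).card + 1 ≤ K := by
    by_contra hcon
    push Not at hcon
    have h1 : T1 ∩ T2 = T1 := Finset.eq_of_subset_of_card_le Finset.inter_subset_left (by omega)
    have h2 : T1 ∩ T2 = T2 := Finset.eq_of_subset_of_card_le Finset.inter_subset_right (by omega)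
    exact hne12 (h2.symm.trans h1)
  have hicap : insert s Q ⊆ T1 ∩ T2 := Finset.subset_inter hi1 hi2
  have hicc := Finset.card_le_card hicap
  have hQc : Q.card + 2 = K := by omega
  have hcapeq : T1 ∩ T2 = insert s Q :=
    (Finset.eq_of_subset_of_card_le hicap (by omega)).symm
  have hsep : ∀ w ∈ U, w ∉ insert s Q → ∃ T ∈ res C U, s ∈ T ∧ w ∈ U \ T := by
    intro w hw hwn
    by_cases h1 : w ∈ T1
    · refine ⟨T2, hT2, hsT2, Finset.mem_sdiff.2 ⟨hw, fun h2 => hwn ?_⟩⟩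
      rw [← hcapeq]; exact Finset.mem_inter.2 ⟨h1, h2⟩
    · exact ⟨T1, hT1, hsT1, Finset.mem_sdiff.2 ⟨hw, h1⟩⟩
  have hmeetQ : ∀ p ∈ C, p ⊆ H → z U ∈ p → ∃ x ∈ p, x ∈ Q := by
    intro p hp hpH hzp1
    obtain ⟨c, hc, hcN⟩ := a.v.sys.cen p hp
    by_cases hcz : c = z U
    · rw [hcz] at hcN
      have h1 := hzp p hp hpH hzp1 hcN
      have h2 : (p ∩ Q).Nonempty := by
        rw [← Finset.card_pos]; omega
      obtain ⟨x, hx⟩ := h2
      exact ⟨x, (Finset.mem_inter.1 hx).1, (Finset.mem_inter.1 hx).2⟩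
    · exact ⟨c, hc, hcQ p hp hpH hzp1 c hc hcN hcz⟩
  have hcase : ∀ T ∈ res C U, s ∈ T → ∀ c ∈ T, T ⊆ N c → c ∉ insert s Q →
      ∃ D, D ⊆ M ∧ s ∈ D ∧ D.card ≤ ∑ U ∈ P, gk N U (res C U) ∧
        ∀ p ∈ C, p ⊆ H → Hit N D p := by
    intro T hT hsT c hc hcN hcn
    obtain ⟨T', hT', hsT', hcT'⟩ := hsep c (b.sys.sub T hT hc) hcn
    apply key c T' hT' hsT' hcT'
    intro D _ hcD _ p hp hpH hzp
    obtain ⟨x, hx, hxQ⟩ := hmeetQ p hp hpH hzp
    exact ⟨c, hcD, x, hx, hcN (hQT T hT hsT hxQ)⟩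
  obtain ⟨c1, hc1, hc1N⟩ := b.sys.cen T1 hT1
  obtain ⟨c2, hc2, hc2N⟩ := b.sys.cen T2 hT2
  by_cases h1 : c1 ∈ insert s Q
  swap
  · exact hcase T1 hT1 hsT1 c1 hc1 hc1N h1
  by_cases h2 : c2 ∈ insert s Q
  swap
  · exact hcase T2 hT2 hsT2 c2 hc2 hc2N h2
  have hnot : ∀ T ∈ res C U, ∀ c ∈ T, T ⊆ N c → c ≠ s := by
    intro T hT c hc hcN h
    exact a.cen T (mem_res.1 hT).1 c hc hcN (h ▸ hsS)
  have hc1Q : c1 ∈ Q := (Finset.mem_insert.1 h1).resolve_left (hnot T1 hT1 c1 hc1 hc1N)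
  have hc2Q : c2 ∈ Q := (Finset.mem_insert.1 h2).resolve_left (hnot T2 hT2 c2 hc2 hc2N)
  have hc1U := ((hmQ c1).1 hc1Q).1
  have hc2U := ((hmQ c2).1 hc2Q).1
  have hc12 : c1 ≠ c2 := by
    intro h
    apply hne12
    rw [← h] at hc2 hc2N
    ext x
    constructor
    · intro hx
      exact (b.cen_eq hT1 hc1 hc1N (b.sys.sub T2 hT2 hx)).1 (hc2N hx)
    · intro hx
      exact (b.cen_eq hT2 hc2 hc2N (b.sys.sub T1 hT1 hx)).1 (hc1N hx)
  apply key w1 T1 hT1 hsT1 hw1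
  intro D hsD _ _ p hp hpH hzp1
  have hhit : c1 ∈ p ∨ c2 ∈ p → Hit N D p := by
    rintro (h | h)
    · exact ⟨s, hsD, c1, h, a.v.symm _ _ (hc1N hsT1)⟩
    · exact ⟨s, hsD, c2, h, a.v.symm _ _ (hc2N hsT2)⟩
  apply hhit
  obtain ⟨c, hc, hcN⟩ := a.v.sys.cen p hp
  by_cases hcz : c = z U
  · rw [hcz] at hcN
    have h3 := hzp p hp hpH hzp1 hcN
    have h4 : p ∩ Q = Q := Finset.eq_of_subset_of_card_le Finset.inter_subset_right (by omega)
    left
    rw [← h4] at hc1Q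
    exact (Finset.mem_inter.1 hc1Q).1
  · have hcQ' := hcQ p hp hpH hzp1 c hc hcN hcz
    obtain ⟨hcU, -⟩ := (hmQ c).1 hcQ'
    by_contra hcon
    push Not at hcon
    obtain ⟨n1, n2⟩ := hcon
    obtain ⟨X, hX, hXc⟩ := b.cover hcU
    have hXcard := b.sys.card X hX
    have h5 : p.erase (z U) ⊆ (X.erase c1).erase c2 := by
      intro x hx
      obtain ⟨hxz, hxp⟩ := Finset.mem_erase.1 hx
      have hxU : x ∈ U := by
        rcases a.HM (hpH hxp) with h | h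
        · by_contra hxU
          exact hxz (a.f.only U hU c hcU x h hxU (hcN hxp))
        · exact absurd (a.Y x h c (hUM hcU) (a.v.symm _ _ (hcN hxp))) (a.f.UZ hU hcU)
      refine Finset.mem_erase.2 ⟨fun h => n2 (h ▸ hxp), Finset.mem_erase.2
        ⟨fun h => n1 (h ▸ hxp), hXc x hxU (hcN hxp)⟩⟩
    have h6 := Finset.card_le_card h5
    have h7 : c1 ∈ X := hXc c1 hc1U (a.v.symm _ _ (hc1N (hQ1 hcQ')))
    have h8 : c2 ∈ X.erase c1 := Finset.mem_erase.2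
      ⟨hc12.symm, hXc c2 hc2U (a.v.symm _ _ (hc2N (hQ2 hcQ')))⟩
    rw [Finset.card_erase_of_mem h8, Finset.card_erase_of_mem h7,
      Finset.card_erase_of_mem hzp1, a.v.sys.card p hp] at h6
    omega

end

end Pool.Agent.Star.Rig
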