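import Pool.Agent.Star.Code4

/-!
# Codes: the frame of the K-reduction, and the exceptional components with `K - 1` vertices
-/

set_option autoImplicit false
set_option linter.unusedSectionVars false
set_option linter.unusedVariables false

namespace Pool.Agent.Star.Rig

open Finset

variable {V : Type*} [DecidableEq V]

/-- A code of a violator: as many non-centres as the killing number, at most one in each star
set. -/
structure Code (N : V → Finset V) (K : ℕ) (A : Finset V) (C : Finset (Finset V)) (S : Finset V) :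
    Prop where
  v : Viol N K A C
  ex : (2 * K + 1) * gk N A C = 2 * A.card + 1
  five : 5 ≤ gk N A C
  sub : S ⊆ A
  card : S.card = gk N A C
  one : ∀ p ∈ C, (p ∩ S).card ≤ 1
  cen : ∀ p ∈ C, ∀ c ∈ p, p ⊆ N c → c ∉ S

open Classical in
/-- The star sets with `K - 1` elements inside the star sets and outside `S`. -/
noncomputable def low (N : V → Finset V) (K : ℕ) (A : Finset V) (C : Finset (Finset V))
    (S : Finset V) : Finset (Finset V) :=
  (stars N (K - 1) (A \ S)).filter (fun T => ∃ p ∈ C, T ⊆ p)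

/-- A component of `A \ S` whose star sets have exactly one vertex of `S`. -/
structure Part (N : V → Finset V) (K : ℕ) (A : Finset V) (C : Finset (Finset V))
    (S G : Finset V) (J : Finset (Finset V)) : Prop where
  c : Code N K A C S
  conn : Conn N G
  cl : Closed N G (A \ S)
  meet : ∀ p ∈ C, ∀ x ∈ p, x ∈ G →
    ∃ s ∈ S, ∃ T ∈ J, s ∉ T ∧ p = insert s T ∧ ∃ c ∈ T, p ⊆ N c
  Jsub : ∀ T ∈ J, T ⊆ G
  Jcard : ∀ T ∈ J, T.card + 1 = K
  Jlift : ∀ T ∈ J, ∃ p ∈ C, T ⊆ p

section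
variable {N : V → Finset V} {K : ℕ} {A S G H M B : Finset V} {C F J : Finset (Finset V)}

/-- Gluing killing sets of the components. -/
lemma Comps.glue (hF : Comps N B F) (hS : Sys N K A C) (E : Finset V → Finset V)
    (h1 : ∀ L ∈ F, E L ⊆ L) (h2 : ∀ L ∈ F, Kills N (E L) (res C L)) :
    ∃ D, D ⊆ B ∧ D.card ≤ ∑ L ∈ F, (E L).card ∧ (∀ L ∈ F, E L ⊆ D) ∧
      ∀ p ∈ C, p ⊆ B → Hit N D p := by
  refine ⟨F.biUnion E, ?_, Finset.card_biUnion_le, ?_, ?_⟩
  · intro x hx
    obtain ⟨L, hL, hx⟩ := Finset.mem_biUnion.1 hx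
    exact (hF.cl L hL).1 (h1 L hL hx)
  · intro L hL x hx
    exact Finset.mem_biUnion.2 ⟨L, hL, hx⟩
  · intro p hp hpB
    obtain ⟨L, hL, hpL⟩ := hF.star hS hp hpB
    refine (h2 L hL p (mem_res.2 ⟨hp, hpL⟩)).mono ?_
    intro x hx
    exact Finset.mem_biUnion.2 ⟨L, hL, hx⟩

/-- A killing set of `A \ G` through a given vertex, unless the component has two to spare. -/
lemma Viol.through (h : Viol N K A C) (hGA : G ⊆ A) (hGn : G.Nonempty)
    (hF : Comps N (A \ G) F) {L : Finset V} (hL : L ∈ F) {x : V} (hx : x ∈ L) :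
    (∃ D, D ⊆ A \ G ∧ x ∈ D ∧ D.card ≤ ∑ L ∈ F, gk N L (res C L) ∧
      ∀ p ∈ C, p ⊆ A \ G → Hit N D p) ∨
      (2 * K + 1) * gk N L (res C L) + 2 ≤ 2 * L.card := by
  classical
  have hLA : ∀ L ∈ F, L ⊂ A := fun L hL =>
    Finset.ssubset_of_subset_of_ssubset (hF.cl L hL).1 (Finset.sdiff_ssubset hGA hGn)
  rcases use_or h.refl h.symm (h.sys.res (B := L)) (hF.conn L hL) (fun A' hA' C'' hC'' =>
    h.hE A' (hA'.trans (hLA L hL)) C'' (hC''.trans (Finset.filter_subset _ _))) hx with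
    ⟨D1, h1, h2, h3, h4⟩ | h1
  swap
  · exact Or.inr h1
  left
  have hopt : ∀ W : Finset V, ∃ D, D ⊆ W ∧ Kills N D (res C W) ∧ D.card = gk N W (res C W) :=
    fun W => exists_gk h.refl (h.sys.res).sub
      (fun S hSC => (h.sys.res (B := W)).nonempty hSC)
  choose E hE1 hE2 hE3 using hopt
  obtain ⟨D, g1, g2, g3, g4⟩ := hF.glue h.sys (fun W => if W = L then D1 else E W)
    (fun W hW => by
      by_cases hWL : W = L
      · simp only [hWL, if_true]; exact h1
      · simp only [hWL, if_false]; exact hE1 W)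
    (fun W hW => by
      by_cases hWL : W = L
      · simp only [hWL, if_true]; exact h3
      · simp only [hWL, if_false]; exact hE2 W)
  have hD1 := g3 L hL
  simp only [if_true] at hD1
  refine ⟨D, g1, hD1 h2, g2.trans (Finset.sum_le_sum ?_), g4⟩
  intro W hW
  by_cases hWL : W = L
  · simp only [hWL, if_true]; exact h4
  · simp only [hWL, if_false]; exact (hE3 W).le

lemma mem_low {T : Finset V} : T ∈ low N K A C S ↔
    (T ⊆ A \ S ∧ T.card = K - 1 ∧ ∃ c ∈ T, T ⊆ N c) ∧ ∃ p ∈ C, T ⊆ p := by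
  classical
  unfold low
  rw [Finset.mem_filter, mem_stars]

lemma low_sys : Sys N (K - 1) (A \ S) (low N K A C S) :=
  ⟨fun _ h => (mem_low.1 h).1.1, fun _ h => (mem_low.1 h).1.2.1, fun _ h => (mem_low.1 h).1.2.2⟩

lemma Code.Kpos (a : Code N K A C S) : 2 ≤ K := a.v.two

/-- A star set with `K - 1` elements around the centre. -/
lemma Code.sub_star (a : Code N K A C S) {p : Finset V} (hp : p ∈ C) {c : V} (hc : c ∈ p)
    (hcN : p ⊆ N c) : ∃ T ∈ low N K A C S, c ∈ T ∧ T ⊆ p := by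
  have hcS := a.cen p hp c hc hcN
  have h1 : ({c} : Finset V) ⊆ p \ S :=
    Finset.singleton_subset_iff.2 (Finset.mem_sdiff.2 ⟨hc, hcS⟩)
  have h2 := a.one p hp
  have h3 := Finset.card_sdiff_add_card_inter p S
  have h4 := a.v.sys.card p hp
  have h5 := a.Kpos
  obtain ⟨T, hT1, hT2, hT3⟩ := Finset.exists_subsuperset_card_eq (n := K - 1) h1
    (by rw [Finset.card_singleton]; omega) (by omega)
  have hTp : T ⊆ p := hT2.trans Finset.sdiff_subset
  have hcT : c ∈ T := hT1 (Finset.mem_singleton_self c)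
  refine ⟨T, mem_low.2 ⟨⟨?_, hT3, c, hcT, hTp.trans hcN⟩, p, hp, hTp⟩, hcT, hTp⟩
  intro x hx
  exact Finset.mem_sdiff.2 ⟨a.v.sys.sub p hp (hTp hx), (Finset.mem_sdiff.1 (hT2 hx)).2⟩

lemma Code.gk_low (a : Code N K A C S) :
    gk N A C ≤ gk N (A \ S) (low N K A C S) := by
  obtain ⟨D, hD1, hD2, hD3⟩ := exists_gk (N := N) a.v.refl (A := A \ S) (C := low N K A C S)
    low_sys.sub (fun T hT => low_sys.nonempty hT)
  rw [← hD3]
  apply gk_le (hD1.trans Finset.sdiff_subset)
  intro p hp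
  obtain ⟨c, hc, hcN⟩ := a.v.sys.cen p hp
  obtain ⟨T, hT, -, hTp⟩ := a.sub_star hp hc hcN
  obtain ⟨d, hd, x, hx, hxd⟩ := hD2 T hT
  exact ⟨d, hd, x, hTp hx, hxd⟩

/-- There is an exceptional component. -/
lemma Code.exists_exc (a : Code N K A C S) (hE : EV V (K - 1)) :
    ∃ G, Conn N G ∧ Closed N G (A \ S) ∧ Typ N (K - 1) G (res (low N K A C S) G) := by
  by_contra hcon
  push Not at hcon
  obtain ⟨F, hF⟩ := exists_comps (N := N) a.v.symm (A \ S)
  have h1 := gk_le_sum (K := K - 1) a.v.refl hF (low_sys (C := C)) (Finset.Subset.refl (A \ S))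
  have h2 : res (low N K A C S) (A \ S) = low N K A C S := by
    ext T
    rw [mem_res]
    exact ⟨fun h => h.1, fun h => ⟨h, low_sys.sub T h⟩⟩
  rw [h2] at h1
  have h3 := a.gk_low.trans h1
  have h4 : (2 * (K - 1) + 1) * ∑ L ∈ F, gk N L (res (low N K A C S) L) ≤ 2 * (A \ S).card := by
    rw [hF.card, Finset.mul_sum, Finset.mul_sum]
    apply Finset.sum_le_sum
    intro L hL
    rcases hE N a.v.refl a.v.symm L (res (low N K A C S) L) (low_sys (K := K) (C := C)).res
      (hF.conn L hL) with h | h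
    · exact h
    · exact absurd h (hcon L (hF.conn L hL) (hF.cl L hL))
  have h5 := Nat.mul_le_mul_left (2 * (K - 1) + 1) h3
  have h6 : (A \ S).card + S.card = A.card := Finset.card_sdiff_add_card_eq_card a.sub
  have h7 := a.card
  have h8 := a.ex
  obtain ⟨k, rfl⟩ : ∃ k, K = k + 1 := ⟨K - 1, by have := a.Kpos; omega⟩
  simp only [Nat.add_sub_cancel] at h4 h5
  have h9 : (2 * (k + 1) + 1) * gk N A C = (2 * k + 1) * gk N A C + 2 * gk N A C := by ring
  omega

/-- The exceptional component is a part. -/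
lemma Code.part (a : Code N K A C S) (hG : Conn N G) (hcl : Closed N G (A \ S))
    (hT : Typ N (K - 1) G (res (low N K A C S) G)) :
    Part N K A C S G (res (low N K A C S) G) := by
  have hK := a.Kpos
  refine ⟨a, hG, hcl, ?_, fun T hT => (mem_res.1 hT).2, fun T hT => ?_,
    fun T hT => (mem_low.1 (mem_res.1 hT).1).2⟩
  swap
  · have := (mem_low.1 (mem_res.1 hT).1).1.2.1
    omega
  intro p hp x hx hxG
  obtain ⟨c, hc, hcN⟩ := a.v.sys.cen p hp
  have hcS := a.cen p hp c hc hcN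
  have hpA := a.v.sys.sub p hp
  have hcG : c ∈ G := hcl.2 x hxG c (Finset.mem_sdiff.2 ⟨hpA hc, hcS⟩) (a.v.symm _ _ (hcN hx))
  have hpG : ∀ y ∈ p, y ∉ S → y ∈ G := fun y hy hyS =>
    hcl.2 c hcG y (Finset.mem_sdiff.2 ⟨hpA hy, hyS⟩) (hcN hy)
  -- a vertex of `S` in `p`
  have hs : ∃ s ∈ p, s ∈ S := by
    by_contra hcon
    push Not at hcon
    have hpG' : p ⊆ G := fun y hy => hpG y hy (hcon y hy)
    have hpc := a.v.sys.card p hp
    have hle := Finset.card_le_card hpG'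
    rcases hT with ⟨h1, _⟩ | ⟨h1, h2⟩
    · omega
    · obtain ⟨T, hTl, hcT, hTp⟩ := a.sub_star hp hc hcN
      have b : Blk N (K - 1) G (res (low N K A C S) G) :=
        ⟨a.v.refl, a.v.symm, (low_sys (K := K) (C := C)).res, hG, h1, h2⟩
      have hTm : T ∈ res (low N K A C S) G := mem_res.2 ⟨hTl, hTp.trans hpG'⟩
      have h3 : p ⊆ T := fun y hy =>
        (b.cen_eq hTm hcT (hTp.trans hcN) (hpG' hy)).1 (hcN hy)
      have h4 := Finset.card_le_card h3
      have h5 := (mem_low.1 hTl).1.2.1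
      omega
  obtain ⟨s, hsp, hsS⟩ := hs
  have hone := a.one p hp
  have huniq : ∀ y ∈ p, y ∈ S → y = s := by
    intro y hy hyS
    by_contra hne
    have h1 : 1 < (p ∩ S).card := Finset.one_lt_card.2
      ⟨y, Finset.mem_inter.2 ⟨hy, hyS⟩, s, Finset.mem_inter.2 ⟨hsp, hsS⟩, hne⟩
    omega
  have hTG : p.erase s ⊆ G := by
    intro y hy
    obtain ⟨h1, h2⟩ := Finset.mem_erase.1 hy
    exact hpG y h2 (fun h => h1 (huniq y h2 h))
  have hcs : c ≠ s := fun h => hcS (h ▸ hsS)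
  have hcT : c ∈ p.erase s := Finset.mem_erase.2 ⟨hcs, hc⟩
  refine ⟨s, hsS, p.erase s, mem_res.2 ⟨mem_low.2 ⟨⟨?_, ?_, c, hcT, ?_⟩, p, hp,
    Finset.erase_subset _ _⟩, hTG⟩, Finset.notMem_erase _ _,
    (Finset.insert_erase hsp).symm, c, hcT, hcN⟩
  · exact hTG.trans hcl.1
  · rw [Finset.card_erase_of_mem hsp, a.v.sys.card p hp]
  · exact (Finset.erase_subset _ _).trans hcN

lemma Part.GA (a : Part N K A C S G J) : G ⊆ A := a.cl.1.trans Finset.sdiff_subset

lemma Part.GS (a : Part N K A C S G J) {x : V} (hx : x ∈ G) : x ∉ S :=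
  (Finset.mem_sdiff.1 (a.cl.1 hx)).2

/-- The edges leaving the part. -/
lemma Part.edge (a : Part N K A C S G J) {y x : V} (hy : y ∈ G) (hx : x ∈ A) (hxG : x ∉ G)
    (hxy : x ∈ N y) : x ∈ S ∧ ∃ p ∈ C, y ∈ p ∧ x ∈ p ∧ p ⊆ N y := by
  have hxS : x ∈ S := by
    by_contra hxS
    exact hxG (a.cl.2 y hy x (Finset.mem_sdiff.2 ⟨hx, hxS⟩) hxy)
  have hne : y ≠ x := fun h => hxG (h ▸ hy)
  obtain ⟨p, hp, hyp, hxp, h1 | h1⟩ := a.c.v.star_edge hne (a.GA hy) hx hxy
  · exact ⟨hxS, p, hp, hyp, hxp, h1⟩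
  · exact absurd hxS (a.c.cen p hp x hxp h1)

/-- There is an edge leaving the part. -/
lemma Part.exists_port (a : Part N K A C S G J) (hne : G ≠ A) :
    ∃ y ∈ G, ∃ x ∈ A, x ∉ G ∧ x ∈ N y ∧ x ∈ S ∧ ∃ p ∈ C, y ∈ p ∧ x ∈ p ∧ p ⊆ N y := by
  obtain ⟨y, hy, x, hx, hxG, hxy⟩ := a.c.v.conn.2 G a.GA a.conn.1 hne
  obtain ⟨h1, h2⟩ := a.edge hy hx hxG hxy
  exact ⟨y, hy, x, hx, hxG, hxy, h1, h2⟩

/-- Star sets centred outside of the part lie outside. -/
lemma Part.inH (a : Part N K A C S G J) {p : Finset V} (hp : p ∈ C) {c : V} (hc : c ∈ p)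
    (hcN : p ⊆ N c) (hcH : c ∈ A \ G) : p ⊆ A \ G := by
  intro x hx
  refine Finset.mem_sdiff.2 ⟨a.c.v.sys.sub p hp hx, fun hxG => ?_⟩
  obtain ⟨s, hs, T, hT, -, rfl, -⟩ := a.meet p hp x hx hxG
  rcases Finset.mem_insert.1 hc with h | h
  · exact a.c.cen _ hp c hc hcN (h ▸ hs)
  · exact (Finset.mem_sdiff.1 hcH).2 (a.Jsub T hT h)

lemma Part.meets (a : Part N K A C S G J) {p : Finset V} (hp : p ∈ C) (h : ¬ p ⊆ A \ G) :
    ∃ x ∈ p, x ∈ G := by
  rw [Finset.not_subset] at h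
  obtain ⟨x, hx, hn⟩ := h
  refine ⟨x, hx, ?_⟩
  by_contra hc
  exact hn (Finset.mem_sdiff.2 ⟨a.c.v.sys.sub p hp hx, hc⟩)

/-- `A` is large. -/
lemma Code.big (a : Code N K A C S) : 5 * K + 2 ≤ A.card := by
  have h1 := a.ex
  have h2 := Nat.mul_le_mul_left (2 * K + 1) a.five
  omega

/-- **Part A**: no exceptional component with `K - 1` vertices. -/
theorem Part.no_a (a : Part N K A C S G J) (hK : 3 ≤ K) (hG : G.card + 1 = K) : False := by
  classical
  have v := a.c.v
  have hGA := a.GA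
  have hGn := a.conn.1
  have hbig := a.c.big
  have hex := a.c.ex
  have hfive := a.c.five
  have hcard : (A \ G).card + G.card = A.card := Finset.card_sdiff_add_card_eq_card hGA
  have hGne : G ≠ A := by
    intro h
    rw [h] at hG
    omega
  -- the star sets meeting `G` contain it
  have hGp : ∀ p ∈ C, ∀ x ∈ p, x ∈ G → G ⊆ p := by
    intro p hp x hx hxG
    obtain ⟨s, hs, T, hT, -, rfl, -⟩ := a.meet p hp x hx hxG
    have h1 : T = G := Finset.eq_of_subset_of_card_le (a.Jsub T hT) (by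
      have := a.Jcard T hT
      omega)
    rw [h1]
    exact Finset.subset_insert _ _
  -- ports kill the star sets meeting `G`
  have hport : ∀ s : V, (∃ y ∈ G, s ∈ N y) → ∀ D ⊆ A, s ∈ D →
      (∀ p ∈ C, p ⊆ A \ G → Hit N D p) → gk N A C ≤ D.card := by
    rintro s ⟨y, hy, hsy⟩ D hD hsD hk
    apply gk_le hD
    intro p hp
    by_cases hpG : p ⊆ A \ G
    · exact hk p hp hpG
    · obtain ⟨x, hx, hxG⟩ := a.meets hp hpG
      exact ⟨s, hsD, y, hGp p hp x hx hxG hy, v.symm _ _ hsy⟩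
  obtain ⟨F0, hF0⟩ := exists_comps (N := N) v.symm (A \ G)
  have hup := v.sub_lt hex hGA hGn hF0
  have hlow : gk N A C ≤ 1 + ∑ L ∈ F0, gk N L (res C L) := by
    obtain ⟨g, hg⟩ := hGn
    have h1 := v.hall hGA ⟨g, hg⟩ hF0 (D0 := {g}) (Finset.singleton_subset_iff.2 (hGA hg))
      (fun p hp hn => by
        obtain ⟨x, hx, hxG⟩ := a.meets hp hn
        exact ⟨g, Finset.mem_singleton_self g, g, hGp p hp x hx hxG hg, v.refl g⟩)
      (E := ∅) (Finset.empty_subset _) (fun L hL => absurd hL (Finset.notMem_empty _))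
      (fun L hL => absurd hL (Finset.notMem_empty _))
    rw [Finset.card_empty, Finset.card_singleton] at h1
    omega
  have hf0 : ∑ L ∈ F0, gk N L (res C L) + 1 = gk N A C := by omega
  -- every component has two to spare
  have hspare : ∀ L ∈ F0, (2 * K + 1) * gk N L (res C L) + 2 ≤ 2 * L.card := by
    intro L hL
    obtain ⟨y, hy, x, hx, hxy⟩ := hF0.adj v.symm v.conn hGA hGn hL
    rcases v.through hGA hGn hF0 hL hx with ⟨D, h1, h2, h3, h4⟩ | h1
    · exfalso
      have h5 := hport x ⟨y, hy, hxy⟩ D (h1.trans Finset.sdiff_subset) h2 h4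
      omega
    · exact h1
  have hF1 : F0.card ≤ 1 := by
    have h1 : ∑ L ∈ F0, ((2 * K + 1) * gk N L (res C L) + 2) ≤ ∑ L ∈ F0, 2 * L.card :=
      Finset.sum_le_sum hspare
    rw [Finset.sum_add_distrib, ← Finset.mul_sum, ← Finset.mul_sum, Finset.sum_const,
      smul_eq_mul, ← hF0.card] at h1
    rw [← hf0] at hex
    rw [Nat.mul_add] at hex
    omega
  -- the rest is connected
  have hHconn : Conn N (A \ G) := by
    have hne : (A \ G).Nonempty := by
      rw [← Finset.card_pos]; omega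
    obtain ⟨x, hx⟩ := hne
    obtain ⟨L, hL, hxL⟩ := hF0.cover x hx
    have h1 : A \ G = L := by
      apply Finset.Subset.antisymm _ (hF0.cl L hL).1
      intro y hy
      obtain ⟨L', hL', hyL'⟩ := hF0.cover y hy
      rw [Finset.card_le_one.1 hF1 L hL L' hL']
      exact hyL'
    rw [h1]
    exact hF0.conn L hL
  obtain ⟨y1, hy1, s1, hs1A, hs1G, hs1y, hs1S, -⟩ := a.exists_port hGne
  have hs1H : s1 ∈ A \ G := Finset.mem_sdiff.2 ⟨hs1A, hs1G⟩
  set M := (A \ G) \ {s1} with hM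
  have hMA : M ⊂ A := by
    refine Finset.ssubset_iff_subset_ne.2 ⟨Finset.sdiff_subset.trans Finset.sdiff_subset, ?_⟩
    intro h
    have h1 : s1 ∈ M := h ▸ hs1A
    exact (Finset.mem_sdiff.1 h1).2 (Finset.mem_singleton_self s1)
  have hMc : M.card + 1 = (A \ G).card := by
    have := Finset.card_sdiff_add_card_eq_card (Finset.singleton_subset_iff.2 hs1H)
    rw [Finset.card_singleton] at this
    exact this
  have hMn : M.Nonempty := by
    rw [← Finset.card_pos]; omega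
  set Y := M.filter (fun x => x ∈ N s1) with hY
  have hmY : ∀ x, x ∈ Y ↔ x ∈ M ∧ x ∈ N s1 := fun x => by rw [hY, Finset.mem_filter]
  obtain ⟨F, hF⟩ := exists_comps (N := N) v.symm M
  have hmM : ∀ x, x ∈ M ↔ x ∈ A \ G ∧ x ∉ ({s1} : Finset V) := fun x => Finset.mem_sdiff
  have htouch : ∀ L ∈ F, ¬ Disjoint L Y := by
    intro L hL hdis
    obtain ⟨y, hy, x, hx, hxy⟩ := hF.adj v.symm hHconn (Finset.singleton_subset_iff.2 hs1H)
      (Finset.singleton_nonempty _) hL
    rw [Finset.mem_singleton.1 hy] at hxy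
    exact Finset.disjoint_left.1 hdis hx ((hmY x).2 ⟨(hF.cl L hL).1 hx, hxy⟩)
  obtain ⟨Z, P, z, hf, hYZ, hcomp, hsum, hcnt⟩ := forest_of v.refl v.symm v.two v.sys v.hE hMA
    hMn (Y := Y) (Finset.filter_subset _ _) hF (g := gk N A C - 1)
    (by
      intro D hD hk
      have h1 := hport s1 ⟨y1, hy1, hs1y⟩ (insert s1 D)
        (Finset.insert_subset hs1A (hD.trans hMA.1)) (Finset.mem_insert_self _ _) (by
          intro p hp hpH
          by_cases hs1p : ∃ x ∈ p, x ∈ N s1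
          · obtain ⟨x, hx, hxs⟩ := hs1p
            exact ⟨s1, Finset.mem_insert_self _ _, x, hx, hxs⟩
          · push Not at hs1p
            refine (hk p (mem_res.2 ⟨hp, fun x hx => ?_⟩)).mono (Finset.subset_insert _ _)
            refine Finset.mem_sdiff.2 ⟨(hmM x).2 ⟨hpH hx, ?_⟩, ?_⟩
            · rw [Finset.mem_singleton]
              rintro rfl
              exact hs1p x hx (v.refl x)
            · intro h
              exact hs1p x hx ((hmY x).1 h).2)
      have h2 := Finset.card_insert_le s1 D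
      omega)
    (fun L hL hdis => absurd hdis (htouch L hL))
    (by
      obtain ⟨t, ht⟩ : ∃ t, gk N A C = t + 1 := ⟨gk N A C - 1, by omega⟩
      rw [ht] at hex ⊢
      rw [Nat.mul_add] at hex
      simp only [Nat.add_sub_cancel]
      omega)
  -- all blocks have `2K` vertices
  have hPa : (P.filter (fun U => U.card = K)).card = 0 := by
    obtain ⟨t, ht⟩ : ∃ t, gk N A C = t + 1 := ⟨gk N A C - 1, by omega⟩
    rw [ht] at hex hcnt
    rw [Nat.mul_add] at hex
    simp only [Nat.add_sub_cancel] at hcnt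
    omega
  obtain ⟨U, hU⟩ : P.Nonempty := by
    rw [Finset.nonempty_iff_ne_empty]
    rintro rfl
    rw [Finset.sum_empty] at hsum
    omega
  have hUc : U.card = 2 * K := by
    rw [Finset.card_eq_zero, Finset.filter_eq_empty_iff] at hPa
    rcases hf.typ U hU with ⟨h1, _⟩ | ⟨h1, _⟩
    · exact absurd h1 (hPa hU)
    · exact h1
  have hx : Ctx N K A C S (A \ G) {s1} M Z P z := by
    refine ⟨v, a.c.one, a.c.cen, Finset.sdiff_subset, hMA,
      Finset.singleton_subset_iff.2 hs1S, Finset.singleton_subset_iff.2 hs1H, hmM, hf, ?_,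
      fun p hp c hc hcN hcH => a.inH hp hc hcN hcH, ?_⟩
    · intro s hs y hy hys
      rw [Finset.mem_singleton.1 hs] at hys
      exact hYZ ((hmY y).2 ⟨hy, hys⟩)
    · intro L hL hLcl
      obtain ⟨x, hx, hxY⟩ := Finset.not_disjoint_iff.1 (htouch L (hF.mem_of hL hLcl))
      exact ⟨s1, Finset.mem_singleton_self _, x, hx, ((hmY x).1 hxY).2⟩
  by_cases hpt : ∃ x ∈ U, ∃ y ∈ G, x ∈ N y
  · -- a port in the block
    obtain ⟨x, hxU, y, hy, hxy⟩ := hpt
    have hxM := hf.UM hU hxU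
    have hxA := hMA.1 hxM
    have hxG := (Finset.mem_sdiff.1 ((hmM x).1 hxM).1).2
    obtain ⟨hxS, -⟩ := a.edge hy hxA hxG hxy
    obtain ⟨D, h1, h2, h3, h4⟩ := hx.no_port hK hU hUc hxU hxS
    have h5 := hport x ⟨y, hy, hxy⟩ D (h1.trans hMA.1) h2 h4
    omega
  · -- the block hangs at its hub
    push Not at hpt
    apply v.no_hang (hMA.1 (hf.sub (hf.mem U hU))) (hf.comps.conn U hU) ((hf.UM hU).trans hMA.1)
      (fun h => hf.UZ hU h (hf.mem U hU)) _ (hf.typ U hU)
    intro x hx y hy hyx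
    by_cases hyU : y ∈ U
    · exact Or.inl hyU
    · right
      by_cases hyG : y ∈ G
      · exact absurd (v.symm _ _ hyx) (hpt x hx y hyG)
      · by_cases hys : y = s1
        · exfalso
          rw [hys] at hyx
          exact hf.UZ hU hx (hYZ ((hmY x).2 ⟨hf.UM hU hx, v.symm _ _ hyx⟩))
        · exact hf.only U hU x hx y ((hmM y).2 ⟨Finset.mem_sdiff.2 ⟨hy, hyG⟩, by
            rw [Finset.mem_singleton]; exact hys⟩) hyU hyx

end

end Pool.Agent.Star.Rig
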