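import Pool.Agent.Star.Code5

/-!
# Codes: the exceptional components with `2K - 2` vertices, the K-reduction
-/

set_option autoImplicit false
set_option linter.unusedSectionVars false
set_option linter.unusedVariables false

namespace Pool.Agent.Star.Rig

open Finset

variable {V : Type*} [DecidableEq V]

section
variable {N : V → Finset V} {K : ℕ} {U : Finset V} {J : Finset (Finset V)}

/-- Two vertices adjacent to the centres of complementary star sets kill the block. -/
lemma Blk.cen_kill (b : Blk N K U J) {T : Finset V} (hT : T ∈ J) {y y' : V} (hy : y ∈ T)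
    (hyN : T ⊆ N y) (hy' : y' ∈ U \ T) (hyN' : U \ T ⊆ N y') {D : Finset V}
    (hD : ∃ d ∈ D, y ∈ N d) (hD' : ∃ d ∈ D, y' ∈ N d) {X : Finset V} (hX : X ∈ J) :
    Hit N D X := by
  obtain ⟨e, he, heN⟩ := b.sys.cen X hX
  have heU := b.sys.sub X hX he
  by_cases heT : e ∈ T
  · have h1 : y ∈ X := (b.cen_eq hX he heN (b.sys.sub T hT hy)).1 (b.symm _ _ (hyN heT))
    obtain ⟨d, hd, hyd⟩ := hD
    exact ⟨d, hd, y, h1, hyd⟩
  · have h1 : y' ∈ X := (b.cen_eq hX he heN (Finset.mem_sdiff.1 hy').1).1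
      (b.symm _ _ (hyN' (Finset.mem_sdiff.2 ⟨heU, heT⟩)))
    obtain ⟨d, hd, hyd⟩ := hD'
    exact ⟨d, hd, y', h1, hyd⟩

end

section
variable {N : V → Finset V} {K : ℕ} {A S G : Finset V} {C F J : Finset (Finset V)}

lemma Hit.mono_right {D S S' : Finset V} (h : Hit N D S) (hS : S ⊆ S') : Hit N D S' := by
  obtain ⟨d, hd, x, hx, hxd⟩ := h
  exact ⟨d, hd, x, hS hx, hxd⟩

lemma Viol.exc_count (h : Viol N K A C) (hGA : G ⊆ A) (hGn : G.Nonempty)
    (hF : Comps N (A \ G) F) :
    (2 * K + 1) * ∑ L ∈ F, gk N L (res C L) ≤ 2 * (A \ G).card + 2 * (exc N K C F).card := by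
  classical
  have hLA : ∀ L ∈ F, L ⊂ A := fun L hL =>
    Finset.ssubset_of_subset_of_ssubset (hF.cl L hL).1 (Finset.sdiff_ssubset hGA hGn)
  have h3 : (exc N K C F).card = ∑ L ∈ F, (if L ∈ exc N K C F then 1 else 0) := by
    rw [← Finset.card_filter]
    congr 1
    ext U
    rw [Finset.mem_filter]
    exact ⟨fun hU => ⟨exc_sub hU, hU⟩, fun hU => hU.2⟩
  rw [h3, hF.card, Finset.mul_sum, Finset.mul_sum, Finset.mul_sum, ← Finset.sum_add_distrib]
  apply Finset.sum_le_sum
  intro L hL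
  have hB := h.hE L (hLA L hL) (res C L) (Finset.filter_subset _ _) h.sys.res (hF.conn L hL)
  by_cases hLE : L ∈ exc N K C F
  · rw [if_pos hLE]
    have := bd_two hB
    omega
  · rw [if_neg hLE]
    have := bd_exc hB (fun hT => hLE (mem_exc.2 ⟨hL, hT⟩))
    omega

/-- The star sets centred in the part. -/
lemma Part.cenT (a : Part N K A C S G J) {y : V} (hy : y ∈ G) {p : Finset V} (hp : p ∈ C)
    (hyp : y ∈ p) (hpN : p ⊆ N y) :
    ∃ s ∈ S, ∃ T ∈ J, s ∉ T ∧ p = insert s T ∧ y ∈ T ∧ T ⊆ N y := by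
  obtain ⟨s, hs, T, hT, hsT, hpT, -⟩ := a.meet p hp y hyp hy
  refine ⟨s, hs, T, hT, hsT, hpT, ?_, ?_⟩
  · rw [hpT] at hyp
    rcases Finset.mem_insert.1 hyp with h | h
    · exact absurd hs (h ▸ a.GS hy)
    · exact h
  · intro x hx
    apply hpN
    rw [hpT]
    exact Finset.mem_insert_of_mem hx

/-- Each star set of the part comes from a star set of the system. -/
lemma Part.lift (a : Part N K A C S G J) {T : Finset V} (hT : T ∈ J) (hTn : T.Nonempty) :
    ∃ s ∈ S, ∃ c ∈ T, T ⊆ N c ∧ s ∈ N c := by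
  obtain ⟨p, hp, hTp⟩ := a.Jlift T hT
  obtain ⟨x, hx⟩ := hTn
  obtain ⟨s, hs, T', hT', hsT', hpT, c, hc, hcN⟩ := a.meet p hp x (hTp hx) (a.Jsub T hT hx)
  have h1 : T ⊆ T' := by
    intro y hy
    have h2 := hTp hy
    rw [hpT] at h2
    rcases Finset.mem_insert.1 h2 with h | h
    · exact absurd hs (h ▸ a.GS (a.Jsub T hT hy))
    · exact h
  have h2 : T = T' := Finset.eq_of_subset_of_card_le h1 (by
    have h3 := a.Jcard T hT
    have h4 := a.Jcard T' hT'
    omega)
  rw [← h2] at hc hpT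
  refine ⟨s, hs, c, hc, hTp.trans hcN, hcN ?_⟩
  rw [hpT]
  exact Finset.mem_insert_self _ _

/-- A pair which kills `J` kills the star sets meeting `G`. -/
lemma Part.hitG (a : Part N K A C S G J) {D : Finset V} (hD : ∀ T ∈ J, Hit N D T) :
    ∀ p ∈ C, ¬ p ⊆ A \ G → Hit N D p := by
  intro p hp hn
  obtain ⟨x, hx, hxG⟩ := a.meets hp hn
  obtain ⟨s, hs, T, hT, hsT, hpT, -⟩ := a.meet p hp x hx hxG
  refine (hD T hT).mono_right ?_
  rw [hpT]
  exact Finset.subset_insert _ _

/-- **Part B1**: the rest does not need all but one. -/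
theorem Part.no_b1 (a : Part N K A C S G J) (b : Blk N (K - 1) G J) (hK : 4 ≤ K)
    (hF : Comps N (A \ G) F) (ht : ∑ L ∈ F, gk N L (res C L) + 1 = gk N A C) : False := by
  classical
  have v := a.c.v
  have hGA := a.GA
  have hGn := a.conn.1
  have hex := a.c.ex
  have hGc : G.card = 2 * (K - 1) := b.card
  have hcard : (A \ G).card + G.card = A.card := Finset.card_sdiff_add_card_eq_card hGA
  have hcnt := v.exc_count hGA hGn hF
  set E := exc N K C F with hE
  have hEc : K ≤ E.card + 2 := by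
    rw [← ht, Nat.mul_add] at hex
    omega
  have hETyp : ∀ L ∈ E, Typ N K L (res C L) := fun L hL => (mem_exc.1 hL).2
  have hEF : E ⊆ F := exc_sub
  have hEA : ∀ L ∈ E, ∀ y ∈ L, y ∈ A ∧ y ∉ G := fun L hL y hy =>
    Finset.mem_sdiff.1 ((hF.cl L (hEF hL)).1 hy)
  -- the neighbourhoods inside `G`
  set Tn : V → Finset V := fun x => G.filter (fun y => y ∈ N x) with hTn
  have hmT : ∀ x y, y ∈ Tn x ↔ y ∈ G ∧ y ∈ N x := fun x y => by
    rw [hTn]; exact Finset.mem_filter
  have hTeq : ∀ T ∈ J, ∀ c ∈ T, T ⊆ N c → Tn c = T := by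
    intro T hT c hc hcN
    ext y
    rw [hmT]
    constructor
    · rintro ⟨h1, h2⟩
      exact (b.cen_eq hT hc hcN h1).1 h2
    · intro hy
      exact ⟨b.sys.sub T hT hy, hcN hy⟩
  -- attached vertices
  have hat : ∀ x ∈ G, ∀ L ∈ E, ∀ y ∈ L, y ∈ N x → Tn x ∈ J ∧ x ∈ Tn x ∧ Tn x ⊆ N x := by
    intro x hx L hL y hy hyx
    obtain ⟨hyA, hyG⟩ := hEA L hL y hy
    obtain ⟨-, p, hp, hxp, hyp, hpN⟩ := a.edge hx hyA hyG hyx
    obtain ⟨s, hs, T, hT, -, -, hxT, hTN⟩ := a.cenT hx hp hxp hpN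
    have h1 := hTeq T hT x hxT hTN
    rw [h1]
    exact ⟨hT, hxT, hTN⟩
  -- one vertex serves only one exceptional component
  have hone : ∀ x ∈ G, ∀ L ∈ E, ∀ L' ∈ E, (∃ y ∈ L, y ∈ N x) → (∃ y ∈ L', y ∈ N x) →
      L = L' := by
    intro x hx L hL L' hL' h1 h2
    by_contra hne
    obtain ⟨y, hy, hyx⟩ := h1
    obtain ⟨hTJ, hxT, hTN⟩ := hat x hx L hL y hy hyx
    obtain ⟨w, hw⟩ : (G \ Tn x).Nonempty := b.sys.nonempty (b.compl_mem hTJ)
    have h3 := v.hall hGA hGn hF (D0 := {x, w}) (by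
        intro e he
        rcases Finset.mem_insert.1 he with rfl | he
        · exact hGA hx
        · rw [Finset.mem_singleton.1 he]; exact hGA (Finset.mem_sdiff.1 hw).1)
      (a.hitG (fun X hX => b.sep_kill hTJ hxT hw hX)) (E := {L, L'})
      (by
        intro W hW
        rcases Finset.mem_insert.1 hW with rfl | hW
        · exact hEF hL
        · rw [Finset.mem_singleton.1 hW]; exact hEF hL')
      (by
        intro W hW
        rcases Finset.mem_insert.1 hW with rfl | hW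
        · exact hETyp _ hL
        · rw [Finset.mem_singleton.1 hW]; exact hETyp _ hL')
      (by
        intro W hW
        rcases Finset.mem_insert.1 hW with rfl | hW
        · exact ⟨x, by simp, y, hy, hyx⟩
        · rw [Finset.mem_singleton.1 hW]
          obtain ⟨y', hy', hyx'⟩ := h2
          exact ⟨x, by simp, y', hy', hyx'⟩)
    have h4 : ({x, w} : Finset V).card ≤ 2 := Finset.card_le_two
    rw [Finset.card_pair hne] at h3
    omega
  have hadjE : ∀ L : Finset V, ∃ x : V, L ∈ E → x ∈ G ∧ ∃ y ∈ L, y ∈ N x := by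
    intro L
    by_cases hL : L ∈ E
    · obtain ⟨x, hx, y, hy, hyx⟩ := hF.adj v.symm v.conn hGA hGn (hEF hL)
      exact ⟨x, fun _ => ⟨hx, y, hy, hyx⟩⟩
    · obtain ⟨g, hg⟩ := hGn
      exact ⟨g, fun h => absurd h hL⟩
  choose xl hxl using hadjE
  -- every choice is missed by a star set
  have hmiss : ∀ f : Finset V → V, (∀ L ∈ E, f L ∈ G ∧ ∃ y ∈ L, y ∈ N (f L)) →
      ∃ T ∈ J, ∀ L ∈ E, Tn (f L) = G \ T := by
    intro f hf
    have h0 : ∃ T ∈ J, ∀ L ∈ E, ∀ y ∈ T, y ∉ N (f L) := by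
      by_contra hcon
      push Not at hcon
      have h3 := v.hall hGA hGn hF (D0 := E.image f) (by
          intro e he
          obtain ⟨L, hL, rfl⟩ := Finset.mem_image.1 he
          exact hGA (hf L hL).1)
        (a.hitG (fun X hX => by
          obtain ⟨L, hL, y, hy, hyN⟩ := hcon X hX
          exact ⟨f L, Finset.mem_image_of_mem f hL, y, hy, hyN⟩)) (E := E) hEF hETyp
        (fun L hL => ⟨f L, Finset.mem_image_of_mem f hL, (hf L hL).2⟩)
      have h4 : (E.image f).card ≤ E.card := Finset.card_image_le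
      omega
    obtain ⟨T, hT, hTm⟩ := h0
    refine ⟨T, hT, ?_⟩
    intro L hL
    obtain ⟨hfG, y, hy, hyN⟩ := hf L hL
    obtain ⟨h1, h2, h3⟩ := hat (f L) hfG L hL y hy hyN
    apply Finset.eq_of_subset_of_card_le
    · intro w hw
      exact Finset.mem_sdiff.2 ⟨((hmT _ _).1 hw).1, fun hwT => hTm L hL w hwT ((hmT _ _).1 hw).2⟩
    · have h4 : (G \ T).card + T.card = G.card :=
        Finset.card_sdiff_add_card_eq_card (b.sys.sub T hT)
      have h5 := b.sys.card T hT
      have h6 := b.sys.card _ h1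
      omega
  -- two exceptional components
  have hE2 : 1 < E.card := by omega
  obtain ⟨L1, hL1, L2, hL2, hL12⟩ := Finset.one_lt_card.1 hE2
  set x0 := xl L1 with hx0
  obtain ⟨hx0G, y0, hy0, hy0N⟩ := hxl L1 hL1
  obtain ⟨hPJ, hx0P, hPN⟩ := hat x0 hx0G L1 hL1 y0 hy0 hy0N
  set Pp := Tn x0 with hPp
  -- different components
  have hdiff : ∀ x ∈ G, ∀ L ∈ E, ∀ x' ∈ G, ∀ L' ∈ E, L ≠ L' → (∃ y ∈ L, y ∈ N x) →
      (∃ y ∈ L', y ∈ N x') → Tn x = Tn x' := by
    intro x hx L hL x' hx' L' hL' hne h1 h2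
    obtain ⟨T, hT, hTf⟩ := hmiss (fun W => if W = L then x else if W = L' then x' else xl W)
      (by
        intro W hW
        by_cases hWL : W = L
        · simp only [hWL, if_true]; exact ⟨hx, h1⟩
        · by_cases hWL' : W = L'
          · simp only [hWL', hne.symm, if_false, if_true]; exact ⟨hx', h2⟩
          · simp only [hWL, hWL', if_false]; exact hxl W hW)
    have h3 := hTf L hL
    have h4 := hTf L' hL'
    simp only [if_true] at h3
    simp only [hne.symm, if_false, if_true] at h4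
    rw [h3, h4]
  have hall : ∀ x ∈ G, ∀ L ∈ E, (∃ y ∈ L, y ∈ N x) → Tn x = Pp := by
    intro x hx L hL h1
    by_cases hLL : L = L1
    · have h2 := hdiff x hx L hL (xl L2) (hxl L2 hL2).1 L2 hL2 (fun h => hL12 (hLL ▸ h)) h1
        (hxl L2 hL2).2
      have h3 := hdiff x0 hx0G L1 hL1 (xl L2) (hxl L2 hL2).1 L2 hL2 hL12 ⟨y0, hy0, hy0N⟩
        (hxl L2 hL2).2
      rw [h2, hPp, h3]
    · exact hdiff x hx L hL x0 hx0G L1 hL1 hLL h1 ⟨y0, hy0, hy0N⟩
  -- the attached vertices
  set X := G.filter (fun x => ∃ L ∈ E, ∃ y ∈ L, y ∈ N x) with hX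
  have hmX : ∀ x, x ∈ X ↔ x ∈ G ∧ ∃ L ∈ E, ∃ y ∈ L, y ∈ N x := fun x => by
    rw [hX, Finset.mem_filter]
  have hXT : ∀ x ∈ X, Tn x = Pp := by
    intro x hx
    obtain ⟨hxG, L, hL, h1⟩ := (hmX x).1 hx
    exact hall x hxG L hL h1
  have hXP : X ⊆ Pp := by
    intro x hx
    obtain ⟨hxG, L, hL, y, hy, hyx⟩ := (hmX x).1 hx
    rw [← hXT x hx]
    exact (hat x hxG L hL y hy hyx).2.1
  have hXc : E.card ≤ X.card := by
    apply Finset.card_le_card_of_injOn xl
    · intro L hL
      exact (hmX _).2 ⟨(hxl L hL).1, L, hL, (hxl L hL).2⟩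
    · intro L hL L' hL' heq
      exact hone (xl L) (hxl L hL).1 L hL L' hL' (hxl L hL).2 (by rw [heq]; exact (hxl L' hL').2)
  have hPc : Pp.card = K - 1 := b.sys.card Pp hPJ
  have hPG : Pp ⊆ G := b.sys.sub Pp hPJ
  have hPne : Pp ≠ G := by
    intro h
    rw [h, hGc] at hPc
    omega
  obtain ⟨u, hu, w, hwG, hwP, hwu⟩ := a.conn.2 Pp hPG ⟨x0, hx0P⟩ hPne
  have huG := hPG hu
  have huX : u ∉ X := by
    intro h
    apply hwP
    rw [← hXT u h]
    exact (hmT _ _).2 ⟨hwG, hwu⟩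
  have hXe : X = Pp.erase u := by
    apply Finset.eq_of_subset_of_card_le
    · intro x hx
      exact Finset.mem_erase.2 ⟨fun h => huX (h ▸ hx), hXP hx⟩
    · rw [Finset.card_erase_of_mem hu]
      omega
  have huw : u ≠ w := fun h => hwP (h ▸ hu)
  have hx0X : x0 ∈ X := (hmX x0).2 ⟨hx0G, L1, hL1, y0, hy0, hy0N⟩
  obtain ⟨p, hp, hup, hwp, h1 | h1⟩ := v.star_edge huw (hGA huG) (hGA hwG) hwu
  · obtain ⟨s, hs, T, hT, -, hpT, huT, hTN⟩ := a.cenT huG hp hup h1
    have h2 : Pp ⊆ T := by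
      intro x hx
      by_cases hxu : x = u
      · rw [hxu]; exact huT
      · have hxX : x ∈ X := by rw [hXe]; exact Finset.mem_erase.2 ⟨hxu, hx⟩
        have h3 : u ∈ Tn x := by rw [hXT x hxX]; exact hu
        exact (b.cen_eq hT huT hTN (hPG hx)).1 (v.symm _ _ ((hmT _ _).1 h3).2)
    have h3 : Pp = T := Finset.eq_of_subset_of_card_le h2 (by
      rw [hPc, b.sys.card T hT])
    apply hwP
    rw [h3]
    rw [hpT] at hwp
    rcases Finset.mem_insert.1 hwp with h | h
    · exact absurd hs (h ▸ a.GS hwG)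
    · exact h
  · obtain ⟨s, hs, T, hT, -, hpT, hwT, hTN⟩ := a.cenT hwG hp hwp h1
    have huT : u ∈ T := by
      rw [hpT] at hup
      rcases Finset.mem_insert.1 hup with h | h
      · exact absurd hs (h ▸ a.GS huG)
      · exact h
    have hx0T : x0 ∉ T := by
      intro h
      apply hwP
      rw [hPp]
      exact (hmT _ _).2 ⟨hwG, v.symm _ _ (hTN h)⟩
    have hT' := b.compl_mem hT
    obtain ⟨c, hc, hcN⟩ := b.sys.cen _ hT'
    have hcG := (Finset.mem_sdiff.1 hc).1
    have hx0c : x0 ∈ N c := hcN (Finset.mem_sdiff.2 ⟨hx0G, hx0T⟩)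
    have hcP : c ∈ Pp := by
      rw [hPp]
      exact (hmT _ _).2 ⟨hcG, v.symm _ _ hx0c⟩
    have hcu : c ≠ u := fun h => (Finset.mem_sdiff.1 hc).2 (h ▸ huT)
    have hcX : c ∈ X := by rw [hXe]; exact Finset.mem_erase.2 ⟨hcu, hcP⟩
    have h3 : u ∈ Tn c := by rw [hXT c hcX]; exact hu
    have h4 := (b.cen_eq hT' hc hcN huG).1 ((hmT _ _).1 h3).2
    exact (Finset.mem_sdiff.1 h4).2 huT

/-- **Part B**: no exceptional component with `2K - 2` vertices. -/
theorem Part.no_b (a : Part N K A C S G J) (b : Blk N (K - 1) G J) (hK : 4 ≤ K) : False := by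
  classical
  have v := a.c.v
  have hGA := a.GA
  have hGn := a.conn.1
  have hex := a.c.ex
  have hfive := a.c.five
  have hbig := a.c.big
  have hGc : G.card = 2 * (K - 1) := b.card
  have hcard : (A \ G).card + G.card = A.card := Finset.card_sdiff_add_card_eq_card hGA
  obtain ⟨F0, hF0⟩ := exists_comps (N := N) v.symm (A \ G)
  obtain ⟨T, hT⟩ := b.ne
  have hT' := b.compl_mem hT
  obtain ⟨s1, hs1S, c1, hc1, hc1N, hs1c⟩ := a.lift hT (b.sys.nonempty hT)
  obtain ⟨s2, hs2S, c2, hc2, hc2N, hs2c⟩ := a.lift hT' (b.sys.nonempty hT')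
  have hc1G := b.sys.sub T hT hc1
  have hc2G := b.sys.sub _ hT' hc2
  have hSH : ∀ s ∈ S, s ∈ A \ G := fun s hs =>
    Finset.mem_sdiff.2 ⟨a.c.sub hs, fun h => a.GS h hs⟩
  -- `t = s - 2`
  have hup := v.sub_lt hex hGA hGn hF0
  have hne1 : ∑ L ∈ F0, gk N L (res C L) + 1 ≠ gk N A C := fun h => a.no_b1 b hK hF0 h
  have hlow : gk N A C ≤ 2 + ∑ L ∈ F0, gk N L (res C L) := by
    have h1 := v.hall hGA hGn hF0 (D0 := {c1, c2}) (by
        intro e he
        rcases Finset.mem_insert.1 he with rfl | he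
        · exact hGA hc1G
        · rw [Finset.mem_singleton.1 he]; exact hGA hc2G)
      (a.hitG (fun X hX => b.sep_kill hT hc1 hc2 hX))
      (E := ∅) (Finset.empty_subset _) (fun L hL => absurd hL (Finset.notMem_empty _))
      (fun L hL => absurd hL (Finset.notMem_empty _))
    have h2 : ({c1, c2} : Finset V).card ≤ 2 := Finset.card_le_two
    rw [Finset.card_empty] at h1
    omega
  have hf0 : ∑ L ∈ F0, gk N L (res C L) + 2 = gk N A C := by omega
  -- ports
  have hport : ∀ x ∈ A, x ∉ G → (∃ y ∈ G, x ∈ N y) → ∀ D ⊆ A, x ∈ D →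
      (∀ p ∈ C, p ⊆ A \ G → Hit N D p) → gk N A C ≤ D.card + 1 := by
    rintro x hxA hxG ⟨y, hy, hxy⟩ D hD hxD hk
    obtain ⟨-, p, hp, hyp, hxp, hpN⟩ := a.edge hy hxA hxG hxy
    obtain ⟨s, hs, X, hX, -, -, hyX, hXN⟩ := a.cenT hy hp hyp hpN
    have hX' := b.compl_mem hX
    obtain ⟨c', hc', hcN'⟩ := b.sys.cen _ hX'
    have hc'G := b.sys.sub _ hX' hc'
    have h1 : gk N A C ≤ (insert c' D).card := by
      apply gk_le (Finset.insert_subset (hGA hc'G) hD)
      intro q hq
      by_cases hqG : q ⊆ A \ G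
      · exact (hk q hq hqG).mono (Finset.subset_insert _ _)
      · apply a.hitG _ q hq hqG
        intro W hW
        exact b.cen_kill hX hyX hXN hc' hcN'
          ⟨x, Finset.mem_insert_of_mem hxD, v.symm _ _ hxy⟩
          ⟨c', Finset.mem_insert_self _ _, v.refl c'⟩ hW
    exact h1.trans (Finset.card_insert_le _ _)
  have hspare : ∀ L ∈ F0, (2 * K + 1) * gk N L (res C L) + 2 ≤ 2 * L.card := by
    intro L hL
    obtain ⟨y, hy, x, hx, hxy⟩ := hF0.adj v.symm v.conn hGA hGn hL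
    obtain ⟨hxA, hxG⟩ := Finset.mem_sdiff.1 ((hF0.cl L hL).1 hx)
    rcases v.through hGA hGn hF0 hL hx with ⟨D, h1, h2, h3, h4⟩ | h1
    · exfalso
      have h5 := hport x hxA hxG ⟨y, hy, hxy⟩ D (h1.trans Finset.sdiff_subset) h2 h4
      omega
    · exact h1
  -- two different ports
  have hs12 : s1 ≠ s2 := by
    intro h
    have h1 := v.hall hGA hGn hF0 (D0 := {s1})
      (Finset.singleton_subset_iff.2 (a.c.sub hs1S))
      (a.hitG (fun X hX => b.cen_kill hT hc1 hc1N hc2 hc2N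
        ⟨s1, Finset.mem_singleton_self _, v.symm _ _ hs1c⟩
        ⟨s1, Finset.mem_singleton_self _, by rw [h]; exact v.symm _ _ hs2c⟩ hX))
      (E := ∅) (Finset.empty_subset _) (fun L hL => absurd hL (Finset.notMem_empty _))
      (fun L hL => absurd hL (Finset.notMem_empty _))
    rw [Finset.card_empty, Finset.card_singleton] at h1
    omega
  have hs1H := hSH s1 hs1S
  have hs2H := hSH s2 hs2S
  set M := (A \ G) \ {s1, s2} with hM
  have hmM : ∀ x, x ∈ M ↔ x ∈ A \ G ∧ x ∉ ({s1, s2} : Finset V) := fun x => Finset.mem_sdiff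
  have hpairH : ({s1, s2} : Finset V) ⊆ A \ G := by
    intro x hx
    rcases Finset.mem_insert.1 hx with rfl | hx
    · exact hs1H
    · rw [Finset.mem_singleton.1 hx]; exact hs2H
  have hpairS : ({s1, s2} : Finset V) ⊆ S := by
    intro x hx
    rcases Finset.mem_insert.1 hx with rfl | hx
    · exact hs1S
    · rw [Finset.mem_singleton.1 hx]; exact hs2S
  have hMA : M ⊂ A := by
    refine Finset.ssubset_iff_subset_ne.2 ⟨Finset.sdiff_subset.trans Finset.sdiff_subset, ?_⟩
    intro h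
    have h1 : s1 ∈ M := h ▸ a.c.sub hs1S
    exact ((hmM s1).1 h1).2 (by simp)
  have hMc : M.card + 2 = (A \ G).card := by
    have := Finset.card_sdiff_add_card_eq_card hpairH
    rw [Finset.card_pair hs12] at this
    exact this
  have hMn : M.Nonempty := by
    rw [← Finset.card_pos]; omega
  set Y := M.filter (fun x => x ∈ N s1 ∨ x ∈ N s2) with hY
  have hmY : ∀ x, x ∈ Y ↔ x ∈ M ∧ (x ∈ N s1 ∨ x ∈ N s2) := fun x => by
    rw [hY, Finset.mem_filter]
  obtain ⟨F, hF⟩ := exists_comps (N := N) v.symm M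
  have hun : ∀ L ∈ F, Disjoint L Y → (2 * K + 1) * gk N L (res C L) + 2 ≤ 2 * L.card := by
    intro L hL hdis
    apply hspare L
    apply hF0.mem_of (hF.conn L hL)
    refine ⟨(hF.cl L hL).1.trans Finset.sdiff_subset, ?_⟩
    intro x hx y hy hyx
    have hxM := (hF.cl L hL).1 hx
    by_cases hys : y ∈ ({s1, s2} : Finset V)
    · exfalso
      apply Finset.disjoint_left.1 hdis hx
      refine (hmY x).2 ⟨hxM, ?_⟩
      rcases Finset.mem_insert.1 hys with h | h
      · left; rw [← h]; exact v.symm _ _ hyx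
      · right; rw [← Finset.mem_singleton.1 h]; exact v.symm _ _ hyx
    · exact (hF.cl L hL).2 x hx y ((hmM y).2 ⟨hy, hys⟩) hyx
  obtain ⟨t, ht⟩ : ∃ t, gk N A C = t + 2 := ⟨gk N A C - 2, by omega⟩
  have hex' := hex
  rw [ht, Nat.mul_add] at hex'
  obtain ⟨Z, P, z, hf, hYZ, hcomp, hsum, hcnt⟩ := forest_of v.refl v.symm v.two v.sys v.hE hMA
    hMn (Y := Y) (Finset.filter_subset _ _) hF (g := t)
    (by
      intro D hD hk
      have h1 : gk N A C ≤ (insert s1 (insert s2 D)).card := by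
        apply gk_le (Finset.insert_subset (a.c.sub hs1S)
          (Finset.insert_subset (a.c.sub hs2S) (hD.trans hMA.1)))
        intro p hp
        have m1 : s1 ∈ insert s1 (insert s2 D) := Finset.mem_insert_self _ _
        have m2 : s2 ∈ insert s1 (insert s2 D) :=
          Finset.mem_insert_of_mem (Finset.mem_insert_self _ _)
        by_cases hpH : p ⊆ A \ G
        · by_cases hsp : ∃ x ∈ p, x ∈ N s1 ∨ x ∈ N s2
          · obtain ⟨x, hx, h | h⟩ := hsp
            · exact ⟨s1, m1, x, hx, h⟩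
            · exact ⟨s2, m2, x, hx, h⟩
          · push Not at hsp
            refine (hk p (mem_res.2 ⟨hp, fun x hx => ?_⟩)).mono ?_
            · refine Finset.mem_sdiff.2 ⟨(hmM x).2 ⟨hpH hx, ?_⟩, ?_⟩
              · intro h
                rcases Finset.mem_insert.1 h with h | h
                · exact (hsp x hx).1 (h ▸ v.refl x)
                · exact (hsp x hx).2 (Finset.mem_singleton.1 h ▸ v.refl x)
              · intro h
                rcases ((hmY x).1 h).2 with h | h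
                · exact (hsp x hx).1 h
                · exact (hsp x hx).2 h
            · intro x hx
              exact Finset.mem_insert_of_mem (Finset.mem_insert_of_mem hx)
        · apply a.hitG _ p hp hpH
          intro X hX
          exact b.cen_kill hT hc1 hc1N hc2 hc2N ⟨s1, m1, v.symm _ _ hs1c⟩
            ⟨s2, m2, v.symm _ _ hs2c⟩ hX
      have h2 := Finset.card_insert_le s1 (insert s2 D)
      have h3 := Finset.card_insert_le s2 D
      omega)
    hun (by omega)
  -- a block with `2K` vertices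
  have hPa : (P.filter (fun U => U.card = K)).card = 1 := by omega
  obtain ⟨U, hU, hUK⟩ : ∃ U ∈ P, U.card ≠ K := by
    by_contra hcon
    push Not at hcon
    have h1 : P.filter (fun U => U.card = K) = P := Finset.filter_true_of_mem hcon
    rw [h1] at hPa
    obtain ⟨W, hW⟩ := Finset.card_eq_one.1 hPa
    rw [hW, Finset.sum_singleton] at hsum
    have hWP : W ∈ P := by rw [hW]; exact Finset.mem_singleton_self _
    rcases hf.typ W hWP with ⟨_, h2⟩ | ⟨_, h2⟩
    · omega
    · omega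
  have hUc : U.card = 2 * K := by
    rcases hf.typ U hU with ⟨h1, _⟩ | ⟨h1, _⟩
    · exact absurd h1 hUK
    · exact h1
  have hx : Ctx N K A C S (A \ G) {s1, s2} M Z P z := by
    refine ⟨v, a.c.one, a.c.cen, Finset.sdiff_subset, hMA, hpairS, hpairH, hmM, hf, ?_,
      fun p hp c hc hcN hcH => a.inH hp hc hcN hcH, ?_⟩
    · intro s hs y hy hys
      apply hYZ
      refine (hmY y).2 ⟨hy, ?_⟩
      rcases Finset.mem_insert.1 hs with h | h
      · left; rw [← h]; exact hys
      · right; rw [← Finset.mem_singleton.1 h]; exact hys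
    · intro L hL hLcl
      obtain ⟨x, hx, hxY⟩ := Finset.not_disjoint_iff.1 (hcomp L (hF.mem_of hL hLcl)).1
      rcases ((hmY x).1 hxY).2 with h | h
      · exact ⟨s1, by simp, x, hx, h⟩
      · exact ⟨s2, by simp, x, hx, h⟩
  by_cases hpt : ∃ x ∈ U, ∃ y ∈ G, x ∈ N y
  · -- a port in the block
    obtain ⟨x, hxU, y, hy, hxy⟩ := hpt
    have hxM := hf.UM hU hxU
    have hxA := hMA.1 hxM
    have hxG := (Finset.mem_sdiff.1 ((hmM x).1 hxM).1).2
    obtain ⟨hxS, -⟩ := a.edge hy hxA hxG hxy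
    obtain ⟨D, h1, h2, h3, h4⟩ := hx.no_port (by omega) hU hUc hxU hxS
    have h5 := hport x hxA hxG ⟨y, hy, hxy⟩ D (h1.trans hMA.1) h2 h4
    omega
  · -- the block hangs at its hub
    push Not at hpt
    apply v.no_hang (hMA.1 (hf.sub (hf.mem U hU))) (hf.comps.conn U hU) ((hf.UM hU).trans hMA.1)
      (fun h => hf.UZ hU h (hf.mem U hU)) _ (hf.typ U hU)
    intro x hx y hy hyx
    by_cases hyU : y ∈ U
    · exact Or.inl hyU
    · right
      by_cases hyG : y ∈ G
      · exact absurd (v.symm _ _ hyx) (hpt x hx y hyG)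
      · by_cases hys : y ∈ ({s1, s2} : Finset V)
        · exfalso
          apply hf.UZ hU hx
          apply hYZ
          refine (hmY x).2 ⟨hf.UM hU hx, ?_⟩
          rcases Finset.mem_insert.1 hys with h | h
          · left; rw [← h]; exact v.symm _ _ hyx
          · right; rw [← Finset.mem_singleton.1 h]; exact v.symm _ _ hyx
        · exact hf.only U hU x hx y ((hmM y).2 ⟨Finset.mem_sdiff.2 ⟨hy, hyG⟩, hys⟩) hyU hyx

/-- **The K-reduction** (Theorem G): a violator has no code if E holds for `K - 1`. -/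
theorem no_code (hK : 4 ≤ K) (hE : EV V (K - 1)) (h : Viol N K A C)
    (hex : (2 * K + 1) * gk N A C = 2 * A.card + 1) (h5 : 5 ≤ gk N A C) {S : Finset V}
    (hSA : S ⊆ A) (hone : ∀ p ∈ C, (p ∩ S).card ≤ 1)
    (hcen : ∀ p ∈ C, ∀ c ∈ p, p ⊆ N c → c ∉ S) : S.card < gk N A C := by
  by_contra hcon
  push Not at hcon
  obtain ⟨S', hS', hS'c⟩ := Finset.exists_subset_card_eq hcon
  have a : Code N K A C S' := by
    refine ⟨h, hex, h5, hS'.trans hSA, hS'c, ?_, fun p hp c hc hcN hcS => hcen p hp c hc hcN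
      (hS' hcS)⟩
    intro p hp
    exact (Finset.card_le_card (Finset.inter_subset_inter_left hS')).trans (hone p hp)
  obtain ⟨G, hG, hcl, hT⟩ := a.exists_exc hE
  have hp := a.part hG hcl hT
  rcases hT with ⟨h1, h2⟩ | ⟨h1, h2⟩
  · exact hp.no_a (by omega) (by omega)
  · exact hp.no_b ⟨h.refl, h.symm, (low_sys (K := K) (C := C)).res, hG, h1, h2⟩ hK

end

end Pool.Agent.Star.Rig
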