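import Pool.Agent.Star.Code6

/-!
# The K-reduction: what is left

The threshold statement follows from E for `K = 3`, the base case `gk = 3` and the existence of
codes in minimal violators.
-/

set_option autoImplicit false
set_option linter.unusedSectionVars false
set_option linter.unusedVariables false

namespace Pool.Agent.Star.Rig

open Finset

/-- One step of the K-reduction. -/
theorem EV_step {V : Type*} [DecidableEq V] {K : ℕ} (hK : 4 ≤ K) (hE : EV V (K - 1))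
    (hbase : ∀ (N : V → Finset V) (A : Finset V) (C : Finset (Finset V)), Viol N K A C →
      gk N A C = 3 → 3 * K + 1 < A.card)
    (hcode : ∀ (N : V → Finset V) (A : Finset V) (C : Finset (Finset V)), Viol N K A C →
      (2 * K + 1) * gk N A C = 2 * A.card + 1 → 5 ≤ gk N A C →
      ∃ S ⊆ A, (∀ p ∈ C, (p ∩ S).card ≤ 1) ∧ (∀ p ∈ C, ∀ c ∈ p, p ⊆ N c → c ∉ S) ∧
        gk N A C ≤ S.card) : EV V K := by
  intro N hs hsym A C hS hA
  by_contra hB
  obtain ⟨N', A', C', h⟩ := exists_viol (by omega) hs hsym hS hA hB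
  obtain ⟨h1, h2⟩ := h.exact (hbase N' A' C' h)
  obtain ⟨S, hSA, h3, h4, h5⟩ := hcode N' A' C' h h1 h2
  have := no_code hK hE h h1 h2 hSA h3 h4
  omega

/-- E for all `K ≥ 3` from E for `K = 3`. -/
theorem EV_all {V : Type*} [DecidableEq V] (h3 : EV V 3)
    (hbase : ∀ K : ℕ, 4 ≤ K → ∀ (N : V → Finset V) (A : Finset V) (C : Finset (Finset V)),
      Viol N K A C → gk N A C = 3 → 3 * K + 1 < A.card)
    (hcode : ∀ K : ℕ, 4 ≤ K → EV V (K - 1) →
      ∀ (N : V → Finset V) (A : Finset V) (C : Finset (Finset V)), Viol N K A C →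
      (2 * K + 1) * gk N A C = 2 * A.card + 1 → 5 ≤ gk N A C →
      ∃ S ⊆ A, (∀ p ∈ C, (p ∩ S).card ≤ 1) ∧ (∀ p ∈ C, ∀ c ∈ p, p ⊆ N c → c ∉ S) ∧
        gk N A C ≤ S.card) : ∀ K : ℕ, 3 ≤ K → EV V K := by
  intro K hK
  induction K, hK using Nat.le_induction with
  | base => exact h3
  | succ K hK ih =>
    exact EV_step (by omega) (by simpa using ih) (hbase (K + 1) (by omega))
      (hcode (K + 1) (by omega) (by simpa using ih))

/-- The statement of the threshold problem from E for `K = 3`, the base case and codes. -/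
theorem main_of_codes (h3 : ∀ n : ℕ, EV (Fin n) 3)
    (hbase : ∀ n K : ℕ, 4 ≤ K → ∀ (N : Fin n → Finset (Fin n)) (A : Finset (Fin n))
      (C : Finset (Finset (Fin n))), Viol N K A C → gk N A C = 3 → 3 * K + 1 < A.card)
    (hcode : ∀ n K : ℕ, 4 ≤ K → EV (Fin n) (K - 1) →
      ∀ (N : Fin n → Finset (Fin n)) (A : Finset (Fin n)) (C : Finset (Finset (Fin n))),
      Viol N K A C → (2 * K + 1) * gk N A C = 2 * A.card + 1 → 5 ≤ gk N A C →
      ∃ S ⊆ A, (∀ p ∈ C, (p ∩ S).card ≤ 1) ∧ (∀ p ∈ C, ∀ c ∈ p, p ⊆ N c → c ∉ S) ∧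
        gk N A C ≤ S.card) :
    ∀ k : ℕ, 2 ≤ k →
      (∃ N : ℕ, ∀ n : ℕ, N ≤ n → ∀ G : SimpleGraph (Fin n), G.Connected →
        ∃ S : Finset (Fin n), S.card ≤ 2 * n / (2 * k + 3) ∧
          ∀ v : Fin n, (v ∉ S ∧ ∀ s ∈ S, ¬ G.Adj s v) →
            {w : Fin n | G.Adj v w ∧ w ∉ S ∧ ∀ s ∈ S, ¬ G.Adj s w}.ncard < k) ∧
      (∀ N : ℕ, ∃ n : ℕ, N ≤ n ∧ ∃ G : SimpleGraph (Fin n), G.Connected ∧
        (∃ S : Finset (Fin n), S.card = 2 * n / (2 * k + 3) ∧
          ∀ v : Fin n, (v ∉ S ∧ ∀ s ∈ S, ¬ G.Adj s v) →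
            {w : Fin n | G.Adj v w ∧ w ∉ S ∧ ∀ s ∈ S, ¬ G.Adj s w}.ncard < k) ∧
        ∀ S : Finset (Fin n),
          (∀ v : Fin n, (v ∉ S ∧ ∀ s ∈ S, ¬ G.Adj s v) →
            {w : Fin n | G.Adj v w ∧ w ∉ S ∧ ∀ s ∈ S, ¬ G.Adj s w}.ncard < k) →
          2 * n / (2 * k + 3) ≤ S.card) := by
  apply main_of_E
  intro K hK n
  exact EV_all (h3 n) (hbase n) (hcode n) K hK

end Pool.Agent.Star.Rig
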