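import Mathlib

/-!
# The construction: connected graphs on `(2k+3)p` vertices with isolation number `2p`

Blocks are nontrivial 2-lifts of `K_{k+1}`, one edge of each joined to a vertex of a path.
-/

set_option autoImplicit false

namespace Pool.Agent.Star

open Finset

/-- `S` is `{K_{1,k}}`-isolating. -/
def Isol (k : ℕ) {V : Type} (G : SimpleGraph V) (S : Finset V) : Prop :=
  ∀ v : V, (v ∉ S ∧ ∀ s ∈ S, ¬ G.Adj s v) →
    {w : V | G.Adj v w ∧ w ∉ S ∧ ∀ s ∈ S, ¬ G.Adj s w}.ncard < k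

/-- The vertex set: a path vertex and a block for each index. -/
abbrev LV (K p : ℕ) : Type := Fin p × Option (Fin K × Bool)

/-- The sign of the pair `a, b`: only the pair `{0, 1}` is negative. -/
def sg {K : ℕ} (a b : Fin K) : Bool :=
  decide ((a.1 = 0 ∧ b.1 = 1) ∨ (a.1 = 1 ∧ b.1 = 0))

/-- Adjacency inside one block. -/
def BAdj {K : ℕ} (u v : Fin K × Bool) : Prop := u.1 ≠ v.1 ∧ v.2 = xor u.2 (sg u.1 v.1)

lemma sg_comm {K : ℕ} (a b : Fin K) : sg a b = sg b a := by
  unfold sg
  congr 1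
  apply propext
  constructor
  · rintro (⟨h1, h2⟩ | ⟨h1, h2⟩)
    · exact Or.inr ⟨h2, h1⟩
    · exact Or.inl ⟨h2, h1⟩
  · rintro (⟨h1, h2⟩ | ⟨h1, h2⟩)
    · exact Or.inr ⟨h2, h1⟩
    · exact Or.inl ⟨h2, h1⟩

lemma sg_self {K : ℕ} (a : Fin K) : sg a a = false := by
  unfold sg
  rw [decide_eq_false_iff_not]
  rintro (⟨h1, h2⟩ | ⟨h1, h2⟩) <;> omega

lemma BAdj.symm {K : ℕ} {u v : Fin K × Bool} (h : BAdj u v) : BAdj v u := by
  refine ⟨h.1.symm, ?_⟩
  rw [h.2, sg_comm v.1 u.1]
  cases u.2 <;> cases sg u.1 v.1 <;> rfl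

/-- The graph. -/
def LG (K p : ℕ) : SimpleGraph (LV K p) where
  Adj x y := match x, y with
    | (i, none), (j, none) => i.1 + 1 = j.1 ∨ j.1 + 1 = i.1
    | (i, none), (j, some v) => i = j ∧ v.1.1 = 0 ∧ v.2 = false
    | (i, some u), (j, none) => i = j ∧ u.1.1 = 0 ∧ u.2 = false
    | (i, some u), (j, some v) => i = j ∧ BAdj u v
  symm := ⟨by
    rintro ⟨i, _ | u⟩ ⟨j, _ | v⟩ h
    · exact h.symm
    · exact ⟨h.1.symm, h.2⟩
    · exact ⟨h.1.symm, h.2⟩
    · exact ⟨h.1.symm, h.2.symm⟩⟩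
  loopless := ⟨by
    rintro ⟨i, _ | u⟩ h
    · have h' : i.1 + 1 = i.1 ∨ i.1 + 1 = i.1 := h
      omega
    · exact h.2.1 rfl⟩

section
variable {K p : ℕ}

lemma adj_nn {i j : Fin p} :
    (LG K p).Adj (i, none) (j, none) ↔ (i.1 + 1 = j.1 ∨ j.1 + 1 = i.1) := Iff.rfl

lemma adj_ns {i j : Fin p} {v : Fin K × Bool} :
    (LG K p).Adj (i, none) (j, some v) ↔ (i = j ∧ v.1.1 = 0 ∧ v.2 = false) := Iff.rfl

lemma adj_sn {i j : Fin p} {v : Fin K × Bool} :
    (LG K p).Adj (i, some v) (j, none) ↔ (i = j ∧ v.1.1 = 0 ∧ v.2 = false) := Iff.rfl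

lemma adj_ss {i j : Fin p} {u v : Fin K × Bool} :
    (LG K p).Adj (i, some u) (j, some v) ↔ (i = j ∧ BAdj u v) := Iff.rfl

lemma reach_block (hK : 3 ≤ K) (i : Fin p) (u : Fin K × Bool) :
    (LG K p).Reachable (i, some u) (i, none) := by
  have h0 : 0 < K := by omega
  have h1 : 1 < K := by omega
  have h2 : 2 < K := by omega
  let a0 : Fin K := ⟨0, h0⟩
  let a1 : Fin K := ⟨1, h1⟩
  let a2 : Fin K := ⟨2, h2⟩
  have e0 : (LG K p).Reachable (i, some (a0, false)) (i, none) :=
    (adj_sn.2 ⟨rfl, rfl, rfl⟩ : (LG K p).Adj (i, some (a0, false)) (i, none)).reachable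
  -- a vertex of fibre b ≥ 2 is adjacent to (a0, ε)
  have eb : ∀ (b : Fin K) (ε : Bool), 2 ≤ b.1 →
      (LG K p).Adj (i, some (b, ε)) (i, some (a0, ε)) := by
    intro b ε hb
    refine adj_ss.2 ⟨rfl, ?_, ?_⟩
    · intro h
      have := congrArg Fin.val h
      simp only [a0] at this
      omega
    · have : sg b a0 = false := by
        unfold sg
        rw [decide_eq_false_iff_not]
        simp only [a0]
        omega
      simp only
      rw [this]; simp
  have ec : ∀ (b : Fin K) (ε : Bool), 2 ≤ b.1 →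
      (LG K p).Adj (i, some (b, ε)) (i, some (a1, ε)) := by
    intro b ε hb
    refine adj_ss.2 ⟨rfl, ?_, ?_⟩
    · intro h
      have := congrArg Fin.val h
      simp only [a1] at this
      omega
    · have : sg b a1 = false := by
        unfold sg
        rw [decide_eq_false_iff_not]
        simp only [a1]
        omega
      simp only
      rw [this]; simp
  have e01 : (LG K p).Adj (i, some (a1, false)) (i, some (a0, true)) := by
    refine adj_ss.2 ⟨rfl, ?_, ?_⟩
    · intro h
      have := congrArg Fin.val h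
      simp only [a0, a1] at this
      omega
    · have : sg a1 a0 = true := by
        unfold sg
        rw [decide_eq_true_iff]
        exact Or.inr ⟨rfl, rfl⟩
      simp only
      rw [this]; rfl
  have r2 : ∀ b : Fin K, 2 ≤ b.1 → (LG K p).Reachable (i, some (b, false)) (i, none) :=
    fun b hb => (eb b false hb).reachable.trans e0
  have r1 : (LG K p).Reachable (i, some (a1, false)) (i, none) :=
    ((ec a2 false le_rfl).symm).reachable.trans (r2 a2 le_rfl)
  have r0t : (LG K p).Reachable (i, some (a0, true)) (i, none) :=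
    e01.symm.reachable.trans r1
  have r2t : ∀ b : Fin K, 2 ≤ b.1 → (LG K p).Reachable (i, some (b, true)) (i, none) :=
    fun b hb => (eb b true hb).reachable.trans r0t
  have r1t : (LG K p).Reachable (i, some (a1, true)) (i, none) :=
    ((ec a2 true le_rfl).symm).reachable.trans (r2t a2 le_rfl)
  obtain ⟨b, ε⟩ := u
  by_cases hb : 2 ≤ b.1
  · cases ε
    · exact r2 b hb
    · exact r2t b hb
  · by_cases hb0 : b.1 = 0
    · have : b = a0 := Fin.ext hb0
      subst this
      cases ε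
      · exact e0
      · exact r0t
    · have : b = a1 := Fin.ext (by show b.1 = 1; omega)
      subst this
      cases ε
      · exact r1
      · exact r1t

lemma reach_path (hp : 0 < p) : ∀ (n : ℕ) (i : Fin p), i.1 = n →
    (LG K p).Reachable (i, none) (⟨0, hp⟩, none) := by
  intro n
  induction n with
  | zero =>
    intro i hi
    have : i = ⟨0, hp⟩ := Fin.ext hi
    rw [this]
  | succ n ih =>
    intro i hi
    have hlt : n < p := by omega
    refine (adj_nn.2 ?_ : (LG K p).Adj (i, none) (⟨n, hlt⟩, none)).reachable.trans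
      (ih ⟨n, hlt⟩ rfl)
    right
    show n + 1 = i.1
    omega

lemma LG_connected (hK : 3 ≤ K) (hp : 0 < p) : (LG K p).Connected := by
  have key : ∀ x : LV K p, (LG K p).Reachable x (⟨0, hp⟩, none) := by
    rintro ⟨i, _ | u⟩
    · exact reach_path hp i.1 i rfl
    · exact (reach_block hK i u).trans (reach_path hp i.1 i rfl)
  have : Nonempty (LV K p) := ⟨(⟨0, hp⟩, none)⟩
  exact ⟨fun x y => (key x).trans (key y).symm⟩

lemma card_LV : Fintype.card (LV K p) = (2 * K + 1) * p := by
  simp only [LV, Fintype.card_prod, Fintype.card_fin, Fintype.card_option, Fintype.card_bool]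
  ring

/-- The dominating set. -/
def LD (K p : ℕ) (hK : 0 < K) : Finset (LV K p) :=
  (Finset.univ : Finset (Fin p × Bool)).image (fun q => (q.1, some ((⟨0, hK⟩ : Fin K), q.2)))

lemma card_LD (hK : 0 < K) : (LD K p hK).card = 2 * p := by
  unfold LD
  rw [Finset.card_image_of_injective]
  · simp [Finset.card_univ, Fintype.card_prod]; ring
  · rintro ⟨i, ε⟩ ⟨j, δ⟩ h
    simp only [Prod.mk.injEq, Option.some.injEq, true_and] at h
    exact Prod.ext h.1 h.2

lemma mem_LD (hK : 0 < K) (i : Fin p) (ε : Bool) :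
    (i, some ((⟨0, hK⟩ : Fin K), ε)) ∈ LD K p hK :=
  Finset.mem_image.2 ⟨(i, ε), Finset.mem_univ _, rfl⟩

lemma LD_dom (hK : 0 < K) (v : LV K p) :
    ¬ (v ∉ LD K p hK ∧ ∀ s ∈ LD K p hK, ¬ (LG K p).Adj s v) := by
  rintro ⟨h1, h2⟩
  obtain ⟨i, _ | ⟨b, ε⟩⟩ := v
  · exact h2 _ (mem_LD hK i false) (adj_sn.2 ⟨rfl, rfl, rfl⟩)
  · by_cases hb : b.1 = 0
    · apply h1
      have : b = ⟨0, hK⟩ := Fin.ext hb
      rw [this]
      exact mem_LD hK i ε
    · refine h2 _ (mem_LD hK i (xor ε (sg ⟨0, hK⟩ b))) (adj_ss.2 ⟨rfl, ?_, ?_⟩)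
      · intro h
        exact hb (congrArg Fin.val h).symm
      · simp only
        cases ε <;> cases sg ⟨0, hK⟩ b <;> rfl

/-- The closed star at `(a, !ε)` avoids the closed neighbourhood of `(a, ε)`. -/
lemma opp {a b : Fin K} {ε δ : Bool} (h : BAdj (a, !ε) (b, δ)) : ¬ BAdj (a, ε) (b, δ) := by
  intro h'
  have h1 := h.2
  have h2 := h'.2
  simp only at h1 h2
  rw [h1] at h2
  revert h2
  cases ε <;> cases sg a b <;> simp

/-- The part of `S` over the index `i`. -/
def part (S : Finset (LV K p)) (i : Fin p) : Finset (LV K p) := S.filter (fun x => x.1 = i)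

lemma ncard_nbr (i : Fin p) (u : Fin K × Bool) (P : LV K p → Prop)
    (h : ∀ v, BAdj u v → P (i, some v)) :
    K - 1 ≤ {w : LV K p | (LG K p).Adj (i, some u) w ∧ P w}.ncard := by
  have himg : ((Finset.univ.erase u.1).image
      (fun b : Fin K => ((i, some (b, xor u.2 (sg u.1 b))) : LV K p)) : Set (LV K p)) ⊆
      {w : LV K p | (LG K p).Adj (i, some u) w ∧ P w} := by
    intro w hw
    rw [Finset.mem_coe, Finset.mem_image] at hw
    obtain ⟨b, hb, rfl⟩ := hw
    have hB : BAdj u (b, xor u.2 (sg u.1 b)) :=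
      ⟨fun hh => (Finset.mem_erase.1 hb).1 hh.symm, rfl⟩
    exact ⟨adj_ss.2 ⟨rfl, hB⟩, h _ hB⟩
  have h1 := Set.ncard_le_ncard himg (Set.toFinite _)
  rw [Set.ncard_coe_finset, Finset.card_image_of_injective, Finset.card_erase_of_mem
    (Finset.mem_univ _), Finset.card_univ, Fintype.card_fin] at h1
  · exact h1
  · intro b c hbc
    simp only [Prod.mk.injEq, Option.some.injEq, true_and] at hbc
    exact hbc.1

lemma part_two (hK : 0 < K) {S : Finset (LV K p)} (hS : Isol (K - 1) (LG K p) S) (i : Fin p) :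
    2 ≤ (part S i).card := by
  by_contra hcon
  have hle : (part S i).card ≤ 1 := by omega
  rw [Finset.card_le_one] at hle
  -- some pair (a, ε) with all block members of S equal to it or only the path vertex
  obtain ⟨a, ε, haε⟩ : ∃ (a : Fin K) (ε : Bool), ∀ v : Fin K × Bool, (i, some v) ∈ S →
      v = (a, ε) := by
    by_cases hex : ∃ v : Fin K × Bool, (i, some v) ∈ S
    · obtain ⟨v, hv⟩ := hex
      refine ⟨v.1, v.2, ?_⟩
      intro w hw
      have := hle (i, some w) (by simp [part, hw]) (i, some v) (by simp [part, hv])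
      simp only [Prod.mk.injEq, Option.some.injEq, true_and] at this
      exact this
    · push Not at hex
      exact ⟨⟨0, hK⟩, false, fun v hv => absurd hv (hex v)⟩
  -- the neighbourhood of (a', !ε')
  by_cases hex : ∃ v : Fin K × Bool, (i, some v) ∈ S
  · -- then the path vertex is not in S
    obtain ⟨v, hv⟩ := hex
    have hva := haε v hv
    subst hva
    have hz : ((i, none) : LV K p) ∉ S := by
      intro hz
      have := hle (i, some (a, ε)) (by simp [part, hv]) (i, none) (by simp [part, hz])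
      simp at this
    have free : ∀ w : Fin K × Bool, w ≠ (a, ε) → ¬ BAdj (a, ε) w →
        ((i, some w) : LV K p) ∉ S ∧ ∀ s ∈ S, ¬ (LG K p).Adj s (i, some w) := by
      intro w hw hwb
      refine ⟨fun hh => hw (haε w hh), ?_⟩
      rintro ⟨j, _ | u⟩ hs hadj
      · obtain ⟨rfl, -⟩ := adj_ns.1 hadj
        exact hz hs
      · obtain ⟨rfl, hB⟩ := adj_ss.1 hadj
        have := haε u hs
        subst this
        exact hwb hB
    have h1 := hS (i, some (a, !ε)) (free (a, !ε) (by simp) (fun hh => hh.1 rfl))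
    have h2 := ncard_nbr (K := K) i (a, !ε) (fun w => w ∉ S ∧ ∀ s ∈ S, ¬ (LG K p).Adj s w) (by
      intro v hv
      refine free v ?_ (opp hv)
      intro hh
      subst hh
      exact hv.1 rfl)
    omega
  · push Not at hex
    have free : ∀ w : Fin K × Bool, ¬ (w.1.1 = 0 ∧ w.2 = false) →
        ((i, some w) : LV K p) ∉ S ∧ ∀ s ∈ S, ¬ (LG K p).Adj s (i, some w) := by
      intro w hw
      refine ⟨hex w, ?_⟩
      rintro ⟨j, _ | u⟩ hs hadj
      · exact hw (adj_ns.1 hadj).2
      · obtain ⟨rfl, hB⟩ := adj_ss.1 hadj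
        exact hex u hs
    have h1 := hS (i, some (⟨0, hK⟩, true)) (free _ (by simp))
    have h2 := ncard_nbr (K := K) i (⟨0, hK⟩, true)
      (fun w => w ∉ S ∧ ∀ s ∈ S, ¬ (LG K p).Adj s w) (by
      intro v hv
      refine free v ?_
      rintro ⟨hv1, -⟩
      exact hv.1 (Fin.ext hv1.symm))
    omega

lemma LG_lower (hK : 0 < K) {S : Finset (LV K p)} (hS : Isol (K - 1) (LG K p) S) :
    2 * p ≤ S.card := by
  have h1 : S.card = ∑ i : Fin p, (part S i).card := by
    unfold part
    exact Finset.card_eq_sum_card_fiberwise (fun x _ => Finset.mem_univ x.1)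
  rw [h1]
  calc 2 * p = ∑ _i : Fin p, 2 := by simp [mul_comm]
    _ ≤ _ := Finset.sum_le_sum (fun i _ => part_two hK hS i)

end

/-! ### transfer to `Fin n` -/

lemma isol_comap {k : ℕ} {V W : Type} [DecidableEq V] (G : SimpleGraph V) (e : W ≃ V)
    (S : Finset W) :
    Isol k (G.comap e) S ↔ Isol k G (S.map e.toEmbedding) := by
  have hset : ∀ w : W, (w ∉ S ∧ ∀ s ∈ S, ¬ (G.comap e).Adj s w) ↔
      (e w ∉ S.map e.toEmbedding ∧ ∀ s ∈ S.map e.toEmbedding, ¬ G.Adj s (e w)) := by
    intro w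
    constructor
    · rintro ⟨h1, h2⟩
      refine ⟨?_, ?_⟩
      · intro hh
        obtain ⟨s, hs, hse⟩ := Finset.mem_map.1 hh
        have : s = w := e.injective hse
        exact h1 (this ▸ hs)
      · intro s hs hadj
        obtain ⟨t, ht, rfl⟩ := Finset.mem_map.1 hs
        exact h2 t ht hadj
    · rintro ⟨h1, h2⟩
      refine ⟨fun hh => h1 (Finset.mem_map.2 ⟨w, hh, rfl⟩), fun s hs hadj => ?_⟩
      exact h2 (e s) (Finset.mem_map.2 ⟨s, hs, rfl⟩) hadj
  have hnc : ∀ v : W,
      {w : V | G.Adj (e v) w ∧ w ∉ S.map e.toEmbedding ∧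
        ∀ s ∈ S.map e.toEmbedding, ¬ G.Adj s w}.ncard =
      {w : W | (G.comap e).Adj v w ∧ w ∉ S ∧ ∀ s ∈ S, ¬ (G.comap e).Adj s w}.ncard := by
    intro v
    have : {w : V | G.Adj (e v) w ∧ w ∉ S.map e.toEmbedding ∧
        ∀ s ∈ S.map e.toEmbedding, ¬ G.Adj s w} =
        e '' {w : W | (G.comap e).Adj v w ∧ w ∉ S ∧ ∀ s ∈ S, ¬ (G.comap e).Adj s w} := by
      ext w
      constructor
      · rintro ⟨h1, h2⟩
        refine ⟨e.symm w, ⟨?_, ?_⟩, e.apply_symm_apply w⟩
        · show G.Adj (e v) (e (e.symm w))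
          rw [e.apply_symm_apply]; exact h1
        · rw [hset, e.apply_symm_apply]; exact h2
      · rintro ⟨u, ⟨h1, h2⟩, rfl⟩
        exact ⟨h1, (hset u).1 h2⟩
    rw [this, Set.ncard_image_of_injective _ e.injective]
  constructor
  · intro h v hv
    obtain ⟨w, rfl⟩ := e.surjective v
    rw [hnc]
    exact h w ((hset w).2 hv)
  · intro h v hv
    rw [← hnc]
    exact h (e v) ((hset v).1 hv)

/-- Condition (ii): for arbitrarily large `n` some connected `n`-vertex graph has isolation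
number exactly `2n/(2k+3)`. -/
theorem construction (k : ℕ) (hk : 2 ≤ k) (N : ℕ) :
    ∃ n : ℕ, N ≤ n ∧ ∃ G : SimpleGraph (Fin n), G.Connected ∧
      (∃ S : Finset (Fin n), S.card = 2 * n / (2 * k + 3) ∧ Isol k G S) ∧
      ∀ S : Finset (Fin n), Isol k G S → 2 * n / (2 * k + 3) ≤ S.card := by
  classical
  have hK : 0 < k + 1 := by omega
  let p := N + 1
  let n := (2 * (k + 1) + 1) * p
  have hdiv : 2 * n / (2 * k + 3) = 2 * p := by
    have : 2 * n = (2 * p) * (2 * k + 3) := by simp only [n]; ring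
    rw [this]
    exact Nat.mul_div_cancel _ (by omega)
  have hcard : Fintype.card (LV (k + 1) p) = n := card_LV
  let e : Fin n ≃ LV (k + 1) p := (Fintype.equivFinOfCardEq hcard).symm
  refine ⟨n, ?_, (LG (k + 1) p).comap e, ?_, ?_, ?_⟩
  · have : p ≤ n := Nat.le_mul_of_pos_left p (by omega)
    omega
  · have hc := LG_connected (K := k + 1) (p := p) (by omega) (by omega)
    exact ((SimpleGraph.Iso.comap e (LG (k + 1) p)).connected_iff).2 hc
  · refine ⟨(LD (k + 1) p hK).map e.symm.toEmbedding, ?_, ?_⟩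
    · rw [Finset.card_map, card_LD, hdiv]
    · rw [isol_comap]
      have : ((LD (k + 1) p hK).map e.symm.toEmbedding).map e.toEmbedding = LD (k + 1) p hK := by
        ext x
        simp
      rw [this]
      intro v hv
      exact absurd hv (LD_dom hK v)
  · intro S hS
    rw [isol_comap] at hS
    have h := LG_lower (K := k + 1) (p := p) hK (S := S.map e.toEmbedding) (by simpa using hS)
    rw [Finset.card_map] at h
    rw [hdiv]
    exact h

end Pool.Agent.Star
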