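import Pool.Agent.Star.Main

/-!
# Star isolation: the flower argument

In a minimal counterexample any vertex (or edge) can be isolated, as a single star, by at most
`2K` far stars; three steps of this give a connected component made of three stars, which is
impossible by Lemma (I).
-/

set_option autoImplicit false

namespace Pool.Agent.Star

open Finset

variable {V : Type*} [DecidableEq V]
variable {N : V → Finset V} {K M : ℕ} {H : Finset V}

/-- Removing vertices that lie in no star does not decrease `f`. -/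
lemma f_dead_set (hs : ∀ x, x ∈ N x) {W : Finset V} :
    ∀ {A : Finset V}, (∀ w ∈ A, (∃ y ∈ W, y ∈ N w ∧ y ∈ A) → (N w ∩ A).card < K) →
      f N K A ≤ f N K (A \ W) := by
  induction W using Finset.induction_on with
  | empty => intro A _; simp
  | insert y W hy ih =>
    intro A hA
    have h1 : f N K A ≤ f N K (A \ W) :=
      ih (fun w hw ⟨y', hy', h2⟩ => hA w hw ⟨y', Finset.mem_insert_of_mem hy', h2⟩)
    by_cases hyA : y ∈ A
    · have h2 : f N K (A \ W) ≤ f N K ((A \ W).erase y) := by
        apply f_dead hs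
        intro w hw hyw
        refine lt_of_le_of_lt (Finset.card_le_card ?_)
          (hA w (Finset.mem_sdiff.1 hw).1 ⟨y, Finset.mem_insert_self _ _, hyw, hyA⟩)
        exact Finset.inter_subset_inter_left Finset.sdiff_subset
      have h3 : (A \ W).erase y = A \ insert y W := by
        ext x
        simp only [Finset.mem_erase, Finset.mem_sdiff, Finset.mem_insert]
        tauto
      rw [h3] at h2
      exact h1.trans h2
    · have h3 : A \ insert y W = A \ W := by
        ext x
        simp only [Finset.mem_sdiff, Finset.mem_insert]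
        constructor
        · rintro ⟨h4, h5⟩; exact ⟨h4, fun hh => h5 (Or.inr hh)⟩
        · rintro ⟨h4, h5⟩
          refine ⟨h4, ?_⟩
          rintro (h6 | h6)
          · exact hyA (h6 ▸ h4)
          · exact h5 h6
      rw [h3]; exact h1

lemma cov_insert (v : V) (D : Finset V) : cov N H (insert v D) = (N v ∩ H) ∪ cov N H D := by
  unfold cov; rw [Finset.biUnion_insert]

lemma cov_union (D E : Finset V) : cov N H (D ∪ E) = cov N H D ∪ cov N H E := by
  ext x
  simp only [mem_cov, Finset.mem_union]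
  constructor
  · rintro ⟨v, hv | hv, h⟩
    · exact Or.inl ⟨v, hv, h⟩
    · exact Or.inr ⟨v, hv, h⟩
  · rintro (⟨v, hv, h⟩ | ⟨v, hv, h⟩)
    · exact ⟨v, Or.inl hv, h⟩
    · exact ⟨v, Or.inr hv, h⟩

lemma cov_mono {D E : Finset V} (h : D ⊆ E) : cov N H D ⊆ cov N H E := by
  intro x hx
  obtain ⟨v, hv, h'⟩ := mem_cov.1 hx
  exact mem_cov.2 ⟨v, h hv, h'⟩

lemma Far.mono {D E : Finset V} (hE : Far N K H E) (h : D ⊆ E) : Far N K H D :=
  ⟨h.trans hE.sub, fun v hv => hE.card v (h hv), fun v hv w hw => hE.disj v (h hv) w (h hw)⟩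

/-- Adding an alive star to a far family. -/
lemma Far.insert {D : Finset V} (hD : Far N K H D) {b : V} (hb : b ∈ H)
    (hcard : (N b ∩ H).card = K) (hal : N b ∩ H ⊆ H \ cov N H D) : Far N K H (insert b D) := by
  have hdis : ∀ v ∈ D, Disjoint (N b ∩ H) (N v ∩ H) := by
    intro v hv
    rw [Finset.disjoint_left]
    intro x hx hx'
    exact (Finset.mem_sdiff.1 (hal hx)).2
      (mem_cov.2 ⟨v, hv, (Finset.mem_inter.1 hx').1, (Finset.mem_inter.1 hx').2⟩)
  refine ⟨?_, ?_, ?_⟩
  · intro x hx
    rcases Finset.mem_insert.1 hx with rfl | hx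
    · exact hb
    · exact hD.sub hx
  · intro v hv
    rcases Finset.mem_insert.1 hv with rfl | hv
    · exact hcard
    · exact hD.card v hv
  · intro v hv v' hv' hne
    rcases Finset.mem_insert.1 hv with h1 | h1 <;> rcases Finset.mem_insert.1 hv' with h2 | h2
    · exact absurd (h1.trans h2.symm) hne
    · rw [h1]; exact hdis v' h2
    · rw [h2]; exact (hdis v h1).symm
    · exact hD.disj v h1 v' h2 hne

/-- **Waste principle.** After a far family `D` and one more dominator `a`, at most `K` further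
vertices are lost: if `W` is a set of alive vertices such that every alive star avoiding `N a`
avoids `W`, then `|W ∪ (N a ∩ alive)| ≤ K`. -/
lemma Cex.waste (h : Cex N K M H) (hM : 2 * K < M) {D : Finset V} (hD : Far N K H D)
    (ht : (2 * K + 1) * (D.card + 1) ≤ M) {a : V} (ha : a ∈ H) (haD : a ∉ cov N H D)
    {W : Finset V} (hW : W ⊆ H \ cov N H D)
    (hdead : ∀ c ∈ H \ cov N H D, (N c ∩ H).card = K → N c ∩ H ⊆ H \ cov N H D →
      (∃ y ∈ W, y ∈ N c) → ∃ g ∈ N a ∩ (H \ cov N H D), g ∈ N c) :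
    (W ∪ (N a ∩ (H \ cov N H D))).card ≤ K := by
  by_contra hcon
  push Not at hcon
  set A := H \ cov N H D with hA
  set S := cov N H D ∪ (N a ∩ A) with hS
  have haA : a ∈ A := Finset.mem_sdiff.2 ⟨ha, haD⟩
  have hSH : S ⊆ H := Finset.union_subset (cov_sub D)
    (Finset.inter_subset_right.trans Finset.sdiff_subset)
  have h1 : f N K H ≤ (insert a D).card + f N K (H \ S) := by
    refine f_le_add h.self ?_ hSH ?_
    · intro v hv
      rcases Finset.mem_insert.1 hv with rfl | hv
      · exact Finset.mem_union_right _ (Finset.mem_inter.2 ⟨h.self _, haA⟩)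
      · exact Finset.mem_union_left _ (mem_cov.2 ⟨v, hv, h.self v, hD.sub hv⟩)
    · intro x hx
      rcases Finset.mem_union.1 hx with hx | hx
      · obtain ⟨v, hv, hxv, -⟩ := mem_cov.1 hx
        exact ⟨v, Finset.mem_insert_of_mem hv, hxv⟩
      · exact ⟨a, Finset.mem_insert_self _ _, (Finset.mem_inter.1 hx).1⟩
  have h1' : (insert a D).card ≤ D.card + 1 := Finset.card_insert_le _ _
  have h2 : f N K (H \ S) ≤ f N K ((H \ S) \ W) := by
    apply f_dead_set h.self
    rintro c hc ⟨y, hyW, hyc, hyA⟩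
    by_contra hge
    push Not at hge
    have hcH : c ∈ H := (Finset.mem_sdiff.1 hc).1
    have hdeg := h.deg hM hcH
    have hsub : N c ∩ (H \ S) ⊆ N c ∩ H := Finset.inter_subset_inter_left Finset.sdiff_subset
    have heq : N c ∩ (H \ S) = N c ∩ H := Finset.eq_of_subset_of_card_le hsub (by omega)
    have hcard : (N c ∩ H).card = K := le_antisymm hdeg (by rw [← heq]; exact hge)
    have hSA : H \ S ⊆ A := by
      intro x hx
      rw [Finset.mem_sdiff] at hx
      exact Finset.mem_sdiff.2 ⟨hx.1, fun hh => hx.2 (Finset.mem_union_left _ hh)⟩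
    have hal : N c ∩ H ⊆ A := by
      rw [← heq]; exact Finset.inter_subset_right.trans hSA
    obtain ⟨g, hg, hgc⟩ := hdead c (hSA hc) hcard hal ⟨y, hyW, hyc⟩
    have hgH : g ∈ H := (Finset.mem_sdiff.1 (Finset.mem_inter.1 hg).2).1
    have : g ∈ N c ∩ (H \ S) := by rw [heq]; exact Finset.mem_inter.2 ⟨hgc, hgH⟩
    exact (Finset.mem_sdiff.1 (Finset.mem_inter.1 this).2).2 (Finset.mem_union_right _ hg)
  set Z := cov N H D ∪ (W ∪ (N a ∩ A)) with hZ
  have h3 : (H \ S) \ W = H \ Z := by
    ext x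
    simp only [hS, hZ, Finset.mem_sdiff, Finset.mem_union]
    tauto
  rw [h3] at h2
  have hZH : Z ⊆ H := Finset.union_subset (cov_sub D)
    (Finset.union_subset (hW.trans Finset.sdiff_subset)
      (Finset.inter_subset_right.trans Finset.sdiff_subset))
  have h4 := h.R hZH ⟨a, Finset.mem_union_right _ (Finset.mem_union_right _
    (Finset.mem_inter.2 ⟨h.self a, haA⟩))⟩
  have h5 : (H \ Z).card + Z.card = H.card := Finset.card_sdiff_add_card_eq_card hZH
  have hdisj : Disjoint (cov N H D) (W ∪ (N a ∩ A)) := by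
    rw [Finset.disjoint_left]
    intro x hx hx'
    rcases Finset.mem_union.1 hx' with hx' | hx'
    · exact (Finset.mem_sdiff.1 (hW hx')).2 hx
    · exact (Finset.mem_sdiff.1 (Finset.mem_inter.1 hx').2).2 hx
  obtain ⟨z, hz⟩ : ∃ z, (W ∪ (N a ∩ A)).card = K + 1 + z := ⟨_, (Nat.add_sub_of_le hcon).symm⟩
  have h6 : Z.card = K * D.card + (K + 1 + z) := by
    rw [hZ, Finset.card_union_of_disjoint hdisj, hD.card_cov, hz]
  rw [h6] at h4 h5
  have hng := h.ng
  set r := (H \ Z).card with hr
  set g := f N K (H \ Z) with hg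
  have h7 : (K * M + 1) * f N K H ≤ (K * M + 1) * (D.card + 1) + (K * M + 1) * g := by
    calc (K * M + 1) * f N K H ≤ (K * M + 1) * (D.card + 1 + g) :=
          Nat.mul_le_mul_left _ (by omega)
      _ = _ := by ring
  have h8 : M * H.card = M * r + (K * M * D.card + (K * M + M + z * M)) := by rw [← h5]; ring
  have e1 : (K * M + 1) * (D.card + 1) = K * M * D.card + K * M + D.card + 1 := by ring
  have e3 : (2 * K + 1) * (D.card + 1) = 2 * (K * D.card) + D.card + 2 * K + 1 := by ring
  have e4 : z * 2 ≤ z * M := Nat.mul_le_mul_left _ h.M2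
  omega

/-- The flower lemma. -/
lemma Cex.flower (h : Cex N K M H) (hM : 2 * K < M) {D : Finset V} (hD : Far N K H D)
    (ht : (2 * K + 1) * (D.card + 2 * K + 1) ≤ M) {v s : V} (hv : v ∈ H) (hvD : v ∉ cov N H D)
    (hs : s ∈ H) (hsD : s ∉ cov N H D) (hsv : s ∈ N v) :
    ∃ E w, w ∉ D ∪ E ∧ Far N K H (insert w (D ∪ E)) ∧ E.card ≤ 2 * K ∧ v ∈ N w ∧ s ∈ N w ∧
      Closed N (N w ∩ H) (H \ cov N H (D ∪ E)) := by
  classical
  let P : Finset V := (N v ∩ H) ∪ (N s ∩ H)
  have hP : P.card ≤ 2 * K := by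
    have h1 := Finset.card_union_le (N v ∩ H) (N s ∩ H)
    have h2 := h.deg hM hv
    have h3 := h.deg hM hs
    show ((N v ∩ H) ∪ (N s ∩ H)).card ≤ 2 * K
    omega
  let kap : Finset V → ℕ := fun E => (P.filter (fun c => ∃ x ∈ cov N H E, x ∈ N c)).card
  have hkap : ∀ E, kap E ≤ 2 * K := fun E => (Finset.card_filter_le _ _).trans hP
  let T : Finset (Finset V) := H.powerset.filter
    (fun E => Far N K H (D ∪ E) ∧ v ∉ cov N H E ∧ s ∉ cov N H E ∧ E.card ≤ kap E)
  have hT : T.Nonempty := by
    refine ⟨∅, Finset.mem_filter.2 ⟨by simp, ?_, ?_, ?_, by simp⟩⟩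
    · rw [Finset.union_empty]; exact hD
    · simp [cov]
    · simp [cov]
  obtain ⟨E, hE, hmax⟩ := Finset.exists_max_image T Finset.card hT
  obtain ⟨hEH, hfar, hvE, hsE, hEk⟩ := Finset.mem_filter.1 hE
  have hEH' : E ⊆ H := Finset.mem_powerset.1 hEH
  have hE2 : E.card ≤ 2 * K := hEk.trans (hkap E)
  have hDE : (D ∪ E).card ≤ D.card + 2 * K := by
    have := Finset.card_union_le D E; omega
  have htt : (2 * K + 1) * ((D ∪ E).card + 1) ≤ M :=
    (Nat.mul_le_mul_left _ (by omega)).trans ht
  have htt' : (2 * K + 1) * (D ∪ E).card ≤ M :=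
    (Nat.mul_le_mul_left _ (by omega)).trans ht
  set A := H \ cov N H (D ∪ E) with hA
  have hvDE : v ∉ cov N H (D ∪ E) := by
    rw [cov_union, Finset.mem_union]; tauto
  have hsDE : s ∉ cov N H (D ∪ E) := by
    rw [cov_union, Finset.mem_union]; tauto
  have hvA : v ∈ A := Finset.mem_sdiff.2 ⟨hv, hvDE⟩
  have hsA : s ∈ A := Finset.mem_sdiff.2 ⟨hs, hsDE⟩
  -- (2) every alive star meeting an alive star through v or s contains v or s
  have two : ∀ c, (N c ∩ H).card = K → N c ∩ H ⊆ A → c ∈ H → (v ∈ N c ∨ s ∈ N c) →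
      ∀ b ∈ H, (N b ∩ H).card = K → N b ∩ H ⊆ A → (∃ x ∈ H, x ∈ N b ∧ x ∈ N c) →
        (v ∈ N b ∨ s ∈ N b) := by
    intro c _ hcA hcH hcv b hb hbK hbA ⟨x, hxH, hxb, hxc⟩
    by_contra hcon
    push Not at hcon
    have hfar' : Far N K H (insert b (D ∪ E)) := hfar.insert hb hbK hbA
    have hbDE : b ∉ D ∪ E := by
      intro hh
      have : b ∈ A := hbA (Finset.mem_inter.2 ⟨h.self b, hb⟩)
      exact (Finset.mem_sdiff.1 this).2 (mem_cov.2 ⟨b, hh, h.self b, hb⟩)
    have hbE : b ∉ E := fun hh => hbDE (Finset.mem_union_right _ hh)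
    have hk : kap E + 1 ≤ kap (insert b E) := by
      have hcP : c ∈ P := by
        rcases hcv with hcv | hcv
        · exact Finset.mem_union_left _ (Finset.mem_inter.2 ⟨h.symm _ _ hcv, hcH⟩)
        · exact Finset.mem_union_right _ (Finset.mem_inter.2 ⟨h.symm _ _ hcv, hcH⟩)
      have hcn : c ∉ P.filter (fun c => ∃ x ∈ cov N H E, x ∈ N c) := by
        intro hh
        obtain ⟨-, y, hy, hyc⟩ := Finset.mem_filter.1 hh
        have hyH : y ∈ H := cov_sub E hy
        have : y ∈ A := hcA (Finset.mem_inter.2 ⟨hyc, hyH⟩)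
        refine (Finset.mem_sdiff.1 this).2 ?_
        rw [cov_union]; exact Finset.mem_union_right _ hy
      have hsub : insert c (P.filter (fun c => ∃ x ∈ cov N H E, x ∈ N c)) ⊆
          P.filter (fun c => ∃ x ∈ cov N H (insert b E), x ∈ N c) := by
        intro y hy
        rcases Finset.mem_insert.1 hy with hy | hy
        · rw [hy]
          refine Finset.mem_filter.2 ⟨hcP, x, ?_, hxc⟩
          rw [cov_insert]; exact Finset.mem_union_left _ (Finset.mem_inter.2 ⟨hxb, hxH⟩)
        · obtain ⟨h1, z, hz, hzc⟩ := Finset.mem_filter.1 hy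
          refine Finset.mem_filter.2 ⟨h1, z, ?_, hzc⟩
          rw [cov_insert]; exact Finset.mem_union_right _ hz
      have := Finset.card_le_card hsub
      rw [Finset.card_insert_of_notMem hcn] at this
      exact this
    have hmem : insert b E ∈ T := by
      refine Finset.mem_filter.2 ⟨?_, ?_, ?_, ?_, ?_⟩
      · rw [Finset.mem_powerset]
        intro y hy
        rcases Finset.mem_insert.1 hy with hy | hy
        · rw [hy]; exact hb
        · exact hEH' hy
      · rw [Finset.union_insert]; exact hfar'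
      · rw [cov_insert, Finset.mem_union, Finset.mem_inter]; tauto
      · rw [cov_insert, Finset.mem_union, Finset.mem_inter]; tauto
      · rw [Finset.card_insert_of_notMem hbE]; omega
    have := hmax _ hmem
    rw [Finset.card_insert_of_notMem hbE] at this
    omega
  -- the union of the alive stars through v or s
  let Wall : Finset V := A.filter (fun g => ∃ c ∈ H, (N c ∩ H).card = K ∧ N c ∩ H ⊆ A ∧
    (v ∈ N c ∨ s ∈ N c) ∧ g ∈ N c)
  have three : (Wall ∪ (N v ∩ A)).card ≤ K := by
    apply h.waste hM hfar htt hv hvDE (Finset.filter_subset _ _)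
    rintro b hb hbK hbA ⟨y, hy, hyb⟩
    obtain ⟨hyA, c, hcH, hcK, hcA, hcv, hyc⟩ := Finset.mem_filter.1 hy
    rcases two c hcK hcA hcH hcv b (Finset.mem_sdiff.1 hb).1 hbK hbA
      ⟨y, (Finset.mem_sdiff.1 hyA).1, hyb, hyc⟩ with h1 | h1
    · exact ⟨v, Finset.mem_inter.2 ⟨h.self v, hvA⟩, h1⟩
    · exact ⟨s, Finset.mem_inter.2 ⟨hsv, hsA⟩, h1⟩
  -- alive star through v
  obtain ⟨w, hwH, hwD, hvw, hfarw⟩ := h.extend hM hfar htt' hv hvDE
  have hwK : (N w ∩ H).card = K := hfarw.card w (Finset.mem_insert_self _ _)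
  have alive_of : ∀ w, w ∉ D ∪ E → Far N K H (insert w (D ∪ E)) → N w ∩ H ⊆ A := by
    intro w hwD hfarw x hx
    refine Finset.mem_sdiff.2 ⟨(Finset.mem_inter.1 hx).2, fun hh => ?_⟩
    obtain ⟨u, hu, hxu, hxH⟩ := mem_cov.1 hh
    have hne : w ≠ u := fun hh => hwD (hh ▸ hu)
    exact Finset.disjoint_left.1 (hfarw.disj w (Finset.mem_insert_self _ _) u
      (Finset.mem_insert_of_mem hu) hne) hx (Finset.mem_inter.2 ⟨hxu, hxH⟩)
  have hwA : N w ∩ H ⊆ A := alive_of w hwD hfarw
  have subW : ∀ c ∈ H, (N c ∩ H).card = K → N c ∩ H ⊆ A → (v ∈ N c ∨ s ∈ N c) →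
      N c ∩ H ⊆ Wall := by
    intro c hcH hcK hcA hcv x hx
    exact Finset.mem_filter.2 ⟨hcA hx, c, hcH, hcK, hcA, hcv, (Finset.mem_inter.1 hx).1⟩
  have hall : Wall ∪ (N v ∩ A) = N w ∩ H := by
    symm
    apply Finset.eq_of_subset_of_card_le
    · exact (subW w hwH hwK hwA (Or.inl hvw)).trans Finset.subset_union_left
    · rw [hwK]; exact three
  have hWw : Wall ⊆ N w ∩ H := by rw [← hall]; exact Finset.subset_union_left
  have hsw : s ∈ N w := by
    obtain ⟨w', hwH', hwD', hsw', hfarw'⟩ := h.extend hM hfar htt' hs hsDE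
    have h1 := subW w' hwH' (hfarw'.card w' (Finset.mem_insert_self _ _))
      (alive_of w' hwD' hfarw') (Or.inr hsw')
    exact (Finset.mem_inter.1 (hWw (h1 (Finset.mem_inter.2 ⟨hsw', hs⟩)))).1
  refine ⟨E, w, hwD, hfarw, hE2, hvw, hsw, hwA, ?_⟩
  -- closedness
  intro a ha x hx hxa
  by_contra hxW
  have haH : a ∈ H := (Finset.mem_inter.1 ha).2
  have haA : a ∈ A := hwA ha
  have four : ((N w ∩ H) ∪ (N a ∩ A)).card ≤ K := by
    apply h.waste hM hfar htt haH (Finset.mem_sdiff.1 haA).2 hwA
    rintro b hb hbK hbA ⟨y, hy, hyb⟩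
    have hbH := (Finset.mem_sdiff.1 hb).1
    have h1 := two w hwK hwA hwH (Or.inl hvw) b hbH hbK hbA
      ⟨y, (Finset.mem_inter.1 hy).2, hyb, (Finset.mem_inter.1 hy).1⟩
    have h2 : N b ∩ H ⊆ N w ∩ H := (subW b hbH hbK hbA h1).trans hWw
    have h3 := Finset.eq_of_subset_of_card_le h2 (by rw [hwK, hbK])
    refine ⟨a, Finset.mem_inter.2 ⟨h.self a, haA⟩, ?_⟩
    rw [← h3] at ha
    exact (Finset.mem_inter.1 ha).1
  have h5 : insert x (N w ∩ H) ⊆ (N w ∩ H) ∪ (N a ∩ A) := by
    intro y hy
    rcases Finset.mem_insert.1 hy with hy | hy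
    · rw [hy]; exact Finset.mem_union_right _ (Finset.mem_inter.2 ⟨hxa, hx⟩)
    · exact Finset.mem_union_left _ hy
  have h6 := Finset.card_le_card h5
  rw [Finset.card_insert_of_notMem hxW, hwK] at h6
  omega

/-- A state: a connected union of far stars that is closed after removing a far family. -/
structure State (N : V → Finset V) (K : ℕ) (H DY D : Finset V) : Prop where
  far : Far N K H (DY ∪ D)
  disj : Disjoint DY D
  conn : Conn N (cov N H DY)
  closed : Closed N (cov N H DY) (H \ cov N H D)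

lemma Cex.enlarge (h : Cex N K M H) (hM : 2 * K < M) {DY D : Finset V} (hS : State N K H DY D)
    (ht : (2 * K + 1) * (DY.card + D.card + 2 * K + 1) ≤ M) (hne : cov N H DY ≠ H) :
    ∃ w D', w ∉ DY ∧ State N K H (insert w DY) D' ∧ D'.card ≤ D.card + 2 * K := by
  classical
  set Y := cov N H DY with hY
  obtain ⟨a, ha, g, hg, hgY, hga⟩ := h.conn.2 Y (cov_sub DY) hS.conn.1 hne
  have hgD : g ∈ cov N H D := by
    by_contra hh
    exact hgY (hS.closed.2 a ha g (Finset.mem_sdiff.2 ⟨hg, hh⟩) hga)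
  obtain ⟨v, hvD, hgv, -⟩ := mem_cov.1 hgD
  have hvH : v ∈ H := hS.far.sub (Finset.mem_union_right _ hvD)
  set D0 := DY ∪ D.erase v with hD0
  have hD0sub : D0 ⊆ DY ∪ D := Finset.union_subset_union_right (Finset.erase_subset _ _)
  have hD0far : Far N K H D0 := hS.far.mono hD0sub
  have hvnY : v ∉ DY := fun hh => Finset.disjoint_left.1 hS.disj hh hvD
  have havoid : ∀ x ∈ H, x ∈ N v → x ∉ cov N H D0 := by
    intro x hxH hxv hx
    obtain ⟨u, hu, hxu, -⟩ := mem_cov.1 hx
    have hne : v ≠ u := by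
      rintro rfl
      rcases Finset.mem_union.1 hu with hu | hu
      · exact hvnY hu
      · exact (Finset.notMem_erase _ _) hu
    exact Finset.disjoint_left.1 (hS.far.disj v (Finset.mem_union_right _ hvD) u (hD0sub hu) hne)
      (Finset.mem_inter.2 ⟨hxv, hxH⟩) (Finset.mem_inter.2 ⟨hxu, hxH⟩)
  have hD0card : D0.card ≤ DY.card + D.card := by
    have h1 := Finset.card_union_le DY (D.erase v)
    have h2 := Finset.card_le_card (Finset.erase_subset v D)
    rw [← hD0] at h1
    omega
  obtain ⟨E, w, hwD, hfar, hE, hvw, hgw, hcl⟩ := h.flower hM hD0far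
    ((Nat.mul_le_mul_left _ (by omega)).trans ht) hvH (havoid v hvH (h.self v)) hg
    (havoid g hg hgv) hgv
  have hwH : w ∈ H := hfar.sub (Finset.mem_insert_self _ _)
  have hwDY : w ∉ DY := fun hh => hwD (Finset.mem_union_left _ (Finset.mem_union_left _ hh))
  -- E minus D0
  set D' := D.erase v ∪ (E \ D0) with hD'
  have hcovDE : cov N H (D0 ∪ E) = Y ∪ cov N H D' := by
    rw [hY, ← cov_union]
    congr 1
    ext x
    simp only [hD', hD0, Finset.mem_union, Finset.mem_sdiff]
    tauto
  have hD'w : w ∉ D' := by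
    intro hh
    apply hwD
    rcases Finset.mem_union.1 hh with hh | hh
    · exact Finset.mem_union_left _ (Finset.mem_union_right _ hh)
    · exact Finset.mem_union_right _ (Finset.mem_sdiff.1 hh).1
  have hD'Y : Disjoint DY D' := by
    rw [Finset.disjoint_left]
    intro x hx hx'
    rcases Finset.mem_union.1 hx' with hx' | hx'
    · exact Finset.disjoint_left.1 hS.disj hx (Finset.mem_of_mem_erase hx')
    · exact (Finset.mem_sdiff.1 hx').2 (Finset.mem_union_left _ hx)
  have hYcl : ∀ y ∈ Y, ∀ x ∈ H, x ∉ cov N H D' → x ∈ N y → x ∈ Y ∪ (N w ∩ H) := by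
    intro y hy x hxH hxD' hxy
    by_cases hxY : x ∈ Y
    · exact Finset.mem_union_left _ hxY
    · have hxD : x ∈ cov N H D := by
        by_contra hh
        exact hxY (hS.closed.2 y hy x (Finset.mem_sdiff.2 ⟨hxH, hh⟩) hxy)
      obtain ⟨u, hu, hxu, -⟩ := mem_cov.1 hxD
      have huv : u = v := by
        by_contra hne
        exact hxD' (mem_cov.2 ⟨u, Finset.mem_union_left _ (Finset.mem_erase.2 ⟨hne, hu⟩), hxu, hxH⟩)
      rw [huv] at hxu
      have hxA : x ∈ H \ cov N H (D0 ∪ E) := by
        rw [hcovDE, Finset.mem_sdiff, Finset.mem_union]; tauto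
      exact Finset.mem_union_right _ (hcl.2 v (Finset.mem_inter.2 ⟨hvw, hvH⟩) x hxA hxu)
  have hcovY : cov N H (insert w DY) = Y ∪ (N w ∩ H) := by
    rw [cov_insert, Finset.union_comm]
  refine ⟨w, D', hwDY, ⟨?_, ?_, ?_, ?_, ?_⟩, ?_⟩
  · refine hfar.mono ?_
    intro x hx
    rcases Finset.mem_union.1 hx with hx | hx
    · rcases Finset.mem_insert.1 hx with rfl | hx
      · exact Finset.mem_insert_self _ _
      · exact Finset.mem_insert_of_mem (Finset.mem_union_left _ (Finset.mem_union_left _ hx))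
    · rcases Finset.mem_union.1 hx with hx | hx
      · exact Finset.mem_insert_of_mem (Finset.mem_union_left _ (Finset.mem_union_right _ hx))
      · exact Finset.mem_insert_of_mem (Finset.mem_union_right _ (Finset.mem_sdiff.1 hx).1)
  · rw [Finset.disjoint_insert_left]; exact ⟨hD'w, hD'Y⟩
  · rw [hcovY]
    refine hS.conn.union h.symm (conn_star h.symm (v := w) (Finset.mem_inter.2 ⟨h.self w, hwH⟩)
      (fun x hx => (Finset.mem_inter.1 hx).1)) ha (Finset.mem_inter.2 ⟨hgw, hg⟩) hga
  · rw [hcovY]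
    intro x hx
    rcases Finset.mem_union.1 hx with hx | hx
    · refine Finset.mem_sdiff.2 ⟨cov_sub DY hx, fun hh => ?_⟩
      have hsub2 : insert w (D0 ∪ E) ⊇ DY ∪ D' := by
        intro y hy
        rcases Finset.mem_union.1 hy with hy | hy
        · exact Finset.mem_insert_of_mem (Finset.mem_union_left _ (Finset.mem_union_left _ hy))
        · rcases Finset.mem_union.1 hy with hy | hy
          · exact Finset.mem_insert_of_mem (Finset.mem_union_left _ (Finset.mem_union_right _ hy))
          · exact Finset.mem_insert_of_mem (Finset.mem_union_right _ (Finset.mem_sdiff.1 hy).1)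
      obtain ⟨u, hu, hxu, hxH⟩ := mem_cov.1 hx
      obtain ⟨u', hu', hxu', -⟩ := mem_cov.1 hh
      have hne : u ≠ u' := fun hh => Finset.disjoint_left.1 hD'Y hu (hh ▸ hu')
      exact Finset.disjoint_left.1 (hfar.disj u (hsub2 (Finset.mem_union_left _ hu)) u'
        (hsub2 (Finset.mem_union_right _ hu')) hne) (Finset.mem_inter.2 ⟨hxu, hxH⟩)
        (Finset.mem_inter.2 ⟨hxu', hxH⟩)
    · have h1 := hcl.1 hx
      rw [hcovDE, Finset.mem_sdiff, Finset.mem_union] at h1
      exact Finset.mem_sdiff.2 ⟨h1.1, fun hh => h1.2 (Or.inr hh)⟩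
  · rw [hcovY]
    intro y hy x hx hxy
    rw [Finset.mem_sdiff] at hx
    rcases Finset.mem_union.1 hy with hy | hy
    · exact hYcl y hy x hx.1 hx.2 hxy
    · by_cases hxY : x ∈ Y
      · exact Finset.mem_union_left _ hxY
      · have hxA : x ∈ H \ cov N H (D0 ∪ E) := by
          rw [hcovDE, Finset.mem_sdiff, Finset.mem_union]; tauto
        exact Finset.mem_union_right _ (hcl.2 y hy x hxA hxy)
  · have h1 := Finset.card_union_le (D.erase v) (E \ D0)
    have h2 := Finset.card_le_card (Finset.erase_subset v D)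
    have h3 : (E \ D0).card ≤ E.card := Finset.card_le_card Finset.sdiff_subset
    rw [← hD'] at h1
    omega

/-- Contradiction from a state with three stars. -/
lemma Cex.false_of_three (h : Cex N K M H) (hM : 2 * K < M) {DY D : Finset V}
    (hS : State N K H DY D) (hc : DY.card = 3) (ht : (2 * K + 1) * (D.card + 3) ≤ M) : False := by
  have hK := h.K1
  set X := cov N H DY with hXdef
  have hXH : X ⊆ H := cov_sub DY
  have hDYfar : Far N K H DY := hS.far.mono Finset.subset_union_left
  have hDfar : Far N K H D := hS.far.mono Finset.subset_union_right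
  have hXcard : X.card = 3 * K := by rw [hXdef, hDYfar.card_cov, hc]; ring
  have hfX : f N K X ≤ 2 := by
    refine f_le_two h.self h.symm hK hS.conn hXcard ?_
    intro v hv
    exact (Finset.card_le_card (Finset.inter_subset_inter_left hXH)).trans (h.deg hM (hXH hv))
  have hSX : Disjoint (cov N H D) X := by
    rw [Finset.disjoint_left]
    intro x hx hx'
    exact (Finset.mem_sdiff.1 (hS.closed.1 hx')).2 hx
  have h1 : f N K H ≤ D.card + f N K (H \ cov N H D) := by
    refine f_le_add h.self ?_ (cov_sub D) ?_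
    · intro v hv
      exact mem_cov.2 ⟨v, hv, h.self v, hDfar.sub hv⟩
    · intro x hx
      obtain ⟨v, hv, hxv, -⟩ := mem_cov.1 hx
      exact ⟨v, hv, hxv⟩
  have h2 : H \ cov N H D = X ∪ (H \ (cov N H D ∪ X)) := by
    ext x
    simp only [Finset.mem_sdiff, Finset.mem_union]
    constructor
    · rintro ⟨h3, h4⟩
      by_cases hxX : x ∈ X
      · exact Or.inl hxX
      · exact Or.inr ⟨h3, by tauto⟩
    · rintro (h3 | ⟨h3, h4⟩)
      · exact ⟨hXH h3, fun hh => Finset.disjoint_left.1 hSX hh h3⟩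
      · exact ⟨h3, by tauto⟩
  have h3 : f N K (H \ cov N H D) ≤ f N K X + f N K (H \ (cov N H D ∪ X)) := by
    rw [h2]
    apply f_union h.self h.symm
    intro x hx y hy hyx
    rw [Finset.mem_sdiff, Finset.mem_union] at hy
    exact hy.2 (Or.inr (hS.closed.2 x hx y
      (Finset.mem_sdiff.2 ⟨hy.1, fun hh => hy.2 (Or.inl hh)⟩) hyx))
  have hZ : cov N H D ∪ X ⊆ H := Finset.union_subset (cov_sub D) hXH
  have h4 := h.R hZ (hS.conn.1.mono Finset.subset_union_right)
  have h5 : (cov N H D ∪ X).card = K * D.card + 3 * K := by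
    rw [Finset.card_union_of_disjoint hSX, hDfar.card_cov, hXcard]
  have h6 : (H \ (cov N H D ∪ X)).card + (cov N H D ∪ X).card = H.card :=
    Finset.card_sdiff_add_card_eq_card hZ
  have hng := h.ng
  rw [h5] at h4 h6
  set r := (H \ (cov N H D ∪ X)).card with hr
  set g := f N K (H \ (cov N H D ∪ X)) with hg
  have h7 : (K * M + 1) * f N K H ≤ (K * M + 1) * (D.card + 2) + (K * M + 1) * g := by
    calc (K * M + 1) * f N K H ≤ (K * M + 1) * (D.card + 2 + g) :=
          Nat.mul_le_mul_left _ (by omega)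
      _ = _ := by ring
  have h8 : M * H.card = M * r + (K * M * D.card + 3 * (K * M)) := by rw [← h6]; ring
  have e1 : (K * M + 1) * (D.card + 2) = K * M * D.card + 2 * (K * M) + D.card + 2 := by ring
  have e3 : (2 * K + 1) * (D.card + 3) = 2 * (K * D.card) + D.card + 6 * K + 3 := by ring
  have e5 : M ≤ K * M := Nat.le_mul_of_pos_left _ hK
  omega

lemma Cex.false (h : Cex N K M H) (hM : (2 * K + 1) * (6 * K + 3) ≤ M) : False := by
  classical
  have hK := h.K1
  have hM' : 2 * K < M := by
    have : (2 * K + 1) * 1 ≤ M := le_trans (Nat.mul_le_mul_left _ (by omega)) hM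
    omega
  have hng := h.ng
  have hKf := mul_f_le (K := K) h.self H
  -- extremal exclusions
  have ex : ∀ D : Finset V, Far N K H D → (D.card = 1 ∨ D.card = 2) → cov N H D ≠ H := by
    intro D hD hc hh
    have hcard := hD.card_cov
    rw [hh] at hcard
    apply h.nbad
    have h1 : f N K H ≤ D.card := by
      have : K * f N K H ≤ K * D.card := by omega
      exact le_of_mul_le_mul_left this hK
    have h2 : D.card ≤ f N K H := by
      by_contra h0
      push Not at h0
      have e3 : M ≤ K * M := Nat.le_mul_of_pos_left _ hK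
      have h0' : f N K H ≤ D.card - 1 := by omega
      have e1 : (K * M + 1) * f N K H ≤ (K * M + 1) * (D.card - 1) := Nat.mul_le_mul_left _ h0'
      have e2 : M * H.card = (K * M) * D.card := by rw [hcard]; ring
      rcases hc with hc | hc
      · rw [hc] at e1
        rw [Nat.sub_self, Nat.mul_zero] at e1
        omega
      · rw [hc] at e1 e2
        have e4 : (K * M + 1) * (2 - 1) = K * M + 1 := by ring
        rw [e4] at e1
        omega
    have h3 : f N K H = D.card := le_antisymm h1 h2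
    refine ⟨by rw [hcard, h3], by omega⟩
  have hfar0 : Far N K H ∅ := ⟨by simp, by simp, by simp⟩
  have hcov0 : cov N H (∅ : Finset V) = ∅ := by simp [cov]
  obtain ⟨v, hv⟩ := h.conn.1
  obtain ⟨E, w, hwE, hfar, hE, -, -, hcl⟩ := h.flower hM' hfar0
    ((Nat.mul_le_mul_left _ (by simp; omega)).trans hM) hv (by rw [hcov0]; simp) hv
    (by rw [hcov0]; simp) (h.self v)
  rw [Finset.empty_union] at hwE hfar hcl
  have hwH : w ∈ H := hfar.sub (Finset.mem_insert_self _ _)
  have hcov1 : cov N H {w} = N w ∩ H := by simp [cov]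
  have hS1 : State N K H {w} E := by
    refine ⟨?_, ?_, ?_, ?_⟩
    · rw [← Finset.insert_eq]; exact hfar
    · simpa using hwE
    · rw [hcov1]
      exact conn_star h.symm (v := w) (Finset.mem_inter.2 ⟨h.self w, hwH⟩)
        (fun x hx => (Finset.mem_inter.1 hx).1)
    · rw [hcov1]; exact hcl
  have hc1 : ({w} : Finset V).card = 1 := Finset.card_singleton _
  obtain ⟨w2, D2, hw2, hS2, hD2⟩ := h.enlarge hM' hS1
    ((Nat.mul_le_mul_left _ (by rw [hc1]; omega)).trans hM)
    (ex _ (hS1.far.mono Finset.subset_union_left) (Or.inl hc1))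
  have hc2 : (insert w2 {w} : Finset V).card = 2 := by
    rw [Finset.card_insert_of_notMem hw2, hc1]
  obtain ⟨w3, D3, hw3, hS3, hD3⟩ := h.enlarge hM' hS2
    ((Nat.mul_le_mul_left _ (by rw [hc2]; omega)).trans hM)
    (ex _ (hS2.far.mono Finset.subset_union_left) (Or.inr hc2))
  exact h.false_of_three hM' hS3 (by rw [Finset.card_insert_of_notMem hw3, hc2])
    ((Nat.mul_le_mul_left _ (by omega)).trans hM)

/-- **Dichotomy.** Every connected set is extremal of one of the two types or satisfies the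
improved bound. -/
theorem good_or_bad (hs : ∀ x, x ∈ N x) (hsym : ∀ x y, x ∈ N y → y ∈ N x) (hK : 1 ≤ K)
    (hM : (2 * K + 1) * (6 * K + 3) ≤ M) :
    ∀ (n : ℕ) (H : Finset V), H.card ≤ n → Conn N H → Good N K M H ∨ Bad N K H := by
  intro n
  induction n with
  | zero =>
    intro H hH hc
    have := Finset.card_pos.2 hc.1
    omega
  | succ n ih =>
    intro H hH hc
    by_contra hcon
    push Not at hcon
    have hcex : Cex N K M H := by
      have hM2 : 2 ≤ M := by
        have : (2 * K + 1) * 1 ≤ M := le_trans (Nat.mul_le_mul_left _ (by omega)) hM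
        omega
      refine ⟨hs, hsym, hK, hM2, hc, hcon.1, hcon.2, ?_⟩
      intro C hC hne hCc
      refine ih C ?_ hCc
      have : C.card < H.card := Finset.card_lt_card (Finset.ssubset_iff_subset_ne.2 ⟨hC, hne⟩)
      omega
    exact hcex.false hM

end Pool.Agent.Star
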