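import Pool.Agent.Star.Assembly
import Pool.Agent.Star.Construct

/-!
# The exact threshold from the two statements on vertex-critical graphs
-/

set_option autoImplicit false

namespace Pool.Agent.Star

open Finset

/-- The two statements about vertex-critical graphs for one `K = k + 1`. -/
def CritBounds (K : ℕ) : Prop :=
  (∀ (W : Type) [Fintype W] [DecidableEq W] (M : W → Finset W) (s : ℕ),
      CritInst W M K s → (2 * K + 1) * s ≤ 2 * Fintype.card W + 2) ∧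
  ∃ N0 : ℕ, ∀ (W : Type) [Fintype W] [DecidableEq W] (M : W → Finset W) (s : ℕ),
      CritInst W M K s → N0 ≤ Fintype.card W → (2 * K + 1) * s ≤ 2 * Fintype.card W

open Classical in
/-- Closed neighbourhoods. -/
noncomputable def cnb {n : ℕ} (G : SimpleGraph (Fin n)) (x : Fin n) : Finset (Fin n) :=
  Finset.univ.filter (fun y => y = x ∨ G.Adj x y)

lemma mem_cnb {n : ℕ} {G : SimpleGraph (Fin n)} {x y : Fin n} :
    y ∈ cnb G x ↔ y = x ∨ G.Adj x y := by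
  simp [cnb]

lemma conn_univ {n : ℕ} {G : SimpleGraph (Fin n)} (h : G.Connected) :
    Conn (cnb G) (Finset.univ : Finset (Fin n)) := by
  obtain ⟨x⟩ := h.nonempty
  refine ⟨⟨x, Finset.mem_univ _⟩, ?_⟩
  rintro B - ⟨b, hb⟩ hneq
  obtain ⟨c, hc⟩ : ∃ c, c ∉ B := by
    by_contra hcon
    push Not at hcon
    exact hneq (Finset.eq_univ_iff_forall.2 hcon)
  obtain ⟨p⟩ := h.preconnected b c
  obtain ⟨d, -, h1, h2⟩ := p.exists_boundary_dart (B : Set (Fin n)) hb hc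
  exact ⟨d.fst, h1, d.snd, Finset.mem_univ _, h2, mem_cnb.2 (Or.inr d.adj)⟩

lemma isol_of_iso {k n : ℕ} {G : SimpleGraph (Fin n)} {D : Finset (Fin n)}
    (h : Iso (cnb G) (k + 1) Finset.univ D) : Isol k G D := by
  classical
  rintro v ⟨hv1, hv2⟩
  have hrem : ∀ w : Fin n, w ∈ rem (cnb G) Finset.univ D ↔ (w ∉ D ∧ ∀ s ∈ D, ¬ G.Adj s w) := by
    intro w
    rw [mem_rem]
    constructor
    · rintro ⟨-, h1⟩
      exact ⟨fun hw => h1 w hw (mem_cnb.2 (Or.inl rfl)),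
        fun s hs hadj => h1 s hs (mem_cnb.2 (Or.inr hadj))⟩
    · rintro ⟨h1, h2⟩
      refine ⟨Finset.mem_univ _, fun d hd hw => ?_⟩
      rcases mem_cnb.1 hw with h3 | h3
      · exact h1 (h3 ▸ hd)
      · exact h2 d hd h3
  have hvr : v ∈ rem (cnb G) Finset.univ D := (hrem v).2 ⟨hv1, hv2⟩
  have h1 := h.2 v hvr
  have hsub : {w : Fin n | G.Adj v w ∧ w ∉ D ∧ ∀ s ∈ D, ¬ G.Adj s w} ⊆
      (((cnb G v ∩ rem (cnb G) Finset.univ D).erase v : Finset (Fin n)) : Set (Fin n)) := by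
    rintro w ⟨hw1, hw2⟩
    rw [Finset.mem_coe, Finset.mem_erase, Finset.mem_inter]
    exact ⟨fun hh => G.irrefl (hh ▸ hw1), mem_cnb.2 (Or.inr hw1), (hrem w).2 hw2⟩
  have h2 := Set.ncard_le_ncard hsub (Finset.finite_toSet _)
  rw [Set.ncard_coe_finset, Finset.card_erase_of_mem
    (Finset.mem_inter.2 ⟨mem_cnb.2 (Or.inl rfl), hvr⟩)] at h2
  have h3 : 0 < (cnb G v ∩ rem (cnb G) Finset.univ D).card :=
    Finset.card_pos.2 ⟨v, Finset.mem_inter.2 ⟨mem_cnb.2 (Or.inl rfl), hvr⟩⟩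
  omega

/-- The statement of the threshold problem, from the bounds on critical graphs. -/
theorem main_of_crit (H : ∀ K : ℕ, 3 ≤ K → CritBounds K) :
    ∀ k : ℕ, 2 ≤ k →
      (∃ N : ℕ, ∀ n : ℕ, N ≤ n → ∀ G : SimpleGraph (Fin n), G.Connected →
        ∃ S : Finset (Fin n), S.card ≤ 2 * n / (2 * k + 3) ∧
          ∀ v : Fin n, (v ∉ S ∧ ∀ s ∈ S, ¬ G.Adj s v) →
            {w : Fin n | G.Adj v w ∧ w ∉ S ∧ ∀ s ∈ S, ¬ G.Adj s w}.ncard < k) ∧
      (∀ N : ℕ, ∃ n : ℕ, N ≤ n ∧ ∃ G : SimpleGraph (Fin n), G.Connected ∧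
        (∃ S : Finset (Fin n), S.card = 2 * n / (2 * k + 3) ∧
          ∀ v : Fin n, (v ∉ S ∧ ∀ s ∈ S, ¬ G.Adj s v) →
            {w : Fin n | G.Adj v w ∧ w ∉ S ∧ ∀ s ∈ S, ¬ G.Adj s w}.ncard < k) ∧
        ∀ S : Finset (Fin n),
          (∀ v : Fin n, (v ∉ S ∧ ∀ s ∈ S, ¬ G.Adj s v) →
            {w : Fin n | G.Adj v w ∧ w ∉ S ∧ ∀ s ∈ S, ¬ G.Adj s w}.ncard < k) →
          2 * n / (2 * k + 3) ≤ S.card) := by
  intro k hk
  refine ⟨?_, fun N => construction k hk N⟩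
  obtain ⟨H1, N0, H2⟩ := H (k + 1) (by omega)
  refine ⟨N0, fun n hn G hG => ?_⟩
  have hs : ∀ x, x ∈ cnb G x := fun x => mem_cnb.2 (Or.inl rfl)
  have hsym : ∀ x y, x ∈ cnb G y → y ∈ cnb G x := by
    intro x y hxy
    rcases mem_cnb.1 hxy with h | h
    · exact mem_cnb.2 (Or.inl h.symm)
    · exact mem_cnb.2 (Or.inr h.symm)
  have h1 := upper_of_crit (N := cnb G) (K := k + 1) hs hsym (by omega) H1 H2
    (conn_univ hG) (by simpa using hn)
  obtain ⟨D, hD, hDc⟩ := exists_iso (N := cnb G) (K := k + 1) hs (Finset.univ : Finset (Fin n))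
  refine ⟨D, ?_, isol_of_iso hD⟩
  rw [Nat.le_div_iff_mul_le (by omega), hDc]
  rw [Finset.card_univ, Fintype.card_fin] at h1
  calc f (cnb G) (k + 1) Finset.univ * (2 * k + 3)
      = (2 * (k + 1) + 1) * f (cnb G) (k + 1) Finset.univ := by ring
    _ ≤ 2 * n := h1

end Pool.Agent.Star
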