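import Pool.Agent.Star.T3d

/-!
# Star systems with `K = 3`: a minimal violator is a cycle all of whose vertices are centres
-/

set_option autoImplicit false
set_option linter.unusedSectionVars false
set_option linter.unusedVariables false

namespace Pool.Agent.Star.Rig

open Finset

variable {V : Type*} [DecidableEq V]

section
variable {N : V → Finset V} {A : Finset V} {C F : Finset (Finset V)}

/-- A small closed set is impossible in a large connected graph. -/
lemma closed_false (hA : Conn N A) {B : Finset V} (hBA : B ⊆ A) (hB : B.Nonempty)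
    (hc : B.card < A.card) (hcl : ∀ x ∈ B, ∀ y ∈ A, y ∈ N x → y ∈ B) : False := by
  obtain ⟨x, hx, y, hy, hyB, hyx⟩ := hA.2 B hBA hB (by
    rintro rfl
    exact lt_irrefl _ hc)
  exact hyB (hcl x hx y hy hyx)

lemma card_nbr (hs : ∀ x, x ∈ N x) {z : V} (hz : z ∈ A) :
    (nbr N A z).card + 1 = (N z ∩ A).card := by
  unfold nbr
  exact Finset.card_erase_add_one (Finset.mem_inter.2 ⟨hs z, hz⟩)

/-- With degrees at most two there is no bad vertex around a vertex of degree two. -/
lemma Viol.e3_nobad (h : Viol N 3 A C) (hex : (2 * 3 + 1) * gk N A C = 2 * A.card + 1)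
    (h5 : 5 ≤ gk N A C) (hd : ∀ v ∈ A, (N v ∩ A).card ≤ 3) {z b : V} (hz : z ∈ A)
    (hz3 : (N z ∩ A).card = 3) (hb : b ∈ A) (hbz : b ∉ N z) :
    ∃ S ∈ C, b ∈ S ∧ ∀ x ∈ S, x ∉ N z := by
  classical
  by_contra hcon
  push Not at hcon
  set R : Finset V := insert b (nbr N A z) with hR
  have hbn : b ∉ nbr N A z := fun hh => hbz (mem_nbr.1 hh).2.1
  have hn2 : (nbr N A z).card = 2 := by
    have := card_nbr h.refl hz
    omega
  have hRc : R.card = 3 := by
    rw [hR, Finset.card_insert_of_notMem hbn, hn2]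
  have hRA : R ⊆ A := Finset.insert_subset hb (fun x hx => (mem_nbr.1 hx).2.2)
  have hzR : z ∉ R := by
    intro hh
    rcases Finset.mem_insert.1 hh with rfl | hh
    · exact hbz (h.refl z)
    · exact (mem_nbr.1 hh).1 rfl
  have hQA : insert z R ⊆ A := Finset.insert_subset hz hRA
  have hQn : (insert z R).Nonempty := Finset.insert_nonempty _ _
  have hzA : ({z} : Finset V) ⊆ A := Finset.singleton_subset_iff.2 hz
  obtain ⟨F, hF⟩ := exists_comps (N := N) h.symm (A \ insert z R)
  have hQ : ∀ S ∈ C, ¬ Hit N {z} S → Disjoint S (insert z R) := by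
    intro S hS hn
    rw [Finset.disjoint_right]
    intro x hx hxS
    rcases Finset.mem_insert.1 hx with rfl | hx
    · exact not_hit_one hn hxS (h.refl x)
    · rcases Finset.mem_insert.1 hx with rfl | hx
      · obtain ⟨y, hy, hyz⟩ := hcon S hS hxS
        exact not_hit_one hn hy hyz
      · exact not_hit_one hn hxS (mem_nbr.1 hx).2.1
  set X := exc N 3 (far N C {z}) F with hX
  have hacc := h.acc hQn hQA hF (C' := far N C {z}) far_sub
  rw [Finset.card_insert_of_notMem hzR, hRc, ← hX] at hacc
  have hcnt := h.count hF hQ hQn hQA hzA (Finset.empty_subset A) (T := ∅)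
    (fun W hW => absurd hW (Finset.notMem_empty W))
  rw [Finset.card_empty, Finset.card_empty, Finset.card_singleton] at hcnt
  set s := ∑ U ∈ F, gk N U (res (far N C {z}) U) with hs
  obtain ⟨j, hj⟩ : ∃ j, s + 1 = gk N A C + j := Nat.exists_eq_add_of_le (by omega)
  have hone : ∀ r ∈ R, (X.filter (fun U => ∃ x ∈ U, x ∈ N r)).card ≤ 1 + j := by
    intro r hr
    have hcr := h.count hF hQ hQn hQA hzA (Finset.singleton_subset_iff.2 (hRA hr))
      (T := X.filter (fun U => ∃ x ∈ U, x ∈ N r))
      (fun U hU => by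
        obtain ⟨h1, x, hx, hxr⟩ := Finset.mem_filter.1 hU
        exact ⟨h1, r, by simp, x, hx, hxr⟩)
    rw [Finset.card_singleton, Finset.card_singleton, ← hs] at hcr
    omega
  have htwo : 2 * X.card ≤ R.card * (1 + j) := by
    have h1 : ∀ U ∈ X, 2 ≤ (R.filter (fun r => ∃ x ∈ U, x ∈ N r)).card := by
      intro U hU
      obtain ⟨r, hr, r', hr', hne, h3, h4⟩ := h.two_touch hex hz hRA hF hU
      have h6 : ({r, r'} : Finset V) ⊆ R.filter (fun r => ∃ x ∈ U, x ∈ N r) := by
        intro y hy
        rcases Finset.mem_insert.1 hy with rfl | hy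
        · exact Finset.mem_filter.2 ⟨hr, h3⟩
        · rw [Finset.mem_singleton.1 hy]
          exact Finset.mem_filter.2 ⟨hr', h4⟩
      have := Finset.card_le_card h6
      rwa [Finset.card_pair hne] at this
    have h2 : ∑ r ∈ R, (X.filter (fun U => ∃ x ∈ U, x ∈ N r)).card =
        ∑ U ∈ X, (R.filter (fun r => ∃ x ∈ U, x ∈ N r)).card := by
      simp only [Finset.card_filter]
      exact Finset.sum_comm
    calc 2 * X.card = ∑ U ∈ X, 2 := by rw [Finset.sum_const, smul_eq_mul, Nat.mul_comm]
      _ ≤ ∑ U ∈ X, (R.filter (fun r => ∃ x ∈ U, x ∈ N r)).card := Finset.sum_le_sum h1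
      _ = ∑ r ∈ R, (X.filter (fun U => ∃ x ∈ U, x ∈ N r)).card := h2.symm
      _ ≤ ∑ r ∈ R, (1 + j) := Finset.sum_le_sum hone
      _ = R.card * (1 + j) := by rw [Finset.sum_const, smul_eq_mul]
  rw [hRc] at htwo
  have hw : ∑ U ∈ X, gk N U (res (far N C {z}) U) ≤ X.card := by
    rw [Finset.card_eq_sum_ones]
    apply Finset.sum_le_sum
    intro U hU
    obtain ⟨e1, e2, e3⟩ := h.exc_far hF hQn hQA hU
    rcases (mem_exc.1 hU).2 with ⟨_, h6⟩ | ⟨_, h6⟩
    · omega
    · exfalso
      rw [e2] at h6
      have hUF := (mem_exc.1 hU).1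
      have hss : U ⊂ A := Finset.ssubset_of_subset_of_ssubset (hF.cl U hUF).1
        (Finset.sdiff_ssubset hQA hQn)
      have h7 : U.card = 2 * 3 := by
        rcases e3 with ⟨_, h7⟩ | ⟨h7, _⟩
        · omega
        · exact h7
      have b : Blk N 3 U (res C U) := ⟨h.refl, h.symm, h.sys.res, hF.conn U hUF, h7, h6⟩
      have hE : ∀ A' ⊂ U, ∀ C' ⊆ res C U, Sys N 3 A' C' → Conn N A' → Bd N 3 A' C' :=
        fun A' hA' C' hC' => h.hE A' (hA'.trans hss) C' (hC'.trans (Finset.filter_subset _ _))
      apply closed_false h.conn hss.1 (hF.conn U hUF).1 (Finset.card_lt_card hss)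
      intro x hx y hy hyx
      have h8 := b.nb3 hE hx
      have h9 : N x ∩ U ⊆ N x ∩ A := Finset.inter_subset_inter (Finset.Subset.refl _) hss.1
      have h10 : N x ∩ U = N x ∩ A := Finset.eq_of_subset_of_card_le h9 (by
        rw [h8]; exact hd x (hss.1 hx))
      have h11 : y ∈ N x ∩ A := Finset.mem_inter.2 ⟨hyx, hy⟩
      rw [← h10] at h11
      exact (Finset.mem_inter.1 h11).2
  omega

/-- The third element of a set with three elements. -/
lemma third {T : Finset V} (hT : T.card = 3) {a c : V} (ha : a ∈ T) (hc : c ∈ T) (hne : a ≠ c) :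
    ∃ d, d ≠ a ∧ d ≠ c ∧ T = {a, c, d} := by
  have h1 : ((T.erase a).erase c).card = 1 := by
    rw [Finset.card_erase_of_mem (Finset.mem_erase.2 ⟨Ne.symm hne, hc⟩),
      Finset.card_erase_of_mem ha, hT]
  obtain ⟨d, hd⟩ := Finset.card_eq_one.1 h1
  have hd' : d ∈ (T.erase a).erase c := by rw [hd]; exact Finset.mem_singleton_self d
  rw [Finset.mem_erase, Finset.mem_erase] at hd'
  refine ⟨d, hd'.2.1, hd'.1, ?_⟩
  ext x
  simp only [Finset.mem_insert, Finset.mem_singleton]
  constructor
  · intro hx
    by_cases hxa : x = a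
    · exact Or.inl hxa
    · by_cases hxc : x = c
      · exact Or.inr (Or.inl hxc)
      · right; right
        have : x ∈ (T.erase a).erase c := by
          rw [Finset.mem_erase, Finset.mem_erase]
          exact ⟨hxc, hxa, hx⟩
        rw [hd] at this
        exact Finset.mem_singleton.1 this
  · rintro (rfl | rfl | rfl)
    · exact ha
    · exact hc
    · exact hd'.2.2

/-- All closed neighbourhoods of a minimal violator with `K = 3` are star sets. -/
theorem Viol.e3_cycle (h : Viol N 3 A C) (hex : (2 * 3 + 1) * gk N A C = 2 * A.card + 1)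
    (h5 : 5 ≤ gk N A C) :
    (∀ v ∈ A, (N v ∩ A).card = 3) ∧ ∀ v ∈ A, N v ∩ A ∈ C := by
  classical
  have hA17 : 17 ≤ A.card := by omega
  have hd : ∀ v ∈ A, (N v ∩ A).card ≤ 3 := by
    intro v hv
    have h1 := card_nbr h.refl hv
    have h2 := h.e3_deg2 hex h5 hv
    omega
  have hself : ∀ v ∈ A, v ∈ N v ∩ A := fun v hv => Finset.mem_inter.2 ⟨h.refl v, hv⟩
  -- star sets are closed neighbourhoods
  have hstar : ∀ S ∈ C, ∀ c ∈ S, S ⊆ N c → S = N c ∩ A := by
    intro S hS c hc hcN
    apply Finset.eq_of_subset_of_card_le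
    · intro x hx
      exact Finset.mem_inter.2 ⟨hcN hx, h.sys.sub S hS hx⟩
    · rw [h.sys.card S hS]
      exact hd c (h.sys.sub S hS hc)
  have h3 : ∀ v ∈ A, (N v ∩ A).card = 3 := by
    intro r hr
    by_contra hne
    have hr2 : (N r ∩ A).card ≤ 2 := by have := hd r hr; omega
    -- a neighbour
    obtain ⟨z, hzA, hzr, hzN⟩ : ∃ z ∈ A, z ≠ r ∧ z ∈ N r := by
      by_contra hcon
      push Not at hcon
      apply closed_false h.conn (Finset.singleton_subset_iff.2 hr) (Finset.singleton_nonempty r)
        (by rw [Finset.card_singleton]; omega)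
      intro x hx y hy hyx
      rw [Finset.mem_singleton] at hx ⊢
      subst hx
      by_contra hyx'
      exact hcon y hy hyx' hyx
    have hNr : N r ∩ A = {r, z} := by
      symm
      apply Finset.eq_of_subset_of_card_le
      · intro x hx
        rcases Finset.mem_insert.1 hx with rfl | hx
        · exact hself x hr
        · rw [Finset.mem_singleton.1 hx]
          exact Finset.mem_inter.2 ⟨hzN, hzA⟩
      · rw [Finset.card_pair (Ne.symm hzr)]; exact hr2
    have hrz : r ∈ N z := h.symm _ _ hzN
    have hz3 : (N z ∩ A).card = 3 := by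
      by_contra hz2
      have hz2' : (N z ∩ A).card ≤ 2 := by have := hd z hzA; omega
      have hNz : N z ∩ A = {z, r} := by
        symm
        apply Finset.eq_of_subset_of_card_le
        · intro x hx
          rcases Finset.mem_insert.1 hx with rfl | hx
          · exact hself x hzA
          · rw [Finset.mem_singleton.1 hx]
            exact Finset.mem_inter.2 ⟨hrz, hr⟩
        · rw [Finset.card_pair hzr]; exact hz2'
      apply closed_false h.conn (B := {r, z}) (by
        intro x hx
        rcases Finset.mem_insert.1 hx with rfl | hx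
        · exact hr
        · rw [Finset.mem_singleton.1 hx]; exact hzA) ⟨r, by simp⟩ (by
          rw [Finset.card_pair (Ne.symm hzr)]; omega)
      intro x hx y hy hyx
      rcases Finset.mem_insert.1 hx with rfl | hx
      · rw [← hNr]; exact Finset.mem_inter.2 ⟨hyx, hy⟩
      · rw [Finset.mem_singleton] at hx
        subst hx
        have : y ∈ ({x, r} : Finset V) := by rw [← hNz]; exact Finset.mem_inter.2 ⟨hyx, hy⟩
        simp only [Finset.mem_insert, Finset.mem_singleton] at this ⊢
        tauto
    obtain ⟨r2, hr2r, hr2z, hNz⟩ := third hz3 (Finset.mem_inter.2 ⟨hrz, hr⟩) (hself z hzA)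
      (Ne.symm hzr)
    have hr2m : r2 ∈ N z ∩ A := by rw [hNz]; simp
    have hr2A := (Finset.mem_inter.1 hr2m).2
    have hzr2 : z ∈ N r2 := h.symm _ _ (Finset.mem_inter.1 hr2m).1
    have hr23 : (N r2 ∩ A).card = 3 := by
      by_contra hc2
      have hc2' : (N r2 ∩ A).card ≤ 2 := by have := hd r2 hr2A; omega
      have hNr2 : N r2 ∩ A = {r2, z} := by
        symm
        apply Finset.eq_of_subset_of_card_le
        · intro x hx
          rcases Finset.mem_insert.1 hx with rfl | hx
          · exact hself x hr2A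
          · rw [Finset.mem_singleton.1 hx]
            exact Finset.mem_inter.2 ⟨hzr2, hzA⟩
        · rw [Finset.card_pair hr2z]; exact hc2'
      apply closed_false h.conn (B := {r, z, r2}) (by
        intro x hx
        simp only [Finset.mem_insert, Finset.mem_singleton] at hx
        rcases hx with rfl | rfl | rfl
        · exact hr
        · exact hzA
        · exact hr2A) ⟨r, by simp⟩ (lt_of_le_of_lt Finset.card_le_three (by omega))
      intro x hx y hy hyx
      simp only [Finset.mem_insert, Finset.mem_singleton] at hx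
      have hm := Finset.mem_inter.2 ⟨hyx, hy⟩
      rcases hx with rfl | rfl | rfl
      · rw [hNr] at hm
        simp only [Finset.mem_insert, Finset.mem_singleton] at hm ⊢
        tauto
      · rw [hNz] at hm
        simp only [Finset.mem_insert, Finset.mem_singleton] at hm ⊢
        tauto
      · rw [hNr2] at hm
        simp only [Finset.mem_insert, Finset.mem_singleton] at hm ⊢
        tauto
    have hrr2 : r ∉ N r2 := by
      intro hh
      have : r2 ∈ N r ∩ A := Finset.mem_inter.2 ⟨h.symm _ _ hh, hr2A⟩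
      rw [hNr] at this
      simp only [Finset.mem_insert, Finset.mem_singleton] at this
      tauto
    obtain ⟨S, hS, hrS, hSn⟩ := h.e3_nobad hex h5 hd hr2A hr23 hr hrr2
    obtain ⟨c, hc, hcN⟩ := h.sys.cen S hS
    have hcA := h.sys.sub S hS hc
    have hcr : c ∈ N r ∩ A := Finset.mem_inter.2 ⟨h.symm _ _ (hcN hrS), hcA⟩
    have hSeq := hstar S hS c hc hcN
    have hSc := h.sys.card S hS
    rw [hNr] at hcr
    rcases Finset.mem_insert.1 hcr with rfl | hcr
    · rw [hSeq] at hSc
      omega
    · rw [Finset.mem_singleton] at hcr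
      subst hcr
      exact hSn c hc hzr2
  refine ⟨h3, ?_⟩
  intro w' hw'
  -- a neighbour `w`
  have hone : ∀ v ∈ A, ∃ a ∈ A, a ≠ v ∧ a ∈ N v := by
    intro v hv
    by_contra hcon
    push Not at hcon
    have h6 : N v ∩ A ⊆ {v} := by
      intro x hx
      rw [Finset.mem_singleton]
      by_contra hxv
      exact hcon x (Finset.mem_inter.1 hx).2 hxv (Finset.mem_inter.1 hx).1
    have := Finset.card_le_card h6
    rw [h3 v hv, Finset.card_singleton] at this
    omega
  obtain ⟨w, hwA, hww, hwN⟩ := hone w' hw'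
  have hw'w : w' ∈ N w := h.symm _ _ hwN
  obtain ⟨r, hrw, hrw', hNw⟩ := third (h3 w hwA) (hself w hwA)
    (Finset.mem_inter.2 ⟨hw'w, hw'⟩) hww
  have hrm : r ∈ N w ∩ A := by rw [hNw]; simp
  have hrA := (Finset.mem_inter.1 hrm).2
  have hwr : w ∈ N r := h.symm _ _ (Finset.mem_inter.1 hrm).1
  obtain ⟨z, hzr, hzw, hNr⟩ := third (h3 r hrA) (hself r hrA)
    (Finset.mem_inter.2 ⟨hwr, hwA⟩) hrw
  have hzm : z ∈ N r ∩ A := by rw [hNr]; simp
  have hzA := (Finset.mem_inter.1 hzm).2
  have hrz : r ∈ N z := h.symm _ _ (Finset.mem_inter.1 hzm).1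
  have hwz : w ∉ N z := by
    intro hh
    have h6 : z ∈ N w ∩ A := Finset.mem_inter.2 ⟨h.symm _ _ hh, hzA⟩
    rw [hNw] at h6
    simp only [Finset.mem_insert, Finset.mem_singleton] at h6
    have hzw' : z = w' := by tauto
    subst hzw'
    have hNz : N z ∩ A = {z, w, r} := by
      symm
      apply Finset.eq_of_subset_of_card_le
      · intro x hx
        simp only [Finset.mem_insert, Finset.mem_singleton] at hx
        rcases hx with rfl | rfl | rfl
        · exact hself x hzA
        · exact Finset.mem_inter.2 ⟨hh, hwA⟩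
        · exact Finset.mem_inter.2 ⟨hrz, hrA⟩
      · rw [h3 z hzA, Finset.card_insert_of_notMem, Finset.card_pair (Ne.symm hrw)]
        simp only [Finset.mem_insert, Finset.mem_singleton, not_or]
        exact ⟨hzw, hzr⟩
    apply closed_false h.conn (B := {z, w, r}) (by
      intro x hx
      simp only [Finset.mem_insert, Finset.mem_singleton] at hx
      rcases hx with rfl | rfl | rfl
      · exact hzA
      · exact hwA
      · exact hrA) ⟨z, by simp⟩ (lt_of_le_of_lt Finset.card_le_three (by omega))
    intro x hx y hy hyx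
    simp only [Finset.mem_insert, Finset.mem_singleton] at hx
    have hm := Finset.mem_inter.2 ⟨hyx, hy⟩
    rcases hx with rfl | rfl | rfl
    · rw [← hNz]; exact hm
    · rw [hNw] at hm
      simp only [Finset.mem_insert, Finset.mem_singleton] at hm ⊢
      tauto
    · rw [hNr] at hm
      simp only [Finset.mem_insert, Finset.mem_singleton] at hm ⊢
      tauto
  obtain ⟨S, hS, hwS, hSn⟩ := h.e3_nobad hex h5 hd hzA (h3 z hzA) hwA hwz
  obtain ⟨c, hc, hcN⟩ := h.sys.cen S hS
  have hcA := h.sys.sub S hS hc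
  have hcw : c ∈ N w ∩ A := Finset.mem_inter.2 ⟨h.symm _ _ (hcN hwS), hcA⟩
  have hSeq := hstar S hS c hc hcN
  rw [hNw] at hcw
  simp only [Finset.mem_insert, Finset.mem_singleton] at hcw
  rcases hcw with rfl | rfl | rfl
  · exfalso
    have : r ∈ S := by rw [hSeq]; exact hrm
    exact hSn r this hrz
  · rw [← hSeq]; exact hS
  · exfalso
    exact hSn c hc hrz

end

end Pool.Agent.Star.Rig
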