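import Pool.Agent.Star.Rig

/-!
# Star isolation when the vertices of degree at least `k` induce a graph of maximum degree one

Part 1: the general deletion and counting lemmas.  `K = k + 1`; a centre is a vertex `v` with
`K ≤ (N v).card`.
-/

set_option autoImplicit false
set_option linter.unusedSectionVars false
set_option linter.unusedVariables false

namespace Pool.Agent.Star.MC

open Finset Pool.Agent.Star Pool.Agent.Star.Rig

variable {V : Type*} [DecidableEq V]

/-- The exceptional type: `K` vertices and isolation number `1`. -/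
def Aty (N : V → Finset V) (K : ℕ) (A : Finset V) : Prop := A.card = K ∧ f N K A = 1

open Classical in
/-- The members of exceptional type. -/
noncomputable def atys (N : V → Finset V) (K : ℕ) (F : Finset (Finset V)) : Finset (Finset V) :=
  F.filter (fun U => Aty N K U)

/-- The bound `(2K+1) f ≤ 2n` or the exceptional type. -/
def Bnd (N : V → Finset V) (K : ℕ) (A : Finset V) : Prop :=
  (2 * K + 1) * f N K A ≤ 2 * A.card ∨ Aty N K A

section
variable {N : V → Finset V} {K : ℕ}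

lemma mem_atys {F : Finset (Finset V)} {U : Finset V} :
    U ∈ atys N K F ↔ U ∈ F ∧ Aty N K U := by
  simp [atys]

lemma sum_bound {B : Finset V} {F : Finset (Finset V)} (hF : Comps N B F)
    (hb : ∀ U ∈ F, Bnd N K U) :
    (2 * K + 1) * ∑ U ∈ F, f N K U ≤ 2 * B.card + (atys N K F).card := by
  classical
  have h1 : ∀ U ∈ F, (2 * K + 1) * f N K U ≤ 2 * U.card + (if Aty N K U then 1 else 0) := by
    intro U hU
    rcases hb U hU with h | h
    · omega
    · rw [if_pos h, h.1, h.2]; omega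
  calc (2 * K + 1) * ∑ U ∈ F, f N K U = ∑ U ∈ F, (2 * K + 1) * f N K U := Finset.mul_sum _ _ _
    _ ≤ ∑ U ∈ F, (2 * U.card + (if Aty N K U then 1 else 0)) := Finset.sum_le_sum h1
    _ = 2 * B.card + (atys N K F).card := by
        rw [Finset.sum_add_distrib, ← Finset.mul_sum, ← hF.card]
        congr 1
        rw [atys, Finset.card_filter]

/-- A set isolates `A` if no survivor meets `Q` and none lies in a component of `A \ Q`. -/
lemma iso_of_comps (hs : ∀ x, x ∈ N x) {A Q D : Finset V} {F : Finset (Finset V)}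
    (hF : Comps N (A \ Q) F) (hD : D ⊆ A)
    (hQ : ∀ v ∈ rem N A D, K ≤ (N v ∩ rem N A D).card → ∀ z ∈ N v ∩ rem N A D, z ∉ Q)
    (hU : ∀ U ∈ F, ∀ v ∈ U, v ∈ rem N A D → (N v ∩ (U ∩ rem N A D)).card < K) :
    Iso N K A D := by
  refine ⟨hD, ?_⟩
  intro v hv
  by_contra hcon
  push Not at hcon
  have h1 := hQ v hv hcon
  have hvA := (mem_rem.1 hv).1
  have hvQ : v ∉ Q := h1 v (Finset.mem_inter.2 ⟨hs v, hv⟩)
  obtain ⟨U, hUF, hvU⟩ := hF.cover v (Finset.mem_sdiff.2 ⟨hvA, hvQ⟩)
  have h2 : N v ∩ rem N A D ⊆ N v ∩ (U ∩ rem N A D) := by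
    intro z hz
    have hz' := Finset.mem_inter.1 hz
    refine Finset.mem_inter.2 ⟨hz'.1, Finset.mem_inter.2 ⟨?_, hz'.2⟩⟩
    exact (hF.cl U hUF).2 v hvU z (Finset.mem_sdiff.2 ⟨(mem_rem.1 hz'.2).1, h1 z hz⟩) hz'.1
  have h3 := Finset.card_le_card h2
  have h4 := hU U hUF v hvU hv
  omega

/-- The general deletion principle: `D0` and `E`, and optimal sets for the members of `F` that are
not in `T`; the members of `T` have at most `K` vertices and are touched by `D0 ∪ E`. -/
lemma f_le_gen (hs : ∀ x, x ∈ N x) {A D0 Q E : Finset V} {F T : Finset (Finset V)}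
    (hF : Comps N (A \ Q) F) (hT : T ⊆ F) (hD0 : D0 ⊆ A) (hE : E ⊆ A)
    (hQ : ∀ v ∈ rem N A D0, ∀ z ∈ rem N A D0, z ∈ Q → z ∈ N v →
      (N v ∩ rem N A D0).card < K)
    (hTE : ∀ U ∈ T, U.card ≤ K ∧ ∃ e ∈ D0 ∪ E, ∃ z ∈ U, z ∈ N e) :
    f N K A ≤ D0.card + E.card + ∑ U ∈ F \ T, f N K U := by
  have h0 : ∀ U : Finset V, ∃ D, Iso N K U D ∧ D.card = f N K U := fun U => exists_iso hs U
  choose D hD1 hD2 using h0
  have hUA : ∀ U ∈ F, U ⊆ A := fun U hU => (hF.cl U hU).1.trans Finset.sdiff_subset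
  set DD : Finset V := D0 ∪ E ∪ (F \ T).biUnion D with hDD
  have hsub0 : rem N A DD ⊆ rem N A D0 := by
    intro v hv
    rw [mem_rem] at hv ⊢
    exact ⟨hv.1, fun d hd => hv.2 d (Finset.mem_union_left _ (Finset.mem_union_left _ hd))⟩
  have hiso : Iso N K A DD := by
    refine iso_of_comps hs hF ?_ ?_ ?_
    · refine Finset.union_subset (Finset.union_subset hD0 hE) ?_
      intro x hx
      obtain ⟨U, hU, hx⟩ := Finset.mem_biUnion.1 hx
      exact hUA U (Finset.mem_sdiff.1 hU).1 ((hD1 U).1 hx)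
    · intro v hv hcard z hz hzQ
      have hz' := Finset.mem_inter.1 hz
      have h1 := hQ v (hsub0 hv) z (hsub0 hz'.2) hzQ hz'.1
      have h2 := Finset.card_le_card (Finset.inter_subset_inter (Finset.Subset.refl (N v)) hsub0)
      omega
    · intro U hU v hvU hv
      by_cases hUT : U ∈ T
      · obtain ⟨h1, e, he, z, hz, hze⟩ := hTE U hUT
        have h2 : N v ∩ (U ∩ rem N A DD) ⊆ U.erase z := by
          intro y hy
          have hy' := Finset.mem_inter.1 (Finset.mem_inter.1 hy).2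
          refine Finset.mem_erase.2 ⟨?_, hy'.1⟩
          rintro rfl
          exact (mem_rem.1 hy'.2).2 e (Finset.mem_union_left _ he) hze
        have h3 := Finset.card_le_card h2
        rw [Finset.card_erase_of_mem hz] at h3
        have h4 := Finset.card_pos.2 ⟨z, hz⟩
        omega
      · have h1 : U ∩ rem N A DD ⊆ rem N U (D U) := by
          intro y hy
          have hy' := Finset.mem_inter.1 hy
          rw [mem_rem]
          refine ⟨hy'.1, fun d hd => (mem_rem.1 hy'.2).2 d (Finset.mem_union_right _ ?_)⟩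
          exact Finset.mem_biUnion.2 ⟨U, Finset.mem_sdiff.2 ⟨hU, hUT⟩, hd⟩
        have h2 := (hD1 U).2 v (h1 (Finset.mem_inter.2 ⟨hvU, hv⟩))
        have h3 := Finset.card_le_card (Finset.inter_subset_inter (Finset.Subset.refl (N v)) h1)
        omega
  calc f N K A ≤ DD.card := f_le hiso
    _ ≤ (D0 ∪ E).card + ((F \ T).biUnion D).card := Finset.card_union_le _ _
    _ ≤ (D0.card + E.card) + ∑ U ∈ F \ T, (D U).card :=
        Nat.add_le_add (Finset.card_union_le _ _) Finset.card_biUnion_le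
    _ = _ := by
        rw [Finset.sum_congr rfl (fun U _ => hD2 U)]

/-- The same for exceptional members `T`. -/
lemma f_le_gen' (hs : ∀ x, x ∈ N x) {A D0 Q E : Finset V} {F T : Finset (Finset V)}
    (hF : Comps N (A \ Q) F) (hT : T ⊆ atys N K F) (hD0 : D0 ⊆ A) (hE : E ⊆ A)
    (hQ : ∀ v ∈ rem N A D0, ∀ z ∈ rem N A D0, z ∈ Q → z ∈ N v →
      (N v ∩ rem N A D0).card < K)
    (hTE : ∀ U ∈ T, ∃ e ∈ D0 ∪ E, ∃ z ∈ U, z ∈ N e) :
    f N K A + T.card ≤ D0.card + E.card + ∑ U ∈ F, f N K U := by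
  have hTF : T ⊆ F := fun U hU => (mem_atys.1 (hT hU)).1
  have h1 := f_le_gen hs hF hTF hD0 hE hQ
    (fun U hU => ⟨le_of_eq (mem_atys.1 (hT hU)).2.1, hTE U hU⟩)
  have h2 : ∑ U ∈ F, f N K U = ∑ U ∈ F \ T, f N K U + T.card := by
    rw [← Finset.sum_sdiff hTF]
    congr 1
    rw [Finset.card_eq_sum_ones]
    exact Finset.sum_congr rfl (fun U hU => (mem_atys.1 (hT hU)).2.2)
  omega

lemma f_le_sum (hs : ∀ x, x ∈ N x) {A : Finset V} {F : Finset (Finset V)}
    (hF : Comps N A F) : f N K A ≤ ∑ U ∈ F, f N K U := by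
  have h1 := f_le_gen (K := K) (A := A) (D0 := ∅) (Q := ∅) (E := ∅) (F := F) (T := ∅) hs
    (by simpa using hF) (Finset.empty_subset _) (Finset.empty_subset _) (Finset.empty_subset _)
    (fun v _ z _ hz => absurd hz (Finset.notMem_empty z)) (fun U hU => absurd hU (Finset.notMem_empty U))
  simpa using h1

/-- (V) in a connected set with `e ≥ 0` the deletion of a vertex decreases the sum of the
isolation numbers of the components. -/
lemma vcrit (hs : ∀ x, x ∈ N x) (hsym : ∀ x y, x ∈ N y → y ∈ N x) {J : Finset V}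
    (hJ : Conn N J) (hlow : ∀ A ⊆ J, A ≠ J → Conn N A → Bnd N K A)
    (he : 2 * J.card ≤ (2 * K + 1) * f N K J) {v : V} (hv : v ∈ J)
    {F : Finset (Finset V)} (hF : Comps N (J \ {v}) F) :
    ∑ U ∈ F, f N K U + 1 ≤ f N K J := by
  by_contra hcon
  push Not at hcon
  have hUJ : ∀ U ∈ F, U ⊆ J := fun U hU => (hF.cl U hU).1.trans Finset.sdiff_subset
  have hvU : ∀ U ∈ F, v ∉ U := by
    intro U hU hvU
    have := (hF.cl U hU).1 hvU
    simp at this
  have hne : ∀ U ∈ F, U ≠ J := by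
    rintro U hU rfl
    exact hvU _ hU hv
  have h1 := sum_bound hF (fun U hU => hlow U (hUJ U hU) (hne U hU) (hF.conn U hU))
  have h2 : (J \ {v}).card + 1 = J.card := by
    rw [Finset.card_sdiff_of_subset (by simpa using hv), Finset.card_singleton]
    have := Finset.card_pos.2 ⟨v, hv⟩
    omega
  have h3 := f_le_gen' (K := K) (A := J) (D0 := {v}) (Q := {v}) (E := ∅) (F := F)
    (T := atys N K F) hs hF subset_rfl (by simpa using hv) (Finset.empty_subset _)
    (by
      intro w _ z hz hzv _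
      rw [Finset.mem_singleton] at hzv
      subst hzv
      exact absurd (hs z) ((mem_rem.1 hz).2 z (Finset.mem_singleton_self z)))
    (by
      intro U hU
      have hUF := (mem_atys.1 hU).1
      obtain ⟨a, ha, b, hb, hbU, hba⟩ := hJ.2 U (hUJ U hUF) (hF.conn U hUF).1 (hne U hUF)
      have hbv : b = v := by
        by_contra hbv
        exact hbU ((hF.cl U hUF).2 a ha b (by simp [hb, hbv]) hba)
      subst hbv
      exact ⟨b, by simp, a, ha, hsym _ _ hba⟩)
  rw [Finset.card_singleton, Finset.card_empty] at h3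
  have h4 : (2 * K + 1) * f N K J ≤ (2 * K + 1) * ∑ U ∈ F, f N K U :=
    Nat.mul_le_mul_left _ (by omega)
  obtain ⟨j, hj⟩ : ∃ j, ∑ U ∈ F, f N K U = f N K J + j :=
    Nat.exists_eq_add_of_le (by omega)
  rw [hj] at h1 h3
  have h5 : (2 * K + 1) * (f N K J + j) = (2 * K + 1) * f N K J + (2 * K + 1) * j := by ring
  rw [h5] at h1
  have h6 : (2 * K + 1) * j ≥ j := Nat.le_mul_of_pos_left _ (by omega)
  omega

lemma vcrit_iso (hs : ∀ x, x ∈ N x) (hsym : ∀ x y, x ∈ N y → y ∈ N x) {J : Finset V}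
    (hJ : Conn N J) (hlow : ∀ A ⊆ J, A ≠ J → Conn N A → Bnd N K A)
    (he : 2 * J.card ≤ (2 * K + 1) * f N K J) {v : V} (hv : v ∈ J) :
    ∃ D, Iso N K (J \ {v}) D ∧ D.card + 1 ≤ f N K J := by
  obtain ⟨F, hF⟩ := exists_comps (N := N) hsym (J \ {v})
  obtain ⟨D, hD, hc⟩ := exists_iso (K := K) hs (J \ {v})
  have h1 := vcrit hs hsym hJ hlow he hv hF
  have h2 := f_le_sum (K := K) hs hF
  exact ⟨D, hD, by omega⟩

/-- If `Q` is connected, then the complement of a component of `H \ Q` is connected. -/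
lemma conn_compl (hsym : ∀ x y, x ∈ N y → y ∈ N x) {H Q A : Finset V} (hH : Conn N H)
    (hQH : Q ⊆ H) (hQ : Conn N Q) (hA : Closed N A (H \ Q)) : Conn N (H \ A) := by
  have hQA : Q ⊆ H \ A := by
    intro q hq
    refine Finset.mem_sdiff.2 ⟨hQH hq, fun hqA => ?_⟩
    exact (Finset.mem_sdiff.1 (hA.1 hqA)).2 hq
  refine ⟨hQ.1.mono hQA, ?_⟩
  intro B hB hne hneq
  by_cases h1 : (B ∩ Q).Nonempty
  · by_cases h2 : B ∩ Q = Q
    · have hQB : Q ⊆ B := by
        intro q hq
        rw [← h2] at hq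
        exact (Finset.mem_inter.1 hq).1
      set C := (H \ A) \ B with hC
      have hCne : C.Nonempty := by
        rw [Finset.sdiff_nonempty]
        intro hh
        exact hneq (Finset.Subset.antisymm hB hh)
      have hCH : C ⊆ H := Finset.sdiff_subset.trans Finset.sdiff_subset
      have hCneq : C ≠ H := by
        intro hh
        obtain ⟨q, hq⟩ := hQ.1
        have : q ∈ C := by rw [hh]; exact hQH hq
        exact (Finset.mem_sdiff.1 this).2 (hQB hq)
      obtain ⟨x, hx, y, hy, hyC, hyx⟩ := hH.2 C hCH hCne hCneq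
      have hx' := Finset.mem_sdiff.1 hx
      have hx'' := Finset.mem_sdiff.1 hx'.1
      have hyA : y ∉ A := by
        intro hyA
        exact hx''.2 (hA.2 y hyA x (Finset.mem_sdiff.2 ⟨hx''.1, fun hq => hx'.2 (hQB hq)⟩)
          (hsym _ _ hyx))
      have hyB : y ∈ B := by
        by_contra hyB
        exact hyC (Finset.mem_sdiff.2 ⟨Finset.mem_sdiff.2 ⟨hy, hyA⟩, hyB⟩)
      exact ⟨y, hyB, x, hx'.1, hx'.2, hsym _ _ hyx⟩
    · obtain ⟨x, hx, y, hy, hyn, hyx⟩ := hQ.2 (B ∩ Q) Finset.inter_subset_right h1 h2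
      exact ⟨x, (Finset.mem_inter.1 hx).1, y, hQA hy,
        fun hyB => hyn (Finset.mem_inter.2 ⟨hyB, hy⟩), hyx⟩
  · have hBH : B ⊆ H := hB.trans Finset.sdiff_subset
    have hBneq : B ≠ H := by
      rintro rfl
      obtain ⟨q, hq⟩ := hQ.1
      exact h1 ⟨q, Finset.mem_inter.2 ⟨hQH hq, hq⟩⟩
    obtain ⟨x, hx, y, hy, hyB, hyx⟩ := hH.2 B hBH hne hBneq
    have hxA := (Finset.mem_sdiff.1 (hB hx)).2
    have hxQ : x ∉ Q := fun hq => h1 ⟨x, Finset.mem_inter.2 ⟨hx, hq⟩⟩
    refine ⟨x, hx, y, Finset.mem_sdiff.2 ⟨hy, fun hyA => ?_⟩, hyB, hyx⟩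
    exact hxA (hA.2 y hyA x (Finset.mem_sdiff.2 ⟨hBH hx, hxQ⟩) (hsym _ _ hyx))

/-- An exceptional set is the closed neighbourhood of one of its vertices. -/
lemma aty_cen {A : Finset V} (h : Aty N K A) : ∃ x ∈ A, A ⊆ N x := by
  by_contra hcon
  push Not at hcon
  have h0 : f N K A = 0 := by
    apply f_zero
    intro v hv
    have h1 : N v ∩ A ⊂ A := by
      refine Finset.ssubset_iff_subset_ne.2 ⟨Finset.inter_subset_right, fun hh => ?_⟩
      exact hcon v hv (fun y hy => by rw [← hh] at hy; exact (Finset.mem_inter.1 hy).1)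
    have h2 := Finset.card_lt_card h1
    rw [h.1] at h2
    exact h2
  rw [h.2] at h0
  omega

end

end Pool.Agent.Star.MC
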