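import Pool.Agent.Star.MC1

/-!
# Star isolation when the vertices of degree at least `k` induce a graph of maximum degree one

Part 2: a minimal violator.  All centres have exactly `K` closed neighbours, ends have at least
two crossing centres, the components of the complement of a closed neighbourhood of a centre are
tight.
-/

set_option autoImplicit false
set_option linter.unusedSectionVars false
set_option linter.unusedVariables false

namespace Pool.Agent.Star.MC

open Finset Pool.Agent.Star Pool.Agent.Star.Rig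

variable {V : Type*} [DecidableEq V]

/-- A minimal violator of the bound in the class. -/
structure Vio (N : V → Finset V) (K : ℕ) (H : Finset V) : Prop where
  hs : ∀ x, x ∈ N x
  hsym : ∀ x y, x ∈ N y → y ∈ N x
  hK : 2 ≤ K
  sub : ∀ v ∈ H, N v ⊆ H
  mat : ∀ v ∈ H, K ≤ (N v).card → ∀ w ∈ N v, ∀ w' ∈ N v, w ≠ v → w' ≠ v →
    K ≤ (N w).card → K ≤ (N w').card → w = w'
  conn : Conn N H
  exc : 2 * H.card + 1 ≤ (2 * K + 1) * f N K H
  nota : ¬ Aty N K H
  low : ∀ A ⊆ H, A ≠ H → Conn N A → Bnd N K A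

section
variable {N : V → Finset V} {K : ℕ} {H : Finset V}

/-- A survivor is a centre of the whole graph. -/
lemma Vio.surv_cen (h : Vio N K H) {D : Finset V} {v : V}
    (hv : K ≤ (N v ∩ rem N H D).card) : K ≤ (N v).card :=
  hv.trans (Finset.card_le_card Finset.inter_subset_left)

/-- The counting inequality for `H \ Q`. -/
lemma Vio.count (h : Vio N K H) {Q : Finset V} (hQH : Q ⊆ H) (hQ : Q.Nonempty)
    {F : Finset (Finset V)} (hF : Comps N (H \ Q) F) :
    (2 * K + 1) * ∑ U ∈ F, f N K U + 2 * Q.card ≤ 2 * H.card + (atys N K F).card := by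
  have h1 := sum_bound hF (fun U hU => h.low U ((hF.cl U hU).1.trans Finset.sdiff_subset)
    (by
      rintro rfl
      obtain ⟨q, hq⟩ := hQ
      exact (Finset.mem_sdiff.1 ((hF.cl _ hU).1 (hQH hq))).2 hq) (hF.conn U hU))
  have h2 : (H \ Q).card + Q.card = H.card := Finset.card_sdiff_add_card_eq_card hQH
  omega

lemma Vio.fpos (h : Vio N K H) : 0 < f N K H := by
  rcases Nat.eq_zero_or_pos (f N K H) with h1 | h1
  · have := h.exc
    rw [h1] at this
    omega
  · exact h1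

/-- Removing a star set `A` with connected complement `M`. -/
lemma Vio.end_exc (h : Vio N K H) {A : Finset V} {x : V} (hx : x ∈ A) (hAN : A ⊆ N x)
    (hA : A ⊆ H) (hc : A.card = K) : 2 * (H \ A).card ≤ (2 * K + 1) * f N K (H \ A) := by
  have h1 : f N K H ≤ ({x} : Finset V).card + f N K (H \ A) :=
    f_le_add h.hs (by simpa using hx) hA (fun y hy => ⟨x, by simp, hAN hy⟩)
  rw [Finset.card_singleton] at h1
  have h2 : (H \ A).card + A.card = H.card := Finset.card_sdiff_add_card_eq_card hA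
  have h3 := h.exc
  have h4 : (2 * K + 1) * f N K H ≤ (2 * K + 1) * (1 + f N K (H \ A)) :=
    Nat.mul_le_mul_left _ h1
  have h5 : (2 * K + 1) * (1 + f N K (H \ A)) = (2 * K + 1) + (2 * K + 1) * f N K (H \ A) := by
    ring
  omega

/-- No isolating set has at most `f (H \ A)` vertices. -/
lemma Vio.end_no (h : Vio N K H) {A : Finset V} (hA : A ⊆ H) (hc : A.card = K)
    (hM : Conn N (H \ A)) {D : Finset V} (hD : Iso N K H D) (hDc : D.card ≤ f N K (H \ A)) :
    False := by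
  have h1 := f_le hD
  have h2 : (H \ A).card + A.card = H.card := Finset.card_sdiff_add_card_eq_card hA
  have h3 := h.exc
  have h4 : (2 * K + 1) * f N K H ≤ (2 * K + 1) * f N K (H \ A) :=
    Nat.mul_le_mul_left _ (h1.trans hDc)
  have hK := h.hK
  have hne : H \ A ≠ H := by
    intro hh
    rw [hh] at h2
    omega
  rcases h.low (H \ A) Finset.sdiff_subset hne hM with h5 | h5
  · omega
  · have h6 := h5.2
    have h7 := h5.1
    rw [h6] at h4
    omega

/-- The removal of a vertex `w` of `M = H \ A`. -/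
lemma Vio.end_vcrit (h : Vio N K H) {A : Finset V} {x : V} (hx : x ∈ A) (hAN : A ⊆ N x)
    (hA : A ⊆ H) (hc : A.card = K) (hM : Conn N (H \ A)) {w : V} (hw : w ∈ H \ A) :
    ∃ D, Iso N K ((H \ A) \ {w}) D ∧ D.card + 1 ≤ f N K (H \ A) := by
  refine vcrit_iso h.hs h.hsym hM ?_ (h.end_exc hx hAN hA hc) hw
  intro B hB hne hBc
  refine h.low B (hB.trans Finset.sdiff_subset) ?_ hBc
  rintro rfl
  exact hne (Finset.Subset.antisymm hB Finset.sdiff_subset)

/-- An end has a crossing centre. -/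
lemma Vio.cross (h : Vio N K H) {A : Finset V} {x : V} (hx : x ∈ A) (hAN : A ⊆ N x)
    (hA : A ⊆ H) (hc : A.card = K) (hM : Conn N (H \ A)) :
    ∃ y ∈ H \ A, K ≤ (N y).card ∧ ∃ a ∈ A, a ∈ N y := by
  by_contra hcon
  push Not at hcon
  have hKx : K ≤ (N x).card := by rw [← hc]; exact Finset.card_le_card hAN
  have hxH : x ∈ H := hA hx
  -- the choice of `a` and `w`
  obtain ⟨a, haA, w, hw, hwa, hsec⟩ : ∃ a ∈ A, ∃ w ∈ H \ A, w ∈ N a ∧
      ∀ s ∈ A, s ≠ x → K ≤ (N s).card → s ∉ N a → N s ⊆ A := by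
    by_cases hu : ∃ u ∈ A, u ≠ x ∧ K ≤ (N u).card ∧ ¬ N u ⊆ A
    · obtain ⟨u, huA, hux, huK, huN⟩ := hu
      obtain ⟨w, hwu, hwA⟩ := Finset.not_subset.1 huN
      refine ⟨u, huA, w, Finset.mem_sdiff.2 ⟨h.sub u (hA huA) hwu, hwA⟩, hwu, ?_⟩
      intro s hsA hsx hsK hsu
      have : s = u := h.mat x hxH hKx s (hAN hsA) u (hAN huA) hsx hux hsK huK
      subst this
      exact absurd (h.hs s) hsu
    · push Not at hu
      have hneq : A ≠ H := by
        rintro rfl
        obtain ⟨z, hz⟩ := hM.1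
        simp at hz
      obtain ⟨a, haA, w, hw, hwA, hwa⟩ := h.conn.2 A hA ⟨x, hx⟩ hneq
      exact ⟨a, haA, w, Finset.mem_sdiff.2 ⟨hw, hwA⟩, hwa, fun s hsA hsx hsK _ => hu s hsA hsx hsK⟩
  obtain ⟨D', hD', hD'c⟩ := h.end_vcrit hx hAN hA hc hM hw
  have hD'H : D' ⊆ H := hD'.1.trans (Finset.sdiff_subset.trans Finset.sdiff_subset)
  have hsub : ∀ z ∈ rem N H (insert a D'), z ∈ H \ A → z ∈ rem N ((H \ A) \ {w}) D' := by
    intro z hz hzM
    rw [mem_rem] at hz ⊢
    refine ⟨Finset.mem_sdiff.2 ⟨hzM, ?_⟩, fun d hd => hz.2 d (Finset.mem_insert_of_mem hd)⟩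
    rw [Finset.mem_singleton]
    rintro rfl
    exact hz.2 a (Finset.mem_insert_self _ _) hwa
  refine h.end_no hA hc hM (D := insert a D') ⟨?_, ?_⟩
    ((Finset.card_insert_le _ _).trans hD'c)
  · exact Finset.insert_subset (hA haA) hD'H
  · intro s hs
    by_contra hsc
    push Not at hsc
    have hsK := h.surv_cen hsc
    have hsH := (mem_rem.1 hs).1
    by_cases hsA : s ∈ A
    · have hsx : s ≠ x := by
        rintro rfl
        exact (mem_rem.1 hs).2 a (Finset.mem_insert_self _ _) (h.hsym _ _ (hAN haA))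
      have hsN := hsec s hsA hsx hsK ((mem_rem.1 hs).2 a (Finset.mem_insert_self _ _))
      have h1 : N s ∩ rem N H (insert a D') ⊆ A.erase x := by
        intro z hz
        have hz' := Finset.mem_inter.1 hz
        refine Finset.mem_erase.2 ⟨?_, hsN hz'.1⟩
        rintro rfl
        exact (mem_rem.1 hz'.2).2 a (Finset.mem_insert_self _ _) (h.hsym _ _ (hAN haA))
      have h2 := Finset.card_le_card h1
      rw [Finset.card_erase_of_mem hx] at h2
      have := h.hK
      omega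
    · have hsM : s ∈ H \ A := Finset.mem_sdiff.2 ⟨hsH, hsA⟩
      have h1 : N s ∩ rem N H (insert a D') ⊆ N s ∩ rem N ((H \ A) \ {w}) D' := by
        intro z hz
        have hz' := Finset.mem_inter.1 hz
        refine Finset.mem_inter.2 ⟨hz'.1, hsub z hz'.2 ?_⟩
        exact Finset.mem_sdiff.2 ⟨(mem_rem.1 hz'.2).1, fun hzA => hcon s hsM hsK z hzA hz'.1⟩
      have h2 := Finset.card_le_card h1
      have h3 := hD'.2 s (hsub s hs hsM)
      omega

/-- Closed neighbourhoods of centres are connected. -/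
lemma Vio.conn_nb (h : Vio N K H) (c : V) : Conn N (N c) :=
  conn_star h.hsym (h.hs c) (fun _ hx => hx)

/-- The closed neighbourhoods of the centres have exactly `K` elements. -/
lemma Vio.card_nb (h : Vio N K H) {c : V} (hc : c ∈ H) (hcK : K ≤ (N c).card) :
    (N c).card = K := by
  obtain ⟨F, hF⟩ := exists_comps (N := N) h.hsym (H \ N c)
  have hcnt := h.count (h.sub c hc) ⟨c, h.hs c⟩ hF
  have hexc := h.exc
  have hQ : ∀ v ∈ rem N H {c}, ∀ z ∈ rem N H {c}, z ∈ N c → z ∈ N v →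
      (N v ∩ rem N H {c}).card < K := by
    intro v _ z hz hzc _
    exact absurd hzc ((mem_rem.1 hz).2 c (Finset.mem_singleton_self c))
  -- every exceptional component is touched by the partner of `c`
  have htouch : ∀ U ∈ atys N K F, ∃ y ∈ H, y ∈ N c ∧ y ≠ c ∧ K ≤ (N y).card ∧ ∃ a ∈ U, a ∈ N y := by
    intro U hU
    rw [mem_atys] at hU
    obtain ⟨hUF, hUa⟩ := hU
    obtain ⟨x, hx, hUN⟩ := aty_cen hUa
    have hUB := (hF.cl U hUF).1
    have hUH : U ⊆ H := hUB.trans Finset.sdiff_subset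
    have hM := conn_compl h.hsym h.conn (h.sub c hc) (h.conn_nb c) (hF.cl U hUF)
    obtain ⟨y, hy, hyK, a, ha, hay⟩ := h.cross hx hUN hUH hUa.1 hM
    rw [Finset.mem_sdiff] at hy
    have hyc : y ∈ N c := by
      by_contra hyc
      exact hy.2 ((hF.cl U hUF).2 a ha y (Finset.mem_sdiff.2 ⟨hy.1, hyc⟩) (h.hsym _ _ hay))
    refine ⟨y, hy.1, hyc, ?_, hyK, a, ha, hay⟩
    rintro rfl
    exact (Finset.mem_sdiff.1 (hUB ha)).2 hay
  have hle : ∃ E ⊆ H, E.card ≤ 1 ∧ ∀ U ∈ atys N K F, ∃ e ∈ ({c} : Finset V) ∪ E, ∃ z ∈ U, z ∈ N e := by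
    rcases (atys N K F).eq_empty_or_nonempty with h0 | ⟨U0, hU0⟩
    · refine ⟨∅, Finset.empty_subset _, by simp, ?_⟩
      intro U hU
      rw [h0] at hU
      exact absurd hU (Finset.notMem_empty U)
    · obtain ⟨y, hyH, hyc, hyne, hyK, _⟩ := htouch U0 hU0
      refine ⟨{y}, by simpa using hyH, by simp, ?_⟩
      intro U hU
      obtain ⟨y', hyH', hyc', hyne', hyK', a, ha, hay⟩ := htouch U hU
      have : y' = y := h.mat c hc hcK y' hyc' y hyc hyne' hyne hyK' hyK
      subst this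
      exact ⟨y', by simp, a, ha, hay⟩
  obtain ⟨E, hEH, hEc, hE⟩ := hle
  have h1 := f_le_gen' h.hs hF (T := atys N K F) (D0 := {c}) (E := E) subset_rfl
    (by simpa using hc) hEH hQ hE
  rw [Finset.card_singleton] at h1
  have h2 : f N K H ≤ ∑ U ∈ F, f N K U + 1 := by
    have := f_le_gen' h.hs hF (T := ∅) (D0 := {c}) (E := ∅) (Finset.empty_subset _)
      (by simpa using hc) (Finset.empty_subset _) hQ (fun U hU => absurd hU (Finset.notMem_empty U))
    simp only [Finset.card_empty, Finset.card_singleton] at this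
    omega
  obtain ⟨j, hj⟩ : ∃ j, ∑ U ∈ F, f N K U + 1 = f N K H + j := Nat.exists_eq_add_of_le h2
  have h3 : (2 * K + 1) * ∑ U ∈ F, f N K U + (2 * K + 1) =
      (2 * K + 1) * f N K H + (2 * K + 1) * j := by
    rw [← Nat.mul_add, ← hj]; ring
  have h4 : j ≤ (2 * K + 1) * j := Nat.le_mul_of_pos_left _ (by omega)
  omega

/-- An end has two crossing centres. -/
lemma Vio.cross_two (h : Vio N K H) {A : Finset V} {x : V} (hx : x ∈ A) (hAN : A ⊆ N x)
    (hA : A ⊆ H) (hc : A.card = K) (hM : Conn N (H \ A)) :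
    ∃ y ∈ H \ A, ∃ y' ∈ H \ A, y ≠ y' ∧ K ≤ (N y).card ∧ K ≤ (N y').card ∧
      (∃ a ∈ A, a ∈ N y) ∧ ∃ a ∈ A, a ∈ N y' := by
  obtain ⟨y, hy, hyK, a, haA, hay⟩ := h.cross hx hAN hA hc hM
  by_contra hcon
  push Not at hcon
  have huni : ∀ s ∈ H \ A, s ≠ y → K ≤ (N s).card → ∀ b ∈ A, b ∉ N s := by
    intro s hs hsy hsK b hb hbs
    exact hcon y hy s hs (Ne.symm hsy) hyK hsK ⟨a, haA, hay⟩ b hb hbs
  obtain ⟨D', hD', hD'c⟩ := h.end_vcrit hx hAN hA hc hM hy
  have hD'H : D' ⊆ H := hD'.1.trans (Finset.sdiff_subset.trans Finset.sdiff_subset)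
  have hya : y ∈ N a := h.hsym _ _ hay
  have hsub : ∀ z ∈ rem N H (insert a D'), z ∈ H \ A → z ∈ rem N ((H \ A) \ {y}) D' := by
    intro z hz hzM
    rw [mem_rem] at hz ⊢
    refine ⟨Finset.mem_sdiff.2 ⟨hzM, ?_⟩, fun d hd => hz.2 d (Finset.mem_insert_of_mem hd)⟩
    rw [Finset.mem_singleton]
    rintro rfl
    exact hz.2 a (Finset.mem_insert_self _ _) hya
  refine h.end_no hA hc hM (D := insert a D') ⟨?_, ?_⟩
    ((Finset.card_insert_le _ _).trans hD'c)
  · exact Finset.insert_subset (hA haA) hD'H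
  · intro s hs
    by_contra hsc
    push Not at hsc
    have hsK := h.surv_cen hsc
    have hsH := (mem_rem.1 hs).1
    have hcard := h.card_nb hsH hsK
    have hNs : N s ∩ rem N H (insert a D') = N s :=
      Finset.eq_of_subset_of_card_le Finset.inter_subset_left (by omega)
    have hNs' : ∀ z ∈ N s, z ∈ rem N H (insert a D') := by
      intro z hz
      rw [← hNs] at hz
      exact (Finset.mem_inter.1 hz).2
    by_cases hsA : s ∈ A
    · exact (mem_rem.1 (hNs' x (h.hsym _ _ (hAN hsA)))).2 a (Finset.mem_insert_self _ _)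
        (h.hsym _ _ (hAN haA))
    · have hsM : s ∈ H \ A := Finset.mem_sdiff.2 ⟨hsH, hsA⟩
      have hsy : s ≠ y := by
        rintro rfl
        exact (mem_rem.1 hs).2 a (Finset.mem_insert_self _ _) hya
      have h1 : N s ∩ rem N H (insert a D') ⊆ N s ∩ rem N ((H \ A) \ {y}) D' := by
        intro z hz
        have hz' := Finset.mem_inter.1 hz
        refine Finset.mem_inter.2 ⟨hz'.1, hsub z hz'.2 ?_⟩
        exact Finset.mem_sdiff.2 ⟨(mem_rem.1 hz'.2).1,
          fun hzA => huni s hsM hsy hsK z hzA hz'.1⟩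
      have h2 := Finset.card_le_card h1
      have h3 := hD'.2 s (hsub s hs hsM)
      omega

/-- (L1) For a centre `c`: `e(H) = 1`, `f(H) = 1 + ∑ f(L)` and all components `L` of `H \ N c` are
tight. -/
lemma Vio.tight (h : Vio N K H) {c : V} (hc : c ∈ H) (hcK : K ≤ (N c).card)
    {F : Finset (Finset V)} (hF : Comps N (H \ N c) F) :
    (2 * K + 1) * f N K H = 2 * H.card + 1 ∧ f N K H = ∑ U ∈ F, f N K U + 1 ∧
      ∀ U ∈ F, (2 * K + 1) * f N K U = 2 * U.card := by
  have hcnt := h.count (h.sub c hc) ⟨c, h.hs c⟩ hF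
  have hexc := h.exc
  have hcard := h.card_nb hc hcK
  have hno : atys N K F = ∅ := by
    rw [Finset.eq_empty_iff_forall_notMem]
    intro U hU
    rw [mem_atys] at hU
    obtain ⟨hUF, hUa⟩ := hU
    obtain ⟨x, hx, hUN⟩ := aty_cen hUa
    have hUB := (hF.cl U hUF).1
    have hUH : U ⊆ H := hUB.trans Finset.sdiff_subset
    have hM := conn_compl h.hsym h.conn (h.sub c hc) (h.conn_nb c) (hF.cl U hUF)
    have key : ∀ y ∈ H \ U, (∃ a ∈ U, a ∈ N y) → y ∈ N c ∧ y ≠ c := by
      rintro y hy ⟨a, ha, hay⟩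
      rw [Finset.mem_sdiff] at hy
      constructor
      · by_contra hyc
        exact hy.2 ((hF.cl U hUF).2 a ha y (Finset.mem_sdiff.2 ⟨hy.1, hyc⟩) (h.hsym _ _ hay))
      · rintro rfl
        exact (Finset.mem_sdiff.1 (hUB ha)).2 hay
    obtain ⟨y, hy, y', hy', hne, hyK, hyK', ha, ha'⟩ := h.cross_two hx hUN hUH hUa.1 hM
    obtain ⟨h1, h2⟩ := key y hy ha
    obtain ⟨h3, h4⟩ := key y' hy' ha'
    exact hne (h.mat c hc hcK y h1 y' h3 h2 h4 hyK hyK')
  rw [hno, Finset.card_empty, hcard] at hcnt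
  have h2 : f N K H ≤ ∑ U ∈ F, f N K U + 1 := by
    have := f_le_gen' (K := K) h.hs hF (T := ∅) (D0 := {c}) (E := ∅) (Finset.empty_subset _)
      (by simpa using hc) (Finset.empty_subset _)
      (by
        intro v _ z hz hzc _
        exact absurd hzc ((mem_rem.1 hz).2 c (Finset.mem_singleton_self c)))
      (fun U hU => absurd hU (Finset.notMem_empty U))
    simp only [Finset.card_empty, Finset.card_singleton] at this
    omega
  obtain ⟨j, hj⟩ : ∃ j, ∑ U ∈ F, f N K U + 1 = f N K H + j := Nat.exists_eq_add_of_le h2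
  have h3 : (2 * K + 1) * ∑ U ∈ F, f N K U + (2 * K + 1) =
      (2 * K + 1) * f N K H + (2 * K + 1) * j := by
    rw [← Nat.mul_add, ← hj]; ring
  have h4 : j ≤ (2 * K + 1) * j := Nat.le_mul_of_pos_left _ (by omega)
  have hj0 : j = 0 := by omega
  subst hj0
  have hb : ∀ U ∈ F, (2 * K + 1) * f N K U ≤ 2 * U.card := by
    intro U hU
    rcases h.low U ((hF.cl U hU).1.trans Finset.sdiff_subset)
      (by
        rintro rfl
        exact (Finset.mem_sdiff.1 ((hF.cl _ hU).1 hc)).2 (h.hs c)) (hF.conn U hU) with h5 | h5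
    · exact h5
    · exfalso
      have : U ∈ atys N K F := mem_atys.2 ⟨hU, h5⟩
      rw [hno] at this
      exact absurd this (Finset.notMem_empty U)
  have hcc : (H \ N c).card + (N c).card = H.card :=
    Finset.card_sdiff_add_card_eq_card (h.sub c hc)
  have hsum : ∑ U ∈ F, (2 * K + 1) * f N K U = ∑ U ∈ F, 2 * U.card := by
    rw [← Finset.mul_sum, ← Finset.mul_sum, ← hF.card]
    have : ∑ U ∈ F, (2 * K + 1) * f N K U ≤ ∑ U ∈ F, 2 * U.card := Finset.sum_le_sum hb
    rw [← Finset.mul_sum, ← Finset.mul_sum, ← hF.card] at this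
    omega
  have heq := (Finset.sum_eq_sum_iff_of_le hb).1 hsum
  rw [← Finset.mul_sum, ← Finset.mul_sum, ← hF.card] at hsum
  exact ⟨by omega, by omega, heq⟩

/-- (SEP) every vertex outside `N c` lies in the closed neighbourhood of a centre far from `c`. -/
lemma Vio.sep (h : Vio N K H) {c v : V} (hc : c ∈ H) (hcK : K ≤ (N c).card) (hv : v ∈ H)
    (hvc : v ∉ N c) : ∃ c' ∈ H, K ≤ (N c').card ∧ v ∈ N c' ∧ Disjoint (N c') (N c) := by
  classical
  obtain ⟨F, hF⟩ := exists_comps (N := N) h.hsym (H \ N c)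
  obtain ⟨h1, h2, h3⟩ := h.tight hc hcK hF
  obtain ⟨U, hU, hvU⟩ := hF.cover v (Finset.mem_sdiff.2 ⟨hv, hvc⟩)
  have hUB : ∀ W ∈ F, W ⊆ H := fun W hW => (hF.cl W hW).1.trans Finset.sdiff_subset
  obtain ⟨D', hD', hD'c⟩ := vcrit_iso (K := K) h.hs h.hsym (hF.conn U hU)
    (fun B hB hne hBc => h.low B (hB.trans (hUB U hU))
      (by
        rintro rfl
        exact (Finset.mem_sdiff.1 ((hF.cl U hU).1 (hB hc))).2 (h.hs c)) hBc)
    (le_of_eq (h3 U hU).symm) hvU
  have h0 : ∀ W : Finset V, ∃ D, Iso N K W D ∧ D.card = f N K W := fun W => exists_iso h.hs W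
  choose D hD1 hD2 using h0
  set DD : Finset V := insert c (D' ∪ (F.erase U).biUnion D) with hDD
  have hDDH : DD ⊆ H := by
    intro x hx
    rcases Finset.mem_insert.1 hx with rfl | hx
    · exact hc
    · rcases Finset.mem_union.1 hx with hx | hx
      · exact hUB U hU (Finset.sdiff_subset (hD'.1 hx))
      · obtain ⟨W, hW, hx⟩ := Finset.mem_biUnion.1 hx
        exact hUB W (Finset.mem_of_mem_erase hW) ((hD1 W).1 hx)
  have hDDc : DD.card < f N K H := by
    have e1 : DD.card ≤ (D' ∪ (F.erase U).biUnion D).card + 1 := Finset.card_insert_le _ _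
    have e2 : (D' ∪ (F.erase U).biUnion D).card ≤ D'.card + ((F.erase U).biUnion D).card :=
      Finset.card_union_le _ _
    have e3 : ((F.erase U).biUnion D).card ≤ ∑ W ∈ F.erase U, f N K W := by
      refine Finset.card_biUnion_le.trans (le_of_eq ?_)
      exact Finset.sum_congr rfl (fun W _ => hD2 W)
    have e4 : ∑ W ∈ F.erase U, f N K W + f N K U = ∑ W ∈ F, f N K W :=
      Finset.sum_erase_add F (fun W => f N K W) hU
    omega
  have hniso : ¬ Iso N K H DD := fun hh => by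
    have := f_le hh
    omega
  have hsurv : ∃ s ∈ rem N H DD, K ≤ (N s ∩ rem N H DD).card := by
    by_contra hcon
    push Not at hcon
    exact hniso ⟨hDDH, hcon⟩
  obtain ⟨s, hs, hsc⟩ := hsurv
  have hsK := h.surv_cen hsc
  have hsH := (mem_rem.1 hs).1
  have hcard := h.card_nb hsH hsK
  have hNs : N s ∩ rem N H DD = N s :=
    Finset.eq_of_subset_of_card_le Finset.inter_subset_left (by omega)
  have hNs' : ∀ z ∈ N s, z ∈ rem N H DD := by
    intro z hz
    rw [← hNs] at hz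
    exact (Finset.mem_inter.1 hz).2
  have hzc : ∀ z ∈ N s, z ∉ N c := fun z hz =>
    (mem_rem.1 (hNs' z hz)).2 c (Finset.mem_insert_self _ _)
  have hzB : ∀ z ∈ N s, z ∈ H \ N c := fun z hz =>
    Finset.mem_sdiff.2 ⟨h.sub s hsH hz, hzc z hz⟩
  obtain ⟨W, hW, hsW⟩ := hF.cover s (hzB s (h.hs s))
  have hNW : N s ⊆ W := fun z hz => (hF.cl W hW).2 s hsW z (hzB z hz) hz
  have hWU : W = U := by
    by_contra hne
    have e1 : ∀ z ∈ N s, z ∈ rem N W (D W) := by
      intro z hz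
      refine mem_rem.2 ⟨hNW hz, fun d hd => (mem_rem.1 (hNs' z hz)).2 d ?_⟩
      refine Finset.mem_insert_of_mem (Finset.mem_union_right _ ?_)
      exact Finset.mem_biUnion.2 ⟨W, Finset.mem_erase.2 ⟨hne, hW⟩, hd⟩
    have e2 := (hD1 W).2 s (e1 s (h.hs s))
    have e3 : N s ⊆ N s ∩ rem N W (D W) := fun z hz => Finset.mem_inter.2 ⟨hz, e1 z hz⟩
    have e4 := Finset.card_le_card e3
    omega
  subst hWU
  refine ⟨s, hsH, hsK, ?_, ?_⟩
  · by_contra hvs
    have e1 : ∀ z ∈ N s, z ∈ rem N (W \ {v}) D' := by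
      intro z hz
      refine mem_rem.2 ⟨Finset.mem_sdiff.2 ⟨hNW hz, ?_⟩,
        fun d hd => (mem_rem.1 (hNs' z hz)).2 d ?_⟩
      · rw [Finset.mem_singleton]
        rintro rfl
        exact hvs hz
      · exact Finset.mem_insert_of_mem (Finset.mem_union_left _ hd)
    have e2 := hD'.2 s (e1 s (h.hs s))
    have e3 : N s ⊆ N s ∩ rem N (W \ {v}) D' := fun z hz => Finset.mem_inter.2 ⟨hz, e1 z hz⟩
    have e4 := Finset.card_le_card e3
    omega
  · rw [Finset.disjoint_left]
    exact hzc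

/-- A centre exists. -/
lemma Vio.exists_cen (h : Vio N K H) : ∃ c ∈ H, K ≤ (N c).card := by
  by_contra hcon
  push Not at hcon
  have h0 : f N K H = 0 := by
    apply f_zero
    intro v hv
    exact lt_of_le_of_lt (Finset.card_le_card Finset.inter_subset_left) (hcon v hv)
  have := h.fpos
  omega

/-- There is an end. -/
lemma Vio.exists_end (h : Vio N K H) : ∃ x ∈ H, K ≤ (N x).card ∧ Conn N (H \ N x) := by
  classical
  -- pairs (centre, component)
  let P : Finset (V × Finset V) := (H ×ˢ H.powerset).filter (fun p =>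
    K ≤ (N p.1).card ∧ Conn N p.2 ∧ Closed N p.2 (H \ N p.1))
  have hPmem : ∀ p, p ∈ P ↔ p.1 ∈ H ∧ p.2 ⊆ H ∧ K ≤ (N p.1).card ∧ Conn N p.2 ∧
      Closed N p.2 (H \ N p.1) := by
    intro p
    simp [P, and_assoc]
  obtain ⟨c, hc, hcK⟩ := h.exists_cen
  have hne0 : ∀ c ∈ H, K ≤ (N c).card → (H \ N c).Nonempty := by
    intro c hc hcK
    rw [Finset.sdiff_nonempty]
    intro hh
    have hHc : H = N c := Finset.Subset.antisymm hh (h.sub c hc)
    have hcard := h.card_nb hc hcK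
    rw [← hHc] at hcard
    have h1 := mul_f_le (K := K) h.hs H
    have h2 := h.fpos
    have hK := h.hK
    have h3 : f N K H ≤ 1 := by
      by_contra h3
      push Not at h3
      have : K * 2 ≤ K * f N K H := Nat.mul_le_mul_left _ h3
      omega
    exact h.nota ⟨hcard, by omega⟩
  have hPne : P.Nonempty := by
    obtain ⟨y, hy⟩ := hne0 c hc hcK
    obtain ⟨L, hyL, hLc, hLcl⟩ := exists_comp h.hsym hy
    exact ⟨(c, L), (hPmem _).2 ⟨hc, hLcl.1.trans Finset.sdiff_subset, hcK, hLc, hLcl⟩⟩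
  obtain ⟨⟨x, L⟩, hp, hmax⟩ := Finset.exists_max_image P (fun p => p.2.card) hPne
  obtain ⟨hx, hLH, hxK, hLc, hLcl⟩ := (hPmem _).1 hp
  refine ⟨x, hx, hxK, ?_⟩
  by_cases hL : L = H \ N x
  · rw [← hL]; exact hLc
  exfalso
  obtain ⟨y, hy, hyL⟩ : ∃ y ∈ H \ N x, y ∉ L := by
    by_contra hcon
    push Not at hcon
    exact hL (Finset.Subset.antisymm hLcl.1 hcon)
  obtain ⟨F, hF⟩ := exists_comps (N := N) h.hsym (H \ N x)
  obtain ⟨U, hU, hyU⟩ := hF.cover y hy
  obtain ⟨-, -, htight⟩ := h.tight hx hxK hF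
  have hUt := htight U hU
  have hUpos : 0 < U.card := Finset.card_pos.2 ⟨y, hyU⟩
  have hfpos : f N K U ≠ 0 := by
    intro h0
    rw [h0] at hUt
    omega
  -- a centre in `U`
  obtain ⟨c', hc'U, hc'⟩ : ∃ c' ∈ U, K ≤ (N c' ∩ U).card := by
    by_contra hcon
    push Not at hcon
    exact hfpos (f_zero hcon)
  have hUH : U ⊆ H := (hF.cl U hU).1.trans Finset.sdiff_subset
  have hc'H := hUH hc'U
  have hc'K : K ≤ (N c').card := hc'.trans (Finset.card_le_card Finset.inter_subset_left)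
  have hcard' := h.card_nb hc'H hc'K
  have hNU : N c' ⊆ U := by
    have : N c' ∩ U = N c' := Finset.eq_of_subset_of_card_le Finset.inter_subset_left (by omega)
    rw [← this]
    exact Finset.inter_subset_right
  have hUL : Disjoint U L := by
    refine Closed.disj (hF.conn U hU) hLc (hF.cl U hU) hLcl ?_
    rintro rfl
    exact hyL hyU
  -- the component of `x` in `H \ N c'`
  have hxN : N x ⊆ H \ N c' := by
    intro z hz
    refine Finset.mem_sdiff.2 ⟨h.sub x hx hz, fun hzc => ?_⟩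
    exact (Finset.mem_sdiff.1 ((hF.cl U hU).1 (hNU hzc))).2 hz
  obtain ⟨L', hxL', hL'c, hL'cl⟩ := exists_comp h.hsym (hxN (h.hs x))
  have hNL' : N x ⊆ L' := fun z hz => hL'cl.2 x hxL' z (hxN hz) hz
  have hLB : L ⊆ H \ N c' := by
    intro z hz
    exact Finset.mem_sdiff.2 ⟨hLH hz, fun hzc => Finset.disjoint_left.1 hUL (hNU hzc) hz⟩
  have hLneH : L ≠ H := by
    rintro rfl
    exact (Finset.mem_sdiff.1 (hLcl.1 hx)).2 (h.hs x)
  obtain ⟨p, hpL, q, hq, hqL, hqp⟩ := h.conn.2 L hLH hLc.1 hLneH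
  have hqN : q ∈ N x := by
    by_contra hqN
    exact hqL (hLcl.2 p hpL q (Finset.mem_sdiff.2 ⟨hq, hqN⟩) hqp)
  have hpL' : p ∈ L' := hL'cl.2 q (hNL' hqN) p (hLB hpL) (h.hsym _ _ hqp)
  have hLL' : L ⊆ L' := hLc.subset_of_closed hLB hL'cl hpL hpL'
  have hlt : L.card < L'.card := by
    refine Finset.card_lt_card (Finset.ssubset_iff_subset_ne.2 ⟨hLL', ?_⟩)
    rintro rfl
    exact (Finset.mem_sdiff.1 (hLcl.1 hxL')).2 (h.hs x)
  have := hmax (c', L') ((hPmem _).2 ⟨hc'H, hL'cl.1.trans Finset.sdiff_subset, hc'K, hL'c, hL'cl⟩)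
  simp only at this
  omega

end

end Pool.Agent.Star.MC
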