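import Pool.Agent.Star.MC2

/-!
# Star isolation when the vertices of degree at least `k` induce a graph of maximum degree one

Part 3: the double counting and the final contradiction.
-/

set_option autoImplicit false
set_option linter.unusedSectionVars false
set_option linter.unusedVariables false

namespace Pool.Agent.Star.MC

open Finset Pool.Agent.Star Pool.Agent.Star.Rig

variable {V : Type*} [DecidableEq V]

section
variable {N : V → Finset V} {K : ℕ} {H : Finset V}

lemma conn_pend (hsym : ∀ x y, x ∈ N y → y ∈ N x) {Q P : Finset V} (hQ : Conn N Q)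
    (hP : ∀ z ∈ P, ∃ q ∈ Q, z ∈ N q) : Conn N (Q ∪ P) := by
  refine ⟨hQ.1.mono Finset.subset_union_left, ?_⟩
  intro B hB hne hneq
  by_cases h1 : (B ∩ Q).Nonempty
  · by_cases h2 : B ∩ Q = Q
    · have hQB : Q ⊆ B := by
        intro q hq
        rw [← h2] at hq
        exact (Finset.mem_inter.1 hq).1
      obtain ⟨z, hz, hzB⟩ : ∃ z ∈ Q ∪ P, z ∉ B := by
        by_contra hcon
        push Not at hcon
        exact hneq (Finset.Subset.antisymm hB hcon)
      have hzP : z ∈ P := by
        rcases Finset.mem_union.1 hz with h | h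
        · exact absurd (hQB h) hzB
        · exact h
      obtain ⟨q, hq, hzq⟩ := hP z hzP
      exact ⟨q, hQB hq, z, hz, hzB, hzq⟩
    · obtain ⟨x, hx, y, hy, hyn, hyx⟩ := hQ.2 (B ∩ Q) Finset.inter_subset_right h1 h2
      exact ⟨x, (Finset.mem_inter.1 hx).1, y, Finset.mem_union_left _ hy,
        fun hyB => hyn (Finset.mem_inter.2 ⟨hyB, hy⟩), hyx⟩
  · obtain ⟨z, hz⟩ := hne
    have hzP : z ∈ P := by
      rcases Finset.mem_union.1 (hB hz) with h | h
      · exact absurd ⟨z, Finset.mem_inter.2 ⟨hz, h⟩⟩ h1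
      · exact h
    obtain ⟨q, hq, hzq⟩ := hP z hzP
    exact ⟨z, hz, q, Finset.mem_union_left _ hq,
      fun hqB => h1 ⟨q, Finset.mem_inter.2 ⟨hqB, hq⟩⟩, hsym _ _ hzq⟩

/-- The double counting inequality. -/
lemma Vio.dc (h : Vio N K H) {D0 Q B : Finset V} (hD0 : D0 ⊆ H) (hQH : Q ⊆ H)
    (hQc : Conn N Q)
    (hbad : ∀ v ∈ H, K ≤ (N v).card → (∀ z ∈ N v, ∀ d ∈ D0, z ∉ N d) → ∀ z ∈ N v, z ∉ Q)
    (hBH : B ⊆ H) (hB : ∀ y ∈ Q, K ≤ (N y).card → ¬ N y ⊆ Q → y ∈ B) :
    ∃ j t : ℕ, 2 * t ≤ B.card * (1 + j) ∧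
      2 * Q.card + (2 * K + 1) * j + 1 ≤ (2 * K + 1) * D0.card + t := by
  classical
  obtain ⟨F, hF⟩ := exists_comps (N := N) h.hsym (H \ Q)
  have hcnt := h.count hQH hQc.1 hF
  have hexc := h.exc
  have hQ : ∀ v ∈ rem N H D0, ∀ z ∈ rem N H D0, z ∈ Q → z ∈ N v →
      (N v ∩ rem N H D0).card < K := by
    intro v hv z hz hzQ hzv
    by_contra hcon
    push Not at hcon
    have hvH := (mem_rem.1 hv).1
    have hvK := h.surv_cen hcon
    have hcard := h.card_nb hvH hvK
    have hNv : N v ∩ rem N H D0 = N v :=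
      Finset.eq_of_subset_of_card_le Finset.inter_subset_left (by omega)
    have hNv' : ∀ z ∈ N v, ∀ d ∈ D0, z ∉ N d := by
      intro z hz
      rw [← hNv] at hz
      exact (mem_rem.1 (Finset.mem_inter.1 hz).2).2
    exact hbad v hvH hvK hNv' z hzv hzQ
  have h2 : f N K H ≤ ∑ U ∈ F, f N K U + D0.card := by
    have := f_le_gen' (K := K) h.hs hF (T := ∅) (D0 := D0) (E := ∅) (Finset.empty_subset _)
      hD0 (Finset.empty_subset _) hQ (fun U hU => absurd hU (Finset.notMem_empty U))
    simp only [Finset.card_empty] at this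
    omega
  obtain ⟨j, hj⟩ : ∃ j, ∑ U ∈ F, f N K U + D0.card = f N K H + j := Nat.exists_eq_add_of_le h2
  have h3 : (2 * K + 1) * ∑ U ∈ F, f N K U + (2 * K + 1) * D0.card =
      (2 * K + 1) * f N K H + (2 * K + 1) * j := by
    rw [← Nat.mul_add, hj, Nat.mul_add]
  refine ⟨j, (atys N K F).card, ?_, by omega⟩
  -- the members touched by `b`
  let T : V → Finset (Finset V) := fun b => (atys N K F).filter (fun U => ∃ z ∈ U, z ∈ N b)
  have hT : ∀ b ∈ B, (T b).card ≤ 1 + j := by
    intro b hb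
    have := f_le_gen' (K := K) h.hs hF (T := T b) (D0 := D0) (E := {b})
      (Finset.filter_subset _ _) hD0 (by simpa using hBH hb) hQ
      (by
        intro U hU
        obtain ⟨z, hz, hzb⟩ := (Finset.mem_filter.1 hU).2
        exact ⟨b, by simp, z, hz, hzb⟩)
    rw [Finset.card_singleton] at this
    omega
  have htwo : ∀ U ∈ atys N K F, 2 ≤ (B.filter (fun b => ∃ z ∈ U, z ∈ N b)).card := by
    intro U hU
    rw [mem_atys] at hU
    obtain ⟨hUF, hUa⟩ := hU
    obtain ⟨x, hx, hUN⟩ := aty_cen hUa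
    have hUB := (hF.cl U hUF).1
    have hUH : U ⊆ H := hUB.trans Finset.sdiff_subset
    have hM := conn_compl h.hsym h.conn hQH hQc (hF.cl U hUF)
    have key : ∀ y ∈ H \ U, K ≤ (N y).card → (∃ a ∈ U, a ∈ N y) →
        y ∈ B.filter (fun b => ∃ z ∈ U, z ∈ N b) := by
      rintro y hy hyK ⟨a, ha, hay⟩
      rw [Finset.mem_sdiff] at hy
      have hyQ : y ∈ Q := by
        by_contra hyc
        exact hy.2 ((hF.cl U hUF).2 a ha y (Finset.mem_sdiff.2 ⟨hy.1, hyc⟩) (h.hsym _ _ hay))
      refine Finset.mem_filter.2 ⟨hB y hyQ hyK ?_, a, ha, hay⟩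
      intro hh
      exact (Finset.mem_sdiff.1 (hUB ha)).2 (hh hay)
    obtain ⟨y, hy, y', hy', hne, hyK, hyK', ha, ha'⟩ := h.cross_two hx hUN hUH hUa.1 hM
    have hsub : ({y, y'} : Finset V) ⊆ B.filter (fun b => ∃ z ∈ U, z ∈ N b) := by
      intro z hz
      rcases Finset.mem_insert.1 hz with rfl | hz
      · exact key z hy hyK ha
      · rw [Finset.mem_singleton.1 hz]
        exact key y' hy' hyK' ha'
    have := Finset.card_le_card hsub
    rwa [Finset.card_pair hne] at this
  have hsum : ∑ b ∈ B, (T b).card =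
      ∑ U ∈ atys N K F, (B.filter (fun b => ∃ z ∈ U, z ∈ N b)).card := by
    simp only [T, Finset.card_filter]
    exact Finset.sum_comm
  calc 2 * (atys N K F).card = ∑ U ∈ atys N K F, 2 := by
        rw [Finset.sum_const, smul_eq_mul, Nat.mul_comm]
    _ ≤ ∑ U ∈ atys N K F, (B.filter (fun b => ∃ z ∈ U, z ∈ N b)).card := Finset.sum_le_sum htwo
    _ = ∑ b ∈ B, (T b).card := hsum.symm
    _ ≤ ∑ b ∈ B, (1 + j) := Finset.sum_le_sum hT
    _ = B.card * (1 + j) := by rw [Finset.sum_const, smul_eq_mul]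

/-- If the closed neighbourhoods of two centres `c`, `c'` meet and `c'` is not adjacent to `c`,
then `c'` has a partner, and the closed neighbourhood of the partner avoids that of `c`. -/
lemma Vio.meet (h : Vio N K H) {c c' z : V} (hc : c ∈ H) (hcK : K ≤ (N c).card) (hc' : c' ∈ H)
    (hcK' : K ≤ (N c').card) (hn : c' ∉ N c) (hz : z ∈ N c) (hz' : z ∈ N c') :
    ∃ p ∈ H, p ∈ N c' ∧ p ≠ c' ∧ K ≤ (N p).card ∧ Disjoint (N p) (N c) := by
  obtain ⟨p, hp, hpK, hcp, hd⟩ := h.sep hc hcK hc' hn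
  refine ⟨p, hp, h.hsym _ _ hcp, ?_, hpK, hd⟩
  rintro rfl
  exact Finset.disjoint_left.1 hd hz' hz

/-- The centres whose closed neighbourhoods contain a vertex of `N x ∩ N u`, for partners
`x`, `u`. -/
lemma Vio.triple (h : Vio N K H) {x u v z : V} (hx : x ∈ H) (hxK : K ≤ (N x).card)
    (hu : u ∈ N x) (hux : u ≠ x) (huK : K ≤ (N u).card) (hv : v ∈ H) (hvK : K ≤ (N v).card)
    (hzx : z ∈ N x) (hzu : z ∈ N u) (hzv : z ∈ N v) : v = x ∨ v = u := by
  by_contra hcon
  push Not at hcon
  obtain ⟨hvx, hvu⟩ := hcon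
  have h1 : v ∉ N x := fun hh => hvu (h.mat x hx hxK v hh u hu hvx hux hvK huK)
  have h2 : x ∉ N v := fun hh => h1 (h.hsym _ _ hh)
  obtain ⟨p, hp, hpx, hpne, hpK, hd⟩ := h.meet hv hvK hx hxK h2 hzv hzx
  have h3 : p = u := h.mat x hx hxK p hpx u hu hpne hux hpK huK
  subst h3
  exact Finset.disjoint_left.1 hd hzu hzv

/-- The configuration of an end `x` with partner `u`, a crossing centre `y` with partner `p`. -/
structure Cr (N : V → Finset V) (K : ℕ) (H : Finset V) (x u y p : V) : Prop where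
  hx : x ∈ H
  hxK : K ≤ (N x).card
  hu : u ∈ N x
  hux : u ≠ x
  huK : K ≤ (N u).card
  hy : y ∈ H
  hyK : K ≤ (N y).card
  hyx : y ∉ N x
  mt : ∃ a, a ∈ N x ∧ a ∈ N y
  hp : p ∈ N y
  hpy : p ≠ y
  hpK : K ≤ (N p).card
  duy : Disjoint (N u) (N y)
  dpx : Disjoint (N p) (N x)

lemma Vio.cr (h : Vio N K H) {x y a : V} (hx : x ∈ H) (hxK : K ≤ (N x).card) (hy : y ∈ H)
    (hyK : K ≤ (N y).card) (hyx : y ∉ N x) (ha : a ∈ N x) (hay : a ∈ N y) :
    ∃ u p, Cr N K H x u y p := by
  obtain ⟨u, hu, hux, hune, huK, hd⟩ := h.meet hy hyK hx hxK (fun hh => hyx (h.hsym _ _ hh)) hay ha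
  obtain ⟨p, hp, hpy, hpne, hpK, hd'⟩ := h.meet hx hxK hy hyK hyx ha hay
  exact ⟨u, p, hx, hxK, hux, hune, huK, hy, hyK, hyx, ⟨a, ha, hay⟩, hpy, hpne, hpK, hd, hd'⟩

lemma Vio.claimA (h : Vio N K H) {x u y p : V} (r : Cr N K H x u y p) {c w : V} (hc : c ∈ H)
    (hcK : K ≤ (N c).card) (hcu : c ≠ u) (hwc : w ∈ N c) (hwu : w ∈ N u) (hwx : w ∉ N x) :
    ¬ Disjoint (N y) (N c) := by
  intro hd
  have huH : u ∈ H := h.sub x r.hx r.hu
  have hxu : x ∈ N u := h.hsym _ _ r.hu
  have hcx : c ≠ x := by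
    rintro rfl
    exact hwx hwc
  have hcNu : c ∉ N u := fun hh =>
    hcx (h.mat u huH r.huK c hh x hxu hcu (Ne.symm r.hux) hcK r.hxK)
  have huNc : u ∉ N c := fun hh => hcNu (h.hsym _ _ hh)
  have hdxc : Disjoint (N x) (N c) := by
    obtain ⟨q, hq, hqu, hqne, hqK, hdq⟩ := h.meet hc hcK huH r.huK huNc hwc hwu
    have : q = x := h.mat u huH r.huK q hqu x hxu hqne (Ne.symm r.hux) hqK r.hxK
    rwa [this] at hdq
  obtain ⟨q, hq, hqc, hqne, hqK, -⟩ := h.meet huH r.huK hc hcK hcNu hwu hwc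
  obtain ⟨a, hax, hay⟩ := r.mt
  have hpH : p ∈ H := h.sub y r.hy r.hp
  have hxI : x ∈ N x ∩ N u := Finset.mem_inter.2 ⟨h.hs x, hxu⟩
  have huI : u ∈ N x ∩ N u := Finset.mem_inter.2 ⟨r.hu, h.hs u⟩
  have hIc : Conn N (N x ∩ N u) :=
    conn_star h.hsym hxI (fun z hz => (Finset.mem_inter.1 hz).1)
  have hQc : Conn N (N y ∪ (N x ∩ N u) ∪ N c) := by
    refine ((h.conn_nb y).union h.hsym hIc hay hxI (h.hsym _ _ hax)).union h.hsym (h.conn_nb c)
      (Finset.mem_union_right _ huI) hwc hwu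
  have hyc : y ≠ c := by
    rintro rfl
    exact Finset.disjoint_left.1 hd (h.hs y) (h.hs y)
  obtain ⟨j, t, h1, h2⟩ := h.dc (D0 := {y, c}) (Q := N y ∪ (N x ∩ N u) ∪ N c) (B := {p, q, x, u})
    (by
      intro z hz
      rcases Finset.mem_insert.1 hz with rfl | hz
      · exact r.hy
      · rw [Finset.mem_singleton.1 hz]; exact hc)
    (by
      refine Finset.union_subset (Finset.union_subset (h.sub y r.hy) ?_) (h.sub c hc)
      exact Finset.inter_subset_left.trans (h.sub x r.hx))
    hQc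
    (by
      intro v hv hvK hvD z hz hzQ
      rcases Finset.mem_union.1 hzQ with hzQ | hzQ
      · rcases Finset.mem_union.1 hzQ with hzQ | hzQ
        · exact hvD z hz y (by simp) hzQ
        · have hzQ' := Finset.mem_inter.1 hzQ
          rcases h.triple r.hx r.hxK r.hu r.hux r.huK hv hvK hzQ'.1 hzQ'.2 hz with rfl | rfl
          · exact hvD a hax y (by simp) hay
          · exact hvD w hwu c (by simp) hwc
      · exact hvD z hz c (by simp) hzQ)
    (by
      intro z hz
      simp only [Finset.mem_insert, Finset.mem_singleton] at hz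
      rcases hz with rfl | rfl | rfl | rfl
      · exact hpH
      · exact hq
      · exact r.hx
      · exact huH)
    (by
      intro z hz hzK hzN
      simp only [Finset.mem_insert, Finset.mem_singleton]
      rcases Finset.mem_union.1 hz with hz | hz
      · rcases Finset.mem_union.1 hz with hz | hz
        · by_cases hzy : z = y
          · subst hzy
            exact absurd (Finset.subset_union_left.trans Finset.subset_union_left) hzN
          · exact Or.inl (h.mat y r.hy r.hyK z hz p r.hp hzy r.hpy hzK r.hpK)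
        · by_cases hzx : z = x
          · exact Or.inr (Or.inr (Or.inl hzx))
          · exact Or.inr (Or.inr (Or.inr (h.mat x r.hx r.hxK z (Finset.mem_inter.1 hz).1 u r.hu
              hzx r.hux hzK r.huK)))
      · by_cases hzc : z = c
        · subst hzc
          exact absurd Finset.subset_union_right hzN
        · exact Or.inr (Or.inl (h.mat c hc hcK z hz q hqc hzc hqne hzK hqK)))
  have hB4 : ({p, q, x, u} : Finset V).card ≤ 4 := Finset.card_le_four
  have hD2 : ({y, c} : Finset V).card = 2 := Finset.card_pair hyc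
  have hI2 : 2 ≤ (N x ∩ N u).card := by
    have : ({x, u} : Finset V) ⊆ N x ∩ N u := by
      intro z hz
      rcases Finset.mem_insert.1 hz with rfl | hz
      · exact hxI
      · rw [Finset.mem_singleton.1 hz]; exact huI
    have := Finset.card_le_card this
    rwa [Finset.card_pair (Ne.symm r.hux)] at this
  have hQcard : (N y ∪ (N x ∩ N u) ∪ N c).card = K + (N x ∩ N u).card + K := by
    rw [Finset.card_union_of_disjoint, Finset.card_union_of_disjoint, h.card_nb r.hy r.hyK,
      h.card_nb hc hcK]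
    · rw [Finset.disjoint_left]
      intro z hz hz'
      exact Finset.disjoint_left.1 r.duy (Finset.mem_inter.1 hz').2 hz
    · rw [Finset.disjoint_left]
      intro z hz hz'
      rcases Finset.mem_union.1 hz with hz | hz
      · exact Finset.disjoint_left.1 hd hz hz'
      · exact Finset.disjoint_left.1 hdxc (Finset.mem_inter.1 hz).1 hz'
  rw [hD2, hQcard] at h2
  have h3 : ({p, q, x, u} : Finset V).card * (1 + j) ≤ 4 * (1 + j) := Nat.mul_le_mul_right _ hB4
  have hK := h.hK
  have h4 : 5 * j ≤ (2 * K + 1) * j := Nat.mul_le_mul_right _ (by omega)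
  omega

lemma Vio.claimB (h : Vio N K H) {x u y p : V} (r : Cr N K H x u y p) {w : V}
    (hwu : w ∈ N u) (hwx : w ∉ N x) {c : V} (hc : c ∈ H) (hcK : K ≤ (N c).card) (hcu : c ≠ u)
    (hwc : w ∈ N c) : c = p := by
  classical
  have huH : u ∈ H := h.sub x r.hx r.hu
  have hpH : p ∈ H := h.sub y r.hy r.hp
  have hwH : w ∈ H := h.sub u huH hwu
  have hxu : x ∈ N u := h.hsym _ _ r.hu
  have hyp : y ∈ N p := h.hsym _ _ r.hp
  obtain ⟨a, hax, hay⟩ := r.mt
  have hwy : w ∉ N y := fun hh => Finset.disjoint_left.1 r.duy hwu hh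
  have hwneu : w ≠ u := by
    rintro rfl
    exact hwx r.hu
  have hwnex : w ≠ x := by
    rintro rfl
    exact hwx (h.hs w)
  have hwK : (N w).card < K := by
    by_contra hcon
    push Not at hcon
    exact hwnex (h.mat u huH r.huK w hwu x hxu hwneu (Ne.symm r.hux) hcon r.hxK)
  set Y : Finset V := H.filter (fun c => K ≤ (N c).card ∧ c ≠ u ∧ w ∈ N c ∧ c ≠ p) with hY
  have hYmem : ∀ c, c ∈ Y ↔ c ∈ H ∧ K ≤ (N c).card ∧ c ≠ u ∧ w ∈ N c ∧ c ≠ p := by
    intro c
    simp [hY]
  have hYu : ∀ c ∈ Y, c ∉ N u := by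
    intro c hc hh
    obtain ⟨hcH, hcK, hcu, hwc, hcp⟩ := (hYmem c).1 hc
    have : c = x := h.mat u huH r.huK c hh x hxu hcu (Ne.symm r.hux) hcK r.hxK
    subst this
    exact hwx hwc
  have hq : ∀ c : V, ∃ q, c ∈ Y → q ∈ H ∧ q ∈ N c ∧ q ≠ c ∧ K ≤ (N q).card ∧
      Disjoint (N q) (N u) := by
    intro c
    by_cases hc : c ∈ Y
    · obtain ⟨hcH, hcK, hcu, hwc, hcp⟩ := (hYmem c).1 hc
      obtain ⟨q, hq1, hq2, hq3, hq4, hq5⟩ := h.meet huH r.huK hcH hcK (hYu c hc) hwu hwc
      exact ⟨q, fun _ => ⟨hq1, hq2, hq3, hq4, hq5⟩⟩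
    · exact ⟨c, fun hh => absurd hh hc⟩
  choose q hq using hq
  have hYw : Y ⊆ N w := fun c hc => h.hsym _ _ ((hYmem c).1 hc).2.2.2.1
  have hqinj : ∀ c ∈ Y, ∀ c' ∈ Y, q c = q c' → c = c' := by
    intro c hc c' hc' heq
    obtain ⟨h1, h2, h3, h4, h5⟩ := hq c hc
    obtain ⟨h1', h2', h3', h4', h5'⟩ := hq c' hc'
    refine h.mat (q c) h1 h4 c (h.hsym _ _ h2) c' ?_ (Ne.symm h3) ?_ ((hYmem c).1 hc).2.1
      ((hYmem c').1 hc').2.1
    · rw [heq]; exact h.hsym _ _ h2'
    · rw [heq]; exact Ne.symm h3'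
  have hcy : ∀ c ∈ Y, c ∉ N y := by
    intro c hc hh
    obtain ⟨hcH, hcK, hcu, hwc, hcp⟩ := (hYmem c).1 hc
    by_cases hcy : c = y
    · subst hcy
      exact hwy hwc
    · exact hcp (h.mat y r.hy r.hyK c hh p r.hp hcy r.hpy hcK r.hpK)
  have hqy : ∀ c ∈ Y, q c ∉ N y := by
    intro c hc hh
    obtain ⟨hcH, hcK, hcu, hwc, hcp⟩ := (hYmem c).1 hc
    obtain ⟨h1, h2, h3, h4, h5⟩ := hq c hc
    by_cases hqy : q c = y
    · rw [hqy] at h2
      exact hcy c hc (h.hsym _ _ h2)
    · have hqp : q c = p := h.mat y r.hy r.hyK (q c) hh p r.hp hqy r.hpy h4 r.hpK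
      rw [hqp] at h2
      have : c = y := h.mat p hpH r.hpK c (h.hsym _ _ h2) y hyp hcp (Ne.symm r.hpy) hcK r.hyK
      subst this
      exact hwy hwc
  have hqu : ∀ c ∈ Y, q c ∉ N u := fun c hc hh =>
    Finset.disjoint_left.1 (hq c hc).2.2.2.2 (h.hs _) hh
  have hqY : ∀ c ∈ Y, q c ∉ Y := fun c hc hh =>
    Finset.disjoint_left.1 (hq c hc).2.2.2.2 ((hYmem _).1 hh).2.2.2.1 hwu
  have hyw : y ≠ w := by
    rintro rfl
    exact Finset.disjoint_left.1 r.duy hwu (h.hs y)
  have hQ1 : Conn N (N y ∪ N u) :=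
    (h.conn_nb y).union h.hsym (h.conn_nb u) hay hxu (h.hsym _ _ hax)
  have hQ2 : Conn N (N y ∪ N u ∪ N w) :=
    hQ1.union h.hsym (h.conn_nb w) (Finset.mem_union_right _ (h.hs u)) (h.hs w) hwu
  have hQc : Conn N (N y ∪ N u ∪ N w ∪ Y.image q) := by
    refine conn_pend h.hsym hQ2 ?_
    intro z hz
    obtain ⟨c, hc, rfl⟩ := Finset.mem_image.1 hz
    exact ⟨c, Finset.mem_union_right _ (hYw hc), (hq c hc).2.1⟩
  have hQH : N y ∪ N u ∪ N w ∪ Y.image q ⊆ H := by
    refine Finset.union_subset (Finset.union_subset (Finset.union_subset (h.sub y r.hy)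
      (h.sub u huH)) (h.sub w hwH)) ?_
    intro z hz
    obtain ⟨c, hc, rfl⟩ := Finset.mem_image.1 hz
    exact (hq c hc).1
  obtain ⟨j, t, h1, h2⟩ := h.dc (D0 := {y, w}) (Q := N y ∪ N u ∪ N w ∪ Y.image q)
    (B := {p, x} ∪ (Y ∪ Y.image q))
    (by
      intro z hz
      rcases Finset.mem_insert.1 hz with rfl | hz
      · exact r.hy
      · rw [Finset.mem_singleton.1 hz]; exact hwH)
    hQH hQc
    (by
      intro v hv hvK hvD z hz hzQ
      rcases Finset.mem_union.1 hzQ with hzQ | hzQ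
      · rcases Finset.mem_union.1 hzQ with hzQ | hzQ
        · rcases Finset.mem_union.1 hzQ with hzQ | hzQ
          · exact hvD z hz y (by simp) hzQ
          · by_cases hvu : v = u
            · subst hvu
              exact hvD v (h.hs v) w (by simp) (h.hsym _ _ hwu)
            · by_cases hzx : z ∈ N x
              · rcases h.triple r.hx r.hxK r.hu r.hux r.huK hv hvK hzx hzQ hz with rfl | h3
                · exact hvD a hax y (by simp) hay
                · exact hvu h3
              · refine h.claimA r hv hvK hvu hz hzQ hzx ?_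
                rw [Finset.disjoint_right]
                intro b hb
                exact hvD b hb y (by simp)
        · exact hvD z hz w (by simp) hzQ
      · obtain ⟨c, hc, rfl⟩ := Finset.mem_image.1 hzQ
        obtain ⟨g1, g2, g3, g4, g5⟩ := hq c hc
        obtain ⟨hcH, hcK, hcu, hwc, hcp⟩ := (hYmem c).1 hc
        by_cases hvq : v = q c
        · subst hvq
          exact hvD c (h.hsym _ _ g2) w (by simp) (hYw hc)
        · have hvc : v = c := h.mat (q c) g1 g4 v (h.hsym _ _ hz) c (h.hsym _ _ g2) hvq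
            (Ne.symm g3) hvK hcK
          subst hvc
          exact hvD v (h.hs v) w (by simp) (hYw hc))
    (by
      refine Finset.union_subset ?_ (Finset.union_subset (Finset.filter_subset _ _) ?_)
      · intro z hz
        rcases Finset.mem_insert.1 hz with rfl | hz
        · exact hpH
        · rw [Finset.mem_singleton.1 hz]; exact r.hx
      · intro z hz
        obtain ⟨c, hc, rfl⟩ := Finset.mem_image.1 hz
        exact (hq c hc).1)
    (by
      intro z hz hzK hzN
      have e1 : N y ⊆ N y ∪ N u ∪ N w ∪ Y.image q := by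
        intro b hb
        simp [hb]
      have e2 : N u ⊆ N y ∪ N u ∪ N w ∪ Y.image q := by
        intro b hb
        simp [hb]
      rcases Finset.mem_union.1 hz with hz | hz
      · rcases Finset.mem_union.1 hz with hz | hz
        · rcases Finset.mem_union.1 hz with hz | hz
          · by_cases hzy : z = y
            · subst hzy
              exact absurd e1 hzN
            · have : z = p := h.mat y r.hy r.hyK z hz p r.hp hzy r.hpy hzK r.hpK
              simp [this]
          · by_cases hzu : z = u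
            · subst hzu
              exact absurd e2 hzN
            · have : z = x := h.mat u huH r.huK z hz x hxu hzu (Ne.symm r.hux) hzK r.hxK
              simp [this]
        · by_cases hzu : z = u
          · subst hzu
            exact absurd e2 hzN
          · by_cases hzp : z = p
            · simp [hzp]
            · refine Finset.mem_union_right _ (Finset.mem_union_left _ ?_)
              exact (hYmem z).2 ⟨h.sub w hwH hz, hzK, hzu, h.hsym _ _ hz, hzp⟩
      · exact Finset.mem_union_right _ (Finset.mem_union_right _ hz))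
  have hD2 : ({y, w} : Finset V).card = 2 := Finset.card_pair hyw
  have hicard : (Y.image q).card = Y.card := Finset.card_image_of_injOn (fun c hc c' hc' heq =>
    hqinj c hc c' hc' heq)
  have hBcard : ({p, x} ∪ (Y ∪ Y.image q)).card ≤ 2 + 2 * Y.card := by
    have g1 := Finset.card_union_le ({p, x} : Finset V) (Y ∪ Y.image q)
    have g2 := Finset.card_union_le Y (Y.image q)
    have g3 : ({p, x} : Finset V).card ≤ 2 := Finset.card_le_two
    omega
  have hQcard : 2 * K + 2 * Y.card ≤ (N y ∪ N u ∪ N w ∪ Y.image q).card := by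
    have g0 : (N y ∪ N u) ∪ (Y ∪ Y.image q) ⊆ N y ∪ N u ∪ N w ∪ Y.image q := by
      refine Finset.union_subset ?_ (Finset.union_subset ?_ Finset.subset_union_right)
      · exact Finset.subset_union_left.trans Finset.subset_union_left
      · intro z hz
        exact Finset.mem_union_left _ (Finset.mem_union_right _ (hYw hz))
    have g1 := Finset.card_le_card g0
    have g2 : (N y ∪ N u).card = K + K := by
      rw [Finset.card_union_of_disjoint r.duy.symm, h.card_nb r.hy r.hyK, h.card_nb huH r.huK]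
    have g3 : (Y ∪ Y.image q).card = Y.card + Y.card := by
      rw [Finset.card_union_of_disjoint, hicard]
      rw [Finset.disjoint_right]
      intro z hz
      obtain ⟨c, hc, rfl⟩ := Finset.mem_image.1 hz
      exact hqY c hc
    have g4 : Disjoint (N y ∪ N u) (Y ∪ Y.image q) := by
      rw [Finset.disjoint_right]
      intro z hz
      rw [Finset.mem_union, not_or]
      rcases Finset.mem_union.1 hz with hz | hz
      · exact ⟨hcy z hz, hYu z hz⟩
      · obtain ⟨c, hc, rfl⟩ := Finset.mem_image.1 hz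
        exact ⟨hqy c hc, hqu c hc⟩
    rw [Finset.card_union_of_disjoint g4] at g1
    omega
  have hYK : Y.card < K := lt_of_le_of_lt (Finset.card_le_card hYw) hwK
  have hY0 : Y.card = 0 := by
    rw [hD2] at h2
    have g1 : (({p, x} : Finset V) ∪ (Y ∪ Y.image q)).card * (1 + j) ≤
        (2 + 2 * Y.card) * (1 + j) := Nat.mul_le_mul_right _ hBcard
    have g2 : (2 + 2 * Y.card) * (1 + j) = 2 + 2 * Y.card + 2 * j + 2 * (Y.card * j) := by ring
    have g3 : Y.card * j ≤ K * j := Nat.mul_le_mul_right _ hYK.le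
    have g4 : (2 * K + 1) * j = 2 * (K * j) + j := by ring
    omega
  by_contra hcp
  have : c ∈ Y := (hYmem c).2 ⟨hc, hcK, hcu, hwc, hcp⟩
  rw [Finset.card_eq_zero] at hY0
  rw [hY0] at this
  exact absurd this (Finset.notMem_empty c)

/-- There is no minimal violator. -/
theorem Vio.false (h : Vio N K H) : False := by
  obtain ⟨x, hx, hxK, hM⟩ := h.exists_end
  have hcard := h.card_nb hx hxK
  obtain ⟨y, hy, y', hy', hne, hyK, hyK', ⟨a, ha, hay⟩, ⟨a', ha', hay'⟩⟩ :=
    h.cross_two (h.hs x) subset_rfl (h.sub x hx) hcard hM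
  rw [Finset.mem_sdiff] at hy hy'
  obtain ⟨u, p, r⟩ := h.cr hx hxK hy.1 hyK hy.2 ha hay
  obtain ⟨u', p', r'⟩ := h.cr hx hxK hy'.1 hyK' hy'.2 ha' hay'
  have huu : u' = u := h.mat x hx hxK u' r'.hu u r.hu r'.hux r.hux r'.huK r.huK
  subst huu
  have huH : u' ∈ H := h.sub x hx r.hu
  -- a vertex of `N u` outside `N x`
  obtain ⟨w, hwu, hwx⟩ : ∃ w ∈ N u', w ∉ N x := by
    by_contra hcon
    push Not at hcon
    have hsub : N u' ⊆ N x := hcon
    have heq : N u' = N x := Finset.eq_of_subset_of_card_le hsub (by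
      rw [hcard, h.card_nb huH r.huK])
    exact Finset.disjoint_left.1 r.duy (by rw [heq]; exact ha) hay
  obtain ⟨c, hc, hcK, hwc, hd⟩ := h.sep hx hxK (h.sub u' huH hwu) hwx
  have hcu : c ≠ u' := by
    rintro rfl
    exact Finset.disjoint_left.1 hd (h.hs c) r.hu
  have h1 := h.claimB r hwu hwx hc hcK hcu hwc
  have h2 := h.claimB r' hwu hwx hc hcK hcu hwc
  subst h1
  subst h2
  exact hne (h.mat c hc hcK y (h.hsym _ _ r.hp) y' (h.hsym _ _ r'.hp) (Ne.symm r.hpy)
    (Ne.symm r'.hpy) hyK hyK')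

end

end Pool.Agent.Star.MC
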