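import Pool.Agent.Star.MC3

/-!
# Star isolation when the vertices of degree at least `k` induce a graph of maximum degree one

Part 4: reduction of the general statement to a minimal violator.
-/

set_option autoImplicit false
set_option linter.unusedSectionVars false
set_option linter.unusedVariables false

namespace Pool.Agent.Star.MC

open Finset Pool.Agent.Star Pool.Agent.Star.Rig

variable {V : Type*} [DecidableEq V]

/-- In the graph induced on `H` every centre has at most one neighbour that is a centre. -/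
def Mat (N : V → Finset V) (K : ℕ) (H : Finset V) : Prop :=
  ∀ v ∈ H, K ≤ (N v ∩ H).card → ∀ w ∈ N v ∩ H, ∀ w' ∈ N v ∩ H, w ≠ v → w' ≠ v →
    K ≤ (N w ∩ H).card → K ≤ (N w' ∩ H).card → w = w'

/-- The graph induced on `H`, with the other vertices isolated. -/
def loc (N : V → Finset V) (H : Finset V) (x : V) : Finset V := if x ∈ H then N x ∩ H else {x}

section
variable {N : V → Finset V} {K : ℕ} {H : Finset V}

lemma Mat.mono {A : Finset V} (h : Mat N K H) (hA : A ⊆ H) : Mat N K A := by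
  have hle : ∀ v : V, (N v ∩ A).card ≤ (N v ∩ H).card := fun v =>
    Finset.card_le_card (Finset.inter_subset_inter (Finset.Subset.refl _) hA)
  have hm : ∀ v w : V, w ∈ N v ∩ A → w ∈ N v ∩ H := fun v w hw =>
    Finset.mem_inter.2 ⟨(Finset.mem_inter.1 hw).1, hA (Finset.mem_inter.1 hw).2⟩
  intro v hv hvK w hw w' hw' h1 h2 h3 h4
  exact h v (hA hv) (hvK.trans (hle v)) w (hm v w hw) w' (hm v w' hw') h1 h2 (h3.trans (hle w))
    (h4.trans (hle w'))

lemma loc_of_mem {x : V} (hx : x ∈ H) : loc N H x = N x ∩ H := if_pos hx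

lemma loc_self (hs : ∀ x, x ∈ N x) (x : V) : x ∈ loc N H x := by
  unfold loc
  split_ifs with hx
  · exact Finset.mem_inter.2 ⟨hs x, hx⟩
  · exact Finset.mem_singleton_self x

lemma loc_symm (hsym : ∀ x y, x ∈ N y → y ∈ N x) (x y : V) (h : x ∈ loc N H y) :
    y ∈ loc N H x := by
  by_cases hy : y ∈ H
  · rw [loc_of_mem hy, Finset.mem_inter] at h
    rw [loc_of_mem h.2, Finset.mem_inter]
    exact ⟨hsym _ _ h.1, hy⟩
  · have : x = y := by
      unfold loc at h
      rw [if_neg hy] at h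
      exact Finset.mem_singleton.1 h
    subst this
    exact h

lemma loc_mem {x y : V} (hx : x ∈ H) (hy : y ∈ H) : y ∈ loc N H x ↔ y ∈ N x := by
  rw [loc_of_mem hx, Finset.mem_inter]
  exact ⟨fun h => h.1, fun h => ⟨h, hy⟩⟩

lemma loc_rem {A D : Finset V} (hA : A ⊆ H) (hD : D ⊆ A) : rem (loc N H) A D = rem N A D := by
  ext v
  rw [mem_rem, mem_rem]
  constructor
  · rintro ⟨h1, h2⟩
    exact ⟨h1, fun d hd hv => h2 d hd ((loc_mem (hA (hD hd)) (hA h1)).2 hv)⟩
  · rintro ⟨h1, h2⟩
    exact ⟨h1, fun d hd hv => h2 d hd ((loc_mem (hA (hD hd)) (hA h1)).1 hv)⟩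

lemma loc_iso {A D : Finset V} (hA : A ⊆ H) : Iso (loc N H) K A D ↔ Iso N K A D := by
  unfold Iso
  have key : D ⊆ A → ((∀ v ∈ rem (loc N H) A D, (loc N H v ∩ rem (loc N H) A D).card < K) ↔
      (∀ v ∈ rem N A D, (N v ∩ rem N A D).card < K)) := by
    intro hD
    rw [loc_rem hA hD]
    have hv : ∀ v ∈ rem N A D, loc N H v ∩ rem N A D = N v ∩ rem N A D := by
      intro v hv
      ext z
      rw [Finset.mem_inter, Finset.mem_inter]
      constructor
      · rintro ⟨h1, h2⟩
        exact ⟨(loc_mem (hA (mem_rem.1 hv).1) (hA (mem_rem.1 h2).1)).1 h1, h2⟩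
      · rintro ⟨h1, h2⟩
        exact ⟨(loc_mem (hA (mem_rem.1 hv).1) (hA (mem_rem.1 h2).1)).2 h1, h2⟩
    constructor
    · intro h v hvr
      rw [← hv v hvr]
      exact h v hvr
    · intro h v hvr
      rw [hv v hvr]
      exact h v hvr
  constructor
  · rintro ⟨h1, h2⟩
    exact ⟨h1, (key h1).1 h2⟩
  · rintro ⟨h1, h2⟩
    exact ⟨h1, (key h1).2 h2⟩

lemma loc_f {A : Finset V} (hA : A ⊆ H) : f (loc N H) K A = f N K A := by
  unfold f
  congr 1
  ext m
  constructor
  · rintro ⟨D, h1, h2⟩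
    exact ⟨D, (loc_iso hA).1 h1, h2⟩
  · rintro ⟨D, h1, h2⟩
    exact ⟨D, (loc_iso hA).2 h1, h2⟩

lemma loc_conn {A : Finset V} (hA : A ⊆ H) : Conn (loc N H) A ↔ Conn N A := by
  constructor
  · rintro ⟨h1, h2⟩
    refine ⟨h1, fun B hB hne hneq => ?_⟩
    obtain ⟨x, hx, y, hy, hyB, hyx⟩ := h2 B hB hne hneq
    exact ⟨x, hx, y, hy, hyB, (loc_mem (hA (hB hx)) (hA hy)).1 hyx⟩
  · rintro ⟨h1, h2⟩
    refine ⟨h1, fun B hB hne hneq => ?_⟩
    obtain ⟨x, hx, y, hy, hyB, hyx⟩ := h2 B hB hne hneq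
    exact ⟨x, hx, y, hy, hyB, (loc_mem (hA (hB hx)) (hA hy)).2 hyx⟩

lemma loc_bnd {A : Finset V} (hA : A ⊆ H) : Bnd (loc N H) K A ↔ Bnd N K A := by
  unfold Bnd Aty
  rw [loc_f hA]

/-- The bound for all connected sets in the class. -/
theorem bound (hs : ∀ x, x ∈ N x) (hsym : ∀ x y, x ∈ N y → y ∈ N x) (hK : 2 ≤ K) :
    ∀ (n : ℕ) (H : Finset V), H.card = n → Conn N H → Mat N K H → Bnd N K H := by
  intro n
  induction' n using Nat.strong_induction_on with n ih
  intro H hn hc hm
  by_contra hB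
  have hB' := hB
  unfold Bnd at hB'
  push Not at hB'
  have hv : Vio (loc N H) K H :=
    { hs := loc_self hs
      hsym := loc_symm hsym
      hK := hK
      sub := fun v hv => by rw [loc_of_mem hv]; exact Finset.inter_subset_right
      mat := by
        intro v hv hvK w hw w' hw' h1 h2 h3 h4
        rw [loc_of_mem hv] at hvK hw hw'
        rw [loc_of_mem (Finset.mem_inter.1 hw).2] at h3
        rw [loc_of_mem (Finset.mem_inter.1 hw').2] at h4
        exact hm v hv hvK w hw w' hw' h1 h2 h3 h4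
      conn := (loc_conn Finset.Subset.rfl).2 hc
      exc := by
        rw [loc_f Finset.Subset.rfl]
        have := hB'.1
        omega
      nota := by
        unfold Aty
        rw [loc_f Finset.Subset.rfl]
        exact hB'.2
      low := by
        intro A hA hne hAc
        rw [loc_bnd hA]
        refine ih A.card ?_ A rfl ((loc_conn hA).1 hAc) (hm.mono hA)
        rw [← hn]
        exact Finset.card_lt_card (Finset.ssubset_iff_subset_ne.2 ⟨hA, hne⟩) }
  exact hv.false

end

end Pool.Agent.Star.MC
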