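import Pool.Agent.Star.Basic

/-!
# Star isolation: connected graphs other than the two extremal types satisfy
`(K M + 1) f ≤ M n`
-/

set_option autoImplicit false

namespace Pool.Agent.Star

open Finset

variable {V : Type*} [DecidableEq V]

/-- The extremal types: `n = K, f = 1` and `n = 2K, f = 2`. -/
def Bad (N : V → Finset V) (K : ℕ) (C : Finset V) : Prop :=
  C.card = K * f N K C ∧ (f N K C = 1 ∨ f N K C = 2)

/-- The improved bound. -/
def Good (N : V → Finset V) (K M : ℕ) (C : Finset V) : Prop :=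
  (K * M + 1) * f N K C ≤ M * C.card

section
variable {N : V → Finset V} {K M : ℕ}

lemma Closed.disj {C C' B : Finset V} (hC : Conn N C) (hC' : Conn N C') (h : Closed N C B)
    (h' : Closed N C' B) (hne : C ≠ C') : Disjoint C C' := by
  rw [Finset.disjoint_left]
  intro x hx hx'
  exact hne (Finset.Subset.antisymm (hC.subset_of_closed h.1 h' hx hx')
    (hC'.subset_of_closed h'.1 h hx' hx))

lemma decomp (hs : ∀ x, x ∈ N x) (hsym : ∀ x y, x ∈ N y → y ∈ N x) :
    ∀ (n : ℕ) (B : Finset V), B.card ≤ n → (∀ C ⊆ B, Conn N C → Good N K M C ∨ Bad N K C) →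
      ∃ F : Finset (Finset V), (∀ C ∈ F, Conn N C ∧ Closed N C B ∧ Bad N K C) ∧
        Good N K M (B \ F.biUnion id) := by
  intro n
  induction n with
  | zero =>
    intro B hB _
    have hB0 : B = ∅ := by rw [← Finset.card_eq_zero]; omega
    subst hB0
    refine ⟨∅, by simp, ?_⟩
    have h0 : f N K (∅ : Finset V) = 0 := f_zero (by simp)
    simp [Good, h0]
  | succ n ih =>
    intro B hB hyp
    rcases B.eq_empty_or_nonempty with rfl | ⟨x, hx⟩
    · refine ⟨∅, by simp, ?_⟩
      have h0 : f N K (∅ : Finset V) = 0 := f_zero (by simp)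
      simp [Good, h0]
    · obtain ⟨C, hxC, hCc, hCl⟩ := exists_comp hsym hx
      have hcard : (B \ C).card = B.card - C.card := Finset.card_sdiff_of_subset hCl.1
      have hpos : 0 < C.card := Finset.card_pos.2 ⟨x, hxC⟩
      have hle : C.card ≤ B.card := Finset.card_le_card hCl.1
      obtain ⟨F, hF, hG⟩ := ih (B \ C) (by omega)
        (fun C' hC' => hyp C' (hC'.trans Finset.sdiff_subset))
      have hF' : ∀ C' ∈ F, Conn N C' ∧ Closed N C' B ∧ Bad N K C' := by
        intro C' hC'
        obtain ⟨h1, h2, h3⟩ := hF C' hC'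
        refine ⟨h1, ⟨h2.1.trans Finset.sdiff_subset, ?_⟩, h3⟩
        intro a ha y hy hya
        by_cases hyC : y ∈ C
        · exfalso
          have haB := h2.1 ha
          rw [Finset.mem_sdiff] at haB
          exact haB.2 (hCl.2 y hyC a haB.1 (hsym _ _ hya))
        · exact h2.2 a ha y (Finset.mem_sdiff.2 ⟨hy, hyC⟩) hya
      rcases hyp C hCl.1 hCc with hgood | hbad
      · refine ⟨F, hF', ?_⟩
        have heq : B \ F.biUnion id = ((B \ C) \ F.biUnion id) ∪ C := by
          ext y
          simp only [Finset.mem_sdiff, Finset.mem_union, Finset.mem_biUnion, id]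
          constructor
          · rintro ⟨h1, h2⟩
            by_cases hyC : y ∈ C
            · exact Or.inr hyC
            · exact Or.inl ⟨⟨h1, hyC⟩, h2⟩
          · rintro (⟨⟨h1, h2⟩, h3⟩ | h)
            · exact ⟨h1, h3⟩
            · refine ⟨hCl.1 h, ?_⟩
              rintro ⟨C', hC', hy⟩
              have := (hF C' hC').2.1.1 hy
              exact (Finset.mem_sdiff.1 this).2 h
        have hdisj : Disjoint ((B \ C) \ F.biUnion id) C := by
          rw [Finset.disjoint_left]
          intro a ha haC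
          exact (Finset.mem_sdiff.1 (Finset.mem_sdiff.1 ha).1).2 haC
        have hf : f N K (B \ F.biUnion id) ≤ f N K ((B \ C) \ F.biUnion id) + f N K C := by
          rw [heq]
          apply f_union hs hsym
          intro a ha y hy hya
          have haB := (Finset.mem_sdiff.1 ha).1
          rw [Finset.mem_sdiff] at haB
          exact haB.2 (hCl.2 y hy a haB.1 (hsym _ _ hya))
        unfold Good at hG hgood ⊢
        have hc : (B \ F.biUnion id).card = ((B \ C) \ F.biUnion id).card + C.card := by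
          rw [heq, Finset.card_union_of_disjoint hdisj]
        rw [hc]
        calc (K * M + 1) * f N K (B \ F.biUnion id)
            ≤ (K * M + 1) * (f N K ((B \ C) \ F.biUnion id) + f N K C) :=
              Nat.mul_le_mul_left _ hf
          _ = (K * M + 1) * f N K ((B \ C) \ F.biUnion id) + (K * M + 1) * f N K C := by ring
          _ ≤ M * ((B \ C) \ F.biUnion id).card + M * C.card := by omega
          _ = _ := by ring
      · refine ⟨insert C F, ?_, ?_⟩
        · intro C' hC'
          rcases Finset.mem_insert.1 hC' with rfl | hC'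
          · exact ⟨hCc, hCl, hbad⟩
          · exact hF' C' hC'
        · have heq : B \ (insert C F).biUnion id = (B \ C) \ F.biUnion id := by
            rw [Finset.biUnion_insert, Finset.sdiff_union_distrib]
            ext y
            simp only [Finset.mem_inter, Finset.mem_sdiff, id]
            tauto
          rw [heq]; exact hG

lemma f_sum (hs : ∀ x, x ∈ N x) (hsym : ∀ x y, x ∈ N y → y ∈ N x) (T : Finset V) :
    ∀ (F : Finset (Finset V)) (B : Finset V), (∀ C ∈ F, Conn N C ∧ Closed N C B) →
      f N K (B \ T) ≤ f N K ((B \ F.biUnion id) \ T) + ∑ C ∈ F, f N K (C \ T) := by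
  intro F
  induction F using Finset.induction_on with
  | empty => intro B _; simp
  | insert C F hCF ih =>
    intro B hyp
    obtain ⟨hCc, hCl⟩ := hyp C (Finset.mem_insert_self _ _)
    have hF : ∀ C' ∈ F, Conn N C' ∧ Closed N C' (B \ C) := by
      intro C' hC'
      obtain ⟨h1, h2⟩ := hyp C' (Finset.mem_insert_of_mem hC')
      have hne : C' ≠ C := fun hh => hCF (hh ▸ hC')
      have hd := Closed.disj h1 hCc h2 hCl hne
      refine ⟨h1, ?_, ?_⟩
      · intro a ha
        exact Finset.mem_sdiff.2 ⟨h2.1 ha, Finset.disjoint_left.1 hd ha⟩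
      · intro a ha y hy hya
        exact h2.2 a ha y (Finset.mem_sdiff.1 hy).1 hya
    have h1 := ih (B \ C) hF
    have heq : B \ (insert C F).biUnion id = (B \ C) \ F.biUnion id := by
      rw [Finset.biUnion_insert, Finset.sdiff_union_distrib]
      ext y
      simp only [Finset.mem_inter, Finset.mem_sdiff, id]
      tauto
    have h2 : B \ T = ((B \ C) \ T) ∪ (C \ T) := by
      ext y
      simp only [Finset.mem_union, Finset.mem_sdiff]
      constructor
      · rintro ⟨h3, h4⟩
        by_cases hyC : y ∈ C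
        · exact Or.inr ⟨hyC, h4⟩
        · exact Or.inl ⟨⟨h3, hyC⟩, h4⟩
      · rintro (⟨⟨h3, _⟩, h4⟩ | ⟨h3, h4⟩)
        · exact ⟨h3, h4⟩
        · exact ⟨hCl.1 h3, h4⟩
    have h3 : f N K (B \ T) ≤ f N K ((B \ C) \ T) + f N K (C \ T) := by
      rw [h2]
      apply f_union hs hsym
      intro a ha y hy hya
      have haB := (Finset.mem_sdiff.1 ha).1
      rw [Finset.mem_sdiff] at haB
      exact haB.2 (hCl.2 y (Finset.mem_sdiff.1 hy).1 a haB.1 (hsym _ _ hya))
    rw [Finset.sum_insert hCF, heq]
    omega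

/-- A minimal counterexample. -/
structure Cex (N : V → Finset V) (K M : ℕ) (H : Finset V) : Prop where
  self : ∀ x, x ∈ N x
  symm : ∀ x y, x ∈ N y → y ∈ N x
  K1 : 1 ≤ K
  M2 : 2 ≤ M
  conn : Conn N H
  ngood : ¬ Good N K M H
  nbad : ¬ Bad N K H
  ih : ∀ C ⊆ H, C ≠ H → Conn N C → Good N K M C ∨ Bad N K C

variable {H : Finset V}

lemma Cex.ng (h : Cex N K M H) : M * H.card + 1 ≤ (K * M + 1) * f N K H := by
  have := h.ngood
  unfold Good at this
  omega

/-- The main inequality for `H - Z`. -/
lemma Cex.R (h : Cex N K M H) {Z : Finset V} (hZ : Z ⊆ H) (hne : Z.Nonempty) :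
    (K * M + 1) * f N K (H \ Z) + 2 ≤ M * (H \ Z).card + 2 * Z.card := by
  classical
  have hBH : H \ Z ⊆ H := Finset.sdiff_subset
  have hBne : H \ Z ≠ H := by
    obtain ⟨z, hz⟩ := hne
    intro hh
    have : z ∈ H \ Z := by rw [hh]; exact hZ hz
    exact (Finset.mem_sdiff.1 this).2 hz
  obtain ⟨F, hF, hG⟩ := decomp (K := K) (M := M) h.self h.symm (H \ Z).card (H \ Z) le_rfl (by
    intro C hC hCc
    refine h.ih C (hC.trans hBH) ?_ hCc
    intro hh
    apply hBne
    exact Finset.Subset.antisymm hBH (hh ▸ hC))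
  have hdisj : ∀ C ∈ F, ∀ C' ∈ F, C ≠ C' → Disjoint (id C) (id C') := by
    intro C hC C' hC' hne
    exact Closed.disj (hF C hC).1 (hF C' hC').1 (hF C hC).2.1 (hF C' hC').2.1 hne
  have hUcard : (F.biUnion id).card = ∑ C ∈ F, C.card := Finset.card_biUnion hdisj
  have hUsub : F.biUnion id ⊆ H \ Z := by
    intro x hx
    obtain ⟨C, hC, hxC⟩ := Finset.mem_biUnion.1 hx
    exact (hF C hC).2.1.1 hxC
  have hrest : ((H \ Z) \ F.biUnion id).card + ∑ C ∈ F, C.card = (H \ Z).card := by
    rw [← hUcard]
    exact Finset.card_sdiff_add_card_eq_card hUsub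
  -- first bound
  have hb1 : (K * M + 1) * f N K (H \ Z) ≤ M * (H \ Z).card + 2 * F.card := by
    have h1 := f_sum (K := K) h.self h.symm ∅ F (H \ Z) (fun C hC => ⟨(hF C hC).1, (hF C hC).2.1⟩)
    simp only [Finset.sdiff_empty] at h1
    have h2 : (K * M + 1) * ∑ C ∈ F, f N K C ≤ M * (∑ C ∈ F, C.card) + 2 * F.card := by
      rw [Finset.mul_sum, Finset.mul_sum]
      calc ∑ C ∈ F, (K * M + 1) * f N K C ≤ ∑ C ∈ F, (M * C.card + 2) := by
            apply Finset.sum_le_sum
            intro C hC
            obtain ⟨-, -, hc, h12⟩ := hF C hC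
            rw [hc]
            have : f N K C ≤ 2 := by omega
            have e : (K * M + 1) * f N K C = M * (K * f N K C) + f N K C := by ring
            omega
        _ = _ := by
            rw [Finset.sum_add_distrib]
            simp [mul_comm]
    unfold Good at hG
    calc (K * M + 1) * f N K (H \ Z)
        ≤ (K * M + 1) * (f N K ((H \ Z) \ F.biUnion id) + ∑ C ∈ F, f N K C) :=
          Nat.mul_le_mul_left _ h1
      _ = (K * M + 1) * f N K ((H \ Z) \ F.biUnion id) + (K * M + 1) * ∑ C ∈ F, f N K C := by ring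
      _ ≤ M * ((H \ Z) \ F.biUnion id).card + (M * (∑ C ∈ F, C.card) + 2 * F.card) := by omega
      _ = M * (((H \ Z) \ F.biUnion id).card + ∑ C ∈ F, C.card) + 2 * F.card := by ring
      _ = _ := by rw [hrest]
  -- F1
  have hF1 : F.card < Z.card := by
    let T : Finset V := (F.biUnion id).filter (fun x => ∃ z ∈ Z, x ∈ N z)
    have hTZ : ∀ x ∈ Z ∪ T, ∃ d ∈ Z, x ∈ N d := by
      intro x hx
      rcases Finset.mem_union.1 hx with hx | hx
      · exact ⟨x, hx, h.self x⟩
      · exact (Finset.mem_filter.1 hx).2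
    have h1 : f N K H ≤ Z.card + f N K (H \ (Z ∪ T)) :=
      f_le_add h.self Finset.subset_union_left
        (Finset.union_subset hZ ((Finset.filter_subset _ _).trans (hUsub.trans hBH))) hTZ
    have h2 : H \ (Z ∪ T) = (H \ Z) \ T := by
      ext x; simp only [Finset.mem_sdiff, Finset.mem_union]; tauto
    rw [h2] at h1
    have h3 := f_sum (K := K) h.self h.symm T F (H \ Z)
      (fun C hC => ⟨(hF C hC).1, (hF C hC).2.1⟩)
    have h4 : ((H \ Z) \ F.biUnion id) \ T = (H \ Z) \ F.biUnion id := by
      ext x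
      simp only [Finset.mem_sdiff, T, Finset.mem_filter]
      tauto
    rw [h4] at h3
    have h5 : (K * M + 1) * (∑ C ∈ F, f N K (C \ T)) + (K * M) * F.card ≤
        M * (∑ C ∈ F, C.card) + F.card := by
      rw [Finset.mul_sum, Finset.mul_sum]
      have : ∑ C ∈ F, ((K * M + 1) * f N K (C \ T) + K * M) ≤ ∑ C ∈ F, (M * C.card + 1) := by
        apply Finset.sum_le_sum
        intro C hC
        obtain ⟨hCc, hCl, hc, h12⟩ := hF C hC
        -- a vertex of C in T
        obtain ⟨y, hyC, hyT⟩ : ∃ y ∈ C, y ∈ T := by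
          have hCH : C ≠ H := by
            intro hh
            obtain ⟨z, hz⟩ := hne
            have : z ∈ C := by rw [hh]; exact hZ hz
            exact (Finset.mem_sdiff.1 (hCl.1 this)).2 hz
          obtain ⟨a, ha, b, hb, hbC, hba⟩ := h.conn.2 C (hCl.1.trans hBH) hCc.1 hCH
          have hbZ : b ∈ Z := by
            by_contra hbZ
            exact hbC (hCl.2 a ha b (Finset.mem_sdiff.2 ⟨hb, hbZ⟩) hba)
          refine ⟨a, ha, ?_⟩
          simp only [T, Finset.mem_filter, Finset.mem_biUnion, id]
          exact ⟨⟨C, hC, ha⟩, b, hbZ, h.symm _ _ hba⟩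
        have hlt : (C \ T).card < C.card := by
          apply Finset.card_lt_card
          refine ⟨Finset.sdiff_subset, fun hh => ?_⟩
          exact (Finset.mem_sdiff.1 (hh hyC)).2 hyT
        have hm := mul_f_le (K := K) h.self (C \ T)
        have hlt2 : f N K (C \ T) < f N K C := by
          have : K * f N K (C \ T) < K * f N K C := by omega
          exact lt_of_mul_lt_mul_left this (Nat.zero_le _)
        have hle : f N K (C \ T) + 1 ≤ f N K C := hlt2
        have e1 : (K * M + 1) * (f N K (C \ T) + 1) ≤ (K * M + 1) * f N K C :=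
          Nat.mul_le_mul_left _ hle
        have e2 : (K * M + 1) * f N K C = M * C.card + f N K C := by
          rw [hc]; ring
        have e3 : (K * M + 1) * (f N K (C \ T) + 1) = (K * M + 1) * f N K (C \ T) + K * M + 1 := by
          ring
        omega
      rw [Finset.sum_add_distrib, Finset.sum_add_distrib] at this
      simp only [Finset.sum_const, smul_eq_mul] at this
      rw [← Finset.mul_sum, ← Finset.mul_sum]
      rw [← Finset.mul_sum, ← Finset.mul_sum] at this
      nlinarith [this]
    have hng := h.ng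
    unfold Good at hG
    have hHZ : (H \ Z).card + Z.card = H.card := Finset.card_sdiff_add_card_eq_card hZ
    have h6 : (K * M + 1) * f N K H ≤ (K * M + 1) * Z.card +
        ((K * M + 1) * f N K ((H \ Z) \ F.biUnion id) + (K * M + 1) * ∑ C ∈ F, f N K (C \ T)) := by
      calc (K * M + 1) * f N K H ≤ (K * M + 1) * (Z.card + (f N K ((H \ Z) \ F.biUnion id) +
            ∑ C ∈ F, f N K (C \ T))) := Nat.mul_le_mul_left _ (by omega)
        _ = _ := by ring
    by_contra hcon
    push Not at hcon
    -- M |H| + 1 + K M β ≤ (K M + 1)|Z| + M |H \ Z| + β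
    have h7 : M * H.card + 1 + (K * M) * F.card ≤
        (K * M + 1) * Z.card + M * (H \ Z).card + F.card := by
      have : M * (H \ Z).card = M * ((H \ Z) \ F.biUnion id).card + M * (∑ C ∈ F, C.card) := by
        rw [← hrest]; ring
      omega
    have h8 : M * H.card = M * (H \ Z).card + M * Z.card := by rw [← hHZ]; ring
    have h9 : 2 * Z.card ≤ M * Z.card := Nat.mul_le_mul_right _ h.M2
    have h10 : 1 ≤ K * M := Nat.mul_pos h.K1 (by have := h.M2; omega)
    obtain ⟨P, hP⟩ : ∃ P, K * M = P + 1 := ⟨K * M - 1, by omega⟩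
    rw [hP] at h7
    have h11 : P * Z.card ≤ P * F.card := Nat.mul_le_mul_left _ hcon
    have e4 : (P + 1) * F.card = P * F.card + F.card := by ring
    have e5 : (P + 1 + 1) * Z.card = P * Z.card + 2 * Z.card := by ring
    omega
  omega

/-- In a minimal counterexample all closed neighbourhoods have at most `K` elements. -/
lemma Cex.deg (h : Cex N K M H) (hM : 2 * K < M) {v : V} (hv : v ∈ H) : (N v ∩ H).card ≤ K := by
  by_contra hcon
  push Not at hcon
  have hvS : v ∈ N v ∩ H := Finset.mem_inter.2 ⟨h.self v, hv⟩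
  have h1 : f N K H ≤ ({v} : Finset V).card + f N K (H \ (N v ∩ H)) :=
    f_le_add h.self (by simpa using hvS) Finset.inter_subset_right
      (fun x hx => ⟨v, by simp, (Finset.mem_inter.1 hx).1⟩)
  rw [Finset.card_singleton] at h1
  have h2 := h.R (Z := N v ∩ H) Finset.inter_subset_right ⟨v, hvS⟩
  have h3 : (H \ (N v ∩ H)).card + (N v ∩ H).card = H.card :=
    Finset.card_sdiff_add_card_eq_card Finset.inter_subset_right
  have hng := h.ng
  have h4 : (K * M + 1) * f N K H ≤ (K * M + 1) + (K * M + 1) * f N K (H \ (N v ∩ H)) := by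
    calc (K * M + 1) * f N K H ≤ (K * M + 1) * (1 + f N K (H \ (N v ∩ H))) :=
          Nat.mul_le_mul_left _ h1
      _ = _ := by ring
  have h5 : M * H.card = M * (H \ (N v ∩ H)).card + M * (N v ∩ H).card := by rw [← h3]; ring
  -- M s + 2 ≤ K M + 2 s - ...
  obtain ⟨s, hs⟩ : ∃ s, (N v ∩ H).card = K + 1 + s := ⟨(N v ∩ H).card - (K + 1), by omega⟩
  rw [hs] at h2 h5
  have e1 : M * (K + 1 + s) = K * M + M + s * M := by ring
  have e2 : s * 2 ≤ s * M := Nat.mul_le_mul_left _ h.M2
  omega

/-- A far family of stars. -/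
structure Far (N : V → Finset V) (K : ℕ) (H D : Finset V) : Prop where
  sub : D ⊆ H
  card : ∀ v ∈ D, (N v ∩ H).card = K
  disj : ∀ v ∈ D, ∀ w ∈ D, v ≠ w → Disjoint (N v ∩ H) (N w ∩ H)

/-- The vertex set covered by a family. -/
def cov (N : V → Finset V) (H D : Finset V) : Finset V := D.biUnion (fun v => N v ∩ H)

lemma mem_cov {D : Finset V} {x : V} : x ∈ cov N H D ↔ ∃ v ∈ D, x ∈ N v ∧ x ∈ H := by
  simp [cov]

lemma cov_sub (D : Finset V) : cov N H D ⊆ H := by
  intro x hx
  obtain ⟨v, -, -, h⟩ := mem_cov.1 hx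
  exact h

lemma Far.card_cov {D : Finset V} (h : Far N K H D) : (cov N H D).card = K * D.card := by
  unfold cov
  rw [Finset.card_biUnion h.disj, Finset.sum_congr rfl h.card]
  simp [mul_comm]

/-- Extension of a far family by a star through a given vertex. -/
lemma Cex.extend (h : Cex N K M H) (hM : 2 * K < M) {D : Finset V} (hD : Far N K H D)
    (ht : (2 * K + 1) * D.card ≤ M) {y : V} (hy : y ∈ H) (hyD : y ∉ cov N H D) :
    ∃ w, w ∈ H ∧ w ∉ D ∧ y ∈ N w ∧ Far N K H (insert w D) := by
  have key : ∃ w ∈ H \ cov N H D, y ∈ N w ∧ K ≤ (N w ∩ (H \ cov N H D)).card := by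
    by_contra hcon
    push Not at hcon
    have h1 : f N K H ≤ D.card + f N K (H \ cov N H D) := by
      refine f_le_add h.self ?_ (cov_sub D) ?_
      · intro v hv
        exact mem_cov.2 ⟨v, hv, h.self v, hD.sub hv⟩
      · intro x hx
        obtain ⟨v, hv, hxv, -⟩ := mem_cov.1 hx
        exact ⟨v, hv, hxv⟩
    have h2 : f N K (H \ cov N H D) ≤ f N K ((H \ cov N H D).erase y) :=
      f_dead h.self (fun w hw hyw => hcon w hw hyw)
    have h3 : (H \ cov N H D).erase y = H \ (insert y (cov N H D)) := by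
      ext x
      simp only [Finset.mem_erase, Finset.mem_sdiff, Finset.mem_insert]
      tauto
    rw [h3] at h2
    have hsub : insert y (cov N H D) ⊆ H := by
      intro x hx
      rcases Finset.mem_insert.1 hx with rfl | hx
      · exact hy
      · exact cov_sub D hx
    have h4 := h.R hsub ⟨y, Finset.mem_insert_self _ _⟩
    have h5 : (H \ (insert y (cov N H D))).card + (insert y (cov N H D)).card = H.card :=
      Finset.card_sdiff_add_card_eq_card hsub
    have h6 : (insert y (cov N H D)).card = K * D.card + 1 := by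
      rw [Finset.card_insert_of_notMem hyD, hD.card_cov]
    rw [h6] at h4 h5
    have hng := h.ng
    have h7 : (K * M + 1) * f N K H ≤ (K * M + 1) * D.card +
        (K * M + 1) * f N K (H \ (insert y (cov N H D))) := by
      calc (K * M + 1) * f N K H ≤ (K * M + 1) * (D.card +
            f N K (H \ (insert y (cov N H D)))) := Nat.mul_le_mul_left _ (by omega)
        _ = _ := by ring
    have h8 : M * H.card = M * (H \ (insert y (cov N H D))).card + (K * M * D.card + M) := by
      rw [← h5]; ring
    have e1 : (K * M + 1) * D.card = K * M * D.card + D.card := by ring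
    have e2 : (2 * K + 1) * D.card = 2 * (K * D.card) + D.card := by ring
    omega
  obtain ⟨w, hw, hyw, hwK⟩ := key
  rw [Finset.mem_sdiff] at hw
  have hdeg := h.deg hM hw.1
  have hsub : N w ∩ (H \ cov N H D) ⊆ N w ∩ H := Finset.inter_subset_inter_left Finset.sdiff_subset
  have heq : N w ∩ (H \ cov N H D) = N w ∩ H :=
    Finset.eq_of_subset_of_card_le hsub (by omega)
  have hcard : (N w ∩ H).card = K := by
    rw [← heq]
    apply le_antisymm _ hwK
    rw [heq]; exact hdeg
  have hdis : ∀ v ∈ D, Disjoint (N w ∩ H) (N v ∩ H) := by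
    intro v hv
    rw [Finset.disjoint_left]
    intro x hx hx'
    rw [← heq, Finset.mem_inter, Finset.mem_sdiff] at hx
    exact hx.2.2 (mem_cov.2 ⟨v, hv, (Finset.mem_inter.1 hx').1, (Finset.mem_inter.1 hx').2⟩)
  refine ⟨w, hw.1, ?_, hyw, ?_, ?_, ?_⟩
  · intro hwD
    exact hw.2 (mem_cov.2 ⟨w, hwD, h.self w, hw.1⟩)
  · intro x hx
    rcases Finset.mem_insert.1 hx with rfl | hx
    · exact hw.1
    · exact hD.sub hx
  · intro v hv
    rcases Finset.mem_insert.1 hv with rfl | hv
    · exact hcard
    · exact hD.card v hv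
  · intro v hv v' hv' hne
    rcases Finset.mem_insert.1 hv with h1 | h1 <;> rcases Finset.mem_insert.1 hv' with h2 | h2
    · exact absurd (h1.trans h2.symm) hne
    · rw [h1]; exact hdis v' h2
    · rw [h2]; exact (hdis v h1).symm
    · exact hD.disj v h1 v' h2 hne

/-- Lemma (I) for a subset. -/
lemma f_le_two (hs : ∀ x, x ∈ N x) (hsym : ∀ x y, x ∈ N y → y ∈ N x) (_hK : 1 ≤ K)
    {X : Finset V} (hX : Conn N X) (hcard : X.card = 3 * K)
    (hdeg : ∀ v ∈ X, (N v ∩ X).card ≤ K) : f N K X ≤ 2 := by
  classical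
  by_contra hcon
  push Not at hcon
  let N' : {x // x ∈ X} → Finset {x // x ∈ X} := fun x => Finset.univ.filter (fun y => y.1 ∈ N x.1)
  have hmem : ∀ x y : {x // x ∈ X}, y ∈ N' x ↔ y.1 ∈ N x.1 := by
    intro x y; simp [N']
  have hcN : ∀ x : {x // x ∈ X}, (N' x).card = (N x.1 ∩ X).card := by
    intro x
    have : (N' x).map (Function.Embedding.subtype _) = N x.1 ∩ X := by
      ext y
      simp only [Finset.mem_map, Function.Embedding.coe_subtype, Finset.mem_inter]
      constructor
      · rintro ⟨a, ha, rfl⟩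
        exact ⟨(hmem x a).1 ha, a.2⟩
      · rintro ⟨h1, h2⟩
        exact ⟨⟨y, h2⟩, (hmem x ⟨y, h2⟩).2 h1, rfl⟩
    rw [← this, Finset.card_map]
  have hT : Tri N' K := by
    refine ⟨?_, ?_, ?_, ?_⟩
    · intro x; rw [hmem]; exact hs _
    · intro x y hxy; rw [hmem] at *; exact hsym _ _ hxy
    · rw [Fintype.card_coe, hcard]
    · intro x y
      have hnI : ¬ Iso N K X {x.1, y.1} := by
        intro hI
        have h1 := f_le hI
        have h2 : ({x.1, y.1} : Finset V).card ≤ 2 := Finset.card_le_two
        omega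
      have hsub : ({x.1, y.1} : Finset V) ⊆ X := by
        intro a ha
        rcases Finset.mem_insert.1 ha with rfl | ha
        · exact x.2
        · rw [Finset.mem_singleton] at ha; rw [ha]; exact y.2
      unfold Iso at hnI
      push Not at hnI
      obtain ⟨v, hv, hvK⟩ := hnI hsub
      have hvX : v ∈ X := (mem_rem.1 hv).1
      have hss : N v ∩ rem N X {x.1, y.1} ⊆ N v ∩ X :=
        Finset.inter_subset_inter_left (fun a ha => (mem_rem.1 ha).1)
      have hle := hdeg v hvX
      have heq := Finset.eq_of_subset_of_card_le hss (by omega)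
      have hall : ∀ g : {x // x ∈ X}, g ∈ N' ⟨v, hvX⟩ → ∀ d ∈ ({x.1, y.1} : Finset V), g.1 ∉ N d := by
        intro g hg
        rw [hmem] at hg
        have h1 : g.1 ∈ N v ∩ X := Finset.mem_inter.2 ⟨hg, g.2⟩
        rw [← heq] at h1
        exact (mem_rem.1 (Finset.mem_inter.1 h1).2).2
      refine ⟨⟨v, hvX⟩, ?_, ?_, ?_⟩
      · rw [hcN]
        apply le_antisymm hle
        rw [← heq]; exact hvK
      · intro g hg hgx
        rw [hmem] at hgx
        exact hall g hg x.1 (by simp) hgx
      · intro g hg hgy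
        rw [hmem] at hgy
        exact hall g hg y.1 (by simp) hgy
  have hne : Nonempty {x // x ∈ X} := by
    obtain ⟨x, hx⟩ := hX.1
    exact ⟨⟨x, hx⟩⟩
  refine hT.false hne ?_
  intro A hA hAne
  obtain ⟨x, hx, y, hy, hyA, hyx⟩ := hX.2 (A.map (Function.Embedding.subtype _)) (by
      intro a ha
      obtain ⟨b, -, rfl⟩ := Finset.mem_map.1 ha
      exact b.2) (by simpa using hA) (by
      intro hh
      apply hAne
      ext a
      simp only [Finset.mem_univ, iff_true]
      have : a.1 ∈ A.map (Function.Embedding.subtype _) := by rw [hh]; exact a.2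
      obtain ⟨b, hb, hba⟩ := Finset.mem_map.1 this
      have : b = a := Subtype.ext hba
      rw [← this]; exact hb)
  obtain ⟨x', hx', rfl⟩ := Finset.mem_map.1 hx
  refine ⟨x', hx', ⟨y, hy⟩, ?_, ?_⟩
  · intro hh
    exact hyA (Finset.mem_map.2 ⟨⟨y, hy⟩, hh, rfl⟩)
  · rw [hmem]; exact hyx

end

end Pool.Agent.Star
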