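import Pool.Agent.Star.Red4

/-!
# T2 / NF3: merging two vertices (Neutral Pair Lemma)

`mg p q` sends `q` to `p`.  The graph `mN N p q` is obtained from `N` by identifying `q` with `p`
(the vertex `q` is deleted), and `mC C p q` is the family of the images of the star sets that do
not contain both `p` and `q`.  The bound for the merged system gives killing sets with `f - 1`
elements which miss only very special star sets.
-/

set_option autoImplicit false
set_option linter.unusedSectionVars false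
set_option linter.unusedVariables false

namespace Pool.Agent.Star.Rig

open Finset

variable {V : Type*} [DecidableEq V]

/-- The identification of `q` with `p`. -/
def mg (p q x : V) : V := if x = q then p else x

/-- The graph in which `q` is identified with `p`. -/
def mN (N : V → Finset V) (p q : V) : V → Finset V := fun x =>
  if x = q then {q} else if x = p then (N p ∪ N q).image (mg p q) else (N x).image (mg p q)

open Classical in
/-- The images of the star sets not containing both `p` and `q`. -/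
noncomputable def mC (C : Finset (Finset V)) (p q : V) : Finset (Finset V) :=
  (C.filter (fun S => ¬ (p ∈ S ∧ q ∈ S))).image (fun S => S.image (mg p q))

section
variable {N : V → Finset V} {K : ℕ} {A : Finset V} {C : Finset (Finset V)} {p q : V}

lemma mg_q : mg p q q = p := by simp [mg]

lemma mg_ne {x : V} (h : x ≠ q) : mg p q x = x := by simp [mg, h]

lemma mg_p (hpq : p ≠ q) : mg p q p = p := mg_ne hpq

lemma mg_ne_q (hpq : p ≠ q) (x : V) : mg p q x ≠ q := by
  unfold mg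
  split_ifs with h
  · exact hpq
  · exact h

lemma mg_eq_p (hpq : p ≠ q) {x : V} : mg p q x = p ↔ x = p ∨ x = q := by
  unfold mg
  split_ifs with h
  · simp [h]
  · simp [h]

lemma mg_eq {x y : V} (hy : y ≠ p) (h : mg p q x = y) : x = y := by
  unfold mg at h
  split_ifs at h with h'
  · exact absurd h.symm hy
  · exact h

/-- Membership in the merged graph. -/
lemma mem_mN (hpq : p ≠ q) {x y : V} (hx : x ≠ q) :
    y ∈ mN N p q x ↔ ∃ x' y', mg p q x' = x ∧ mg p q y' = y ∧ y' ∈ N x' := by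
  unfold mN
  rw [if_neg hx]
  by_cases hxp : x = p
  · subst hxp
    rw [if_pos rfl, Finset.mem_image]
    constructor
    · rintro ⟨a, ha, rfl⟩
      rcases Finset.mem_union.1 ha with ha | ha
      · exact ⟨x, a, mg_p hpq, rfl, ha⟩
      · exact ⟨q, a, mg_q, rfl, ha⟩
    · rintro ⟨x', y', h1, h2, h3⟩
      refine ⟨y', ?_, h2⟩
      rcases (mg_eq_p hpq).1 h1 with rfl | rfl
      · exact Finset.mem_union_left _ h3
      · exact Finset.mem_union_right _ h3
  · rw [if_neg hxp, Finset.mem_image]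
    constructor
    · rintro ⟨a, ha, rfl⟩
      exact ⟨x, a, mg_ne hx, rfl, ha⟩
    · rintro ⟨x', y', h1, h2, h3⟩
      rw [mg_eq hxp h1] at h3
      exact ⟨y', h3, h2⟩

lemma mN_refl (hs : ∀ x, x ∈ N x) (hpq : p ≠ q) (x : V) : x ∈ mN N p q x := by
  by_cases hx : x = q
  · rw [hx]; unfold mN; simp
  · rw [mem_mN hpq hx]
    exact ⟨x, x, mg_ne hx, mg_ne hx, hs x⟩

lemma mN_ne_q (hpq : p ≠ q) {x y : V} (hx : x ≠ q) (h : y ∈ mN N p q x) : y ≠ q := by
  rw [mem_mN hpq hx] at h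
  obtain ⟨_, y', _, h2, _⟩ := h
  rw [← h2]; exact mg_ne_q hpq y'

lemma mN_symm (hsym : ∀ x y, x ∈ N y → y ∈ N x) (hpq : p ≠ q) (x y : V)
    (h : x ∈ mN N p q y) : y ∈ mN N p q x := by
  by_cases hy : y = q
  · subst hy
    unfold mN at h
    rw [if_pos rfl, Finset.mem_singleton] at h
    rw [h]; unfold mN; simp
  · have hx : x ≠ q := mN_ne_q hpq hy h
    rw [mem_mN hpq hy] at h
    obtain ⟨y', x', h1, h2, h3⟩ := h
    rw [mem_mN hpq hx]
    exact ⟨x', y', h2, h1, hsym _ _ h3⟩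

lemma mC_sys (hpq : p ≠ q) (hp : p ∈ A) (hS : Sys N K A C) :
    Sys (mN N p q) K (A.erase q) (mC C p q) := by
  refine ⟨?_, ?_, ?_⟩
  · intro S' hS'
    obtain ⟨S, hSC, rfl⟩ := Finset.mem_image.1 hS'
    intro x hx
    obtain ⟨y, hy, rfl⟩ := Finset.mem_image.1 hx
    refine Finset.mem_erase.2 ⟨mg_ne_q hpq y, ?_⟩
    by_cases hyq : y = q
    · rw [hyq, mg_q]; exact hp
    · rw [mg_ne hyq]; exact hS.sub S (Finset.mem_filter.1 hSC).1 hy
  · intro S' hS'
    obtain ⟨S, hSC, rfl⟩ := Finset.mem_image.1 hS'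
    rw [Finset.mem_filter] at hSC
    rw [Finset.card_image_of_injOn, hS.card S hSC.1]
    intro a ha b hb hab
    rw [Finset.mem_coe] at ha hb
    by_cases haq : a = q <;> by_cases hbq : b = q
    · rw [haq, hbq]
    · exfalso
      simp only [haq, mg_q, mg_ne hbq] at hab
      exact hSC.2 ⟨hab ▸ hb, haq ▸ ha⟩
    · exfalso
      simp only [hbq, mg_q, mg_ne haq] at hab
      exact hSC.2 ⟨hab ▸ ha, hbq ▸ hb⟩
    · simpa only [mg_ne haq, mg_ne hbq] using hab
  · intro S' hS'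
    obtain ⟨S, hSC, rfl⟩ := Finset.mem_image.1 hS'
    rw [Finset.mem_filter] at hSC
    obtain ⟨c, hc, hcN⟩ := hS.cen S hSC.1
    refine ⟨mg p q c, Finset.mem_image_of_mem _ hc, ?_⟩
    intro x hx
    obtain ⟨y, hy, rfl⟩ := Finset.mem_image.1 hx
    rw [mem_mN hpq (mg_ne_q hpq c)]
    exact ⟨c, y, rfl, rfl, hcN hy⟩

lemma mN_conn (hpq : p ≠ q) (hp : p ∈ A) (hA : Conn N A) : Conn (mN N p q) (A.erase q) := by
  refine ⟨⟨p, Finset.mem_erase.2 ⟨hpq, hp⟩⟩, ?_⟩
  intro B hB hne hneq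
  -- the preimage of `B`
  set B0 := A.filter (fun x => mg p q x ∈ B) with hB0
  have h1 : B0 ⊆ A := Finset.filter_subset _ _
  have h2 : B0.Nonempty := by
    obtain ⟨b, hb⟩ := hne
    have hb' := Finset.mem_erase.1 (hB hb)
    exact ⟨b, Finset.mem_filter.2 ⟨hb'.2, by rw [mg_ne hb'.1]; exact hb⟩⟩
  have h3 : B0 ≠ A := by
    intro h
    apply hneq
    apply Finset.Subset.antisymm hB
    intro x hx
    have hx' := Finset.mem_erase.1 hx
    have h4 : x ∈ B0 := by rw [h]; exact hx'.2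
    have h5 := (Finset.mem_filter.1 h4).2
    rwa [mg_ne hx'.1] at h5
  obtain ⟨x, hx, y, hy, hyB, hyx⟩ := hA.2 B0 h1 h2 h3
  refine ⟨mg p q x, (Finset.mem_filter.1 hx).2, mg p q y, ?_, ?_, ?_⟩
  · refine Finset.mem_erase.2 ⟨mg_ne_q hpq y, ?_⟩
    by_cases hyq : y = q
    · rw [hyq, mg_q]; exact hp
    · rw [mg_ne hyq]; exact hy
  · intro h
    exact hyB (Finset.mem_filter.2 ⟨hy, h⟩)
  · rw [mem_mN hpq (mg_ne_q hpq x)]
    exact ⟨x, y, rfl, rfl, hyx⟩

/-- The merging lemma: the translation of a killing set of the merged system. -/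
lemma merge_cases (hs : ∀ x, x ∈ N x) (hpq : p ≠ q) (hp : p ∈ A) (hq : q ∈ A)
    (hS : Sys N K A C) :
    ∃ D ⊆ A.erase q, D.card = gk (mN N p q) (A.erase q) (mC C p q) ∧
      ((p ∈ D ∧ Kills N (insert q D) C) ∨
       (p ∉ D ∧ (∀ S ∈ C, ¬ Hit N D S → p ∈ S ∧ q ∈ S)) ∨
       (p ∉ D ∧ (∃ d ∈ D, p ∈ N d) ∧ (∀ d ∈ D, q ∉ N d) ∧
          ∀ S ∈ C, ¬ Hit N D S → q ∈ S ∧ p ∉ S) ∨
       (p ∉ D ∧ (∃ d ∈ D, q ∈ N d) ∧ (∀ d ∈ D, p ∉ N d) ∧
          ∀ S ∈ C, ¬ Hit N D S → p ∈ S ∧ q ∉ S)) := by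
  classical
  have hS' := mC_sys hpq hp hS
  obtain ⟨D, hD, hDk, hDc⟩ := exists_gk (mN_refl hs hpq) hS'.sub
    (fun S hSC => hS'.nonempty hSC)
  have hDq : ∀ d ∈ D, d ≠ q := fun d hd => (Finset.mem_erase.1 (hD hd)).1
  refine ⟨D, hD, hDc, ?_⟩
  -- a star set not containing both is hit in the merged graph
  have key : ∀ S ∈ C, ¬ (p ∈ S ∧ q ∈ S) → ∃ d ∈ D, ∃ x ∈ S, ∃ d' y', mg p q d' = d ∧
      mg p q y' = mg p q x ∧ y' ∈ N d' := by
    intro S hSC hpq'
    have h1 : S.image (mg p q) ∈ mC C p q := by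
      unfold mC
      exact Finset.mem_image.2 ⟨S, Finset.mem_filter.2 ⟨hSC, hpq'⟩, rfl⟩
    obtain ⟨d, hd, y, hy, hyd⟩ := hDk _ h1
    obtain ⟨x, hx, rfl⟩ := Finset.mem_image.1 hy
    rw [mem_mN hpq (hDq d hd)] at hyd
    obtain ⟨d', y', h2, h3, h4⟩ := hyd
    exact ⟨d, hd, x, hx, d', y', h2, h3, h4⟩
  by_cases hpD : p ∈ D
  · left
    refine ⟨hpD, ?_⟩
    intro S hSC
    by_cases hb : p ∈ S ∧ q ∈ S
    · exact ⟨p, Finset.mem_insert_of_mem hpD, p, hb.1, hs p⟩
    · obtain ⟨d, hd, x, hx, d', y', h2, h3, h4⟩ := key S hSC hb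
      have hd' : d' ∈ insert q D := by
        by_cases h5 : d' = q
        · rw [h5]; exact Finset.mem_insert_self _ _
        · rw [mg_ne h5] at h2; rw [h2]; exact Finset.mem_insert_of_mem hd
      by_cases hxp : mg p q x = p
      · -- `x` is `p` or `q`; the two merged vertices are in the killing set
        rcases (mg_eq_p hpq).1 hxp with h5 | h5
        · exact ⟨p, Finset.mem_insert_of_mem hpD, p, h5 ▸ hx, hs p⟩
        · exact ⟨q, Finset.mem_insert_self _ _, q, h5 ▸ hx, hs q⟩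
      · have h5 : x ≠ q := by
          rintro rfl
          exact hxp mg_q
        rw [mg_ne h5] at h3
        have h6 : x ≠ p := by
          rintro rfl
          exact hxp (mg_p hpq)
        have h7 := mg_eq h6 h3
        rw [h7] at h4
        exact ⟨d', hd', x, hx, h4⟩
  · right
    -- now `D` avoids `p` and `q`
    have hdd : ∀ d ∈ D, ∀ d', mg p q d' = d → d' = d := by
      intro d hd d' h
      exact mg_eq (fun h' => hpD (by rw [← h']; exact hd)) h
    have key2 : ∀ S ∈ C, ¬ (p ∈ S ∧ q ∈ S) → ¬ Hit N D S →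
        (p ∈ S ∧ ∃ d ∈ D, q ∈ N d) ∨ (q ∈ S ∧ ∃ d ∈ D, p ∈ N d) := by
      intro S hSC hb hnh
      obtain ⟨d, hd, x, hx, d', y', h2, h3, h4⟩ := key S hSC hb
      rw [hdd d hd d' h2] at h4
      by_cases hxp : mg p q x = p
      · rw [hxp] at h3
        rcases (mg_eq_p hpq).1 hxp with h5 | h5
        · rcases (mg_eq_p hpq).1 h3 with h6 | h6
          · exact absurd ⟨d, hd, x, hx, by rw [h5]; rwa [h6] at h4⟩ hnh
          · left
            exact ⟨h5 ▸ hx, d, hd, by rwa [h6] at h4⟩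
        · rcases (mg_eq_p hpq).1 h3 with h6 | h6
          · right
            exact ⟨h5 ▸ hx, d, hd, by rwa [h6] at h4⟩
          · exact absurd ⟨d, hd, x, hx, by rw [h5]; rwa [h6] at h4⟩ hnh
      · exfalso
        have h5 : x ≠ q := by
          rintro rfl
          exact hxp mg_q
        rw [mg_ne h5] at h3
        have h6 : x ≠ p := by
          rintro rfl
          exact hxp (mg_p hpq)
        have h7 := mg_eq h6 h3
        rw [h7] at h4
        exact hnh ⟨d, hd, x, hx, h4⟩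
    by_cases hpn : ∃ d ∈ D, p ∈ N d
    · have hpS : ∀ S ∈ C, ¬ Hit N D S → p ∉ S := by
        intro S hSC hnh hpS
        obtain ⟨d, hd, hpd⟩ := hpn
        exact hnh ⟨d, hd, p, hpS, hpd⟩
      by_cases hqn : ∃ d ∈ D, q ∈ N d
      · left
        refine ⟨hpD, ?_⟩
        intro S hSC hnh
        exfalso
        have h1 := hpS S hSC hnh
        have h2 : q ∉ S := by
          intro hqS
          obtain ⟨d, hd, hqd⟩ := hqn
          exact hnh ⟨d, hd, q, hqS, hqd⟩
        rcases key2 S hSC (fun h => h1 h.1) hnh with h3 | h3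
        · exact h1 h3.1
        · exact h2 h3.1
      · right; left
        refine ⟨hpD, hpn, fun d hd h => hqn ⟨d, hd, h⟩, ?_⟩
        intro S hSC hnh
        have h1 := hpS S hSC hnh
        rcases key2 S hSC (fun h => h1 h.1) hnh with h3 | h3
        · exact absurd h3.1 h1
        · exact ⟨h3.1, h1⟩
    · by_cases hqn : ∃ d ∈ D, q ∈ N d
      · right; right
        refine ⟨hpD, hqn, fun d hd h => hpn ⟨d, hd, h⟩, ?_⟩
        intro S hSC hnh
        have h1 : q ∉ S := by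
          intro hqS
          obtain ⟨d, hd, hqd⟩ := hqn
          exact hnh ⟨d, hd, q, hqS, hqd⟩
        rcases key2 S hSC (fun h => h1 h.2) hnh with h3 | h3
        · exact ⟨h3.1, h1⟩
        · exact absurd h3.2 hpn
      · left
        refine ⟨hpD, ?_⟩
        intro S hSC hnh
        by_contra hb
        rcases key2 S hSC hb hnh with h3 | h3
        · exact hqn h3.2
        · exact hpn h3.2

/-- NEUTRAL PAIR LEMMA (T2, NF3).  Let `A` be a connected system with `e ≥ -1` and more than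
`2 K + 1` vertices all of whose smaller systems satisfy the bound.  For all `p ≠ q` there is `D`
with at most `f - 1` elements such that: `D + q` is a killing set and `p ∈ D`; or all star sets
missed by `D` contain `p` and `q`; or `D` dominates exactly one of `p`, `q` and all missed star
sets contain the other one. -/
theorem neutral_pair (hs : ∀ x, x ∈ N x) (hsym : ∀ x y, x ∈ N y → y ∈ N x) (hK : 1 ≤ K)
    (hS : Sys N K A C) (hA : Conn N A)
    (hE : ∀ N' : V → Finset V, (∀ x, x ∈ N' x) → (∀ x y, x ∈ N' y → y ∈ N' x) →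
      ∀ A' C', A'.card < A.card → Sys N' K A' C' → Conn N' A' → Bd N' K A' C')
    (he : 2 * A.card ≤ (2 * K + 1) * gk N A C + 1) (hbig : 2 * K + 1 < A.card)
    (hpq : p ≠ q) (hp : p ∈ A) (hq : q ∈ A) :
    ∃ D ⊆ A, D.card + 1 ≤ gk N A C ∧
      ((p ∈ D ∧ Kills N (insert q D) C) ∨
       (p ∉ D ∧ q ∉ D ∧ (∀ S ∈ C, ¬ Hit N D S → p ∈ S ∧ q ∈ S)) ∨
       (p ∉ D ∧ q ∉ D ∧ (∃ d ∈ D, p ∈ N d) ∧ (∀ d ∈ D, q ∉ N d) ∧
          ∀ S ∈ C, ¬ Hit N D S → q ∈ S ∧ p ∉ S) ∨
       (p ∉ D ∧ q ∉ D ∧ (∃ d ∈ D, q ∈ N d) ∧ (∀ d ∈ D, p ∉ N d) ∧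
          ∀ S ∈ C, ¬ Hit N D S → p ∈ S ∧ q ∉ S)) := by
  obtain ⟨D, hD, hDc, h⟩ := merge_cases hs hpq hp hq hS
  have hc : (A.erase q).card + 1 = A.card := Finset.card_erase_add_one hq
  have hb := hE (mN N p q) (mN_refl hs hpq) (mN_symm hsym hpq) (A.erase q) (mC C p q)
    (by omega) (mC_sys hpq hp hS) (mN_conn hpq hp hA)
  have hlt : D.card + 1 ≤ gk N A C := by
    rcases hb with h1 | ⟨h1, h2⟩ | ⟨h1, h2⟩
    · rw [← hDc] at h1
      by_contra hcon
      have h3 : gk N A C ≤ D.card := by omega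
      have h4 : (2 * K + 1) * gk N A C ≤ (2 * K + 1) * D.card := Nat.mul_le_mul_left _ h3
      omega
    · omega
    · omega
  have hqD : q ∉ D := fun hqD => (Finset.mem_erase.1 (hD hqD)).1 rfl
  refine ⟨D, hD.trans (Finset.erase_subset _ _), hlt, ?_⟩
  rcases h with ⟨h1, h2⟩ | ⟨h1, h2⟩ | ⟨h1, h2, h3, h4⟩ | ⟨h1, h2, h3, h4⟩
  · exact Or.inl ⟨h1, h2⟩
  · exact Or.inr (Or.inl ⟨h1, hqD, h2⟩)
  · exact Or.inr (Or.inr (Or.inl ⟨h1, hqD, h2, h3, h4⟩))
  · exact Or.inr (Or.inr (Or.inr ⟨h1, hqD, h2, h3, h4⟩))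

end

end Pool.Agent.Star.Rig
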