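import Pool.Agent.Star.Basic

/-!
# Pairs of packings: the identity and the minimal weight

`N x` is the closed neighbourhood of `x`, all closed neighbourhoods have at most `K` elements, a
centre is a vertex with exactly `K`.  A packing is a set of centres with pairwise disjoint closed
neighbourhoods.  For two packings `P` (rows) and `X` (columns) of the same size the deficit
`s - 2 q` is computed from the marks of the rows and columns (`pair_identity`).
-/

set_option autoImplicit false
set_option linter.unusedSectionVars false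

namespace Pool.Agent.Star

open Finset

variable {V : Type*} [Fintype V] [DecidableEq V]

/-- A packing: centres with pairwise disjoint closed neighbourhoods. -/
structure Pack (N : V → Finset V) (K : ℕ) (P : Finset V) : Prop where
  cen : ∀ c ∈ P, (N c).card = K
  far : ∀ a ∈ P, ∀ b ∈ P, a ≠ b → Disjoint (N a) (N b)

/-- The packing condition of order `s`: any `D` with fewer than `s` vertices leaves a centre whose
closed neighbourhood is disjoint from those of `D`. -/
def Ipc (N : V → Finset V) (K s : ℕ) : Prop :=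
  ∀ D : Finset V, D.card < s → ∃ c, (N c).card = K ∧ ∀ d ∈ D, Disjoint (N c) (N d)

/-- The vertices missed by a packing. -/
def miss (N : V → Finset V) (P : Finset V) : Finset V := Finset.univ \ P.biUnion N

section
variable {N : V → Finset V} {K s : ℕ}

lemma mem_miss {P : Finset V} {v : V} : v ∈ miss N P ↔ ∀ p ∈ P, v ∉ N p := by
  simp [miss]

lemma Pack.card_biUnion {P : Finset V} (hP : Pack N K P) : (P.biUnion N).card = K * P.card := by
  rw [Finset.card_biUnion (fun a ha b hb hab => hP.far a ha b hb hab),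
    Finset.sum_congr rfl hP.cen, Finset.sum_const, smul_eq_mul, mul_comm]

lemma Pack.card_miss {P : Finset V} (hP : Pack N K P) :
    (miss N P).card + K * P.card = Fintype.card V := by
  rw [← hP.card_biUnion, miss, Finset.card_sdiff_of_subset (Finset.subset_univ _),
    Finset.card_univ]
  have := Finset.card_le_univ (P.biUnion N)
  omega

/-- The common size `q` of the missed sets. -/
lemma Pack.card_miss_eq {P X : Finset V} (hP : Pack N K P) (hX : Pack N K X)
    (h : P.card = X.card) : (miss N P).card = (miss N X).card := by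
  have h1 := hP.card_miss
  have h2 := hX.card_miss
  rw [h] at h1
  omega

/-- Every vertex set meets the rows of a packing additively. -/
lemma Pack.sum_inter {X : Finset V} (hX : Pack N K X) (A : Finset V) :
    ∑ x ∈ X, (N x ∩ A).card = (A \ miss N X).card := by
  have h1 : A \ miss N X = X.biUnion (fun x => N x ∩ A) := by
    ext v
    simp only [Finset.mem_sdiff, mem_miss, Finset.mem_biUnion, Finset.mem_inter]
    constructor
    · rintro ⟨h1, h2⟩
      push Not at h2
      obtain ⟨x, hx, hv⟩ := h2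
      exact ⟨x, hx, hv, h1⟩
    · rintro ⟨x, hx, hv, h1⟩
      exact ⟨h1, fun h2 => h2 x hx hv⟩
  rw [h1, Finset.card_biUnion]
  intro a ha b hb hab
  exact (hX.far a ha b hb hab).mono Finset.inter_subset_left Finset.inter_subset_left

lemma card_sdiff_miss (A B : Finset V) : (A \ B).card + (A ∩ B).card = A.card := by
  rw [Finset.card_sdiff_add_card_inter]

/-! ### matched labels -/

/-- The matched labels, as pairs (row, column). -/
def mat (N : V → Finset V) (P X : Finset V) : Finset (V × V) :=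
  (P ×ˢ X).filter (fun p => p.2 ∈ N p.1)

/-- The unmatched members of `P` relative to `X`. -/
def unm (N : V → Finset V) (P X : Finset V) : Finset V :=
  P.filter (fun a => Disjoint (N a) X)

lemma mem_mat {P X : Finset V} {p : V × V} : p ∈ mat N P X ↔ p.1 ∈ P ∧ p.2 ∈ X ∧ p.2 ∈ N p.1 := by
  simp [mat, and_assoc]

lemma mem_unm {P X : Finset V} {a : V} : a ∈ unm N P X ↔ a ∈ P ∧ ∀ x ∈ X, x ∉ N a := by
  simp only [unm, Finset.mem_filter, Finset.disjoint_right]

/-- A member of `P` has at most one partner in `X`. -/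
lemma partner_unique (hsym : ∀ x y, x ∈ N y → y ∈ N x) {X : Finset V} (hX : Pack N K X)
    {a x y : V} (hx : x ∈ X) (hy : y ∈ X) (hxa : x ∈ N a) (hya : y ∈ N a) : x = y := by
  by_contra hne
  exact Finset.disjoint_left.1 (hX.far x hx y hy hne) (hsym _ _ hxa) (hsym _ _ hya)

lemma mat_injOn_fst (hsym : ∀ x y, x ∈ N y → y ∈ N x) {P X : Finset V} (hX : Pack N K X) :
    Set.InjOn Prod.fst (mat N P X : Set (V × V)) := by
  rintro ⟨a, x⟩ h1 ⟨b, y⟩ h2 (hab : a = b)
  subst hab
  rw [Finset.mem_coe, mem_mat] at h1 h2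
  have := partner_unique hsym hX h1.2.1 h2.2.1 h1.2.2 h2.2.2
  simp only at this
  rw [this]

lemma mat_injOn_snd (hsym : ∀ x y, x ∈ N y → y ∈ N x) {P X : Finset V} (hP : Pack N K P) :
    Set.InjOn Prod.snd (mat N P X : Set (V × V)) := by
  rintro ⟨a, x⟩ h1 ⟨b, y⟩ h2 (hab : x = y)
  subst hab
  rw [Finset.mem_coe, mem_mat] at h1 h2
  have := partner_unique hsym hP h1.1 h2.1 (hsym _ _ h1.2.2) (hsym _ _ h2.2.2)
  simp only at this
  rw [this]

lemma image_fst_mat {P X : Finset V} : (mat N P X).image Prod.fst = P \ unm N P X := by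
  ext a
  simp only [Finset.mem_image, mem_mat, Finset.mem_sdiff, mem_unm, Prod.exists]
  constructor
  · rintro ⟨b, x, ⟨h1, h2, h3⟩, rfl⟩
    exact ⟨h1, fun h => h.2 x h2 h3⟩
  · rintro ⟨h1, h2⟩
    have : ∃ x ∈ X, x ∈ N a := by
      by_contra hcon
      push Not at hcon
      exact h2 ⟨h1, hcon⟩
    obtain ⟨x, hx, hxa⟩ := this
    exact ⟨a, x, ⟨h1, hx, hxa⟩, rfl⟩

lemma image_snd_mat (hsym : ∀ x y, x ∈ N y → y ∈ N x) {P X : Finset V} :
    (mat N P X).image Prod.snd = X \ unm N X P := by
  ext a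
  simp only [Finset.mem_image, mem_mat, Finset.mem_sdiff, mem_unm, Prod.exists]
  constructor
  · rintro ⟨b, x, ⟨h1, h2, h3⟩, rfl⟩
    exact ⟨h2, fun h => h.2 b h1 (hsym _ _ h3)⟩
  · rintro ⟨h1, h2⟩
    have : ∃ x ∈ P, x ∈ N a := by
      by_contra hcon
      push Not at hcon
      exact h2 ⟨h1, hcon⟩
    obtain ⟨x, hx, hxa⟩ := this
    exact ⟨x, a, ⟨hx, h1, hsym _ _ hxa⟩, rfl⟩

lemma unm_subset {P X : Finset V} : unm N P X ⊆ P := Finset.filter_subset _ _

lemma card_mat_add_unm (hsym : ∀ x y, x ∈ N y → y ∈ N x) {P X : Finset V} (hX : Pack N K X) :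
    (mat N P X).card + (unm N P X).card = P.card := by
  rw [← Finset.card_image_of_injOn (mat_injOn_fst hsym hX), image_fst_mat,
    Finset.card_sdiff_of_subset unm_subset]
  have := Finset.card_le_card (unm_subset (N := N) (P := P) (X := X))
  omega

lemma card_mat_add_unm' (hsym : ∀ x y, x ∈ N y → y ∈ N x) {P X : Finset V} (hP : Pack N K P) :
    (mat N P X).card + (unm N X P).card = X.card := by
  rw [← Finset.card_image_of_injOn (mat_injOn_snd hsym hP), image_snd_mat hsym,
    Finset.card_sdiff_of_subset unm_subset]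
  have := Finset.card_le_card (unm_subset (N := N) (P := X) (X := P))
  omega

/-- Sums over the rows split into matched and unmatched labels. -/
lemma sum_rows (hsym : ∀ x y, x ∈ N y → y ∈ N x) {P X : Finset V} (hX : Pack N K X)
    (g : V → ℤ) : ∑ a ∈ P, g a = ∑ p ∈ mat N P X, g p.1 + ∑ a ∈ unm N P X, g a := by
  rw [← Finset.sum_image (f := g) (mat_injOn_fst hsym hX), image_fst_mat,
    Finset.sum_sdiff unm_subset]

lemma sum_cols (hsym : ∀ x y, x ∈ N y → y ∈ N x) {P X : Finset V} (hP : Pack N K P)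
    (g : V → ℤ) : ∑ a ∈ X, g a = ∑ p ∈ mat N P X, g p.2 + ∑ a ∈ unm N X P, g a := by
  rw [← Finset.sum_image (f := g) (mat_injOn_snd hsym hP), image_snd_mat hsym,
    Finset.sum_sdiff unm_subset]

/-- Marks of the row `a`: vertices of `N a` missed by `X`. -/
def mk (N : V → Finset V) (X : Finset V) (a : V) : ℕ := (N a ∩ miss N X).card

/-- The identity (doubled): the deficit of the graph from the marks of any pair of packings. -/
theorem pair_identity (hsym : ∀ x y, x ∈ N y → y ∈ N x) {P X : Finset V} (hP : Pack N K P)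
    (hX : Pack N K X) (hc : P.card = X.card) :
    2 * (P.card : ℤ) - 4 * ((miss N P).card : ℤ) + 4 * ((miss N P ∩ miss N X).card : ℤ) =
      ∑ p ∈ mat N P X, (2 - 2 * (mk N X p.1 : ℤ) - 2 * (mk N P p.2 : ℤ)) +
      ∑ a ∈ unm N P X, (1 - 2 * (mk N X a : ℤ)) + ∑ a ∈ unm N X P, (1 - 2 * (mk N P a : ℤ)) := by
  have hq := hP.card_miss_eq hX hc
  have h1 : ∑ a ∈ P, mk N X a = (miss N X \ miss N P).card := hP.sum_inter _
  have h2 : ∑ a ∈ X, mk N P a = (miss N P \ miss N X).card := hX.sum_inter _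
  have h3 := card_sdiff_miss (miss N X) (miss N P)
  have h4 := card_sdiff_miss (miss N P) (miss N X)
  rw [Finset.inter_comm] at h3
  have h1' : (∑ a ∈ P, (1 - 2 * (mk N X a : ℤ))) =
      P.card - 2 * ((miss N P).card - (miss N P ∩ miss N X).card : ℤ) := by
    rw [Finset.sum_sub_distrib, ← Finset.mul_sum, ← Nat.cast_sum, h1]
    simp only [Finset.sum_const, nsmul_eq_mul, mul_one]
    have : ((miss N X \ miss N P).card : ℤ) =
        (miss N P).card - (miss N P ∩ miss N X).card := by omega
    rw [this]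
  have h2' : (∑ a ∈ X, (1 - 2 * (mk N P a : ℤ))) =
      P.card - 2 * ((miss N P).card - (miss N P ∩ miss N X).card : ℤ) := by
    rw [Finset.sum_sub_distrib, ← Finset.mul_sum, ← Nat.cast_sum, h2]
    simp only [Finset.sum_const, nsmul_eq_mul, mul_one]
    have : ((miss N P \ miss N X).card : ℤ) =
        (miss N P).card - (miss N P ∩ miss N X).card := by omega
    rw [this, hc]
  rw [sum_rows hsym hX] at h1'
  rw [sum_cols hsym hP] at h2'
  have h5 : ∑ p ∈ mat N P X, (2 - 2 * (mk N X p.1 : ℤ) - 2 * (mk N P p.2 : ℤ)) =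
      ∑ p ∈ mat N P X, (1 - 2 * (mk N X p.1 : ℤ)) +
      ∑ p ∈ mat N P X, (1 - 2 * (mk N P p.2 : ℤ)) := by
    rw [← Finset.sum_add_distrib]
    exact Finset.sum_congr rfl (fun p _ => by ring)
  rw [h5]
  linarith

/-- The unmarked matched labels. -/
def uu (N : V → Finset V) (P X : Finset V) : Finset (V × V) :=
  (mat N P X).filter (fun p => mk N X p.1 = 0 ∧ mk N P p.2 = 0)

/-- The doubled surplus of a pair. -/
def surp (N : V → Finset V) (P X : Finset V) : ℤ :=
  ∑ p ∈ mat N P X \ uu N P X, (2 * (mk N X p.1 : ℤ) + 2 * (mk N P p.2 : ℤ) - 2) +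
    ∑ a ∈ unm N P X, (2 * (mk N X a : ℤ) - 1) + ∑ a ∈ unm N X P, (2 * (mk N P a : ℤ) - 1) +
    4 * ((miss N P ∩ miss N X).card : ℤ)

/-- `s - 2 q = #UU - surplus`. -/
theorem pair_identity' (hsym : ∀ x y, x ∈ N y → y ∈ N x) {P X : Finset V} (hP : Pack N K P)
    (hX : Pack N K X) (hc : P.card = X.card) :
    2 * (P.card : ℤ) - 4 * ((miss N P).card : ℤ) = 2 * ((uu N P X).card : ℤ) - surp N P X := by
  have h := pair_identity hsym hP hX hc
  have hsub : uu N P X ⊆ mat N P X := Finset.filter_subset _ _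
  have h1 : ∑ p ∈ mat N P X, (2 - 2 * (mk N X p.1 : ℤ) - 2 * (mk N P p.2 : ℤ)) =
      ∑ p ∈ mat N P X \ uu N P X, (2 - 2 * (mk N X p.1 : ℤ) - 2 * (mk N P p.2 : ℤ)) +
      2 * ((uu N P X).card : ℤ) := by
    rw [← Finset.sum_sdiff hsub]
    congr 1
    have : ∀ p ∈ uu N P X, (2 - 2 * (mk N X p.1 : ℤ) - 2 * (mk N P p.2 : ℤ)) = 2 := by
      intro p hp
      obtain ⟨-, h1, h2⟩ := Finset.mem_filter.1 hp
      rw [h1, h2]; norm_num
    rw [Finset.sum_congr rfl this, Finset.sum_const, nsmul_eq_mul, mul_comm]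
  have h2 : ∀ (A : Finset (V × V)), ∑ p ∈ A, (2 * (mk N X p.1 : ℤ) + 2 * (mk N P p.2 : ℤ) - 2) =
      - ∑ p ∈ A, (2 - 2 * (mk N X p.1 : ℤ) - 2 * (mk N P p.2 : ℤ)) := by
    intro A
    rw [← Finset.sum_neg_distrib]
    exact Finset.sum_congr rfl (fun p _ => by ring)
  have h3 : ∀ (A : Finset V) (Y : Finset V), ∑ a ∈ A, (2 * (mk N Y a : ℤ) - 1) =
      - ∑ a ∈ A, (1 - 2 * (mk N Y a : ℤ)) := by
    intro A Y
    rw [← Finset.sum_neg_distrib]
    exact Finset.sum_congr rfl (fun p _ => by ring)
  rw [surp, h2, h3, h3]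
  rw [h1] at h
  linarith

/-- If some pair has surplus at least the number of unmarked labels then `s ≤ 2 q`. -/
theorem le_two_mul_of_pair (hsym : ∀ x y, x ∈ N y → y ∈ N x) {P X : Finset V} (hP : Pack N K P)
    (hX : Pack N K X) (hc : P.card = X.card) (h : 2 * ((uu N P X).card : ℤ) ≤ surp N P X) :
    P.card ≤ 2 * (miss N P).card := by
  have := pair_identity' hsym hP hX hc
  omega

/-! ### packings exist -/

lemma Pack.insert {P : Finset V} (hP : Pack N K P) {c : V} (hc : (N c).card = K)
    (hf : ∀ a ∈ P, Disjoint (N c) (N a)) : Pack N K (insert c P) := by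
  refine ⟨fun a ha => ?_, fun a ha b hb hab => ?_⟩
  · rcases Finset.mem_insert.1 ha with h | h
    · rw [h]; exact hc
    · exact hP.cen a h
  · rcases Finset.mem_insert.1 ha with h | h <;> rcases Finset.mem_insert.1 hb with h' | h'
    · exact absurd (h.trans h'.symm) hab
    · rw [h]; exact hf b h'
    · rw [h']; exact (hf a h).symm
    · exact hP.far a h b h' hab

/-- Every packing with fewer than `s` members extends to a packing with `s` members. -/
lemma Ipc.extend (hs : ∀ x, x ∈ N x) (h : Ipc N K s) :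
    ∀ (n : ℕ) {P : Finset V}, Pack N K P → P.card + n = s →
      ∃ P', Pack N K P' ∧ P ⊆ P' ∧ P'.card = s := by
  intro n
  induction n with
  | zero => intro P hP hc; exact ⟨P, hP, Finset.Subset.refl _, by omega⟩
  | succ n ih =>
    intro P hP hc
    obtain ⟨c, hc1, hc2⟩ := h P (by omega)
    have hcP : c ∉ P := fun hcP =>
      Finset.disjoint_left.1 (hc2 c hcP) (hs c) (hs c)
    have hP' : Pack N K (insert c P) := hP.insert hc1 hc2
    obtain ⟨P', h1, h2, h3⟩ := ih hP' (by rw [Finset.card_insert_of_notMem hcP]; omega)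
    exact ⟨P', h1, (Finset.subset_insert _ _).trans h2, h3⟩

lemma pack_empty : Pack N K (∅ : Finset V) := ⟨by simp, by simp⟩

/-- The survivors of the packing condition as a greedy family: for any `D` with at most `s - j`
vertices there are `j` pairwise far centres far from `D`. -/
lemma Ipc.greedy (hs : ∀ x, x ∈ N x) (h : Ipc N K s) :
    ∀ (j : ℕ) (D : Finset V), D.card + j ≤ s →
      ∃ Y, Pack N K Y ∧ Y.card = j ∧ ∀ y ∈ Y, ∀ d ∈ D, Disjoint (N y) (N d) := by
  intro j
  induction j with
  | zero => intro D _; exact ⟨∅, pack_empty, rfl, by simp⟩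
  | succ j ih =>
    intro D hD
    obtain ⟨c, hc1, hc2⟩ := h D (by omega)
    have hcD : c ∉ D := fun hcD => Finset.disjoint_left.1 (hc2 c hcD) (hs c) (hs c)
    obtain ⟨Y, hY1, hY2, hY3⟩ := ih (insert c D) (by
      rw [Finset.card_insert_of_notMem hcD]; omega)
    have hcY : c ∉ Y := fun hcY =>
      Finset.disjoint_left.1 (hY3 c hcY c (Finset.mem_insert_self _ _)) (hs c) (hs c)
    refine ⟨insert c Y, hY1.insert hc1 (fun y hy => (hY3 y hy c
      (Finset.mem_insert_self _ _)).symm), by rw [Finset.card_insert_of_notMem hcY, hY2], ?_⟩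
    · intro y hy d hd
      rcases Finset.mem_insert.1 hy with rfl | hy
      · exact hc2 d hd
      · exact hY3 y hy d (Finset.mem_insert_of_mem hd)

/-! ### the weight -/

/-- The weight `m` of a pair. -/
def wt (N : V → Finset V) (P X : Finset V) : ℕ := ∑ p ∈ mat N P X, (N p.1 ∩ N p.2).card

/-- The weight of a vertex relative to a packing. -/
def mu (N : V → Finset V) (P : Finset V) (x : V) : ℕ :=
  ∑ a ∈ P.filter (fun a => x ∈ N a), (N a ∩ N x).card

lemma wt_eq_sum_mu (P X : Finset V) : wt N P X = ∑ x ∈ X, mu N P x := by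
  unfold wt mu mat
  rw [Finset.sum_filter, Finset.sum_product_right]
  refine Finset.sum_congr rfl (fun x _ => ?_)
  rw [Finset.sum_filter]

lemma wt_comm (hsym : ∀ x y, x ∈ N y → y ∈ N x) (P X : Finset V) : wt N P X = wt N X P := by
  rw [wt_eq_sum_mu]
  unfold wt mu mat
  rw [Finset.sum_filter, Finset.sum_product]
  refine Finset.sum_congr rfl (fun x _ => ?_)
  rw [Finset.sum_filter]
  refine Finset.sum_congr rfl (fun a _ => ?_)
  rw [Finset.inter_comm]
  by_cases h : x ∈ N a
  · rw [if_pos h, if_pos (hsym _ _ h)]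
  · rw [if_neg h, if_neg (fun h' => h (hsym _ _ h'))]

/-- The weight of a vertex in the row `a`. -/
lemma mu_eq {P : Finset V} (hP : Pack N K P) {a x : V}
    (ha : a ∈ P) (hx : x ∈ N a) : mu N P x = (N a ∩ N x).card := by
  have h1 : P.filter (fun b => x ∈ N b) = {a} := by
    ext b
    simp only [Finset.mem_filter, Finset.mem_singleton]
    constructor
    · rintro ⟨hb, hxb⟩
      by_contra hne
      exact Finset.disjoint_left.1 (hP.far b hb a ha hne) hxb hx
    · rintro rfl
      exact ⟨ha, hx⟩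
  unfold mu
  rw [h1, Finset.sum_singleton]

lemma mu_eq_zero {P : Finset V} {x : V} (hx : x ∈ miss N P) : mu N P x = 0 := by
  have h1 : P.filter (fun b => x ∈ N b) = ∅ := by
    ext b
    simp only [Finset.mem_filter, Finset.notMem_empty, iff_false]
    rintro ⟨hb, hxb⟩
    exact mem_miss.1 hx b hb hxb
  unfold mu
  rw [h1, Finset.sum_empty]

/-- A minimal pair: of minimal weight among all pairs of packings of size `s`. -/
structure MinPair (N : V → Finset V) (K s : ℕ) (P X : Finset V) : Prop where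
  hP : Pack N K P
  hX : Pack N K X
  cP : P.card = s
  cX : X.card = s
  min : ∀ P' X', Pack N K P' → Pack N K X' → P'.card = s → X'.card = s → wt N P X ≤ wt N P' X'

lemma exists_minPair (hs : ∀ x, x ∈ N x) (h : Ipc N K s) : ∃ P X, MinPair N K s P X := by
  obtain ⟨P, hP, hPc, -⟩ := h.greedy hs s ∅ (by simp)
  classical
  have hne : ∃ m, ∃ P X, (Pack N K P ∧ Pack N K X ∧ P.card = s ∧ X.card = s) ∧ wt N P X = m :=
    ⟨_, P, P, ⟨hP, hP, hPc, hPc⟩, rfl⟩
  obtain ⟨P, X, ⟨h1, h2, h3, h4⟩, h5⟩ := Nat.find_spec hne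
  refine ⟨P, X, h1, h2, h3, h4, fun P' X' a1 a2 a3 a4 => ?_⟩
  rw [h5]
  exact Nat.find_min' hne ⟨P', X', ⟨a1, a2, a3, a4⟩, rfl⟩

lemma MinPair.symm (hsym : ∀ x y, x ∈ N y → y ∈ N x) {P X : Finset V} (h : MinPair N K s P X) :
    MinPair N K s X P :=
  ⟨h.hX, h.hP, h.cX, h.cP, fun P' X' a1 a2 a3 a4 => by
    rw [wt_comm hsym X P, wt_comm hsym P' X']
    exact h.min X' P' a2 a1 a4 a3⟩

/-- The exchange inequality: for `J ⊆ X`, a packing `Y` of the size of `J` far from `X \ J` has
weight at least that of `J`. -/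
lemma MinPair.exchange (hs : ∀ x, x ∈ N x) {P X J Y : Finset V} (h : MinPair N K s P X)
    (hJ : J ⊆ X) (hY : Pack N K Y) (hc : Y.card = J.card)
    (hfar : ∀ y ∈ Y, ∀ x ∈ X \ J, Disjoint (N y) (N x)) :
    ∑ x ∈ J, mu N P x ≤ ∑ y ∈ Y, mu N P y := by
  have hdis : Disjoint (X \ J) Y := by
    rw [Finset.disjoint_left]
    intro y h1 h2
    exact Finset.disjoint_left.1 (hfar y h2 y h1) (hs y) (hs y)
  have hpack : Pack N K ((X \ J) ∪ Y) := by
    refine ⟨?_, ?_⟩
    · intro a ha
      rcases Finset.mem_union.1 ha with ha | ha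
      · exact h.hX.cen a (Finset.mem_sdiff.1 ha).1
      · exact hY.cen a ha
    · intro a ha b hb hab
      rcases Finset.mem_union.1 ha with ha | ha
      · rcases Finset.mem_union.1 hb with hb | hb
        · exact h.hX.far a (Finset.mem_sdiff.1 ha).1 b (Finset.mem_sdiff.1 hb).1 hab
        · exact (hfar b hb a ha).symm
      · rcases Finset.mem_union.1 hb with hb | hb
        · exact hfar a ha b hb
        · exact hY.far a ha b hb hab
  have hcard : ((X \ J) ∪ Y).card = s := by
    rw [Finset.card_union_of_disjoint hdis, Finset.card_sdiff_of_subset hJ, hc]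
    have := Finset.card_le_card hJ
    have := h.cX
    omega
  have h1 := h.min P ((X \ J) ∪ Y) h.hP hpack h.cP hcard
  rw [wt_eq_sum_mu, wt_eq_sum_mu, Finset.sum_union hdis, ← Finset.sum_sdiff hJ] at h1
  omega

end

end Pool.Agent.Star
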