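import Pool.Agent.Star.Pair

/-!
# Exchanges in a part of the rows without marks

Let `P` and `X` be packings such that every vertex is in the closed neighbourhood of a member of
`P` or of `X`, and let `B ⊆ P` be a set of matched rows which contain no vertices missed by `X`.
Then `B` may be replaced by any packing of the same size far from `P \ B`: the new packing has the
same properties, and as many unmatched members.
-/

set_option autoImplicit false
set_option linter.unusedSectionVars false

namespace Pool.Agent.Star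

open Finset

variable {V : Type*} [Fintype V] [DecidableEq V] {N : V → Finset V} {K s : ℕ}

/-- Replacing a part of a packing. -/
lemma Pack.replace {P B Y : Finset V} (hP : Pack N K P) (hY : Pack N K Y)
    (hfar : ∀ y ∈ Y, ∀ x ∈ P \ B, Disjoint (N y) (N x)) : Pack N K ((P \ B) ∪ Y) := by
  refine ⟨?_, ?_⟩
  · intro a ha
    rcases Finset.mem_union.1 ha with ha | ha
    · exact hP.cen a (Finset.mem_sdiff.1 ha).1
    · exact hY.cen a ha
  · intro a ha b hb hab
    rcases Finset.mem_union.1 ha with ha | ha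
    · rcases Finset.mem_union.1 hb with hb | hb
      · exact hP.far a (Finset.mem_sdiff.1 ha).1 b (Finset.mem_sdiff.1 hb).1 hab
      · exact (hfar b hb a ha).symm
    · rcases Finset.mem_union.1 hb with hb | hb
      · exact hfar a ha b hb
      · exact hY.far a ha b hb hab

lemma disjoint_of_far (hs : ∀ x, x ∈ N x) {P B Y : Finset V}
    (hfar : ∀ y ∈ Y, ∀ x ∈ P \ B, Disjoint (N y) (N x)) : Disjoint (P \ B) Y := by
  rw [Finset.disjoint_left]
  intro y h1 h2
  exact Finset.disjoint_left.1 (hfar y h2 y h1) (hs y) (hs y)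

lemma card_replace (hs : ∀ x, x ∈ N x) {P B Y : Finset V} (hB : B ⊆ P) (hc : Y.card = B.card)
    (hfar : ∀ y ∈ Y, ∀ x ∈ P \ B, Disjoint (N y) (N x)) : ((P \ B) ∪ Y).card = P.card := by
  rw [Finset.card_union_of_disjoint (disjoint_of_far hs hfar),
    Finset.card_sdiff_of_subset hB, hc]
  have := Finset.card_le_card hB
  omega

/-- The situation of the exchange. -/
structure FSwap (N : V → Finset V) (K : ℕ) (P X B Y : Finset V) : Prop where
  hP : Pack N K P
  hX : Pack N K X
  /-- no vertex is missed by both packings -/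
  sat : miss N P ∩ miss N X = ∅
  sub : B ⊆ P
  /-- the rows are matched -/
  mat : ∀ b ∈ B, ∃ x ∈ X, x ∈ N b
  /-- the rows have no marks -/
  nomark : ∀ b ∈ B, mk N X b = 0
  hY : Pack N K Y
  card : Y.card = B.card
  far : ∀ y ∈ Y, ∀ x ∈ P \ B, Disjoint (N y) (N x)

namespace FSwap

variable {P X B Y : Finset V}

lemma mem_of_nomark (h : FSwap N K P X B Y) {b v : V} (hb : b ∈ B) (hv : v ∈ N b) :
    v ∉ miss N X := by
  intro hv'
  have h1 := h.nomark b hb
  unfold Star.mk at h1
  rw [Finset.card_eq_zero] at h1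
  have h2 : v ∈ N b ∩ miss N X := Finset.mem_inter.2 ⟨hv, hv'⟩
  rw [h1] at h2
  exact Finset.notMem_empty _ h2

/-- The neighbourhoods of the new members consist of vertices of the exchanged rows and of
vertices missed by `P`. -/
lemma mem_row (h : FSwap N K P X B Y) {y v : V} (hy : y ∈ Y) (hv : v ∈ N y) :
    (∃ b ∈ B, v ∈ N b) ∨ v ∈ miss N P := by
  by_cases hm : v ∈ miss N P
  · exact Or.inr hm
  · rw [mem_miss] at hm
    push Not at hm
    obtain ⟨p, hp, hvp⟩ := hm
    by_cases hpB : p ∈ B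
    · exact Or.inl ⟨p, hpB, hvp⟩
    · exact absurd hvp (Finset.disjoint_left.1 (h.far y hy p (Finset.mem_sdiff.2 ⟨hp, hpB⟩)) hv)

/-- The new neighbourhoods contain no vertex missed by `X`. -/
lemma notMem_miss (h : FSwap N K P X B Y) {y v : V} (hy : y ∈ Y) (hv : v ∈ N y) :
    v ∉ miss N X := by
  rcases h.mem_row hy hv with ⟨b, hb, hvb⟩ | hm
  · exact h.mem_of_nomark hb hvb
  · intro hx
    have : v ∈ miss N P ∩ miss N X := Finset.mem_inter.2 ⟨hm, hx⟩
    rw [h.sat] at this
    exact Finset.notMem_empty _ this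

/-- The new pair is saturated too. -/
lemma sat' (h : FSwap N K P X B Y) : miss N ((P \ B) ∪ Y) ∩ miss N X = ∅ := by
  rw [Finset.eq_empty_iff_forall_notMem]
  intro v hv
  obtain ⟨hv1, hv2⟩ := Finset.mem_inter.1 hv
  rw [mem_miss] at hv1
  have h1 : v ∉ miss N P := by
    intro hm
    have : v ∈ miss N P ∩ miss N X := Finset.mem_inter.2 ⟨hm, hv2⟩
    rw [h.sat] at this
    exact Finset.notMem_empty _ this
  rw [mem_miss] at h1
  push Not at h1
  obtain ⟨p, hp, hvp⟩ := h1
  by_cases hpB : p ∈ B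
  · exact h.mem_of_nomark hpB hvp hv2
  · exact hv1 p (Finset.mem_union_left _ (Finset.mem_sdiff.2 ⟨hp, hpB⟩)) hvp

/-- Every new member is matched. -/
lemma matched (h : FSwap N K P X B Y) (hs : ∀ x, x ∈ N x)
    (hsym : ∀ x y, x ∈ N y → y ∈ N x) {y : V} (hy : y ∈ Y) : ∃ x ∈ X, x ∈ N y := by
  have h1 := h.notMem_miss hy (hs y)
  rw [mem_miss] at h1
  push Not at h1
  obtain ⟨x, hx, hyx⟩ := h1
  exact ⟨x, hx, hsym _ _ hyx⟩

/-- The unmatched rows are the same. -/
lemma unm_eq (h : FSwap N K P X B Y) (hs : ∀ x, x ∈ N x)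
    (hsym : ∀ x y, x ∈ N y → y ∈ N x) : unm N ((P \ B) ∪ Y) X = unm N P X := by
  ext a
  rw [mem_unm, mem_unm, Finset.mem_union, Finset.mem_sdiff]
  constructor
  · rintro ⟨h1, h2⟩
    rcases h1 with h1 | h1
    · exact ⟨h1.1, h2⟩
    · obtain ⟨x, hx, hxa⟩ := h.matched hs hsym h1
      exact absurd hxa (h2 x hx)
  · rintro ⟨h1, h2⟩
    refine ⟨Or.inl ⟨h1, fun hB => ?_⟩, h2⟩
    obtain ⟨x, hx, hxa⟩ := h.mat a hB
    exact h2 x hx hxa

/-- The partner of a new member is not the partner of a row which is not exchanged. -/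
lemma partner (h : FSwap N K P X B Y) {y x p : V}
    (hy : y ∈ Y) (hxy : x ∈ N y) (hp : p ∈ P) (hxp : x ∈ N p) : p ∈ B := by
  by_contra hpB
  exact Finset.disjoint_left.1 (h.far y hy p (Finset.mem_sdiff.2 ⟨hp, hpB⟩)) hxy hxp

/-- If all columns are matched then the new members are matched with the columns of the exchanged
rows. -/
lemma partner_mem (h : FSwap N K P X B Y) (hsym : ∀ x y, x ∈ N y → y ∈ N x)
    (h0 : unm N X P = ∅) {y x : V} (hy : y ∈ Y) (hx : x ∈ X) (hxy : x ∈ N y) :
    ∃ b ∈ B, x ∈ N b := by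
  have h1 : x ∉ unm N X P := by rw [h0]; exact Finset.notMem_empty _
  rw [mem_unm] at h1
  push Not at h1
  obtain ⟨p, hp, hpx⟩ := h1 hx
  exact ⟨p, h.partner hy hxy hp (hsym _ _ hpx), hsym _ _ hpx⟩

/-- The marks of the rows which are not exchanged do not change (nor do those of the new rows,
which have none). -/
lemma mk_new (h : FSwap N K P X B Y) {y : V} (hy : y ∈ Y) : Star.mk N X y = 0 := by
  unfold Star.mk
  rw [Finset.card_eq_zero, Finset.eq_empty_iff_forall_notMem]
  intro v hv
  obtain ⟨h1, h2⟩ := Finset.mem_inter.1 hv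
  exact h.notMem_miss hy h1 h2

/-- The new pair. -/
lemma pack (h : FSwap N K P X B Y) : Pack N K ((P \ B) ∪ Y) := h.hP.replace h.hY h.far

lemma card' (h : FSwap N K P X B Y) (hs : ∀ x, x ∈ N x) : ((P \ B) ∪ Y).card = P.card :=
  card_replace hs h.sub h.card h.far

end FSwap

end Pool.Agent.Star
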