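import Pool.Agent.Star.PairF

/-!
# Survivors at a minimal pair

`(P, X)` is a pair of packings of minimal weight. Rows are the sets `N a`, `a ∈ P`, columns the
sets `N x`, `x ∈ X`.
-/

set_option autoImplicit false
set_option linter.unusedSectionVars false

namespace Pool.Agent.Star

open Finset

variable {V : Type*} [Fintype V] [DecidableEq V] {N : V → Finset V} {K s : ℕ} {P X : Finset V}

lemma mem_uu {p : V × V} : p ∈ uu N P X ↔ (p.1 ∈ P ∧ p.2 ∈ X ∧ p.2 ∈ N p.1) ∧
    mk N X p.1 = 0 ∧ mk N P p.2 = 0 := by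
  unfold uu
  rw [Finset.mem_filter, mem_mat]

lemma mk_eq_zero {a : V} : mk N X a = 0 ↔ ∀ v ∈ N a, v ∉ miss N X := by
  unfold mk
  rw [Finset.card_eq_zero, Finset.eq_empty_iff_forall_notMem]
  simp only [Finset.mem_inter, not_and]

/-- The diagonal cells are not empty. -/
lemma cell_pos (hs : ∀ x, x ∈ N x) {a x : V} (h : x ∈ N a) : 0 < (N a ∩ N x).card :=
  Finset.card_pos.2 ⟨x, Finset.mem_inter.2 ⟨h, hs x⟩⟩

/-- A vertex lies in a row or is missed. -/
lemma row_or_miss (P : Finset V) (v : V) : (∃ a ∈ P, v ∈ N a) ∨ v ∈ miss N P := by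
  by_cases h : v ∈ miss N P
  · exact Or.inr h
  · rw [mem_miss] at h
    push Not at h
    exact Or.inl h

/-- Exchange of one column. -/
lemma MinPair.exchange₁ (hs : ∀ x, x ∈ N x) (h : MinPair N K s P X) {x c : V} (hx : x ∈ X)
    (hc : (N c).card = K) (hfar : ∀ y ∈ X, y ≠ x → Disjoint (N c) (N y)) :
    mu N P x ≤ mu N P c := by
  have h1 := h.exchange hs (J := {x}) (Y := {c}) (by simpa using hx)
    ⟨by simpa using hc, by
      intro a ha b hb hab
      rw [Finset.mem_singleton] at ha hb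
      exact absurd (ha.trans hb.symm) hab⟩ (by simp) (by
      intro y hy x' hx'
      rw [Finset.mem_singleton] at hy
      rw [Finset.mem_sdiff, Finset.mem_singleton] at hx'
      rw [hy]
      exact hfar x' hx'.1 hx'.2)
  simpa using h1

/-- Exchange of two columns. -/
lemma MinPair.exchange₂ (hs : ∀ x, x ∈ N x) (h : MinPair N K s P X) {x x' p e : V} (hx : x ∈ X)
    (hx' : x' ∈ X) (hne : x ≠ x') (hp : (N p).card = K) (he : (N e).card = K)
    (hpe : Disjoint (N p) (N e))
    (hfp : ∀ y ∈ X, y ≠ x → y ≠ x' → Disjoint (N p) (N y))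
    (hfe : ∀ y ∈ X, y ≠ x → y ≠ x' → Disjoint (N e) (N y)) :
    mu N P x + mu N P x' ≤ mu N P p + mu N P e := by
  have hpe' : p ≠ e := fun hh => Finset.disjoint_left.1 hpe (hs p) (hh ▸ hs p)
  have h1 := h.exchange hs (J := {x, x'}) (Y := {p, e}) (by
      intro y hy
      rcases Finset.mem_insert.1 hy with rfl | hy
      · exact hx
      · rw [Finset.mem_singleton.1 hy]; exact hx')
    ⟨by
      intro c hc
      rcases Finset.mem_insert.1 hc with rfl | hc
      · exact hp
      · rw [Finset.mem_singleton.1 hc]; exact he, by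
      intro a ha b hb hab
      rcases Finset.mem_insert.1 ha with ha' | ha'
      · rcases Finset.mem_insert.1 hb with hb' | hb'
        · exact absurd (ha'.trans hb'.symm) hab
        · rw [ha', Finset.mem_singleton.1 hb']; exact hpe
      · rcases Finset.mem_insert.1 hb with hb' | hb'
        · rw [Finset.mem_singleton.1 ha', hb']; exact hpe.symm
        · exact absurd ((Finset.mem_singleton.1 ha').trans (Finset.mem_singleton.1 hb').symm) hab⟩
    (by rw [Finset.card_pair hpe', Finset.card_pair hne]) (by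
      intro y hy x'' hx''
      rw [Finset.mem_sdiff, Finset.mem_insert, Finset.mem_singleton, not_or] at hx''
      rcases Finset.mem_insert.1 hy with rfl | hy
      · exact hfp x'' hx''.1 hx''.2.1 hx''.2.2
      · rw [Finset.mem_singleton.1 hy]; exact hfe x'' hx''.1 hx''.2.1 hx''.2.2)
  rwa [Finset.sum_pair hne, Finset.sum_pair hpe'] at h1

/-- A centre missed by `P` is not far from all columns but one, if this one is matched. -/
lemma MinPair.near_of_miss (hs : ∀ x, x ∈ N x) (h : MinPair N K s P X) {a x p : V} (ha : a ∈ P)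
    (hx : x ∈ X) (hax : x ∈ N a) (hp : (N p).card = K) (hpm : p ∈ miss N P) :
    ∃ y ∈ X, y ≠ x ∧ ¬ Disjoint (N p) (N y) := by
  by_contra hcon
  push Not at hcon
  have h1 := h.exchange₁ hs hx hp hcon
  rw [mu_eq_zero hpm, mu_eq h.hP ha hax] at h1
  have := cell_pos hs hax
  omega

/-- **L2.** A survivor `c` for an unmarked matched label `(a, x)` on the side of the columns. -/
theorem MinPair.single (hs : ∀ x, x ∈ N x) (hsym : ∀ x y, x ∈ N y → y ∈ N x)
    (h : MinPair N K s P X) {a x c : V} (hu : (a, x) ∈ uu N P X) (hc : (N c).card = K)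
    (hfar : ∀ y ∈ X, y ≠ x → Disjoint (N c) (N y)) :
    (c ∈ N a ∧ N c ∩ N a = N a ∩ N x) ∨
      ∃ z ∈ unm N P X, c ∈ N z ∧ (N a ∩ N x).card ≤ (N z ∩ N c).card := by
  obtain ⟨⟨ha, hx, hax⟩, hm1, hm2⟩ := mem_uu.1 hu
  simp only at ha hx hax hm1 hm2
  have h1 := h.exchange₁ hs hx hc hfar
  rw [mu_eq h.hP ha hax] at h1
  rcases row_or_miss P c with ⟨z, hz, hcz⟩ | hcm
  · rw [mu_eq h.hP hz hcz] at h1
    by_cases hzu : z ∈ unm N P X
    · exact Or.inr ⟨z, hzu, hcz, h1⟩
    · left
      rw [mem_unm] at hzu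
      push Not at hzu
      obtain ⟨x', hx', hxz⟩ := hzu hz
      have hxx : x' = x := by
        by_contra hne
        exact Finset.disjoint_left.1 (hfar x' hx' hne) (hsym _ _ hcz) (hsym _ _ hxz)
      subst hxx
      have hza : z = a := partner_unique hsym h.hP hz ha (hsym _ _ hxz) (hsym _ _ hax)
      subst hza
      refine ⟨hcz, ?_⟩
      have hsub : N z ∩ N c ⊆ N z ∩ N x' := by
        intro v hv
        obtain ⟨hv1, hv2⟩ := Finset.mem_inter.1 hv
        refine Finset.mem_inter.2 ⟨hv1, ?_⟩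
        rcases row_or_miss X v with ⟨y, hy, hvy⟩ | hvm
        · by_cases hyx : y = x'
          · rw [← hyx]; exact hvy
          · exact absurd hvy (Finset.disjoint_left.1 (hfar y hy hyx) hv2)
        · exact absurd hvm (mk_eq_zero.1 hm1 v hv1)
      rw [Finset.inter_comm (N c)]
      exact Finset.eq_of_subset_of_card_le hsub h1
  · rw [mu_eq_zero hcm] at h1
    have := cell_pos hs hax
    omega

/-- The situation of a one-way arc: `(b, xb)` is a matched label, `(a, x)` an unmarked matched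
label, `y` lies in the row `b` and the column `x`, and the row `a` does not meet the column
`xb`. -/
structure Arc (N : V → Finset V) (P X : Finset V) (b xb a x y : V) : Prop where
  hb : b ∈ P
  hxb : xb ∈ X
  hbx : xb ∈ N b
  uu : (a, x) ∈ uu N P X
  yb : y ∈ N b
  yx : y ∈ N x
  ow : Disjoint (N a) (N xb)

namespace Arc

variable {b xb a x y : V}

lemma ha (A : Arc N P X b xb a x y) : a ∈ P := (mem_uu.1 A.uu).1.1
lemma hx (A : Arc N P X b xb a x y) : x ∈ X := (mem_uu.1 A.uu).1.2.1
lemma hax (A : Arc N P X b xb a x y) : x ∈ N a := (mem_uu.1 A.uu).1.2.2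
lemma ma (A : Arc N P X b xb a x y) : Star.mk N X a = 0 := (mem_uu.1 A.uu).2.1
lemma mx (A : Arc N P X b xb a x y) : Star.mk N P x = 0 := (mem_uu.1 A.uu).2.2

lemma ne_row (A : Arc N P X b xb a x y) (hs : ∀ x, x ∈ N x) : b ≠ a := by
  intro h
  exact Finset.disjoint_left.1 A.ow (h ▸ A.hbx) (hs xb)

lemma ne_col (A : Arc N P X b xb a x y) (hs : ∀ x, x ∈ N x) : xb ≠ x := by
  intro h
  exact Finset.disjoint_left.1 A.ow A.hax (h ▸ hs xb)

/-- A vertex of the row `a` which is not in the column `x` is in a column different from `x` and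
`xb`. -/
lemma row_col (A : Arc N P X b xb a x y) {v : V} (hv : v ∈ N a) (hvx : v ∉ N x) :
    ∃ z ∈ X, z ≠ xb ∧ z ≠ x ∧ v ∈ N z := by
  rcases row_or_miss X v with ⟨z, hz, hvz⟩ | hm
  · refine ⟨z, hz, ?_, ?_, hvz⟩
    · rintro rfl
      exact Finset.disjoint_left.1 A.ow hv hvz
    · rintro rfl
      exact hvx hvz
  · exact absurd hm (mk_eq_zero.1 A.ma v hv)

/-- **L3, location.** A survivor `p` of `y` and of the columns different from `xb`, `x` is missed
by `P` or lies in an unmatched row. -/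
theorem loc (A : Arc N P X b xb a x y) (hs : ∀ x, x ∈ N x) (hsym : ∀ x y, x ∈ N y → y ∈ N x)
    (hP : Pack N K P) {p : V} (hpy : Disjoint (N p) (N y))
    (hfar : ∀ z ∈ X, z ≠ xb → z ≠ x → Disjoint (N p) (N z)) :
    p ∈ miss N P ∨ ∃ z ∈ unm N P X, p ∈ N z := by
  have hpx : p ∉ N x := fun h => Finset.disjoint_left.1 hpy (hsym _ _ h) (hsym _ _ A.yx)
  rcases row_or_miss P p with ⟨r, hr, hpr⟩ | hm
  · right
    refine ⟨r, ?_, hpr⟩
    rw [mem_unm]
    refine ⟨hr, fun z hz hzr => ?_⟩
    have hrz : r ∈ N z := hsym _ _ hzr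
    by_cases h1 : z = xb
    · -- the row is `b`
      subst h1
      have hrb : r = b := partner_unique hsym hP hr A.hb hrz (hsym _ _ A.hbx)
      subst hrb
      exact Finset.disjoint_left.1 hpy (hsym _ _ hpr) (hsym _ _ A.yb)
    · by_cases h2 : z = x
      · subst h2
        have hra : r = a := partner_unique hsym hP hr A.ha hrz (hsym _ _ A.hax)
        subst hra
        obtain ⟨w, hw, hw1, hw2, hpw⟩ := A.row_col hpr hpx
        exact Finset.disjoint_left.1 (hfar w hw hw1 hw2) (hs p) hpw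
      · exact Finset.disjoint_left.1 (hfar z hz h1 h2) (hsym _ _ hpr) hrz
  · exact Or.inl hm

/-- A survivor missed by `P` lies in the column `xb` or is missed by `X` too. -/
theorem loc_col (A : Arc N P X b xb a x y) (hs : ∀ x, x ∈ N x)
    (hsym : ∀ x y, x ∈ N y → y ∈ N x) {p : V} (hpy : Disjoint (N p) (N y))
    (hfar : ∀ z ∈ X, z ≠ xb → z ≠ x → Disjoint (N p) (N z)) : p ∈ N xb ∨ p ∈ miss N X := by
  rcases row_or_miss X p with ⟨z, hz, hpz⟩ | hm
  · left
    by_cases h1 : z = xb
    · rw [← h1]; exact hpz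
    · exfalso
      by_cases h2 : z = x
      · subst h2
        exact Finset.disjoint_left.1 hpy (hsym _ _ hpz) (hsym _ _ A.yx)
      · exact Finset.disjoint_left.1 (hfar z hz h1 h2) (hs p) hpz
  · exact Or.inr hm

/-- **L4.** A survivor missed by `P` is near the columns `xb` and `x` (and no others). -/
theorem near (A : Arc N P X b xb a x y) (hs : ∀ x, x ∈ N x)
    (h : MinPair N K s P X) {p : V} (hp : (N p).card = K) (hpm : p ∈ miss N P)
    (hfar : ∀ z ∈ X, z ≠ xb → z ≠ x → Disjoint (N p) (N z)) :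
    ¬ Disjoint (N p) (N xb) ∧ ¬ Disjoint (N p) (N x) := by
  constructor
  · obtain ⟨z, hz, hzx, hnd⟩ := h.near_of_miss hs A.ha A.hx A.hax hp hpm
    by_cases h1 : z = xb
    · rw [← h1]; exact hnd
    · exact absurd (hfar z hz h1 hzx) hnd
  · obtain ⟨z, hz, hzx, hnd⟩ := h.near_of_miss hs A.hb A.hxb A.hbx hp hpm
    by_cases h1 : z = x
    · rw [← h1]; exact hnd
    · exact absurd (hfar z hz hzx h1) hnd

/-- **L3, the partner.** Let `p` be a survivor missed by `P`, and `e` a centre far from `p` and the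
columns different from `xb`, `x`. Then `e` lies in the row `b` and contains at least
`M_bb + M_aa` vertices of it, or `e` lies in an unmatched row and contains as many vertices of
it. -/
theorem partner (A : Arc N P X b xb a x y) (hs : ∀ x, x ∈ N x)
    (hsym : ∀ x y, x ∈ N y → y ∈ N x) (h : MinPair N K s P X) {p e : V}
    (hp : (N p).card = K) (hpm : p ∈ miss N P)
    (hfar : ∀ z ∈ X, z ≠ xb → z ≠ x → Disjoint (N p) (N z))
    (he : (N e).card = K) (hpe : Disjoint (N p) (N e))
    (hefar : ∀ z ∈ X, z ≠ xb → z ≠ x → Disjoint (N e) (N z)) :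
    (e ∈ N b ∧ (N b ∩ N xb).card + (N a ∩ N x).card ≤ (N b ∩ N e).card) ∨
      ∃ z ∈ unm N P X, e ∈ N z ∧
        (N b ∩ N xb).card + (N a ∩ N x).card ≤ (N z ∩ N e).card := by
  have h1 := h.exchange₂ hs A.hxb A.hx (A.ne_col hs) hp he hpe hfar hefar
  rw [mu_eq h.hP A.hb A.hbx, mu_eq h.hP A.ha A.hax, mu_eq_zero hpm, zero_add] at h1
  have hpos := cell_pos hs A.hbx
  have hpos' := cell_pos hs A.hax
  rcases row_or_miss P e with ⟨r, hr, her⟩ | hm
  · rw [mu_eq h.hP hr her] at h1
    by_cases hru : r ∈ unm N P X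
    · exact Or.inr ⟨r, hru, her, h1⟩
    · left
      rw [mem_unm] at hru
      push Not at hru
      obtain ⟨z, hz, hzr⟩ := hru hr
      by_cases hz1 : z = xb
      · subst hz1
        have hrb : r = b := partner_unique hsym h.hP hr A.hb (hsym _ _ hzr) (hsym _ _ A.hbx)
        subst hrb
        exact ⟨her, h1⟩
      · exfalso
        by_cases hz2 : z = x
        · subst hz2
          have hra : r = a := partner_unique hsym h.hP hr A.ha (hsym _ _ hzr) (hsym _ _ A.hax)
          subst hra
          have hsub : N r ∩ N e ⊆ N r ∩ N z := by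
            intro v hv
            obtain ⟨hv1, hv2⟩ := Finset.mem_inter.1 hv
            refine Finset.mem_inter.2 ⟨hv1, ?_⟩
            by_contra hvx
            obtain ⟨w, hw, hw1, hw2, hvw⟩ := A.row_col hv1 hvx
            exact Finset.disjoint_left.1 (hefar w hw hw1 hw2) hv2 hvw
          have := Finset.card_le_card hsub
          omega
        · exact Finset.disjoint_left.1 (hefar z hz hz1 hz2) (hsym _ _ her) (hsym _ _ hzr)
  · rw [mu_eq_zero hm] at h1
    omega

/-- The count in the row `b`: `M_aa + |N p ∩ (cells (b,b) and (b,a))| ≤ M_ba + |V_b ∩ N e|`. -/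
theorem count (_A : Arc N P X b xb a x y) {p e : V}
    (hpe : Disjoint (N p) (N e))
    (hefar : ∀ z ∈ X, z ≠ xb → z ≠ x → Disjoint (N e) (N z))
    (hle : (N b ∩ N xb).card + (N a ∩ N x).card ≤ (N b ∩ N e).card) :
    (N a ∩ N x).card + (N p ∩ (N b ∩ N xb ∪ N b ∩ N x)).card ≤
      (N b ∩ N x).card + (N b ∩ N e ∩ miss N X).card := by
  have hsub : N b ∩ N e ⊆ ((N b ∩ N xb ∪ N b ∩ N x) \ N p) ∪ (N b ∩ N e ∩ miss N X) := by
    intro v hv
    obtain ⟨hv1, hv2⟩ := Finset.mem_inter.1 hv
    rcases row_or_miss (N := N) X v with ⟨z, hz, hvz⟩ | hm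
    · refine Finset.mem_union_left _ (Finset.mem_sdiff.2 ⟨?_, fun hvp =>
        Finset.disjoint_left.1 hpe hvp hv2⟩)
      by_cases h1 : z = xb
      · subst h1
        exact Finset.mem_union_left _ (Finset.mem_inter.2 ⟨hv1, hvz⟩)
      · by_cases h2 : z = x
        · subst h2
          exact Finset.mem_union_right _ (Finset.mem_inter.2 ⟨hv1, hvz⟩)
        · exact absurd hvz (Finset.disjoint_left.1 (hefar z hz h1 h2) hv2)
    · exact Finset.mem_union_right _ (Finset.mem_inter.2 ⟨hv, hm⟩)
  have h1 := (Finset.card_le_card hsub).trans (Finset.card_union_le _ _)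
  have h2 := Finset.card_sdiff_add_card_inter (N b ∩ N xb ∪ N b ∩ N x) (N p)
  rw [Finset.inter_comm (N b ∩ N xb ∪ N b ∩ N x) (N p)] at h2
  have h3 := Finset.card_union_le (N b ∩ N xb) (N b ∩ N x)
  omega

end Arc

end Pool.Agent.Star
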