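import Pool.Agent.Star.Rig3

/-!
# Star systems: no separated set (R3)

A set `B` is separated when every star set lies in `B` or misses `B`.  In a system which violates
the bound, all smaller systems satisfying it, the only separated sets are the empty set and the
whole vertex set.
-/

set_option autoImplicit false
set_option linter.unusedSectionVars false
set_option linter.unusedVariables false

namespace Pool.Agent.Star.Rig

open Finset

variable {V : Type*} [DecidableEq V]

section
variable {N : V → Finset V} {K : ℕ}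

/-- Every star set lies in `B` or misses `B`. -/
def Sep (C : Finset (Finset V)) (B : Finset V) : Prop := ∀ S ∈ C, S ⊆ B ∨ Disjoint S B

lemma Sep.sdiff {A B : Finset V} {C : Finset (Finset V)} (h : Sep C B) (hA : ∀ S ∈ C, S ⊆ A) :
    Sep C (A \ B) := by
  intro S hS
  rcases h S hS with h1 | h1
  · right
    rw [Finset.disjoint_left]
    intro x hx hx2
    exact (Finset.mem_sdiff.1 hx2).2 (h1 hx)
  · left
    intro x hx
    exact Finset.mem_sdiff.2 ⟨hA S hS hx, Finset.disjoint_left.1 h1 hx⟩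

lemma Sep.comps {A B : Finset V} {C F : Finset (Finset V)} (h : Sep C B) (hF : Comps N B F)
    (hS : Sys N K A C) {U : Finset V} (hU : U ∈ F) : Sep C U := by
  intro S hSC
  rcases h S hSC with h1 | h1
  · obtain ⟨W, hW, hSW⟩ := hF.star hS hSC h1
    by_cases hWU : W = U
    · left; rw [← hWU]; exact hSW
    · right
      exact Finset.disjoint_of_subset_left hSW (hF.disj W hW U hU hWU)
  · right
    exact Finset.disjoint_of_subset_right (hF.cl U hU).1 h1

/-- The family splits along a separated set. -/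
lemma gk_split (hs : ∀ x, x ∈ N x) {A B : Finset V} {C : Finset (Finset V)} (hS : Sys N K A C)
    (h : Sep C B) : gk N A C ≤ gk N A (res C B) + gk N A (res C (A \ B)) := by
  have h0 : ∀ B' : Finset V, ∃ D, D ⊆ A ∧ Kills N D (res C B') ∧ D.card = gk N A (res C B') :=
    fun B' => exists_gk hs (fun S hSC => hS.sub S (mem_res.1 hSC).1)
      (fun S hSC => hS.nonempty (mem_res.1 hSC).1)
  obtain ⟨D1, h11, h12, h13⟩ := h0 B
  obtain ⟨D2, h21, h22, h23⟩ := h0 (A \ B)
  rw [← h13, ← h23]
  refine (gk_le (Finset.union_subset h11 h21) ?_).trans (Finset.card_union_le _ _)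
  intro S hSC
  rcases h S hSC with h1 | h1
  · exact (h12 S (mem_res.2 ⟨hSC, h1⟩)).mono Finset.subset_union_left
  · refine (h22 S (mem_res.2 ⟨hSC, ?_⟩)).mono Finset.subset_union_right
    intro x hx
    exact Finset.mem_sdiff.2 ⟨hS.sub S hSC hx, Finset.disjoint_left.1 h1 hx⟩

lemma Comps.mem_of {B U : Finset V} {F : Finset (Finset V)} (h : Comps N B F) (hU : Conn N U)
    (hcl : Closed N U B) : U ∈ F := by
  obtain ⟨x, hx⟩ := hU.1
  obtain ⟨W, hW, hxW⟩ := h.cover x (hcl.1 hx)
  have h1 : U ⊆ W := hU.subset_of_closed hcl.1 (h.cl W hW) hx hxW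
  have h2 : W ⊆ U := (h.conn W hW).subset_of_closed (h.cl W hW).1 hcl hxW hx
  rw [Finset.Subset.antisymm h1 h2]
  exact hW

/-- A bound on a component: it is exceptional or satisfies the bound. -/
lemma bd_two {U : Finset V} {C : Finset (Finset V)} (hB : Bd N K U C) :
    (2 * K + 1) * gk N U C ≤ 2 * U.card + 2 := by
  rcases hB with h | ⟨h1, h2⟩ | ⟨h1, h2⟩
  · omega
  · rw [h1, h2]; omega
  · rw [h1, h2]; omega

open Classical in
/-- Every vertex is in a minimum killing set, or the bound holds with two to spare. -/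
lemma use_or (hs : ∀ x, x ∈ N x) (hsym : ∀ x y, x ∈ N y → y ∈ N x) {U : Finset V}
    {C : Finset (Finset V)} (hS : Sys N K U C) (hU : Conn N U)
    (hE : ∀ A' ⊂ U, ∀ C' ⊆ C, Sys N K A' C' → Conn N A' → Bd N K A' C') {x : V} (hx : x ∈ U) :
    (∃ D, D ⊆ U ∧ x ∈ D ∧ Kills N D C ∧ D.card ≤ gk N U C) ∨
      (2 * K + 1) * gk N U C + 2 ≤ 2 * U.card := by
  set C' := C.filter (fun S => ¬ Hit N {x} S) with hC'
  have hCC : C' ⊆ C := Finset.filter_subset _ _
  have hm := gk_mono hs (A := U) hS.sub (fun S hSC => hS.nonempty hSC) hCC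
  rcases Nat.lt_or_ge (gk N U C') (gk N U C) with h1 | h1
  · left
    obtain ⟨D, h2, h3, h4⟩ := exists_gk (N := N) hs (A := U) (C := C')
      (fun S hSC => hS.sub S (hCC hSC)) (fun S hSC => hS.nonempty (hCC hSC))
    refine ⟨insert x D, ?_, Finset.mem_insert_self _ _, ?_, ?_⟩
    · intro y hy
      rcases Finset.mem_insert.1 hy with rfl | hy
      · exact hx
      · exact h2 hy
    · intro S hSC
      by_cases hH : Hit N {x} S
      · exact hH.mono (by intro y hy; rw [Finset.mem_singleton.1 hy]; exact Finset.mem_insert_self _ _)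
      · exact (h3 S (Finset.mem_filter.2 ⟨hSC, hH⟩)).mono (Finset.subset_insert _ _)
    · have := Finset.card_insert_le x D
      omega
  · right
    have h2 : gk N U C' = gk N U C := le_antisymm hm h1
    have h3 := useless hs hsym hS hU hE (G := {x}) (by simpa using hx) ⟨x, by simp⟩ h2
    simpa using h3

variable {A : Finset V} {C : Finset (Finset V)}

/-- A separated set gives a separated exceptional piece. -/
lemma exists_piece (hs : ∀ x, x ∈ N x) (hsym : ∀ x y, x ∈ N y → y ∈ N x) (hS : Sys N K A C)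
    (hE : ∀ A' ⊂ A, ∀ C' ⊆ C, Sys N K A' C' → Conn N A' → Bd N K A' C')
    (hV : 2 * A.card < (2 * K + 1) * gk N A C) {B : Finset V} (hB : B ⊆ A) (hBn : B.Nonempty)
    (hBA : B ≠ A) (hsep : Sep C B) :
    ∃ U ⊂ A, Conn N U ∧ Sep C U ∧ Typ N K U (res C U) := by
  by_contra hcon
  push Not at hcon
  have hBs : B ⊂ A := Finset.ssubset_iff_subset_ne.2 ⟨hB, hBA⟩
  have hB2 : A \ B ⊂ A := Finset.sdiff_ssubset hB hBn
  have key : ∀ B' : Finset V, B' ⊂ A → Sep C B' →
      (2 * K + 1) * gk N A (res C B') ≤ 2 * B'.card := by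
    intro B' hB' hsep'
    obtain ⟨F, hF⟩ := exists_comps (N := N) hsym B'
    have h1 := gk_le_sum (K := K) hs hF hS hB'.1
    have hss : ∀ U ∈ F, U ⊂ A := fun U hU =>
      Finset.ssubset_of_subset_of_ssubset (hF.cl U hU).1 hB'
    have h2 : ∀ U ∈ F, (2 * K + 1) * gk N U (res C U) ≤ 2 * U.card := by
      intro U hU
      rcases hE U (hss U hU) (res C U) (Finset.filter_subset _ _) hS.res (hF.conn U hU) with
        h3 | h3
      · exact h3
      · exact absurd h3 (hcon U (hss U hU) (hF.conn U hU) (hsep'.comps hF hS hU))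
    have h3 : (2 * K + 1) * ∑ U ∈ F, gk N U (res C U) ≤ 2 * B'.card := by
      rw [hF.card, Finset.mul_sum, Finset.mul_sum]
      exact Finset.sum_le_sum h2
    exact (Nat.mul_le_mul_left _ h1).trans h3
  have h1 := key B hBs hsep
  have h2 := key (A \ B) hB2 (hsep.sdiff hS.sub)
  have h3 := gk_split hs hS hsep
  have h4 : (A \ B).card + B.card = A.card := Finset.card_sdiff_add_card_eq_card hB
  have h5 : (2 * K + 1) * gk N A C ≤
      (2 * K + 1) * gk N A (res C B) + (2 * K + 1) * gk N A (res C (A \ B)) := by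
    rw [← Nat.mul_add]; exact Nat.mul_le_mul_left _ h3
  omega

open Classical in
/-- **R3.** A violating system has no separated set. -/
theorem no_sep (hs : ∀ x, x ∈ N x) (hsym : ∀ x y, x ∈ N y → y ∈ N x) (hK : 2 ≤ K)
    (hS : Sys N K A C) (hA : Conn N A)
    (hE : ∀ A' ⊂ A, ∀ C' ⊆ C, Sys N K A' C' → Conn N A' → Bd N K A' C')
    (hV : 2 * A.card < (2 * K + 1) * gk N A C) {B : Finset V} (hB : B ⊆ A) (hBn : B.Nonempty)
    (hBA : B ≠ A) : ¬ Sep C B := by
  intro hsep
  obtain ⟨U0, hU0, hU0c, hU0s, hU0t⟩ := exists_piece hs hsym hS hE hV hB hBn hBA hsep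
  -- the pairs (piece, component of the rest)
  set P : Finset (Finset V × Finset V) := (A.powerset ×ˢ A.powerset).filter
    (fun p => p.1 ⊂ A ∧ Conn N p.1 ∧ Sep C p.1 ∧ Typ N K p.1 (res C p.1) ∧ Conn N p.2 ∧
      Closed N p.2 (A \ p.1)) with hP
  have hmemP : ∀ p : Finset V × Finset V, p.1 ⊂ A → Conn N p.1 → Sep C p.1 →
      Typ N K p.1 (res C p.1) → Conn N p.2 → Closed N p.2 (A \ p.1) → p ∈ P := by
    intro p h1 h2 h3 h4 h5 h6
    rw [hP, Finset.mem_filter, Finset.mem_product, Finset.mem_powerset, Finset.mem_powerset]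
    exact ⟨⟨h1.1, h6.1.trans Finset.sdiff_subset⟩, h1, h2, h3, h4, h5, h6⟩
  have hPne : P.Nonempty := by
    obtain ⟨x, hx, hx2⟩ := Finset.exists_of_ssubset hU0
    obtain ⟨W, hxW, hWc, hWcl⟩ := exists_comp (N := N) hsym (B := A \ U0)
      (Finset.mem_sdiff.2 ⟨hx, hx2⟩)
    exact ⟨(U0, W), hmemP (U0, W) hU0 hU0c hU0s hU0t hWc hWcl⟩
  obtain ⟨⟨B, G⟩, hBG, hmax⟩ := Finset.exists_max_image P (fun p => p.2.card) hPne
  rw [hP, Finset.mem_filter] at hBG
  obtain ⟨-, hBs, hBc, hBsep, hBt, hGc, hGcl⟩ := hBG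
  dsimp only at hBs hBc hBsep hBt hGc hGcl
  obtain ⟨F, hF⟩ := exists_comps (N := N) hsym (A \ B)
  have hGF : G ∈ F := hF.mem_of hGc hGcl
  have hss : ∀ U ∈ F, U ⊂ A := fun U hU =>
    Finset.ssubset_of_subset_of_ssubset (hF.cl U hU).1 (Finset.sdiff_ssubset hBs.1 hBc.1)
  obtain ⟨b0, hb0, g0, hg0, hbg⟩ := hF.adj hsym hA hBs.1 hBc.1 hGF
  -- the other components are not exceptional
  have hoth : ∀ U ∈ F, U ≠ G → (2 * K + 1) * gk N U (res C U) ≤ 2 * U.card := by
    intro U hU hUG
    rcases hE U (hss U hU) (res C U) (Finset.filter_subset _ _) hS.res (hF.conn U hU) with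
      h3 | h3
    · exact h3
    · exfalso
      have hUsep : Sep C U := (hBsep.sdiff hS.sub).comps hF hS hU
      have hUB : Disjoint U B := by
        rw [Finset.disjoint_left]
        intro x hx
        exact (Finset.mem_sdiff.1 ((hF.cl U hU).1 hx)).2
      have hBU : b0 ∈ A \ U := Finset.mem_sdiff.2
        ⟨hBs.1 hb0, fun h => Finset.disjoint_left.1 hUB h hb0⟩
      obtain ⟨W, hbW, hWc, hWcl⟩ := exists_comp (N := N) hsym hBU
      have h4 := hmax (U, W) (hmemP (U, W) (hss U hU) (hF.conn U hU) hUsep h3 hWc hWcl)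
      dsimp only at h4
      have h5 : Conn N (B ∪ G) := hBc.union hsym hGc hb0 hg0 hbg
      have h6 : B ∪ G ⊆ A \ U := by
        intro x hx
        refine Finset.mem_sdiff.2 ?_
        rcases Finset.mem_union.1 hx with hx | hx
        · exact ⟨hBs.1 hx, fun h => Finset.disjoint_left.1 hUB h hx⟩
        · exact ⟨(hss G hGF).1 hx, fun h => Finset.disjoint_left.1 (hF.disj U hU G hGF hUG) h hx⟩
      have h7 : B ∪ G ⊆ W := h5.subset_of_closed h6 hWcl (Finset.mem_union_left _ hb0) hbW
      have h8 : (B ∪ G).card = B.card + G.card := by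
        rw [Finset.card_union_of_disjoint]
        rw [Finset.disjoint_right]
        intro x hx
        exact (Finset.mem_sdiff.1 (hGcl.1 hx)).2
      have h9 := Finset.card_le_card h7
      have h10 := Finset.card_pos.2 hBc.1
      omega
  have hB2 : (2 * K + 1) * gk N B (res C B) ≤ 2 * B.card + 2 := bd_two (Or.inr hBt)
  have hcardA : A.card = B.card + ∑ U ∈ F, U.card := by
    rw [← hF.card]
    have := Finset.card_sdiff_add_card_eq_card hBs.1
    omega
  have hopt : ∀ U : Finset V, ∃ D, D ⊆ U ∧ Kills N D (res C U) ∧ D.card = gk N U (res C U) :=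
    fun U => exists_gk hs (hS.res).sub (fun S hSC => (hS.res (B := U)).nonempty hSC)
  choose D1 hD1 hD1k hD1c using hopt
  have hsplit : ∀ g : Finset V → ℕ, ∑ U ∈ F, g U = g G + ∑ U ∈ F.erase G, g U :=
    fun g => (Finset.add_sum_erase F g hGF).symm
  have hrest : (2 * K + 1) * ∑ U ∈ F.erase G, gk N U (res C U) ≤
      2 * ∑ U ∈ F.erase G, U.card := by
    rw [Finset.mul_sum, Finset.mul_sum]
    apply Finset.sum_le_sum
    intro U hU
    exact hoth U (Finset.mem_of_mem_erase hU) (Finset.ne_of_mem_erase hU)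
  have hSub : ∀ S ∈ C, ¬ S ⊆ A \ B → S ⊆ B := by
    intro S hSC hn
    rcases hBsep S hSC with h1 | h1
    · exact h1
    · exact absurd (fun x hx => Finset.mem_sdiff.2
        ⟨hS.sub S hSC hx, Finset.disjoint_left.1 h1 hx⟩) hn
  rcases use_or hs hsym (hS.res (B := G)) hGc (fun A' hA' C'' hC'' =>
    hE A' (hA'.trans (hss G hGF)) C'' (hC''.trans (Finset.filter_subset _ _))) hg0 with
    ⟨D, hDG, hgD, hDk, hDc⟩ | hG2
  · -- g0 is useful: it kills the star sets of B through b0
    obtain ⟨DB, hDB1, hDB2, hDB3⟩ := crit hs hsym (hS.res (B := B))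
      (fun A' hA' C'' hC'' => hE A' (hA'.trans hBs) C''
        (hC''.trans (Finset.filter_subset _ _))) hBt hb0
    have h1 := gk_le_union (C' := C) (Y := D ∪ DB) hF hS Finset.sdiff_subset
      (Finset.union_subset (hDG.trans (hss G hGF).1) (hDB1.trans hBs.1)) subset_rfl
      (fun U => if U = G then ∅ else D1 U)
      (fun U hU => by
        by_cases hUG : U = G
        · simp [hUG]
        · simp only [hUG, if_false]; exact (hD1 U).trans (hss U hU).1)
      (fun S hSC hSB => by
        have hSB' := hSub S hSC hSB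
        by_cases hbS : b0 ∈ S
        · exact ⟨g0, Finset.mem_union_left _ hgD, b0, hbS, hsym _ _ hbg⟩
        · refine (hDB2 S (mem_res.2 ⟨mem_res.2 ⟨hSC, hSB'⟩, ?_⟩)).mono
            Finset.subset_union_right
          intro x hx
          refine Finset.mem_erase.2 ⟨?_, hSB' hx⟩
          rintro rfl
          exact hbS hx)
      (fun U hU S hSC hSU => by
        by_cases hUG : U = G
        · left
          rw [hUG] at hSU
          exact (hDk S (mem_res.2 ⟨hSC, hSU⟩)).mono Finset.subset_union_left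
        · right
          simp only [hUG, if_false]
          exact hD1k U S (mem_res.2 ⟨hSC, hSU⟩))
    have h2 : ∑ U ∈ F, (if U = G then ∅ else D1 U).card = ∑ U ∈ F.erase G, gk N U (res C U) := by
      rw [hsplit]
      simp only [if_true, Finset.card_empty, Nat.zero_add]
      apply Finset.sum_congr rfl
      intro U hU
      rw [if_neg (Finset.ne_of_mem_erase hU), hD1c U]
    rw [h2] at h1
    have h3 := Finset.card_union_le D DB
    have hG3 : (2 * K + 1) * gk N G (res C G) ≤ 2 * G.card + 2 :=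
      bd_two (hE G (hss G hGF) (res C G) (Finset.filter_subset _ _) hS.res hGc)
    have h4 : gk N A C + 1 ≤ gk N G (res C G) + gk N B (res C B) +
        ∑ U ∈ F.erase G, gk N U (res C U) := by omega
    have h5 := Nat.mul_le_mul_left (2 * K + 1) h4
    rw [Nat.mul_add, Nat.mul_add, Nat.mul_add] at h5
    rw [hsplit] at hcardA
    omega
  · have h1 := gk_le_union (C' := C) (Y := D1 B) hF hS Finset.sdiff_subset
      ((hD1 B).trans hBs.1) subset_rfl D1
      (fun U hU => (hD1 U).trans (hss U hU).1)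
      (fun S hSC hSB => hD1k B S (mem_res.2 ⟨hSC, hSub S hSC hSB⟩))
      (fun U hU S hSC hSU => Or.inr (hD1k U S (mem_res.2 ⟨hSC, hSU⟩)))
    have h2 : ∑ U ∈ F, (D1 U).card = gk N G (res C G) + ∑ U ∈ F.erase G, gk N U (res C U) := by
      rw [hsplit, hD1c G]
      congr 1
      exact Finset.sum_congr rfl (fun U _ => hD1c U)
    rw [h2, hD1c B] at h1
    have h5 := Nat.mul_le_mul_left (2 * K + 1) h1
    rw [Nat.mul_add, Nat.mul_add] at h5
    rw [hsplit] at hcardA
    omega

/-- **R3**, the form used later. -/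
theorem near_conn (hs : ∀ x, x ∈ N x) (hsym : ∀ x y, x ∈ N y → y ∈ N x) (hK : 2 ≤ K)
    (hS : Sys N K A C) (hA : Conn N A)
    (hE : ∀ A' ⊂ A, ∀ C' ⊆ C, Sys N K A' C' → Conn N A' → Bd N K A' C')
    (hV : 2 * A.card < (2 * K + 1) * gk N A C) {B : Finset V} (hB : B ⊆ A) (hBn : B.Nonempty)
    (hBA : B ≠ A) : ∃ S ∈ C, ¬ S ⊆ B ∧ ¬ Disjoint S B := by
  by_contra hcon
  push Not at hcon
  apply no_sep hs hsym hK hS hA hE hV hB hBn hBA
  intro S hSC
  by_cases h : S ⊆ B
  · exact Or.inl h
  · exact Or.inr (hcon S hSC h)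

end

end Pool.Agent.Star.Rig
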