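import Pool.Agent.Star.Rig3

/-!
# R4: in an edge-minimal violator every edge is used by a star set

`del N y z` deletes the edge `y z`.  If `C` is still a star system after the deletion of an edge
`y z` of a violator all of whose smaller systems satisfy the bound, then the graph without the
edge is connected and violates the bound as well.  So in a violator with the minimal number of
edges each edge is needed by a star set; in particular (with `S = N c`) non-centres are pairwise
non-adjacent.
-/

set_option autoImplicit false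
set_option linter.unusedSectionVars false
set_option linter.unusedVariables false

namespace Pool.Agent.Star.Rig

open Finset

variable {V : Type*} [DecidableEq V]

/-- Delete the edge `y z`. -/
def del (N : V → Finset V) (y z : V) : V → Finset V :=
  fun x => if x = y then (N x).erase z else if x = z then (N x).erase y else N x

section
variable {N : V → Finset V} {K : ℕ} {A : Finset V} {C : Finset (Finset V)}

lemma mem_del {y z : V} (hyz : y ≠ z) {a b : V} :
    a ∈ del N y z b ↔ a ∈ N b ∧ ¬ (b = y ∧ a = z) ∧ ¬ (b = z ∧ a = y) := by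
  unfold del
  by_cases h1 : b = y
  · have h2 : b ≠ z := fun h => hyz (h1.symm.trans h)
    rw [if_pos h1, Finset.mem_erase]
    tauto
  · by_cases h2 : b = z
    · rw [if_neg h1, if_pos h2, Finset.mem_erase]
      tauto
    · rw [if_neg h1, if_neg h2]
      tauto

lemma del_sub {y z : V} (hyz : y ≠ z) (b : V) : del N y z b ⊆ N b :=
  fun _ h => ((mem_del hyz).1 h).1

lemma del_refl (hs : ∀ x, x ∈ N x) {y z : V} (hyz : y ≠ z) (x : V) : x ∈ del N y z x := by
  rw [mem_del hyz]
  exact ⟨hs x, fun h => hyz (h.1.symm.trans h.2), fun h => hyz (h.2.symm.trans h.1)⟩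

lemma del_symm (hsym : ∀ x y, x ∈ N y → y ∈ N x) {y z : V} (hyz : y ≠ z) (a b : V)
    (h : a ∈ del N y z b) : b ∈ del N y z a := by
  rw [mem_del hyz] at h ⊢
  exact ⟨hsym _ _ h.1, fun h' => h.2.2 ⟨h'.2, h'.1⟩, fun h' => h.2.1 ⟨h'.2, h'.1⟩⟩

lemma del_comm {y z : V} (hyz : y ≠ z) : del N y z = del N z y := by
  funext b
  ext a
  rw [mem_del hyz, mem_del hyz.symm]
  tauto

lemma Hit.mono_N {N' : V → Finset V} (hN : ∀ x, N' x ⊆ N x) {D S : Finset V}
    (h : Hit N' D S) : Hit N D S := by
  obtain ⟨d, hd, x, hx, hxd⟩ := h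
  exact ⟨d, hd, x, hx, hN d hxd⟩

lemma Kills.mono_N {N' : V → Finset V} (hN : ∀ x, N' x ⊆ N x) {D : Finset V}
    {C : Finset (Finset V)} (h : Kills N' D C) : Kills N D C :=
  fun S hS => (h S hS).mono_N hN

lemma gk_anti {N' : V → Finset V} (hN : ∀ x, N' x ⊆ N x) (hs' : ∀ x, x ∈ N' x)
    (hS : Sys N' K A C) : gk N A C ≤ gk N' A C := by
  obtain ⟨D, h1, h2, h3⟩ := exists_gk hs' hS.sub (fun S hSC => hS.nonempty hSC)
  rw [← h3]
  exact gk_le h1 (h2.mono_N hN)

/-- The deletion of an edge of a connected graph leaves a connected graph or two parts. -/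
lemma bridge_split (hsym : ∀ x y, x ∈ N y → y ∈ N x) (hA : Conn N A) {y z : V} (hyz : y ≠ z)
    (hy : y ∈ A) (hz : z ∈ A) (hnc : ¬ Conn (del N y z) A) :
    ∃ B B', y ∈ B ∧ z ∈ B' ∧ Comps (del N y z) A {B, B'} ∧ B ≠ B' := by
  have hsym' := del_symm hsym hyz
  obtain ⟨B, hyB, hB, hBA⟩ := exists_comp hsym' hy
  obtain ⟨B', hzB, hB', hBA'⟩ := exists_comp hsym' hz
  have hun : B ∪ B' = A := by
    by_contra hne
    obtain ⟨a, ha, b, hb, hbn, hba⟩ := hA.2 (B ∪ B') (Finset.union_subset hBA.1 hBA'.1)
      ⟨y, Finset.mem_union_left _ hyB⟩ hne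
    have h1 : b ∈ del N y z a := by
      rw [mem_del hyz]
      refine ⟨hba, ?_, ?_⟩
      · rintro ⟨_, rfl⟩
        exact hbn (Finset.mem_union_right _ hzB)
      · rintro ⟨_, rfl⟩
        exact hbn (Finset.mem_union_left _ hyB)
    rcases Finset.mem_union.1 ha with ha | ha
    · exact hbn (Finset.mem_union_left _ (hBA.2 a ha b hb h1))
    · exact hbn (Finset.mem_union_right _ (hBA'.2 a ha b hb h1))
  have hne : B ≠ B' := by
    rintro rfl
    rw [Finset.union_self] at hun
    rw [hun] at hB
    exact hnc hB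
  refine ⟨B, B', hyB, hzB, ⟨?_, ?_, ?_, ?_⟩, hne⟩
  · intro U hU
    rcases Finset.mem_insert.1 hU with rfl | hU
    · exact hB
    · rw [Finset.mem_singleton.1 hU]; exact hB'
  · intro U hU
    rcases Finset.mem_insert.1 hU with rfl | hU
    · exact hBA
    · rw [Finset.mem_singleton.1 hU]; exact hBA'
  · have hd : Disjoint B B' := Closed.disj hB hB' hBA hBA' hne
    intro U hU U' hU' hne'
    rcases Finset.mem_insert.1 hU with h1 | h1
    · rcases Finset.mem_insert.1 hU' with h2 | h2
      · exact absurd (h1.trans h2.symm) hne'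
      · rw [h1, Finset.mem_singleton.1 h2]; exact hd
    · rcases Finset.mem_insert.1 hU' with h2 | h2
      · rw [h2, Finset.mem_singleton.1 h1]; exact hd.symm
      · exact absurd ((Finset.mem_singleton.1 h1).trans (Finset.mem_singleton.1 h2).symm) hne'
  · intro x hx
    rw [← hun] at hx
    rcases Finset.mem_union.1 hx with hx | hx
    · exact ⟨B, Finset.mem_insert_self _ _, hx⟩
    · exact ⟨B', Finset.mem_insert_of_mem (Finset.mem_singleton_self _), hx⟩

/-- One half of the bridge case: the part of `y` is exceptional. -/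
lemma bridge_aux (hs : ∀ x, x ∈ N x) (hsym : ∀ x y, x ∈ N y → y ∈ N x) (hK : 2 ≤ K)
    {y z : V} (hyz : y ≠ z) (hzy : z ∈ N y)
    (hE : ∀ N' : V → Finset V, (∀ x, x ∈ N' x) → (∀ x y, x ∈ N' y → y ∈ N' x) →
      ∀ A' C', A'.card < A.card → Sys N' K A' C' → Conn N' A' → Bd N' K A' C')
    {B B' : Finset V} (hyB : y ∈ B) (hzB : z ∈ B') (hF : Comps (del N y z) A {B, B'})
    (hne : B ≠ B') (hS : Sys (del N y z) K A C)
    (hT : Typ (del N y z) K B (res C B)) : (2 * K + 1) * gk N A C ≤ 2 * A.card := by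
  classical
  set N' := del N y z with hN'
  have hsub : ∀ x, N' x ⊆ N x := del_sub hyz
  have hs' : ∀ x, x ∈ N' x := del_refl hs hyz
  have hsym' : ∀ x y, x ∈ N' y → y ∈ N' x := del_symm hsym hyz
  have hBm : B ∈ ({B, B'} : Finset (Finset V)) := Finset.mem_insert_self _ _
  have hBm' : B' ∈ ({B, B'} : Finset (Finset V)) :=
    Finset.mem_insert_of_mem (Finset.mem_singleton_self _)
  have hcard : A.card = B.card + B'.card := by
    rw [hF.card, Finset.sum_pair hne]
  have hp : 0 < B.card := Finset.card_pos.2 ⟨y, hyB⟩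
  have hp' : 0 < B'.card := Finset.card_pos.2 ⟨z, hzB⟩
  have hEB : ∀ A' ⊂ B, ∀ C' ⊆ res C B, Sys N' K A' C' → Conn N' A' → Bd N' K A' C' := by
    intro A' hA' C' _ h1 h2
    have := Finset.card_lt_card hA'
    exact hE N' hs' hsym' A' C' (by omega) h1 h2
  obtain ⟨D1, hD1, hD1k, hD1c⟩ := crit hs' hsym' (hS.res (B := B)) hEB hT hyB
  have hb1 : (2 * K + 1) * gk N' B (res C B) ≤ 2 * B.card + 2 := by
    rcases hT with ⟨h1, h2⟩ | ⟨h1, h2⟩
    · rw [h1, h2]; omega
    · rw [h1, h2]; omega
  have hbd' := hE N' hs' hsym' B' (res C B') (by omega) hS.res (hF.conn B' hBm')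
  have hb2 : (2 * K + 1) * gk N' B' (res C B') ≤ 2 * B'.card + 2 := by
    rcases hbd' with h | ⟨h1, h2⟩ | ⟨h1, h2⟩
    · omega
    · rw [h1, h2]; omega
    · rw [h1, h2]; omega
  have hstar : ∀ S ∈ C, S ⊆ B ∨ S ⊆ B' := by
    intro S hSC
    obtain ⟨U, hU, hSU⟩ := hF.star hS hSC (hS.sub S hSC)
    rcases Finset.mem_insert.1 hU with rfl | hU
    · exact Or.inl hSU
    · rw [Finset.mem_singleton.1 hU] at hSU; exact Or.inr hSU
  by_cases hu : gk N' B' ((res C B').filter (fun S => ¬ Hit N' {z} S)) = gk N' B' (res C B')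
  · -- `z` is useless in `B'`
    have h3 := useless (K := K) hs' hsym' (hS.res (B := B')) (hF.conn B' hBm')
      (by
        intro A' hA' C' _ h1 h2
        have := Finset.card_lt_card hA'
        exact hE N' hs' hsym' A' C' (by omega) h1 h2)
      (Finset.singleton_subset_iff.2 hzB) (Finset.singleton_nonempty z) hu
    rw [Finset.card_singleton] at h3
    have h4 : gk N A C ≤ gk N' B (res C B) + gk N' B' (res C B') := by
      have h5 := gk_le_sum (K := K) hs' hF hS (Finset.Subset.refl A)
      have h6 : res C A = C := by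
        ext S
        rw [mem_res]
        exact ⟨fun h => h.1, fun h => ⟨h, hS.sub S h⟩⟩
      rw [h6, Finset.sum_pair hne] at h5
      exact (gk_anti hsub hs' hS).trans h5
    have h7 : (2 * K + 1) * gk N A C ≤
        (2 * K + 1) * gk N' B (res C B) + (2 * K + 1) * gk N' B' (res C B') := by
      rw [← Nat.mul_add]; exact Nat.mul_le_mul_left _ h4
    omega
  · -- `z` lies in a minimum killing set of `B'`
    have hle : gk N' B' ((res C B').filter (fun S => ¬ Hit N' {z} S)) ≤ gk N' B' (res C B') :=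
      gk_mono hs' (hS.res (B := B')).sub (fun S hSC => (hS.res (B := B')).nonempty hSC)
        (Finset.filter_subset _ _)
    obtain ⟨D2, hD2, hD2k, hD2c⟩ := exists_gk (C := (res C B').filter (fun S => ¬ Hit N' {z} S))
      (A := B') hs'
      (fun S hSC => (mem_res.1 (Finset.mem_filter.1 hSC).1).2)
      (fun S hSC => (hS.res (B := B')).nonempty (Finset.mem_filter.1 hSC).1)
    have hBA : B ⊆ A := (hF.cl B hBm).1
    have hBA' : B' ⊆ A := (hF.cl B' hBm').1
    have hk : Kills N (D1 ∪ insert z D2) C := by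
      intro S hSC
      rcases hstar S hSC with h1 | h1
      · by_cases hyS : y ∈ S
        · exact ⟨z, Finset.mem_union_right _ (Finset.mem_insert_self _ _), y, hyS, hsym _ _ hzy⟩
        · have h2 : Hit N' D1 S := hD1k S (mem_res.2 ⟨mem_res.2 ⟨hSC, h1⟩, fun x hx =>
            Finset.mem_erase.2 ⟨fun h => hyS (h ▸ hx), h1 hx⟩⟩)
          exact (h2.mono_N hsub).mono Finset.subset_union_left
      · by_cases hzS : Hit N' {z} S
        · refine (hzS.mono_N hsub).mono ?_
          intro x hx
          rw [Finset.mem_singleton.1 hx]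
          exact Finset.mem_union_right _ (Finset.mem_insert_self _ _)
        · have h2 : Hit N' D2 S := hD2k S (Finset.mem_filter.2 ⟨mem_res.2 ⟨hSC, h1⟩, hzS⟩)
          refine (h2.mono_N hsub).mono ?_
          intro x hx
          exact Finset.mem_union_right _ (Finset.mem_insert_of_mem hx)
    have hDA : D1 ∪ insert z D2 ⊆ A := by
      refine Finset.union_subset (hD1.trans hBA) (Finset.insert_subset (hBA' hzB) ?_)
      exact hD2.trans hBA'
    have h3 := gk_le hDA hk
    have h4 : (D1 ∪ insert z D2).card ≤ D1.card + (D2.card + 1) :=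
      (Finset.card_union_le _ _).trans (Nat.add_le_add_left (Finset.card_insert_le _ _) _)
    have h5 : gk N A C + 1 ≤ gk N' B (res C B) + gk N' B' (res C B') := by omega
    have h6 : (2 * K + 1) * gk N A C + (2 * K + 1) ≤
        (2 * K + 1) * gk N' B (res C B) + (2 * K + 1) * gk N' B' (res C B') := by
      rw [← Nat.mul_add, ← Nat.mul_succ]; exact Nat.mul_le_mul_left _ h5
    omega

/-- R4 (NF2): if `C` is still a star system after the deletion of the edge `y z`, then the graph
without the edge is a violator as well. -/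
theorem del_bridge (hs : ∀ x, x ∈ N x) (hsym : ∀ x y, x ∈ N y → y ∈ N x) (hK : 2 ≤ K)
    (hA : Conn N A)
    (hE : ∀ N' : V → Finset V, (∀ x, x ∈ N' x) → (∀ x y, x ∈ N' y → y ∈ N' x) →
      ∀ A' C', A'.card < A.card → Sys N' K A' C' → Conn N' A' → Bd N' K A' C')
    (hv : 2 * A.card < (2 * K + 1) * gk N A C)
    {y z : V} (hyz : y ≠ z) (hy : y ∈ A) (hz : z ∈ A) (hzy : z ∈ N y)
    (hS : Sys (del N y z) K A C) : Conn (del N y z) A := by
  by_contra hnc
  obtain ⟨B, B', hyB, hzB, hF, hne⟩ := bridge_split hsym hA hyz hy hz hnc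
  have hs' := del_refl hs hyz
  have hsym' := del_symm hsym hyz
  have hBm : B ∈ ({B, B'} : Finset (Finset V)) := Finset.mem_insert_self _ _
  have hBm' : B' ∈ ({B, B'} : Finset (Finset V)) :=
    Finset.mem_insert_of_mem (Finset.mem_singleton_self _)
  have hcard : A.card = B.card + B'.card := by
    rw [hF.card, Finset.sum_pair hne]
  have hp : 0 < B.card := Finset.card_pos.2 ⟨y, hyB⟩
  have hp' : 0 < B'.card := Finset.card_pos.2 ⟨z, hzB⟩
  rcases hE (del N y z) hs' hsym' B (res C B) (by omega) hS.res (hF.conn B hBm) with h1 | h1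
  · rcases hE (del N y z) hs' hsym' B' (res C B') (by omega) hS.res (hF.conn B' hBm') with
      h2 | h2
    · have h5 := gk_le_sum (K := K) hs' hF hS (Finset.Subset.refl A)
      have h6 : res C A = C := by
        ext S
        rw [mem_res]
        exact ⟨fun h => h.1, fun h => ⟨h, hS.sub S h⟩⟩
      rw [h6, Finset.sum_pair hne] at h5
      have h7 := (gk_anti (del_sub hyz) hs' hS).trans h5
      have h8 : (2 * K + 1) * gk N A C ≤ (2 * K + 1) * gk (del N y z) B (res C B) +
          (2 * K + 1) * gk (del N y z) B' (res C B') := by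
        rw [← Nat.mul_add]; exact Nat.mul_le_mul_left _ h7
      omega
    · have hpair : ({B, B'} : Finset (Finset V)) = {B', B} := Finset.pair_comm _ _
      rw [del_comm hyz] at hF hS h2
      rw [hpair] at hF
      have := bridge_aux hs hsym hK hyz.symm (hsym _ _ hzy) hE hzB hyB hF hne.symm hS h2
      omega
  · have := bridge_aux hs hsym hK hyz hzy hE hyB hzB hF hne hS h1
    omega

/-- R4 (NF2): in an edge-minimal violator every edge is used by a star set. -/
theorem edge_used (hs : ∀ x, x ∈ N x) (hsym : ∀ x y, x ∈ N y → y ∈ N x) (hK : 2 ≤ K)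
    (hA : Conn N A)
    (hE : ∀ N' : V → Finset V, (∀ x, x ∈ N' x) → (∀ x y, x ∈ N' y → y ∈ N' x) →
      ∀ A' C', A'.card < A.card → Sys N' K A' C' → Conn N' A' → Bd N' K A' C')
    (hv : ¬ Bd N K A C)
    (hedge : ∀ y ∈ A, ∀ z ∈ A, y ≠ z → z ∈ N y → Sys (del N y z) K A C →
      Conn (del N y z) A → Bd (del N y z) K A C)
    {y z : V} (hyz : y ≠ z) (hy : y ∈ A) (hz : z ∈ A) (hzy : z ∈ N y) :
    ¬ Sys (del N y z) K A C := by
  intro hS
  have hv1 : 2 * A.card < (2 * K + 1) * gk N A C := by
    by_contra h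
    exact hv (Or.inl (by omega))
  have hc := del_bridge hs hsym hK hA hE hv1 hyz hy hz hzy hS
  have h1 := gk_anti (A := A) (del_sub hyz) (del_refl hs hyz) hS
  have hp : 0 < A.card := Finset.card_pos.2 ⟨y, hy⟩
  rcases hedge y hy z hz hyz hzy hS hc with h | ⟨h2, h3⟩ | ⟨h2, h3⟩
  · have : (2 * K + 1) * gk N A C ≤ (2 * K + 1) * gk (del N y z) A C :=
      Nat.mul_le_mul_left _ h1
    omega
  · apply hv
    refine Or.inr (Or.inl ⟨h2, ?_⟩)
    have h4 : gk N A C ≠ 0 := by
      intro h0; rw [h0] at hv1; omega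
    omega
  · apply hv
    refine Or.inr (Or.inr ⟨h2, ?_⟩)
    have h4 : gk N A C ≠ 0 := by
      intro h0; rw [h0] at hv1; omega
    have h5 : gk N A C ≠ 1 := by
      intro h0; rw [h0] at hv1; omega
    omega

end

end Pool.Agent.Star.Rig
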