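import Pool.Agent.Star.Main

/-!
# Star systems: useless vertices and rigidity (R6)

A star system on the vertex set `A` is a family `C` of sets `S` with `K` elements, `S ⊆ A`,
`c ∈ S ⊆ N c` for some `c`.  A vertex `d` kills `S` when `N d` meets `S`.  `gk N A C` is the
minimal number of vertices of `A` killing all members of `C`.
-/

set_option autoImplicit false
set_option linter.unusedSectionVars false
set_option linter.unusedVariables false

namespace Pool.Agent.Star.Rig

open Finset

variable {V : Type*} [DecidableEq V]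

/-- Some vertex of `D` has a closed neighbour in `S`. -/
def Hit (N : V → Finset V) (D S : Finset V) : Prop := ∃ d ∈ D, ∃ x ∈ S, x ∈ N d

/-- `D` kills all members of `C`. -/
def Kills (N : V → Finset V) (D : Finset V) (C : Finset (Finset V)) : Prop := ∀ S ∈ C, Hit N D S

open Classical in
/-- The minimal number of vertices of `A` killing all members of `C`. -/
noncomputable def gk (N : V → Finset V) (A : Finset V) (C : Finset (Finset V)) : ℕ :=
  sInf {m | ∃ D, D ⊆ A ∧ Kills N D C ∧ D.card = m}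

/-- `C` is a family of star sets inside `A`. -/
structure Sys (N : V → Finset V) (K : ℕ) (A : Finset V) (C : Finset (Finset V)) : Prop where
  sub : ∀ S ∈ C, S ⊆ A
  card : ∀ S ∈ C, S.card = K
  cen : ∀ S ∈ C, ∃ c ∈ S, S ⊆ N c

/-- The members of `C` inside `B`. -/
def res (C : Finset (Finset V)) (B : Finset V) : Finset (Finset V) := C.filter (fun S => S ⊆ B)

/-- The exceptional types: `n = K`, `f = 1` and `n = 2 K`, `f = 2`. -/
def Typ (N : V → Finset V) (K : ℕ) (A : Finset V) (C : Finset (Finset V)) : Prop :=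
  (A.card = K ∧ gk N A C = 1) ∨ (A.card = 2 * K ∧ gk N A C = 2)

/-- The bound `(2K+1) f ≤ 2n`, up to the exceptional types. -/
def Bd (N : V → Finset V) (K : ℕ) (A : Finset V) (C : Finset (Finset V)) : Prop :=
  (2 * K + 1) * gk N A C ≤ 2 * A.card ∨ Typ N K A C

section
variable {N : V → Finset V} {K : ℕ}

lemma mem_res {C : Finset (Finset V)} {B S : Finset V} : S ∈ res C B ↔ S ∈ C ∧ S ⊆ B := by
  simp [res]

lemma Hit.mono {D D' S : Finset V} (h : Hit N D S) (hD : D ⊆ D') : Hit N D' S := by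
  obtain ⟨d, hd, x, hx, hxd⟩ := h
  exact ⟨d, hD hd, x, hx, hxd⟩

lemma Sys.nonempty {A : Finset V} {C : Finset (Finset V)} (h : Sys N K A C) {S : Finset V}
    (hS : S ∈ C) : S.Nonempty := by
  obtain ⟨c, hc, _⟩ := h.cen S hS
  exact ⟨c, hc⟩

lemma Sys.res {A B : Finset V} {C : Finset (Finset V)} (h : Sys N K A C) :
    Sys N K B (res C B) :=
  ⟨fun _ hS => (mem_res.1 hS).2, fun S hS => h.card S (mem_res.1 hS).1,
    fun S hS => h.cen S (mem_res.1 hS).1⟩

lemma Sys.of_subset {A : Finset V} {C C' : Finset (Finset V)} (h : Sys N K A C) (hC : C' ⊆ C) :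
    Sys N K A C' :=
  ⟨fun S hS => h.sub S (hC hS), fun S hS => h.card S (hC hS), fun S hS => h.cen S (hC hS)⟩

lemma gk_le {A D : Finset V} {C : Finset (Finset V)} (h1 : D ⊆ A) (h2 : Kills N D C) :
    gk N A C ≤ D.card := Nat.sInf_le ⟨D, h1, h2, rfl⟩

lemma exists_gk (hs : ∀ x, x ∈ N x) {A : Finset V} {C : Finset (Finset V)}
    (hA : ∀ S ∈ C, S ⊆ A) (hne : ∀ S ∈ C, S.Nonempty) :
    ∃ D, D ⊆ A ∧ Kills N D C ∧ D.card = gk N A C := by
  have h : {m | ∃ D, D ⊆ A ∧ Kills N D C ∧ D.card = m}.Nonempty := by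
    refine ⟨_, A, subset_rfl, ?_, rfl⟩
    intro S hS
    obtain ⟨x, hx⟩ := hne S hS
    exact ⟨x, hA S hS hx, x, hx, hs x⟩
  exact Nat.sInf_mem h

lemma gk_mono (hs : ∀ x, x ∈ N x) {A : Finset V} {C C' : Finset (Finset V)}
    (hA : ∀ S ∈ C, S ⊆ A) (hne : ∀ S ∈ C, S.Nonempty) (hC : C' ⊆ C) :
    gk N A C' ≤ gk N A C := by
  obtain ⟨D, h1, h2, h3⟩ := exists_gk hs hA hne
  rw [← h3]
  exact gk_le h1 (fun S hS => h2 S (hC hS))

/-- The components of `B`. -/
structure Comps (N : V → Finset V) (B : Finset V) (F : Finset (Finset V)) : Prop where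
  conn : ∀ U ∈ F, Conn N U
  cl : ∀ U ∈ F, Closed N U B
  disj : ∀ U ∈ F, ∀ U' ∈ F, U ≠ U' → Disjoint U U'
  cover : ∀ x ∈ B, ∃ U ∈ F, x ∈ U

lemma exists_comps (hsym : ∀ x y, x ∈ N y → y ∈ N x) (B : Finset V) :
    ∃ F : Finset (Finset V), Comps N B F := by
  induction' hn : B.card using Nat.strong_induction_on with n ih generalizing B
  rcases B.eq_empty_or_nonempty with rfl | ⟨x, hx⟩
  · exact ⟨∅, by simp, by simp, by simp, by simp⟩
  · obtain ⟨U, hxU, hUc, hUB⟩ := exists_comp hsym hx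
    have hlt : (B \ U).card < n := by
      rw [← hn]
      exact Finset.card_lt_card (Finset.sdiff_ssubset hUB.1 ⟨x, hxU⟩)
    obtain ⟨F, hF⟩ := ih _ hlt (B \ U) rfl
    have hclU : ∀ W ∈ F, Closed N W B := by
      intro W hW
      refine ⟨(hF.cl W hW).1.trans Finset.sdiff_subset, ?_⟩
      intro a ha y hy hya
      by_cases hyU : y ∈ U
      · exfalso
        have haB := (hF.cl W hW).1 ha
        rw [Finset.mem_sdiff] at haB
        exact haB.2 (hUB.2 y hyU a haB.1 (hsym _ _ hya))
      · exact (hF.cl W hW).2 a ha y (Finset.mem_sdiff.2 ⟨hy, hyU⟩) hya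
    have hdU : ∀ W ∈ F, Disjoint U W := by
      intro W hW
      rw [Finset.disjoint_right]
      intro a ha
      exact (Finset.mem_sdiff.1 ((hF.cl W hW).1 ha)).2
    refine ⟨insert U F, ?_, ?_, ?_, ?_⟩
    · intro W hW
      rcases Finset.mem_insert.1 hW with rfl | hW
      · exact hUc
      · exact hF.conn W hW
    · intro W hW
      rcases Finset.mem_insert.1 hW with rfl | hW
      · exact hUB
      · exact hclU W hW
    · intro W hW W' hW' hne
      rcases Finset.mem_insert.1 hW with h1 | h1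
      · rcases Finset.mem_insert.1 hW' with h2 | h2
        · exact absurd (h1.trans h2.symm) hne
        · rw [h1]; exact hdU W' h2
      · rcases Finset.mem_insert.1 hW' with h2 | h2
        · rw [h2]; exact (hdU W h1).symm
        · exact hF.disj W h1 W' h2 hne
    · intro y hy
      by_cases hyU : y ∈ U
      · exact ⟨U, Finset.mem_insert_self _ _, hyU⟩
      · obtain ⟨W, hW, hyW⟩ := hF.cover y (Finset.mem_sdiff.2 ⟨hy, hyU⟩)
        exact ⟨W, Finset.mem_insert_of_mem hW, hyW⟩

lemma Comps.eq_of_mem {B : Finset V} {F : Finset (Finset V)} (h : Comps N B F)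
    {U U' : Finset V} (hU : U ∈ F) (hU' : U' ∈ F) {x : V} (hx : x ∈ U) (hx' : x ∈ U') :
    U = U' := by
  by_contra hne
  exact Finset.disjoint_left.1 (h.disj U hU U' hU' hne) hx hx'

lemma Comps.biUnion {B : Finset V} {F : Finset (Finset V)} (h : Comps N B F) :
    F.biUnion id = B := by
  ext x
  simp only [Finset.mem_biUnion, id]
  constructor
  · rintro ⟨U, hU, hx⟩
    exact (h.cl U hU).1 hx
  · intro hx
    exact h.cover x hx

lemma Comps.card {B : Finset V} {F : Finset (Finset V)} (h : Comps N B F) :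
    B.card = ∑ U ∈ F, U.card := by
  rw [← h.biUnion, Finset.card_biUnion]
  · rfl
  · intro U hU U' hU' hne
    exact h.disj U hU U' hU' hne

/-- A star set inside `B` lies in one component of `B`. -/
lemma Comps.star {A B : Finset V} {C : Finset (Finset V)} {F : Finset (Finset V)}
    (h : Comps N B F) (hS : Sys N K A C) {S : Finset V} (hSC : S ∈ C) (hSB : S ⊆ B) :
    ∃ U ∈ F, S ⊆ U := by
  obtain ⟨c, hc, hcN⟩ := hS.cen S hSC
  obtain ⟨U, hU, hcU⟩ := h.cover c (hSB hc)
  exact ⟨U, hU, fun y hy => (h.cl U hU).2 c hcU y (hSB hy) (hcN hy)⟩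

/-- The union bound: `Y` together with one set `h U` for each component of `B`. -/
lemma gk_le_union {A B Y : Finset V} {C C' : Finset (Finset V)} {F : Finset (Finset V)}
    (hF : Comps N B F) (hS : Sys N K A C) (hBA : B ⊆ A) (hYA : Y ⊆ A) (hC' : C' ⊆ C)
    (h : Finset V → Finset V) (hU : ∀ U ∈ F, h U ⊆ A)
    (hY : ∀ S ∈ C', ¬ S ⊆ B → Hit N Y S)
    (hk : ∀ U ∈ F, ∀ S ∈ C', S ⊆ U → Hit N Y S ∨ Hit N (h U) S) :
    gk N A C' ≤ Y.card + ∑ U ∈ F, (h U).card := by
  have h1 : Kills N (Y ∪ F.biUnion h) C' := by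
    intro S hSC
    by_cases hSB : S ⊆ B
    · obtain ⟨U, hUF, hSU⟩ := hF.star hS (hC' hSC) hSB
      rcases hk U hUF S hSC hSU with h2 | h2
      · exact h2.mono Finset.subset_union_left
      · refine h2.mono ?_
        intro x hx
        exact Finset.mem_union_right _ (Finset.mem_biUnion.2 ⟨U, hUF, hx⟩)
    · exact (hY S hSC hSB).mono Finset.subset_union_left
  have h2 : Y ∪ F.biUnion h ⊆ A := by
    intro x hx
    rcases Finset.mem_union.1 hx with hx | hx
    · exact hYA hx
    · obtain ⟨U, hUF, hx⟩ := Finset.mem_biUnion.1 hx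
      exact hU U hUF hx
  calc gk N A C' ≤ (Y ∪ F.biUnion h).card := gk_le h2 h1
    _ ≤ Y.card + (F.biUnion h).card := Finset.card_union_le _ _
    _ ≤ Y.card + ∑ U ∈ F, (h U).card := Nat.add_le_add_left Finset.card_biUnion_le _

/-- Sub-additivity over the components. -/
lemma gk_le_sum (hs : ∀ x, x ∈ N x) {A B : Finset V} {C : Finset (Finset V)}
    {F : Finset (Finset V)} (hF : Comps N B F) (hS : Sys N K A C) (hBA : B ⊆ A) :
    gk N A (res C B) ≤ ∑ U ∈ F, gk N U (res C U) := by
  have h0 : ∀ U : Finset V, ∃ D, D ⊆ U ∧ Kills N D (res C U) ∧ D.card = gk N U (res C U) :=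
    fun U => exists_gk hs (hS.res).sub (fun S hSC => (hS.res (B := U)).nonempty hSC)
  choose D hD1 hD2 hD3 using h0
  have h1 := gk_le_union (C' := res C B) hF hS hBA (Finset.empty_subset A)
    (fun S hSC => (mem_res.1 hSC).1) D
    (fun U hU => (hD1 U).trans ((hF.cl U hU).1.trans hBA))
    (fun S hSC hSB => absurd (mem_res.1 hSC).2 hSB)
    (fun U hU S hSC hSU => Or.inr (hD2 U S (mem_res.2 ⟨(mem_res.1 hSC).1, hSU⟩)))
  rw [Finset.card_empty, Nat.zero_add] at h1
  calc _ ≤ _ := h1
    _ = _ := Finset.sum_congr rfl (fun U _ => hD3 U)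

/-- Every vertex of an exceptional system is critical. -/
lemma crit (hs : ∀ x, x ∈ N x) (hsym : ∀ x y, x ∈ N y → y ∈ N x) {U : Finset V}
    {C : Finset (Finset V)} (hS : Sys N K U C)
    (hE : ∀ A' ⊂ U, ∀ C' ⊆ C, Sys N K A' C' → Conn N A' → Bd N K A' C')
    (hT : Typ N K U C) {v : V} (hv : v ∈ U) :
    ∃ D, D ⊆ U ∧ Kills N D (res C (U.erase v)) ∧ D.card + 1 ≤ gk N U C := by
  have hK : 1 ≤ K := by
    rcases hT with ⟨h1, _⟩ | ⟨h1, _⟩
    · have := Finset.card_pos.2 ⟨v, hv⟩; omega
    · have := Finset.card_pos.2 ⟨v, hv⟩; omega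
  have hec : (U.erase v).card + 1 = U.card := Finset.card_erase_add_one hv
  rcases hT with ⟨h1, h2⟩ | ⟨h1, h2⟩
  · refine ⟨∅, Finset.empty_subset _, ?_, ?_⟩
    · intro S hSC
      exfalso
      have h3 := hS.card S (mem_res.1 hSC).1
      have h4 := Finset.card_le_card (mem_res.1 hSC).2
      omega
    · rw [h2]; simp
  · obtain ⟨F, hF⟩ := exists_comps (N := N) hsym (U.erase v)
    have hss : ∀ W ∈ F, W ⊂ U := by
      intro W hW
      refine Finset.ssubset_of_subset_of_ssubset (hF.cl W hW).1 (Finset.erase_ssubset hv)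
    have h3 := gk_le_sum (K := K) hs hF hS (Finset.erase_subset v U)
    have hbd : ∀ W ∈ F, (2 * K + 1) * gk N W (res C W) ≤
        2 * W.card + (if W.card = K then 1 else 0) := by
      intro W hW
      rcases hE W (hss W hW) (res C W) (Finset.filter_subset _ _) hS.res (hF.conn W hW) with
        h4 | ⟨h4, h5⟩ | ⟨h4, h5⟩
      · omega
      · rw [h5, h4]; simp
      · exfalso
        have := Finset.card_le_card (hF.cl W hW).1
        omega
    have hsum : (2 * K + 1) * ∑ W ∈ F, gk N W (res C W) ≤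
        2 * (U.erase v).card + ∑ W ∈ F, (if W.card = K then 1 else 0) := by
      rw [hF.card, Finset.mul_sum, Finset.mul_sum, ← Finset.sum_add_distrib]
      exact Finset.sum_le_sum hbd
    have hone : ∑ W ∈ F, (if W.card = K then 1 else 0) ≤ 1 := by
      rw [← Finset.card_filter]
      by_contra hcon
      push Not at hcon
      obtain ⟨W, hW, W', hW', hne⟩ := Finset.one_lt_card.1 hcon
      rw [Finset.mem_filter] at hW hW'
      have h5 : (W ∪ W').card = W.card + W'.card :=
        Finset.card_union_of_disjoint (hF.disj W hW.1 W' hW'.1 hne)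
      have h6 : W ∪ W' ⊆ U.erase v :=
        Finset.union_subset (hF.cl W hW.1).1 (hF.cl W' hW'.1).1
      have h7 := Finset.card_le_card h6
      omega
    have h8 : ∑ W ∈ F, gk N W (res C W) ≤ 1 := by
      by_contra hcon
      push Not at hcon
      have h9 : (2 * K + 1) * 2 ≤ (2 * K + 1) * ∑ W ∈ F, gk N W (res C W) :=
        Nat.mul_le_mul_left _ hcon
      omega
    obtain ⟨D, hD1, hD2, hD3⟩ := exists_gk (N := N) hs (A := U) (C := res C (U.erase v))
      (fun S hSC => (mem_res.1 hSC).2.trans (Finset.erase_subset _ _))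
      (fun S hSC => hS.nonempty (mem_res.1 hSC).1)
    exact ⟨D, hD1, hD2, by omega⟩

end

end Pool.Agent.Star.Rig
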