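import Pool.Agent.Star.Rig

/-!
# Star systems: useless vertices cost two, the accounting, rigidity (R6)
-/

set_option autoImplicit false
set_option linter.unusedSectionVars false
set_option linter.unusedVariables false

namespace Pool.Agent.Star.Rig

open Finset

variable {V : Type*} [DecidableEq V]

section
variable {N : V → Finset V} {K : ℕ}

/-- A component of `A \ Z` has a neighbour in `Z`. -/
lemma Comps.adj (hsym : ∀ x y, x ∈ N y → y ∈ N x) {A Z : Finset V} {F : Finset (Finset V)}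
    (hA : Conn N A) (hZA : Z ⊆ A) (hZ : Z.Nonempty) (hF : Comps N (A \ Z) F) {U : Finset V}
    (hU : U ∈ F) : ∃ z ∈ Z, ∃ x ∈ U, x ∈ N z := by
  obtain ⟨w, hw⟩ := hZ
  have h1 : U ⊆ A := (hF.cl U hU).1.trans Finset.sdiff_subset
  have h2 : U ≠ A := by
    rintro rfl
    exact (Finset.mem_sdiff.1 ((hF.cl _ hU).1 (hZA hw))).2 hw
  obtain ⟨x, hx, y, hy, hyU, hyx⟩ := hA.2 U h1 (hF.conn U hU).1 h2
  have h3 : y ∈ Z := by
    by_contra hyZ
    exact hyU ((hF.cl U hU).2 x hx y (Finset.mem_sdiff.2 ⟨hy, hyZ⟩) hyx)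
  exact ⟨y, h3, x, hx, hsym _ _ hyx⟩

open Classical in
/-- LEMMA U: a nonempty set of jointly useless vertices costs `2` each. -/
theorem useless (hs : ∀ x, x ∈ N x) (hsym : ∀ x y, x ∈ N y → y ∈ N x) {A G : Finset V}
    {C : Finset (Finset V)} (hS : Sys N K A C) (hA : Conn N A)
    (hE : ∀ A' ⊂ A, ∀ C' ⊆ C, Sys N K A' C' → Conn N A' → Bd N K A' C')
    (hG : G ⊆ A) (hGne : G.Nonempty)
    (hu : gk N A (C.filter (fun S => ¬ Hit N G S)) = gk N A C) :
    (2 * K + 1) * gk N A C + 2 * G.card ≤ 2 * A.card := by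
  set C' := C.filter (fun S => ¬ Hit N G S) with hC'
  have hCC : C' ⊆ C := Finset.filter_subset _ _
  have hS' : Sys N K A C' := hS.of_subset hCC
  obtain ⟨F, hF⟩ := exists_comps (N := N) hsym (A \ G)
  have hres : res C' (A \ G) = C' := by
    ext S
    rw [mem_res]
    refine ⟨fun h => h.1, fun h => ⟨h, ?_⟩⟩
    intro x hx
    refine Finset.mem_sdiff.2 ⟨hS'.sub S h hx, fun hxG => ?_⟩
    exact (Finset.mem_filter.1 h).2 ⟨x, hxG, x, hx, hs x⟩
  have h1 := gk_le_sum (K := K) hs hF hS' Finset.sdiff_subset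
  rw [hres, hu] at h1
  have hss : ∀ U ∈ F, U ⊂ A := by
    intro U hU
    have h2 : U ⊆ A \ G := (hF.cl U hU).1
    exact Finset.ssubset_of_subset_of_ssubset h2 (Finset.sdiff_ssubset hG hGne)
  have hbd : ∀ U ∈ F, (2 * K + 1) * gk N U (res C' U) ≤ 2 * U.card := by
    intro U hU
    have hsub : res C' U ⊆ C := (Finset.filter_subset _ _).trans hCC
    rcases hE U (hss U hU) (res C' U) hsub hS'.res (hF.conn U hU) with h2 | h2
    · exact h2
    · exfalso
      obtain ⟨g, hg, v, hv, hvg⟩ := hF.adj hsym hA hG hGne hU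
      obtain ⟨D, hD1, hD2, hD3⟩ := crit hs hsym (hS'.res (B := U))
        (fun A' hA' C'' hC'' => hE A' (hA'.trans (hss U hU)) C'' (hC''.trans hsub)) h2 hv
      have h3 : Kills N D (res C' U) := by
        intro S hSC
        apply hD2
        refine mem_res.2 ⟨hSC, ?_⟩
        intro x hx
        refine Finset.mem_erase.2 ⟨?_, (mem_res.1 hSC).2 hx⟩
        rintro rfl
        exact (Finset.mem_filter.1 (mem_res.1 hSC).1).2 ⟨g, hg, x, hx, hvg⟩
      have h4 := gk_le hD1 h3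
      omega
  have h5 : (2 * K + 1) * ∑ U ∈ F, gk N U (res C' U) ≤ 2 * (A \ G).card := by
    rw [hF.card, Finset.mul_sum, Finset.mul_sum]
    exact Finset.sum_le_sum hbd
  have h6 : (A \ G).card + G.card = A.card := Finset.card_sdiff_add_card_eq_card hG
  have h7 : (2 * K + 1) * gk N A C ≤ (2 * K + 1) * ∑ U ∈ F, gk N U (res C' U) :=
    Nat.mul_le_mul_left _ h1
  omega

open Classical in
/-- The exceptional components. -/
noncomputable def exc (N : V → Finset V) (K : ℕ) (C F : Finset (Finset V)) :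
    Finset (Finset V) := F.filter (fun U => Typ N K U (res C U))

lemma mem_exc {C F : Finset (Finset V)} {U : Finset V} :
    U ∈ exc N K C F ↔ U ∈ F ∧ Typ N K U (res C U) := by
  classical
  unfold exc
  rw [Finset.mem_filter]

lemma exc_sub {C F : Finset (Finset V)} : exc N K C F ⊆ F := fun _ h => (mem_exc.1 h).1

/-- A separating set `Z` all of whose removal does not lower `gk`. -/
structure Cut (N : V → Finset V) (K : ℕ) (A : Finset V) (C : Finset (Finset V))
    (Z : Finset V) (F : Finset (Finset V)) : Prop where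
  sys : Sys N K A C
  conn : Conn N A
  small : ∀ A' ⊂ A, ∀ C' ⊆ C, Sys N K A' C' → Conn N A' → Bd N K A' C'
  sub : Z ⊆ A
  ne : Z.Nonempty
  full : gk N A (res C (A \ Z)) = gk N A C
  comps : Comps N (A \ Z) F

variable {A Z : Finset V} {C F : Finset (Finset V)}

lemma Cut.ss (h : Cut N K A C Z F) {U : Finset V} (hU : U ∈ F) : U ⊂ A :=
  Finset.ssubset_of_subset_of_ssubset (h.comps.cl U hU).1 (Finset.sdiff_ssubset h.sub h.ne)

lemma Cut.opt (hs : ∀ x, x ∈ N x) (h : Cut N K A C Z F) (U : Finset V) :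
    ∃ D, D ⊆ U ∧ Kills N D (res C U) ∧ D.card = gk N U (res C U) :=
  exists_gk hs (h.sys.res).sub (fun S hSC => (h.sys.res (B := U)).nonempty hSC)

lemma Cut.crit (hs : ∀ x, x ∈ N x) (hsym : ∀ x y, x ∈ N y → y ∈ N x) (h : Cut N K A C Z F)
    {U : Finset V} (hU : U ∈ exc N K C F) {v : V} (hv : v ∈ U) :
    ∃ D, D ⊆ U ∧ (∀ S ∈ C, S ⊆ U → v ∉ S → Hit N D S) ∧ D.card + 1 ≤ gk N U (res C U) := by
  obtain ⟨hUF, hT⟩ := mem_exc.1 hU
  obtain ⟨D, hD1, hD2, hD3⟩ := Rig.crit hs hsym (h.sys.res (B := U))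
    (fun A' hA' C'' hC'' => h.small A' (hA'.trans (h.ss hUF)) C''
      (hC''.trans (Finset.filter_subset _ _))) hT hv
  refine ⟨D, hD1, ?_, hD3⟩
  intro S hSC hSU hvS
  apply hD2
  refine mem_res.2 ⟨mem_res.2 ⟨hSC, hSU⟩, ?_⟩
  intro x hx
  refine Finset.mem_erase.2 ⟨?_, hSU hx⟩
  rintro rfl
  exact hvS hx

/-- Hall: the exceptional components adjacent to `Y` are at most `|Y| + Δ`. -/
lemma Cut.hall (hs : ∀ x, x ∈ N x) (hsym : ∀ x y, x ∈ N y → y ∈ N x) (h : Cut N K A C Z F)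
    {Y : Finset V} {G : Finset (Finset V)} (hY : Y ⊆ A) (hG : G ⊆ exc N K C F)
    (hadj : ∀ U ∈ G, ∃ y ∈ Y, ∃ x ∈ U, x ∈ N y) :
    gk N A C + G.card ≤ Y.card + ∑ U ∈ F, gk N U (res C U) := by
  have hopt := h.opt hs
  choose D1 hD1 hD1k hD1c using hopt
  have hcr : ∀ U : Finset V, ∃ D : Finset V, U ∈ G → D ⊆ U ∧
      (∀ S ∈ C, S ⊆ U → Hit N Y S ∨ Hit N D S) ∧ D.card + 1 ≤ gk N U (res C U) := by
    intro U
    by_cases hU : U ∈ G
    · obtain ⟨y, hy, x, hx, hxy⟩ := hadj U hU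
      obtain ⟨D, h1, h2, h3⟩ := h.crit hs hsym (hG hU) hx
      refine ⟨D, fun _ => ⟨h1, ?_, h3⟩⟩
      intro S hSC hSU
      by_cases hxS : x ∈ S
      · exact Or.inl ⟨y, hy, x, hxS, hxy⟩
      · exact Or.inr (h2 S hSC hSU hxS)
    · exact ⟨∅, fun hc => absurd hc hU⟩
  choose D2 hD2 using hcr
  classical
  have h1 := gk_le_union (C' := res C (A \ Z)) (Y := Y) h.comps h.sys Finset.sdiff_subset hY
    (Finset.filter_subset _ _) (fun U => if U ∈ G then D2 U else D1 U)
    (fun U hU => by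
      have hUA : U ⊆ A := (h.ss hU).1
      by_cases hUG : U ∈ G
      · simp only [hUG, if_true]; exact ((hD2 U hUG).1).trans hUA
      · simp only [hUG, if_false]; exact (hD1 U).trans hUA)
    (fun S hSC hSB => absurd (mem_res.1 hSC).2 hSB)
    (fun U hU S hSC hSU => by
      by_cases hUG : U ∈ G
      · simp only [hUG, if_true]
        exact (hD2 U hUG).2.1 S (mem_res.1 hSC).1 hSU
      · simp only [hUG, if_false]
        exact Or.inr (hD1k U S (mem_res.2 ⟨(mem_res.1 hSC).1, hSU⟩)))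
  rw [h.full] at h1
  have hGF : G ⊆ F := hG.trans exc_sub
  have h2 : ∑ U ∈ F, (if U ∈ G then D2 U else D1 U).card + G.card ≤
      ∑ U ∈ F, gk N U (res C U) := by
    have h3 : G.card = ∑ U ∈ F, (if U ∈ G then 1 else 0) := by
      rw [← Finset.card_filter]
      congr 1
      ext U
      rw [Finset.mem_filter]
      exact ⟨fun hU => ⟨hGF hU, hU⟩, fun hU => hU.2⟩
    rw [h3, ← Finset.sum_add_distrib]
    apply Finset.sum_le_sum
    intro U hU
    by_cases hUG : U ∈ G
    · simp only [hUG, if_true]; exact (hD2 U hUG).2.2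
    · simp only [hUG, if_false]; rw [hD1c U]; omega
  omega

lemma Cut.delta (hs : ∀ x, x ∈ N x) (h : Cut N K A C Z F) :
    gk N A C ≤ ∑ U ∈ F, gk N U (res C U) := by
  have := gk_le_sum (K := K) hs h.comps h.sys Finset.sdiff_subset
  rwa [h.full] at this

/-- The accounting identity, as an inequality with slack. -/
lemma Cut.acc (hs : ∀ x, x ∈ N x) (hsym : ∀ x y, x ∈ N y → y ∈ N x) (h : Cut N K A C Z F) :
    (2 * K + 1) * ∑ U ∈ F, gk N U (res C U) +
      ((exc N K C F).filter (fun U => U.card = K)).card +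
      ∑ U ∈ F \ exc N K C F, (2 * U.card - (2 * K + 1) * gk N U (res C U)) =
      2 * ∑ U ∈ F, U.card + 2 * (exc N K C F).card := by
  classical
  have hK : ∀ U ∈ exc N K C F, 1 ≤ K := by
    intro U hU
    obtain ⟨hUF, hT⟩ := mem_exc.1 hU
    have := Finset.card_pos.2 (h.comps.conn U hUF).1
    rcases hT with ⟨h1, _⟩ | ⟨h1, _⟩
    · omega
    · omega
  have hsub : exc N K C F ⊆ F := exc_sub
  have h1 : ∑ U ∈ exc N K C F, ((2 * K + 1) * gk N U (res C U) + (if U.card = K then 1 else 0)) =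
      ∑ U ∈ exc N K C F, (2 * U.card + 2) := by
    apply Finset.sum_congr rfl
    intro U hU
    have hK1 := hK U hU
    rcases (mem_exc.1 hU).2 with ⟨h2, h3⟩ | ⟨h2, h3⟩
    · rw [h2, h3]; simp
    · rw [h2, h3]
      have : ¬ 2 * K = K := by omega
      simp only [this, if_false]; omega
  have h2 : ∑ U ∈ F \ exc N K C F, ((2 * K + 1) * gk N U (res C U) +
      (2 * U.card - (2 * K + 1) * gk N U (res C U))) = ∑ U ∈ F \ exc N K C F, 2 * U.card := by
    apply Finset.sum_congr rfl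
    intro U hU
    obtain ⟨hUF, hUn⟩ := Finset.mem_sdiff.1 hU
    rcases h.small U (h.ss hUF) (res C U) (Finset.filter_subset _ _) h.sys.res
      (h.comps.conn U hUF) with h3 | h3
    · omega
    · exact absurd (mem_exc.2 ⟨hUF, h3⟩) hUn
  rw [Finset.sum_add_distrib] at h1 h2
  rw [← Finset.card_filter, Finset.sum_add_distrib, Finset.sum_const, smul_eq_mul] at h1
  rw [← Finset.mul_sum] at h1 h2
  have h3 := Finset.sum_sdiff (f := fun U => gk N U (res C U)) hsub
  have h4 := Finset.sum_sdiff (f := fun U : Finset V => U.card) hsub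
  rw [← h3, ← h4]
  rw [← Finset.mul_sum] at h1 h2
  rw [Nat.mul_add, Nat.mul_add]
  omega

lemma Cut.adjZ (hsym : ∀ x y, x ∈ N y → y ∈ N x) (h : Cut N K A C Z F) {U : Finset V}
    (hU : U ∈ F) : ∃ z ∈ Z, ∃ x ∈ U, x ∈ N z :=
  h.comps.adj hsym h.conn h.sub h.ne hU

lemma Cut.cardA (h : Cut N K A C Z F) : A.card = Z.card + ∑ U ∈ F, U.card := by
  rw [← h.comps.card]
  have := Finset.card_sdiff_add_card_eq_card h.sub
  omega

/-- The full inequality of the accounting. -/
lemma Cut.main (hs : ∀ x, x ∈ N x) (hsym : ∀ x y, x ∈ N y → y ∈ N x) (h : Cut N K A C Z F) :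
    ∃ Δ ρ : ℕ, gk N A C + Δ = ∑ U ∈ F, gk N U (res C U) ∧
      (exc N K C F).card + ρ = Z.card + Δ ∧
      (2 * K + 1) * gk N A C + (2 * K + 1) * Δ + 2 * ρ +
        ((exc N K C F).filter (fun U => U.card = K)).card +
        ∑ U ∈ F \ exc N K C F, (2 * U.card - (2 * K + 1) * gk N U (res C U)) =
        2 * A.card + 2 * Δ := by
  have h1 := h.delta hs
  have h2 := h.hall hs hsym (Y := Z) h.sub (subset_rfl) (fun U hU =>
    h.adjZ hsym (exc_sub hU))
  have h3 := h.acc hs hsym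
  have h4 := h.cardA
  refine ⟨∑ U ∈ F, gk N U (res C U) - gk N A C,
    Z.card + (∑ U ∈ F, gk N U (res C U) - gk N A C) - (exc N K C F).card, by omega, by omega, ?_⟩
  obtain ⟨d, hd⟩ := Nat.exists_eq_add_of_le h1
  rw [hd] at h2 h3 ⊢
  rw [Nat.mul_add] at h3
  have h5 : gk N A C + d - gk N A C = d := by omega
  rw [h5]
  omega

end

end Pool.Agent.Star.Rig
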