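import Pool.Agent.Star.Rig2

/-!
# Star systems: rigidity of tight non-critical systems (R6)
-/

set_option autoImplicit false
set_option linter.unusedSectionVars false
set_option linter.unusedVariables false

namespace Pool.Agent.Star.Rig

open Finset

variable {V : Type*} [DecidableEq V]

section
variable {N : V → Finset V} {K : ℕ} {A Z : Finset V} {C F : Finset (Finset V)}

/-- A rigid system: hubs `Z` (connected), the components of `A \ Z` are exceptional and each is
attached to its own private hub. -/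
structure Rigid (N : V → Finset V) (K : ℕ) (A : Finset V) (C : Finset (Finset V))
    (Z : Finset V) (P : Finset (Finset V)) (z : Finset V → V) : Prop where
  sub : Z ⊆ A
  conn : Conn N Z
  comps : Comps N (A \ Z) P
  typ : ∀ U ∈ P, Typ N K U (res C U)
  mem : ∀ U ∈ P, z U ∈ Z
  inj : ∀ U ∈ P, ∀ U' ∈ P, z U = z U' → U = U'
  surj : ∀ y ∈ Z, ∃ U ∈ P, z U = y
  adj : ∀ U ∈ P, ∃ x ∈ U, x ∈ N (z U)
  only : ∀ U ∈ P, ∀ x ∈ U, ∀ y ∈ A, y ∉ U → y ∈ N x → y = z U
  sum : gk N A C = ∑ U ∈ P, gk N U (res C U)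

/-- The set `Z` is maximal. -/
def Maxi (N : V → Finset V) (A : Finset V) (C : Finset (Finset V)) (Z : Finset V) : Prop :=
  ∀ X : Finset V, Z ⊆ X → X ⊆ A → X ≠ Z → gk N A (res C (A \ X)) < gk N A C

/-- If the surplus vanishes, every hub sees exactly one exceptional component. -/
lemma Cut.match (hs : ∀ x, x ∈ N x) (hsym : ∀ x y, x ∈ N y → y ∈ N x) (h : Cut N K A C Z F)
    (hΔ : gk N A C = ∑ U ∈ F, gk N U (res C U)) (hP : (exc N K C F).card = Z.card) :
    ∃ z : Finset V → V, (∀ U ∈ exc N K C F, z U ∈ Z) ∧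
      (∀ U ∈ exc N K C F, ∀ U' ∈ exc N K C F, z U = z U' → U = U') ∧
      (∀ y ∈ Z, ∃ U ∈ exc N K C F, z U = y) ∧
      (∀ U ∈ exc N K C F, ∃ x ∈ U, x ∈ N (z U)) ∧
      (∀ U ∈ exc N K C F, ∀ x ∈ U, ∀ y ∈ A, y ∉ U → y ∈ N x → y = z U) := by
  classical
  have hone : ∀ y ∈ Z, ∀ U ∈ exc N K C F, ∀ U' ∈ exc N K C F, (∃ x ∈ U, x ∈ N y) →
      (∃ x ∈ U', x ∈ N y) → U = U' := by
    intro y hy U hU U' hU' h1 h2
    by_contra hne
    have h3 := h.hall hs hsym (Y := {y}) (G := {U, U'})
      (by rw [Finset.singleton_subset_iff]; exact h.sub hy)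
      (by
        intro W hW
        rw [Finset.mem_insert, Finset.mem_singleton] at hW
        rcases hW with rfl | rfl
        · exact hU
        · exact hU')
      (by
        intro W hW
        rw [Finset.mem_insert, Finset.mem_singleton] at hW
        rcases hW with rfl | rfl
        · exact ⟨y, Finset.mem_singleton_self _, h1⟩
        · exact ⟨y, Finset.mem_singleton_self _, h2⟩)
    rw [Finset.card_pair hne, Finset.card_singleton] at h3
    omega
  have hz : ∀ U : Finset V, ∃ y : V, U ∈ exc N K C F → y ∈ Z ∧ ∃ x ∈ U, x ∈ N y := by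
    intro U
    obtain ⟨w, hw⟩ := h.ne
    by_cases hU : U ∈ exc N K C F
    · obtain ⟨y, hy, h1⟩ := h.adjZ hsym (exc_sub hU)
      exact ⟨y, fun _ => ⟨hy, h1⟩⟩
    · exact ⟨w, fun h1 => absurd h1 hU⟩
  choose z hz using hz
  have hinj : ∀ U ∈ exc N K C F, ∀ U' ∈ exc N K C F, z U = z U' → U = U' := by
    intro U hU U' hU' heq
    exact hone (z U) (hz U hU).1 U hU U' hU' (hz U hU).2 (heq ▸ (hz U' hU').2)
  have himg : (exc N K C F).image z = Z := by
    apply Finset.eq_of_subset_of_card_le
    · intro y hy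
      obtain ⟨U, hU, rfl⟩ := Finset.mem_image.1 hy
      exact (hz U hU).1
    · rw [Finset.card_image_of_injOn (fun U hU U' hU' => hinj U hU U' hU'), hP]
  have hsurj : ∀ y ∈ Z, ∃ U ∈ exc N K C F, z U = y := by
    intro y hy
    rw [← himg] at hy
    exact Finset.mem_image.1 hy
  refine ⟨z, fun U hU => (hz U hU).1, hinj, hsurj, fun U hU => (hz U hU).2, ?_⟩
  intro U hU x hx y hy hyU hyx
  have hyZ : y ∈ Z := by
    by_contra hyZ
    exact hyU ((h.comps.cl U (exc_sub hU)).2 x hx y (Finset.mem_sdiff.2 ⟨hy, hyZ⟩) hyx)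
  obtain ⟨U', hU', rfl⟩ := hsurj y hyZ
  have : U' = U := hone (z U') hyZ U' hU' U hU (hz U' hU').2 ⟨x, hx, hsym _ _ hyx⟩
  rw [this]

/-- All components are exceptional. -/
lemma Cut.all_exc (hs : ∀ x, x ∈ N x) (hsym : ∀ x y, x ∈ N y → y ∈ N x) (h : Cut N K A C Z F)
    (hmax : Maxi N A C Z)
    (hΔ : gk N A C = ∑ U ∈ F, gk N U (res C U)) (hP : (exc N K C F).card = Z.card) :
    exc N K C F = F := by
  classical
  obtain ⟨z, hz1, hz2, hz3, hz4, hz5⟩ := h.match hs hsym hΔ hP
  by_contra hne
  obtain ⟨U1, hU1, hU1n⟩ : ∃ U ∈ F, U ∉ exc N K C F := by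
    by_contra hcon
    push Not at hcon
    exact hne (Finset.Subset.antisymm exc_sub hcon)
  -- the enlarged set
  set X := Z ∪ (A \ Z).filter (fun x => (∃ y ∈ Z, x ∈ N y) ∧ ∃ U ∈ F \ exc N K C F, x ∈ U) with hX
  have hZX : Z ⊆ X := Finset.subset_union_left
  have hXA : X ⊆ A := by
    refine Finset.union_subset h.sub ?_
    exact (Finset.filter_subset _ _).trans Finset.sdiff_subset
  have hXne : X ≠ Z := by
    obtain ⟨y, hy, x, hx, hxy⟩ := h.adjZ hsym hU1
    intro heq
    have h1 : x ∈ A \ Z := (h.comps.cl U1 hU1).1 hx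
    have h2 : x ∈ X := by
      rw [hX]
      exact Finset.mem_union_right _ (Finset.mem_filter.2 ⟨h1, ⟨y, hy, hxy⟩, U1,
        Finset.mem_sdiff.2 ⟨hU1, hU1n⟩, hx⟩)
    rw [heq] at h2
    exact (Finset.mem_sdiff.1 h1).2 h2
  have hlt := hmax X hZX hXA hXne
  obtain ⟨D, hD1, hD2, hD3⟩ := exists_gk (N := N) hs (A := A) (C := res C (A \ X))
    (fun S hSC => (mem_res.1 hSC).2.trans Finset.sdiff_subset)
    (fun S hSC => h.sys.nonempty (mem_res.1 hSC).1)
  -- stars of the components that avoid `X`
  have hopt := h.opt hs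
  choose D1 hD1s hD1k hD1c using hopt
  -- exceptional components: at least `gk` dominators in `U + z U`
  have hexc : ∀ U ∈ exc N K C F, gk N U (res C U) ≤ (D ∩ insert (z U) U).card := by
    intro U hU
    have hUF := exc_sub hU
    by_contra hcon
    push Not at hcon
    have h1 := gk_le_union (C' := res C (A \ Z)) (Y := D ∩ insert (z U) U) h.comps h.sys
      Finset.sdiff_subset (Finset.inter_subset_left.trans hD1) (Finset.filter_subset _ _)
      (fun W => if W = U then ∅ else D1 W)
      (fun W hW => by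
        by_cases hWU : W = U
        · simp [hWU]
        · simp only [hWU, if_false]; exact (hD1s W).trans (h.ss hW).1)
      (fun S hSC hSB => absurd (mem_res.1 hSC).2 hSB)
      (fun W hW S hSC hSW => by
        by_cases hWU : W = U
        · left
          subst hWU
          have hSX : S ∈ res C (A \ X) := by
            refine mem_res.2 ⟨(mem_res.1 hSC).1, fun x hx => ?_⟩
            have hxAZ : x ∈ A \ Z := (mem_res.1 hSC).2 hx
            refine Finset.mem_sdiff.2 ⟨(Finset.mem_sdiff.1 hxAZ).1, fun hxX => ?_⟩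
            rw [hX] at hxX
            rcases Finset.mem_union.1 hxX with h2 | h2
            · exact (Finset.mem_sdiff.1 hxAZ).2 h2
            · obtain ⟨_, _, W', hW', hxW'⟩ := Finset.mem_filter.1 h2
              have h3 := h.comps.eq_of_mem hUF (Finset.mem_sdiff.1 hW').1 (hSW hx) hxW'
              exact (Finset.mem_sdiff.1 hW').2 (h3 ▸ hU)
          obtain ⟨d, hd, x, hx, hxd⟩ := hD2 S hSX
          refine ⟨d, Finset.mem_inter.2 ⟨hd, ?_⟩, x, hx, hxd⟩
          by_cases hdW : d ∈ W
          · exact Finset.mem_insert_of_mem hdW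
          · have := hz5 W hU x (hSW hx) d (hD1 hd) hdW (hsym _ _ hxd)
            rw [this]; exact Finset.mem_insert_self _ _
        · right
          simp only [hWU, if_false]
          exact hD1k W S (mem_res.2 ⟨(mem_res.1 hSC).1, hSW⟩))
    rw [h.full] at h1
    have h2 : ∑ W ∈ F, (if W = U then ∅ else D1 W).card + gk N U (res C U) =
        ∑ W ∈ F, gk N W (res C W) := by
      rw [← Finset.add_sum_erase F _ hUF, ← Finset.add_sum_erase F (fun W => gk N W (res C W)) hUF]
      have h3 : ∑ W ∈ F.erase U, (if W = U then ∅ else D1 W).card =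
          ∑ W ∈ F.erase U, gk N W (res C W) := by
        apply Finset.sum_congr rfl
        intro W hW
        have : W ≠ U := (Finset.mem_erase.1 hW).1
        simp only [this, if_false]
        exact hD1c W
      rw [h3]
      simp
      omega
    omega
  -- the other components
  by_cases hoth : ∀ U ∈ F \ exc N K C F, gk N U (res C U) ≤ (D ∩ U).card
  · -- too many vertices in `D`
    have h1 : ∑ U ∈ F, gk N U (res C U) ≤
        ∑ U ∈ F, (D ∩ (if U ∈ exc N K C F then insert (z U) U else U)).card := by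
      apply Finset.sum_le_sum
      intro U hU
      by_cases hUP : U ∈ exc N K C F
      · simp only [hUP, if_true]; exact hexc U hUP
      · simp only [hUP, if_false]; exact hoth U (Finset.mem_sdiff.2 ⟨hU, hUP⟩)
    have h2 : ∑ U ∈ F, (D ∩ (if U ∈ exc N K C F then insert (z U) U else U)).card =
        (F.biUnion (fun U => D ∩ (if U ∈ exc N K C F then insert (z U) U else U))).card := by
      rw [Finset.card_biUnion]
      intro U hU U' hU' hne'
      have hdj := h.comps.disj U hU U' hU' hne'
      have hzU : ∀ W ∈ exc N K C F, ∀ W' ∈ F, z W ∉ W' := by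
        intro W hW W' hW' hc
        exact (Finset.mem_sdiff.1 ((h.comps.cl W' hW').1 hc)).2 (hz1 W hW)
      show Disjoint (D ∩ (if U ∈ exc N K C F then insert (z U) U else U))
        (D ∩ (if U' ∈ exc N K C F then insert (z U') U' else U'))
      rw [Finset.disjoint_left]
      intro x hx hx'
      have hx2 := (Finset.mem_inter.1 hx).2
      have hx3 := (Finset.mem_inter.1 hx').2
      by_cases hUP : U ∈ exc N K C F
      · simp only [hUP, if_true] at hx2
        by_cases hUP' : U' ∈ exc N K C F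
        · simp only [hUP', if_true] at hx3
          rcases Finset.mem_insert.1 hx2 with h4 | h4
          · rcases Finset.mem_insert.1 hx3 with h5 | h5
            · exact hne' (hz2 U hUP U' hUP' (h4.symm.trans h5))
            · exact hzU U hUP U' hU' (h4 ▸ h5)
          · rcases Finset.mem_insert.1 hx3 with h5 | h5
            · exact hzU U' hUP' U hU (h5 ▸ h4)
            · exact Finset.disjoint_left.1 hdj h4 h5
        · simp only [hUP', if_false] at hx3
          rcases Finset.mem_insert.1 hx2 with h4 | h4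
          · exact hzU U hUP U' hU' (h4 ▸ hx3)
          · exact Finset.disjoint_left.1 hdj h4 hx3
      · simp only [hUP, if_false] at hx2
        by_cases hUP' : U' ∈ exc N K C F
        · simp only [hUP', if_true] at hx3
          rcases Finset.mem_insert.1 hx3 with h5 | h5
          · exact hzU U' hUP' U hU (h5 ▸ hx2)
          · exact Finset.disjoint_left.1 hdj hx2 h5
        · simp only [hUP', if_false] at hx3
          exact Finset.disjoint_left.1 hdj hx2 hx3
    have h3 : (F.biUnion (fun U => D ∩ (if U ∈ exc N K C F then insert (z U) U else U))).card ≤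
        D.card := by
      apply Finset.card_le_card
      intro x hx
      obtain ⟨U, _, hx⟩ := Finset.mem_biUnion.1 hx
      exact (Finset.mem_inter.1 hx).1
    omega
  · -- a cheap component
    push Not at hoth
    obtain ⟨U0, hU0, hU0lt⟩ := hoth
    obtain ⟨hU0F, hU0n⟩ := Finset.mem_sdiff.1 hU0
    have hcr : ∀ U : Finset V, ∃ D' : Finset V, U ∈ exc N K C F → D' ⊆ U ∧
        (∀ S ∈ C, S ⊆ U → Hit N Z S ∨ Hit N D' S) ∧ D'.card + 1 ≤ gk N U (res C U) := by
      intro U
      by_cases hU : U ∈ exc N K C F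
      · obtain ⟨x, hx, hxz⟩ := hz4 U hU
        obtain ⟨D', h1, h2, h3⟩ := h.crit hs hsym hU hx
        refine ⟨D', fun _ => ⟨h1, ?_, h3⟩⟩
        intro S hSC hSU
        by_cases hxS : x ∈ S
        · exact Or.inl ⟨z U, hz1 U hU, x, hxS, hxz⟩
        · exact Or.inr (h2 S hSC hSU hxS)
      · exact ⟨∅, fun hc => absurd hc hU⟩
    choose D2 hD2' using hcr
    have h1 := gk_le_union (C' := C) (Y := Z) h.comps h.sys Finset.sdiff_subset h.sub subset_rfl
      (fun W => if W ∈ exc N K C F then D2 W else if W = U0 then D ∩ U0 else D1 W)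
      (fun W hW => by
        have hWA : W ⊆ A := (h.ss hW).1
        by_cases hWP : W ∈ exc N K C F
        · simp only [hWP, if_true]; exact (hD2' W hWP).1.trans hWA
        · by_cases hW0 : W = U0
          · simp only [hW0, hU0n, if_false, if_true]
            exact Finset.inter_subset_left.trans hD1
          · simp only [hWP, hW0, if_false]; exact (hD1s W).trans hWA)
      (fun S hSC hSB => by
        rw [Finset.not_subset] at hSB
        obtain ⟨x, hx, hxB⟩ := hSB
        have hxZ : x ∈ Z := by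
          by_contra hxZ
          exact hxB (Finset.mem_sdiff.2 ⟨h.sys.sub S hSC hx, hxZ⟩)
        exact ⟨x, hxZ, x, hx, hs x⟩)
      (fun W hW S hSC hSW => by
        by_cases hWP : W ∈ exc N K C F
        · simp only [hWP, if_true]; exact (hD2' W hWP).2.1 S hSC hSW
        · by_cases hW0 : W = U0
          · subst hW0
            simp only [hWP, if_false, if_true]
            by_cases hSZ : Hit N Z S
            · exact Or.inl hSZ
            · right
              have hSX : S ∈ res C (A \ X) := by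
                refine mem_res.2 ⟨hSC, fun x hx => ?_⟩
                have hxAZ : x ∈ A \ Z := (h.comps.cl W hW).1 (hSW hx)
                refine Finset.mem_sdiff.2 ⟨(Finset.mem_sdiff.1 hxAZ).1, fun hxX => ?_⟩
                rw [hX] at hxX
                rcases Finset.mem_union.1 hxX with h2 | h2
                · exact (Finset.mem_sdiff.1 hxAZ).2 h2
                · obtain ⟨_, ⟨y, hy, hxy⟩, _⟩ := Finset.mem_filter.1 h2
                  exact hSZ ⟨y, hy, x, hx, hxy⟩
              obtain ⟨d, hd, x, hx, hxd⟩ := hD2 S hSX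
              refine ⟨d, Finset.mem_inter.2 ⟨hd, ?_⟩, x, hx, hxd⟩
              by_contra hdW
              by_cases hdZ : d ∈ Z
              · exact hSZ ⟨d, hdZ, x, hx, hxd⟩
              · exact hdW ((h.comps.cl W hW).2 x (hSW hx) d
                  (Finset.mem_sdiff.2 ⟨hD1 hd, hdZ⟩) (hsym _ _ hxd))
          · simp only [hWP, hW0, if_false]
            exact Or.inr (hD1k W S (mem_res.2 ⟨hSC, hSW⟩)))
    have h2 : ∑ W ∈ F, (if W ∈ exc N K C F then D2 W else if W = U0 then D ∩ U0 else D1 W).card +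
        (exc N K C F).card + 1 ≤ ∑ W ∈ F, gk N W (res C W) := by
      have h3 : (exc N K C F).card = ∑ W ∈ F, (if W ∈ exc N K C F then 1 else 0) := by
        rw [← Finset.card_filter]
        congr 1
        ext W
        rw [Finset.mem_filter]
        exact ⟨fun hW => ⟨exc_sub hW, hW⟩, fun hW => hW.2⟩
      have h4 : 1 = ∑ W ∈ F, (if W = U0 then 1 else 0) := by
        rw [← Finset.card_filter, Finset.filter_eq' F U0]
        simp [hU0F]
      have h5 : ∑ W ∈ F, (if W ∈ exc N K C F then D2 W else if W = U0 then D ∩ U0 else D1 W).card +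
          ∑ W ∈ F, (if W ∈ exc N K C F then 1 else 0) + ∑ W ∈ F, (if W = U0 then 1 else 0) ≤
          ∑ W ∈ F, gk N W (res C W) := by
        rw [← Finset.sum_add_distrib, ← Finset.sum_add_distrib]
        apply Finset.sum_le_sum
        intro W hW
        by_cases hWP : W ∈ exc N K C F
        · have hW0 : W ≠ U0 := fun hc => hU0n (hc ▸ hWP)
          simp only [hWP, hW0, if_true, if_false]
          have := (hD2' W hWP).2.2
          omega
        · by_cases hW0 : W = U0
          · subst hW0
            simp only [hWP, if_true, if_false]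
            omega
          · simp only [hWP, hW0, if_false]
            rw [hD1c W]; omega
      rw [← h3, ← h4] at h5
      exact h5
    omega

/-- NON-CRITICAL SYSTEMS: the bound. -/
theorem nonpos (hs : ∀ x, x ∈ N x) (hsym : ∀ x y, x ∈ N y → y ∈ N x) (hK : 1 ≤ K)
    (hS : Sys N K A C) (hA : Conn N A)
    (hE : ∀ A' ⊂ A, ∀ C' ⊆ C, Sys N K A' C' → Conn N A' → Bd N K A' C')
    {x : V} (hx : x ∈ A) (hxx : gk N A (res C (A.erase x)) = gk N A C) :
    (2 * K + 1) * gk N A C ≤ 2 * A.card := by
  obtain ⟨F, hF⟩ := exists_comps (N := N) hsym (A \ {x})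
  have h : Cut N K A C {x} F := by
    refine ⟨hS, hA, hE, by rwa [Finset.singleton_subset_iff], Finset.singleton_nonempty x, ?_, hF⟩
    rw [Finset.sdiff_singleton_eq_erase]; exact hxx
  obtain ⟨Δ, ρ, h1, h2, h3⟩ := h.main hs hsym
  have h4 : 2 * Δ ≤ (2 * K + 1) * Δ := Nat.mul_le_mul_right _ (by omega)
  omega

/-- LEMMA R (rigidity): a non-critical connected system with `(2K+1) f ≥ 2n - 1` is rigid, and all
its blocks have `2K` vertices, except exactly one when `(2K+1) f = 2n - 1`. -/
theorem rigid (hs : ∀ x, x ∈ N x) (hsym : ∀ x y, x ∈ N y → y ∈ N x) (hK : 2 ≤ K)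
    (hS : Sys N K A C) (hA : Conn N A)
    (hE : ∀ A' ⊂ A, ∀ C' ⊆ C, Sys N K A' C' → Conn N A' → Bd N K A' C')
    {x : V} (hx : x ∈ A) (hxx : gk N A (res C (A.erase x)) = gk N A C)
    (he : 2 * A.card ≤ (2 * K + 1) * gk N A C + 1) :
    ∃ (Z : Finset V) (P : Finset (Finset V)) (z : Finset V → V), Rigid N K A C Z P z ∧ x ∈ Z ∧
      (2 * K + 1) * gk N A C + (P.filter (fun U => U.card = K)).card = 2 * A.card := by
  classical
  -- a maximal set
  obtain ⟨Z, hZmem, hZmax⟩ := Finset.exists_max_image
    (A.powerset.filter (fun Z => x ∈ Z ∧ gk N A (res C (A \ Z)) = gk N A C)) Finset.card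
    ⟨{x}, by
      rw [Finset.mem_filter, Finset.mem_powerset, Finset.singleton_subset_iff]
      refine ⟨hx, Finset.mem_singleton_self x, ?_⟩
      rw [Finset.sdiff_singleton_eq_erase]; exact hxx⟩
  rw [Finset.mem_filter, Finset.mem_powerset] at hZmem
  obtain ⟨hZA, hxZ, hZf⟩ := hZmem
  have hmax : Maxi N A C Z := by
    intro X hZX hXA hne
    have h1 : gk N A (res C (A \ X)) ≤ gk N A C :=
      gk_mono hs hS.sub (fun S hSC => hS.nonempty hSC) (Finset.filter_subset _ _)
    rcases lt_or_eq_of_le h1 with h2 | h2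
    · exact h2
    · exfalso
      have h3 := hZmax X (by
        rw [Finset.mem_filter, Finset.mem_powerset]
        exact ⟨hXA, hZX hxZ, h2⟩)
      have h4 := Finset.card_lt_card (Finset.ssubset_iff_subset_ne.2 ⟨hZX, fun h => hne h.symm⟩)
      omega
  obtain ⟨F, hF⟩ := exists_comps (N := N) hsym (A \ Z)
  have h : Cut N K A C Z F := ⟨hS, hA, hE, hZA, ⟨x, hxZ⟩, hZf, hF⟩
  obtain ⟨Δ, ρ, h1, h2, h3⟩ := h.main hs hsym
  have h4 : 5 * Δ ≤ (2 * K + 1) * Δ := Nat.mul_le_mul_right _ (by omega)
  have hΔ : Δ = 0 := by omega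
  subst hΔ
  have hρ : ρ = 0 := by omega
  subst hρ
  have hsum : gk N A C = ∑ U ∈ F, gk N U (res C U) := by omega
  have hP : (exc N K C F).card = Z.card := by omega
  have hall := h.all_exc hs hsym hmax hsum hP
  obtain ⟨z, hz1, hz2, hz3, hz4, hz5⟩ := h.match hs hsym hsum hP
  rw [hall] at hz1 hz2 hz3 hz4 hz5 h3
  refine ⟨Z, F, z, ⟨hZA, ⟨⟨x, hxZ⟩, ?_⟩, hF, fun U hU => (mem_exc.1 (hall.symm ▸ hU)).2, hz1, hz2,
    hz3, hz4, hz5, hsum⟩, hxZ, ?_⟩
  · -- the hubs are connected
    intro B hBZ hBne hBZne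
    set B' := B ∪ (F.filter (fun U => z U ∈ B)).biUnion id with hB'
    have hB'A : B' ⊆ A := by
      refine Finset.union_subset (hBZ.trans hZA) ?_
      intro y hy
      obtain ⟨U, hU, hyU⟩ := Finset.mem_biUnion.1 hy
      exact (h.ss (Finset.mem_filter.1 hU).1).1 hyU
    have hB'ne : B' ≠ A := by
      intro heq
      apply hBZne
      apply Finset.Subset.antisymm hBZ
      intro y hy
      have hyB' : y ∈ B' := heq ▸ hZA hy
      rw [hB'] at hyB'
      rcases Finset.mem_union.1 hyB' with h5 | h5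
      · exact h5
      · exfalso
        obtain ⟨U, hU, hyU⟩ := Finset.mem_biUnion.1 h5
        exact (Finset.mem_sdiff.1 ((hF.cl U (Finset.mem_filter.1 hU).1).1 hyU)).2 hy
    obtain ⟨a, ha, y, hy, hyB, hya⟩ := hA.2 B' hB'A (hBne.mono Finset.subset_union_left) hB'ne
    have hyB1 : y ∉ B := fun hc => hyB (Finset.mem_union_left _ hc)
    rcases Finset.mem_union.1 ha with h5 | h5
    · by_cases hyZ : y ∈ Z
      · exact ⟨a, h5, y, hyZ, hyB1, hya⟩
      · exfalso
        obtain ⟨U, hU, hyU⟩ := hF.cover y (Finset.mem_sdiff.2 ⟨hy, hyZ⟩)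
        have haU : a ∉ U := fun hc =>
          (Finset.mem_sdiff.1 ((hF.cl U hU).1 hc)).2 (hBZ h5)
        have h6 := hz5 U hU y hyU a (hZA (hBZ h5)) haU (hsym _ _ hya)
        exact hyB (Finset.mem_union_right _ (Finset.mem_biUnion.2 ⟨U,
          Finset.mem_filter.2 ⟨hU, h6 ▸ h5⟩, hyU⟩))
    · exfalso
      obtain ⟨U, hU, haU⟩ := Finset.mem_biUnion.1 h5
      obtain ⟨hUF, hzB⟩ := Finset.mem_filter.1 hU
      have hyU : y ∉ U := fun hc =>
        hyB (Finset.mem_union_right _ (Finset.mem_biUnion.2 ⟨U, hU, hc⟩))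
      have h6 := hz5 U hUF a haU y hy hyU hya
      exact hyB1 (h6 ▸ hzB)
  · simp only [Finset.sdiff_self, Finset.sum_empty] at h3
    omega

end

end Pool.Agent.Star.Rig
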