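import Pool.Agent.Star.Flower

/-!
# `K_{1,k}`-isolation of connected graphs: a bound strictly better than `n/(k+1)`

Except on `k+1` and on `2k+2` vertices, every connected graph on `n` vertices has
`ι(G, K_{1,k}) ≤ n / (k + 1 + 1/(3(2k+3)^2))`.
-/

set_option autoImplicit false

namespace Pool.Agent.Star.StrictBound

open Pool.Agent.Star Finset

/-- `S` is `{K_{1,k}}`-isolating in `G`: in `G - N[S]` every vertex has fewer than `k`
neighbours. -/
def Isolating (k : ℕ) {n : ℕ} (G : SimpleGraph (Fin n)) (S : Finset (Fin n)) : Prop :=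
  ∀ v : Fin n, (v ∉ S ∧ ∀ s ∈ S, ¬ G.Adj s v) →
    {w : Fin n | G.Adj v w ∧ w ∉ S ∧ ∀ s ∈ S, ¬ G.Adj s w}.ncard < k

/-- The isolation number `ι(G, K_{1,k})`. -/
noncomputable def iota (k : ℕ) {n : ℕ} (G : SimpleGraph (Fin n)) : ℕ :=
  sInf {m | ∃ S : Finset (Fin n), Isolating k G S ∧ S.card = m}

/-- `α` is a threshold for `{K_{1,k}}`. -/
def IsThreshold (k : ℕ) (α : ℝ) : Prop :=
  0 < α ∧
  {p : Σ n : ℕ, SimpleGraph (Fin n) | p.2.Connected ∧ ⌊α * p.1⌋₊ < iota k p.2}.Finite ∧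
  {p : Σ n : ℕ, SimpleGraph (Fin n) | p.2.Connected ∧ iota k p.2 = ⌊α * p.1⌋₊}.Infinite

open Classical in
/-- Closed neighbourhoods. -/
noncomputable def nb {n : ℕ} (G : SimpleGraph (Fin n)) (x : Fin n) : Finset (Fin n) :=
  Finset.univ.filter (fun y => y = x ∨ G.Adj x y)

lemma mem_nb {n : ℕ} {G : SimpleGraph (Fin n)} {x y : Fin n} :
    y ∈ nb G x ↔ y = x ∨ G.Adj x y := by
  simp [nb]

lemma isolating_of_iso {k n : ℕ} {G : SimpleGraph (Fin n)} {S : Finset (Fin n)}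
    (h : Iso (nb G) (k + 1) Finset.univ S) : Isolating k G S := by
  classical
  intro v hv
  have hr : ∀ w, w ∈ rem (nb G) Finset.univ S ↔ (w ∉ S ∧ ∀ s ∈ S, ¬ G.Adj s w) := by
    intro w
    rw [mem_rem]
    constructor
    · rintro ⟨-, h2⟩
      refine ⟨fun hw => h2 w hw (mem_nb.2 (Or.inl rfl)), fun s hs hadj => ?_⟩
      exact h2 s hs (mem_nb.2 (Or.inr hadj))
    · rintro ⟨h1, h2⟩
      refine ⟨Finset.mem_univ _, fun d hd hw => ?_⟩
      rcases mem_nb.1 hw with h3 | h3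
      · exact h1 (h3 ▸ hd)
      · exact h2 d hd h3
  have hv' := (hr v).2 hv
  have hc := h.2 v hv'
  have hset : {w : Fin n | G.Adj v w ∧ w ∉ S ∧ ∀ s ∈ S, ¬ G.Adj s w} =
      ((nb G v ∩ rem (nb G) Finset.univ S).erase v : Finset (Fin n)) := by
    ext w
    simp only [Set.mem_ofPred_eq, Finset.coe_erase, Finset.coe_inter, Set.mem_sdiff, Set.mem_inter_iff,
      Finset.mem_coe, Set.mem_singleton_iff]
    rw [hr, mem_nb]
    constructor
    · rintro ⟨h1, h2⟩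
      exact ⟨⟨Or.inr h1, h2⟩, fun hh => G.irrefl (hh ▸ h1)⟩
    · rintro ⟨⟨h1, h2⟩, h3⟩
      exact ⟨h1.resolve_left h3, h2⟩
  have hmem : v ∈ nb G v ∩ rem (nb G) Finset.univ S :=
    Finset.mem_inter.2 ⟨mem_nb.2 (Or.inl rfl), hv'⟩
  have hpos := Finset.card_pos.2 ⟨v, hmem⟩
  rw [hset, Set.ncard_coe_finset, Finset.card_erase_of_mem hmem]
  omega

lemma conn_univ {n : ℕ} {G : SimpleGraph (Fin n)} (h : G.Connected) :
    Conn (nb G) Finset.univ := by
  have := h.nonempty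
  refine ⟨Finset.univ_nonempty, ?_⟩
  intro B _ hne hneq
  obtain ⟨b, hb⟩ := hne
  obtain ⟨c, hc⟩ : ∃ c, c ∉ B := by
    by_contra hcon
    push Not at hcon
    exact hneq (Finset.eq_univ_iff_forall.2 hcon)
  obtain ⟨p⟩ := h.preconnected b c
  obtain ⟨d, -, h1, h2⟩ := p.exists_boundary_dart (B : Set (Fin n)) hb hc
  exact ⟨d.fst, h1, d.snd, Finset.mem_univ _, h2, mem_nb.2 (Or.inr d.adj)⟩

lemma bound (k n : ℕ) (G : SimpleGraph (Fin n)) (hG : G.Connected) (h1 : n ≠ k + 1)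
    (h2 : n ≠ 2 * k + 2) :
    ((k + 1) * (3 * (2 * k + 3) ^ 2) + 1) * iota k G ≤ 3 * (2 * k + 3) ^ 2 * n := by
  have hs : ∀ x, x ∈ nb G x := fun x => mem_nb.2 (Or.inl rfl)
  have hsym : ∀ x y, x ∈ nb G y → y ∈ nb G x := by
    intro x y hxy
    rcases mem_nb.1 hxy with h | h
    · exact mem_nb.2 (Or.inl h.symm)
    · exact mem_nb.2 (Or.inr h.symm)
  have hM : (2 * (k + 1) + 1) * (6 * (k + 1) + 3) ≤ 3 * (2 * k + 3) ^ 2 := by
    apply le_of_eq; ring
  have hcard : (Finset.univ : Finset (Fin n)).card = n := by simp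
  have hgb := good_or_bad (K := k + 1) hs hsym (by omega) hM n Finset.univ (by rw [hcard])
    (conn_univ hG)
  have hgood : Good (nb G) (k + 1) (3 * (2 * k + 3) ^ 2) Finset.univ := by
    rcases hgb with h | ⟨hc, h | h⟩
    · exact h
    · rw [hcard, h] at hc; omega
    · rw [hcard, h] at hc; omega
  unfold Good at hgood
  rw [hcard] at hgood
  obtain ⟨S, hS, hSc⟩ := exists_iso (K := k + 1) hs (Finset.univ : Finset (Fin n))
  have hle : iota k G ≤ f (nb G) (k + 1) Finset.univ := by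
    rw [← hSc]
    exact Nat.sInf_le ⟨S, isolating_of_iso hS, rfl⟩
  exact (Nat.mul_le_mul_left _ hle).trans hgood

theorem result (k : ℕ) :
    (∀ (n : ℕ) (G : SimpleGraph (Fin n)), G.Connected → n ≠ k + 1 → n ≠ 2 * k + 2 →
      (iota k G : ℝ) * (k + 1 + 1 / (3 * (2 * k + 3) ^ 2)) ≤ n) ∧
    ∀ α : ℝ, IsThreshold k α → α * (k + 1 + 1 / (3 * (2 * k + 3) ^ 2)) ≤ 1 := by
  have key : ∀ (n : ℕ) (G : SimpleGraph (Fin n)), G.Connected → n ≠ k + 1 → n ≠ 2 * k + 2 →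
      (iota k G : ℝ) * (k + 1 + 1 / (3 * (2 * k + 3) ^ 2)) ≤ n := by
    intro n G hG h1 h2
    have h := bound k n G hG h1 h2
    have h' : (((k + 1) * (3 * (2 * k + 3) ^ 2) + 1 : ℕ) : ℝ) * (iota k G : ℝ) ≤
        ((3 * (2 * k + 3) ^ 2 : ℕ) : ℝ) * n := by exact_mod_cast h
    push_cast at h'
    have hpos : (0 : ℝ) < 3 * (2 * k + 3) ^ 2 := by positivity
    have e : (iota k G : ℝ) * (k + 1 + 1 / (3 * (2 * k + 3) ^ 2)) =
        (((k : ℝ) + 1) * (3 * (2 * k + 3) ^ 2) + 1) * (iota k G : ℝ) / (3 * (2 * k + 3) ^ 2) := by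
      field_simp
    rw [e, div_le_iff₀ hpos]
    linarith
  refine ⟨key, ?_⟩
  rintro α ⟨hα, -, hinf⟩
  set c : ℝ := k + 1 + 1 / (3 * (2 * k + 3) ^ 2) with hc
  have hcpos : 0 < c := by positivity
  by_contra hcon
  push Not at hcon
  -- arbitrarily large n in the infinite set
  have hlarge : ∀ B : ℕ, ∃ p : Σ n : ℕ, SimpleGraph (Fin n), B ≤ p.1 ∧ p.2.Connected ∧
      iota k p.2 = ⌊α * p.1⌋₊ := by
    intro B
    by_contra hno
    push Not at hno
    apply hinf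
    have hfin : (Set.range (fun q : Σ m : Fin B, SimpleGraph (Fin m) =>
        (⟨q.1, q.2⟩ : Σ n : ℕ, SimpleGraph (Fin n)))).Finite := Set.finite_range _
    refine hfin.subset ?_
    rintro ⟨n, G⟩ ⟨h1, h2⟩
    have hn : n < B := by
      by_contra hge
      exact hno ⟨n, G⟩ (not_lt.1 hge) h1 h2
    exact ⟨⟨⟨n, hn⟩, G⟩, rfl⟩
  obtain ⟨B, hB⟩ := exists_nat_gt (c / (α * c - 1))
  obtain ⟨⟨n, G⟩, hn, hG, hi⟩ := hlarge (max B (2 * k + 3))
  have hnB : B ≤ n := (le_max_left _ _).trans hn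
  have hnk : 2 * k + 3 ≤ n := (le_max_right _ _).trans hn
  have h1 := key n G hG (by omega) (by omega)
  simp only at hi
  rw [hi] at h1
  have h2 : α * n < ⌊α * n⌋₊ + 1 := Nat.lt_floor_add_one _
  have hd : 0 < α * c - 1 := by linarith
  have h3 : (c / (α * c - 1)) < n := hB.trans_le (by exact_mod_cast hnB)
  rw [div_lt_iff₀ hd] at h3
  have h4 : α * n * c < (⌊α * n⌋₊ + 1) * c := by
    exact mul_lt_mul_of_pos_right h2 hcpos
  nlinarith

end Pool.Agent.Star.StrictBound
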