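import Pool.Agent.Star.T3a
import Pool.Agent.Star.Merge

/-!
# Star systems with `K = 3`: blocks are hexagons; a block has no two gates (E for K = 3, part 2)
-/

set_option autoImplicit false
set_option linter.unusedSectionVars false
set_option linter.unusedVariables false

namespace Pool.Agent.Star.Rig

open Finset

variable {V : Type*} [DecidableEq V]

section
variable {N : V → Finset V} {A U L : Finset V} {C J : Finset (Finset V)}

/-- In a block with `K = 3` all closed neighbourhoods have three elements. -/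
lemma Blk.nb3 (b : Blk N 3 U J)
    (hE : ∀ A' ⊂ U, ∀ C' ⊆ J, Sys N 3 A' C' → Conn N A' → Bd N 3 A' C') {v : V} (hv : v ∈ U) :
    (N v ∩ U).card = 3 := by
  have hle : (N v ∩ U).card ≤ 3 := by
    obtain ⟨T, hT, hTc⟩ := b.cover hv
    rw [← b.sys.card T hT]
    exact Finset.card_le_card (fun x hx => hTc x (Finset.mem_inter.1 hx).2 (Finset.mem_inter.1 hx).1)
  by_contra hne
  have hlt : (N v ∩ U).card ≤ 2 := by omega
  obtain ⟨S, hS, hvS⟩ := typ_full b.refl b.symm b.sys hE (Or.inr ⟨b.card, b.two⟩) hv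
  -- a star set centred at `v` is too large
  have hcv : ∀ T ∈ J, ∀ c ∈ T, T ⊆ N c → c ≠ v := by
    rintro T hT c hc hcN rfl
    have h1 : T ⊆ N c ∩ U := fun x hx => Finset.mem_inter.2 ⟨hcN hx, b.sys.sub T hT hx⟩
    have h2 := Finset.card_le_card h1
    rw [b.sys.card T hT] at h2
    omega
  obtain ⟨c, hc, hcN⟩ := b.sys.cen S hS
  have hcne := hcv S hS c hc hcN
  have hcU := b.sys.sub S hS hc
  have hvc : c ∈ N v := b.symm _ _ (hcN hvS)
  have hNv : N v ∩ U = {v, c} := by
    symm
    apply Finset.eq_of_subset_of_card_le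
    · intro x hx
      rcases Finset.mem_insert.1 hx with rfl | hx
      · exact Finset.mem_inter.2 ⟨b.refl x, hv⟩
      · rw [Finset.mem_singleton.1 hx]
        exact Finset.mem_inter.2 ⟨hvc, hcU⟩
    · rw [Finset.card_pair (Ne.symm hcne)]
      exact hlt
  have huni : ∀ T ∈ J, v ∈ T → T = S := by
    intro T hT hvT
    obtain ⟨c', hc', hc'N⟩ := b.sys.cen T hT
    have h1 : c' ∈ N v ∩ U := Finset.mem_inter.2 ⟨b.symm _ _ (hc'N hvT), b.sys.sub T hT hc'⟩
    rw [hNv] at h1
    rcases Finset.mem_insert.1 h1 with h1 | h1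
    · exact absurd h1 (hcv T hT c' hc' hc'N)
    · rw [Finset.mem_singleton] at h1
      subst h1
      have h2 : T ⊆ S := fun x hx =>
        (b.cen_eq hS hc hcN (b.sys.sub T hT hx)).1 (hc'N hx)
      exact Finset.eq_of_subset_of_card_le h2 (by rw [b.sys.card T hT, b.sys.card S hS])
  -- the third vertex
  obtain ⟨w, hwS, hwc, hwv⟩ : ∃ w ∈ S, w ≠ c ∧ w ≠ v := by
    by_contra hcon
    push Not at hcon
    have h1 : S ⊆ {c, v} := by
      intro x hx
      by_cases hxc : x = c
      · simp [hxc]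
      · simp [hcon x hx hxc]
    have h2 := Finset.card_le_card h1
    rw [b.sys.card S hS, Finset.card_pair hcne] at h2
    omega
  have hwU := b.sys.sub S hS hwS
  obtain ⟨T, hT, hTw⟩ := b.miss hwU
  have hcw : c ∈ N w := b.symm _ _ (hcN hwS)
  have hTS : T ≠ S := by
    rintro rfl
    exact hTw c hc hcw
  have hvT : v ∉ T := fun hh => hTS (huni T hT hh)
  have hSle : ∀ x ∈ S, x = c ∨ x = v ∨ x = w := by
    intro x hx
    by_contra hcon
    push Not at hcon
    have h1 : ({x, c, v, w} : Finset V) ⊆ S := by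
      intro y hy
      simp only [Finset.mem_insert, Finset.mem_singleton] at hy
      rcases hy with rfl | rfl | rfl | rfl
      · exact hx
      · exact hc
      · exact hvS
      · exact hwS
    have h2 := Finset.card_le_card h1
    rw [b.sys.card S hS, Finset.card_insert_of_notMem, Finset.card_insert_of_notMem,
      Finset.card_pair (Ne.symm hwv)] at h2
    · omega
    · simp only [Finset.mem_insert, Finset.mem_singleton, not_or]
      exact ⟨hcne, Ne.symm hwc⟩
    · simp only [Finset.mem_insert, Finset.mem_singleton, not_or]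
      exact hcon
  have hTsub : T ⊆ U \ S := by
    intro x hx
    refine Finset.mem_sdiff.2 ⟨b.sys.sub T hT hx, fun hxS => ?_⟩
    rcases hSle x hxS with rfl | rfl | rfl
    · exact hTw x hx hcw
    · exact hvT hx
    · exact hTw x hx (b.refl x)
  have hUS : (U \ S).card + S.card = U.card :=
    Finset.card_sdiff_add_card_eq_card (b.sys.sub S hS)
  have hTeq : T = U \ S := Finset.eq_of_subset_of_card_le hTsub (by
    rw [b.sys.card T hT]
    rw [b.sys.card S hS, b.card] at hUS
    omega)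
  obtain ⟨x, hx, y, hy, hyx⟩ := b.edge hS
  have hyU := (Finset.mem_sdiff.1 hy).1
  have hyS := (Finset.mem_sdiff.1 hy).2
  rcases hSle x hx with rfl | rfl | rfl
  · exact hyS ((b.cen_eq hS hc hcN hyU).1 hyx)
  · have h1 : y ∈ N x ∩ U := Finset.mem_inter.2 ⟨hyx, hyU⟩
    rw [hNv] at h1
    rcases Finset.mem_insert.1 h1 with rfl | h1
    · exact hyS hvS
    · rw [Finset.mem_singleton] at h1
      rw [h1] at hyS
      exact hyS hc
  · rw [← hTeq] at hy
    exact hTw y hy hyx

/-- Two different vertices kill a block with `K = 3`. -/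
lemma Blk.pair (b : Blk N 3 U J)
    (hE : ∀ A' ⊂ U, ∀ C' ⊆ J, Sys N 3 A' C' → Conn N A' → Bd N 3 A' C') {i i' : V}
    (hi : i ∈ U) (hi' : i' ∈ U) (hne : i ≠ i') : ∀ S ∈ J, Hit N {i, i'} S := by
  intro S hS
  by_contra hn
  have hmi : ∀ x ∈ S, x ∉ N i := fun x hx hxi => hn ⟨i, by simp, x, hx, hxi⟩
  have hmi' : ∀ x ∈ S, x ∉ N i' := fun x hx hxi => hn ⟨i', by simp, x, hx, hxi⟩
  have hT := b.compl_mem hS
  have hTc : (U \ S).card = 3 := b.sys.card _ hT
  have hN : ∀ k ∈ U, (∀ x ∈ S, x ∉ N k) → N k ∩ U = U \ S := by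
    intro k hk hm
    apply Finset.eq_of_subset_of_card_le
    · intro x hx
      have hx' := Finset.mem_inter.1 hx
      exact Finset.mem_sdiff.2 ⟨hx'.2, fun hxS => hm x hxS hx'.1⟩
    · rw [hTc, b.nb3 hE hk]
  have h1 := hN i hi hmi
  have h2 := hN i' hi' hmi'
  obtain ⟨w, hw, y, hy, hyw⟩ := b.edge hT
  have hyU := (Finset.mem_sdiff.1 hy).1
  have hwi : w ∈ N i := by
    rw [← h1] at hw
    exact (Finset.mem_inter.1 hw).1
  have hwi' : w ∈ N i' := by
    rw [← h2] at hw
    exact (Finset.mem_inter.1 hw).1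
  have hwU := (Finset.mem_sdiff.1 hw).1
  have hyT : y ∉ U \ S := (Finset.mem_sdiff.1 hy).2
  have hwne : w ≠ i := by
    rintro rfl
    exact hyT (by rw [← h1]; exact Finset.mem_inter.2 ⟨hyw, hyU⟩)
  have hwne' : w ≠ i' := by
    rintro rfl
    exact hyT (by rw [← h2]; exact Finset.mem_inter.2 ⟨hyw, hyU⟩)
  have hiT : i ∈ U \ S := by rw [← h1]; exact Finset.mem_inter.2 ⟨b.refl i, hi⟩
  have hiT' : i' ∈ U \ S := by rw [← h2]; exact Finset.mem_inter.2 ⟨b.refl i', hi'⟩
  have hsub : ({i, i', w} : Finset V) ⊆ N w ∩ U := by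
    intro x hx
    simp only [Finset.mem_insert, Finset.mem_singleton] at hx
    rcases hx with rfl | rfl | rfl
    · exact Finset.mem_inter.2 ⟨b.symm _ _ hwi, hi⟩
    · exact Finset.mem_inter.2 ⟨b.symm _ _ hwi', hi'⟩
    · exact Finset.mem_inter.2 ⟨b.refl x, hwU⟩
  have hc3 : ({i, i', w} : Finset V).card = 3 := by
    rw [Finset.card_insert_of_notMem, Finset.card_pair (Ne.symm hwne')]
    simp only [Finset.mem_insert, Finset.mem_singleton, not_or]
    exact ⟨hne, Ne.symm hwne⟩
  have heq : ({i, i', w} : Finset V) = N w ∩ U :=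
    Finset.eq_of_subset_of_card_le hsub (by rw [hc3, b.nb3 hE hwU])
  have hy' : y ∈ ({i, i', w} : Finset V) := by
    rw [heq]
    exact Finset.mem_inter.2 ⟨hyw, hyU⟩
  simp only [Finset.mem_insert, Finset.mem_singleton] at hy'
  rcases hy' with rfl | rfl | rfl
  · exact hyT hiT
  · exact hyT hiT'
  · exact hyT hw

/-- A star set meeting `L` and its complement contains an edge between them. -/
lemma cross_pair (hsym : ∀ x y, x ∈ N y → y ∈ N x) {K : ℕ} (hS : Sys N K A C) {S : Finset V}
    (hSC : S ∈ C) {x y : V} (hx : x ∈ S) (hxL : x ∈ L) (hy : y ∈ S) (hyL : y ∉ L) :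
    ∃ l ∈ S, l ∈ L ∧ ∃ g ∈ S, g ∉ L ∧ g ∈ N l := by
  obtain ⟨c, hc, hcN⟩ := hS.cen S hSC
  by_cases hcL : c ∈ L
  · exact ⟨c, hc, hcL, y, hy, hyL, hcN hy⟩
  · exact ⟨x, hx, hxL, c, hc, hcL, hsym _ _ (hcN hx)⟩

/-- TWO GATES: in a minimal violator with `K = 3` no block with connected complement has exactly
two gates. -/
theorem Viol.two_gates (h : Viol N 3 A C) (hex : (2 * 3 + 1) * gk N A C = 2 * A.card + 1)
    (h5 : 5 ≤ gk N A C) (hLA : L ⊆ A) (hLne : L ≠ A) (b : Blk N 3 L (res C L))
    (hG : Conn N (A \ L)) {g1 g2 : V} (hne : g1 ≠ g2) (hg1 : g1 ∈ A \ L) (hg2 : g2 ∈ A \ L)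
    (ht1 : ∃ x ∈ L, x ∈ N g1) (ht2 : ∃ x ∈ L, x ∈ N g2)
    (honly : ∀ x ∈ L, ∀ y ∈ A \ L, y ∈ N x → y = g1 ∨ y = g2) : False := by
  classical
  have hLss : L ⊂ A := Finset.ssubset_iff_subset_ne.2 ⟨hLA, hLne⟩
  have hE : ∀ A' ⊂ L, ∀ C' ⊆ res C L, Sys N 3 A' C' → Conn N A' → Bd N 3 A' C' :=
    fun A' hA' C' hC' => h.hE A' (hA'.trans hLss) C' (hC'.trans (Finset.filter_subset _ _))
  have hLc : L.card = 6 := b.card
  have hAL : (A \ L).card + L.card = A.card := Finset.card_sdiff_add_card_eq_card hLA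
  -- crossing star sets contain a gate
  have hcross : ∀ S ∈ C, ¬ S ⊆ L → ¬ S ⊆ A \ L →
      ∃ l ∈ S, l ∈ L ∧ ((g1 ∈ S ∧ g1 ∈ N l) ∨ (g2 ∈ S ∧ g2 ∈ N l)) := by
    intro S hS h1 h2
    obtain ⟨y, hy, hyL⟩ := Finset.not_subset.1 h1
    obtain ⟨x, hx, hxL⟩ := Finset.not_subset.1 h2
    have hxL' : x ∈ L := by
      by_contra hh
      exact hxL (Finset.mem_sdiff.2 ⟨h.sys.sub S hS hx, hh⟩)
    obtain ⟨l, hl, hlL, g, hg, hgL, hgl⟩ := cross_pair h.symm h.sys hS hx hxL' hy hyL
    refine ⟨l, hl, hlL, ?_⟩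
    rcases honly l hlL g (Finset.mem_sdiff.2 ⟨h.sys.sub S hS hg, hgL⟩) hgl with rfl | rfl
    · exact Or.inl ⟨hg, hgl⟩
    · exact Or.inr ⟨hg, hgl⟩
  -- the final step
  have hfin : ∀ D : Finset V, D ⊆ A → D.card + 1 ≤ gk N A C →
      (∀ S ∈ C, S ⊆ A \ L → Hit N D S) → (∀ S ∈ C, S ⊆ L → Hit N D S) →
      (∀ S ∈ C, ¬ S ⊆ L → ¬ S ⊆ A \ L → Hit N D S) → False := by
    intro D hD hDc h1 h2 h3
    have := gk_le hD (C := C) (fun S hS => by
      by_cases hSL : S ⊆ L
      · exact h2 S hS hSL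
      · by_cases hSG : S ⊆ A \ L
        · exact h1 S hS hSG
        · exact h3 S hS hSL hSG)
    omega
  -- killing the star sets of `L` that miss `i`
  have hcr : ∀ i : V, ∃ D ⊆ L, D.card ≤ 1 ∧ (i ∈ L → ∀ T ∈ C, T ⊆ L → i ∉ T → Hit N D T) := by
    intro i
    obtain ⟨D, d1, d2, d3⟩ := b.crit hE i
    exact ⟨D, d1, d2, fun hi T hT hTL hiT => d3 hi T (mem_res.2 ⟨hT, hTL⟩) hiT⟩
  by_cases hX : ∃ i ∈ L, ∃ i' ∈ L, i ≠ i' ∧ i ∈ N g1 ∧ i' ∈ N g2
  · -- merge the gates
    obtain ⟨i, hi, i', hi', hii, hig, hig'⟩ := hX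
    obtain ⟨D, hD, hDc, hcase⟩ := merge_cases (K := 3) (C := res C (A \ L)) h.refl hne hg1 hg2
      h.sys.res
    have hDA : D ⊆ A := hD.trans ((Finset.erase_subset _ _).trans Finset.sdiff_subset)
    have hg1A := (Finset.mem_sdiff.1 hg1).1
    have hg2A := (Finset.mem_sdiff.1 hg2).1
    have hiA := hLA hi
    have hiA' := hLA hi'
    have hec : ((A \ L).erase g2).card + 1 = (A \ L).card := Finset.card_erase_add_one hg2
    have hb := h.small (mN N g1 g2) (mN_refl h.refl hne) (mN_symm h.symm hne)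
      ((A \ L).erase g2) (mC (res C (A \ L)) g1 g2) (by omega) (mC_sys hne hg1 h.sys.res)
      (mN_conn hne hg1 hG)
    have hDs : D.card + 3 ≤ gk N A C := by
      rw [hDc]
      rcases hb with h1 | ⟨h1, h2⟩ | ⟨h1, h2⟩
      · omega
      · omega
      · omega
    have hmr : ∀ S ∈ C, S ⊆ A \ L → S ∈ res C (A \ L) := fun S hS hSL => mem_res.2 ⟨hS, hSL⟩
    rcases hcase with ⟨c1, c2⟩ | ⟨c1, c2⟩ | ⟨c1, ⟨d, hd, hd1⟩, c3, c4⟩ | ⟨c1, ⟨d, hd, hd2⟩, c3, c4⟩
    · obtain ⟨Di, e1, e2, e3⟩ := hcr i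
      refine hfin (insert g2 D ∪ Di) (Finset.union_subset (Finset.insert_subset hg2A hDA)
        (e1.trans hLA)) ?_ ?_ ?_ ?_
      · have f1 := Finset.card_union_le (insert g2 D) Di
        have f2 := Finset.card_insert_le g2 D
        omega
      · exact fun S hS hSL => (c2 S (hmr S hS hSL)).mono Finset.subset_union_left
      · intro S hS hSL
        by_cases hiS : i ∈ S
        · exact ⟨g1, by simp [c1], i, hiS, hig⟩
        · exact (e3 hi S hS hSL hiS).mono Finset.subset_union_right
      · intro S hS h1 h2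
        obtain ⟨l, hl, hlL, ⟨hg, _⟩ | ⟨hg, _⟩⟩ := hcross S hS h1 h2
        · exact ⟨g1, by simp [c1], g1, hg, h.refl g1⟩
        · exact ⟨g2, by simp, g2, hg, h.refl g2⟩
    · refine hfin (D ∪ {i, i'}) (Finset.union_subset hDA (by
        intro x hx
        rcases Finset.mem_insert.1 hx with rfl | hx
        · exact hiA
        · rw [Finset.mem_singleton.1 hx]; exact hiA')) ?_ ?_ ?_ ?_
      · have f1 := Finset.card_union_le D {i, i'}
        rw [Finset.card_pair hii] at f1
        omega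
      · intro S hS hSL
        by_cases hH : Hit N D S
        · exact hH.mono Finset.subset_union_left
        · have := (c2 S (hmr S hS hSL) hH).1
          exact ⟨i, by simp, g1, this, h.symm _ _ hig⟩
      · intro S hS hSL
        exact (b.pair hE hi hi' hii S (mem_res.2 ⟨hS, hSL⟩)).mono Finset.subset_union_right
      · intro S hS h1 h2
        obtain ⟨l, hl, hlL, ⟨hg, _⟩ | ⟨hg, _⟩⟩ := hcross S hS h1 h2
        · exact ⟨i, by simp, g1, hg, h.symm _ _ hig⟩
        · exact ⟨i', by simp, g2, hg, h.symm _ _ hig'⟩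
    · obtain ⟨Di, e1, e2, e3⟩ := hcr i'
      refine hfin (insert i' D ∪ Di) (Finset.union_subset (Finset.insert_subset hiA' hDA)
        (e1.trans hLA)) ?_ ?_ ?_ ?_
      · have f1 := Finset.card_union_le (insert i' D) Di
        have f2 := Finset.card_insert_le i' D
        omega
      · intro S hS hSL
        by_cases hH : Hit N D S
        · exact hH.mono ((Finset.subset_insert _ _).trans Finset.subset_union_left)
        · have := (c4 S (hmr S hS hSL) hH).1
          exact ⟨i', by simp, g2, this, h.symm _ _ hig'⟩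
      · intro S hS hSL
        by_cases hiS : i' ∈ S
        · exact ⟨i', by simp, i', hiS, h.refl i'⟩
        · exact (e3 hi' S hS hSL hiS).mono Finset.subset_union_right
      · intro S hS h1 h2
        obtain ⟨l, hl, hlL, ⟨hg, _⟩ | ⟨hg, _⟩⟩ := hcross S hS h1 h2
        · exact ⟨d, by simp [hd], g1, hg, hd1⟩
        · exact ⟨i', by simp, g2, hg, h.symm _ _ hig'⟩
    · obtain ⟨Di, e1, e2, e3⟩ := hcr i
      refine hfin (insert i D ∪ Di) (Finset.union_subset (Finset.insert_subset hiA hDA)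
        (e1.trans hLA)) ?_ ?_ ?_ ?_
      · have f1 := Finset.card_union_le (insert i D) Di
        have f2 := Finset.card_insert_le i D
        omega
      · intro S hS hSL
        by_cases hH : Hit N D S
        · exact hH.mono ((Finset.subset_insert _ _).trans Finset.subset_union_left)
        · have := (c4 S (hmr S hS hSL) hH).1
          exact ⟨i, by simp, g1, this, h.symm _ _ hig⟩
      · intro S hS hSL
        by_cases hiS : i ∈ S
        · exact ⟨i, by simp, i, hiS, h.refl i⟩
        · exact (e3 hi S hS hSL hiS).mono Finset.subset_union_right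
      · intro S hS h1 h2
        obtain ⟨l, hl, hlL, ⟨hg, _⟩ | ⟨hg, _⟩⟩ := hcross S hS h1 h2
        · exact ⟨i, by simp, g1, hg, h.symm _ _ hig⟩
        · exact ⟨d, by simp [hd], g2, hg, hd2⟩
  · -- all edges to `L` are at one vertex
    push Not at hX
    obtain ⟨i, hi, hig⟩ := ht1
    obtain ⟨i2, hi2, hig2⟩ := ht2
    have h12 : i = i2 := by
      by_contra hh
      exact hX i hi i2 hi2 hh hig hig2
    subst h12
    have hall : ∀ x ∈ L, ∀ y ∈ A \ L, y ∈ N x → x = i := by
      intro x hx y hy hyx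
      by_contra hxi
      rcases honly x hx y hy hyx with rfl | rfl
      · exact hX x hx i hi hxi (h.symm _ _ hyx) hig2
      · exact hX i hi x hx (Ne.symm hxi) hig (h.symm _ _ hyx)
    obtain ⟨Di, e1, e2, e3⟩ := hcr i
    have hg1A := (Finset.mem_sdiff.1 hg1).1
    have hg1L := (Finset.mem_sdiff.1 hg1).2
    have hQA : insert g1 L ⊆ A := Finset.insert_subset hg1A hLA
    have hQn : (insert g1 L).Nonempty := Finset.insert_nonempty _ _
    have hQeq : A \ insert g1 L = (A \ L) \ {g1} := by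
      ext x
      simp only [Finset.mem_sdiff, Finset.mem_insert, Finset.mem_singleton]
      tauto
    obtain ⟨F, hF⟩ := exists_comps (N := N) h.symm (A \ insert g1 L)
    have hF' : Comps N ((A \ L) \ {g1}) F := by rw [← hQeq]; exact hF
    have hno : exc N 3 (far N C {g1}) F = ∅ := by
      rw [Finset.eq_empty_iff_forall_notMem]
      intro W hW
      obtain ⟨z, hz, x, hx, hxz⟩ := hF'.adj h.symm hG (Finset.singleton_subset_iff.2 hg1)
        (Finset.singleton_nonempty g1) (mem_exc.1 hW).1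
      rw [Finset.mem_singleton] at hz
      subst hz
      exact (h.exc_far hF hQn hQA hW).1 x hx hxz
    have hacc := h.acc hQn hQA hF (C' := far N C {g1}) far_sub
    rw [hno, Finset.sum_empty, Finset.card_insert_of_notMem hg1L, hLc] at hacc
    -- the count
    have hcnt := gk_le_union (C' := C) (Y := insert g1 Di) hF h.sys Finset.sdiff_subset
      (Finset.insert_subset hg1A (e1.trans hLA)) (Finset.Subset.refl _)
      (fun U => (exists_gk (N := N) h.refl (A := U) (C := res (far N C {g1}) U)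
        (fun S hS => (mem_res.1 hS).2)
        (fun S hS => h.sys.nonempty (far_sub (mem_res.1 hS).1))).choose)
      (fun U hU => ((exists_gk (N := N) h.refl (A := U) (C := res (far N C {g1}) U)
        (fun S hS => (mem_res.1 hS).2)
        (fun S hS => h.sys.nonempty (far_sub (mem_res.1 hS).1))).choose_spec.1).trans
          ((hF.cl U hU).1.trans Finset.sdiff_subset))
      (fun S hS hSB => by
        by_contra hnh
        apply hSB
        have hn1 : ∀ x ∈ S, x ∉ N g1 := fun x hx hxg =>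
          hnh ⟨g1, Finset.mem_insert_self _ _, x, hx, hxg⟩
        have hnL : ∀ x ∈ S, x ∉ L := by
          intro x hx hxL
          by_cases hSL : S ⊆ L
          · by_cases hiS : i ∈ S
            · exact hn1 i hiS hig
            · exact hnh ((e3 hi S hS hSL hiS).mono (Finset.subset_insert _ _))
          · obtain ⟨y, hy, hyL⟩ := Finset.not_subset.1 hSL
            obtain ⟨l, hl, hlL, g, hg, hgL, hgl⟩ := cross_pair h.symm h.sys hS hx hxL hy hyL
            have := hall l hlL g (Finset.mem_sdiff.2 ⟨h.sys.sub S hS hg, hgL⟩) hgl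
            subst this
            exact hn1 l hl hig
        intro x hx
        refine Finset.mem_sdiff.2 ⟨h.sys.sub S hS hx, fun hh => ?_⟩
        rcases Finset.mem_insert.1 hh with rfl | hh
        · exact hn1 x hx (h.refl x)
        · exact hnL x hx hh)
      (fun U hU S hS hSU => by
        by_cases hn0 : Hit N {g1} S
        · exact Or.inl (hn0.mono (by
            intro x hx
            rw [Finset.mem_singleton.1 hx]
            exact Finset.mem_insert_self _ _))
        · exact Or.inr ((exists_gk (N := N) h.refl (A := U) (C := res (far N C {g1}) U)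
            (fun S hS => (mem_res.1 hS).2)
            (fun S hS => h.sys.nonempty (far_sub (mem_res.1 hS).1))).choose_spec.2.1 S
              (mem_res.2 ⟨mem_far.2 ⟨hS, hn0⟩, hSU⟩)))
    have hs : ∑ U ∈ F, ((exists_gk (N := N) h.refl (A := U) (C := res (far N C {g1}) U)
        (fun S hS => (mem_res.1 hS).2)
        (fun S hS => h.sys.nonempty (far_sub (mem_res.1 hS).1))).choose).card =
        ∑ U ∈ F, gk N U (res (far N C {g1}) U) :=
      Finset.sum_congr rfl (fun U _ => (exists_gk (N := N) h.refl (A := U)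
        (C := res (far N C {g1}) U) (fun S hS => (mem_res.1 hS).2)
        (fun S hS => h.sys.nonempty (far_sub (mem_res.1 hS).1))).choose_spec.2.2)
    have hc1 := Finset.card_insert_le g1 Di
    rw [hs] at hcnt
    omega

end

end Pool.Agent.Star.Rig
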