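import Pool.Agent.Star.T3b

/-!
# Star systems with `K = 3`: all degrees of a minimal violator are at most two (part 3)
-/

set_option autoImplicit false
set_option linter.unusedSectionVars false
set_option linter.unusedVariables false

namespace Pool.Agent.Star.Rig

open Finset

variable {V : Type*} [DecidableEq V]

section
variable {N : V → Finset V} {K : ℕ} {A X Z : Finset V} {C J P : Finset (Finset V)}
  {z : Finset V → V}

lemma Rigid.cardP (r : Rigid N K X J Z P z) : P.card = Z.card :=
  Finset.card_bij (fun U _ => z U) (fun U hU => r.mem U hU)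
    (fun U hU U' hU' h => r.inj U hU U' hU' h)
    (fun y hy => by
      obtain ⟨U, hU, h⟩ := r.surj y hy
      exact ⟨U, hU, h⟩)

lemma Rigid.cardX (r : Rigid N K X J Z P z) (hP : ∀ U ∈ P, U.card = 2 * K) :
    X.card = Z.card * (2 * K + 1) := by
  have h1 := r.comps.card
  rw [Finset.sum_congr rfl hP, Finset.sum_const, smul_eq_mul, r.cardP] at h1
  have h2 : (X \ Z).card + Z.card = X.card := Finset.card_sdiff_add_card_eq_card r.sub
  rw [h1] at h2
  rw [← h2]; ring

/-- Non-critical vertices outside the hubs occur only for one hub. -/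
theorem hub_only (hs : ∀ x, x ∈ N x) (hsym : ∀ x y, x ∈ N y → y ∈ N x) (hK : 2 ≤ K)
    (hS : Sys N K X J) (hX : Conn N X)
    (hE : ∀ A' ⊂ X, ∀ C' ⊆ J, Sys N K A' C' → Conn N A' → Bd N K A' C')
    (ht : (2 * K + 1) * gk N X J = 2 * X.card)
    (r : Rigid N K X J Z P z) (hP : ∀ U ∈ P, U.card = 2 * K) {u : V} (hu : u ∈ X)
    (huZ : u ∉ Z) (hnc : gk N X (res J (X.erase u)) = gk N X J) : Z.card ≤ 1 := by
  by_contra hcon
  push Not at hcon
  obtain ⟨Z', P', z', r', huZ', hcnt⟩ := rigid hs hsym hK hS hX hE hu hnc (by omega)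
  have hP' : ∀ U ∈ P', U.card = 2 * K := by
    intro U hU
    have h7 : (P'.filter (fun U => U.card = K)).card = 0 := by omega
    rw [Finset.card_eq_zero, Finset.filter_eq_empty_iff] at h7
    rcases r'.typ U hU with ⟨h8, _⟩ | ⟨h8, _⟩
    · exact absurd h8 (h7 hU)
    · exact h8
  have hc1 := r.cardX hP
  have hc2 := r'.cardX hP'
  have hZZ : Z.card = Z'.card := by
    have : Z.card * (2 * K + 1) = Z'.card * (2 * K + 1) := by rw [← hc1, hc2]
    exact Nat.eq_of_mul_eq_mul_right (by omega) this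
  -- the block of `u`
  obtain ⟨U, hU, huU⟩ := r.comps.cover u (Finset.mem_sdiff.2 ⟨hu, huZ⟩)
  have hUX : ∀ W ∈ P, W ⊆ X := fun W hW => (r.comps.cl W hW).1.trans Finset.sdiff_subset
  have hUZ : ∀ W ∈ P, ∀ x ∈ W, x ∉ Z := fun W hW x hx =>
    (Finset.mem_sdiff.1 ((r.comps.cl W hW).1 hx)).2
  -- `insert (z W) W` meets `Z'`
  have hmeet : ∀ W ∈ P, ∃ x ∈ insert (z W) W, x ∈ Z' := by
    intro W hW
    by_contra hno
    push Not at hno
    obtain ⟨x0, hx0, hx0z⟩ := r.adj W hW
    have hconn : Conn N (W ∪ {z W}) := by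
      refine (r.comps.conn W hW).union hsym (conn_star hsym (Finset.mem_singleton_self (z W))
        (fun x hx => ?_)) hx0 (Finset.mem_singleton_self (z W)) (hsym _ _ hx0z)
      rw [Finset.mem_singleton.1 hx]
      exact hs (z W)
    have hsub : W ∪ {z W} ⊆ X \ Z' := by
      intro x hx
      have hx' : x ∈ insert (z W) W := by
        rcases Finset.mem_union.1 hx with h | h
        · exact Finset.mem_insert_of_mem h
        · rw [Finset.mem_singleton.1 h]; exact Finset.mem_insert_self _ _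
      refine Finset.mem_sdiff.2 ⟨?_, hno x hx'⟩
      rcases Finset.mem_insert.1 hx' with rfl | h
      · exact r.sub (r.mem W hW)
      · exact hUX W hW h
    obtain ⟨W', hW', hxW'⟩ := r'.comps.cover x0 (hsub (Finset.mem_union_left _ hx0))
    have h1 := hconn.subset_of_closed hsub (r'.comps.cl W' hW') (Finset.mem_union_left _ hx0) hxW'
    have h2 := Finset.card_le_card h1
    rw [hP' W' hW', Finset.card_union_of_disjoint (Finset.disjoint_singleton_right.2
      (fun hh => hUZ W hW _ hh (r.mem W hW))), hP W hW, Finset.card_singleton] at h2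
    omega
  -- a hub whose block meets `Z'` properly is in `Z'`
  have hin : ∀ W ∈ P, (∃ x ∈ W, x ∈ Z') → (∃ y ∈ Z', y ∉ W) → z W ∈ Z' := by
    rintro W hW ⟨x, hx, hxZ'⟩ ⟨y, hy, hyW⟩
    obtain ⟨a, ha, c, hc, hcn, hca⟩ := r'.conn.2 (W ∩ Z') Finset.inter_subset_right
      ⟨x, Finset.mem_inter.2 ⟨hx, hxZ'⟩⟩ (fun hh => hyW (by
        rw [← hh] at hy
        exact (Finset.mem_inter.1 hy).1))
    have haW := (Finset.mem_inter.1 ha).1
    have hcW : c ∉ W := fun hh => hcn (Finset.mem_inter.2 ⟨hh, hc⟩)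
    have := r.only W hW a haW c (r'.sub hc) hcW hca
    rw [← this]; exact hc
  have hsub : Z ⊆ Z' := by
    -- a second hub
    intro y hy
    obtain ⟨W, hW, rfl⟩ := r.surj y hy
    by_cases hWU : W = U
    · subst hWU
      obtain ⟨y', hy', hne⟩ : ∃ y' ∈ Z, y' ≠ z W := by
        by_contra hno
        push Not at hno
        have : Z ⊆ {z W} := fun x hx => Finset.mem_singleton.2 (hno x hx)
        have := Finset.card_le_card this
        rw [Finset.card_singleton] at this
        omega
      obtain ⟨W', hW', rfl⟩ := r.surj y' hy'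
      obtain ⟨x', hx', hxZ'⟩ := hmeet W' hW'
      refine hin W hW ⟨u, huU, huZ'⟩ ⟨x', hxZ', ?_⟩
      intro hxW
      rcases Finset.mem_insert.1 hx' with rfl | hx'
      · exact hUZ W hW _ hxW (r.mem W' hW')
      · have := r.comps.eq_of_mem hW hW' hxW hx'
        subst this
        exact hne rfl
    · by_cases hz : z W ∈ Z'
      · exact hz
      · obtain ⟨x', hx', hxZ'⟩ := hmeet W hW
        have hxW : x' ∈ W := by
          rcases Finset.mem_insert.1 hx' with rfl | hx'
          · exact absurd hxZ' hz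
          · exact hx'
        refine hin W hW ⟨x', hxW, hxZ'⟩ ⟨u, huZ', fun huW => ?_⟩
        exact hWU (r.comps.eq_of_mem hW hU huW huU)
  have heq : Z = Z' := Finset.eq_of_subset_of_card_le hsub (by omega)
  rw [heq] at huZ
  exact huZ huZ'

end

section
variable {N : V → Finset V} {A : Finset V} {C F : Finset (Finset V)}

/-- The neighbours of `z` in `A`. -/
def nbr (N : V → Finset V) (A : Finset V) (z : V) : Finset V := (N z ∩ A).erase z

lemma mem_nbr {z x : V} : x ∈ nbr N A z ↔ x ≠ z ∧ x ∈ N z ∧ x ∈ A := by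
  unfold nbr
  rw [Finset.mem_erase, Finset.mem_inter]

lemma insert_nbr (hs : ∀ x, x ∈ N x) {z : V} (hz : z ∈ A) : insert z (nbr N A z) = N z ∩ A := by
  unfold nbr
  exact Finset.insert_erase (Finset.mem_inter.2 ⟨hs z, hz⟩)

/-- A component of the complement of `N z` contains no neighbour of `z`. -/
lemma out_nbr (hs : ∀ x, x ∈ N x) {z : V} (hz : z ∈ A) {U : Finset V}
    (hU : U ⊆ A \ insert z (nbr N A z)) : ∀ x ∈ U, x ∉ N z := by
  intro x hx hxz
  have h1 := Finset.mem_sdiff.1 (hU hx)
  rw [insert_nbr hs hz] at h1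
  exact h1.2 (Finset.mem_inter.2 ⟨hxz, h1.1⟩)

lemma res_far_eq {z : V} {U : Finset V} (hU : ∀ x ∈ U, x ∉ N z) :
    res (far N C {z}) U = res C U := by
  ext S
  rw [mem_res, mem_res, mem_far]
  constructor
  · rintro ⟨⟨h3, _⟩, h4⟩
    exact ⟨h3, h4⟩
  · rintro ⟨h3, h4⟩
    refine ⟨⟨h3, ?_⟩, h4⟩
    rintro ⟨e, he, x, hx, hxe⟩
    rw [Finset.mem_singleton] at he
    subst he
    exact hU x (h4 hx) hxe

/-- Vertices of degree at least three: the exceptional components are blocks. -/
lemma Viol.e3_blocks (h : Viol N 3 A C) (hex : (2 * 3 + 1) * gk N A C = 2 * A.card + 1)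
    {z : V} (hz : z ∈ A) (hd : 3 ≤ (nbr N A z).card)
    (hF : Comps N (A \ insert z (nbr N A z)) F) :
    (∀ U ∈ exc N 3 (far N C {z}) F, Blk N 3 U (res C U)) ∧
    ((nbr N A z).card = 3 ∧ (exc N 3 (far N C {z}) F).card = 1 ∨
      (nbr N A z).card = 4 ∧ (exc N 3 (far N C {z}) F).card = 2) := by
  have hle : (nbr N A z).card ≤ 4 := by
    have := h.deg_le hex hz
    unfold nbr
    omega
  have hQA : insert z (nbr N A z) ⊆ A := Finset.insert_subset hz
    (fun x hx => (mem_nbr.1 hx).2.2)
  obtain ⟨h1, h2, h3, h4⟩ := h.deg hex hz (fun r hr => (mem_nbr.1 hr).2.2)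
    (fun r hr => (mem_nbr.1 hr).2.1) (fun hh => (mem_nbr.1 hh).1 rfl) (by omega) hF
  have hval : ∀ U ∈ exc N 3 (far N C {z}) F, gk N U (res (far N C {z}) U) ≤ 2 := by
    intro U hU
    rcases (mem_exc.1 hU).2 with ⟨_, h5⟩ | ⟨_, h5⟩ <;> omega
  have hw : ∑ U ∈ exc N 3 (far N C {z}) F, gk N U (res (far N C {z}) U) ≤
      2 * (exc N 3 (far N C {z}) F).card := by
    rw [Nat.mul_comm, ← smul_eq_mul, ← Finset.sum_const]
    exact Finset.sum_le_sum hval
  have hsum : ∑ U ∈ exc N 3 (far N C {z}) F, gk N U (res (far N C {z}) U) =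
      ∑ U ∈ exc N 3 (far N C {z}) F, 2 := by
    rw [Finset.sum_const, smul_eq_mul]
    omega
  have hall := (Finset.sum_eq_sum_iff_of_le hval).1 hsum
  refine ⟨?_, by omega⟩
  intro U hU
  obtain ⟨e1, e2, e3⟩ := h.exc_far hF (Finset.insert_nonempty _ _) hQA hU
  have hg := hall U hU
  rw [e2] at hg
  refine ⟨h.refl, h.symm, h.sys.res, hF.conn U (mem_exc.1 hU).1, ?_, hg⟩
  rcases e3 with ⟨_, e4⟩ | ⟨e4, _⟩
  · omega
  · exact e4

/-- No exceptional set with three vertices around a vertex of degree at least three. -/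
lemma Viol.e3_no_a (h : Viol N 3 A C) (hex : (2 * 3 + 1) * gk N A C = 2 * A.card + 1)
    {z : V} (hz : z ∈ A) (hd : 3 ≤ (nbr N A z).card) {U : Finset V} (hU : Conn N U)
    (hcl : Closed N U (A \ insert z (nbr N A z))) (hT : Typ N 3 U (res C U)) : U.card = 6 := by
  obtain ⟨F, hF⟩ := exists_comps (N := N) h.symm (A \ insert z (nbr N A z))
  have hUF := hF.mem_of hU hcl
  have hUe : U ∈ exc N 3 (far N C {z}) F :=
    mem_exc.2 ⟨hUF, by rw [res_far_eq (out_nbr h.refl hz hcl.1)]; exact hT⟩
  exact ((h.e3_blocks hex hz hd hF).1 U hUe).card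

/-- In the case of three gates the touched vertices of the other components are not critical. -/
lemma Viol.e3_noncrit (h : Viol N 3 A C) (hex : (2 * 3 + 1) * gk N A C = 2 * A.card + 1)
    {z : V} (hz : z ∈ A) (hd : 3 ≤ (nbr N A z).card)
    (hF : Comps N (A \ insert z (nbr N A z)) F) {L : Finset V} (hLF : L ∈ F)
    (b : Blk N 3 L (res C L)) {g : V} (hg : g ∈ nbr N A z) (hgL : ∃ x ∈ L, x ∈ N g)
    {X : Finset V} (hX : X ∈ F) (hXL : X ≠ L) {x : V} (hx : x ∈ X) (hxg : x ∈ N g) :
    gk N X (res (res C X) (X.erase x)) = gk N X (res C X) := by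
  classical
  have hle : (nbr N A z).card ≤ 4 := by
    have := h.deg_le hex hz
    unfold nbr
    omega
  have hQA : insert z (nbr N A z) ⊆ A := Finset.insert_subset hz
    (fun x hx => (mem_nbr.1 hx).2.2)
  obtain ⟨h1, h2, h3, h4⟩ := h.deg hex hz (fun r hr => (mem_nbr.1 hr).2.2)
    (fun r hr => (mem_nbr.1 hr).2.1) (fun hh => (mem_nbr.1 hh).1 rfl) (by omega) hF
  have hss : ∀ U ∈ F, U ⊂ A := fun U hU => Finset.ssubset_of_subset_of_ssubset (hF.cl U hU).1
    (Finset.sdiff_ssubset hQA (Finset.insert_nonempty _ _))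
  have hle1 : gk N X (res (res C X) (X.erase x)) ≤ gk N X (res C X) :=
    gk_mono h.refl (fun S hS => (mem_res.1 hS).2)
      (fun S hS => h.sys.nonempty (mem_res.1 hS).1) (Finset.filter_subset _ _)
  rcases lt_or_eq_of_le hle1 with hlt | heq
  swap
  · exact heq
  exfalso
  have h0 : ∀ U : Finset V, ∃ D, D ⊆ U ∧ Kills N D (res C U) ∧ D.card = gk N U (res C U) :=
    fun U => exists_gk h.refl (fun S hS => (mem_res.1 hS).2)
      (fun S hS => h.sys.nonempty (mem_res.1 hS).1)
  choose D1 hD1 hD1k hD1c using h0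
  obtain ⟨DX, x1, x2, x3⟩ := exists_gk (N := N) h.refl (A := X)
    (C := res (res C X) (X.erase x)) (fun S hS => (mem_res.1 (mem_res.1 hS).1).2)
    (fun S hS => h.sys.nonempty (mem_res.1 (mem_res.1 hS).1).1)
  obtain ⟨i, hi, hig⟩ := hgL
  obtain ⟨DL, l1, l2, l3⟩ := b.crit (fun A' hA' C' hC' => h.hE A' (hA'.trans (hss L hLF)) C'
    (hC'.trans (Finset.filter_subset _ _))) i
  have hgA := (mem_nbr.1 hg).2.2
  have hcnt := gk_le_union (C' := C) (Y := {z, g}) hF h.sys Finset.sdiff_subset
    (by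
      intro y hy
      rcases Finset.mem_insert.1 hy with rfl | hy
      · exact hz
      · rw [Finset.mem_singleton.1 hy]; exact hgA)
    (Finset.Subset.refl _)
    (fun U => if U = L then DL else if U = X then DX else D1 U)
    (fun U hU => by
      have hUA : U ⊆ A := (hss U hU).1
      by_cases hUL : U = L
      · simp only [hUL, if_true]; exact l1.trans (hss L hLF).1
      · by_cases hUX : U = X
        · subst hUX
          simp only [hUL, if_false, if_true]; exact x1.trans hUA
        · simp only [hUL, hUX, if_false]; exact (hD1 U).trans hUA)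
    (fun S hS hSB => by
      by_contra hnh
      apply hSB
      intro y hy
      refine Finset.mem_sdiff.2 ⟨h.sys.sub S hS hy, fun hh => ?_⟩
      apply hnh
      rw [insert_nbr h.refl hz] at hh
      exact ⟨z, by simp, y, hy, (Finset.mem_inter.1 hh).1⟩)
    (fun U hU S hS hSU => by
      by_cases hUL : U = L
      · subst hUL
        simp only [if_true]
        by_cases hiS : i ∈ S
        · exact Or.inl ⟨g, by simp, i, hiS, hig⟩
        · exact Or.inr (l3 hi S (mem_res.2 ⟨hS, hSU⟩) hiS)
      · by_cases hUX : U = X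
        · subst hUX
          simp only [hUL, if_false, if_true]
          by_cases hxS : x ∈ S
          · exact Or.inl ⟨g, by simp, x, hxS, hxg⟩
          · refine Or.inr (x2 S (mem_res.2 ⟨mem_res.2 ⟨hS, hSU⟩, fun y hy =>
              Finset.mem_erase.2 ⟨?_, hSU hy⟩⟩))
            rintro rfl
            exact hxS hy
        · simp only [hUL, hUX, if_false]
          exact Or.inr (hD1k U S (mem_res.2 ⟨hS, hSU⟩)))
  have hrf : ∑ U ∈ F, gk N U (res (far N C {z}) U) = ∑ U ∈ F, gk N U (res C U) :=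
    Finset.sum_congr rfl (fun U hU => by rw [res_far_eq (out_nbr h.refl hz (hF.cl U hU).1)])
  have hsum : ∑ U ∈ F, (if U = L then DL else if U = X then DX else D1 U).card + 2 ≤
      ∑ U ∈ F, gk N U (res C U) := by
    rw [← Finset.sum_erase_add F _ hLF, ← Finset.sum_erase_add F (fun U => gk N U (res C U)) hLF]
    have hXe : X ∈ F.erase L := Finset.mem_erase.2 ⟨hXL, hX⟩
    rw [← Finset.sum_erase_add (F.erase L) _ hXe,
      ← Finset.sum_erase_add (F.erase L) (fun U => gk N U (res C U)) hXe]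
    have hr : ∑ U ∈ (F.erase L).erase X, (if U = L then DL else if U = X then DX else D1 U).card =
        ∑ U ∈ (F.erase L).erase X, gk N U (res C U) := by
      apply Finset.sum_congr rfl
      intro U hU
      have hUX := (Finset.mem_erase.1 hU).1
      have hUL := (Finset.mem_erase.1 (Finset.mem_erase.1 hU).2).1
      simp only [hUL, hUX, if_false]
      exact hD1c U
    rw [hr]
    simp only [if_true, hXL, if_false]
    have hLt := b.two
    omega
  have hYc : ({z, g} : Finset V).card ≤ 2 := Finset.card_le_two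
  omega

end

end Pool.Agent.Star.Rig
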