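import Pool.Agent.Star.Red1
import Pool.Agent.Star.Merge

/-!
# Star systems with K = 3: a smallest violator is not a cycle

The end of the proof of `E_3` in class G: all closed neighbourhoods have three elements and all of
them are star sets.  Delete three consecutive vertices and merge their two outer neighbours.
-/

set_option autoImplicit false
set_option linter.unusedSectionVars false
set_option linter.unusedVariables false

namespace Pool.Agent.Star.Rig

open Finset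

variable {V : Type*} [DecidableEq V]
variable {N : V → Finset V} {K : ℕ} {A : Finset V} {C : Finset (Finset V)}

lemma three_mem {F : Finset V} (hF : F.card = 3) {a b c : V} (ha : a ∈ F) (hb : b ∈ F)
    (hc : c ∈ F) (hab : a ≠ b) (hac : a ≠ c) (hbc : b ≠ c) :
    ∀ x ∈ F, x = a ∨ x = b ∨ x = c := by
  intro x hx
  by_contra hcon
  push Not at hcon
  obtain ⟨h1, h2, h3⟩ := hcon
  have h4 : ({x, a, b, c} : Finset V) ⊆ F := by
    intro y hy
    simp only [Finset.mem_insert, Finset.mem_singleton] at hy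
    rcases hy with rfl | rfl | rfl | rfl <;> assumption
  have h5 := Finset.card_le_card h4
  have h6 : ({x, a, b, c} : Finset V).card = 4 := by
    rw [Finset.card_insert_of_notMem, Finset.card_insert_of_notMem,
      Finset.card_insert_of_notMem, Finset.card_singleton]
    · simpa using hbc
    · simp [hab, hac]
    · simp [h1, h2, h3]
  omega

lemma no_closed (hA : Conn N A) {B : Finset V} (hB : B ⊆ A) (hne : B.Nonempty)
    (hc : B.card < A.card) (hcl : ∀ x ∈ B, ∀ y ∈ A, y ∈ N x → y ∈ B) : False := by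
  have hBA : B ≠ A := by
    rintro rfl
    exact lt_irrefl _ hc
  obtain ⟨x, hx, y, hy, hyB, hyx⟩ := hA.2 B hB hne hBA
  exact hyB (hcl x hx y hy hyx)

/-- The structure of a path `z c1 c2 c3 z'` in a long cycle. -/
lemma cycle_path (hr : ∀ x, x ∈ N x) (hsym : ∀ x y, x ∈ N y → y ∈ N x) (hA : Conn N A)
    (hcard : 7 ≤ A.card) (h3 : ∀ v ∈ A, (N v ∩ A).card = 3) :
    ∃ z ∈ A, ∃ c1 ∈ A, ∃ c2 ∈ A, ∃ c3 ∈ A, ∃ z' ∈ A,
      c1 ≠ c2 ∧ c1 ≠ c3 ∧ c2 ≠ c3 ∧ z ≠ c1 ∧ z ≠ c2 ∧ z ≠ c3 ∧ z' ≠ c1 ∧ z' ≠ c2 ∧ z' ≠ c3 ∧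
      z ≠ z' ∧ c1 ∈ N c2 ∧ c3 ∈ N c2 ∧ z ∈ N c1 ∧ z' ∈ N c3 ∧
      (∀ x ∈ A, x ∈ N c1 → x = z ∨ x = c1 ∨ x = c2) ∧
      (∀ x ∈ A, x ∈ N c2 → x = c1 ∨ x = c2 ∨ x = c3) ∧
      (∀ x ∈ A, x ∈ N c3 → x = c2 ∨ x = c3 ∨ x = z') ∧
      (∀ w ∈ A, w ≠ c2 → z ∈ N w → z' ∈ N w → False) := by
  obtain ⟨c2, hc2⟩ := hA.1
  have m2 : c2 ∈ N c2 ∩ A := Finset.mem_inter.2 ⟨hr c2, hc2⟩
  have e2 : ((N c2 ∩ A).erase c2).card = 2 := by
    rw [Finset.card_erase_of_mem m2, h3 c2 hc2]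
  obtain ⟨c1, c3, h13, he⟩ := Finset.card_eq_two.1 e2
  have m1 : c1 ∈ (N c2 ∩ A).erase c2 := by rw [he]; simp
  have m3 : c3 ∈ (N c2 ∩ A).erase c2 := by rw [he]; simp
  obtain ⟨n12, m1⟩ := Finset.mem_erase.1 m1
  obtain ⟨n32, m3⟩ := Finset.mem_erase.1 m3
  obtain ⟨a1, hc1⟩ := Finset.mem_inter.1 m1
  obtain ⟨a3, hc3⟩ := Finset.mem_inter.1 m3
  have N2 := three_mem (h3 c2 hc2) m1 m2 m3 n12 h13 n32.symm
  have N2' : ∀ x ∈ A, x ∈ N c2 → x = c1 ∨ x = c2 ∨ x = c3 :=
    fun x hx hxn => N2 x (Finset.mem_inter.2 ⟨hxn, hx⟩)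
  -- the endpoints are not adjacent
  have n13 : c3 ∉ N c1 := by
    intro h31
    have N1 := three_mem (h3 c1 hc1) (Finset.mem_inter.2 ⟨hr c1, hc1⟩)
      (Finset.mem_inter.2 ⟨hsym _ _ a1, hc2⟩) (Finset.mem_inter.2 ⟨h31, hc3⟩) n12 h13 n32.symm
    have N3 := three_mem (h3 c3 hc3) (Finset.mem_inter.2 ⟨hsym _ _ h31, hc1⟩)
      (Finset.mem_inter.2 ⟨hsym _ _ a3, hc2⟩) (Finset.mem_inter.2 ⟨hr c3, hc3⟩) n12 h13 n32.symm
    have hsub : ({c1, c2, c3} : Finset V) ⊆ A := by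
      intro x hx
      simp only [Finset.mem_insert, Finset.mem_singleton] at hx
      rcases hx with rfl | rfl | rfl <;> assumption
    apply no_closed hA hsub ⟨c1, by simp⟩ (lt_of_le_of_lt Finset.card_le_three (by omega))
    intro x hx y hy hyx
    simp only [Finset.mem_insert, Finset.mem_singleton] at hx ⊢
    rcases hx with rfl | rfl | rfl
    · exact N1 y (Finset.mem_inter.2 ⟨hyx, hy⟩)
    · exact N2 y (Finset.mem_inter.2 ⟨hyx, hy⟩)
    · exact N3 y (Finset.mem_inter.2 ⟨hyx, hy⟩)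
  -- the outer neighbours
  have hz : ∃ z ∈ N c1 ∩ A, z ≠ c1 ∧ z ≠ c2 := by
    by_contra hcon
    push Not at hcon
    have hsub : N c1 ∩ A ⊆ {c1, c2} := by
      intro x hx
      simp only [Finset.mem_insert, Finset.mem_singleton]
      by_cases hx1 : x = c1
      · exact Or.inl hx1
      · exact Or.inr (hcon x hx hx1)
    have h1 := Finset.card_le_card hsub
    rw [h3 c1 hc1] at h1
    have h2 : ({c1, c2} : Finset V).card ≤ 2 := Finset.card_le_two
    omega
  have hz' : ∃ z ∈ N c3 ∩ A, z ≠ c3 ∧ z ≠ c2 := by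
    by_contra hcon
    push Not at hcon
    have hsub : N c3 ∩ A ⊆ {c3, c2} := by
      intro x hx
      simp only [Finset.mem_insert, Finset.mem_singleton]
      by_cases hx1 : x = c3
      · exact Or.inl hx1
      · exact Or.inr (hcon x hx hx1)
    have h1 := Finset.card_le_card hsub
    rw [h3 c3 hc3] at h1
    have h2 : ({c3, c2} : Finset V).card ≤ 2 := Finset.card_le_two
    omega
  obtain ⟨z, hz, nz1, nz2⟩ := hz
  obtain ⟨z', hz', nz'3, nz'2⟩ := hz'
  obtain ⟨az, hzA⟩ := Finset.mem_inter.1 hz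
  obtain ⟨az', hz'A⟩ := Finset.mem_inter.1 hz'
  have nz3 : z ≠ c3 := by
    rintro rfl
    exact n13 az
  have nz'1 : z' ≠ c1 := by
    rintro rfl
    exact n13 (hsym _ _ az')
  have N1 := three_mem (h3 c1 hc1) hz (Finset.mem_inter.2 ⟨hr c1, hc1⟩)
    (Finset.mem_inter.2 ⟨hsym _ _ a1, hc2⟩) nz1 nz2 n12
  have N3 := three_mem (h3 c3 hc3) (Finset.mem_inter.2 ⟨hsym _ _ a3, hc2⟩)
    (Finset.mem_inter.2 ⟨hr c3, hc3⟩) hz' n32.symm nz'2.symm nz'3.symm
  have hzz : z ≠ z' := by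
    rintro rfl
    have Nz := three_mem (h3 z hzA) (Finset.mem_inter.2 ⟨hsym _ _ az, hc1⟩)
      (Finset.mem_inter.2 ⟨hr z, hzA⟩) (Finset.mem_inter.2 ⟨hsym _ _ az', hc3⟩)
      nz1.symm h13 nz3
    have hsub : ({c1, c2, c3, z} : Finset V) ⊆ A := by
      intro x hx
      simp only [Finset.mem_insert, Finset.mem_singleton] at hx
      rcases hx with rfl | rfl | rfl | rfl <;> assumption
    apply no_closed hA hsub ⟨c1, by simp⟩ (lt_of_le_of_lt Finset.card_le_four (by omega))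
    intro x hx y hy hyx
    simp only [Finset.mem_insert, Finset.mem_singleton] at hx ⊢
    rcases hx with rfl | rfl | rfl | rfl
    · rcases N1 y (Finset.mem_inter.2 ⟨hyx, hy⟩) with h | h | h <;> simp [h]
    · rcases N2 y (Finset.mem_inter.2 ⟨hyx, hy⟩) with h | h | h <;> simp [h]
    · rcases N3 y (Finset.mem_inter.2 ⟨hyx, hy⟩) with h | h | h <;> simp [h]
    · rcases Nz y (Finset.mem_inter.2 ⟨hyx, hy⟩) with h | h | h <;> simp [h]
  refine ⟨z, hzA, c1, hc1, c2, hc2, c3, hc3, z', hz'A, n12, h13, n32.symm, nz1, nz2, nz3, nz'1,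
    nz'2, nz'3, hzz, a1, a3, az, az', fun x hx hxn => N1 x (Finset.mem_inter.2 ⟨hxn, hx⟩), N2',
    fun x hx hxn => N3 x (Finset.mem_inter.2 ⟨hxn, hx⟩), ?_⟩
  intro w hw hwc2 hzw hz'w
  -- `w` is not one of the five vertices
  have w1 : w ≠ c1 := by
    rintro rfl
    rcases N1 z' (Finset.mem_inter.2 ⟨hz'w, hz'A⟩) with h | h | h
    · exact hzz h.symm
    · exact nz'1 h
    · exact nz'2 h
  have w3 : w ≠ c3 := by
    rintro rfl
    rcases N3 z (Finset.mem_inter.2 ⟨hzw, hzA⟩) with h | h | h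
    · exact nz2 h
    · exact nz3 h
    · exact hzz h
  by_cases wz : w = z
  · -- `z` and `z'` adjacent: a closed set of five vertices
    subst wz
    have Nz := three_mem (h3 w hw) (Finset.mem_inter.2 ⟨hsym _ _ az, hc1⟩)
      (Finset.mem_inter.2 ⟨hr w, hw⟩) (Finset.mem_inter.2 ⟨hz'w, hz'A⟩)
      nz1.symm nz'1.symm hzz
    have Nz' := three_mem (h3 z' hz'A) (Finset.mem_inter.2 ⟨hsym _ _ az', hc3⟩)
      (Finset.mem_inter.2 ⟨hr z', hz'A⟩) (Finset.mem_inter.2 ⟨hsym _ _ hz'w, hw⟩)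
      nz'3.symm nz3.symm hzz.symm
    have hsub : ({c1, c2, c3, w, z'} : Finset V) ⊆ A := by
      intro x hx
      simp only [Finset.mem_insert, Finset.mem_singleton] at hx
      rcases hx with rfl | rfl | rfl | rfl | rfl <;> assumption
    apply no_closed hA hsub ⟨c1, by simp⟩ (lt_of_le_of_lt Finset.card_le_five (by omega))
    intro x hx y hy hyx
    simp only [Finset.mem_insert, Finset.mem_singleton] at hx ⊢
    rcases hx with rfl | rfl | rfl | rfl | rfl
    · rcases N1 y (Finset.mem_inter.2 ⟨hyx, hy⟩) with h | h | h <;> simp [h]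
    · rcases N2 y (Finset.mem_inter.2 ⟨hyx, hy⟩) with h | h | h <;> simp [h]
    · rcases N3 y (Finset.mem_inter.2 ⟨hyx, hy⟩) with h | h | h <;> simp [h]
    · rcases Nz y (Finset.mem_inter.2 ⟨hyx, hy⟩) with h | h | h <;> simp [h]
    · rcases Nz' y (Finset.mem_inter.2 ⟨hyx, hy⟩) with h | h | h <;> simp [h]
  by_cases wz' : w = z'
  · subst wz'
    have Nz := three_mem (h3 z hzA) (Finset.mem_inter.2 ⟨hsym _ _ az, hc1⟩)
      (Finset.mem_inter.2 ⟨hr z, hzA⟩) (Finset.mem_inter.2 ⟨hsym _ _ hzw, hw⟩)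
      nz1.symm nz'1.symm hzz
    have Nz' := three_mem (h3 w hw) (Finset.mem_inter.2 ⟨hsym _ _ az', hc3⟩)
      (Finset.mem_inter.2 ⟨hr w, hw⟩) (Finset.mem_inter.2 ⟨hzw, hzA⟩)
      nz'3.symm nz3.symm hzz.symm
    have hsub : ({c1, c2, c3, z, w} : Finset V) ⊆ A := by
      intro x hx
      simp only [Finset.mem_insert, Finset.mem_singleton] at hx
      rcases hx with rfl | rfl | rfl | rfl | rfl <;> assumption
    apply no_closed hA hsub ⟨c1, by simp⟩ (lt_of_le_of_lt Finset.card_le_five (by omega))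
    intro x hx y hy hyx
    simp only [Finset.mem_insert, Finset.mem_singleton] at hx ⊢
    rcases hx with rfl | rfl | rfl | rfl | rfl
    · rcases N1 y (Finset.mem_inter.2 ⟨hyx, hy⟩) with h | h | h <;> simp [h]
    · rcases N2 y (Finset.mem_inter.2 ⟨hyx, hy⟩) with h | h | h <;> simp [h]
    · rcases N3 y (Finset.mem_inter.2 ⟨hyx, hy⟩) with h | h | h <;> simp [h]
    · rcases Nz y (Finset.mem_inter.2 ⟨hyx, hy⟩) with h | h | h <;> simp [h]
    · rcases Nz' y (Finset.mem_inter.2 ⟨hyx, hy⟩) with h | h | h <;> simp [h]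
  -- a closed set of six vertices
  have Nz := three_mem (h3 z hzA) (Finset.mem_inter.2 ⟨hsym _ _ az, hc1⟩)
    (Finset.mem_inter.2 ⟨hr z, hzA⟩) (Finset.mem_inter.2 ⟨hsym _ _ hzw, hw⟩)
    nz1.symm w1.symm (Ne.symm wz)
  have Nz' := three_mem (h3 z' hz'A) (Finset.mem_inter.2 ⟨hsym _ _ az', hc3⟩)
    (Finset.mem_inter.2 ⟨hr z', hz'A⟩) (Finset.mem_inter.2 ⟨hsym _ _ hz'w, hw⟩)
    nz'3.symm w3.symm (Ne.symm wz')
  have Nw := three_mem (h3 w hw) (Finset.mem_inter.2 ⟨hzw, hzA⟩)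
    (Finset.mem_inter.2 ⟨hr w, hw⟩) (Finset.mem_inter.2 ⟨hz'w, hz'A⟩)
    (Ne.symm wz) hzz wz'
  have hsub : ({c1, c2, c3, z, z', w} : Finset V) ⊆ A := by
    intro x hx
    simp only [Finset.mem_insert, Finset.mem_singleton] at hx
    rcases hx with rfl | rfl | rfl | rfl | rfl | rfl <;> assumption
  apply no_closed hA hsub ⟨c1, by simp⟩ (lt_of_le_of_lt Finset.card_le_six (by omega))
  intro x hx y hy hyx
  simp only [Finset.mem_insert, Finset.mem_singleton] at hx ⊢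
  rcases hx with rfl | rfl | rfl | rfl | rfl | rfl
  · rcases N1 y (Finset.mem_inter.2 ⟨hyx, hy⟩) with h | h | h <;> simp [h]
  · rcases N2 y (Finset.mem_inter.2 ⟨hyx, hy⟩) with h | h | h <;> simp [h]
  · rcases N3 y (Finset.mem_inter.2 ⟨hyx, hy⟩) with h | h | h <;> simp [h]
  · rcases Nz y (Finset.mem_inter.2 ⟨hyx, hy⟩) with h | h | h <;> simp [h]
  · rcases Nz' y (Finset.mem_inter.2 ⟨hyx, hy⟩) with h | h | h <;> simp [h]
  · rcases Nw y (Finset.mem_inter.2 ⟨hyx, hy⟩) with h | h | h <;> simp [h]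

theorem cycle_false (h : Viol N 3 A C) (hex : 7 * gk N A C = 2 * A.card + 1)
    (h5 : 5 ≤ gk N A C) (h3 : ∀ v ∈ A, (N v ∩ A).card = 3) (hC : ∀ v ∈ A, N v ∩ A ∈ C) :
    False := by
  classical
  have hr := h.refl
  have hsym := h.symm
  obtain ⟨z, hz, c1, hc1, c2, hc2, c3, hc3, z', hz', n12, n13, n23, nz1, nz2, nz3, nz'1, nz'2,
    nz'3, hzz, a12, a32, az1, az3, N1, N2, N3, Nw⟩ :=
    cycle_path hr hsym h.conn (by omega) h3
  set T : Finset V := {c1, c2, c3} with hT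
  have hTA : T ⊆ A := by
    intro x hx
    simp only [hT, Finset.mem_insert, Finset.mem_singleton] at hx
    rcases hx with rfl | rfl | rfl <;> assumption
  have hTc : T.card = 3 := by
    rw [hT, Finset.card_insert_of_notMem, Finset.card_insert_of_notMem, Finset.card_singleton]
    · simpa using n23
    · simp [n12, n13]
  set A1 : Finset V := A \ T with hA1
  have hA1c : A1.card + 3 = A.card := by
    rw [hA1, ← hTc]
    exact Finset.card_sdiff_add_card_eq_card hTA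
  have hzT : z ∉ T := by simp [hT, nz1, nz2, nz3]
  have hz'T : z' ∉ T := by simp [hT, nz'1, nz'2, nz'3]
  have hz1 : z ∈ A1 := Finset.mem_sdiff.2 ⟨hz, hzT⟩
  have hz'1 : z' ∈ A1 := Finset.mem_sdiff.2 ⟨hz', hz'T⟩
  have hTout : ∀ t ∈ T, ∀ y ∈ A, y ∈ N t → y ∉ T → y = z ∨ y = z' := by
    intro t ht y hy hyt hyT
    simp only [hT, Finset.mem_insert, Finset.mem_singleton] at ht hyT
    rcases ht with rfl | rfl | rfl
    · rcases N1 y hy hyt with h | h | h <;> tauto
    · rcases N2 y hy hyt with h | h | h <;> tauto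
    · rcases N3 y hy hyt with h | h | h <;> tauto
  have hS1 : Sys N 3 A1 (res C A1) := h.sys.res
  -- the merged system is connected
  have hconn : Conn (mN N z z') (A1.erase z') := by
    refine ⟨⟨z, Finset.mem_erase.2 ⟨hzz, hz1⟩⟩, ?_⟩
    intro B hB hne hneq
    set B0 := A1.filter (fun x => mg z z' x ∈ B) with hB0
    have q1 : B0 ⊆ A1 := Finset.filter_subset _ _
    have q2 : B0.Nonempty := by
      obtain ⟨b, hb⟩ := hne
      have hb' := Finset.mem_erase.1 (hB hb)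
      exact ⟨b, Finset.mem_filter.2 ⟨hb'.2, by rw [mg_ne hb'.1]; exact hb⟩⟩
    have q3 : B0 ≠ A1 := by
      intro hh
      apply hneq
      apply Finset.Subset.antisymm hB
      intro x hx
      have hx' := Finset.mem_erase.1 hx
      have h4 : x ∈ B0 := by rw [hh]; exact hx'.2
      have h5 := (Finset.mem_filter.1 h4).2
      rwa [mg_ne hx'.1] at h5
    -- an edge of `A1` leaving `B0`
    have q4 : ∃ x ∈ B0, ∃ y ∈ A1, y ∉ B0 ∧ y ∈ N x := by
      by_cases hzB : z ∈ B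
      · have m1 : z ∈ B0 := Finset.mem_filter.2 ⟨hz1, by rw [mg_p hzz]; exact hzB⟩
        have m2 : z' ∈ B0 := Finset.mem_filter.2 ⟨hz'1, by rw [mg_q]; exact hzB⟩
        have q5 : B0 ∪ T ≠ A := by
          intro hh
          apply q3
          apply Finset.Subset.antisymm q1
          intro x hx
          have hx' := Finset.mem_sdiff.1 hx
          have : x ∈ B0 ∪ T := by rw [hh]; exact hx'.1
          rcases Finset.mem_union.1 this with hx2 | hx2
          · exact hx2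
          · exact absurd hx2 hx'.2
        obtain ⟨x, hx, y, hy, hyB, hyx⟩ := h.conn.2 (B0 ∪ T)
          (Finset.union_subset (q1.trans Finset.sdiff_subset) hTA)
          (q2.mono Finset.subset_union_left) q5
        rw [Finset.mem_union, not_or] at hyB
        rcases Finset.mem_union.1 hx with hx | hx
        · exact ⟨x, hx, y, Finset.mem_sdiff.2 ⟨hy, hyB.2⟩, hyB.1, hyx⟩
        · exfalso
          rcases hTout x hx y hy hyx hyB.2 with rfl | rfl
          · exact hyB.1 m1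
          · exact hyB.1 m2
      · have m1 : z ∉ B0 := by
          intro hh
          have := (Finset.mem_filter.1 hh).2
          rw [mg_p hzz] at this
          exact hzB this
        have m2 : z' ∉ B0 := by
          intro hh
          have := (Finset.mem_filter.1 hh).2
          rw [mg_q] at this
          exact hzB this
        have q5 : B0 ≠ A := by
          intro hh
          exact m1 (by rw [hh]; exact hz)
        obtain ⟨x, hx, y, hy, hyB, hyx⟩ := h.conn.2 B0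
          (q1.trans Finset.sdiff_subset) q2 q5
        by_cases hyT : y ∈ T
        · exfalso
          have hx' := Finset.mem_sdiff.1 (q1 hx)
          rcases hTout y hyT x hx'.1 (hsym _ _ hyx) hx'.2 with rfl | rfl
          · exact m1 hx
          · exact m2 hx
        · exact ⟨x, hx, y, Finset.mem_sdiff.2 ⟨hy, hyT⟩, hyB, hyx⟩
    obtain ⟨x, hx, y, hy, hyB, hyx⟩ := q4
    refine ⟨mg z z' x, (Finset.mem_filter.1 hx).2, mg z z' y, ?_, ?_, ?_⟩
    · refine Finset.mem_erase.2 ⟨mg_ne_q hzz y, ?_⟩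
      by_cases hyq : y = z'
      · rw [hyq, mg_q]; exact hz1
      · rw [mg_ne hyq]; exact hy
    · intro hh
      exact hyB (Finset.mem_filter.2 ⟨hy, hh⟩)
    · rw [mem_mN hzz (mg_ne_q hzz x)]
      exact ⟨x, y, rfl, rfl, hyx⟩
  -- the bound for the merged system
  have hc1' : (A1.erase z').card + 1 = A1.card := Finset.card_erase_add_one hz'1
  have hb := h.small (mN N z z') (mN_refl hr hzz) (mN_symm hsym hzz) (A1.erase z')
    (mC (res C A1) z z') (by omega) (mC_sys hzz hz1 hS1) hconn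
  obtain ⟨D, hD, hDc, hcase⟩ := merge_cases hr hzz hz1 hz'1 hS1
  have hDs : D.card + 2 ≤ gk N A C := by
    rcases hb with h1 | ⟨h1, h2⟩ | ⟨h1, h2⟩
    · rw [← hDc] at h1
      omega
    · omega
    · omega
  have hDA : D ⊆ A := hD.trans ((Finset.erase_subset _ _).trans Finset.sdiff_subset)
  -- star sets are closed neighbourhoods
  have hst : ∀ S ∈ C, ∃ w ∈ A, S = N w ∩ A := by
    intro S hS
    obtain ⟨c, hc, hcN⟩ := h.sys.cen S hS
    have hcA := h.sys.sub S hS hc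
    refine ⟨c, hcA, Finset.eq_of_subset_of_card_le
      (Finset.subset_inter hcN (h.sys.sub S hS)) ?_⟩
    rw [h3 c hcA, h.sys.card S hS]
  -- a star set meeting `T` is one of the five
  have hmeet : ∀ S ∈ C, ¬ S ⊆ A1 → ∃ w, S = N w ∩ A ∧
      (w = z ∨ w = c1 ∨ w = c2 ∨ w = c3 ∨ w = z') := by
    intro S hS hn
    rw [Finset.not_subset] at hn
    obtain ⟨t, ht, htn⟩ := hn
    obtain ⟨w, hw, rfl⟩ := hst S hS
    obtain ⟨htw, htA⟩ := Finset.mem_inter.1 ht
    have htT : t ∈ T := by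
      by_contra hh
      exact htn (Finset.mem_sdiff.2 ⟨htA, hh⟩)
    refine ⟨w, rfl, ?_⟩
    by_cases hwT : w ∈ T
    · simp only [hT, Finset.mem_insert, Finset.mem_singleton] at hwT
      tauto
    · rcases hTout t htT w hw (hsym _ _ htw) hwT with h | h <;> tauto
  have hins : ∀ x ∈ A, Kills N (insert x D) C → False := by
    intro x hx hk
    have h1 := gk_le (Finset.insert_subset hx hDA) hk
    have h2 := Finset.card_insert_le x D
    omega
  have iz := Finset.mem_inter.2 (And.intro (hr z) hz)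
  rcases hcase with ⟨zD, hk⟩ | ⟨zD, hk⟩ | ⟨zD, hd, hnd, hk⟩ | ⟨zD, hd, hnd, hk⟩
  · apply hins z' hz'
    intro S hS
    by_cases hSA : S ⊆ A1
    · exact hk S (mem_res.2 ⟨hS, hSA⟩)
    · have zI : z ∈ insert z' D := Finset.mem_insert_of_mem zD
      have zI' : z' ∈ insert z' D := Finset.mem_insert_self _ _
      obtain ⟨w, rfl, hw⟩ := hmeet S hS hSA
      rcases hw with rfl | rfl | rfl | rfl | rfl
      · exact ⟨w, zI, w, Finset.mem_inter.2 ⟨hr w, hz⟩, hr w⟩
      · exact ⟨z, zI, z, Finset.mem_inter.2 ⟨az1, hz⟩, hr z⟩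
      · exact ⟨z, zI, c1, Finset.mem_inter.2 ⟨a12, hc1⟩, hsym _ _ az1⟩
      · exact ⟨z', zI', z', Finset.mem_inter.2 ⟨az3, hz'⟩, hr z'⟩
      · exact ⟨w, zI', w, Finset.mem_inter.2 ⟨hr w, hz'⟩, hr w⟩
  · apply hins c2 hc2
    intro S hS
    have cI : c2 ∈ insert c2 D := Finset.mem_insert_self _ _
    by_cases hSA : S ⊆ A1
    · by_contra hn
      have hn' : ¬ Hit N D S := fun hh => hn (hh.mono (Finset.subset_insert _ _))
      obtain ⟨m1, m2⟩ := hk S (mem_res.2 ⟨hS, hSA⟩) hn'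
      obtain ⟨w, hw, rfl⟩ := hst S hS
      have hwc2 : w ≠ c2 := by
        rintro rfl
        have := hSA (Finset.mem_inter.2 ⟨hr w, hw⟩)
        exact (Finset.mem_sdiff.1 this).2 (by simp [hT])
      exact Nw w hw hwc2 (Finset.mem_inter.1 m1).1 (Finset.mem_inter.1 m2).1
    · obtain ⟨w, rfl, hw⟩ := hmeet S hS hSA
      rcases hw with rfl | rfl | rfl | rfl | rfl
      · exact ⟨c2, cI, c1, Finset.mem_inter.2 ⟨hsym _ _ az1, hc1⟩, a12⟩
      · exact ⟨c2, cI, w, Finset.mem_inter.2 ⟨hr w, hc1⟩, a12⟩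
      · exact ⟨w, cI, w, Finset.mem_inter.2 ⟨hr w, hc2⟩, hr w⟩
      · exact ⟨c2, cI, w, Finset.mem_inter.2 ⟨hr w, hc3⟩, a32⟩
      · exact ⟨c2, cI, c3, Finset.mem_inter.2 ⟨hsym _ _ az3, hc3⟩, a32⟩
  · apply hins c3 hc3
    intro S hS
    have cI : c3 ∈ insert c3 D := Finset.mem_insert_self _ _
    by_cases hSA : S ⊆ A1
    · by_cases hH : Hit N D S
      · exact hH.mono (Finset.subset_insert _ _)
      · obtain ⟨m1, m2⟩ := hk S (mem_res.2 ⟨hS, hSA⟩) hH
        exact ⟨c3, cI, z', m1, az3⟩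
    · obtain ⟨d, hdD, hzd⟩ := hd
      have dI : d ∈ insert c3 D := Finset.mem_insert_of_mem hdD
      obtain ⟨w, rfl, hw⟩ := hmeet S hS hSA
      rcases hw with rfl | rfl | rfl | rfl | rfl
      · exact ⟨d, dI, w, Finset.mem_inter.2 ⟨hr w, hz⟩, hzd⟩
      · exact ⟨d, dI, z, Finset.mem_inter.2 ⟨az1, hz⟩, hzd⟩
      · exact ⟨c3, cI, c3, Finset.mem_inter.2 ⟨a32, hc3⟩, hr c3⟩
      · exact ⟨w, cI, w, Finset.mem_inter.2 ⟨hr w, hc3⟩, hr w⟩
      · exact ⟨c3, cI, c3, Finset.mem_inter.2 ⟨hsym _ _ az3, hc3⟩, hr c3⟩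
  · apply hins c1 hc1
    intro S hS
    have cI : c1 ∈ insert c1 D := Finset.mem_insert_self _ _
    by_cases hSA : S ⊆ A1
    · by_cases hH : Hit N D S
      · exact hH.mono (Finset.subset_insert _ _)
      · obtain ⟨m1, m2⟩ := hk S (mem_res.2 ⟨hS, hSA⟩) hH
        exact ⟨c1, cI, z, m1, az1⟩
    · obtain ⟨d, hdD, hzd⟩ := hd
      have dI : d ∈ insert c1 D := Finset.mem_insert_of_mem hdD
      obtain ⟨w, rfl, hw⟩ := hmeet S hS hSA
      rcases hw with rfl | rfl | rfl | rfl | rfl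
      · exact ⟨c1, cI, c1, Finset.mem_inter.2 ⟨hsym _ _ az1, hc1⟩, hr c1⟩
      · exact ⟨w, cI, w, Finset.mem_inter.2 ⟨hr w, hc1⟩, hr w⟩
      · exact ⟨c1, cI, c1, Finset.mem_inter.2 ⟨a12, hc1⟩, hr c1⟩
      · exact ⟨d, dI, z', Finset.mem_inter.2 ⟨az3, hz'⟩, hzd⟩
      · exact ⟨d, dI, w, Finset.mem_inter.2 ⟨hr w, hz'⟩, hzd⟩

end Pool.Agent.Star.Rig
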