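import Pool.Agent.Star.T3c
import Pool.Agent.Star.MC1

/-!
# Star systems with `K = 3`: all degrees of a minimal violator are at most two (part 4)
-/

set_option autoImplicit false
set_option linter.unusedSectionVars false
set_option linter.unusedVariables false

namespace Pool.Agent.Star.Rig

open Finset

variable {V : Type*} [DecidableEq V]

section
variable {N : V → Finset V} {A : Finset V} {C F : Finset (Finset V)}

/-- A star set is an exceptional system. -/
lemma typ_star {K : ℕ} (hs : ∀ x, x ∈ N x) (hS : Sys N K A C) {T : Finset V} (hT : T ∈ C) :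
    Typ N K T (res C T) := by
  obtain ⟨c, hc, hcN⟩ := hS.cen T hT
  refine Or.inl ⟨hS.card T hT, ?_⟩
  have h1 : gk N T (res C T) ≤ ({c} : Finset V).card :=
    gk_le (Finset.singleton_subset_iff.2 hc) (fun S hSC => by
      obtain ⟨x, hx⟩ := hS.nonempty (mem_res.1 hSC).1
      exact ⟨c, Finset.mem_singleton_self c, x, hx, hcN ((mem_res.1 hSC).2 hx)⟩)
  rw [Finset.card_singleton] at h1
  have h2 : gk N T (res C T) ≠ 0 := by
    intro h0
    obtain ⟨D, d1, d2, d3⟩ := exists_gk (N := N) hs (A := T) (C := res C T)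
      (fun S hSC => (mem_res.1 hSC).2) (fun S hSC => hS.nonempty (mem_res.1 hSC).1)
    rw [h0, Finset.card_eq_zero] at d3
    obtain ⟨e, he, _⟩ := d2 T (mem_res.2 ⟨hT, Finset.Subset.refl _⟩)
    rw [d3] at he
    exact absurd he (Finset.notMem_empty e)
  omega

/-- The case of three gates: there are no other components. -/
lemma Viol.e3_three (h : Viol N 3 A C) (hex : (2 * 3 + 1) * gk N A C = 2 * A.card + 1)
    {z : V} (hz : z ∈ A) (hd : (nbr N A z).card = 3)
    (hF : Comps N (A \ insert z (nbr N A z)) F) {L : Finset V} (hLF : L ∈ F)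
    (b : Blk N 3 L (res C L)) (hL : ∀ g ∈ nbr N A z, ∃ x ∈ L, x ∈ N g)
    (honly : ∀ U ∈ F, U ≠ L → ¬ Typ N 3 U (res C U)) :
    ∀ X ∈ F, X = L := by
  classical
  intro X hX
  by_contra hXL
  have hQA : insert z (nbr N A z) ⊆ A := Finset.insert_subset hz
    (fun x hx => (mem_nbr.1 hx).2.2)
  obtain ⟨h1, -, -, -⟩ := h.deg hex hz (fun r hr => (mem_nbr.1 hr).2.2)
    (fun r hr => (mem_nbr.1 hr).2.1) (fun hh => (mem_nbr.1 hh).1 rfl) (by omega) hF
  have hss : ∀ U ∈ F, U ⊂ A := fun U hU => Finset.ssubset_of_subset_of_ssubset (hF.cl U hU).1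
    (Finset.sdiff_ssubset hQA (Finset.insert_nonempty _ _))
  have hrf : ∑ U ∈ F, gk N U (res (far N C {z}) U) = ∑ U ∈ F, gk N U (res C U) :=
    Finset.sum_congr rfl (fun U hU => by rw [res_far_eq (out_nbr h.refl hz (hF.cl U hU).1)])
  rw [hrf] at h1
  -- tightness
  have hle : ∀ U ∈ F.erase L, (2 * 3 + 1) * gk N U (res C U) ≤ 2 * U.card := by
    intro U hU
    obtain ⟨hUL, hUF⟩ := Finset.mem_erase.1 hU
    exact bd_exc (h.hE U (hss U hUF) _ (Finset.filter_subset _ _) h.sys.res (hF.conn U hUF))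
      (honly U hUF hUL)
  have hzn : z ∉ nbr N A z := fun hh => (mem_nbr.1 hh).1 rfl
  have hcA : (A \ insert z (nbr N A z)).card + 4 = A.card := by
    have := Finset.card_sdiff_add_card_eq_card hQA
    rw [Finset.card_insert_of_notMem hzn, hd] at this
    exact this
  have hcF := hF.card
  rw [← Finset.sum_erase_add F _ hLF, b.card] at hcF
  rw [← Finset.sum_erase_add F _ hLF, b.two] at h1
  have hsum : ∑ U ∈ F.erase L, (2 * 3 + 1) * gk N U (res C U) =
      ∑ U ∈ F.erase L, 2 * U.card := by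
    rw [← Finset.mul_sum, ← Finset.mul_sum]
    have := Finset.sum_le_sum hle
    rw [← Finset.mul_sum, ← Finset.mul_sum] at this
    omega
  have htight := (Finset.sum_eq_sum_iff_of_le hle).1 hsum X (Finset.mem_erase.2 ⟨hXL, hX⟩)
  -- the component `X`
  have hXA : X ⊆ A := (hss X hX).1
  have hXz := out_nbr h.refl hz (hF.cl X hX).1
  have hEX : ∀ A' ⊂ X, ∀ C' ⊆ res C X, Sys N 3 A' C' → Conn N A' → Bd N 3 A' C' :=
    fun A' hA' C' hC' => h.hE A' (hA'.trans (hss X hX)) C' (hC'.trans (Finset.filter_subset _ _))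
  have hSX : Sys N 3 X (res C X) := h.sys.res
  have hout : ∀ x ∈ X, ∀ y ∈ A, y ∉ X → y ∈ N x → y ∈ nbr N A z := by
    intro x hx y hy hyX hyx
    by_contra hyR
    refine hyX ((hF.cl X hX).2 x hx y (Finset.mem_sdiff.2 ⟨hy, fun hh => ?_⟩) hyx)
    rcases Finset.mem_insert.1 hh with rfl | hh
    · exact hXz x hx (h.symm _ _ hyx)
    · exact hyR hh
  have hnc : ∀ x ∈ X, (∃ g ∈ nbr N A z, x ∈ N g) →
      gk N X (res (res C X) (X.erase x)) = gk N X (res C X) := by
    rintro x hx ⟨g, hg, hxg⟩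
    exact h.e3_noncrit hex hz (by omega) hF hLF b hg (hL g hg) hX hXL hx hxg
  -- the rigid structure at a non-critical vertex
  have hrig : ∀ x ∈ X, gk N X (res (res C X) (X.erase x)) = gk N X (res C X) →
      ∃ (Z : Finset V) (P : Finset (Finset V)) (zf : Finset V → V),
        Rigid N 3 X (res C X) Z P zf ∧ x ∈ Z ∧ ∀ U ∈ P, U.card = 2 * 3 := by
    intro x hx hxx
    obtain ⟨Z, P, zf, r, hxZ, hcnt⟩ := rigid h.refl h.symm (by omega) hSX (hF.conn X hX) hEX hx
      hxx (by omega)
    refine ⟨Z, P, zf, r, hxZ, ?_⟩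
    have h7 : (P.filter (fun U => U.card = 3)).card = 0 := by omega
    rw [Finset.card_eq_zero, Finset.filter_eq_empty_iff] at h7
    intro U hU
    rcases r.typ U hU with ⟨h8, _⟩ | ⟨h8, _⟩
    · exact absurd h8 (h7 hU)
    · exact h8
  obtain ⟨g0, hg0, x, hx, hxg0⟩ := hF.adj h.symm h.conn hQA (Finset.insert_nonempty _ _) hX
  have hg0' : g0 ∈ nbr N A z := by
    rcases Finset.mem_insert.1 hg0 with rfl | hh
    · exact absurd hxg0 (hXz x hx)
    · exact hh
  obtain ⟨Z, P, zf, r, hxZ, hP⟩ := hrig x hx (hnc x hx ⟨g0, hg0', hxg0⟩)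
  obtain ⟨U, hU, hzU⟩ := r.surj x hxZ
  have hUX : U ⊆ X := (r.comps.cl U hU).1.trans Finset.sdiff_subset
  have hUT : Typ N 3 U (res C U) := by
    have h8 := r.typ U hU
    have h9 : res (res C X) U = res C U := by
      ext S
      rw [mem_res, mem_res, mem_res]
      exact ⟨fun hh => ⟨hh.1.1, hh.2⟩, fun hh => ⟨⟨hh.1, hh.2.trans hUX⟩, hh.2⟩⟩
    rwa [h9] at h8
  -- a second vertex touching the block
  obtain ⟨u, huU, y, hyA, hyU, hyx, hyu⟩ : ∃ u ∈ U, ∃ y ∈ A, y ∉ U ∧ y ≠ x ∧ y ∈ N u := by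
    by_contra hcon
    push Not at hcon
    apply h.cut hex (hXA hx) (r.comps.conn U hU) ?_ hUT
    have hxU : x ∉ U := fun hh => (Finset.mem_sdiff.1 ((r.comps.cl U hU).1 hh)).2 hxZ
    refine ⟨fun a ha => Finset.mem_sdiff.2 ⟨hXA (hUX ha), ?_⟩, ?_⟩
    · rw [Finset.mem_singleton]
      rintro rfl
      exact hxU ha
    · intro a ha y hy hya
      rw [Finset.mem_sdiff, Finset.mem_singleton] at hy
      by_contra hyU
      exact hcon a ha y hy.1 hyU hy.2 hya
  have huX := hUX huU
  have hyX : y ∉ X := by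
    intro hyX
    have := r.only U hU u huU y hyX hyU hyu
    rw [hzU] at this
    exact hyx this
  have hyR := hout u huX y hyA hyX hyu
  have huZ : u ∉ Z := (Finset.mem_sdiff.1 ((r.comps.cl U hU).1 huU)).2
  have hZ1 := hub_only h.refl h.symm (by omega) hSX (hF.conn X hX) hEX htight r hP huX huZ
    (hnc u huX ⟨y, hyR, h.symm _ _ hyu⟩)
  have hZc : Z.card = 1 := le_antisymm hZ1 (Finset.card_pos.2 ⟨x, hxZ⟩)
  have hX7 : X.card = 7 := by
    have := r.cardX hP
    rw [hZc] at this
    omega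
  -- deleting a non-critical vertex leaves a block
  have hblk : ∀ v ∈ X, gk N X (res (res C X) (X.erase v)) = gk N X (res C X) →
      Blk N 3 (X \ {v}) (res C (X \ {v})) := by
    intro v hv hvv
    obtain ⟨Zv, Pv, zv, rv, hvZ, hPv⟩ := hrig v hv hvv
    have h8 := rv.cardX hPv
    rw [hX7] at h8
    have h9 : Zv.card = 1 := by omega
    have h10 : Zv = {v} := by
      obtain ⟨w, hw⟩ := Finset.card_eq_one.1 h9
      rw [hw, Finset.mem_singleton] at hvZ
      rw [hw, hvZ]
    obtain ⟨W, hW, hWz⟩ := rv.surj v hvZ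
    have h11 : W ⊆ X \ {v} := by rw [← h10]; exact (rv.comps.cl W hW).1
    have h12 : (X \ {v}).card + 1 = X.card := by
      have := Finset.card_sdiff_add_card_eq_card (Finset.singleton_subset_iff.2 hv)
      rwa [Finset.card_singleton] at this
    have h13 : W = X \ {v} := Finset.eq_of_subset_of_card_le h11 (by rw [hPv W hW]; omega)
    have h14 : res (res C X) (X \ {v}) = res C (X \ {v}) := by
      ext S
      rw [mem_res, mem_res, mem_res]
      exact ⟨fun hh => ⟨hh.1.1, hh.2⟩, fun hh => ⟨⟨hh.1, hh.2.trans Finset.sdiff_subset⟩, hh.2⟩⟩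
    have h15 := rv.typ W hW
    have h16 := rv.comps.conn W hW
    have h17 := hPv W hW
    rw [h13] at h15 h16 h17
    rw [h14] at h15
    refine ⟨h.refl, h.symm, h.sys.res, h16, h17, ?_⟩
    rcases h15 with ⟨h18, _⟩ | ⟨_, h18⟩
    · omega
    · exact h18
  have hEv : ∀ v : V, ∀ A' ⊂ X \ {v}, ∀ C' ⊆ res C (X \ {v}), Sys N 3 A' C' → Conn N A' →
      Bd N 3 A' C' := fun v A' hA' C' hC' =>
    h.hE A' ((Finset.ssubset_of_ssubset_of_subset hA' Finset.sdiff_subset).trans (hss X hX)) C'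
      (hC'.trans (Finset.filter_subset _ _))
  have hxnc := hnc x hx ⟨g0, hg0', hxg0⟩
  have bx := hblk x hx hxnc
  have hZx : Z = {x} := by
    obtain ⟨w, hw⟩ := Finset.card_eq_one.1 hZc
    rw [hw, Finset.mem_singleton] at hxZ
    rw [hw, hxZ]
  obtain ⟨w, hwU, hwx⟩ := r.adj U hU
  rw [hzU] at hwx
  have hwX := hUX hwU
  have hwne : w ≠ x := by
    rintro rfl
    exact (Finset.mem_sdiff.1 ((r.comps.cl U hU).1 hwU)).2 hxZ
  have hwXx : w ∈ X \ {x} := Finset.mem_sdiff.2 ⟨hwX, by simpa using hwne⟩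
  have hxw : x ∈ N w := h.symm _ _ hwx
  have hN3 := bx.nb3 (hEv x) hwXx
  have hNX : (N w ∩ X).card = 4 := by
    have h8 : N w ∩ X = insert x (N w ∩ (X \ {x})) := by
      ext a
      simp only [Finset.mem_inter, Finset.mem_insert, Finset.mem_sdiff, Finset.mem_singleton]
      constructor
      · rintro ⟨h9, h10⟩
        by_cases hax : a = x
        · exact Or.inl hax
        · exact Or.inr ⟨h9, h10, hax⟩
      · rintro (rfl | ⟨h9, h10, _⟩)
        · exact ⟨hxw, hx⟩
        · exact ⟨h9, h10⟩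
    rw [h8, Finset.card_insert_of_notMem (by simp), hN3]
  -- touched vertices are neighbours of `w`
  have htw : ∀ v ∈ X, (∃ g ∈ nbr N A z, v ∈ N g) → v ∈ N w := by
    intro v hv hvg
    by_cases hvw : v = w
    · rw [hvw]; exact h.refl w
    · by_contra hvN
      have bv := hblk v hv (hnc v hv hvg)
      have h8 := bv.nb3 (hEv v) (Finset.mem_sdiff.2 ⟨hwX, by simpa using Ne.symm hvw⟩)
      have h9 : N w ∩ (X \ {v}) = N w ∩ X := by
        ext a
        simp only [Finset.mem_inter, Finset.mem_sdiff, Finset.mem_singleton]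
        constructor
        · rintro ⟨h9, h10, _⟩
          exact ⟨h9, h10⟩
        · rintro ⟨h9, h10⟩
          refine ⟨h9, h10, ?_⟩
          rintro rfl
          exact hvN h9
      rw [h9] at h8
      omega
  have hdw : 3 ≤ (nbr N A w).card := by
    have h8 : (N w ∩ X).erase w ⊆ nbr N A w := by
      intro a ha
      rw [Finset.mem_erase, Finset.mem_inter] at ha
      exact mem_nbr.2 ⟨ha.1, ha.2.1, hXA ha.2.2⟩
    have h9 := Finset.card_le_card h8
    rw [Finset.card_erase_of_mem (Finset.mem_inter.2 ⟨h.refl w, hwX⟩), hNX] at h9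
    exact h9
  -- the star set missed by `w`
  obtain ⟨T, hT, hTw⟩ := bx.miss hwXx
  have hTC := (mem_res.1 hT).1
  have hTX := (mem_res.1 hT).2
  have hTc : T.card = 3 := h.sys.card T hTC
  have hTeq : T = (X \ {x}) \ N w := by
    apply Finset.eq_of_subset_of_card_le
    · intro a ha
      exact Finset.mem_sdiff.2 ⟨hTX ha, hTw a ha⟩
    · have h8 : ((X \ {x}) \ N w).card + (N w ∩ (X \ {x})).card = (X \ {x}).card := by
        rw [Finset.inter_comm]
        exact Finset.card_sdiff_add_card_inter _ _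
      have h9 := bx.card
      omega
  have hTA : T ⊆ A := fun a ha => hXA (Finset.mem_sdiff.1 (hTX ha)).1
  have hTcl : Closed N T (A \ insert w (nbr N A w)) := by
    refine ⟨fun a ha => Finset.mem_sdiff.2 ⟨hTA ha, ?_⟩, ?_⟩
    · rw [insert_nbr h.refl (hXA hwX)]
      exact fun hh => hTw a ha (Finset.mem_inter.1 hh).1
    · intro a ha y hy hya
      rw [insert_nbr h.refl (hXA hwX), Finset.mem_sdiff] at hy
      have hyN : y ∉ N w := fun hh => hy.2 (Finset.mem_inter.2 ⟨hh, hy.1⟩)
      have haX := (Finset.mem_sdiff.1 (hTX ha)).1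
      by_cases hyX' : y ∈ X
      · rw [hTeq]
        refine Finset.mem_sdiff.2 ⟨Finset.mem_sdiff.2 ⟨hyX', ?_⟩, hyN⟩
        rw [Finset.mem_singleton]
        rintro rfl
        exact hyN hxw
      · exfalso
        have h8 := hout a haX y hy.1 hyX' hya
        exact hTw a ha (htw a haX ⟨y, h8, h.symm _ _ hya⟩)
  obtain ⟨c, hc, hcN⟩ := h.sys.cen T hTC
  have hTconn : Conn N T := conn_star h.symm hc (fun a ha => hcN ha)
  have := h.e3_no_a hex (hXA hwX) hdw hTconn hTcl (typ_star h.refl h.sys hTC)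
  omega

/-- All degrees of a minimal violator with `K = 3` are at most two. -/
theorem Viol.e3_deg2 (h : Viol N 3 A C) (hex : (2 * 3 + 1) * gk N A C = 2 * A.card + 1)
    (h5 : 5 ≤ gk N A C) {z : V} (hz : z ∈ A) : (nbr N A z).card ≤ 2 := by
  classical
  by_contra hcon
  push Not at hcon
  obtain ⟨F, hF⟩ := exists_comps (N := N) h.symm (A \ insert z (nbr N A z))
  obtain ⟨hblk, hcases⟩ := h.e3_blocks hex hz hcon hF
  have hle : (nbr N A z).card ≤ 4 := by omega
  have hRA : nbr N A z ⊆ A := fun x hx => (mem_nbr.1 hx).2.2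
  have hQA : insert z (nbr N A z) ⊆ A := Finset.insert_subset hz hRA
  obtain ⟨h1, h2, h3, h4⟩ := h.deg hex hz (fun r hr => (mem_nbr.1 hr).2.2)
    (fun r hr => (mem_nbr.1 hr).2.1) (fun hh => (mem_nbr.1 hh).1 rfl) (by omega) hF
  set X := exc N 3 (far N C {z}) F with hX
  have htwo : ∀ U ∈ X, 2 ≤ ((nbr N A z).filter (fun r => ∃ x ∈ U, x ∈ N r)).card := by
    intro U hU
    obtain ⟨r, hr, r', hr', hne, h5, h6⟩ := h.two_touch hex hz hRA hF hU
    have h7 : ({r, r'} : Finset V) ⊆ (nbr N A z).filter (fun r => ∃ x ∈ U, x ∈ N r) := by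
      intro y hy
      rcases Finset.mem_insert.1 hy with rfl | hy
      · exact Finset.mem_filter.2 ⟨hr, h5⟩
      · rw [Finset.mem_singleton.1 hy]
        exact Finset.mem_filter.2 ⟨hr', h6⟩
    have := Finset.card_le_card h7
    rwa [Finset.card_pair hne] at this
  have hdc : ∑ U ∈ X, ((nbr N A z).filter (fun r => ∃ x ∈ U, x ∈ N r)).card ≤
      (nbr N A z).card := by
    have h6 : ∑ r ∈ nbr N A z, (X.filter (fun U => ∃ x ∈ U, x ∈ N r)).card =
        ∑ U ∈ X, ((nbr N A z).filter (fun r => ∃ x ∈ U, x ∈ N r)).card := by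
      simp only [Finset.card_filter]
      exact Finset.sum_comm
    rw [← h6]
    calc ∑ r ∈ nbr N A z, (X.filter (fun U => ∃ x ∈ U, x ∈ N r)).card
        ≤ ∑ r ∈ nbr N A z, 1 := Finset.sum_le_sum h4
      _ = (nbr N A z).card := by rw [Finset.sum_const, smul_eq_mul, Nat.mul_one]
  -- a block with exactly two gates is impossible
  have hno2 : ∀ U ∈ X, ((nbr N A z).filter (fun r => ∃ x ∈ U, x ∈ N r)).card ≠ 2 := by
    intro U hU hc2
    obtain ⟨g1, g2, hne, heq⟩ := Finset.card_eq_two.1 hc2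
    have hUF := (mem_exc.1 hU).1
    have hcl := hF.cl U hUF
    have hUA : U ⊆ A := hcl.1.trans Finset.sdiff_subset
    have hUz := out_nbr h.refl hz hcl.1
    have hg1 : g1 ∈ (nbr N A z).filter (fun r => ∃ x ∈ U, x ∈ N r) := by rw [heq]; simp
    have hg2 : g2 ∈ (nbr N A z).filter (fun r => ∃ x ∈ U, x ∈ N r) := by rw [heq]; simp
    rw [Finset.mem_filter] at hg1 hg2
    have hRU : ∀ g ∈ nbr N A z, g ∈ A \ U := by
      intro g hg
      refine Finset.mem_sdiff.2 ⟨hRA hg, fun hgU => ?_⟩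
      exact (Finset.mem_sdiff.1 (hcl.1 hgU)).2 (Finset.mem_insert_of_mem hg)
    have hQconn : Conn N (insert z (nbr N A z)) := by
      rw [insert_nbr h.refl hz]
      exact conn_star h.symm (Finset.mem_inter.2 ⟨h.refl z, hz⟩)
        (fun x hx => (Finset.mem_inter.1 hx).1)
    have hUne : U ≠ A := by
      rintro rfl
      exact (Finset.mem_sdiff.1 (hcl.1 hz)).2 (Finset.mem_insert_self _ _)
    refine h.two_gates hex h5 hUA hUne (hblk U hU)
      (MC.conn_compl h.symm h.conn hQA hQconn hcl) hne (hRU g1 hg1.1) (hRU g2 hg2.1)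
      hg1.2 hg2.2 ?_
    intro x hx y hy hyx
    rw [Finset.mem_sdiff] at hy
    have hyR : y ∈ nbr N A z := by
      by_contra hyR
      refine hy.2 (hcl.2 x hx y (Finset.mem_sdiff.2 ⟨hy.1, fun hh => ?_⟩) hyx)
      rcases Finset.mem_insert.1 hh with rfl | hh
      · exact hUz x hx (h.symm _ _ hyx)
      · exact hyR hh
    have : y ∈ (nbr N A z).filter (fun r => ∃ x ∈ U, x ∈ N r) :=
      Finset.mem_filter.2 ⟨hyR, x, hx, h.symm _ _ hyx⟩
    rw [heq] at this
    simpa using this
  rcases hcases with ⟨hd, hX1⟩ | ⟨hd, hX2⟩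
  · -- three neighbours
    obtain ⟨L, hL⟩ := Finset.card_eq_one.1 hX1
    have hLX : L ∈ X := by rw [hL]; exact Finset.mem_singleton_self L
    have hLF := (mem_exc.1 hLX).1
    have h6 := htwo L hLX
    have h7 := hno2 L hLX
    have h8 : ((nbr N A z).filter (fun r => ∃ x ∈ L, x ∈ N r)).card ≤ (nbr N A z).card :=
      Finset.card_filter_le _ _
    have h9 : (nbr N A z).filter (fun r => ∃ x ∈ L, x ∈ N r) = nbr N A z :=
      Finset.eq_of_subset_of_card_le (Finset.filter_subset _ _) (by omega)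
    have hall := h.e3_three hex hz hd hF hLF (hblk L hLX)
      (fun g hg => by
        rw [← h9] at hg
        exact (Finset.mem_filter.1 hg).2)
      (fun U hU hUL hT => by
        have : U ∈ X := mem_exc.2 ⟨hU, by
          rw [res_far_eq (out_nbr h.refl hz (hF.cl U hU).1)]; exact hT⟩
        rw [hL, Finset.mem_singleton] at this
        exact hUL this)
    have hFL : F = {L} := by
      ext U
      rw [Finset.mem_singleton]
      exact ⟨fun hU => hall U hU, fun hU => hU ▸ hLF⟩
    have hcF := hF.card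
    rw [hFL, Finset.sum_singleton, (hblk L hLX).card] at hcF
    have hcA := Finset.card_sdiff_add_card_eq_card hQA
    rw [Finset.card_insert_of_notMem (fun hh => (mem_nbr.1 hh).1 rfl), hd] at hcA
    omega
  · obtain ⟨L, L', hne, hL⟩ := Finset.card_eq_two.1 hX2
    rw [hL, Finset.sum_pair hne] at hdc
    have hLX : L ∈ X := by rw [hL]; simp
    have hLX' : L' ∈ X := by rw [hL]; simp
    have h6 := htwo L hLX
    have h7 := hno2 L hLX
    have h8 := htwo L' hLX'
    omega

end

end Pool.Agent.Star.Rig
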