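import Pool.Agent.Star.Red1
import Pool.Agent.Star.Glue

/-!
# The wrapper: the threshold theorem from the open statements on star systems

`EV V K` is the claim E for star systems on `V`.  It implies the statement of the threshold
problem (`main_of_E`).  `reduce` collects the reduction of a minimal violator: it has a plain end,
whose rest is a tight near-connected system which is vertex-critical or rigid.
-/

set_option autoImplicit false
set_option linter.unusedSectionVars false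
set_option linter.unusedVariables false

namespace Pool.Agent.Star.Rig

open Finset

/-- The claim E for the star systems on `V`. -/
def EV (V : Type*) [DecidableEq V] (K : ℕ) : Prop :=
  ∀ N : V → Finset V, (∀ x, x ∈ N x) → (∀ x y, x ∈ N y → y ∈ N x) →
    ∀ (A : Finset V) (C : Finset (Finset V)), Sys N K A C → Conn N A → Bd N K A C

section
variable {V : Type*} [DecidableEq V] {N : V → Finset V} {K : ℕ} {A : Finset V}
  {C : Finset (Finset V)}

open Classical in
/-- All star sets in `A`. -/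
noncomputable def stars (N : V → Finset V) (K : ℕ) (A : Finset V) : Finset (Finset V) :=
  A.powerset.filter (fun S => S.card = K ∧ ∃ c ∈ S, S ⊆ N c)

lemma mem_stars {S : Finset V} :
    S ∈ stars N K A ↔ S ⊆ A ∧ S.card = K ∧ ∃ c ∈ S, S ⊆ N c := by
  classical
  unfold stars
  rw [Finset.mem_filter, Finset.mem_powerset]

lemma stars_sys : Sys N K A (stars N K A) :=
  ⟨fun _ h => (mem_stars.1 h).1, fun _ h => (mem_stars.1 h).2.1, fun _ h => (mem_stars.1 h).2.2⟩

/-- The isolation number is at most the killing number of all star sets. -/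
lemma f_le_gk (hs : ∀ x, x ∈ N x) (hK : 1 ≤ K) : f N K A ≤ gk N A (stars N K A) := by
  obtain ⟨D, hD, hDk, hDc⟩ := exists_gk (N := N) hs (A := A) (C := stars N K A) stars_sys.sub
    (fun S hS => stars_sys.nonempty hS)
  rw [← hDc]
  apply f_le
  refine ⟨hD, ?_⟩
  intro v hv
  by_contra hcon
  push Not at hcon
  have h1 : ({v} : Finset V) ⊆ N v ∩ rem N A D :=
    Finset.singleton_subset_iff.2 (Finset.mem_inter.2 ⟨hs v, hv⟩)
  obtain ⟨S, hvS, hSs, hSc⟩ := Finset.exists_subsuperset_card_eq h1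
    (by rw [Finset.card_singleton]; exact hK) hcon
  have hS : S ∈ stars N K A := mem_stars.2 ⟨fun x hx =>
    (mem_rem.1 (Finset.mem_inter.1 (hSs hx)).2).1, hSc, v,
    hvS (Finset.mem_singleton_self v), fun x hx => (Finset.mem_inter.1 (hSs hx)).1⟩
  obtain ⟨d, hd, x, hx, hxd⟩ := hDk S hS
  exact (mem_rem.1 (Finset.mem_inter.1 (hSs hx)).2).2 d hd hxd

/-- The bound for all connected sets with more than `2K` elements, from E. -/
lemma upper_of_E (hE : EV V K) (hs : ∀ x, x ∈ N x) (hsym : ∀ x y, x ∈ N y → y ∈ N x)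
    (hK : 1 ≤ K) (hA : Conn N A) (hn : 2 * K < A.card) :
    (2 * K + 1) * f N K A ≤ 2 * A.card := by
  have h1 := Nat.mul_le_mul_left (2 * K + 1) (f_le_gk (A := A) hs hK)
  rcases hE N hs hsym A (stars N K A) stars_sys hA with h2 | ⟨h2, _⟩ | ⟨h2, _⟩
  · omega
  · omega
  · omega

end

/-- The statement of the threshold problem, from E. -/
theorem main_of_E (H : ∀ K : ℕ, 3 ≤ K → ∀ n : ℕ, EV (Fin n) K) :
    ∀ k : ℕ, 2 ≤ k →
      (∃ N : ℕ, ∀ n : ℕ, N ≤ n → ∀ G : SimpleGraph (Fin n), G.Connected →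
        ∃ S : Finset (Fin n), S.card ≤ 2 * n / (2 * k + 3) ∧
          ∀ v : Fin n, (v ∉ S ∧ ∀ s ∈ S, ¬ G.Adj s v) →
            {w : Fin n | G.Adj v w ∧ w ∉ S ∧ ∀ s ∈ S, ¬ G.Adj s w}.ncard < k) ∧
      (∀ N : ℕ, ∃ n : ℕ, N ≤ n ∧ ∃ G : SimpleGraph (Fin n), G.Connected ∧
        (∃ S : Finset (Fin n), S.card = 2 * n / (2 * k + 3) ∧
          ∀ v : Fin n, (v ∉ S ∧ ∀ s ∈ S, ¬ G.Adj s v) →
            {w : Fin n | G.Adj v w ∧ w ∉ S ∧ ∀ s ∈ S, ¬ G.Adj s w}.ncard < k) ∧
        ∀ S : Finset (Fin n),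
          (∀ v : Fin n, (v ∉ S ∧ ∀ s ∈ S, ¬ G.Adj s v) →
            {w : Fin n | G.Adj v w ∧ w ∉ S ∧ ∀ s ∈ S, ¬ G.Adj s w}.ncard < k) →
          2 * n / (2 * k + 3) ≤ S.card) := by
  intro k hk
  refine ⟨?_, fun N => construction k hk N⟩
  refine ⟨2 * (k + 1) + 1, fun n hn G hG => ?_⟩
  have hs : ∀ x, x ∈ cnb G x := fun x => mem_cnb.2 (Or.inl rfl)
  have hsym : ∀ x y, x ∈ cnb G y → y ∈ cnb G x := by
    intro x y hxy
    rcases mem_cnb.1 hxy with h | h
    · exact mem_cnb.2 (Or.inl h.symm)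
    · exact mem_cnb.2 (Or.inr h.symm)
  have h1 := upper_of_E (N := cnb G) (K := k + 1) (H (k + 1) (by omega) n) hs hsym (by omega)
    (conn_univ hG) (by rw [Finset.card_univ, Fintype.card_fin]; omega)
  obtain ⟨D, hD, hDc⟩ := exists_iso (N := cnb G) (K := k + 1) hs (Finset.univ : Finset (Fin n))
  refine ⟨D, ?_, isol_of_iso hD⟩
  rw [Nat.le_div_iff_mul_le (by omega), hDc]
  rw [Finset.card_univ, Fintype.card_fin] at h1
  calc f (cnb G) (k + 1) Finset.univ * (2 * k + 3)
      = (2 * (k + 1) + 1) * f (cnb G) (k + 1) Finset.univ := by ring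
    _ ≤ 2 * n := h1

section
variable {V : Type*} [DecidableEq V]

/-- A tight system: connected, no separated set, `(2K+1) f = 2n`, `f = 2q ≥ 4`. -/
structure Tight (N : V → Finset V) (K : ℕ) (R : Finset V) (C : Finset (Finset V)) : Prop where
  sys : Sys N K R C
  conn : Conn N R
  near : ∀ B ⊆ R, B.Nonempty → B ≠ R → ∃ S ∈ C, ¬ S ⊆ B ∧ ¬ Disjoint S B
  tight : (2 * K + 1) * gk N R C = 2 * R.card
  four : 4 ≤ gk N R C

/-- A plain end `S` of the system `(A, C)`: the rest is tight. -/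
structure End (N : V → Finset V) (K : ℕ) (A : Finset V) (C : Finset (Finset V))
    (S : Finset V) : Prop where
  mem : S ∈ C
  rest : Tight N K (A \ S) (res C (A \ S))
  drop : gk N (A \ S) (res C (A \ S)) + 1 = gk N A C

variable {N : V → Finset V} {K : ℕ} {A : Finset V} {C : Finset (Finset V)}

/-- The reduction: a minimal violator has an end, and its rest is vertex-critical or rigid. -/
theorem reduce (h : Viol N K A C) (hbase : gk N A C = 3 → 3 * K + 1 < A.card) :
    ∃ S, End N K A C S ∧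
      ((∀ x ∈ A \ S, gk N (A \ S) (res (res C (A \ S)) ((A \ S).erase x)) <
          gk N (A \ S) (res C (A \ S))) ∨
        ∃ (Z : Finset V) (P : Finset (Finset V)) (z : Finset V → V),
          Rigid N K (A \ S) (res C (A \ S)) Z P z ∧ Z.Nonempty ∧ ∀ U ∈ P, U.card = 2 * K) := by
  obtain ⟨S, hS, h1, h2, h3, h4⟩ := h.plain_end hbase
  obtain ⟨h5, h6⟩ := h.exact hbase
  have hsys : Sys N K (A \ S) (res C (A \ S)) := h.sys.res
  have hEnd : End N K A C S := ⟨hS, ⟨hsys, h1, h4, h2, by omega⟩, h3⟩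
  refine ⟨S, hEnd, ?_⟩
  by_cases hc : ∀ x ∈ A \ S, gk N (A \ S) (res (res C (A \ S)) ((A \ S).erase x)) <
      gk N (A \ S) (res C (A \ S))
  · exact Or.inl hc
  · right
    push Not at hc
    obtain ⟨x, hx, hx2⟩ := hc
    have hle : gk N (A \ S) (res (res C (A \ S)) ((A \ S).erase x)) ≤
        gk N (A \ S) (res C (A \ S)) :=
      gk_mono h.refl hsys.sub (fun S hS => hsys.nonempty hS) (Finset.filter_subset _ _)
    have hss : A \ S ⊂ A := Finset.sdiff_ssubset (h.sys.sub S hS) (h.sys.nonempty hS)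
    obtain ⟨Z, P, z, hR, hxZ, hcard⟩ := rigid h.refl h.symm h.two hsys h1
      (fun A' hA' C' hC' => h.hE A' (hA'.trans hss) C' (hC'.trans (Finset.filter_subset _ _)))
      hx (le_antisymm hle hx2) (by omega)
    refine ⟨Z, P, z, hR, ⟨x, hxZ⟩, ?_⟩
    have h7 : (P.filter (fun U => U.card = K)).card = 0 := by omega
    rw [Finset.card_eq_zero, Finset.filter_eq_empty_iff] at h7
    intro U hU
    rcases hR.typ U hU with ⟨h8, _⟩ | ⟨h8, _⟩
    · exact absurd h8 (h7 hU)
    · exact h8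

/-- **The wrapper for E**: the three statements on minimal violators that are left. -/
theorem E_of (hK : 2 ≤ K)
    (hbase : ∀ (N : V → Finset V) (A : Finset V) (C : Finset (Finset V)), Viol N K A C →
      gk N A C = 3 → 3 * K + 1 < A.card)
    (halpha : ∀ (N : V → Finset V) (A : Finset V) (C : Finset (Finset V)) (S : Finset V),
      Viol N K A C → End N K A C S →
      ∀ (Z : Finset V) (P : Finset (Finset V)) (z : Finset V → V),
        Rigid N K (A \ S) (res C (A \ S)) Z P z → Z.Nonempty → (∀ U ∈ P, U.card = 2 * K) → False)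
    (hbeta : ∀ (N : V → Finset V) (A : Finset V) (C : Finset (Finset V)) (S : Finset V),
      Viol N K A C → End N K A C S →
      (∀ x ∈ A \ S, gk N (A \ S) (res (res C (A \ S)) ((A \ S).erase x)) <
          gk N (A \ S) (res C (A \ S))) → False) : EV V K := by
  intro N hs hsym A C hS hA
  by_contra hB
  obtain ⟨N', A', C', h⟩ := exists_viol hK hs hsym hS hA hB
  obtain ⟨S, hE, hc | ⟨Z, P, z, hR, hZ, hU⟩⟩ := reduce h (hbase N' A' C' h)
  · exact hbeta N' A' C' S h hE hc
  · exact halpha N' A' C' S h hE Z P z hR hZ hU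

end

/-- **The wrapper**: the frozen statement from the three statements that are left. -/
theorem main_of_three
    (hbase : ∀ (n K : ℕ), 3 ≤ K → ∀ (N : Fin n → Finset (Fin n)) (A : Finset (Fin n))
      (C : Finset (Finset (Fin n))), Viol N K A C → gk N A C = 3 → 3 * K + 1 < A.card)
    (halpha : ∀ (n K : ℕ), 3 ≤ K → ∀ (N : Fin n → Finset (Fin n)) (A : Finset (Fin n))
      (C : Finset (Finset (Fin n))) (S : Finset (Fin n)), Viol N K A C → End N K A C S →
      ∀ (Z : Finset (Fin n)) (P : Finset (Finset (Fin n))) (z : Finset (Fin n) → Fin n),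
        Rigid N K (A \ S) (res C (A \ S)) Z P z → Z.Nonempty → (∀ U ∈ P, U.card = 2 * K) → False)
    (hbeta : ∀ (n K : ℕ), 3 ≤ K → ∀ (N : Fin n → Finset (Fin n)) (A : Finset (Fin n))
      (C : Finset (Finset (Fin n))) (S : Finset (Fin n)), Viol N K A C → End N K A C S →
      (∀ x ∈ A \ S, gk N (A \ S) (res (res C (A \ S)) ((A \ S).erase x)) <
          gk N (A \ S) (res C (A \ S))) → False) :
    ∀ k : ℕ, 2 ≤ k →
      (∃ N : ℕ, ∀ n : ℕ, N ≤ n → ∀ G : SimpleGraph (Fin n), G.Connected →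
        ∃ S : Finset (Fin n), S.card ≤ 2 * n / (2 * k + 3) ∧
          ∀ v : Fin n, (v ∉ S ∧ ∀ s ∈ S, ¬ G.Adj s v) →
            {w : Fin n | G.Adj v w ∧ w ∉ S ∧ ∀ s ∈ S, ¬ G.Adj s w}.ncard < k) ∧
      (∀ N : ℕ, ∃ n : ℕ, N ≤ n ∧ ∃ G : SimpleGraph (Fin n), G.Connected ∧
        (∃ S : Finset (Fin n), S.card = 2 * n / (2 * k + 3) ∧
          ∀ v : Fin n, (v ∉ S ∧ ∀ s ∈ S, ¬ G.Adj s v) →
            {w : Fin n | G.Adj v w ∧ w ∉ S ∧ ∀ s ∈ S, ¬ G.Adj s w}.ncard < k) ∧
        ∀ S : Finset (Fin n),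
          (∀ v : Fin n, (v ∉ S ∧ ∀ s ∈ S, ¬ G.Adj s v) →
            {w : Fin n | G.Adj v w ∧ w ∉ S ∧ ∀ s ∈ S, ¬ G.Adj s w}.ncard < k) →
          2 * n / (2 * k + 3) ≤ S.card) := by
  apply main_of_E
  intro K hK n
  exact E_of (by omega) (fun N A C => hbase n K hK N A C)
    (fun N A C S => halpha n K hK N A C S) (fun N A C S => hbeta n K hK N A C S)

end Pool.Agent.Star.Rig
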