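import Pool.Agent.Star.T3e
import Pool.Agent.Star.T3cyc
import Pool.Agent.Star.Wrap

/-!
# The bound for `K = 3`

There is no smallest violator with `K = 3` outside the base case.
-/

set_option autoImplicit false
set_option linter.unusedSectionVars false
set_option linter.unusedVariables false

namespace Pool.Agent.Star.Rig

open Finset

/-- **No smallest violator with `K = 3` and at least five tiles.** -/
theorem e3_false {V : Type*} [DecidableEq V] {N : V → Finset V} {A : Finset V}
    {C : Finset (Finset V)} (h : Viol N 3 A C) (hex : (2 * 3 + 1) * gk N A C = 2 * A.card + 1)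
    (h5 : 5 ≤ gk N A C) : False := by
  obtain ⟨h3, hC⟩ := h.e3_cycle hex h5
  exact cycle_false h hex h5 h3 hC

/-- **The bound for `K = 3`** from the base case. -/
theorem EV_three {V : Type*} [DecidableEq V]
    (hbase : ∀ (N : V → Finset V) (A : Finset V) (C : Finset (Finset V)), Viol N 3 A C →
      gk N A C = 3 → 3 * 3 + 1 < A.card) : EV V 3 := by
  intro N hs hsym A C hS hA
  by_contra hB
  obtain ⟨N', A', C', h⟩ := exists_viol (by omega) hs hsym hS hA hB
  obtain ⟨h1, h2⟩ := h.exact (hbase N' A' C' h)
  exact e3_false h h1 h2

end Pool.Agent.Star.Rig
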