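import Mathlib

/-!
# Lemma (I): no connected graph on `3K` vertices with star isolation number three

`N x` is the closed neighbourhood of `x`, all stars have exactly `K` elements, the ground set has
`3K` elements and any two vertices `x, y` leave a star `N c` disjoint from `N x` and `N y`.
Then the graph is not connected.
-/

set_option autoImplicit false

namespace Pool.Agent.Star

open Finset

section Three

variable {U : Type*} [Fintype U] [DecidableEq U]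

/-- Standing assumptions of Lemma (I). -/
structure Tri (N : U → Finset U) (K : ℕ) : Prop where
  self : ∀ x, x ∈ N x
  symm : ∀ x y, x ∈ N y → y ∈ N x
  cardU : Fintype.card U = 3 * K
  Q : ∀ x y, ∃ c, (N c).card = K ∧ (∀ g ∈ N c, g ∉ N x) ∧ (∀ g ∈ N c, g ∉ N y)

variable {N : U → Finset U} {K : ℕ}

/-- The partner of two far centres. -/
lemma Tri.P (h : Tri N K) {u z : U} (hu : (N u).card = K) (hz : (N z).card = K)
    (hf : ∀ g ∈ N u, g ∉ N z) :
    ∃ c, (N c).card = K ∧ ∀ g, g ∈ N c ↔ (g ∉ N u ∧ g ∉ N z) := by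
  obtain ⟨c, hc, h1, h2⟩ := h.Q u z
  refine ⟨c, hc, ?_⟩
  have hd : Disjoint (N u) (N z) := Finset.disjoint_left.2 hf
  have hcard : ((N u ∪ N z)ᶜ).card = K := by
    rw [Finset.card_compl, Finset.card_union_of_disjoint hd, hu, hz, h.cardU]; omega
  have hsub : N c ⊆ (N u ∪ N z)ᶜ := by
    intro g hg
    simp [h1 g hg, h2 g hg]
  have heq := Finset.eq_of_subset_of_card_le hsub (by rw [hcard, hc])
  intro g
  rw [heq]; simp

/-- If `N f` misses `N x` and `x ∈ N c` then `f ∉ N c`. -/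
lemma Tri.out (h : Tri N K) {f x c : U} (hf : ∀ g ∈ N f, g ∉ N x) (hx : x ∈ N c) : f ∉ N c := by
  intro hfc
  exact hf c (h.symm _ _ hfc) (h.symm _ _ hx)

/-- Lemma II. -/
lemma Tri.two (h : Tri N K) {u b t z : U} (hb : (N b).card = K) (hu : (N u).card = K)
    (ht : (N t).card = K) (hz : (N z).card = K)
    (htu : ∀ g ∈ N t, g ∉ N u) (hzu : ∀ g ∈ N z, g ∉ N u) (hzb : ∀ g ∈ N z, g ∉ N b)
    (hsub : ∀ g ∈ N t, g ∈ N b ∨ g ∈ N z)
    {x y : U} (hxb : x ∈ N b) (hxu : x ∈ N u) (hyb : y ∈ N b) (hyt : y ∈ N t) : False := by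
  obtain ⟨w, hw, hwm⟩ := h.P hu hz (fun g hg hg' => hzu g hg' hg)
  obtain ⟨v, hv, hvm⟩ := h.P hb hz (fun g hg hg' => hzb g hg' hg)
  obtain ⟨q, hq, hq1, hq2⟩ := h.Q v t
  have hqeq : ∀ g, g ∈ N q ↔ ((g ∈ N b ∨ g ∈ N z) ∧ g ∉ N t) := by
    have hd : Disjoint (N b) (N z) := Finset.disjoint_left.2 (fun g hg hg' => hzb g hg' hg)
    have hss : N t ⊆ N b ∪ N z := by
      intro g hg; rw [Finset.mem_union]; exact hsub g hg
    have hcard : ((N b ∪ N z) \ N t).card = K := by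
      rw [Finset.card_sdiff_of_subset hss, Finset.card_union_of_disjoint hd, hb, hz, ht]; omega
    have hs : N q ⊆ (N b ∪ N z) \ N t := by
      intro g hg
      have h1 := hq1 g hg
      rw [hvm] at h1
      simp only [Finset.mem_sdiff, Finset.mem_union]
      refine ⟨?_, hq2 g hg⟩
      tauto
    have heq := Finset.eq_of_subset_of_card_le hs (by rw [hcard, hq])
    intro g
    rw [heq]; simp
  have hxq : x ∈ N q := (hqeq x).2 ⟨Or.inl hxb, fun hx => htu x hx hxu⟩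
  have hyw : y ∈ N w := (hwm y).2 ⟨htu y hyt, fun hy => hzb y hy hyb⟩
  obtain ⟨f, -, hf1, hf2⟩ := h.Q x y
  have f1 := h.out hf1 hxu
  have f2 := h.out hf1 hxb
  have f3 := h.out hf1 hxq
  have f4 := h.out hf2 hyw
  have f5 := h.out hf2 hyt
  rw [hqeq] at f3
  rw [hwm] at f4
  tauto

/-- Claim 1. -/
lemma Tri.one (h : Tri N K) {m : ℕ}
    (hmax : ∀ c c', (N c).card = K → (N c').card = K → c ∉ N c' → (N c ∩ N c').card ≤ m)
    {u b s : U} (hu : (N u).card = K) (hb : (N b).card = K) (hs : (N s).card = K)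
    (hm : (N u ∩ N b).card = m) (hm1 : 1 ≤ m)
    (hbs : b ∈ N s) (hsu : ∀ g ∈ N s, g ∉ N u) :
    ∀ g ∈ N b, g ∉ N u → g ∈ N s := by
  intro g hgb hgu
  by_contra hgs
  obtain ⟨x, hx⟩ : (N u ∩ N b).Nonempty := by
    rw [← Finset.card_pos]; omega
  rw [Finset.mem_inter] at hx
  obtain ⟨hxu, hxb⟩ := hx
  obtain ⟨t, ht, htm⟩ := h.P hu hs (fun g hg hg' => hsu g hg' hg)
  obtain ⟨z, hz, hzu, hzb⟩ := h.Q u b
  obtain ⟨z3, hz3, hz3t, hz3b⟩ := h.Q t b
  obtain ⟨w, hw, hwm⟩ := h.P hu hz (fun g hg hg' => hzu g hg' hg)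
  obtain ⟨v, hv, hvm⟩ := h.P hb hz3 (fun g hg hg' => hz3b g hg' hg)
  obtain ⟨p, hp, hp1, hp2⟩ := h.Q w v
  have hgt : g ∈ N t := (htm g).2 ⟨hgu, hgs⟩
  have hpin : ∀ a ∈ N p, (a ∈ N u ∨ a ∈ N z) ∧ (a ∈ N b ∨ a ∈ N z3) := by
    intro a ha
    have h1 := hp1 a ha
    have h2 := hp2 a ha
    rw [hwm] at h1
    rw [hvm] at h2
    constructor <;> tauto
  have hut : ∀ a ∈ N u, a ∉ N t := by
    intro a ha ha'
    rw [htm] at ha'; exact ha'.1 ha
  by_cases hcase : ∃ a ∈ N p, a ∈ N u ∧ a ∈ N b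
  · obtain ⟨a, hap, -, hab⟩ := hcase
    refine h.two (u := t) (b := b) (t := p) (z := z3) hb ht hp hz3 ?_ hz3t hz3b ?_ hgb hgt hab hap
    · intro a' ha' hat
      obtain ⟨h1, h2⟩ := hpin a' ha'
      have h3 : a' ∉ N u := fun hh => hut a' hh hat
      have h4 : a' ∈ N z := by tauto
      have h5 : a' ∉ N b := hzb a' h4
      have h6 : a' ∈ N z3 := by tauto
      exact hz3t a' h6 hat
    · intro a' ha'
      exact (hpin a' ha').2
  · push Not at hcase
    by_cases hc2 : ∀ a ∈ N u, a ∈ N b ∨ a ∈ N z3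
    · exact h.two (u := t) (b := b) (t := u) (z := z3) hb ht hu hz3 hut hz3t hz3b hc2 hgb hgt hxb hxu
    · push Not at hc2
      obtain ⟨a, hau, hab, haz⟩ := hc2
      -- N p = N z3
      have hps : N p ⊆ N z3 := by
        intro a' ha'
        obtain ⟨h1, h2⟩ := hpin a' ha'
        rcases h2 with h2 | h2
        · rcases h1 with h1 | h1
          · exact absurd h2 (hcase a' ha' h1)
          · exact absurd h2 (hzb a' h1)
        · exact h2
      have hpe := Finset.eq_of_subset_of_card_le hps (by rw [hp, hz3])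
      have hsub : N z3 \ N u ⊆ N z ∩ N z3 := by
        intro a' ha'
        rw [Finset.mem_sdiff] at ha'
        have hap : a' ∈ N p := by rw [hpe]; exact ha'.1
        obtain ⟨h1, -⟩ := hpin a' hap
        rw [Finset.mem_inter]
        exact ⟨by tauto, ha'.1⟩
      have hzz : z ∉ N z3 := by
        have hzt : z ∈ N t := by
          rw [htm]
          refine ⟨hzu z (h.self z), fun hzs => ?_⟩
          exact hzb s (h.symm _ _ hzs) (h.symm _ _ hbs)
        exact fun hh => hz3t z hh hzt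
      have hle := hmax z z3 hz hz3 hzz
      have hle2 := Finset.card_le_card hsub
      have hins : insert a (N u ∩ N b) ⊆ N u \ N z3 := by
        intro a' ha'
        rw [Finset.mem_insert, Finset.mem_inter] at ha'
        rw [Finset.mem_sdiff]
        rcases ha' with rfl | ⟨h1, h2⟩
        · exact ⟨hau, haz⟩
        · exact ⟨h1, fun hh => hz3b a' hh h2⟩
      have hle3 := Finset.card_le_card hins
      rw [Finset.card_insert_of_notMem (by simp [hab])] at hle3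
      have e1 := Finset.card_sdiff_add_card_inter (N u) (N z3)
      have e2 := Finset.card_sdiff_add_card_inter (N z3) (N u)
      rw [Finset.inter_comm (N z3) (N u)] at e2
      omega

/-- Claim 3: uniqueness of the star through `b` far from `u`. -/
lemma Tri.uniq (h : Tri N K) {m : ℕ}
    (hmax : ∀ c c', (N c).card = K → (N c').card = K → c ∉ N c' → (N c ∩ N c').card ≤ m)
    {u b s1 s2 : U} (hu : (N u).card = K) (hb : (N b).card = K)
    (hm : (N u ∩ N b).card = m) (hm1 : 1 ≤ m) (hub : u ∉ N b)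
    (hs1 : (N s1).card = K) (hs2 : (N s2).card = K)
    (hb1 : b ∈ N s1) (hs1u : ∀ g ∈ N s1, g ∉ N u)
    (hb2 : b ∈ N s2) (hs2u : ∀ g ∈ N s2, g ∉ N u)
    {x y : U} (hx2 : x ∈ N s2) (hx1 : x ∉ N s1) (hy1 : y ∈ N s1) (hy2 : y ∉ N s2) : False := by
  have c1 := h.one hmax hu hb hs1 hm hm1 hb1 hs1u
  have c2 := h.one hmax hu hb hs2 hm hm1 hb2 hs2u
  obtain ⟨z1, hz1, hz1m⟩ := h.P hu hs1 (fun g hg hg' => hs1u g hg' hg)
  obtain ⟨z2, hz2, hz2m⟩ := h.P hu hs2 (fun g hg hg' => hs2u g hg' hg)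
  have hz1b : ∀ g ∈ N b, g ∉ N z1 := by
    intro g hg hg'
    rw [hz1m] at hg'
    exact hg'.2 (c1 g hg hg'.1)
  have hz2b : ∀ g ∈ N b, g ∉ N z2 := by
    intro g hg hg'
    rw [hz2m] at hg'
    exact hg'.2 (c2 g hg hg'.1)
  obtain ⟨v1, hv1, hv1m⟩ := h.P hb hz1 hz1b
  obtain ⟨v2, hv2, hv2m⟩ := h.P hb hz2 hz2b
  obtain ⟨e, he, he1, he2⟩ := h.Q s1 v2
  have hev1 : ∀ g ∈ N e, g ∉ N v1 := by
    intro g hg hgv
    have h1 := he1 g hg
    have h2 := he2 g hg
    rw [hv1m] at hgv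
    rw [hv2m] at h2
    have h3 : g ∈ N u := by
      by_contra hgu
      exact hgv.2 ((hz1m g).2 ⟨hgu, h1⟩)
    apply h2
    refine ⟨hgv.1, ?_⟩
    rw [hz2m]
    tauto
  obtain ⟨g1, hg1, hg1m⟩ := h.P he hs1 he1
  obtain ⟨f, hf, hf1, hf2⟩ := h.Q x y
  -- memberships
  have hyb : y ∉ N b := fun hh => hy2 (c2 y hh (hs1u y hy1))
  have hxb : x ∉ N b := fun hh => hx1 (c1 x hh (hs2u x hx2))
  have hyv1 : y ∈ N v1 := by
    rw [hv1m, hz1m]; tauto
  have hxz1 : x ∈ N z1 := by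
    rw [hz1m]; exact ⟨hs2u x hx2, hx1⟩
  have hxv2 : x ∈ N v2 := by
    rw [hv2m, hz2m]; tauto
  have hxg1 : x ∈ N g1 := by
    rw [hg1m]
    exact ⟨fun hh => he2 x hh hxv2, hx1⟩
  have f1 := h.out hf2 hy1
  have f2 := h.out hf2 hyv1
  have f3 := h.out hf1 hxz1
  have f4 := h.out hf1 hxg1
  have fu : f ∈ N u := by
    by_contra hh
    exact f3 ((hz1m f).2 ⟨hh, f1⟩)
  have fb : f ∈ N b := by
    by_contra hh
    exact f2 ((hv1m f).2 ⟨hh, f3⟩)
  obtain ⟨d, hd, hd1, hd2⟩ := h.Q v1 f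
  -- v1 ∈ N u, v1 ∉ N s1
  have huv1 : u ∈ N v1 := by
    rw [hv1m, hz1m]
    exact ⟨hub, fun hh => hh.1 (h.self u)⟩
  have hv1u : v1 ∈ N u := h.symm _ _ huv1
  have hv1s1 : v1 ∉ N s1 := fun hh => hs1u v1 hh hv1u
  -- card of the intersection
  have hcap : (N v1 ∩ N s1).card = m := by
    have e1 := Finset.card_sdiff_add_card_inter (N s1) (N v1)
    have e2 := Finset.card_sdiff_add_card_inter (N b) (N u)
    have e3 : N s1 \ N v1 = N b \ N u := by
      ext g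
      rw [Finset.mem_sdiff, Finset.mem_sdiff]
      constructor
      · rintro ⟨h1, h2⟩
        rw [hv1m, hz1m] at h2
        have := hs1u g h1
        tauto
      · rintro ⟨h1, h2⟩
        refine ⟨c1 g h1 h2, ?_⟩
        rw [hv1m]
        tauto
    rw [e3] at e1
    rw [Finset.inter_comm (N s1)] at e1
    rw [Finset.inter_comm (N b)] at e2
    omega
  -- s1 ∉ N d
  have hs1d : s1 ∉ N d := by
    intro hh
    have c3 := h.one hmax hv1 hs1 hd hcap hm1 hh hd1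
    have hbv1 : b ∉ N v1 := by
      rw [hv1m]; exact fun hh => hh.1 (h.self b)
    have hbd : b ∈ N d := c3 b hb1 hbv1
    exact hd2 b hbd (h.symm _ _ fb)
  obtain ⟨k, hk, hkm⟩ := h.P hd hf hd2
  have hs1k : s1 ∈ N k := by
    rw [hkm]
    exact ⟨hs1d, fun hh => f1 (h.symm _ _ hh)⟩
  have hks1 : k ∈ N s1 := h.symm _ _ hs1k
  have hv1g1 : v1 ∈ N g1 := by
    rw [hg1m]
    exact ⟨fun hh => hev1 v1 hh (h.self v1), hv1s1⟩
  have hg1v1 : g1 ∈ N v1 := h.symm _ _ hv1g1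
  have hg1k : g1 ∈ N k := by
    rw [hkm]
    exact ⟨fun hh => hd1 g1 hh hg1v1, fun hh => f4 (h.symm _ _ hh)⟩
  have hkg1 : k ∈ N g1 := h.symm _ _ hg1k
  rw [hg1m] at hkg1
  exact hkg1.2 hks1

/-- Case A: three parts of which two are not joined. -/
lemma Tri.caseA (h : Tri N K)
    (hconn : ∀ A : Finset U, A.Nonempty → A ≠ univ → ∃ x ∈ A, ∃ y, y ∉ A ∧ y ∈ N x)
    {u w z : U} (hu : (N u).card = K) (hw : (N w).card = K) (hz : (N z).card = K)
    (hwm : ∀ g, g ∈ N w ↔ (g ∉ N u ∧ g ∉ N z)) (hzu : ∀ g ∈ N z, g ∉ N u)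
    (hno : ∀ x ∈ N w, ∀ y ∈ N z, y ∉ N x) : False := by
  have hno' : ∀ x ∈ N z, ∀ y ∈ N w, y ∉ N x := fun x hx y hy hh => hno y hy x hx (h.symm _ _ hh)
  have hwu : ∀ g ∈ N w, g ∉ N u := fun g hg => ((hwm g).1 hg).1
  have hwz : ∀ g ∈ N w, g ∉ N z := fun g hg => ((hwm g).1 hg).2
  -- a vertex of N u joined to N w
  obtain ⟨x1, hx1u, a1, ha1w, ha1⟩ : ∃ x1 ∈ N u, ∃ a ∈ N w, a ∈ N x1 := by
    obtain ⟨x, hx, y, hy, hxy⟩ := hconn (N w) ⟨w, h.self w⟩ (by
      intro hh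
      have : z ∈ N w := by rw [hh]; simp
      exact hwz z this (h.self z))
    have hyz : y ∉ N z := fun hh => hno x hx y hh hxy
    have hyu : y ∈ N u := by
      by_contra hh
      exact hy ((hwm y).2 ⟨hh, hyz⟩)
    exact ⟨y, hyu, x, hx, h.symm _ _ hxy⟩
  obtain ⟨x2, hx2u, a2, ha2z, ha2⟩ : ∃ x2 ∈ N u, ∃ a ∈ N z, a ∈ N x2 := by
    obtain ⟨x, hx, y, hy, hxy⟩ := hconn (N z) ⟨z, h.self z⟩ (by
      intro hh
      have : w ∈ N z := by rw [hh]; simp
      exact hwz w (h.self w) this)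
    have hyw : y ∉ N w := fun hh => hno' x hx y hh hxy
    have hyu : y ∈ N u := by
      by_contra hh
      exact hyw ((hwm y).2 ⟨hh, hy⟩)
    exact ⟨y, hyu, x, hx, h.symm _ _ hxy⟩
  -- a star with centre in N w contained in N w is N w
  have starw : ∀ c ∈ N w, (N c).card = K → (∀ g ∈ N c, g ∉ N u) → ∀ g ∈ N w, g ∈ N c := by
    intro c hc hcK hcu
    have hs : N c ⊆ N w := by
      intro g hg
      rw [hwm]
      exact ⟨hcu g hg, fun hh => hno c hc g hh hg⟩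
    have he := Finset.eq_of_subset_of_card_le hs (by rw [hw, hcK])
    intro g hg; rw [he]; exact hg
  have starz : ∀ c ∈ N z, (N c).card = K → (∀ g ∈ N c, g ∉ N u) → ∀ g ∈ N z, g ∈ N c := by
    intro c hc hcK hcu
    have hs : N c ⊆ N z := by
      intro g hg
      by_contra hh
      exact hno' c hc g ((hwm g).2 ⟨hcu g hg, hh⟩) hg
    have he := Finset.eq_of_subset_of_card_le hs (by rw [hz, hcK])
    intro g hg; rw [he]; exact hg
  -- no vertex sees both N w and N z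
  have hboth : ∀ y a c, a ∈ N w → c ∈ N z → a ∈ N y → c ∈ N y → False := by
    intro y a c ha hc hay hcy
    obtain ⟨s, hs, hs1, hs2⟩ := h.Q u y
    have hsu : s ∉ N u := fun hh => hs1 s (h.self s) hh
    by_cases hsz : s ∈ N z
    · exact hs2 c (starz s hsz hs hs1 c hc) hcy
    · exact hs2 a (starw s ((hwm s).2 ⟨hsu, hsz⟩) hs hs1 a ha) hay
  -- the vertex d
  obtain ⟨d, hdu, hdall, a, haw, had⟩ : ∃ d ∈ N u,
      (∀ y ∈ N u, (∃ c ∈ N z, c ∈ N y) → y ∈ N d) ∧ ∃ a ∈ N w, a ∈ N d := by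
    obtain ⟨e, he, he1, he2⟩ := h.Q z x1
    have heu : e ∉ N u := h.out he2 hx1u
    have hez : e ∉ N z := fun hh => he1 e (h.self e) hh
    have hew : e ∈ N w := (hwm e).2 ⟨heu, hez⟩
    obtain ⟨d, hd, hdm⟩ := h.P he hz he1
    have hud : u ∈ N d := by
      rw [hdm]
      exact ⟨fun hh => heu (h.symm _ _ hh), fun hh => hzu u hh (h.self u)⟩
    refine ⟨d, h.symm _ _ hud, ?_, ?_⟩
    · rintro y hy ⟨c, hc, hcy⟩
      rw [hdm]
      refine ⟨fun hh => ?_, fun hh => hzu y hh hy⟩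
      exact hboth y e c hew hc (h.symm _ _ hh) hcy
    · exact ⟨a1, ha1w, (hdm a1).2 ⟨fun hh => he2 a1 hh ha1, hwz a1 ha1w⟩⟩
  obtain ⟨d', hdu', hdall', a', haw', had'⟩ : ∃ d ∈ N u,
      (∀ y ∈ N u, (∃ c ∈ N w, c ∈ N y) → y ∈ N d) ∧ ∃ a ∈ N z, a ∈ N d := by
    obtain ⟨e, he, he1, he2⟩ := h.Q w x2
    have heu : e ∉ N u := h.out he2 hx2u
    have hew : e ∉ N w := fun hh => he1 e (h.self e) hh
    have hez : e ∈ N z := by
      by_contra hh
      exact hew ((hwm e).2 ⟨heu, hh⟩)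
    obtain ⟨d, hd, hdm⟩ := h.P he hw he1
    have hud : u ∈ N d := by
      rw [hdm]
      exact ⟨fun hh => heu (h.symm _ _ hh), fun hh => hwu u hh (h.self u)⟩
    refine ⟨d, h.symm _ _ hud, ?_, ?_⟩
    · rintro y hy ⟨c, hc, hcy⟩
      rw [hdm]
      refine ⟨fun hh => ?_, fun hh => hwu y hh hy⟩
      exact hboth y c e hc hez hcy (h.symm _ _ hh)
    · exact ⟨a2, ha2z, (hdm a2).2 ⟨fun hh => he2 a2 hh ha2, fun hh => hwz a2 hh ha2z⟩⟩
  obtain ⟨g, hg, hg1, hg2⟩ := h.Q d d'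
  have hgu : g ∉ N u := h.out hg1 (h.symm _ _ (h.symm _ _ (h.symm _ _ hdu)) |> fun _ => hdu)
  by_cases hgz : g ∈ N z
  · have hgcu : ∀ y ∈ N g, y ∉ N u := by
      intro y hy hyu
      exact hg1 y hy (hdall y hyu ⟨g, hgz, h.symm _ _ hy⟩)
    exact hg2 a' (starz g hgz hg hgcu a' haw') had'
  · have hgw : g ∈ N w := (hwm g).2 ⟨hgu, hgz⟩
    have hgcu : ∀ y ∈ N g, y ∉ N u := by
      intro y hy hyu
      exact hg2 y hy (hdall' y hyu ⟨g, hgw, h.symm _ _ hy⟩)
    exact hg1 a (starw g hgw hg hgcu a haw) had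

/-- **Lemma (I).** -/
theorem Tri.false (h : Tri N K) (hne : Nonempty U)
    (hconn : ∀ A : Finset U, A.Nonempty → A ≠ univ → ∃ x ∈ A, ∃ y, y ∉ A ∧ y ∈ N x) : False := by
  classical
  -- Step 0: two centres at distance exactly two
  have step0 : ∃ u b, (N u).card = K ∧ (N b).card = K ∧ u ∉ N b ∧ 1 ≤ (N u ∩ N b).card := by
    by_contra hcon
    push Not at hcon
    have hfar : ∀ u b, (N u).card = K → (N b).card = K → u ∉ N b → ∀ g ∈ N u, g ∉ N b := by
      intro u b hu hb hub g hg hg'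
      have h0 := hcon u b hu hb hub
      have : (N u ∩ N b).Nonempty := ⟨g, Finset.mem_inter.2 ⟨hg, hg'⟩⟩
      have := Finset.card_pos.2 this
      omega
    obtain ⟨x0⟩ := hne
    obtain ⟨c1, hc1, -, -⟩ := h.Q x0 x0
    obtain ⟨c2, hc2, hc21, -⟩ := h.Q c1 c1
    obtain ⟨c3, hc3, hc3m⟩ := h.P hc2 hc1 hc21
    obtain ⟨x, hx, y, hy, hxy⟩ := hconn (N c1) ⟨c1, h.self c1⟩ (by
      intro hh
      have : c2 ∈ N c1 := by rw [hh]; simp
      exact hc21 c2 (h.self c2) this)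
    -- key: edge from part ci to part cj, third part cl
    have key : ∀ ci cj cl, (N ci).card = K → (N cj).card = K → (N cl).card = K →
        (∀ g, g ∉ N ci → g ∉ N cl → g ∈ N cj) →
        ∀ x ∈ N ci, ∀ y ∈ N cj, y ∈ N x → False := by
      intro ci cj cl hi hj hl hpart x hx y hy hxy
      obtain ⟨f, hf, hf1, hf2⟩ := h.Q x cl
      have f1 : f ∉ N ci := h.out hf1 hx
      have f2 : ∀ g ∈ N f, g ∉ N ci := hfar f ci hf hi f1
      have hs : N f ⊆ N cj := fun g hg => hpart g (f2 g hg) (hf2 g hg)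
      have he := Finset.eq_of_subset_of_card_le hs (by rw [hf, hj])
      have : y ∈ N f := by rw [he]; exact hy
      exact hf1 y this hxy
    by_cases hy2 : y ∈ N c2
    · exact key c1 c2 c3 hc1 hc2 hc3 (by
        intro g h1 h3
        by_contra h2
        exact h3 ((hc3m g).2 ⟨h2, h1⟩)) x hx y hy2 hxy
    · have hy3 : y ∈ N c3 := (hc3m y).2 ⟨hy2, hy⟩
      exact key c1 c3 c2 hc1 hc3 hc2 (by
        intro g h1 h2
        exact (hc3m g).2 ⟨h2, h1⟩) x hx y hy3 hxy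
  -- Step 1: a maximal pair
  let T : Finset (U × U) := (Finset.univ : Finset (U × U)).filter
    (fun p => (N p.1).card = K ∧ (N p.2).card = K ∧ p.1 ∉ N p.2 ∧ 1 ≤ (N p.1 ∩ N p.2).card)
  have hT : T.Nonempty := by
    obtain ⟨u, b, h1, h2, h3, h4⟩ := step0
    exact ⟨(u, b), by simp only [T, Finset.mem_filter, Finset.mem_univ, true_and]; exact ⟨h1, h2, h3, h4⟩⟩
  obtain ⟨⟨u, b⟩, hub, hmaxT⟩ := Finset.exists_max_image T (fun p => (N p.1 ∩ N p.2).card) hT
  simp only [T, Finset.mem_filter, Finset.mem_univ, true_and] at hub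
  obtain ⟨hu, hb, hunb, hm1⟩ := hub
  have hmax : ∀ c c', (N c).card = K → (N c').card = K → c ∉ N c' →
      (N c ∩ N c').card ≤ (N u ∩ N b).card := by
    intro c c' hc hc' hcc
    by_cases h1 : 1 ≤ (N c ∩ N c').card
    · have := hmaxT (c, c') (by
        simp only [T, Finset.mem_filter, Finset.mem_univ, true_and]
        exact ⟨hc, hc', hcc, h1⟩)
      exact this
    · omega
  -- Step 4: parts W and Z of the complement of N u are not joined
  obtain ⟨z, hz, hzu, hzb⟩ := h.Q u b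
  obtain ⟨w, hw, hwm⟩ := h.P hu hz (fun g hg hg' => hzu g hg' hg)
  have hbu : b ∉ N u := fun hh => hunb (h.symm _ _ hh)
  have hbw : b ∈ N w := (hwm b).2 ⟨hbu, fun hh => hzb b hh (h.self b)⟩
  have hwu : ∀ g ∈ N w, g ∉ N u := fun g hg => ((hwm g).1 hg).1
  have huniq : ∀ s, (N s).card = K → b ∈ N s → (∀ g ∈ N s, g ∉ N u) → N s = N w := by
    intro s hs hbs hsu
    by_contra hne
    have h1 : ¬ N s ⊆ N w := fun hss => hne (Finset.eq_of_subset_of_card_le hss (by rw [hs, hw]))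
    have h2 : ¬ N w ⊆ N s := fun hss => hne (Finset.eq_of_subset_of_card_le hss (by rw [hs, hw])).symm
    rw [Finset.not_subset] at h1 h2
    obtain ⟨y, hy1, hy2⟩ := h1
    obtain ⟨x, hx1, hx2⟩ := h2
    exact h.uniq hmax hu hb rfl hm1 hunb hs hw hbs hsu hbw hwu hx1 hx2 hy1 hy2
  refine h.caseA hconn hu hw hz hwm hzu ?_
  intro x hx y hy hyx
  obtain ⟨s, hs, hs1, hs2⟩ := h.Q u x
  by_cases hbs : b ∈ N s
  · have := huniq s hs hbs hs1
    exact hs2 x (by rw [this]; exact hx) (h.self x)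
  · obtain ⟨s', hs', hsm'⟩ := h.P hu hs (fun g hg hg' => hs1 g hg' hg)
    have hbs' : b ∈ N s' := (hsm' b).2 ⟨hbu, hbs⟩
    have he := huniq s' hs' hbs' (fun g hg => ((hsm' g).1 hg).1)
    have hyw : y ∉ N w := fun hh => ((hwm y).1 hh).2 hy
    have hyu : y ∉ N u := hzu y hy
    have hys : y ∈ N s := by
      by_contra hh
      exact hyw (by rw [← he]; exact (hsm' y).2 ⟨hyu, hh⟩)
    exact hs2 y hys hyx

end Three

end Pool.Agent.Star
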